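import Mathlib
import Pool.Agent.Helper133.Brouwer

/-!
A criterion for a based map of a cube to be homotopically nontrivial, derived from the
Brouwer fixed point theorem.
-/

namespace Pool.Agent.V1187.St

open scoped unitInterval Topology.Homotopy

/-- rescaling of the cube to coordinates between `-1` and `1`. -/
noncomputable def resc {d : ℕ} (u : Fin d → I) : Fin d → ℝ := fun i => 2 * (u i : ℝ) - 1

/-- the model map from the cube to the punctured space. -/
noncomputable def cmap {d : ℕ} (y : Fin d → ℝ) : ℝ × (Fin d → ℝ) :=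
  (2 * ‖y‖ - 1, (1 - ‖y‖) • y)

lemma continuous_resc {d : ℕ} : Continuous (resc (d := d)) := by
  unfold resc
  fun_prop

lemma continuous_cmap {d : ℕ} : Continuous (cmap (d := d)) := by
  unfold cmap
  fun_prop

lemma norm_resc_le {d : ℕ} (u : Fin d → I) : ‖resc u‖ ≤ 1 := by
  rw [pi_norm_le_iff_of_nonneg zero_le_one]
  intro i
  rw [Real.norm_eq_abs, abs_le]
  have h0 := (u i).2.1
  have h1 := (u i).2.2
  unfold resc
  constructor <;> linarith

lemma norm_resc_boundary {d : ℕ} (u : Fin d → I) (hu : u ∈ Cube.boundary (Fin d)) :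
    ‖resc u‖ = 1 := by
  apply le_antisymm (norm_resc_le u)
  obtain ⟨i, hi⟩ := hu
  have h := norm_le_pi_norm (resc u) i
  refine le_trans ?_ h
  rcases hi with hi | hi <;> simp [resc, hi] <;> norm_num

lemma cmap_ne_zero {d : ℕ} (y : Fin d → ℝ) : cmap y ≠ 0 := by
  intro h
  unfold cmap at h
  rw [Prod.mk_eq_zero] at h
  obtain ⟨h1, h2⟩ := h
  have h3 : ‖y‖ = 1 / 2 := by linarith
  rw [h3, smul_eq_zero] at h2
  rcases h2 with h2 | h2
  · norm_num at h2
  · rw [h2, norm_zero] at h3
    norm_num at h3

lemma cmap_boundary {d : ℕ} (u : Fin d → I) (hu : u ∈ Cube.boundary (Fin d)) :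
    cmap (resc u) = (1, 0) := by
  unfold cmap
  rw [norm_resc_boundary u hu]
  norm_num

/-- clamping of the real line to the unit interval, rescaled. -/
noncomputable def clamp (s : ℝ) : I := Set.projIcc 0 1 zero_le_one ((1 + s) / 2)

lemma continuous_clamp : Continuous clamp := by
  unfold clamp
  exact continuous_projIcc.comp (by fun_prop)

lemma clamp_neg_one : clamp (-1) = 0 := by
  unfold clamp
  have : ((1 : ℝ) + -1) / 2 = 0 := by norm_num
  rw [this, Set.projIcc_of_mem zero_le_one ⟨le_refl (0 : ℝ), zero_le_one⟩]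
  rfl

lemma clamp_one : clamp 1 = 1 := by
  unfold clamp
  have : ((1 : ℝ) + 1) / 2 = 1 := by norm_num
  rw [this, Set.projIcc_of_mem zero_le_one ⟨zero_le_one, le_refl (1 : ℝ)⟩]
  rfl

lemma clamp_val (s : ℝ) (h : |s| ≤ 1) : 2 * ((clamp s : I) : ℝ) - 1 = s := by
  unfold clamp
  rw [abs_le] at h
  rw [Set.projIcc_of_mem zero_le_one ⟨by linarith, by linarith⟩]
  simp only
  ring

/-- A based map of a cube whose composition with a nowhere zero map is the model map up to
positive factors is not homotopically trivial. -/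
theorem not_homotopic_const {d : ℕ} {X : Type*} [TopologicalSpace X] {x0 : X}
    (γ : Ω^ (Fin d) X x0) (g : X → ℝ × (Fin d → ℝ)) (hg : Continuous g) (hg0 : ∀ x, g x ≠ 0)
    (μ0 : ℝ) (hμ0 : 0 < μ0) (hx0 : g x0 = μ0 • ((1 : ℝ), (0 : Fin d → ℝ)))
    (hγ : ∀ u : Fin d → I, ∃ μ : ℝ, 0 < μ ∧ g (γ u) = μ • cmap (resc u)) :
    ¬ GenLoop.Homotopic γ GenLoop.const := by
  rintro ⟨H⟩
  -- the composed map
  let F : ℝ × (Fin d → ℝ) → ℝ × (Fin d → ℝ) := fun x =>
    g (H (clamp x.1, fun i => clamp (x.2 i)))
  have hF : Continuous F := by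
    apply hg.comp
    apply H.continuous.comp
    apply Continuous.prodMk
    · exact continuous_clamp.comp continuous_fst
    · apply continuous_pi
      intro i
      exact continuous_clamp.comp ((continuous_apply i).comp continuous_snd)
  have hF0 : ∀ x, F x ≠ 0 := fun x => hg0 _
  have hFn : ∀ x, 0 < ‖F x‖ := fun x => norm_pos_iff.2 (hF0 x)
  obtain ⟨x, hx⟩ := Helper133.Brouwer.brouwer (fun x => -(‖F x‖⁻¹ • F x))
    ((hF.norm.inv₀ (fun x => (hFn x).ne')).smul hF).neg 1 (by
      intro x
      rw [norm_neg, norm_smul, norm_inv, norm_norm, inv_mul_cancel₀ (hFn x).ne'])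
  have hxn : ‖x‖ = 1 := by
    rw [← hx, norm_neg, norm_smul, norm_inv, norm_norm, inv_mul_cancel₀ (hFn _).ne']
  obtain ⟨s, y⟩ := x
  have hsn : |s| ≤ 1 := by
    rw [← hxn, ← Real.norm_eq_abs]; exact norm_fst_le (s, y)
  have hyn : ‖y‖ ≤ 1 := by
    rw [← hxn]; exact norm_snd_le (s, y)
  have hyi : ∀ i, |y i| ≤ 1 := fun i => by
    rw [← Real.norm_eq_abs]; exact (norm_le_pi_norm y i).trans hyn
  set u : Fin d → I := fun i => clamp (y i) with hu
  have hresc : resc u = y := by
    funext i
    exact clamp_val (y i) (hyi i)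
  set ν : ℝ := ‖F (s, y)‖⁻¹ with hν
  have hνpos : 0 < ν := inv_pos.2 (hFn _)
  have hFe : F (s, y) = g (H (clamp s, u)) := rfl
  have key0 : ∀ w : ℝ × (Fin d → ℝ), F (s, y) = w → (s, y) = -(ν • w) := by
    intro w hw
    rw [← hw]
    exact hx.symm
  by_cases hy1 : ‖y‖ = 1
  · -- side faces
    have hub : u ∈ Cube.boundary (Fin d) := by
      have : ∃ i, |y i| = 1 := by
        by_contra hcon
        push Not at hcon
        have hlt : ∀ i, ‖y i‖ < 1 := fun i => by
          rw [Real.norm_eq_abs]
          exact lt_of_le_of_ne (hyi i) (hcon i)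
        have := (pi_norm_lt_iff (zero_lt_one)).2 hlt
        linarith
      obtain ⟨i, hi⟩ := this
      refine ⟨i, ?_⟩
      rcases (abs_eq zero_le_one).1 hi with h | h
      · right
        simp only [hu, h, clamp_one]
      · left
        simp only [hu, h, clamp_neg_one]
    have h1 : H (clamp s, u) = x0 := by
      rw [H.eq_fst _ hub]
      exact γ.2 u hub
    have h2 := key0 _ (by rw [hFe, h1, hx0])
    have h3 : y = 0 := by
      have := congrArg Prod.snd h2
      simpa using this
    rw [h3, norm_zero] at hy1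
    norm_num at hy1
  · have hs1 : |s| = 1 := by
      have h1 : ‖((s, y) : ℝ × (Fin d → ℝ))‖ = max ‖s‖ ‖y‖ := Prod.norm_def _
      rw [hxn] at h1
      rcases max_choice ‖s‖ ‖y‖ with h | h
      · rw [h] at h1; rw [← Real.norm_eq_abs]; exact h1.symm
      · rw [h] at h1; exact absurd h1.symm hy1
    rcases (abs_eq zero_le_one).1 hs1 with h | h
    · -- top face
      have h1 : H (clamp s, u) = x0 := by
        rw [h, clamp_one]
        have := H.apply_one u
        exact this
      have h2 := key0 _ (by rw [hFe, h1, hx0])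
      have h3 : s = -(ν * (μ0 * 1)) := by
        have := congrArg Prod.fst h2
        simpa using this
      have : 0 < ν * (μ0 * 1) := by positivity
      linarith
    · -- bottom face
      have h1 : H (clamp s, u) = γ u := by
        rw [h, clamp_neg_one]
        exact H.apply_zero u
      obtain ⟨μ, hμ, hμe⟩ := hγ u
      have h2 := key0 _ (by rw [hFe, h1, hμe, hresc])
      have h3 : s = -(ν * (μ * (2 * ‖y‖ - 1))) := by
        have := congrArg Prod.fst h2
        simpa [cmap] using this
      have h4 : y = -(ν • (μ • ((1 - ‖y‖) • y))) := by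
        have := congrArg Prod.snd h2
        simpa [cmap] using this
      have h5 : (1 + ν * (μ * (1 - ‖y‖))) • y = 0 := by
        rw [add_smul, one_smul, mul_smul, mul_smul]
        nth_rewrite 1 [h4]
        simp
      have h6 : 0 < 1 + ν * (μ * (1 - ‖y‖)) := by
        have : 0 ≤ ν * (μ * (1 - ‖y‖)) := by
          apply mul_nonneg hνpos.le
          apply mul_nonneg hμ.le
          linarith
        linarith
      rw [smul_eq_zero] at h5
      rcases h5 with h5 | h5
      · linarith
      · rw [h5, norm_zero, h] at h3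
        have : 0 < ν * μ := by positivity
        nlinarith

end Pool.Agent.V1187.St
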