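import Mathlib
import Pool.Agent.V1187.St1

/-!
Geometric realization of a finite abstract simplicial complex, and a criterion: a complex that
contains a cross-polytope one of whose facets is a facet of the whole complex has a
nontrivial homotopy group.
-/

namespace Pool.Agent.V1187.St

open scoped unitInterval Topology.Homotopy

/-- The geometric realization of a finite abstract simplicial complex, in barycentric
coordinates, with the subspace topology of the finite product of copies of the real line. -/
def Realization {V : Type} [Fintype V] (K : AbstractSimplicialComplex V) : Type :=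
  {x : V → ℝ // (∀ v, 0 ≤ x v) ∧ ∑ v, x v = 1 ∧ ∃ s ∈ K.faces, ∀ v, x v ≠ 0 → v ∈ s}

instance {V : Type} [Fintype V] (K : AbstractSimplicialComplex V) :
    TopologicalSpace (Realization K) :=
  inferInstanceAs (TopologicalSpace {x : V → ℝ // _})

section Cross

variable {V : Type} [Fintype V] [DecidableEq V] {d : ℕ}

/-- coordinates indexed by the pairs. -/
def coo (z : ℝ × (Fin d → ℝ)) (o : Option (Fin d)) : ℝ := o.elim z.1 z.2

lemma continuous_coo (o : Option (Fin d)) : Continuous (fun z : ℝ × (Fin d → ℝ) => coo z o) := by
  cases o with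
  | none => exact continuous_fst
  | some k => exact (continuous_apply k).comp continuous_snd

lemma eq_zero_of_coo (z : ℝ × (Fin d → ℝ)) (h : ∀ o, coo z o = 0) : z = 0 := by
  apply Prod.ext
  · exact h none
  · funext k
    exact h (some k)

/-- the mass of a point. -/
noncomputable def mass (z : ℝ × (Fin d → ℝ)) : ℝ := ∑ o, |coo z o|

lemma continuous_mass : Continuous (mass (d := d)) := by
  unfold mass
  exact continuous_finsetSum _ (fun o _ => (continuous_coo o).abs)

lemma mass_pos (z : ℝ × (Fin d → ℝ)) (hz : z ≠ 0) : 0 < mass z := by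
  by_contra hcon
  apply hz
  apply eq_zero_of_coo
  intro o
  have h0 : mass z = 0 := le_antisymm (not_lt.1 hcon) (Finset.sum_nonneg fun o _ => abs_nonneg _)
  have := (Finset.sum_eq_zero_iff_of_nonneg (fun o _ => abs_nonneg (coo z o))).1 h0 o
    (Finset.mem_univ _)
  exact abs_eq_zero.1 this

/-- the standard map of the punctured space to the cross-polytope on two families of
vertices, in barycentric coordinates. -/
noncomputable def crossFun (a b : Option (Fin d) → V) (z : ℝ × (Fin d → ℝ)) (v : V) : ℝ :=
  (∑ o, ((if v = a o then max (coo z o) 0 else 0) + (if v = b o then max (-coo z o) 0 else 0)))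
    / mass z

lemma max_add_max_neg (t : ℝ) : max t 0 + max (-t) 0 = |t| := by
  rcases le_total 0 t with h | h
  · rw [max_eq_left h, max_eq_right (by linarith), abs_of_nonneg h, add_zero]
  · rw [max_eq_right h, max_eq_left (by linarith), abs_of_nonpos h, zero_add]

lemma max_sub_max_neg (t : ℝ) : max t 0 - max (-t) 0 = t := by
  rcases le_total 0 t with h | h
  · rw [max_eq_left h, max_eq_right (by linarith), sub_zero]
  · rw [max_eq_right h, max_eq_left (by linarith)]; ring

lemma crossFun_nonneg (a b : Option (Fin d) → V) (z : ℝ × (Fin d → ℝ)) (v : V) :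
    0 ≤ crossFun a b z v := by
  unfold crossFun
  apply div_nonneg
  · apply Finset.sum_nonneg
    intro o _
    apply add_nonneg
    · split_ifs
      · exact le_max_right _ _
      · exact le_refl _
    · split_ifs
      · exact le_max_right _ _
      · exact le_refl _
  · exact Finset.sum_nonneg fun o _ => abs_nonneg _

lemma crossFun_sum (a b : Option (Fin d) → V) (z : ℝ × (Fin d → ℝ)) (hz : z ≠ 0) :
    ∑ v, crossFun a b z v = 1 := by
  unfold crossFun
  rw [← Finset.sum_div, Finset.sum_comm]
  rw [div_eq_one_iff_eq (mass_pos z hz).ne']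
  unfold mass
  apply Finset.sum_congr rfl
  intro o _
  rw [Finset.sum_add_distrib, Finset.sum_ite_eq', Finset.sum_ite_eq']
  simp only [Finset.mem_univ, if_true]
  exact max_add_max_neg _

lemma crossFun_ne_zero (a b : Option (Fin d) → V) (z : ℝ × (Fin d → ℝ)) (v : V)
    (h : crossFun a b z v ≠ 0) : ∃ o, (v = a o ∧ 0 < coo z o) ∨ (v = b o ∧ coo z o < 0) := by
  by_contra hcon
  push Not at hcon
  apply h
  unfold crossFun
  rw [Finset.sum_eq_zero, zero_div]
  intro o _
  obtain ⟨h1, h2⟩ := hcon o
  have e1 : (if v = a o then max (coo z o) 0 else 0) = 0 := by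
    split_ifs with hv
    · exact max_eq_right (h1 hv)
    · rfl
  have e2 : (if v = b o then max (-coo z o) 0 else 0) = 0 := by
    split_ifs with hv
    · exact max_eq_right (by linarith [h2 hv])
    · rfl
  rw [e1, e2, add_zero]

lemma crossFun_a (a b : Option (Fin d) → V) (ha : Function.Injective a)
    (hab : ∀ o o', a o ≠ b o') (z : ℝ × (Fin d → ℝ)) (o : Option (Fin d)) :
    crossFun a b z (a o) = max (coo z o) 0 / mass z := by
  unfold crossFun
  congr 1
  rw [Finset.sum_eq_single o]
  · simp [hab]
  · intro o' _ ho'
    have h1 : ¬ a o = a o' := fun h => ho' (ha h).symm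
    simp [h1, hab]
  · intro h; exact absurd (Finset.mem_univ _) h

lemma crossFun_b (a b : Option (Fin d) → V) (hb : Function.Injective b)
    (hab : ∀ o o', a o ≠ b o') (z : ℝ × (Fin d → ℝ)) (o : Option (Fin d)) :
    crossFun a b z (b o) = max (-coo z o) 0 / mass z := by
  unfold crossFun
  congr 1
  rw [Finset.sum_eq_single o]
  · simp [(hab _ _).symm]
  · intro o' _ ho'
    have h1 : ¬ b o = b o' := fun h => ho' (hb h).symm
    simp [h1, (hab _ _).symm]
  · intro h; exact absurd (Finset.mem_univ _) h

/-- the hypotheses of the criterion: a cross-polytope with a facet that is maximal. -/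
structure CrossData (K : AbstractSimplicialComplex V) (a b : Option (Fin d) → V) : Prop where
  ha : Function.Injective a
  hb : Function.Injective b
  hab : ∀ o o', a o ≠ b o'
  sel : ∀ c : Option (Fin d) → Bool,
    Finset.univ.image (fun o => if c o then a o else b o) ∈ K.faces
  opp : ∀ s ∈ K.faces, ∀ o, ¬ (a o ∈ s ∧ b o ∈ s)
  top : ∀ s ∈ K.faces, (∀ o, a o ∈ s) → ∀ v ∈ s, ∃ o, v = a o

variable {K : AbstractSimplicialComplex V} {a b : Option (Fin d) → V}

/-- the map of the punctured space to the realization. -/
noncomputable def crossMap (D : CrossData K a b) (z : ℝ × (Fin d → ℝ)) (hz : z ≠ 0) :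
    Realization K :=
  ⟨crossFun a b z, crossFun_nonneg a b z, crossFun_sum a b z hz, by
    refine ⟨Finset.univ.image (fun o => if (decide (0 < coo z o)) then a o else b o),
      D.sel (fun o => decide (0 < coo z o)), ?_⟩
    intro v hv
    obtain ⟨o, ho⟩ := crossFun_ne_zero a b z v hv
    rw [Finset.mem_image]
    refine ⟨o, Finset.mem_univ _, ?_⟩
    rcases ho with ⟨h1, h2⟩ | ⟨h1, h2⟩
    · simp [h1, h2]
    · simp [h1, not_lt.2 h2.le]⟩

/-- the total mass away from the cross-polytope. -/
noncomputable def rest (a b : Option (Fin d) → V) (x : V → ℝ) : ℝ :=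
  ∑ v, if (∃ o, v = a o ∨ v = b o) then 0 else x v

/-- the test map. -/
noncomputable def test (a b : Option (Fin d) → V) (x : V → ℝ) : ℝ × (Fin d → ℝ) :=
  (x (a none) - x (b none) - rest a b x, fun k => x (a (some k)) - x (b (some k)) - rest a b x)

lemma coo_test (a b : Option (Fin d) → V) (x : V → ℝ) (o : Option (Fin d)) :
    coo (test a b x) o = x (a o) - x (b o) - rest a b x := by
  cases o <;> rfl

lemma continuous_rest (a b : Option (Fin d) → V) : Continuous (rest a b) := by
  unfold rest
  apply continuous_finsetSum
  intro v _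
  split_ifs
  · exact continuous_const
  · exact continuous_apply v

lemma continuous_test (a b : Option (Fin d) → V) : Continuous (test a b) := by
  unfold test
  apply Continuous.prodMk
  · have h1 : Continuous (fun x : V → ℝ => x (a none)) := continuous_apply _
    have h2 : Continuous (fun x : V → ℝ => x (b none)) := continuous_apply _
    exact (h1.sub h2).sub (continuous_rest a b)
  · apply continuous_pi
    intro k
    have h1 : Continuous (fun x : V → ℝ => x (a (some k))) := continuous_apply _
    have h2 : Continuous (fun x : V → ℝ => x (b (some k))) := continuous_apply _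
    exact (h1.sub h2).sub (continuous_rest a b)

lemma test_ne_zero (D : CrossData K a b) (x : Realization K) : test a b x.1 ≠ 0 := by
  intro h
  obtain ⟨x, hx0, hx1, s, hs, hxs⟩ := x
  simp only at h
  have hc : ∀ o, x (a o) - x (b o) - rest a b x = 0 := fun o => by
    rw [← coo_test, h]
    cases o <;> rfl
  have hR0 : 0 ≤ rest a b x := by
    apply Finset.sum_nonneg
    intro v _
    split_ifs
    · exact le_refl _
    · exact hx0 v
  have hopp : ∀ o, x (a o) = 0 ∨ x (b o) = 0 := by
    intro o
    by_contra hcon
    push Not at hcon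
    exact D.opp s hs o ⟨hxs _ hcon.1, hxs _ hcon.2⟩
  rcases hR0.lt_or_eq with hR | hR
  · have hapos : ∀ o, 0 < x (a o) := fun o => by
      have := hc o
      have := hx0 (b o)
      linarith
    have htop := D.top s hs (fun o => hxs _ (hapos o).ne')
    have : rest a b x = 0 := by
      apply Finset.sum_eq_zero
      intro v _
      split_ifs with hv
      · rfl
      · by_contra hne
        obtain ⟨o, ho⟩ := htop v (hxs v hne)
        exact hv ⟨o, Or.inl ho⟩
    linarith
  · have hab : ∀ o, x (a o) = 0 ∧ x (b o) = 0 := by
      intro o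
      have h1 := hc o
      rw [← hR, sub_zero] at h1
      rcases hopp o with h2 | h2
      · exact ⟨h2, by linarith⟩
      · exact ⟨by linarith, h2⟩
    have hall : ∀ v, x v = 0 := by
      intro v
      by_cases hv : ∃ o, v = a o ∨ v = b o
      · obtain ⟨o, ho | ho⟩ := hv
        · rw [ho]; exact (hab o).1
        · rw [ho]; exact (hab o).2
      · have h1 := (Finset.sum_eq_zero_iff_of_nonneg (s := Finset.univ)
          (f := fun v => if (∃ o, v = a o ∨ v = b o) then 0 else x v) (by
            intro v _
            show (0 : ℝ) ≤ if (∃ o, v = a o ∨ v = b o) then 0 else x v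
            split_ifs
            · exact le_refl _
            · exact hx0 v)).1 hR.symm v (Finset.mem_univ _)
        simpa [hv] using h1
    rw [Finset.sum_eq_zero (fun v _ => hall v)] at hx1
    norm_num at hx1

lemma test_crossMap (D : CrossData K a b) (z : ℝ × (Fin d → ℝ)) (hz : z ≠ 0) :
    test a b (crossMap D z hz).1 = (mass z)⁻¹ • z := by
  have hrest : rest a b (crossFun a b z) = 0 := by
    apply Finset.sum_eq_zero
    intro v _
    split_ifs with hv
    · rfl
    · by_contra hne
      obtain ⟨o, ho | ho⟩ := crossFun_ne_zero a b z v hne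
      · exact hv ⟨o, Or.inl ho.1⟩
      · exact hv ⟨o, Or.inr ho.1⟩
  have hcoo : ∀ o, coo (test a b (crossMap D z hz).1) o = (mass z)⁻¹ * coo z o := by
    intro o
    rw [coo_test]
    show crossFun a b z (a o) - crossFun a b z (b o) - rest a b (crossFun a b z) = _
    rw [hrest, crossFun_a a b D.ha D.hab, crossFun_b a b D.hb D.hab, sub_zero, ← sub_div,
      max_sub_max_neg]
    field_simp
  apply Prod.ext
  · exact hcoo none
  · funext k
    exact hcoo (some k)

lemma continuous_crossFun_comp {Y : Type*} [TopologicalSpace Y] (a b : Option (Fin d) → V)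
    (f : Y → ℝ × (Fin d → ℝ)) (hf : Continuous f) (hf0 : ∀ y, f y ≠ 0) :
    Continuous (fun y => crossFun a b (f y)) := by
  apply continuous_pi
  intro v
  unfold crossFun
  apply Continuous.div
  · apply continuous_finsetSum
    intro o _
    have hc : Continuous (fun y => coo (f y) o) := (continuous_coo o).comp hf
    apply Continuous.add
    · split_ifs
      · exact hc.max continuous_const
      · exact continuous_const
    · split_ifs
      · exact hc.neg.max continuous_const
      · exact continuous_const
  · exact continuous_mass.comp hf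
  · intro y
    exact (mass_pos _ (hf0 y)).ne'

lemma one_zero_ne : ((1 : ℝ), (0 : Fin d → ℝ)) ≠ 0 := by
  intro h
  have := congrArg Prod.fst h
  norm_num at this

/-- the based map of the cube. -/
noncomputable def crossLoop (D : CrossData K a b) :
    Ω^ (Fin d) (Realization K) (crossMap D ((1 : ℝ), (0 : Fin d → ℝ)) one_zero_ne) :=
  ⟨⟨fun u => crossMap D (cmap (resc u)) (cmap_ne_zero _), by
      exact Continuous.subtype_mk (continuous_crossFun_comp a b (fun u => cmap (resc u))
        (continuous_cmap.comp continuous_resc) (fun u => cmap_ne_zero _)) _⟩, by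
    intro u hu
    show crossMap D (cmap (resc u)) (cmap_ne_zero _) = _
    apply Subtype.ext
    show crossFun a b (cmap (resc u)) = crossFun a b _
    rw [cmap_boundary u hu]⟩

/-- A complex containing a cross-polytope with a facet that is maximal in the whole complex has
a nontrivial homotopy group in the dimension of the cross-polytope. -/
theorem not_subsingleton (D : CrossData K a b) :
    ¬ Subsingleton (HomotopyGroup.Pi d (Realization K)
      (crossMap D ((1 : ℝ), (0 : Fin d → ℝ)) one_zero_ne)) := by
  intro hsub
  have h1 : (Quotient.mk (GenLoop.Homotopic.setoid (Fin d) _) (crossLoop D)) =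
      Quotient.mk (GenLoop.Homotopic.setoid (Fin d) _) GenLoop.const :=
    @Subsingleton.elim _ hsub _ _
  have h2 : GenLoop.Homotopic (crossLoop D) GenLoop.const := Quotient.exact h1
  refine not_homotopic_const (crossLoop D) (fun x => test a b x.1)
    ((continuous_test a b).comp continuous_subtype_val) (test_ne_zero D)
    (mass ((1 : ℝ), (0 : Fin d → ℝ)))⁻¹ (inv_pos.2 (mass_pos _ one_zero_ne))
    (test_crossMap D _ one_zero_ne) ?_ h2
  intro u
  exact ⟨(mass (cmap (resc u)))⁻¹, inv_pos.2 (mass_pos _ (cmap_ne_zero _)),
    test_crossMap D _ (cmap_ne_zero _)⟩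

end Cross

end Pool.Agent.V1187.St
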