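import Mathlib

set_option autoImplicit false
open Set Filter Topology

namespace Pool.Agent.V1187.TT

/-- Tails of a series. -/
noncomputable def r (x : ℕ → ℝ) (k : ℕ) : ℝ := ∑' j, x (k + j)

/-- Subsums from index `m` on. -/
noncomputable def g (x : ℕ → ℝ) (m : ℕ) (ω : ℕ → Bool) : ℝ := ∑' j, if ω j then x (m + j) else 0

section
variable {x : ℕ → ℝ} (hx : ∀ k, 0 < x k) (hs : Summable x)
include hx hs

theorem summable_shift (k : ℕ) : Summable (fun j => x (k + j)) := by
  have := (summable_nat_add_iff (f := x) k).2 hs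
  simpa only [add_comm] using this

theorem summable_sel (m : ℕ) (ω : ℕ → Bool) : Summable (fun j => if ω j then x (m + j) else 0) := by
  refine Summable.of_nonneg_of_le (fun j => ?_) (fun j => ?_) (summable_shift hx hs m)
  · split_ifs
    · exact (hx _).le
    · exact le_rfl
  · split_ifs
    · exact le_rfl
    · exact (hx _).le

theorem r_succ (k : ℕ) : r x k = x k + r x (k + 1) := by
  unfold r
  rw [(summable_shift hx hs k).tsum_eq_zero_add]
  simp only [add_zero]
  congr 1
  refine tsum_congr (fun j => ?_)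
  congr 1; omega

theorem r_nonneg (k : ℕ) : 0 ≤ r x k := tsum_nonneg (fun j => (hx _).le)

theorem r_pos (k : ℕ) : 0 < r x k := by
  rw [r_succ hx hs]
  have := hx k
  have := r_nonneg hx hs (k + 1)
  linarith

theorem g_nonneg (m : ℕ) (ω : ℕ → Bool) : 0 ≤ g x m ω := by
  refine tsum_nonneg (fun j => ?_)
  split_ifs
  · exact (hx _).le
  · exact le_rfl

theorem g_le (m : ℕ) (ω : ℕ → Bool) : g x m ω ≤ r x m := by
  refine Summable.tsum_le_tsum (fun j => ?_) (summable_sel hx hs m ω) (summable_shift hx hs m)
  split_ifs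
  · exact le_rfl
  · exact (hx _).le

theorem g_false (m : ℕ) : g x m (fun _ => false) = 0 := by
  unfold g; simp

theorem g_split (k : ℕ) (ω : ℕ → Bool) :
    g x 0 ω = ∑ i ∈ Finset.range k, (if ω i then x i else 0) + g x k (fun j => ω (k + j)) := by
  unfold g
  have h := (summable_sel hx hs 0 ω).sum_add_tsum_nat_add k
  rw [← h]
  congr 1
  · refine Finset.sum_congr rfl (fun i _ => by simp)
  · refine tsum_congr (fun j => ?_)
    rw [add_comm j k]; simp

theorem g_cons (k : ℕ) (ω : ℕ → Bool) :
    g x k ω = (if ω 0 then x k else 0) + g x (k + 1) (fun j => ω (j + 1)) := by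
  unfold g
  rw [(summable_sel hx hs k ω).tsum_eq_zero_add]
  simp only [add_zero]
  congr 1
  refine tsum_congr (fun j => ?_)
  rw [show k + (j + 1) = k + 1 + j by omega]

theorem g_continuous (m : ℕ) : Continuous (g x m) := by
  unfold g
  refine continuous_tsum (u := fun j => x (m + j)) (fun j => ?_) (summable_shift hx hs m)
    (fun j ω => ?_)
  · have h1 : Continuous (fun ω : ℕ → Bool => ω j) := continuous_apply j
    have h2 : Continuous (fun b : Bool => if b then x (m + j) else (0 : ℝ)) :=
      continuous_of_discreteTopology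
    exact h2.comp h1
  · rw [Real.norm_eq_abs]
    split_ifs
    · rw [abs_of_pos (hx _)]
    · rw [abs_zero]; exact (hx _).le

/-- Difference of two subsums at the first place where they differ. -/
theorem g_diff (k : ℕ) (ω θ : ℕ → Bool) (h : ∀ i < k, ω i = θ i) :
    |g x 0 ω - g x 0 θ - ((if ω k then x k else 0) - (if θ k then x k else 0))| ≤ r x (k + 1) := by
  rw [g_split hx hs (k + 1) ω, g_split hx hs (k + 1) θ, Finset.sum_range_succ, Finset.sum_range_succ]
  have e : ∑ i ∈ Finset.range k, (if ω i then x i else (0 : ℝ))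
      = ∑ i ∈ Finset.range k, (if θ i then x i else 0) := by
    refine Finset.sum_congr rfl (fun i hi => ?_)
    rw [h i (Finset.mem_range.1 hi)]
  rw [e, abs_le]
  have h1 := g_nonneg hx hs (k + 1) (fun j => ω (k + 1 + j))
  have h2 := g_le hx hs (k + 1) (fun j => ω (k + 1 + j))
  have h3 := g_nonneg hx hs (k + 1) (fun j => θ (k + 1 + j))
  have h4 := g_le hx hs (k + 1) (fun j => θ (k + 1 + j))
  constructor <;> linarith

theorem g_injective (m : ℕ) (hlac : ∀ k, r x (k + 1) < x k) : Function.Injective (g x m) := by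
  intro ω θ heq
  by_contra hne
  have hex : ∃ i, ω i ≠ θ i := by
    by_contra hc; push_neg at hc; exact hne (funext hc)
  classical
  obtain ⟨i, hi, hmin⟩ : ∃ i, ω i ≠ θ i ∧ ∀ j < i, ω j = θ j := by
    refine ⟨Nat.find hex, Nat.find_spec hex, fun j hj => ?_⟩
    have := Nat.find_min hex hj
    push_neg at this; exact this
  -- shift to index zero: use the sequence `x (m + ·)`
  set y : ℕ → ℝ := fun j => x (m + j) with hy
  have hyp : ∀ k, 0 < y k := fun k => hx _
  have hys : Summable y := summable_shift hx hs m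
  have hg : ∀ ω' : ℕ → Bool, g y 0 ω' = g x m ω' := by
    intro ω'; unfold g; simp [hy]
  have hr : r y (i + 1) = r x (m + i + 1) := by
    unfold r; refine tsum_congr (fun j => ?_); simp only [hy]; congr 1; omega
  have hd := g_diff hyp hys i ω θ hmin
  rw [hg, hg, heq, sub_self, zero_sub, abs_neg, hr] at hd
  have hl := hlac (m + i)
  have hxi : y i = x (m + i) := rfl
  rcases hωi : ω i with _ | _ <;> rcases hθi : θ i with _ | _
  · exact hi (by rw [hωi, hθi])
  · rw [hωi, hθi] at hd
    simp only [Bool.false_eq_true, if_false, if_true, zero_sub, abs_neg] at hd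
    rw [abs_of_pos (hyp i), hxi] at hd; linarith
  · rw [hωi, hθi] at hd
    simp only [Bool.false_eq_true, if_false, if_true, sub_zero] at hd
    rw [abs_of_pos (hyp i), hxi] at hd; linarith
  · exact hi (by rw [hωi, hθi])

/-- The local condition which makes `S` a union of translates of the set of subsums. -/
theorem cover (S : Set ℝ)
    (H : ∀ s ∈ S, (∀ k, (∀ z, |z - (s + x k)| ≤ r x (k + 1) → z ∈ S) ∨
        (∀ z, |z - (s - x k)| ≤ r x (k + 1) → z ∈ S)) ∨
      ∃ (m : ℕ) (t : ℝ) (ω : ℕ → Bool), (∀ k < m, (∀ z, |z - (s + x k)| ≤ r x (k + 1) → z ∈ S) ∨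
        (∀ z, |z - (s - x k)| ≤ r x (k + 1) → z ∈ S)) ∧ s = t + g x m ω ∧
        ∀ ω', t + g x m ω' ∈ S) :
    ∀ s ∈ S, ∃ (t : ℝ) (ω : ℕ → Bool), s = t + g x 0 ω ∧ ∀ ω', t + g x 0 ω' ∈ S := by
  classical
  intro s hsS
  -- the common step
  have key : ∀ (θ ω' : ℕ → Bool) (k : ℕ), (∀ i < k, ω' i = θ i) → ω' k ≠ θ k →
      (θ k = false → ∀ z, |z - (s + x k)| ≤ r x (k + 1) → z ∈ S) →
      (θ k = true → ∀ z, |z - (s - x k)| ≤ r x (k + 1) → z ∈ S) →
      (s - g x 0 θ) + g x 0 ω' ∈ S := by
    intro θ ω' k h1 h2 h3 h4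
    have hd := g_diff hx hs k ω' θ h1
    rcases hωi : ω' k with _ | _ <;> rcases hθi : θ k with _ | _
    · exact absurd (by rw [hωi, hθi]) h2
    · apply h4 hθi
      rw [hωi, hθi] at hd
      simp only [Bool.false_eq_true, if_false, if_true] at hd
      have : s - g x 0 θ + g x 0 ω' - (s - x k) = g x 0 ω' - g x 0 θ - (0 - x k) := by ring
      rw [this]; exact hd
    · apply h3 hθi
      rw [hωi, hθi] at hd
      simp only [Bool.false_eq_true, if_false, if_true] at hd
      have : s - g x 0 θ + g x 0 ω' - (s + x k) = g x 0 ω' - g x 0 θ - (x k - 0) := by ring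
      rw [this]; exact hd
    · exact absurd (by rw [hωi, hθi]) h2
  rcases H s hsS with hall | ⟨m, t, ω, hlt, hst, hmem⟩
  · set θ : ℕ → Bool := fun k => if ∀ z, |z - (s + x k)| ≤ r x (k + 1) → z ∈ S then false else true
      with hθ
    refine ⟨s - g x 0 θ, θ, by ring, fun ω' => ?_⟩
    by_cases heq : ω' = θ
    · rw [heq]; simpa using hsS
    have hex : ∃ i, ω' i ≠ θ i := by
      by_contra hc; push_neg at hc; exact heq (funext hc)
    refine key θ ω' (Nat.find hex) (fun j hj => ?_) (Nat.find_spec hex) ?_ ?_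
    · have := Nat.find_min hex hj
      push_neg at this; exact this
    · intro hf
      by_contra hc
      simp only [hθ, if_neg hc] at hf
      exact Bool.noConfusion hf
    · intro hf
      rcases hall (Nat.find hex) with h | h
      · simp only [hθ, if_pos h] at hf
        exact Bool.noConfusion hf
      · exact h
  · set θ : ℕ → Bool := fun k => if k < m then
        (if ∀ z, |z - (s + x k)| ≤ r x (k + 1) → z ∈ S then false else true) else ω (k - m) with hθ
    refine ⟨s - g x 0 θ, θ, by ring, fun ω' => ?_⟩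
    by_cases hex : ∃ i, i < m ∧ ω' i ≠ θ i
    · obtain ⟨hf1, hf2⟩ := Nat.find_spec hex
      refine key θ ω' (Nat.find hex) (fun j hj => ?_) hf2 ?_ ?_
      · have := Nat.find_min hex hj
        push_neg at this; exact this (hj.trans hf1)
      · intro hf
        by_contra hc
        simp only [hθ, if_pos hf1, if_neg hc] at hf
        exact Bool.noConfusion hf
      · intro hf
        rcases hlt (Nat.find hex) hf1 with h | h
        · simp only [hθ, if_pos hf1, if_pos h] at hf
          exact Bool.noConfusion hf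
        · exact h
    · push_neg at hex
      rw [g_split hx hs m ω', g_split hx hs m θ]
      have e : ∑ i ∈ Finset.range m, (if ω' i then x i else (0 : ℝ))
          = ∑ i ∈ Finset.range m, (if θ i then x i else 0) := by
        refine Finset.sum_congr rfl (fun i hi => ?_)
        rw [hex i (Finset.mem_range.1 hi)]
      have e2 : (fun j => θ (m + j)) = ω := by
        funext j
        simp only [hθ]
        rw [if_neg (by omega)]
        congr 1; omega
      rw [e, e2]
      have := hmem (fun j => ω' (m + j))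
      have e3 : s - (∑ i ∈ Finset.range m, (if θ i then x i else 0) + g x m ω)
          + (∑ i ∈ Finset.range m, (if θ i then x i else 0) + g x m (fun j => ω' (m + j)))
          = t + g x m (fun j => ω' (m + j)) := by rw [hst]; ring
      rw [e3]; exact this

/-- A compact union of translates of the set of subsums is a sum of compact sets. -/
theorem assemble (S : Set ℝ) (hS : IsCompact S) (hne : S.Nonempty)
    (hcov : ∀ s ∈ S, ∃ (t : ℝ) (ω : ℕ → Bool), s = t + g x 0 ω ∧ ∀ ω', t + g x 0 ω' ∈ S) :
    ∃ K : ℕ → Set ℝ, (∀ i, IsCompact (K i) ∧ (0 : ℝ) ∈ K i ∧ K i ⊆ Ici 0 ∧ 0 < Metric.diam (K i)) ∧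
      Tendsto (fun i => Metric.diam (K i)) atTop (𝓝 0) ∧
      Summable (fun i => Metric.diam (K i)) ∧ (∀ i, ∃ a, 0 < a ∧ K (i + 1) = {0, a}) ∧
      Nonempty (S ≃ₜ {s : ℝ | ∃ y : ℕ → ℝ, (∀ j, y j ∈ K j) ∧ s = ∑' j, y j}) := by
  classical
  set μ := sInf S with hμ
  have hμS : μ ∈ S := hS.sInf_mem hne
  have hμle : ∀ s ∈ S, μ ≤ s := fun s h => csInf_le hS.bddBelow h
  set K0 : Set ℝ := {t | ∀ ω', t + g x 0 ω' ∈ S} with hK0
  have hK0S : K0 ⊆ S := by
    intro t ht
    have := ht (fun _ => false)
    rwa [g_false hx hs, add_zero] at this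
  have hK0c : IsCompact K0 := by
    refine hS.of_isClosed_subset ?_ hK0S
    have : K0 = ⋂ ω' : ℕ → Bool, (fun t => t + g x 0 ω') ⁻¹' S := by
      ext t; simp [hK0]
    rw [this]
    exact isClosed_iInter (fun ω' => hS.isClosed.preimage (continuous_add_const _))
  have hμK : μ ∈ K0 := by
    obtain ⟨t, ω, h1, h2⟩ := hcov μ hμS
    have ht : t ∈ K0 := h2
    have h3 := hμle t (hK0S ht)
    have h4 := g_nonneg hx hs 0 ω
    have : t = μ := by linarith
    rw [← this]; exact ht
  set A : Set ℝ := {u | ∃ t ∈ K0, ∃ b : Bool, u = (t - μ) + (if b then x 0 else 0)} with hA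
  have hAc : IsCompact A := by
    have : A = (fun t => t - μ) '' K0 ∪ (fun t => t - μ + x 0) '' K0 := by
      ext u
      constructor
      · rintro ⟨t, ht, b, rfl⟩
        cases b
        · exact Or.inl ⟨t, ht, by simp⟩
        · exact Or.inr ⟨t, ht, by simp⟩
      · rintro (⟨t, ht, rfl⟩ | ⟨t, ht, rfl⟩)
        · exact ⟨t, ht, false, by simp⟩
        · exact ⟨t, ht, true, by simp⟩
    rw [this]
    exact (hK0c.image (by fun_prop)).union (hK0c.image (by fun_prop))
  have hA0 : (0 : ℝ) ∈ A := ⟨μ, hμK, false, by simp⟩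
  have hA1 : x 0 ∈ A := ⟨μ, hμK, true, by simp⟩
  have hApos : A ⊆ Ici 0 := by
    rintro u ⟨t, ht, b, rfl⟩
    have h1 := hμle t (hK0S ht)
    have h2 := hx 0
    rw [mem_Ici]
    split_ifs <;> linarith
  set K : ℕ → Set ℝ := fun i => match i with
    | 0 => A
    | i + 1 => {0, x (i + 1)} with hK
  have hd : ∀ i, Metric.diam (K (i + 1)) = x (i + 1) := by
    intro i
    simp only [hK]
    rw [Metric.diam_pair, Real.dist_eq, zero_sub, abs_neg, abs_of_pos (hx _)]
  refine ⟨K, ?_, ?_, ?_, fun i => ⟨x (i + 1), hx _, rfl⟩, ?_⟩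
  · intro i
    match i with
    | 0 =>
      refine ⟨hAc, hA0, hApos, ?_⟩
      have h1 : dist (0 : ℝ) (x 0) ≤ Metric.diam (K 0) :=
        Metric.dist_le_diam_of_mem hAc.isBounded hA0 hA1
      rw [Real.dist_eq, zero_sub, abs_neg, abs_of_pos (hx _)] at h1
      exact lt_of_lt_of_le (hx 0) h1
    | i + 1 =>
      refine ⟨?_, ?_, ?_, ?_⟩
      · exact (Set.toFinite ({0, x (i + 1)} : Set ℝ)).isCompact
      · simp [hK]
      · intro u hu
        simp only [hK, mem_insert_iff, mem_singleton_iff] at hu
        rw [mem_Ici]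
        rcases hu with rfl | rfl
        · exact le_refl (0 : ℝ)
        · exact (hx _).le
      · rw [hd]; exact hx _
  · rw [← tendsto_add_atTop_iff_nat 1]
    simp only [hd]
    exact (tendsto_add_atTop_iff_nat 1).2 hs.tendsto_atTop_zero
  · rw [← summable_nat_add_iff 1]
    simp only [hd]
    exact (summable_nat_add_iff 1).2 hs
  · have hset : (fun z => z - μ) '' S = {s : ℝ | ∃ y : ℕ → ℝ, (∀ j, y j ∈ K j) ∧ s = ∑' j, y j} := by
      ext s
      constructor
      · rintro ⟨z, hz, rfl⟩
        obtain ⟨t, ω, h1, h2⟩ := hcov z hz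
        refine ⟨fun j => match j with
          | 0 => (t - μ) + (if ω 0 then x 0 else 0)
          | j + 1 => if ω (j + 1) then x (j + 1) else 0, ?_, ?_⟩
        · intro j
          match j with
          | 0 => exact ⟨t, h2, ω 0, rfl⟩
          | j + 1 =>
            simp only [hK]
            split_ifs <;> simp
        · have hsum : Summable (fun j : ℕ => (match j with
              | 0 => (t - μ) + (if ω 0 then x 0 else 0)
              | j + 1 => if ω (j + 1) then x (j + 1) else 0 : ℝ)) := by
            rw [← summable_nat_add_iff 1]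
            have := (summable_nat_add_iff 1).2 (summable_sel hx hs 0 ω)
            simpa only [zero_add] using this
          rw [hsum.tsum_eq_zero_add]
          simp only [h1]
          rw [g_cons hx hs 0 ω]
          have : g x (0 + 1) (fun j => ω (j + 1)) = ∑' j, if ω (j + 1) then x (j + 1) else 0 := by
            unfold g; refine tsum_congr (fun j => ?_); rw [show 0 + 1 + j = j + 1 by omega]
          rw [this]; ring
      · rintro ⟨y, hy, rfl⟩
        obtain ⟨t, ht, b, hb⟩ := hy 0
        set ω : ℕ → Bool := fun j => match j with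
          | 0 => b
          | j + 1 => decide (y (j + 1) = x (j + 1)) with hω
        have hyj : ∀ j, y (j + 1) = if ω (j + 1) then x (j + 1) else 0 := by
          intro j
          have h1 := hy (j + 1)
          simp only [hK, mem_insert_iff, mem_singleton_iff] at h1
          simp only [hω]
          rcases h1 with h1 | h1
          · have h2 : ¬ (y (j + 1) = x (j + 1)) := by rw [h1]; exact (hx _).ne
            simp [h2, h1]
          · simp [h1]
        refine ⟨t + g x 0 ω, ht ω, ?_⟩
        have hsum : Summable y := by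
          rw [← summable_nat_add_iff 1]
          simp only [hyj]
          have := (summable_nat_add_iff 1).2 (summable_sel hx hs 0 ω)
          simpa only [zero_add] using this
        rw [hsum.tsum_eq_zero_add, hb, g_cons hx hs 0 ω]
        have : g x (0 + 1) (fun j => ω (j + 1)) = ∑' j, y (j + 1) := by
          unfold g; refine tsum_congr (fun j => ?_); rw [hyj, show 0 + 1 + j = j + 1 by omega]
        rw [this]
        have hω0 : ω 0 = b := rfl
        rw [hω0]; ring
    have h1 : S ≃ₜ (fun z => z - μ) '' S := (Homeomorph.subRight μ).image S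
    exact ⟨h1.trans (Homeomorph.setCongr hset)⟩

end

end Pool.Agent.V1187.TT
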