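import Mathlib
import Pool.Agent.V1187.TT1

set_option autoImplicit false
open Set Filter Topology MeasureTheory

namespace Pool.Agent.V1187.TT

/-- Length of the part of `O` between `s` and `y`. -/
noncomputable def v (O : Set ℝ) (s y : ℝ) : ℝ := (volume (O ∩ Ioc s y)).toReal

/-- The weighted distribution function. -/
noncomputable def E (d : ℕ → ℝ) (O : ℕ → Set ℝ) (m y : ℝ) : ℝ := ∑' k, d k * v (O k) m y

theorem v_nonneg (O : Set ℝ) (s y : ℝ) : 0 ≤ v O s y := ENNReal.toReal_nonneg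

theorem v_fin (O : Set ℝ) (s y : ℝ) : volume (O ∩ Ioc s y) ≠ ⊤ :=
  ne_of_lt ((measure_mono inter_subset_right).trans_lt measure_Ioc_lt_top)

theorem v_le (O : Set ℝ) {s y : ℝ} (h : s ≤ y) : v O s y ≤ y - s := by
  unfold v
  have h1 : volume (O ∩ Ioc s y) ≤ volume (Ioc s y) := measure_mono inter_subset_right
  rw [Real.volume_Ioc] at h1
  have := ENNReal.toReal_mono ENNReal.ofReal_ne_top h1
  rwa [ENNReal.toReal_ofReal (by linarith)] at this

theorem v_add {O : Set ℝ} (hO : IsOpen O) {m s y : ℝ} (h1 : m ≤ s) (h2 : s ≤ y) :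
    v O m y = v O m s + v O s y := by
  unfold v
  rw [← ENNReal.toReal_add (v_fin O m s) (v_fin O s y)]
  congr 1
  rw [← measure_union]
  · rw [← inter_union_distrib_left, Ioc_union_Ioc_eq_Ioc h1 h2]
  · refine Disjoint.mono inter_subset_right inter_subset_right ?_
    exact Ioc_disjoint_Ioc_of_le le_rfl
  · exact hO.measurableSet.inter measurableSet_Ioc

theorem v_zero {O : Set ℝ} {s y : ℝ} (h : ∀ z, s < z → z < y → z ∉ O) : v O s y = 0 := by
  unfold v
  have : O ∩ Ioc s y ⊆ {y} := by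
    rintro z ⟨hz, hz1, hz2⟩
    rcases hz2.lt_or_eq with h' | h'
    · exact (h z hz1 h' hz).elim
    · exact h'
  have h2 : volume (O ∩ Ioc s y) = 0 := measure_mono_null this (by simp)
  rw [h2]; rfl

theorem v_full {O : Set ℝ} {s y : ℝ} (hsy : s ≤ y) (h : ∀ z, s < z → z < y → z ∈ O) :
    y - s ≤ v O s y := by
  unfold v
  have h1 : volume (Ioo s y) ≤ volume (O ∩ Ioc s y) :=
    measure_mono (fun z hz => ⟨h z hz.1 hz.2, hz.1, hz.2.le⟩)
  rw [Real.volume_Ioo] at h1
  have := ENNReal.toReal_mono (v_fin O s y) h1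
  rwa [ENNReal.toReal_ofReal (by linarith)] at this

section
variable {d : ℕ → ℝ} {O : ℕ → Set ℝ} (hd : ∀ k, 0 ≤ d k) (hds : Summable d)
  (hO : ∀ k, IsOpen (O k))
include hd hds

theorem E_summable {m y : ℝ} (h : m ≤ y) : Summable (fun k => d k * v (O k) m y) := by
  refine Summable.of_nonneg_of_le (fun k => mul_nonneg (hd k) (v_nonneg _ _ _))
    (fun k => mul_le_mul_of_nonneg_left (v_le (O k) h) (hd k)) (hds.mul_right (y - m))

include hO in
theorem E_sub {m s y : ℝ} (h1 : m ≤ s) (h2 : s ≤ y) :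
    E d O m y - E d O m s = ∑' k, d k * v (O k) s y := by
  unfold E
  have : ∀ k, d k * v (O k) m y = d k * v (O k) m s + d k * v (O k) s y := by
    intro k; rw [v_add (hO k) h1 h2]; ring
  simp_rw [this]
  rw [(E_summable hd hds h1).tsum_add (E_summable hd hds h2)]
  ring

include hO in
theorem E_mono {m s y : ℝ} (h1 : m ≤ s) (h2 : s ≤ y) : E d O m s ≤ E d O m y := by
  have := E_sub hd hds hO h1 h2
  have h3 : 0 ≤ ∑' k, d k * v (O k) s y :=
    tsum_nonneg (fun k => mul_nonneg (hd k) (v_nonneg _ _ _))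
  linarith

include hO in
theorem E_lip {m s y : ℝ} (h1 : m ≤ s) (h2 : s ≤ y) :
    E d O m y - E d O m s ≤ (∑' k, d k) * (y - s) := by
  rw [E_sub hd hds hO h1 h2, ← tsum_mul_right]
  exact (E_summable hd hds h2).tsum_le_tsum
    (fun k => mul_le_mul_of_nonneg_left (v_le (O k) h2) (hd k)) (hds.mul_right _)

include hO in
theorem E_cont (m : ℝ) : ContinuousOn (E d O m) (Ici m) := by
  have hD : 0 ≤ ∑' k, d k := tsum_nonneg hd
  have : LipschitzOnWith (⟨∑' k, d k, hD⟩ : NNReal) (E d O m) (Ici m) := by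
    refine LipschitzOnWith.of_dist_le_mul (fun s hs y hy => ?_)
    rw [mem_Ici] at hs hy
    rw [Real.dist_eq, Real.dist_eq]
    show |E d O m s - E d O m y| ≤ (∑' k, d k) * |s - y|
    rcases le_total s y with h | h
    · rw [abs_sub_comm, abs_of_nonneg (by linarith [E_mono hd hds hO hs h]), abs_sub_comm s y,
        abs_of_nonneg (by linarith)]
      exact E_lip hd hds hO hs h
    · rw [abs_of_nonneg (by linarith [E_mono hd hds hO hy h]), abs_of_nonneg (by linarith)]
      exact E_lip hd hds hO hy h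
  exact this.continuousOn

include hO in
theorem E_small {m s y : ℝ} (k : ℕ) (h1 : m ≤ s) (h2 : s ≤ y)
    (h : ∀ j ≤ k, ∀ z, s < z → z < y → z ∉ O j) :
    E d O m y - E d O m s ≤ (∑' j, d (k + 1 + j)) * (y - s) := by
  rw [E_sub hd hds hO h1 h2, ← (E_summable hd hds h2).sum_add_tsum_nat_add (k + 1)]
  have h0 : ∑ i ∈ Finset.range (k + 1), d i * v (O i) s y = 0 := by
    refine Finset.sum_eq_zero (fun i hi => ?_)
    rw [v_zero (h i (by have := Finset.mem_range.1 hi; omega)), mul_zero]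
  rw [h0, zero_add, ← tsum_mul_right]
  have e1 : ∀ j, d (j + (k + 1)) * v (O (j + (k + 1))) s y ≤ d (k + 1 + j) * (y - s) := by
    intro j
    rw [add_comm (k + 1) j]
    exact mul_le_mul_of_nonneg_left (v_le _ h2) (hd _)
  refine Summable.tsum_le_tsum e1 ?_ ?_
  · exact (summable_nat_add_iff (k + 1)).2 (E_summable hd hds h2)
  · refine Summable.mul_right _ ?_
    have := (summable_nat_add_iff (f := d) (k + 1)).2 hds
    simpa only [add_comm] using this

include hO in
theorem E_big {m s y : ℝ} (k : ℕ) (h1 : m ≤ s) (h2 : s ≤ y)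
    (h : ∀ z, s < z → z < y → z ∈ O k) :
    d k * (y - s) ≤ E d O m y - E d O m s := by
  rw [E_sub hd hds hO h1 h2]
  have := (E_summable (O := O) hd hds h2).le_tsum k
    (fun j _ => mul_nonneg (hd j) (v_nonneg _ _ _))
  exact (mul_le_mul_of_nonneg_left (v_full h2 h) (hd k)).trans this

end

/-! The weights. -/

theorem geo32 : Summable (fun j : ℕ => (1 / 32 : ℝ) ^ j) :=
  summable_geometric_of_lt_one (by norm_num) (by norm_num)

/-- Weights. -/
noncomputable def dd (ρ : ℕ → ℝ) (L : ℝ) : ℕ → ℝ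
  | 0 => 1
  | k + 1 => dd ρ L k * ρ k / (32 * L)

section
variable {ρ : ℕ → ℝ} {L : ℝ} (hρ : ∀ k, 0 < ρ k) (hρ1 : ∀ k, ρ k ≤ 1) (hL : 1 ≤ L)
include hρ hL

theorem dd_pos (k : ℕ) : 0 < dd ρ L k := by
  induction k with
  | zero => exact one_pos
  | succ k ih =>
    show 0 < dd ρ L k * ρ k / (32 * L)
    exact div_pos (mul_pos ih (hρ k)) (by linarith)

include hρ1 in
theorem dd_succ_le (k : ℕ) : dd ρ L (k + 1) ≤ dd ρ L k / 32 := by
  show dd ρ L k * ρ k / (32 * L) ≤ dd ρ L k / 32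
  have h1 := dd_pos hρ hL k
  rw [div_le_div_iff₀ (by linarith) (by norm_num)]
  have h2 : dd ρ L k * ρ k ≤ dd ρ L k * 1 := mul_le_mul_of_nonneg_left (hρ1 k) h1.le
  have h3 : dd ρ L k * 1 ≤ dd ρ L k * L := mul_le_mul_of_nonneg_left hL h1.le
  nlinarith

include hρ1 in
theorem dd_add_le (k j : ℕ) : dd ρ L (k + j) ≤ dd ρ L k * (1 / 32) ^ j := by
  induction j with
  | zero => simp
  | succ j ih =>
    rw [← add_assoc, pow_succ]
    have := dd_succ_le hρ hρ1 hL (k + j)
    linarith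

include hρ1 in
theorem dd_summable : Summable (dd ρ L) := by
  refine Summable.of_nonneg_of_le (fun k => (dd_pos hρ hL k).le) (fun k => ?_)
    (geo32.mul_left (dd ρ L 0))
  have := dd_add_le hρ hρ1 hL 0 k
  rwa [zero_add] at this

include hρ1 in
theorem dd_tail (k : ℕ) : ∑' j, dd ρ L (k + j) ≤ 2 * dd ρ L k := by
  have h1 : ∑' j, dd ρ L (k + j) ≤ ∑' j, dd ρ L k * (1 / 32) ^ j := by
    refine Summable.tsum_le_tsum (dd_add_le hρ hρ1 hL k) ?_ (geo32.mul_left _)
    have := (summable_nat_add_iff (f := dd ρ L) k).2 (dd_summable hρ hρ1 hL)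
    simpa only [add_comm] using this
  rw [tsum_mul_left, tsum_geometric_of_lt_one (by norm_num) (by norm_num)] at h1
  have h2 := dd_pos hρ hL k
  refine h1.trans ?_
  rw [mul_comm]
  refine mul_le_mul_of_nonneg_right (by norm_num) h2.le

/-- The terms. -/
noncomputable def xx (ρ : ℕ → ℝ) (L : ℝ) (k : ℕ) : ℝ := dd ρ L k * ρ k / 4

theorem xx_pos (k : ℕ) : 0 < xx ρ L k := div_pos (mul_pos (dd_pos hρ hL k) (hρ k)) (by norm_num)

include hρ1 in
theorem xx_le (k : ℕ) : xx ρ L k ≤ dd ρ L k / 4 := by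
  unfold xx
  have h1 := dd_pos hρ hL k
  have h2 : dd ρ L k * ρ k ≤ dd ρ L k * 1 := mul_le_mul_of_nonneg_left (hρ1 k) h1.le
  linarith

include hρ1 in
theorem xx_summable : Summable (xx ρ L) :=
  Summable.of_nonneg_of_le (fun k => (xx_pos hρ hL k).le) (fun k => xx_le hρ hρ1 hL k)
    ((dd_summable hρ hρ1 hL).div_const 4)

theorem dd_succ_eq (k : ℕ) : 8 * L * dd ρ L (k + 1) = xx ρ L k := by
  show 8 * L * (dd ρ L k * ρ k / (32 * L)) = dd ρ L k * ρ k / 4
  have : L ≠ 0 := by linarith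
  field_simp
  ring

include hρ1 in
theorem rr_le (k : ℕ) : r (xx ρ L) (k + 1) ≤ xx ρ L k / 4 := by
  have h1 : r (xx ρ L) (k + 1) ≤ ∑' j, dd ρ L (k + 1 + j) := by
    unfold r
    refine Summable.tsum_le_tsum (fun j => ?_) (summable_shift (xx_pos hρ hL) (xx_summable hρ hρ1 hL) _) ?_
    · have := xx_le hρ hρ1 hL (k + 1 + j)
      have := dd_pos hρ hL (k + 1 + j)
      linarith
    · have := (summable_nat_add_iff (f := dd ρ L) (k + 1)).2 (dd_summable hρ hρ1 hL)
      simpa only [add_comm] using this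
  have h2 := dd_tail hρ hρ1 hL (k + 1)
  have h3 := dd_succ_eq hρ hL k
  have h4 := dd_pos hρ hL (k + 1)
  nlinarith

include hρ1 in
theorem tail_le (k : ℕ) : (∑' j, dd ρ L (k + 1 + j)) * L ≤ xx ρ L k / 4 := by
  have h2 := dd_tail hρ hρ1 hL (k + 1)
  have h3 := dd_succ_eq hρ hL k
  have h4 := dd_pos hρ hL (k + 1)
  nlinarith

include hρ1 in
theorem r_lt (k : ℕ) : r (xx ρ L) k < dd ρ L k * ρ k := by
  have h1 := r_succ (xx_pos hρ hL) (xx_summable hρ hρ1 hL) k
  have h2 := rr_le hρ hρ1 hL k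
  have h3 := xx_pos hρ hL k
  have h4 : xx ρ L k = dd ρ L k * ρ k / 4 := rfl
  linarith

end

end Pool.Agent.V1187.TT
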