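import Mathlib
import Pool.Agent.H812R3.CantorChar

set_option autoImplicit false
open Set Filter Topology

namespace Pool.Agent.V1187.TT

/-- Points of complementary intervals of length at least `δ`. -/
def U (X : Set ℝ) (δ : ℝ) : Set ℝ := {z | ∃ a b, a < z ∧ z < b ∧ δ ≤ b - a ∧ ∀ w ∈ X, w ≤ a ∨ b ≤ w}

/-- Inner points of intervals inside `X` of length at least `ρ`. -/
def V (X : Set ℝ) (ρ : ℝ) : Set ℝ := {z | ∃ a b, a < z ∧ z < b ∧ ρ ≤ b - a ∧ Icc a b ⊆ X}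

/-- No long gap between `s` and `y`. -/
def same (X : Set ℝ) (δ s y : ℝ) : Prop := ∀ z ∈ uIcc s y, z ∉ U X δ

/-- The piece of `s` at scale `δ`. -/
def P (X : Set ℝ) (δ s : ℝ) : Set ℝ := {y | y ∈ X ∧ same X δ s y}

/-- The piece of `s` contains an interval. -/
def HasInt (X : Set ℝ) (δ s : ℝ) : Prop := ∃ a b, a < b ∧ Icc a b ⊆ X ∧ same X δ s a

variable {X : Set ℝ}

theorem U_open (X : Set ℝ) (δ : ℝ) : IsOpen (U X δ) := by
  rw [isOpen_iff_mem_nhds]
  rintro z ⟨a, b, h1, h2, h3, h4⟩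
  refine mem_of_superset (Ioo_mem_nhds h1 h2) ?_
  intro w hw
  exact ⟨a, b, hw.1, hw.2, h3, h4⟩

theorem V_open (X : Set ℝ) (ρ : ℝ) : IsOpen (V X ρ) := by
  rw [isOpen_iff_mem_nhds]
  rintro z ⟨a, b, h1, h2, h3, h4⟩
  refine mem_of_superset (Ioo_mem_nhds h1 h2) ?_
  intro w hw
  exact ⟨a, b, hw.1, hw.2, h3, h4⟩

theorem U_anti {δ δ' : ℝ} (h : δ' ≤ δ) : U X δ ⊆ U X δ' := by
  rintro z ⟨a, b, h1, h2, h3, h4⟩
  exact ⟨a, b, h1, h2, h.trans h3, h4⟩

theorem V_anti {δ δ' : ℝ} (h : δ' ≤ δ) : V X δ ⊆ V X δ' := by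
  rintro z ⟨a, b, h1, h2, h3, h4⟩
  exact ⟨a, b, h1, h2, h.trans h3, h4⟩

theorem not_mem_U {δ s : ℝ} (hs : s ∈ X) : s ∉ U X δ := by
  rintro ⟨a, b, h1, h2, -, h4⟩
  rcases h4 s hs with h | h <;> linarith

theorem same_refl {δ s : ℝ} (hs : s ∈ X) : same X δ s s := by
  intro z hz
  rw [uIcc_self, mem_singleton_iff] at hz
  rw [hz]; exact not_mem_U hs

theorem same_symm {δ s y : ℝ} (h : same X δ s y) : same X δ y s := by
  intro z hz
  rw [uIcc_comm] at hz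
  exact h z hz

theorem same_trans {δ s y z : ℝ} (h1 : same X δ s y) (h2 : same X δ y z) : same X δ s z := by
  intro w hw
  rcases uIcc_subset_uIcc_union_uIcc (b := y) hw with h | h
  · exact h1 w h
  · exact h2 w h

theorem same_mono {δ δ' s y : ℝ} (hd : δ' ≤ δ) (h : same X δ' s y) : same X δ s y :=
  fun z hz hU => h z hz (U_anti hd hU)

theorem same_betw {δ s y z : ℝ} (h : same X δ s y) (hz : z ∈ uIcc s y) : same X δ s z :=
  fun w hw => h w (uIcc_subset_uIcc_left hz hw)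

theorem same_of_le {δ s y : ℝ} (hs : s ∈ X) (hy : y ∈ X) (hsy : s ≤ y) (hd : y - s < δ) :
    same X δ s y := by
  rintro z hz ⟨a, b, h1, h2, h3, h4⟩
  rw [uIcc_of_le hsy] at hz
  have e1 : s ≤ a := by
    rcases h4 s hs with h | h
    · exact h
    · linarith [hz.1]
  have e2 : b ≤ y := by
    rcases h4 y hy with h | h
    · linarith [hz.2]
    · exact h
  linarith

theorem same_of_lt {δ s y : ℝ} (hs : s ∈ X) (hy : y ∈ X) (hd : |s - y| < δ) : same X δ s y := by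
  rcases le_total s y with h | h
  · exact same_of_le hs hy h (by rw [abs_sub_comm] at hd; exact (le_abs_self _).trans_lt hd)
  · exact same_symm (same_of_le hy hs h ((le_abs_self _).trans_lt hd))

theorem HasInt.congr {δ s y : ℝ} (h : HasInt X δ s) (hs : same X δ s y) : HasInt X δ y := by
  obtain ⟨a, b, h1, h2, h3⟩ := h
  exact ⟨a, b, h1, h2, same_trans (same_symm hs) h3⟩

theorem HasInt.mono {δ δ' s : ℝ} (hd : δ' ≤ δ) (h : HasInt X δ' s) : HasInt X δ s := by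
  obtain ⟨a, b, h1, h2, h3⟩ := h
  exact ⟨a, b, h1, h2, same_mono hd h3⟩

theorem P_sub {δ s : ℝ} : P X δ s ⊆ X := fun _ h => h.1

theorem P_self {δ s : ℝ} (hs : s ∈ X) : s ∈ P X δ s := ⟨hs, same_refl hs⟩

theorem P_congr {δ s y : ℝ} (h : same X δ s y) : P X δ s = P X δ y := by
  ext z
  exact ⟨fun hz => ⟨hz.1, same_trans (same_symm h) hz.2⟩, fun hz => ⟨hz.1, same_trans h hz.2⟩⟩

theorem P_near {δ s y y' : ℝ} (hy : y ∈ P X δ s) (hy' : y' ∈ X) (hd : |y - y'| < δ) :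
    y' ∈ P X δ s :=
  ⟨hy', same_trans hy.2 (same_of_lt hy.1 hy' hd)⟩

theorem P_betw {δ s y₁ y₂ z : ℝ} (h1 : y₁ ∈ P X δ s) (h2 : y₂ ∈ P X δ s) (hz : z ∈ X)
    (hz1 : y₁ ≤ z) (hz2 : z ≤ y₂) : z ∈ P X δ s := by
  refine ⟨hz, same_trans h1.2 ?_⟩
  refine same_betw (same_trans (same_symm h1.2) h2.2) ?_
  rw [uIcc_of_le (hz1.trans hz2)]
  exact ⟨hz1, hz2⟩

theorem P_closed (hX : IsClosed X) {δ s : ℝ} (hδ : 0 < δ) : IsClosed (P X δ s) := by
  rw [← closure_subset_iff_isClosed]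
  intro y hy
  have hyX : y ∈ X := by
    have := closure_mono (P_sub (X := X) (δ := δ) (s := s)) hy
    rwa [hX.closure_eq] at this
  obtain ⟨y', hy', hd⟩ := Metric.mem_closure_iff.1 hy δ hδ
  rw [Real.dist_eq, abs_sub_comm] at hd
  exact P_near hy' hyX hd

theorem P_compact (hX : IsCompact X) {δ s : ℝ} (hδ : 0 < δ) : IsCompact (P X δ s) :=
  hX.of_isClosed_subset (P_closed hX.isClosed hδ) P_sub

theorem P_good (hX : IsCompact X) (hperf : ∀ z ∈ X, ∀ ε > 0, ∃ y ∈ X, y ≠ z ∧ |y - z| < ε)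
    {δ s : ℝ} (hδ : 0 < δ) (hs : s ∈ X) (h : ¬ HasInt X δ s) :
    Pool.Agent.H812R3.CantorChar.Good (P X δ s) := by
  refine ⟨P_compact hX hδ, ⟨s, P_self hs⟩, ?_, ?_⟩
  · intro z hz ε hε
    obtain ⟨y, hy, hyz, hyd⟩ := hperf z hz.1 (min ε δ) (lt_min hε hδ)
    refine ⟨y, P_near hz hy ?_, hyz, hyd.trans_le (min_le_left _ _)⟩
    rw [abs_sub_comm]; exact hyd.trans_le (min_le_right _ _)
  · intro u v huv
    by_contra hc
    push_neg at hc
    apply h
    refine ⟨u + (v - u) / 3, u + 2 * (v - u) / 3, by linarith, fun w hw => ?_, ?_⟩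
    · exact (hc w (by linarith [hw.1]) (by linarith [hw.2])).1
    · exact (hc _ (by linarith) (by linarith)).2

/-- Uniform size of the intervals inside the pieces of a given scale. -/
theorem unif (hX : IsCompact X) {δ : ℝ} (hδ : 0 < δ) :
    ∃ ρ > 0, ∀ s ∈ X, HasInt X δ s → ∃ a, Icc a (a + ρ) ⊆ X ∧ same X δ s a := by
  have := hX.induction_on (p := fun T => ∃ ρ > 0, ∀ s ∈ T, s ∈ X → HasInt X δ s →
      ∃ a, Icc a (a + ρ) ⊆ X ∧ same X δ s a) ?_ ?_ ?_ ?_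
  · obtain ⟨ρ, hρ, h⟩ := this
    exact ⟨ρ, hρ, fun s hs => h s hs hs⟩
  · exact ⟨1, one_pos, fun s hs => hs.elim⟩
  · rintro T T' hTT ⟨ρ, hρ, h⟩
    exact ⟨ρ, hρ, fun s hs => h s (hTT hs)⟩
  · rintro T T' ⟨ρ, hρ, h⟩ ⟨ρ', hρ', h'⟩
    refine ⟨min ρ ρ', lt_min hρ hρ', fun s hs hsX hi => ?_⟩
    rcases hs with hs | hs
    · obtain ⟨a, h1, h2⟩ := h s hs hsX hi
      refine ⟨a, (Icc_subset_Icc_right ?_).trans h1, h2⟩
      linarith [min_le_left ρ ρ']
    · obtain ⟨a, h1, h2⟩ := h' s hs hsX hi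
      refine ⟨a, (Icc_subset_Icc_right ?_).trans h1, h2⟩
      linarith [min_le_right ρ ρ']
  · intro s hs
    refine ⟨Metric.ball s δ, mem_nhdsWithin_of_mem_nhds (Metric.ball_mem_nhds s hδ), ?_⟩
    by_cases hi : HasInt X δ s
    · obtain ⟨a, b, hab, h1, h2⟩ := hi
      refine ⟨b - a, by linarith, fun y hy hyX hi' => ⟨a, ?_, ?_⟩⟩
      · rw [show a + (b - a) = b by ring]; exact h1
      · rw [Metric.mem_ball, Real.dist_eq] at hy
        exact same_trans (same_of_lt hyX hs hy) h2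
    · refine ⟨1, one_pos, fun y hy hyX hi' => (hi ?_).elim⟩
      rw [Metric.mem_ball, Real.dist_eq] at hy
      exact hi'.congr (same_of_lt hyX hs hy)

/-- Existence of a nearby interval with nothing long in between. -/
theorem near (hX : IsClosed X) {δ ρ s : ℝ} (hρ : 0 < ρ) (hs : s ∈ X)
    (h : ∃ a, Icc a (a + ρ) ⊆ X ∧ same X δ s a) :
    ∃ a, Icc a (a + ρ) ⊆ X ∧ ((a ≤ s ∧ s ≤ a + ρ) ∨
      (s < a ∧ ∀ z, s < z → z < a → z ∉ U X δ ∧ z ∉ V X ρ) ∨
      (a + ρ < s ∧ ∀ z, a + ρ < z → z < s → z ∉ U X δ ∧ z ∉ V X ρ)) := by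
  obtain ⟨a, ha, hsa⟩ := h
  have hcl : IsClosed {a' : ℝ | Icc a' (a' + ρ) ⊆ X} := by
    have : {a' : ℝ | Icc a' (a' + ρ) ⊆ X} = ⋂ t ∈ Icc (0 : ℝ) ρ, (fun a' => a' + t) ⁻¹' X := by
      ext a'
      simp only [mem_setOf_eq, mem_iInter, mem_preimage]
      constructor
      · intro h t ht
        exact h ⟨by linarith [ht.1], by linarith [ht.2]⟩
      · intro h w hw
        have := h (w - a') ⟨by linarith [hw.1], by linarith [hw.2]⟩
        rwa [add_sub_cancel] at this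
    rw [this]
    exact isClosed_biInter (fun t _ => hX.preimage (continuous_add_const _))
  by_cases h0 : ∃ a, Icc a (a + ρ) ⊆ X ∧ a ≤ s ∧ s ≤ a + ρ
  · obtain ⟨a, h1, h2⟩ := h0
    exact ⟨a, h1, Or.inl h2⟩
  rcases lt_trichotomy s a with hlt | heq | hgt
  · set A : Set ℝ := Icc s a ∩ {a' : ℝ | Icc a' (a' + ρ) ⊆ X} with hA
    have hAc : IsCompact A := isCompact_Icc.inter_right hcl
    have hAne : A.Nonempty := ⟨a, ⟨hlt.le, le_rfl⟩, ha⟩
    obtain ⟨⟨h1, h2⟩, h3⟩ := hAc.sInf_mem hAne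
    have hmin : ∀ a' ∈ A, sInf A ≤ a' := fun a' h' => csInf_le hAc.bddBelow h'
    set c := sInf A with hc
    have hsc : s < c := by
      rcases h1.lt_or_eq with h | h
      · exact h
      · exact (h0 ⟨c, h3, h.ge, by linarith⟩).elim
    refine ⟨c, h3, Or.inr (Or.inl ⟨hsc, fun z hz1 hz2 => ⟨?_, ?_⟩⟩)⟩
    · apply hsa
      rw [uIcc_of_le hlt.le]
      exact ⟨hz1.le, hz2.le.trans h2⟩
    · rintro ⟨a', b', e1, e2, e3, e4⟩
      rcases le_or_gt a' s with h | h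
      · apply h0
        refine ⟨min s (b' - ρ), fun w hw => e4 ⟨?_, ?_⟩, min_le_left _ _, ?_⟩
        · exact (le_min h (by linarith)).trans hw.1
        · linarith [hw.2, min_le_right s (b' - ρ)]
        · rcases le_total s (b' - ρ) with h' | h'
          · rw [min_eq_left h']; linarith
          · rw [min_eq_right h']; linarith
      · have : a' ∈ A := ⟨⟨h.le, by linarith⟩, fun w hw => e4 ⟨hw.1, by linarith [hw.2]⟩⟩
        linarith [hmin a' this]
  · exact (h0 ⟨a, ha, heq.ge, by linarith⟩).elim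
  · have hgt' : a + ρ < s := by
      by_contra hc
      push_neg at hc
      exact h0 ⟨a, ha, hgt.le, hc⟩
    set A : Set ℝ := Icc a (s - ρ) ∩ {a' : ℝ | Icc a' (a' + ρ) ⊆ X} with hA
    have hAc : IsCompact A := isCompact_Icc.inter_right hcl
    have hAne : A.Nonempty := ⟨a, ⟨le_rfl, by linarith⟩, ha⟩
    obtain ⟨⟨h1, h2⟩, h3⟩ := hAc.sSup_mem hAne
    have hmax : ∀ a' ∈ A, a' ≤ sSup A := fun a' h' => le_csSup hAc.bddAbove h'
    set c := sSup A with hc
    have hsc : c + ρ < s := by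
      rcases h2.lt_or_eq with h | h
      · linarith
      · exact (h0 ⟨c, h3, by linarith, by linarith⟩).elim
    refine ⟨c, h3, Or.inr (Or.inr ⟨hsc, fun z hz1 hz2 => ⟨?_, ?_⟩⟩)⟩
    · apply hsa
      rw [uIcc_of_ge (by linarith)]
      exact ⟨by linarith, hz2.le⟩
    · rintro ⟨a', b', e1, e2, e3, e4⟩
      rcases le_or_gt s b' with h | h
      · apply h0
        refine ⟨max a' (s - ρ), fun w hw => e4 ⟨(le_max_left _ _).trans hw.1, ?_⟩, ?_, ?_⟩
        · refine hw.2.trans ?_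
          rcases le_total a' (s - ρ) with h' | h'
          · rw [max_eq_right h']; linarith
          · rw [max_eq_left h']; linarith
        · exact max_le (by linarith) (by linarith)
        · linarith [le_max_right a' (s - ρ)]
      · have : b' - ρ ∈ A := ⟨⟨by linarith, by linarith⟩, fun w hw => e4 ⟨by linarith [hw.1], by linarith [hw.2]⟩⟩
        linarith [hmax _ this]

end Pool.Agent.V1187.TT
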