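import Mathlib
import Pool.Agent.V1187.TT1
import Pool.Agent.V1187.TT2

set_option autoImplicit false
open Set Filter Topology

namespace Pool.Agent.V1187.TT

open Pool.Agent.H812R3.CantorChar (Good)

/-- Coordinates on a Cantor set. -/
theorem exists_coord (Q : Set ℝ) (hQ : Good Q) :
    ∃ φ : ℝ → ℕ → Bool, ContinuousOn φ Q ∧ InjOn φ Q ∧ ∀ ω, ∃ y ∈ Q, φ y = ω := by
  classical
  obtain ⟨h0⟩ := hQ.homeo
  have h : Q ≃ₜ (ℕ → Bool) := h0.trans cantorSetHomeomorphNatToBool
  refine ⟨fun y => if hy : y ∈ Q then h ⟨y, hy⟩ else fun _ => false, ?_, ?_, ?_⟩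
  · rw [continuousOn_iff_continuous_restrict]
    refine h.continuous.congr (fun y => ?_)
    have hy : (y : ℝ) ∈ Q := y.2
    show h y = if hy : (y : ℝ) ∈ Q then h ⟨y, hy⟩ else fun _ => false
    rw [dif_pos hy]
  · intro y hy z hz hyz
    simp only [hy, hz, dif_pos] at hyz
    have := h.injective hyz
    exact congrArg Subtype.val this
  · intro ω
    refine ⟨(h.symm ω : Q), (h.symm ω).2, ?_⟩
    simp

/-- First scale at which the piece of `s` contains no interval. -/
noncomputable def lev (X : Set ℝ) (δ : ℕ → ℝ) (s : ℝ) : ℕ := sInf {k | ¬ HasInt X (δ k) s}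

/-- Cantor points. -/
def IsC (X : Set ℝ) (δ : ℕ → ℝ) (s : ℝ) : Prop := ∃ k, ¬ HasInt X (δ k) s

/-- The Cantor piece of a Cantor point. -/
def QQ (X : Set ℝ) (δ : ℕ → ℝ) (s : ℝ) : Set ℝ := P X (δ (lev X δ s)) s

section
variable {X : Set ℝ} {δ : ℕ → ℝ} (hδ : ∀ k, 0 < δ k) (hanti : ∀ j k, j ≤ k → δ k ≤ δ j)

theorem lev_spec {s : ℝ} (h : IsC X δ s) : ¬ HasInt X (δ (lev X δ s)) s :=
  Nat.sInf_mem (s := {k | ¬ HasInt X (δ k) s}) h

theorem lev_min {s : ℝ} {k : ℕ} (h : k < lev X δ s) : HasInt X (δ k) s := by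
  by_contra hc
  exact Nat.notMem_of_lt_sInf h hc

theorem lev_le {s : ℝ} {k : ℕ} (h : ¬ HasInt X (δ k) s) : lev X δ s ≤ k := Nat.sInf_le h

include hanti

theorem QQ_spec {s y : ℝ} (h : IsC X δ s) (hy : y ∈ QQ X δ s) :
    IsC X δ y ∧ lev X δ y = lev X δ s ∧ QQ X δ y = QQ X δ s := by
  have h1 : ¬ HasInt X (δ (lev X δ s)) y := fun hi => lev_spec h (hi.congr (same_symm hy.2))
  have h2 : IsC X δ y := ⟨_, h1⟩
  have h3 : lev X δ y = lev X δ s := by
    refine le_antisymm (lev_le h1) ?_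
    by_contra hc
    push_neg at hc
    have := lev_min hc
    exact lev_spec h2 (this.congr (same_mono (hanti _ _ hc.le) hy.2))
  refine ⟨h2, h3, ?_⟩
  unfold QQ
  rw [h3]
  exact (P_congr hy.2).symm

end

/-- The core construction. -/
theorem core {X : Set ℝ} (hX : IsCompact X) (hXne : X.Nonempty)
    (hperf : ∀ z ∈ X, ∀ ε > 0, ∃ y ∈ X, y ≠ z ∧ |y - z| < ε)
    {δ ρ x : ℕ → ℝ} {F : ℝ → ℝ}
    (hδ : ∀ k, 0 < δ k) (hanti : ∀ j k, j ≤ k → δ k ≤ δ j) (hρ : ∀ k, 0 < ρ k)
    (hx : ∀ k, 0 < x k) (hs : Summable x) (hr : ∀ k, r x (k + 1) ≤ x k / 4)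
    (hF : ContinuousOn F X) (hFm : ∀ s ∈ X, ∀ y ∈ X, s < y → F s < F y)
    (hA3 : ∀ k, ∀ s ∈ X, HasInt X (δ k) s → ∃ a, Icc a (a + ρ k) ⊆ X ∧
      4 * x k ≤ F (a + ρ k) - F a ∧ ((a ≤ s ∧ s ≤ a + ρ k) ∨ (s < a ∧ F a - F s ≤ x k / 4) ∨
        (a + ρ k < s ∧ F s - F (a + ρ k) ≤ x k / 4)))
    (hA4 : ∀ k, ∀ s ∈ X, ∀ z ∈ X, s < z → ¬ same X (δ k) s z → r x k < F z - F s)
    (hA5 : ∀ k, ∀ s ∈ X, ∀ y ∈ X, s ≤ y → same X (δ k) s y → ¬ HasInt X (δ k) s →
      F y - F s ≤ x k / 4) :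
    ∃ K : ℕ → Set ℝ, (∀ i, IsCompact (K i) ∧ (0 : ℝ) ∈ K i ∧ K i ⊆ Ici 0 ∧ 0 < Metric.diam (K i)) ∧
      Tendsto (fun i => Metric.diam (K i)) atTop (𝓝 0) ∧
      Summable (fun i => Metric.diam (K i)) ∧ (∀ i, ∃ a, 0 < a ∧ K (i + 1) = {0, a}) ∧
      Nonempty (X ≃ₜ {s : ℝ | ∃ y : ℕ → ℝ, (∀ j, y j ∈ K j) ∧ s = ∑' j, y j}) := by
  classical
  have hcoord : ∀ Q : Set ℝ, ∃ φ : ℝ → ℕ → Bool, Good Q →
      (ContinuousOn φ Q ∧ InjOn φ Q ∧ ∀ ω, ∃ y ∈ Q, φ y = ω) := by
    intro Q
    by_cases hQ : Good Q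
    · obtain ⟨φ, h⟩ := exists_coord Q hQ
      exact ⟨φ, fun _ => h⟩
    · exact ⟨fun _ _ => false, fun h => (hQ h).elim⟩
  choose φ hφ using hcoord
  set ℓ : ℝ → ℕ := lev X δ with hℓ
  set Q : ℝ → Set ℝ := QQ X δ with hQdef
  set lo : ℝ → ℝ := fun s => sInf (Q s) with hlo
  set e : ℝ → ℝ := fun s => if IsC X δ s then F (lo s) + g x (ℓ s) (φ (Q s) s) else F s with he
  have heC : ∀ s, IsC X δ s → e s = F (lo s) + g x (ℓ s) (φ (Q s) s) := by
    intro s h; simp only [he, if_pos h]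
  have heN : ∀ s, ¬ IsC X δ s → e s = F s := by
    intro s h; simp only [he, if_neg h]
  -- facts on pieces
  have hQX : ∀ s, Q s ⊆ X := fun s => P_sub
  have hQgood : ∀ s ∈ X, IsC X δ s → Good (Q s) := fun s hsX h =>
    P_good hX hperf (hδ _) hsX (lev_spec h)
  have hQself : ∀ s ∈ X, s ∈ Q s := fun s hsX => P_self hsX
  have hQc : ∀ s, IsCompact (Q s) := fun s => P_compact hX (hδ _)
  have hloQ : ∀ s ∈ X, lo s ∈ Q s := fun s hsX => (hQc s).sInf_mem ⟨s, hQself s hsX⟩
  have hlole : ∀ s, ∀ y ∈ Q s, lo s ≤ y := fun s y hy => csInf_le (hQc s).bddBelow hy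
  have hQQ : ∀ s y, IsC X δ s → y ∈ Q s → IsC X δ y ∧ ℓ y = ℓ s ∧ Q y = Q s :=
    fun s y h hy => QQ_spec hanti h hy
  have hQbetw : ∀ s y₁ y₂ z, y₁ ∈ Q s → y₂ ∈ Q s → z ∈ X → y₁ ≤ z → z ≤ y₂ → z ∈ Q s :=
    fun s y₁ y₂ z h1 h2 h3 h4 h5 => P_betw h1 h2 h3 h4 h5
  -- monotonicity (weak)
  have hFw : ∀ s ∈ X, ∀ y ∈ X, s ≤ y → F s ≤ F y := by
    intro s h1 y h2 h3
    rcases h3.lt_or_eq with h | h
    · exact (hFm s h1 y h2 h).le
    · rw [h]
  have hxpos := hx
  have hranti : Antitone (r x) := by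
    refine antitone_nat_of_succ_le (fun k => ?_)
    rw [r_succ hx hs k]
    linarith [hx k]
  -- bounds for `e` at Cantor points
  have hb1 : ∀ s ∈ X, IsC X δ s → F (lo s) ≤ e s ∧ e s ≤ F (lo s) + r x (ℓ s) := by
    intro s hsX h
    rw [heC s h]
    have h1 := g_nonneg hx hs (ℓ s) (φ (Q s) s)
    have h2 := g_le hx hs (ℓ s) (φ (Q s) s)
    constructor <;> linarith
  have hB1 : ∀ s ∈ X, ∀ z ∈ X, s < z → (IsC X δ s → z ∉ Q s) → e s < F z := by
    intro s hsX z hzX hsz hcl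
    by_cases h : IsC X δ s
    · have h1 := hloQ s hsX
      have h2 := hlole s s (hQself s hsX)
      have h3 : ¬ same X (δ (ℓ s)) (lo s) z := by
        intro hsame
        exact hcl h ⟨hzX, same_trans h1.2 hsame⟩
      have h4 := hA4 (ℓ s) (lo s) (hQX s h1) z hzX (by linarith) h3
      have h5 := (hb1 s hsX h).2
      linarith
    · rw [heN s h]; exact hFm s hsX z hzX hsz
  have hB3 : ∀ s ∈ X, ∀ z ∈ X, s < z → (IsC X δ s → z ∉ Q s) → e s < e z := by
    intro s hsX z hzX hsz hcl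
    by_cases hz : IsC X δ z
    · have h1 := hloQ z hzX
      have hsQ : s ∉ Q z := by
        intro hsQ
        obtain ⟨h2, -, h3⟩ := hQQ z s hz hsQ
        apply hcl h2
        rw [h3]; exact hQself z hzX
      have hslo : s < lo z := by
        by_contra hc
        push_neg at hc
        exact hsQ (hQbetw z (lo z) z s h1 (hQself z hzX) hsX hc hsz.le)
      have h4 : IsC X δ s → lo z ∉ Q s := by
        intro h hin
        obtain ⟨-, -, h5⟩ := hQQ s (lo z) h hin
        obtain ⟨-, -, h6⟩ := hQQ z (lo z) hz h1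
        apply hcl h
        rw [← h5, h6]; exact hQself z hzX
      exact (hB1 s hsX (lo z) (hQX z h1) hslo h4).trans_le (hb1 z hzX hz).1
    · rw [heN z hz]
      exact hB1 s hsX z hzX hsz hcl
  -- injectivity
  have hlac : ∀ k, r x (k + 1) < x k := fun k => by linarith [hr k, hx k]
  have hinj : InjOn e X := by
    have key : ∀ s ∈ X, ∀ z ∈ X, s < z → e s ≠ e z := by
      intro s hsX z hzX hsz heq
      by_cases hcl : IsC X δ s ∧ z ∈ Q s
      · obtain ⟨h, hz⟩ := hcl
        obtain ⟨h1, h2, h3⟩ := hQQ s z h hz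
        have hloeq : lo z = lo s := by simp only [hlo, h3]
        rw [heC s h, heC z h1, h2, h3, hloeq] at heq
        have h4 := g_injective hx hs (ℓ s) hlac (add_left_cancel heq)
        have h5 := (hφ (Q s) (hQgood s hsX h)).2.1 (hQself s hsX) hz h4
        exact absurd h5 hsz.ne
      · exact absurd heq (hB3 s hsX z hzX hsz (fun h hz => hcl ⟨h, hz⟩)).ne
    intro s hsX z hzX heq
    rcases lt_trichotomy s z with h | h | h
    · exact (key s hsX z hzX h heq).elim
    · exact h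
    · exact (key z hzX s hsX h heq.symm).elim
  -- continuity
  have hclose : ∀ y ∈ X, IsC X δ y → |e y - F y| ≤ 2 * r x (ℓ y) := by
    intro y hy h
    have h1 := hloQ y hy
    have h2 := hlole y y (hQself y hy)
    have h3 := hb1 y hy h
    have h4 : ¬ HasInt X (δ (ℓ y)) (lo y) := fun hi => lev_spec h (hi.congr (same_symm h1.2))
    have h5 := hA5 (ℓ y) (lo y) (hQX y h1) y hy h2 (same_symm h1.2) h4
    have h6 := hFw (lo y) (hQX y h1) y hy h2
    have h7 := r_succ hx hs (ℓ y)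
    have h8 := r_nonneg hx hs (ℓ y + 1)
    have h9 := hx (ℓ y)
    rw [abs_le]
    constructor <;> linarith
  have hcont : ContinuousOn e X := by
    intro s hsX
    by_cases h : IsC X δ s
    · have h1 : Q s ∈ 𝓝[X] s := by
        refine mem_of_superset (inter_mem_nhdsWithin X (Metric.ball_mem_nhds s (hδ (ℓ s)))) ?_
        rintro y ⟨hy1, hy2⟩
        rw [Metric.mem_ball, Real.dist_eq, abs_sub_comm] at hy2
        exact P_near (hQself s hsX) hy1 hy2
      have h2 : ContinuousOn e (Q s) := by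
        have h3 : ContinuousOn (fun y => F (lo s) + g x (ℓ s) (φ (Q s) y)) (Q s) := by
          have h4 := (hφ (Q s) (hQgood s hsX h)).1
          have h5 := (g_continuous hx hs (ℓ s)).comp_continuousOn h4
          exact continuousOn_const.add h5
        refine h3.congr (fun y hy => ?_)
        obtain ⟨h4, h5, h6⟩ := hQQ s y h hy
        have hloeq : lo y = lo s := by simp only [hlo, h6]
        rw [heC y h4, h5, h6, hloeq]
      exact (h2 s (hQself s hsX)).mono_of_mem_nhdsWithin h1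
    · have h1 : Tendsto (fun y => e y - F y) (𝓝[X] s) (𝓝 0) := by
        rw [Metric.tendsto_nhds]
        intro ε hε
        have h2 : Tendsto (fun k => r x (k + 1)) atTop (𝓝 0) := by
          refine squeeze_zero (fun k => r_nonneg hx hs _) (fun k => (hr k)) ?_
          have := hs.tendsto_atTop_zero.div_const 4
          simpa using this
        obtain ⟨k, hk⟩ := ((tendsto_order.1 h2).2 (ε / 2) (by positivity)).exists
        have h3 : X ∩ Metric.ball s (δ (k + 1)) ∈ 𝓝[X] s :=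
          inter_mem_nhdsWithin X (Metric.ball_mem_nhds s (hδ _))
        filter_upwards [h3] with y hy
        obtain ⟨hyX, hyb⟩ := hy
        rw [Metric.mem_ball, Real.dist_eq, abs_sub_comm] at hyb
        rw [Real.dist_eq, sub_zero]
        by_cases hy : IsC X δ y
        · have h4 := hclose y hyX hy
          have h5 : k + 1 ≤ ℓ y := by
            by_contra hc
            push_neg at hc
            have h6 : same X (δ (k + 1)) s y := same_of_lt hsX hyX hyb
            have h7 : same X (δ (ℓ y)) s y := same_mono (hanti _ _ hc.le) h6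
            have h8 : HasInt X (δ (ℓ y)) s := by
              by_contra hc2
              exact h ⟨_, hc2⟩
            exact lev_spec hy (h8.congr h7)
          have h6 := hranti h5
          linarith
        · rw [heN y hy, sub_self, abs_zero]; exact hε
      have h2 := h1.add (hF s hsX)
      have h3 : (fun y => e y - F y + F y) = e := by funext y; ring
      rw [h3, zero_add] at h2
      show Tendsto e (𝓝[X] s) (𝓝 (e s))
      rw [heN s h]; exact h2
  -- the set
  have hScomp : IsCompact (e '' X) := hX.image_of_continuousOn hcont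
  have hhomeo : Nonempty (X ≃ₜ (e '' X)) := by
    haveI : CompactSpace X := isCompact_iff_compactSpace.1 hX
    have hc : Continuous (X.restrict e) := continuousOn_iff_continuous_restrict.1 hcont
    have hi : Function.Injective (X.restrict e) := injOn_iff_injective.1 hinj
    have hemb := (hc.isClosedEmbedding hi).isEmbedding
    have h1 : X ≃ₜ range (X.restrict e) := hemb.toHomeomorph
    exact ⟨h1.trans (Homeomorph.setCongr (range_restrict e X))⟩
  -- intervals in the image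
  have hIcc : ∀ k a, Icc a (a + ρ k) ⊆ X → Icc (F a) (F (a + ρ k)) ⊆ e '' X := by
    intro k a ha z hz
    have hk := hρ k
    have hiv := intermediate_value_Icc (by linarith : a ≤ a + ρ k) (hF.mono ha)
    obtain ⟨y, hy, rfl⟩ := hiv hz
    refine ⟨y, ha hy, ?_⟩
    apply heN
    rintro ⟨j, hj⟩
    apply hj
    refine ⟨a, a + ρ k, by linarith, ha, fun w hw => ?_⟩
    apply not_mem_U
    apply ha
    rw [uIcc_of_ge hy.1] at hw
    exact ⟨hw.1, hw.2.trans hy.2⟩
  have hLoc : ∀ k, ∀ b ∈ X, HasInt X (δ k) b → ∀ u, F b ≤ u → u ≤ F b + r x (k + 1) →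
      (∀ z, |z - (u + x k)| ≤ r x (k + 1) → z ∈ e '' X) ∨
      (∀ z, |z - (u - x k)| ≤ r x (k + 1) → z ∈ e '' X) := by
    intro k b hb hi u hu1 hu2
    obtain ⟨a, h1, h2, h3⟩ := hA3 k b hb hi
    have hk := hρ k
    have hxk := hx k
    have hrk := hr k
    have hrn := r_nonneg hx hs (k + 1)
    have hsub := hIcc k a h1
    have haX : a ∈ X := h1 ⟨le_rfl, by linarith⟩
    have haX' : a + ρ k ∈ X := h1 ⟨by linarith, le_rfl⟩
    rcases h3 with ⟨h3, h4⟩ | ⟨h3, h4⟩ | ⟨h3, h4⟩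
    · have e1 := hFw a haX b hb h3
      have e2 := hFw b hb (a + ρ k) haX' h4
      rcases le_or_gt (2 * x k) (F (a + ρ k) - F b) with h5 | h5
      · left
        intro z hz
        rw [abs_le] at hz
        exact hsub ⟨by linarith [hz.1], by linarith [hz.2]⟩
      · right
        intro z hz
        rw [abs_le] at hz
        exact hsub ⟨by linarith [hz.1], by linarith [hz.2]⟩
    · left
      intro z hz
      rw [abs_le] at hz
      have e1 := hFw b hb a haX h3.le
      exact hsub ⟨by linarith [hz.1], by linarith [hz.2]⟩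
    · right
      intro z hz
      rw [abs_le] at hz
      have e1 := hFw (a + ρ k) haX' b hb h3.le
      exact hsub ⟨by linarith [hz.1], by linarith [hz.2]⟩
  have hcov := cover hx hs (e '' X) (by
    rintro _ ⟨s, hsX, rfl⟩
    by_cases h : IsC X δ s
    · right
      refine ⟨ℓ s, F (lo s), φ (Q s) s, fun k hk => ?_, heC s h, fun ω' => ?_⟩
      · have h1 := hloQ s hsX
        have h2 : HasInt X (δ k) (lo s) :=
          (lev_min hk).congr (same_mono (hanti _ _ hk.le) h1.2)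
        have h3 := hb1 s hsX h
        have h4 : r x (ℓ s) ≤ r x (k + 1) := hranti hk
        exact hLoc k (lo s) (hQX s h1) h2 (e s) h3.1 (by linarith)
      · obtain ⟨y, hy, hyω⟩ := (hφ (Q s) (hQgood s hsX h)).2.2 ω'
        refine ⟨y, hQX s hy, ?_⟩
        obtain ⟨h4, h5, h6⟩ := hQQ s y h hy
        have hloeq : lo y = lo s := by simp only [hlo, h6]
        rw [heC y h4, h5, h6, hloeq, hyω]
    · left
      intro k
      have h1 : HasInt X (δ k) s := by
        by_contra hc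
        exact h ⟨k, hc⟩
      refine hLoc k s hsX h1 (e s) (heN s h).ge ?_
      rw [heN s h]
      linarith [r_nonneg hx hs (k + 1)])
  obtain ⟨K, hK1, hK2, hK3, hK5, ⟨hK4⟩⟩ := assemble hx hs (e '' X) hScomp (hXne.image e) hcov
  obtain ⟨hh⟩ := hhomeo
  exact ⟨K, hK1, hK2, hK3, hK5, ⟨hh.trans hK4⟩⟩

end Pool.Agent.V1187.TT
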