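import Mathlib
import Pool.Agent.V1187.TT3
import Pool.Agent.V1187.TT4

set_option autoImplicit false
open Set Filter Topology

namespace Pool.Agent.V1187.TT

/-- Scales. -/
noncomputable def dl (k : ℕ) : ℝ := 1 / ((k : ℝ) + 1)

theorem dl_pos (k : ℕ) : 0 < dl k := by unfold dl; positivity

theorem dl_anti (j k : ℕ) (h : j ≤ k) : dl k ≤ dl j := by
  unfold dl
  have : (j : ℝ) ≤ k := by exact_mod_cast h
  exact one_div_le_one_div_of_le (by positivity) (by linarith)

theorem dl_le_one (k : ℕ) : dl k ≤ 1 := by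
  have := dl_anti 0 k (Nat.zero_le k)
  refine this.trans ?_
  unfold dl; norm_num

theorem exists_dl {ε : ℝ} (hε : 0 < ε) : ∃ k, dl k < ε := exists_nat_one_div_lt hε

/-- Every nonempty compact perfect subset of the line is homeomorphic to a sum of shrinking
compact sets. -/
theorem all_types (X : Set ℝ) (hX : IsCompact X) (hXne : X.Nonempty)
    (hperf : ∀ z ∈ X, ∀ ε > 0, ∃ y ∈ X, y ≠ z ∧ |y - z| < ε) :
    ∃ K : ℕ → Set ℝ, (∀ i, IsCompact (K i) ∧ (0 : ℝ) ∈ K i ∧ K i ⊆ Ici 0 ∧ 0 < Metric.diam (K i)) ∧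
      Tendsto (fun i => Metric.diam (K i)) atTop (𝓝 0) ∧
      Summable (fun i => Metric.diam (K i)) ∧ (∀ i, ∃ a, 0 < a ∧ K (i + 1) = {0, a}) ∧
      Nonempty (X ≃ₜ {s : ℝ | ∃ y : ℕ → ℝ, (∀ j, y j ∈ K j) ∧ s = ∑' j, y j}) := by
  classical
  have hun := fun k => unif hX (dl_pos k)
  choose ρ₀ hρ₀ hun₀ using hun
  set ρ : ℕ → ℝ := fun k => (Finset.range (k + 1)).inf' ⟨0, by simp⟩ (fun j => min (ρ₀ j) (dl j))
    with hρdef
  have hρ : ∀ k, 0 < ρ k := by
    intro k
    rw [hρdef, Finset.lt_inf'_iff]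
    intro j _
    exact lt_min (hρ₀ j) (dl_pos j)
  have hρle : ∀ k, ρ k ≤ min (ρ₀ k) (dl k) := by
    intro k
    exact Finset.inf'_le _ (Finset.mem_range.2 (Nat.lt_succ_self k))
  have hρdl : ∀ k, ρ k ≤ dl k := fun k => (hρle k).trans (min_le_right _ _)
  have hρ1 : ∀ k, ρ k ≤ 1 := fun k => (hρdl k).trans (dl_le_one k)
  have hρanti : ∀ j k, j ≤ k → ρ k ≤ ρ j := by
    intro j k hjk
    refine Finset.inf'_mono _ ?_ _
    intro i hi
    rw [Finset.mem_range] at hi ⊢
    omega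
  have hun : ∀ k, ∀ s ∈ X, HasInt X (dl k) s → ∃ a, Icc a (a + ρ k) ⊆ X ∧ same X (dl k) s a := by
    intro k s hs hi
    obtain ⟨a, h1, h2⟩ := hun₀ k s hs hi
    refine ⟨a, (Icc_subset_Icc_right ?_).trans h1, h2⟩
    linarith [(hρle k).trans (min_le_left _ _)]
  set m := sInf X with hm
  set M := sSup X with hM
  have hmle : ∀ s ∈ X, m ≤ s := fun s h => csInf_le hX.bddBelow h
  have hleM : ∀ s ∈ X, s ≤ M := fun s h => le_csSup hX.bddAbove h
  set L : ℝ := max 1 (M - m) with hLdef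
  have hL : 1 ≤ L := le_max_left _ _
  have hLle : ∀ s ∈ X, ∀ y ∈ X, y - s ≤ L := by
    intro s hs y hy
    have h1 := hmle s hs
    have h2 := hleM y hy
    have h3 := le_max_right 1 (M - m)
    linarith
  set O : ℕ → Set ℝ := fun k => U X (dl k) ∪ V X (ρ k) with hOdef
  have hO : ∀ k, IsOpen (O k) := fun k => (U_open X _).union (V_open X _)
  have hOm : ∀ j k, j ≤ k → O j ⊆ O k := fun j k h =>
    union_subset_union (U_anti (dl_anti j k h)) (V_anti (hρanti j k h))
  have hd : ∀ k, 0 ≤ dd ρ L k := fun k => (dd_pos hρ hL k).le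
  have hds := dd_summable hρ hρ1 hL
  set F : ℝ → ℝ := E (dd ρ L) O m with hF
  -- small and large increments
  have hsmall : ∀ k, ∀ s ∈ X, ∀ y ∈ X, s ≤ y → (∀ z, s < z → z < y → z ∉ O k) →
      F y - F s ≤ xx ρ L k / 4 := by
    intro k s hs y hy hsy h
    have h1 := E_small hd hds hO k (hmle s hs) hsy
      (fun j hj z hz1 hz2 hz => h z hz1 hz2 (hOm j k hj hz))
    have h2 := tail_le hρ hρ1 hL k
    have h3 : (∑' j, dd ρ L (k + 1 + j)) * (y - s) ≤ (∑' j, dd ρ L (k + 1 + j)) * L :=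
      mul_le_mul_of_nonneg_left (hLle s hs y hy) (tsum_nonneg (fun j => hd _))
    exact h1.trans (h3.trans h2)
  have hA4 : ∀ k, ∀ s ∈ X, ∀ z ∈ X, s < z → ¬ same X (dl k) s z →
      r (xx ρ L) k < F z - F s := by
    intro k s hs z hz hsz hns
    unfold same at hns
    push_neg at hns
    obtain ⟨w, hw, a, b, h1, h2, h3, h4⟩ := hns
    rw [uIcc_of_le hsz.le] at hw
    have e1 : s ≤ a := by
      rcases h4 s hs with h | h
      · exact h
      · linarith [hw.1]
    have e2 : b ≤ z := by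
      rcases h4 z hz with h | h
      · linarith [hw.2]
      · exact h
    have h5 := E_big hd hds hO k ((hmle s hs).trans e1) (h1.trans h2).le
      (fun t ht1 ht2 => Or.inl ⟨a, b, ht1, ht2, h3, h4⟩)
    have h6 := E_mono hd hds hO (hmle s hs) e1
    have h7 := E_mono hd hds hO ((hmle s hs).trans (e1.trans (h1.trans h2).le)) e2
    have h8 := r_lt hρ hρ1 hL k
    have h9 : dd ρ L k * ρ k ≤ dd ρ L k * (b - a) :=
      mul_le_mul_of_nonneg_left ((hρdl k).trans h3) (hd k)
    show r (xx ρ L) k < F z - F s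
    linarith
  refine core hX hXne hperf (δ := dl) (ρ := ρ) (x := xx ρ L) (F := F) dl_pos dl_anti hρ
    (xx_pos hρ hL) (xx_summable hρ hρ1 hL) (rr_le hρ hρ1 hL)
    ((E_cont hd hds hO m).mono (fun s hs => hmle s hs)) ?_ ?_ hA4 ?_
  · intro s hs y hy hsy
    by_cases hsub : ∀ z, s < z → z < y → z ∈ X
    · obtain ⟨k, hk⟩ := exists_dl (sub_pos.2 hsy)
      have hIccX : Icc s y ⊆ X := by
        intro z hz
        rcases hz.1.lt_or_eq with h | h
        · rcases hz.2.lt_or_eq with h' | h'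
          · exact hsub z h h'
          · rw [h']; exact hy
        · rw [← h]; exact hs
      have h1 := E_big hd hds hO k (hmle s hs) hsy.le
        (fun t ht1 ht2 => Or.inr ⟨s, y, ht1, ht2, (hρdl k).trans hk.le, hIccX⟩)
      have h2 : 0 < dd ρ L k * (y - s) := mul_pos (dd_pos hρ hL k) (by linarith)
      show F s < F y
      linarith
    · push_neg at hsub
      obtain ⟨z, hz1, hz2, hz⟩ := hsub
      obtain ⟨ε, hε, hball⟩ := Metric.isOpen_iff.1 hX.isClosed.isOpen_compl z hz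
      obtain ⟨k, hk⟩ := exists_dl hε
      have h1 : ¬ same X (dl k) s y := by
        intro h
        refine h z (by rw [uIcc_of_le hsy.le]; exact ⟨hz1.le, hz2.le⟩) ?_
        refine ⟨z - ε, z + ε, by linarith, by linarith, by linarith, fun w hw => ?_⟩
        by_contra hc
        push_neg at hc
        have hwb : w ∈ Metric.ball z ε := by
          rw [Metric.mem_ball, Real.dist_eq, abs_lt]
          constructor <;> linarith [hc.1, hc.2]
        exact hball hwb hw
      have h2 := hA4 k s hs y hy hsy h1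
      have h3 := r_nonneg (xx_pos hρ hL) (xx_summable hρ hρ1 hL) k
      linarith
  · intro k s hs hi
    obtain ⟨a, h1, h2⟩ := near hX.isClosed (hρ k) hs (hun k s hs hi)
    have hk := hρ k
    have haX : a ∈ X := h1 ⟨le_rfl, by linarith⟩
    have haX' : a + ρ k ∈ X := h1 ⟨by linarith, le_rfl⟩
    have h3 := E_big hd hds hO k (hmle a haX) (by linarith : a ≤ a + ρ k)
      (fun t ht1 ht2 => Or.inr ⟨a, a + ρ k, ht1, ht2, by linarith, h1⟩)
    refine ⟨a, h1, ?_, ?_⟩
    · have : xx ρ L k = dd ρ L k * ρ k / 4 := rfl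
      rw [add_sub_cancel_left] at h3
      show 4 * xx ρ L k ≤ F (a + ρ k) - F a
      linarith
    · rcases h2 with h2 | ⟨h2, h4⟩ | ⟨h2, h4⟩
      · exact Or.inl h2
      · refine Or.inr (Or.inl ⟨h2, hsmall k s hs a haX h2.le (fun z hz1 hz2 hz => ?_)⟩)
        rcases hz with hz | hz
        · exact (h4 z hz1 hz2).1 hz
        · exact (h4 z hz1 hz2).2 hz
      · refine Or.inr (Or.inr ⟨h2, hsmall k _ haX' s hs h2.le (fun z hz1 hz2 hz => ?_)⟩)
        rcases hz with hz | hz
        · exact (h4 z hz1 hz2).1 hz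
        · exact (h4 z hz1 hz2).2 hz
  · intro k s hs y hy hsy hsame hi
    refine hsmall k s hs y hy hsy (fun z hz1 hz2 hz => ?_)
    have hzu : z ∈ uIcc s y := by rw [uIcc_of_le hsy]; exact ⟨hz1.le, hz2.le⟩
    rcases hz with hz | hz
    · exact hsame z hzu hz
    · obtain ⟨a, b, h1, h2, -, h3⟩ := hz
      apply hi
      refine ⟨z, b, h2, (Icc_subset_Icc_left h1.le).trans h3, same_betw hsame hzu⟩

end Pool.Agent.V1187.TT
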