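import Pool.Agent.V1187.Comp4

/-!
# The self-similar measures `μ_{p,q}`: the transform
-/

set_option autoImplicit false

open MeasureTheory Filter Topology

namespace Pool.Agent.V1187.BD

open Pool.Agent.V1187.SP Pool.Agent.V1187.CS

/-- `μ = (1/q) ∑_{a<q} μ ∘ f_a⁻¹` with `f_a (x) = (x + (p/q) a) / p`. -/
def SelfSim (p q : ℕ) (μ : Measure ℝ) : Prop :=
  μ = (q : ENNReal)⁻¹ • ∑ a ∈ Finset.range q,
    Measure.map (fun x : ℝ => (x + ((p : ℝ) / q) * a) / p) μ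

/-- the standing assumptions -/
structure Adm (p q : ℕ) : Prop where
  two_le : 2 ≤ q
  dvd : q ∣ p
  lt : q < p

namespace Adm

variable {p q : ℕ} (h : Adm p q)
include h

theorem two_mul_le : 2 * q ≤ p := by
  obtain ⟨b, hb⟩ := h.dvd
  have h1 := h.two_le
  have h2 := h.lt
  have h3 : 2 ≤ b := by
    by_contra hc
    have : b ≤ 1 := by omega
    have : q * b ≤ q * 1 := Nat.mul_le_mul_left _ this
    omega
  rw [hb, mul_comm]
  exact Nat.mul_le_mul_left _ h3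

theorem four_le : 4 ≤ p := by
  have h1 := h.two_mul_le
  have h2 := h.two_le
  omega

theorem qpos : (0 : ℝ) < q := by
  have := h.two_le
  exact_mod_cast (by omega : 0 < q)

theorem ppos : (0 : ℝ) < p := by
  have := h.four_le
  exact_mod_cast (by omega : 0 < p)

theorem ppos' : 0 < p := by
  have := h.four_le
  omega

theorem qpos' : 0 < q := by
  have := h.two_le
  omega

end Adm

theorem M_add_int (n : ℕ) (u : ℝ) (z : ℤ) : M n (u + z) = M n u := by
  unfold M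
  congr 1
  refine Finset.sum_congr rfl fun j _ => ?_
  have h1 : ((2 * Real.pi * j * (u + z) : ℝ) : ℂ) * Complex.I =
      ((2 * Real.pi * j * u : ℝ) : ℂ) * Complex.I + ((j * z : ℤ) : ℂ) * (2 * Real.pi * Complex.I) := by
    push_cast
    ring
  rw [h1, Complex.exp_add, Complex.exp_int_mul_two_pi_mul_I, mul_one]

theorem m_add_int (n : ℕ) (u : ℝ) (z : ℤ) : m n (u + z) = m n u := by
  unfold m
  rw [M_add_int]

theorem charFun_self {p q : ℕ} (ha : Adm p q) {μ : Measure ℝ} [IsProbabilityMeasure μ]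
    (h : SelfSim p q μ) (ξ : ℝ) :
    charFun μ (2 * Real.pi * ξ) = M q (ξ / q) * charFun μ (2 * Real.pi * (ξ / p)) := by
  have hp := ha.ppos
  have hq := ha.qpos
  have h0 : charFun μ (2 * Real.pi * ξ) = charFun ((q : ENNReal)⁻¹ • ∑ a ∈ Finset.range q,
    Measure.map (fun x : ℝ => (x + ((p : ℝ) / q) * a) / p) μ) (2 * Real.pi * ξ) :=
    congrArg (fun ν => charFun ν (2 * Real.pi * ξ)) h
  rw [h0]
  have hmeas : ∀ a : ℕ, Measurable (fun x : ℝ => (x + ((p : ℝ) / q) * a) / p) := by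
    intro a; fun_prop
  have hc : ∀ t : ℝ, Continuous (fun x : ℝ => Complex.exp (t * x * Complex.I)) := by
    intro t; fun_prop
  rw [charFun_apply_real, integral_smul_measure, integral_finsetSum_measure]
  · rw [ENNReal.toReal_inv, ENNReal.toReal_natCast, Complex.real_smul, M]
    push_cast
    rw [mul_assoc ((q : ℂ)⁻¹)]
    congr 1
    rw [Finset.sum_mul]
    refine Finset.sum_congr rfl fun a _ => ?_
    rw [integral_map (hmeas a).aemeasurable (by
      have := hc (2 * Real.pi * ξ)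
      push_cast at this
      exact this.aestronglyMeasurable), charFun_apply_real, ← integral_const_mul]
    congr 1
    funext x
    rw [← Complex.exp_add]
    congr 1
    have hp' : (p : ℂ) ≠ 0 := by exact_mod_cast hp.ne'
    have hq' : (q : ℂ) ≠ 0 := by exact_mod_cast hq.ne'
    push_cast
    field_simp
    ring
  · intro a _
    have : IsProbabilityMeasure (Measure.map (fun x : ℝ => (x + ((p : ℝ) / q) * a) / p) μ) :=
      Measure.isProbabilityMeasure_map (hmeas a).aemeasurable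
    refine Integrable.of_bound (hc (2 * Real.pi * ξ)).aestronglyMeasurable 1
      (Eventually.of_forall fun x => ?_)
    have : (((2 * Real.pi * ξ : ℝ) : ℂ) * (x : ℂ) * Complex.I)
        = ((2 * Real.pi * ξ * x : ℝ) : ℂ) * Complex.I := by push_cast; ring
    rw [this, Complex.norm_exp_ofReal_mul_I]

theorem pf_self {p q : ℕ} (ha : Adm p q) {μ : Measure ℝ} [IsProbabilityMeasure μ]
    (h : SelfSim p q μ) (ξ : ℝ) : pf μ ξ = m q (ξ / q) * pf μ (ξ / p) := by
  rw [pf, charFun_self ha h, norm_mul, mul_pow]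
  rfl

theorem pf_nonneg (μ : Measure ℝ) (ξ : ℝ) : 0 ≤ pf μ ξ := sq_nonneg _

theorem pf_le_one (μ : Measure ℝ) [IsProbabilityMeasure μ] (ξ : ℝ) : pf μ ξ ≤ 1 := by
  unfold pf
  rw [sq_le_one_iff₀ (norm_nonneg _)]
  exact norm_charFun_le_one _

theorem pf_zero (μ : Measure ℝ) [IsProbabilityMeasure μ] : pf μ 0 = 1 := by
  simp [pf]

theorem continuous_pf (μ : Measure ℝ) [IsProbabilityMeasure μ] : Continuous (pf μ) := by
  unfold pf
  have h1 : Continuous (charFun μ) := continuous_charFun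
  exact ((h1.comp (by fun_prop : Continuous fun ξ : ℝ => 2 * Real.pi * ξ)).norm).pow 2

/-- the product of the first `K` factors -/
noncomputable def Wp (p q K : ℕ) (ξ : ℝ) : ℝ := ∏ i ∈ Finset.range K, m q (ξ / (q * p ^ i))

theorem Wp_nonneg (p q K : ℕ) (ξ : ℝ) : 0 ≤ Wp p q K ξ := Finset.prod_nonneg fun _ _ => m_nonneg _ _

theorem Wp_le_one (p q K : ℕ) (ξ : ℝ) : Wp p q K ξ ≤ 1 :=
  Finset.prod_le_one (fun _ _ => m_nonneg _ _) fun _ _ => m_le_one _ _

theorem Wp_zero (p q : ℕ) (ξ : ℝ) : Wp p q 0 ξ = 1 := by simp [Wp]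

theorem Wp_succ' {p q : ℕ} (ha : Adm p q) (K : ℕ) (ξ : ℝ) :
    Wp p q (K + 1) ξ = m q (ξ / q) * Wp p q K (ξ / p) := by
  rw [Wp, Finset.prod_range_succ', mul_comm, pow_zero, mul_one, Wp]
  congr 1
  refine Finset.prod_congr rfl fun i _ => ?_
  congr 1
  have := ha.ppos.ne'
  rw [pow_succ]
  field_simp

theorem Wp_add {p q : ℕ} (ha : Adm p q) (K L : ℕ) (ξ : ℝ) :
    Wp p q (K + L) ξ = Wp p q K ξ * Wp p q L (ξ / p ^ K) := by
  rw [Wp, Finset.prod_range_add, Wp, Wp]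
  congr 1
  refine Finset.prod_congr rfl fun i _ => ?_
  congr 1
  have := ha.ppos.ne'
  rw [pow_add]
  field_simp

theorem pf_eq {p q : ℕ} (ha : Adm p q) {μ : Measure ℝ} [IsProbabilityMeasure μ]
    (h : SelfSim p q μ) (K : ℕ) (ξ : ℝ) : pf μ ξ = Wp p q K ξ * pf μ (ξ / p ^ K) := by
  induction K generalizing ξ with
  | zero => simp [Wp_zero]
  | succ K ih =>
    rw [pf_self ha h, ih, Wp_succ' ha, mul_assoc]
    congr 2
    rw [pow_succ, div_div, mul_comm (p : ℝ)]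

theorem pf_le_Wp {p q : ℕ} (ha : Adm p q) {μ : Measure ℝ} [IsProbabilityMeasure μ]
    (h : SelfSim p q μ) (K : ℕ) (ξ : ℝ) : pf μ ξ ≤ Wp p q K ξ := by
  rw [pf_eq ha h K]
  exact mul_le_of_le_one_right (Wp_nonneg _ _ _ _) (pf_le_one _ _)

theorem tendsto_pf_div {p q : ℕ} (ha : Adm p q) (μ : Measure ℝ) [IsProbabilityMeasure μ] (ξ : ℝ) :
    Tendsto (fun K : ℕ => pf μ (ξ / p ^ K)) atTop (𝓝 1) := by
  have h1 : Tendsto (fun K : ℕ => ξ / (p : ℝ) ^ K) atTop (𝓝 0) := by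
    apply Tendsto.div_atTop tendsto_const_nhds
    apply tendsto_pow_atTop_atTop_of_one_lt
    have := ha.four_le
    exact_mod_cast (by omega : 1 < p)
  have h2 := ((continuous_pf μ).tendsto 0).comp h1
  rwa [pf_zero] at h2

theorem tendsto_Wp {p q : ℕ} (ha : Adm p q) {μ : Measure ℝ} [IsProbabilityMeasure μ]
    (h : SelfSim p q μ) (ξ : ℝ) : Tendsto (fun K : ℕ => Wp p q K ξ) atTop (𝓝 (pf μ ξ)) := by
  have h1 := tendsto_pf_div ha μ ξ
  have h2 : Tendsto (fun K : ℕ => pf μ ξ / pf μ (ξ / p ^ K)) atTop (𝓝 (pf μ ξ / 1)) :=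
    tendsto_const_nhds.div h1 one_ne_zero
  rw [div_one] at h2
  refine h2.congr' ?_
  have h3 : ∀ᶠ K : ℕ in atTop, 0 < pf μ (ξ / p ^ K) := h1.eventually_const_lt (by norm_num)
  filter_upwards [h3] with K hK
  rw [div_eq_iff hK.ne']
  exact pf_eq ha h K ξ

/-- the transform has no zero near the origin -/
theorem exists_delta {p q : ℕ} (ha : Adm p q) {μ : Measure ℝ} [IsProbabilityMeasure μ]
    (h : SelfSim p q μ) : ∃ δ : ℝ, 0 < δ ∧ ∀ u : ℝ, |u| ≤ 3 / 4 → δ ≤ pf μ u := by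
  have hne : ∀ u : ℝ, |u| ≤ 3 / 4 → pf μ u ≠ 0 := by
    intro u hu h0
    obtain ⟨K, hK⟩ : ∃ K : ℕ, 0 < pf μ (u / p ^ K) :=
      ((tendsto_pf_div ha μ u).eventually_const_lt (by norm_num)).exists
    rw [pf_eq ha h K] at h0
    rcases mul_eq_zero.1 h0 with h1 | h1
    · rw [Wp, Finset.prod_eq_zero_iff] at h1
      obtain ⟨i, -, hi⟩ := h1
      rw [m, sq_eq_zero_iff, norm_eq_zero, M_eq_zero_iff (by have := ha.two_le; omega)] at hi
      obtain ⟨⟨l, hl⟩, hi2⟩ := hi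
      have hq := ha.qpos.ne'
      have hpi : (0 : ℝ) < (p : ℝ) ^ i := pow_pos ha.ppos i
      have h2 : (q : ℝ) * (u / (q * p ^ i)) = u / p ^ i := by
        field_simp
      rw [h2, div_eq_iff hpi.ne'] at hl
      have h3 : |((l * (p : ℤ) ^ i : ℤ) : ℝ)| ≤ 3 / 4 := by
        push_cast
        rw [← hl]
        exact hu
      have h4 : l * (p : ℤ) ^ i = 0 := by
        by_contra hc
        have : 1 ≤ |l * (p : ℤ) ^ i| := Int.one_le_abs hc
        have : (1 : ℝ) ≤ |((l * (p : ℤ) ^ i : ℤ) : ℝ)| := by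
          rw [← Int.cast_abs]; exact_mod_cast this
        linarith
      have h5 : u = 0 := by
        rw [hl]
        exact_mod_cast h4
      exact hi2 ⟨0, by rw [h5]; simp⟩
    · exact absurd h1 hK.ne'
  have hc : IsCompact (Set.Icc (-(3 / 4) : ℝ) (3 / 4)) := isCompact_Icc
  obtain ⟨u₀, hu₀, hmin⟩ := hc.exists_isMinOn ⟨0, by constructor <;> norm_num⟩
    (continuous_pf μ).continuousOn
  refine ⟨pf μ u₀, ?_, ?_⟩
  · exact lt_of_le_of_ne (pf_nonneg _ _) (Ne.symm (hne u₀ (abs_le.2 hu₀)))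
  · intro u hu
    exact hmin (abs_le.1 hu)

/-- the mass of a moved element -/
theorem pf_moved {p q : ℕ} (ha : Adm p q) {μ : Measure ℝ} [IsProbabilityMeasure μ]
    (h : SelfSim p q μ) {δ : ℝ} (hδ0 : 0 < δ) (hδ : ∀ u : ℝ, |u| ≤ 3 / 4 → δ ≤ pf μ u)
    {K k : ℕ} (hk : K ≤ k) {v : ℝ} (hv : |v| ≤ 5 / 8 * p ^ K) :
    δ ^ 2 * Wp p q K v ≤ pf μ (v + q * p ^ k) := by
  have hp := ha.ppos
  have hq := ha.qpos
  have hp4 : (4 : ℝ) ≤ p := by exact_mod_cast ha.four_le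
  have hqp : 2 * (q : ℝ) ≤ p := by exact_mod_cast ha.two_mul_le
  have hpK : (0 : ℝ) < (p : ℝ) ^ K := pow_pos hp K
  have hpk : (0 : ℝ) < (p : ℝ) ^ k := pow_pos hp k
  rw [pf_eq ha h (k + 1)]
  have h1 : Wp p q (k + 1) (v + q * p ^ k) = Wp p q (k + 1) v := by
    unfold Wp
    refine Finset.prod_congr rfl fun i hi => ?_
    have hik : i ≤ k := Nat.lt_succ_iff.1 (Finset.mem_range.1 hi)
    have e1 : (v + q * (p : ℝ) ^ k) / (q * p ^ i) = v / (q * p ^ i) + (((p : ℤ) ^ (k - i) : ℤ) : ℝ) := by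
      have hpi : (0 : ℝ) < (p : ℝ) ^ i := pow_pos hp i
      have e2 : (p : ℝ) ^ k = p ^ i * p ^ (k - i) := by
        rw [← pow_add]; congr 1; omega
      push_cast
      rw [e2, add_div]
      congr 1
      field_simp
    rw [e1, m_add_int]
  rw [h1]
  have h2 : Wp p q K v * δ ≤ Wp p q (k + 1) v := by
    obtain ⟨L, hL⟩ : ∃ L, k + 1 = K + L := ⟨k + 1 - K, by omega⟩
    rw [hL, Wp_add ha]
    apply mul_le_mul_of_nonneg_left _ (Wp_nonneg _ _ _ _)
    refine le_trans (hδ _ ?_) (pf_le_Wp ha h L _)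
    rw [abs_div, abs_of_pos hpK, div_le_iff₀ hpK]
    linarith
  have h3 : δ ≤ pf μ ((v + q * p ^ k) / p ^ (k + 1)) := by
    apply hδ
    have e1 : (v + q * (p : ℝ) ^ k) / p ^ (k + 1) = v / p ^ (k + 1) + q / p := by
      rw [pow_succ]
      field_simp
    rw [e1]
    have e2 : |v / (p : ℝ) ^ (k + 1)| ≤ 1 / 4 := by
      rw [abs_div, abs_of_pos (pow_pos hp (k + 1)), div_le_iff₀ (pow_pos hp (k + 1))]
      have : (p : ℝ) ^ K ≤ p ^ k := pow_le_pow_right₀ (by linarith) hk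
      rw [pow_succ]
      nlinarith
    have e3 : |(q : ℝ) / p| ≤ 1 / 2 := by
      rw [abs_of_pos (div_pos hq hp), div_le_iff₀ hp]
      linarith
    have e4 := abs_add_le (v / (p : ℝ) ^ (k + 1)) (q / p)
    linarith
  have h4 := Wp_nonneg p q K v
  calc δ ^ 2 * Wp p q K v = (Wp p q K v * δ) * δ := by ring
    _ ≤ Wp p q (k + 1) v * pf μ ((v + q * p ^ k) / p ^ (k + 1)) :=
        mul_le_mul h2 h3 hδ0.le (Wp_nonneg _ _ _ _)

/-- elements which are not moved -/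
theorem pf_near {p q : ℕ} (ha : Adm p q) {μ : Measure ℝ} [IsProbabilityMeasure μ]
    (h : SelfSim p q μ) {δ : ℝ} (hδ : ∀ u : ℝ, |u| ≤ 3 / 4 → δ ≤ pf μ u)
    {K : ℕ} {v : ℝ} (hv : |v| ≤ 5 / 8 * p ^ K) : δ * Wp p q K v ≤ pf μ v := by
  have hpK : (0 : ℝ) < (p : ℝ) ^ K := pow_pos ha.ppos K
  rw [pf_eq ha h K, mul_comm]
  apply mul_le_mul_of_nonneg_left _ (Wp_nonneg _ _ _ _)
  apply hδ
  rw [abs_div, abs_of_pos hpK, div_le_iff₀ hpK]
  linarith

end Pool.Agent.V1187.BD
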