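import Pool.Agent.V1187.Beur1

/-!
# Orthogonal families for `μ_{p,q}` and the mass
-/

set_option autoImplicit false

open MeasureTheory Filter Topology

namespace Pool.Agent.V1187.BD

open Pool.Agent.V1187.SP Pool.Agent.V1187.CS

/-- the integers at which the transform vanishes -/
def Z0 (p q : ℕ) (z : ℤ) : Prop := ∃ i : ℕ, (p : ℤ) ^ i ∣ z ∧ ¬ (q : ℤ) * p ^ i ∣ z

/-- the integers at which one of the first `K` factors vanishes -/
def ZK (p q K : ℕ) (z : ℤ) : Prop := ∃ i : ℕ, i < K ∧ (p : ℤ) ^ i ∣ z ∧ ¬ (q : ℤ) * p ^ i ∣ z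

theorem ZK.z0 {p q K : ℕ} {z : ℤ} (h : ZK p q K z) : Z0 p q z := by
  obtain ⟨i, _, h1, h2⟩ := h
  exact ⟨i, h1, h2⟩

theorem Z0.neg {p q : ℕ} {z : ℤ} (h : Z0 p q z) : Z0 p q (-z) := by
  obtain ⟨i, h1, h2⟩ := h
  exact ⟨i, (dvd_neg).2 h1, fun h => h2 ((dvd_neg).1 h)⟩

theorem Z0.ne_zero {p q : ℕ} {z : ℤ} (h : Z0 p q z) : z ≠ 0 := by
  rintro rfl
  obtain ⟨i, _, h2⟩ := h
  exact h2 (dvd_zero _)

theorem Z0.zk {p q : ℕ} (ha : Adm p q) {K : ℕ} {z : ℤ} (h : Z0 p q z) (hz : |z| < (p : ℤ) ^ K) :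
    ZK p q K z := by
  have hne := h.ne_zero
  obtain ⟨i, h1, h2⟩ := h
  refine ⟨i, ?_, h1, h2⟩
  have h3 := Int.le_of_dvd (abs_pos.2 hne) ((dvd_abs _ _).2 h1)
  have h4 : ((p : ℤ)) ^ i < (p : ℤ) ^ K := by omega
  have h5 : p ^ i < p ^ K := by exact_mod_cast h4
  exact (Nat.pow_lt_pow_iff_right (by have := ha.four_le; omega)).1 h5

theorem qdvd {p q : ℕ} (ha : Adm p q) : (q : ℤ) ∣ p := by exact_mod_cast ha.dvd

theorem qpow_dvd {p q : ℕ} (ha : Adm p q) {i k : ℕ} (h : i < k) : (q : ℤ) * p ^ i ∣ (p : ℤ) ^ k := by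
  have h1 : (p : ℤ) ^ k = p ^ (k - i - 1) * (p * p ^ i) := by
    rw [← mul_assoc, ← pow_succ, ← pow_add]
    congr 1
    omega
  rw [h1]
  exact Dvd.dvd.mul_left (mul_dvd_mul (qdvd ha) dvd_rfl) _

theorem ZK.congr {p q : ℕ} (ha : Adm p q) {K : ℕ} {z w : ℤ} (h : ZK p q K z)
    (hd : (p : ℤ) ^ K ∣ z - w) : ZK p q K w := by
  obtain ⟨i, hi, h1, h2⟩ := h
  have e1 : (p : ℤ) ^ i ∣ z - w := (pow_dvd_pow _ hi.le).trans hd
  have e2 : (q : ℤ) * p ^ i ∣ z - w := (qpow_dvd ha hi).trans hd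
  refine ⟨i, hi, ?_, ?_⟩
  · have := dvd_sub h1 e1
    simpa using this
  · intro h
    apply h2
    have := dvd_add e2 h
    simpa using this

theorem Z0.pmul {p q : ℕ} (ha : Adm p q) {z : ℤ} (h : Z0 p q z) : Z0 p q (p * z) := by
  obtain ⟨i, h1, h2⟩ := h
  have hp : (p : ℤ) ≠ 0 := by have := ha.ppos'; exact_mod_cast this.ne'
  refine ⟨i + 1, ?_, ?_⟩
  · rw [pow_succ, mul_comm]
    exact mul_dvd_mul_left _ h1
  · intro h
    apply h2
    rw [pow_succ, show (q : ℤ) * (p ^ i * p) = p * (q * p ^ i) by ring] at h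
    exact (mul_dvd_mul_iff_left hp).1 h

theorem Z0.of_pmul {p q : ℕ} (ha : Adm p q) {z : ℤ} (h : Z0 p q (p * z)) : Z0 p q z := by
  obtain ⟨i, h1, h2⟩ := h
  have hp : (p : ℤ) ≠ 0 := by have := ha.ppos'; exact_mod_cast this.ne'
  cases i with
  | zero =>
    exfalso
    apply h2
    rw [pow_zero, mul_one]
    exact Dvd.dvd.mul_right (qdvd ha) _
  | succ i =>
    refine ⟨i, ?_, ?_⟩
    · rw [pow_succ, mul_comm] at h1
      exact (mul_dvd_mul_iff_left hp).1 h1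
    · intro h
      apply h2
      rw [pow_succ, show (q : ℤ) * (p ^ i * p) = p * (q * p ^ i) by ring]
      exact mul_dvd_mul_left _ h

theorem z0_of_digits {p q : ℕ} (ha : Adm p q) {a b : ℕ} (ha' : a < q) (hb' : b < q) (hab : a ≠ b)
    (y z : ℤ) : Z0 p q ((a + p * y) - (b + p * z)) := by
  refine ⟨0, by simp, ?_⟩
  rw [pow_zero, mul_one]
  intro h
  have h1 : (q : ℤ) ∣ (a : ℤ) - b := by
    have h2 : (q : ℤ) ∣ p * (z - y) := Dvd.dvd.mul_right (qdvd ha) _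
    have := dvd_add h h2
    have e : (a + p * y : ℤ) - (b + p * z) + p * (z - y) = a - b := by ring
    rwa [e] at this
  have h4 : (a : ℤ) - b = 0 := by
    apply Int.eq_zero_of_abs_lt_dvd h1
    rw [abs_lt]
    constructor <;> omega
  apply hab
  omega

theorem pf_of_Z0 {p q : ℕ} (ha : Adm p q) {μ : Measure ℝ} [IsProbabilityMeasure μ]
    (h : SelfSim p q μ) {z : ℤ} (hz : Z0 p q z) : pf μ z = 0 := by
  obtain ⟨i, h1, h2⟩ := hz
  have hq := ha.qpos.ne'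
  have hpi : (p : ℝ) ^ i ≠ 0 := (pow_pos ha.ppos i).ne'
  rw [pf_eq ha h (i + 1), mul_eq_zero]
  left
  rw [Wp, Finset.prod_eq_zero_iff]
  refine ⟨i, Finset.mem_range.2 (Nat.lt_succ_self i), ?_⟩
  rw [m, sq_eq_zero_iff, norm_eq_zero, M_eq_zero_iff (by have := ha.two_le; omega)]
  refine ⟨?_, ?_⟩
  · obtain ⟨l, hl⟩ := h1
    refine ⟨l, ?_⟩
    rw [hl]
    push_cast
    field_simp
  · rintro ⟨l, hl⟩
    apply h2
    refine ⟨l, ?_⟩
    rw [div_eq_iff (mul_ne_zero hq hpi)] at hl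
    have : (z : ℝ) = ((q * p ^ i * l : ℤ) : ℝ) := by
      rw [hl]; push_cast; ring
    exact_mod_cast this

/-! ## Comparison with the general products -/

/-- factors `2, q, p/q, q, p/q, …` -/
def nn (p q : ℕ) (i : ℕ) : ℕ := if i = 0 then 2 else if i % 2 = 1 then q else p / q

theorem nn_ge {p q : ℕ} (ha : Adm p q) (i : ℕ) : 2 ≤ nn p q i := by
  unfold nn
  have h1 := ha.two_le
  have h2 : 2 ≤ p / q := by
    rw [Nat.le_div_iff_mul_le ha.qpos']
    exact ha.two_mul_le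
  split_ifs <;> omega

theorem nn_odd (p q : ℕ) (i : ℕ) : nn p q (2 * i + 1) = q := by
  unfold nn
  rw [if_neg (by omega), if_pos (by omega)]

theorem nn_even (p q : ℕ) (i : ℕ) : nn p q (2 * i + 2) = p / q := by
  unfold nn
  rw [if_neg (by omega), if_neg (by omega)]

theorem P_nn {p q : ℕ} (ha : Adm p q) (i : ℕ) :
    P (nn p q) (2 * i + 1) = 2 * p ^ i ∧ P (nn p q) (2 * i + 2) = 2 * (q * p ^ i) := by
  induction i with
  | zero =>
    have h1 : P (nn p q) 1 = 2 := by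
      rw [P_succ, P_zero]; simp [nn]
    refine ⟨by simpa using h1, ?_⟩
    rw [show 2 * 0 + 2 = 1 + 1 by norm_num, P_succ, h1]
    have := nn_odd p q 0
    rw [show 2 * 0 + 1 = 1 by norm_num] at this
    rw [this]
    simp
  | succ i ih =>
    have h1 : P (nn p q) (2 * (i + 1) + 1) = 2 * p ^ (i + 1) := by
      rw [show 2 * (i + 1) + 1 = (2 * i + 2) + 1 by ring, P_succ, ih.2, nn_even]
      have : q * (p / q) = p := Nat.mul_div_cancel' ha.dvd
      calc 2 * (q * p ^ i) * (p / q) = 2 * (p ^ i * (q * (p / q))) := by ring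
        _ = 2 * p ^ (i + 1) := by rw [this, pow_succ]
    refine ⟨h1, ?_⟩
    rw [show 2 * (i + 1) + 2 = (2 * (i + 1) + 1) + 1 by ring, P_succ, h1, nn_odd]
    ring

theorem OdK_iff {p q : ℕ} (ha : Adm p q) (K : ℕ) (z : ℤ) :
    OdK (nn p q) K (2 * z) ↔ ZK p q K z := by
  unfold OdK ZK
  refine exists_congr fun i => and_congr_right fun _ => ?_
  rw [(P_nn ha i).1, (P_nn ha i).2]
  push_cast
  rw [mul_dvd_mul_iff_left (by norm_num : (2 : ℤ) ≠ 0),
    mul_dvd_mul_iff_left (by norm_num : (2 : ℤ) ≠ 0)]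

theorem DD_nn {p q : ℕ} (K : ℕ) : DD (nn p q) (fun i => 2 * i + 1) K = q ^ K := by
  rw [DD, Finset.prod_congr rfl fun i _ => nn_odd p q i]
  simp

theorem W_nn {p q : ℕ} (ha : Adm p q) (K : ℕ) (ξ : ℝ) :
    W (nn p q) (fun i => 2 * i + 1) K (2 * ξ) = Wp p q K ξ := by
  rw [W, Wp]
  refine Finset.prod_congr rfl fun i _ => ?_
  rw [nn_odd, show 2 * i + 1 + 1 = 2 * i + 2 by ring, (P_nn ha i).2]
  congr 1
  push_cast
  rw [mul_div_mul_left _ _ (by norm_num : (2 : ℝ) ≠ 0)]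

theorem W_family {p q : ℕ} (ha : Adm p q) {K : ℕ} {G : Finset ℤ}
    (hG : ∀ b ∈ G, ∀ c ∈ G, b ≠ c → ZK p q K (b - c)) :
    ∀ b : ℤ, b ∈ G.image (fun z : ℤ => 2 * z) → ∀ c : ℤ, c ∈ G.image (fun z : ℤ => 2 * z) → b ≠ c →
      W (nn p q) (fun i => 2 * i + 1) K ((b : ℝ) - c) = 0 := by
  intro b hb c hc hne
  obtain ⟨b', hb', rfl⟩ := Finset.mem_image.1 hb
  obtain ⟨c', hc', rfl⟩ := Finset.mem_image.1 hc
  have h1 := hG b' hb' c' hc' (fun h => hne (by rw [h]))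
  have h2 := W_zero_of_OdK (nn_ge ha) ((OdK_iff ha K _).2 h1)
  rw [← h2]
  congr 1
  push_cast
  ring

theorem card_image_two (G : Finset ℤ) : (G.image (fun z : ℤ => 2 * z)).card = G.card :=
  Finset.card_image_of_injective _ (fun a b h => by simpa using h)

theorem card_le_pow {p q : ℕ} (ha : Adm p q) {K : ℕ} {G : Finset ℤ}
    (hG : ∀ b ∈ G, ∀ c ∈ G, b ≠ c → ZK p q K (b - c)) : G.card ≤ q ^ K := by
  have := card_le_DD (nn_ge ha) K (G.image (fun z : ℤ => 2 * z))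
    (fun b hb c hc => W_family ha hG b hb c hc)
  rwa [card_image_two, DD_nn] at this

theorem sum_Wp_eq_one {p q : ℕ} (ha : Adm p q) {K : ℕ} {G : Finset ℤ}
    (hG : ∀ b ∈ G, ∀ c ∈ G, b ≠ c → ZK p q K (b - c)) (hc : q ^ K ≤ G.card) (ξ : ℝ) :
    ∑ b ∈ G, Wp p q K (ξ + b) = 1 := by
  have h1 := sum_W_eq_one (nn_ge ha) K (G.image (fun z : ℤ => 2 * z))
    (fun b hb c hc => W_family ha hG b hb c hc) (by rwa [card_image_two, DD_nn]) (2 * ξ)
  rw [Finset.sum_image (fun a _ b _ h => by simpa using h)] at h1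
  rw [← h1]
  refine Finset.sum_congr rfl fun b _ => ?_
  rw [← W_nn ha]
  congr 1
  push_cast
  ring

/-- extension of a finite family to a full one -/
theorem extendp {p q : ℕ} (ha : Adm p q) (F : Finset ℤ) (hne : F.Nonempty) (K : ℕ)
    (hF : ∀ b ∈ F, ∀ c ∈ F, b ≠ c → ZK p q (K + 1) (b - c))
    (hb : ∀ b ∈ F, 2 * |b| ≤ q * p ^ K) :
    ∃ G : Finset ℤ, F ⊆ G ∧ (∀ b ∈ G, ∀ c ∈ G, b ≠ c → ZK p q (K + 1) (b - c)) ∧
      (∀ b ∈ G, 2 * |b| ≤ q * p ^ K) ∧ q ^ (K + 1) ≤ G.card := by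
  classical
  have hP : P (nn p q) (2 * (K + 1)) = 2 * (q * p ^ K) := by
    rw [show 2 * (K + 1) = 2 * K + 2 by ring, (P_nn ha K).2]
  obtain ⟨G', h1, h2, h3, h4⟩ := extend (nn_ge ha) (F.image (fun z : ℤ => 2 * z)) (K + 1) (by
    intro b hb c hc hne
    obtain ⟨b', hb', rfl⟩ := Finset.mem_image.1 hb
    obtain ⟨c', hc', rfl⟩ := Finset.mem_image.1 hc
    have h1 := (OdK_iff ha (K + 1) _).2 (hF b' hb' c' hc' (fun h => hne (by rw [h])))
    have e : 2 * (b' - c') = 2 * b' - 2 * c' := by ring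
    rwa [e] at h1) (by
    intro b hbi
    obtain ⟨b', hb', rfl⟩ := Finset.mem_image.1 hbi
    have := hb b' hb'
    rw [hP, abs_mul]
    push_cast
    rw [show |(2 : ℤ)| = 2 by norm_num]
    linarith)
  obtain ⟨b₀, hb₀⟩ := hne
  have heven : ∀ g ∈ G', ∃ g', g = 2 * g' := by
    intro g hg
    have hb' : 2 * b₀ ∈ G' := h1 (Finset.mem_image.2 ⟨b₀, hb₀, rfl⟩)
    by_cases he : g = 2 * b₀
    · exact ⟨b₀, he⟩
    · obtain ⟨i, _, h5, _⟩ := h2 g hg (2 * b₀) hb' he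
      rw [(P_nn ha i).1] at h5
      push_cast at h5
      obtain ⟨l, hl⟩ := h5
      exact ⟨b₀ + p ^ i * l, by linarith⟩
  have hinj : Set.InjOn (fun z : ℤ => z / 2) G' := by
    intro a haG b hbG hab
    obtain ⟨a', rfl⟩ := heven a haG
    obtain ⟨b', rfl⟩ := heven b hbG
    simp only at hab
    rw [Int.mul_ediv_cancel_left _ (by norm_num), Int.mul_ediv_cancel_left _ (by norm_num)] at hab
    rw [hab]
  refine ⟨G'.image (fun z => z / 2), ?_, ?_, ?_, ?_⟩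
  · intro b hb
    refine Finset.mem_image.2 ⟨2 * b, h1 (Finset.mem_image.2 ⟨b, hb, rfl⟩), ?_⟩
    omega
  · intro b hb c hc hne
    obtain ⟨b', hb', rfl⟩ := Finset.mem_image.1 hb
    obtain ⟨c', hc', rfl⟩ := Finset.mem_image.1 hc
    obtain ⟨b'', rfl⟩ := heven b' hb'
    obtain ⟨c'', rfl⟩ := heven c' hc'
    rw [Int.mul_ediv_cancel_left _ (by norm_num), Int.mul_ediv_cancel_left _ (by norm_num)] at *
    rw [← OdK_iff ha]
    have h5 := h2 _ hb' _ hc' (fun h => hne (by linarith))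
    have e : 2 * (b'' - c'') = 2 * b'' - 2 * c'' := by ring
    rwa [e]
  · intro b hb
    obtain ⟨b', hb', rfl⟩ := Finset.mem_image.1 hb
    obtain ⟨b'', rfl⟩ := heven b' hb'
    have h5 := h3 _ hb'
    rw [hP, abs_mul] at h5
    push_cast at h5
    rw [show |(2 : ℤ)| = 2 by norm_num] at h5
    rw [Int.mul_ediv_cancel_left _ (by norm_num)]
    linarith
  · rw [Finset.card_image_of_injOn hinj]
    rw [DD_nn] at h4
    exact h4

/-! ## The mass -/

/-- a set of integers carrying the whole mass -/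
def Full (μ : Measure ℝ) (X : Set ℤ) : Prop :=
  ∀ y ε : ℝ, 0 < ε → ∃ F : Finset ℤ, ↑F ⊆ X ∧ 1 - ε < ∑ b ∈ F, pf μ (y + b)

theorem mass_lemma {p q : ℕ} (ha : Adm p q) {μ : Measure ℝ} [IsProbabilityMeasure μ]
    (h : SelfSim p q μ) {δ : ℝ} (hδ0 : 0 < δ) (F G : ℕ → Finset ℤ) (K : ℕ → ℕ) (φ : ℕ → ℤ → ℤ)
    (hmono : ∀ i, F i ⊆ F (i + 1)) (hFG : ∀ i, F i ⊆ G i) (hK : ∀ i, i ≤ K i)
    (hG : ∀ i, ∀ b ∈ G i, ∀ c ∈ G i, b ≠ c → ZK p q (K i) (b - c))
    (hcard : ∀ i, q ^ K i ≤ (G i).card) (hφ : ∀ i, Set.InjOn (φ i) (G i))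
    (hφF : ∀ i, ∀ t ∈ G i, φ i t ∈ F (i + 1)) (hid : ∀ i, ∀ b ∈ F i, φ i b = b)
    (hlow : ∀ i (y : ℝ), ∀ t ∈ G i, 8 * |y| ≤ (p : ℝ) ^ K i →
      δ * Wp p q (K i) (y + t) ≤ pf μ (y + φ i t)) :
    Full μ {b | ∃ j, b ∈ F j} := by
  intro y ε hε
  set S : ℕ → ℝ := fun j => ∑ b ∈ F j, pf μ (y + b) with hS
  have hmono' : ∀ i j, i ≤ j → F i ⊆ F j := by
    intro i j hij
    induction hij with
    | refl => exact Finset.Subset.refl _
    | step _ ih => exact ih.trans (hmono _)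
  have hsum : ∀ j, ∑ b ∈ G j, Wp p q (K j) (y + b) = 1 := fun j =>
    sum_Wp_eq_one ha (hG j) (hcard j) y
  have hle : ∀ j, S j ≤ 1 := by
    intro j
    rw [← hsum j]
    calc S j ≤ ∑ b ∈ G j, pf μ (y + b) :=
          Finset.sum_le_sum_of_subset_of_nonneg (hFG j) fun b _ _ => pf_nonneg _ _
      _ ≤ _ := Finset.sum_le_sum fun b _ => pf_le_Wp ha h _ _
  have hbdd : BddAbove (Set.range S) := ⟨1, by rintro _ ⟨j, rfl⟩; exact hle j⟩
  set s := ⨆ j, S j with hs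
  have hSs : ∀ j, S j ≤ s := fun j => le_ciSup hbdd j
  have hmain : ∀ j, S j + δ * (1 - S j) ≤ s := by
    intro j
    have hev : ∀ᶠ i : ℕ in atTop, j ≤ i ∧ 8 * |y| ≤ (p : ℝ) ^ K i := by
      have h1 : ∀ᶠ i : ℕ in atTop, 8 * |y| ≤ (2 : ℝ) ^ i := by
        have : Tendsto (fun i : ℕ => (2 : ℝ) ^ i) atTop atTop :=
          tendsto_pow_atTop_atTop_of_one_lt (by norm_num)
        exact this.eventually (eventually_ge_atTop _)
      refine (eventually_ge_atTop j).and (h1.mono fun i hi => hi.trans ?_)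
      have h2 : (2 : ℝ) ≤ p := by
        have := ha.four_le
        exact_mod_cast (by omega : 2 ≤ p)
      calc (2 : ℝ) ^ i ≤ 2 ^ K i := pow_le_pow_right₀ (by norm_num) (hK i)
        _ ≤ (p : ℝ) ^ K i := pow_le_pow_left₀ (by norm_num) h2 _
    have hstep : ∀ᶠ i : ℕ in atTop, S j + δ * (1 - ∑ b ∈ F j, Wp p q (K i) (y + b)) ≤ s := by
      filter_upwards [hev] with i hi
      obtain ⟨hji, hy⟩ := hi
      have hT : F j ⊆ G i := (hmono' j i hji).trans (hFG i)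
      have h1 : ∑ w ∈ G i \ F j, Wp p q (K i) (y + w) + ∑ w ∈ F j, Wp p q (K i) (y + w) = 1 := by
        rw [Finset.sum_sdiff hT]
        exact hsum i
      have h2 : ∑ w ∈ G i \ F j, pf μ (y + φ i w) + ∑ w ∈ F j, pf μ (y + φ i w)
          = ∑ w ∈ G i, pf μ (y + φ i w) := Finset.sum_sdiff hT
      have h3 : ∑ w ∈ F j, pf μ (y + φ i w) = S j := by
        refine Finset.sum_congr rfl fun w hw => ?_
        rw [hid i w (hmono' j i hji hw)]
      have h4 : ∑ w ∈ G i, pf μ (y + φ i w) ≤ S (i + 1) := by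
        have e : ∑ w ∈ G i, pf μ (y + φ i w) = ∑ w ∈ (G i).image (φ i), pf μ (y + w) :=
          (Finset.sum_image (f := fun w : ℤ => pf μ (y + w)) (hφ i)).symm
        rw [e]
        apply Finset.sum_le_sum_of_subset_of_nonneg
        · intro w hw
          obtain ⟨t, ht, rfl⟩ := Finset.mem_image.1 hw
          exact hφF i t ht
        · intro _ _ _
          exact pf_nonneg _ _
      have h5 : δ * ∑ w ∈ G i \ F j, Wp p q (K i) (y + w) ≤ ∑ w ∈ G i \ F j, pf μ (y + φ i w) := by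
        rw [Finset.mul_sum]
        refine Finset.sum_le_sum fun w hw => ?_
        exact hlow i y w (Finset.mem_sdiff.1 hw).1 hy
      have h6 := hSs (i + 1)
      have h7 : ∑ w ∈ G i \ F j, Wp p q (K i) (y + w)
          = 1 - ∑ w ∈ F j, Wp p q (K i) (y + w) := by linarith
      rw [h7] at h5
      linarith
    have hlim : Tendsto (fun i : ℕ => S j + δ * (1 - ∑ b ∈ F j, Wp p q (K i) (y + b))) atTop
        (𝓝 (S j + δ * (1 - S j))) := by
      have hKt : Tendsto K atTop atTop := tendsto_atTop_mono hK tendsto_id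
      have h1 : Tendsto (fun i : ℕ => ∑ w ∈ F j, Wp p q (K i) (y + w)) atTop
          (𝓝 (∑ w ∈ F j, pf μ (y + w))) :=
        tendsto_finsetSum _ fun w _ => (tendsto_Wp ha h (y + w)).comp hKt
      exact ((h1.const_sub 1).const_mul δ).const_add (S j)
    exact le_of_tendsto hlim hstep
  have hs1 : 1 ≤ s := by
    by_contra hcon
    push Not at hcon
    have hpos : 0 < δ * (1 - s) := mul_pos hδ0 (by linarith)
    obtain ⟨j, hj⟩ := exists_lt_of_lt_ciSup (show s - δ * (1 - s) < s by linarith)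
    have h1 := hmain j
    have h2 := hSs j
    have h4 : s - δ * (1 - s) < S j := hj
    have h5 : δ * (1 - s) ≤ δ * (1 - S j) := mul_le_mul_of_nonneg_left (by linarith) hδ0.le
    linarith
  obtain ⟨j, hj⟩ := exists_lt_of_lt_ciSup (show 1 - ε < s by linarith)
  exact ⟨F j, fun b hb => ⟨j, hb⟩, hj⟩

end Pool.Agent.V1187.BD
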