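import Pool.Agent.V1187.Beur2

/-!
# The standard spectrum of `μ_{p,q}`
-/

set_option autoImplicit false

open MeasureTheory Filter Topology

namespace Pool.Agent.V1187.BD

open Pool.Agent.V1187.SP Pool.Agent.V1187.CS

/-- the `k`-th element of the standard spectrum: the base `q` digits of `k` read in base `p` -/
def el (p q k : ℕ) : ℕ := Nat.ofDigits p (Nat.digits q k)

theorem el_zero (p q : ℕ) : el p q 0 = 0 := by simp [el]

theorem el_rec {p q : ℕ} (ha : Adm p q) {a : ℕ} (k : ℕ) (h : a < q) :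
    el p q (a + q * k) = a + p * el p q k := by
  by_cases h0 : a = 0 ∧ k = 0
  · obtain ⟨rfl, rfl⟩ := h0
    simp [el]
  · unfold el
    have h1 : a ≠ 0 ∨ k ≠ 0 := by
      by_contra hc
      push Not at hc
      exact h0 hc
    rw [Nat.digits_add q (by have := ha.two_le; omega) a k h h1, Nat.ofDigits_cons]

theorem el_small {p q : ℕ} (ha : Adm p q) {a : ℕ} (h : a < q) : el p q a = a := by
  have := el_rec ha 0 h
  simpa [el_zero] using this

theorem split_q (q k : ℕ) : k = k % q + q * (k / q) := (Nat.mod_add_div k q).symm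

theorem le_el {p q : ℕ} (ha : Adm p q) (k : ℕ) : k ≤ el p q k := by
  induction k using Nat.strong_induction_on with
  | _ k ih =>
    rcases Nat.eq_zero_or_pos k with rfl | hk
    · exact Nat.zero_le _
    · have h2 := ha.two_le
      have hlt : k / q < k := Nat.div_lt_self hk (by omega)
      have h1 := ih _ hlt
      have h3 := el_rec ha (k / q) (Nat.mod_lt k ha.qpos')
      rw [← split_q q k] at h3
      rw [h3]
      have h4 : q * (k / q) ≤ p * el p q (k / q) := Nat.mul_le_mul ha.lt.le h1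
      have h5 := split_q q k
      omega

theorem el_super {p q : ℕ} (ha : Adm p q) : ∀ n i k : ℕ, i + k = n →
    el p q i + el p q k ≤ el p q n := by
  intro n
  induction n using Nat.strong_induction_on with
  | _ n ih =>
    intro i k hik
    rcases Nat.eq_zero_or_pos n with rfl | hn
    · have h1 : i = 0 := by omega
      have h2 : k = 0 := by omega
      subst h1 h2
      simp [el_zero]
    · have h2 := ha.two_le
      have hq := ha.qpos'
      obtain ⟨a, i', haq, rfl⟩ : ∃ a i', a < q ∧ i = a + q * i' :=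
        ⟨i % q, i / q, Nat.mod_lt i hq, split_q q i⟩
      obtain ⟨c, k', hcq, rfl⟩ : ∃ c k', c < q ∧ k = c + q * k' :=
        ⟨k % q, k / q, Nat.mod_lt k hq, split_q q k⟩
      have hi := el_rec ha i' haq
      have hk := el_rec ha k' hcq
      have hsum : n = (a + c) + q * (i' + k') := by
        rw [mul_add]; omega
      have h2q : 2 * (i' + k') ≤ q * (i' + k') := Nat.mul_le_mul_right _ h2
      have hbase : el p q i' + el p q k' ≤ el p q (i' + k') := by
        by_cases h0 : i' + k' = 0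
        · have h1 : i' = 0 := by omega
          have h3 : k' = 0 := by omega
          rw [h1, h3]
          simp [el_zero]
        · exact ih (i' + k') (by omega) i' k' rfl
      by_cases hac : a + c < q
      · have h3 := el_rec ha (i' + k') hac
        rw [← hsum] at h3
        rw [h3, hi, hk]
        have := Nat.mul_le_mul_left p hbase
        rw [mul_add] at this
        omega
      · push Not at hac
        have h3 := el_rec ha (i' + k' + 1) (show a + c - q < q by omega)
        have e : a + c - q + q * (i' + k' + 1) = n := by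
          rw [hsum, mul_add q (i' + k') 1, mul_one]; omega
        rw [e] at h3
        have h4 : el p q (i' + k') + el p q 1 ≤ el p q (i' + k' + 1) := by
          apply ih (i' + k' + 1) _ _ _ rfl
          have e2 : n = (a + c - q) + q * (i' + k') + q := by omega
          omega
        rw [el_small ha (show 1 < q by omega)] at h4
        rw [h3, hi, hk]
        have h5 : p * (el p q i' + el p q k' + 1) ≤ p * el p q (i' + k' + 1) :=
          Nat.mul_le_mul_left p (by omega)
        rw [mul_add, mul_add, mul_one] at h5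
        have := ha.lt
        omega

theorem el_strictMono {p q : ℕ} (ha : Adm p q) : StrictMono (el p q) := by
  intro i k hik
  have h1 := el_super ha k i (k - i) (by omega)
  have h2 := le_el ha (k - i)
  omega

theorem el_top {p q : ℕ} (ha : Adm p q) {a : ℕ} (h : a < q) (n k : ℕ) (hk : k < q ^ n) :
    el p q (a * q ^ n + k) = a * p ^ n + el p q k := by
  induction n generalizing k with
  | zero =>
    have : k = 0 := by simpa using hk
    subst this
    simp [el_zero, el_small ha h]
  | succ n ih =>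
    have hq := ha.qpos'
    have h1 := ih (k / q) (by
      rw [Nat.div_lt_iff_lt_mul hq, ← pow_succ]
      exact hk)
    have h2 := el_rec ha (k / q) (Nat.mod_lt k hq)
    rw [← split_q q k] at h2
    have h3 := el_rec ha (a * q ^ n + k / q) (Nat.mod_lt k hq)
    have e : k % q + q * (a * q ^ n + k / q) = a * q ^ (n + 1) + k := by
      have := split_q q k
      rw [pow_succ, mul_add]
      calc k % q + (q * (a * q ^ n) + q * (k / q)) = a * (q ^ n * q) + (k % q + q * (k / q)) := by ring
        _ = _ := by rw [← this]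
    rw [e, h1] at h3
    rw [h3, h2]
    ring

theorem el_bound {p q : ℕ} (ha : Adm p q) (n k : ℕ) (hk : k < q ^ n) :
    (el p q k : ℝ) * (p - 1) ≤ (q - 1) * ((p : ℝ) ^ n - 1) := by
  induction n generalizing k with
  | zero =>
    have : k = 0 := by simpa using hk
    subst this
    simp [el_zero]
  | succ n ih =>
    have hq := ha.qpos'
    have h1 := ih (k / q) (by
      rw [Nat.div_lt_iff_lt_mul hq, ← pow_succ]
      exact hk)
    have h2 := el_rec ha (k / q) (Nat.mod_lt k hq)
    rw [← split_q q k] at h2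
    have h3 : ((k % q : ℕ) : ℝ) ≤ q - 1 := by
      have : k % q + 1 ≤ q := Nat.mod_lt k hq
      have : ((k % q + 1 : ℕ) : ℝ) ≤ q := by exact_mod_cast this
      push_cast at this
      push_cast
      linarith
    have hp4 : (4 : ℝ) ≤ p := by exact_mod_cast ha.four_le
    rw [h2]
    push_cast at h3 ⊢
    have h4 : (((k % q : ℕ) : ℝ)) * (p - 1) ≤ (q - 1) * (p - 1) := by
      apply mul_le_mul_of_nonneg_right _ (by linarith)
      exact_mod_cast h3
    have h5 := mul_le_mul_of_nonneg_left h1 ha.ppos.le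
    rw [pow_succ]
    push_cast at h4
    nlinarith

theorem el_half {p q : ℕ} (ha : Adm p q) (n k : ℕ) (hk : k < q ^ n) :
    2 * (el p q k : ℝ) ≤ (p : ℝ) ^ n := by
  have h1 := el_bound ha n k hk
  have h2 : 2 * (q : ℝ) ≤ p := by exact_mod_cast ha.two_mul_le
  have hp4 : (4 : ℝ) ≤ p := by exact_mod_cast ha.four_le
  have h3 : (1 : ℝ) ≤ (p : ℝ) ^ n := one_le_pow₀ (by linarith)
  have h4 : 2 * (el p q k : ℝ) * (p - 1) ≤ (p - 1) * ((p : ℝ) ^ n - 1) := by
    have : (2 * (q - 1)) * ((p : ℝ) ^ n - 1) ≤ (p - 1) * ((p : ℝ) ^ n - 1) :=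
      mul_le_mul_of_nonneg_right (by linarith) (by linarith)
    linarith
  have h5 : 2 * (el p q k : ℝ) ≤ (p : ℝ) ^ n - 1 := by
    have h6 : (0 : ℝ) < p - 1 := by linarith
    by_contra hc
    push Not at hc
    have := mul_lt_mul_of_pos_right hc h6
    linarith
  linarith

/-! ## Orthogonality and totality -/

/-- the standard spectrum -/
def EE (p q : ℕ) : Set ℤ := {z | ∃ k : ℕ, z = el p q k}

theorem el_z0 {p q : ℕ} (ha : Adm p q) : ∀ n i k : ℕ, i + k = n → i ≠ k →
    Z0 p q ((el p q i : ℤ) - el p q k) := by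
  intro n
  induction n using Nat.strong_induction_on with
  | _ n ih =>
    intro i k hik hne
    have h2 := ha.two_le
    have hq := ha.qpos'
    have hi := el_rec ha (i / q) (Nat.mod_lt i hq)
    have hk := el_rec ha (k / q) (Nat.mod_lt k hq)
    rw [← split_q q i] at hi
    rw [← split_q q k] at hk
    have hi' := split_q q i
    have hk' := split_q q k
    rw [hi, hk]
    push_cast
    by_cases hac : i % q = k % q
    · have h3 : i / q ≠ k / q := by
        intro h
        apply hne
        rw [hi', hk', hac, h]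
      have h4 : i / q + k / q < n := by
        have h5 : 2 * (i / q) ≤ q * (i / q) := Nat.mul_le_mul_right _ h2
        have h6 : 2 * (k / q) ≤ q * (k / q) := Nat.mul_le_mul_right _ h2
        omega
      have h5 := (ih _ h4 (i / q) (k / q) rfl h3).pmul ha
      have e : ((i : ℤ) % q + p * el p q (i / q)) - ((k : ℤ) % q + p * el p q (k / q)) =
          p * ((el p q (i / q) : ℤ) - el p q (k / q)) := by
        have : (i : ℤ) % q = (k : ℤ) % q := by exact_mod_cast hac
        rw [this]
        ring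
      rw [e]
      exact h5
    · have := z0_of_digits ha (Nat.mod_lt i hq) (Nat.mod_lt k hq) hac (el p q (i / q)) (el p q (k / q))
      push_cast at this
      exact this

theorem EE_z0 {p q : ℕ} (ha : Adm p q) : ∀ b ∈ EE p q, ∀ c ∈ EE p q, b ≠ c → Z0 p q (b - c) := by
  rintro b ⟨i, rfl⟩ c ⟨k, rfl⟩ hne
  exact el_z0 ha _ i k rfl (fun h => hne (by rw [h]))

theorem EE_full {p q : ℕ} (ha : Adm p q) {μ : Measure ℝ} [IsProbabilityMeasure μ]
    (h : SelfSim p q μ) : Full μ (EE p q) := by
  classical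
  obtain ⟨δ, hδ0, hδ⟩ := exists_delta ha h
  set F : ℕ → Finset ℤ := fun i => (Finset.range (q ^ i)).image (fun k => (el p q k : ℤ)) with hF
  have hmem : ∀ i, ∀ b ∈ F i, ∃ k, k < q ^ i ∧ b = el p q k := by
    intro i b hb
    obtain ⟨k, hk, rfl⟩ := Finset.mem_image.1 hb
    exact ⟨k, Finset.mem_range.1 hk, rfl⟩
  have h2 := mass_lemma ha h hδ0 F F (fun i => i) (fun _ t => t) (by
    intro i
    apply Finset.image_subset_image
    apply Finset.range_mono
    exact Nat.pow_le_pow_right ha.qpos' (Nat.le_succ i)) (fun i => Finset.Subset.refl _)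
    (fun i => le_rfl) (by
    intro i b hb c hc hne
    obtain ⟨k, hk, rfl⟩ := hmem i b hb
    obtain ⟨l, hl, rfl⟩ := hmem i c hc
    have hne' : k ≠ l := fun h => hne (by rw [h])
    apply (el_z0 ha _ k l rfl hne').zk ha
    have h1 := el_half ha i k hk
    have h2 := el_half ha i l hl
    have h3 : (1 : ℝ) ≤ (p : ℝ) ^ i := one_le_pow₀ (by
      have := ha.four_le
      exact_mod_cast (by omega : 1 ≤ p))
    have h4 : |(((el p q k : ℤ) - el p q l : ℤ) : ℝ)| < ((p : ℤ) ^ i : ℤ) := by
      push_cast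
      have h5 : (0 : ℝ) ≤ el p q k := Nat.cast_nonneg _
      have h6 : (0 : ℝ) ≤ el p q l := Nat.cast_nonneg _
      rw [abs_lt]
      constructor <;> linarith
    rw [← Int.cast_abs] at h4
    exact_mod_cast h4) (by
    intro i
    rw [hF]
    simp only
    rw [Finset.card_image_of_injective _ (fun a b hab => (el_strictMono ha).injective (by
      exact_mod_cast hab)), Finset.card_range]) (fun i => Set.injOn_id _) (by
    intro i t ht
    exact Finset.image_subset_image (Finset.range_mono (Nat.pow_le_pow_right ha.qpos' (Nat.le_succ i)))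
      ht) (fun i b _ => rfl) (by
    intro i y t ht hy
    obtain ⟨k, hk, rfl⟩ := hmem i t ht
    apply pf_near ha h hδ
    have h1 := el_half ha i k hk
    have h5 : (0 : ℝ) ≤ el p q k := Nat.cast_nonneg _
    have h6 := abs_add_le y (((el p q k : ℕ) : ℤ) : ℝ)
    have h7 : |(((el p q k : ℕ) : ℤ) : ℝ)| = el p q k := by
      push_cast
      exact abs_of_nonneg h5
    rw [h7] at h6
    linarith)
  intro y ε hε
  obtain ⟨S, hS, hsum⟩ := h2 y ε hε
  refine ⟨S, ?_, hsum⟩
  intro b hb
  obtain ⟨j, hj⟩ := hS hb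
  obtain ⟨k, _, hk⟩ := hmem j b hj
  exact ⟨k, hk⟩

/-! ## The growth of the standard spectrum -/

/-- the exponent `s` -/
noncomputable def ss (p q : ℕ) : ℝ := Real.log q / Real.log p

/-- its inverse -/
noncomputable def rr (p q : ℕ) : ℝ := Real.log p / Real.log q

theorem logq_pos {p q : ℕ} (ha : Adm p q) : 0 < Real.log q := by
  apply Real.log_pos
  have := ha.two_le
  exact_mod_cast (by omega : 1 < q)

theorem logp_pos {p q : ℕ} (ha : Adm p q) : 0 < Real.log p := by
  apply Real.log_pos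
  have := ha.four_le
  exact_mod_cast (by omega : 1 < p)

theorem ss_pos {p q : ℕ} (ha : Adm p q) : 0 < ss p q := div_pos (logq_pos ha) (logp_pos ha)

theorem rr_ge {p q : ℕ} (ha : Adm p q) : 1 ≤ rr p q := by
  rw [rr, le_div_iff₀ (logq_pos ha), one_mul]
  apply Real.log_le_log ha.qpos
  exact_mod_cast ha.lt.le

theorem ss_mul_rr {p q : ℕ} (ha : Adm p q) : rr p q * ss p q = 1 := by
  have h1 := (logq_pos ha).ne'
  have h2 := (logp_pos ha).ne'
  unfold ss rr
  field_simp

theorem p_rpow_ss {p q : ℕ} (ha : Adm p q) : (p : ℝ) ^ ss p q = q := by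
  rw [Real.rpow_def_of_pos ha.ppos, ss, mul_div_cancel₀ _ (logp_pos ha).ne', Real.exp_log ha.qpos]

theorem q_rpow_rr {p q : ℕ} (ha : Adm p q) : (q : ℝ) ^ rr p q = p := by
  rw [Real.rpow_def_of_pos ha.qpos, rr, mul_div_cancel₀ _ (logq_pos ha).ne', Real.exp_log ha.ppos]

theorem ppow_rpow_ss {p q : ℕ} (ha : Adm p q) (n : ℕ) : ((p : ℝ) ^ n) ^ ss p q = (q : ℝ) ^ n := by
  rw [← Real.rpow_natCast_mul ha.ppos.le, mul_comm, Real.rpow_mul ha.ppos.le, p_rpow_ss ha,
    Real.rpow_natCast]

theorem qpow_rpow_rr {p q : ℕ} (ha : Adm p q) (n : ℕ) : ((q : ℝ) ^ n) ^ rr p q = (p : ℝ) ^ n := by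
  rw [← Real.rpow_natCast_mul ha.qpos.le, mul_comm, Real.rpow_mul ha.qpos.le, q_rpow_rr ha,
    Real.rpow_natCast]

theorem conv_ineq {r a x Q : ℝ} (hr : 1 ≤ r) (ha : 0 ≤ a) (hx : 0 ≤ x) (hxQ : x ≤ Q) (hQ : 0 < Q) :
    (a * Q + x) ^ r + Q ^ r ≤ (a * Q + Q) ^ r + x ^ r := by
  rcases ha.eq_or_lt with rfl | ha
  · simp only [zero_mul, zero_add]
    linarith
  · have hc := convexOn_rpow hr
    have haQ : 0 < a * Q := mul_pos ha hQ
    set D := a * Q + Q - x with hD
    have hDp : 0 < D := by rw [hD]; linarith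
    set l := a * Q / D with hl
    have hl0 : 0 ≤ l := by positivity
    have hl1 : l ≤ 1 := by
      rw [hl, div_le_one hDp, hD]; linarith
    have hlD : l * D = a * Q := by
      rw [hl]; field_simp
    have h1 := hc.2 (show x ∈ Set.Ici (0 : ℝ) from hx)
      (show a * Q + Q ∈ Set.Ici (0 : ℝ) by show 0 ≤ a * Q + Q; linarith)
      (show 0 ≤ 1 - l by linarith) hl0 (by ring)
    have h2 := hc.2 (show x ∈ Set.Ici (0 : ℝ) from hx)
      (show a * Q + Q ∈ Set.Ici (0 : ℝ) by show 0 ≤ a * Q + Q; linarith)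
      hl0 (show 0 ≤ 1 - l by linarith) (by ring)
    simp only [smul_eq_mul] at h1 h2
    have e1 : (1 - l) * x + l * (a * Q + Q) = a * Q + x := by
      rw [hD] at hlD
      linarith
    have e2 : l * x + (1 - l) * (a * Q + Q) = Q := by
      rw [hD] at hlD
      linarith
    rw [e1] at h1
    rw [e2] at h2
    linarith

theorem conv_ineq2 {p q : ℕ} (ha : Adm p q) {a : ℝ} (h0 : 0 ≤ a) (h1 : a ≤ q - 1) :
    (q - 1) * ((a + 1) ^ rr p q - 1) ≤ a * (p - 1) := by
  have hc := convexOn_rpow (rr_ge ha)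
  have hq2 : (2 : ℝ) ≤ q := by exact_mod_cast ha.two_le
  have hq1 : (0 : ℝ) < q - 1 := by linarith
  set l := a / (q - 1) with hl
  have hl0 : 0 ≤ l := by positivity
  have hl1 : l ≤ 1 := by rw [hl, div_le_one hq1]; exact h1
  have hlq : l * (q - 1) = a := by rw [hl]; field_simp
  have h2 := hc.2 (show (1 : ℝ) ∈ Set.Ici (0 : ℝ) from by norm_num)
    (show (q : ℝ) ∈ Set.Ici (0 : ℝ) from ha.qpos.le)
    (show 0 ≤ 1 - l by linarith) hl0 (by ring)
  simp only [smul_eq_mul, Real.one_rpow, q_rpow_rr ha] at h2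
  have e : (1 - l) * 1 + l * q = a + 1 := by linarith
  rw [e] at h2
  have h3 : (a + 1) ^ rr p q - 1 ≤ l * (p - 1) := by linarith
  calc (q - 1) * ((a + 1) ^ rr p q - 1) ≤ (q - 1) * (l * (p - 1)) :=
        mul_le_mul_of_nonneg_left h3 hq1.le
    _ = a * (p - 1) := by rw [← hlq]; ring

theorem el_lower {p q : ℕ} (ha : Adm p q) (n : ℕ) : ∀ k : ℕ, k < q ^ n →
    (q - 1) * (k : ℝ) ^ rr p q ≤ (p - 1) * el p q k := by
  have hr0 : rr p q ≠ 0 := by have := rr_ge ha; linarith
  have hq2 : (2 : ℝ) ≤ q := by exact_mod_cast ha.two_le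
  have hq1 : (0 : ℝ) < q - 1 := by linarith
  induction n with
  | zero =>
    intro k hk
    have : k = 0 := by simpa using hk
    subst this
    simp [el_zero, Real.zero_rpow hr0]
  | succ n ih =>
    intro k hk
    have hQn : 0 < q ^ n := Nat.pow_pos ha.qpos'
    set Q : ℕ := q ^ n with hQ
    have hkl : k / Q < q := by
      rw [Nat.div_lt_iff_lt_mul hQn, hQ, mul_comm, ← pow_succ]
      exact hk
    have h1 := ih (k % Q) (Nat.mod_lt k hQn)
    have h2 := el_top ha hkl n (k % Q) (Nat.mod_lt k hQn)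
    rw [← hQ] at h2
    have hk' : k / Q * Q + k % Q = k := Nat.div_add_mod' k Q
    rw [hk'] at h2
    have hQr : (0 : ℝ) < (Q : ℝ) := by exact_mod_cast hQn
    have h3 := conv_ineq (rr_ge ha) (Nat.cast_nonneg (k / Q)) (Nat.cast_nonneg (k % Q))
      (show ((k % Q : ℕ) : ℝ) ≤ Q by exact_mod_cast (Nat.mod_lt k hQn).le) hQr
    have h4 : ((k / Q : ℕ) : ℝ) * Q + ((k % Q : ℕ) : ℝ) = k := by exact_mod_cast hk'
    rw [h4] at h3
    have h5 : (((k / Q : ℕ) : ℝ) * Q + Q) ^ rr p q = (((k / Q : ℕ) : ℝ) + 1) ^ rr p q * (p : ℝ) ^ n := by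
      rw [show ((k / Q : ℕ) : ℝ) * Q + Q = (((k / Q : ℕ) : ℝ) + 1) * Q by ring,
        Real.mul_rpow (by positivity) hQr.le, hQ]
      push_cast
      rw [qpow_rpow_rr ha]
    have h6 : (Q : ℝ) ^ rr p q = (p : ℝ) ^ n := by
      rw [hQ]; push_cast; exact qpow_rpow_rr ha n
    rw [h5, h6] at h3
    have h7 := conv_ineq2 ha (Nat.cast_nonneg (k / Q)) (show ((k / Q : ℕ) : ℝ) ≤ q - 1 by
      have : k / Q + 1 ≤ q := hkl
      have : ((k / Q + 1 : ℕ) : ℝ) ≤ q := by exact_mod_cast this
      push_cast at this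
      push_cast
      linarith)
    have hpn : (0 : ℝ) < (p : ℝ) ^ n := pow_pos ha.ppos n
    have h8 := mul_le_mul_of_nonneg_right h7 hpn.le
    have h9 := mul_le_mul_of_nonneg_left h3 hq1.le
    rw [h2]
    push_cast at *
    nlinarith

/-! ## Windows -/

/-- the integers of the window `(x - h, x + h)` -/
noncomputable def win (x h : ℝ) : Finset ℤ :=
  (Finset.Icc ⌊x - h⌋ ⌈x + h⌉).filter (fun k : ℤ => x - h < (k : ℝ) ∧ (k : ℝ) < x + h)

theorem mem_win {x h : ℝ} {k : ℤ} : k ∈ win x h ↔ x - h < (k : ℝ) ∧ (k : ℝ) < x + h := by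
  unfold win
  rw [Finset.mem_filter, Finset.mem_Icc]
  constructor
  · exact fun h => h.2
  · rintro ⟨h1, h2⟩
    refine ⟨⟨?_, ?_⟩, h1, h2⟩
    · have := (Int.floor_le (x - h)).trans h1.le
      exact_mod_cast this
    · have := h2.le.trans (Int.le_ceil (x + h))
      exact_mod_cast this

open Classical in
/-- the number of elements of `X` in the window -/
noncomputable def cnt (X : Set ℤ) (x h : ℝ) : ℕ := ((win x h).filter (fun k => k ∈ X)).card

/-- `X` has at most `A h ^ s + C` elements in each window of length `2 h` -/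
def UB (s : ℝ) (X : Set ℤ) (A : ℝ) : Prop :=
  ∃ C : ℝ, ∀ x h : ℝ, 0 < h → (cnt X x h : ℝ) ≤ A * h ^ s + C

theorem cnt_mono {X Y : Set ℤ} (hXY : X ⊆ Y) (x h : ℝ) : cnt X x h ≤ cnt Y x h := by
  classical
  apply Finset.card_le_card
  intro k hk
  rw [Finset.mem_filter] at hk ⊢
  exact ⟨hk.1, hXY hk.2⟩

theorem UB.subset {s : ℝ} {X Y : Set ℤ} {A : ℝ} (h : UB s Y A) (hXY : X ⊆ Y) : UB s X A := by
  obtain ⟨C, hC⟩ := h
  exact ⟨C, fun x h hh => le_trans (by exact_mod_cast cnt_mono hXY x h) (hC x h hh)⟩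

theorem UB.mono {s : ℝ} {X : Set ℤ} {A B : ℝ} (h : UB s X A) (hAB : A ≤ B) : UB s X B := by
  obtain ⟨C, hC⟩ := h
  refine ⟨C, fun x h hh => (hC x h hh).trans ?_⟩
  have : 0 ≤ h ^ s := Real.rpow_nonneg hh.le _
  nlinarith

/-- the constant `M_{p,q}` -/
noncomputable def Mpq (p q : ℕ) : ℝ := (2 * ((p : ℝ) - 1) / (q - 1)) ^ ss p q

theorem UB_EE {p q : ℕ} (ha : Adm p q) : UB (ss p q) (EE p q) (Mpq p q) := by
  classical
  have hq2 : (2 : ℝ) ≤ q := by exact_mod_cast ha.two_le
  have hq1 : (0 : ℝ) < q - 1 := by linarith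
  have hp4 : (4 : ℝ) ≤ p := by exact_mod_cast ha.four_le
  have hp1 : (0 : ℝ) < p - 1 := by linarith
  have hs := ss_pos ha
  refine ⟨1, fun x h hh => ?_⟩
  have hM : Mpq p q * h ^ ss p q = (2 * h * (p - 1) / (q - 1)) ^ ss p q := by
    rw [Mpq, ← Real.mul_rpow (by positivity) hh.le]
    congr 1
    ring
  have hMnn : 0 ≤ Mpq p q * h ^ ss p q := by
    rw [hM]
    exact Real.rpow_nonneg (by positivity) _
  by_cases hex : ∃ k : ℕ, ((el p q k : ℕ) : ℤ) ∈ win x h
  · set i := Nat.find hex with hi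
    have hi1 := Nat.find_spec hex
    rw [← hi, mem_win] at hi1
    have hsub : (win x h).filter (fun k => k ∈ EE p q) ⊆
        (Finset.range (⌊Mpq p q * h ^ ss p q⌋₊ + 1)).image (fun j => ((el p q (i + j) : ℕ) : ℤ)) := by
      intro z hz
      rw [Finset.mem_filter] at hz
      obtain ⟨hz1, k, rfl⟩ := hz
      have hik : i ≤ k := Nat.find_min' hex hz1
      rw [mem_win] at hz1
      refine Finset.mem_image.2 ⟨k - i, ?_, by rw [show i + (k - i) = k by omega]⟩
      rw [Finset.mem_range, Nat.lt_succ_iff]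
      apply Nat.le_floor
      have h1 := el_super ha k i (k - i) (by omega)
      have h2 : (el p q i : ℝ) + el p q (k - i) ≤ el p q k := by exact_mod_cast h1
      have h3 := el_lower ha (k - i) (k - i) (Nat.lt_pow_self (by have := ha.two_le; omega))
      push_cast at hi1 hz1
      have h4 : (el p q (k - i) : ℝ) < 2 * h := by linarith [hi1.1, hz1.2]
      have h5 : (((k - i : ℕ) : ℝ)) ^ rr p q ≤ 2 * h * (p - 1) / (q - 1) := by
        rw [le_div_iff₀ hq1]
        nlinarith
      rw [hM]
      have h6 := Real.rpow_le_rpow (Real.rpow_nonneg (Nat.cast_nonneg _) _) h5 hs.le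
      rw [← Real.rpow_mul (Nat.cast_nonneg _), ss_mul_rr ha, Real.rpow_one] at h6
      exact h6
    have hcard : cnt (EE p q) x h ≤ ⌊Mpq p q * h ^ ss p q⌋₊ + 1 := by
      refine (Finset.card_le_card hsub).trans (Finset.card_image_le.trans ?_)
      rw [Finset.card_range]
    calc (cnt (EE p q) x h : ℝ) ≤ ((⌊Mpq p q * h ^ ss p q⌋₊ + 1 : ℕ) : ℝ) := by exact_mod_cast hcard
      _ ≤ Mpq p q * h ^ ss p q + 1 := by
          push_cast
          have := Nat.floor_le hMnn
          linarith
  · push Not at hex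
    have : cnt (EE p q) x h = 0 := by
      rw [cnt, Finset.card_eq_zero, Finset.filter_eq_empty_iff]
      rintro z hz ⟨k, rfl⟩
      exact hex k hz
    rw [this]
    push_cast
    linarith

/-- a general bound for orthogonal families -/
theorem UB_orth {p q : ℕ} (ha : Adm p q) {X : Set ℤ}
    (hX : ∀ b ∈ X, ∀ c ∈ X, b ≠ c → Z0 p q (b - c)) : UB (ss p q) X (q * 2 ^ ss p q) := by
  classical
  have hq := ha.qpos
  have hs := ss_pos ha
  refine ⟨1, fun x h hh => ?_⟩
  have hlim : ∃ m : ℕ, 2 * h ≤ (p : ℝ) ^ m := by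
    obtain ⟨m, hm⟩ := pow_unbounded_of_one_lt (2 * h) (show (1 : ℝ) < p by
      have := ha.four_le
      exact_mod_cast (by omega : 1 < p))
    exact ⟨m, hm.le⟩
  set m := Nat.find hlim with hm
  have hm1 := Nat.find_spec hlim
  rw [← hm] at hm1
  have hcard : cnt X x h ≤ q ^ m := by
    apply card_le_pow ha
    intro b hb c hc hne
    rw [Finset.mem_filter, mem_win] at hb hc
    apply (hX b hb.2 c hc.2 hne).zk ha
    have h4 : |((b - c : ℤ) : ℝ)| < (((p : ℤ) ^ m : ℤ) : ℝ) := by
      push_cast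
      rw [abs_lt]
      constructor <;> linarith [hb.1.1, hb.1.2, hc.1.1, hc.1.2]
    rw [← Int.cast_abs] at h4
    exact_mod_cast h4
  have h0 : 0 ≤ (q : ℝ) * 2 ^ ss p q * h ^ ss p q := by positivity
  have h5 : ((q ^ m : ℕ) : ℝ) ≤ q * 2 ^ ss p q * h ^ ss p q + 1 := by
    rcases Nat.eq_zero_or_pos m with h6 | h6
    · rw [h6, pow_zero]
      push_cast
      linarith
    · have h7 := Nat.find_min hlim (show m - 1 < Nat.find hlim by rw [← hm]; omega)
      push Not at h7
      have h8 := Real.rpow_le_rpow (pow_nonneg ha.ppos.le _) h7.le hs.le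
      rw [ppow_rpow_ss ha, Real.mul_rpow (by norm_num) hh.le] at h8
      have h9 : ((q ^ m : ℕ) : ℝ) = q * (q : ℝ) ^ (m - 1) := by
        push_cast
        rw [← pow_succ']
        congr 1
        omega
      rw [h9]
      have := mul_le_mul_of_nonneg_left h8 hq.le
      linarith
  calc (cnt X x h : ℝ) ≤ ((q ^ m : ℕ) : ℝ) := by exact_mod_cast hcard
    _ ≤ _ := h5

end Pool.Agent.V1187.BD
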