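import Pool.Agent.V1187.Beur3

/-!
# A very sparse spectrum of `μ_{p,q}`
-/

set_option autoImplicit false

open MeasureTheory Filter Topology

namespace Pool.Agent.V1187.BD

open Pool.Agent.V1187.SP Pool.Agent.V1187.CS

/-- nonnegative and growing at least geometrically -/
def Lac (X : Set ℤ) : Prop := (∀ z ∈ X, 0 ≤ z) ∧ ∀ z ∈ X, ∀ w ∈ X, z < w → 2 * z ≤ w

/-- the properties of the stages -/
structure Stage (p q : ℕ) (F : Finset ℤ) : Prop where
  zero_mem : (0 : ℤ) ∈ F
  orth : ∀ b ∈ F, ∀ c ∈ F, b ≠ c → Z0 p q (b - c)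
  lac : Lac (F : Set ℤ)

/-- one step of the construction -/
theorem stage_step {p q : ℕ} (ha : Adm p q) {μ : Measure ℝ} [IsProbabilityMeasure μ]
    (h : SelfSim p q μ) {δ : ℝ} (hδ0 : 0 < δ) (hδ : ∀ u : ℝ, |u| ≤ 3 / 4 → δ ≤ pf μ u)
    (F : Finset ℤ) (hF : Stage p q F) (j : ℕ) :
    ∃ (F' G : Finset ℤ) (K : ℕ) (φ : ℤ → ℤ), Stage p q F' ∧ F ⊆ F' ∧ F ⊆ G ∧ j ≤ K ∧
      (∀ b ∈ G, ∀ c ∈ G, b ≠ c → ZK p q K (b - c)) ∧ q ^ K ≤ G.card ∧ Set.InjOn φ G ∧
      (∀ t ∈ G, φ t ∈ F') ∧ (∀ b ∈ F, φ b = b) ∧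
      ∀ (y : ℝ), ∀ t ∈ G, 8 * |y| ≤ (p : ℝ) ^ K → δ ^ 2 * Wp p q K (y + t) ≤ pf μ (y + φ t) := by
  classical
  have hp4 := ha.four_le
  have hq2 := ha.two_le
  have hqp := ha.two_mul_le
  -- the level
  obtain ⟨K₀, hjK, hK₀⟩ : ∃ K₀ : ℕ, j ≤ K₀ ∧ ∀ b ∈ F, 4 * |b| < (p : ℤ) ^ K₀ := by
    have h1 : ∀ b : ℤ, ∃ K₁ : ℕ, ∀ K, K₁ ≤ K → 4 * |b| < (p : ℤ) ^ K := by
      intro b
      refine ⟨(4 * |b|).natAbs, fun K hK => ?_⟩
      have h2 : K < p ^ K := Nat.lt_pow_self (by omega)
      have h3 : (K : ℤ) < (p : ℤ) ^ K := by exact_mod_cast h2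
      have h4 := abs_nonneg b
      omega
    choose k hk using h1
    exact ⟨max j (F.sup k), le_max_left _ _, fun b hb => hk b _
      ((Finset.le_sup hb).trans (le_max_right _ _))⟩
  set K := K₀ + 1 with hKdef
  have hpK₀ : (1 : ℤ) ≤ (p : ℤ) ^ K₀ := by
    have : 1 ≤ p ^ K₀ := Nat.one_le_pow _ _ (by omega)
    exact_mod_cast this
  have hpK : (p : ℤ) ^ K = p * p ^ K₀ := by rw [hKdef, pow_succ']
  have hpz : (4 : ℤ) ≤ p := by exact_mod_cast hp4
  have hqz : (2 : ℤ) ≤ q := by exact_mod_cast hq2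
  have hqpz : 2 * (q : ℤ) ≤ p := by exact_mod_cast hqp
  set R : ℤ := (p : ℤ) ^ K₀ with hR
  have hqR : 2 * R ≤ q * R := by nlinarith
  have hqR2 : 2 * (q * R) ≤ (p : ℤ) ^ K := by rw [hpK]; nlinarith
  obtain ⟨G, hFG, hG1, hG2, hG3⟩ := extendp ha F ⟨0, hF.zero_mem⟩ K₀ (by
    intro b hb c hc hne
    apply (hF.orth b hb c hc hne).zk ha
    have h1 := hK₀ b hb
    have h2 := hK₀ c hc
    have h3 := abs_sub b c
    have h4 := abs_nonneg b
    have h5 := abs_nonneg c
    rw [← hKdef]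
    omega) (by
    intro b hb
    have h1 := hK₀ b hb
    have h4 := abs_nonneg b
    rw [← hR]
    linarith)
  rw [← hKdef] at hG1 hG3
  rw [← hR] at hG2
  set φ : ℤ → ℤ := fun t => if t ∈ F then t else t + q * p ^ (K + Encodable.encode t) with hφ
  have hφF : ∀ b ∈ F, φ b = b := by
    intro b hb
    rw [hφ]
    simp only [if_pos hb]
  have hφN : ∀ b, b ∉ F → φ b = b + q * p ^ (K + Encodable.encode b) := by
    intro b hb
    rw [hφ]
    simp only [if_neg hb]
  have hφd : ∀ b, (p : ℤ) ^ K ∣ φ b - b := by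
    intro b
    by_cases hb : b ∈ F
    · rw [hφF b hb]; simp
    · rw [hφN b hb, add_sub_cancel_left]
      have h1 : (p : ℤ) ^ K ∣ (p : ℤ) ^ (K + Encodable.encode b) :=
        pow_dvd_pow _ (Nat.le_add_right _ _)
      exact Dvd.dvd.mul_left h1 _
  have hφo : ∀ b ∈ G, ∀ c ∈ G, b ≠ c → ZK p q K (φ b - φ c) := by
    intro b hb c hc hne
    apply (hG1 b hb c hc hne).congr ha
    have e : b - c - (φ b - φ c) = (φ c - c) - (φ b - b) := by ring
    rw [e]
    exact dvd_sub (hφd c) (hφd b)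
  have hinj : Set.InjOn φ G := by
    intro b hb c hc hbc
    by_contra hne
    have := (hφo b hb c hc hne).z0.ne_zero
    apply this
    rw [hbc, sub_self]
  -- sizes
  have hbig : ∀ b : ℤ, (p : ℤ) ^ K ≤ (p : ℤ) ^ (K + Encodable.encode b) := by
    intro b
    exact pow_le_pow_right₀ (by linarith) (Nat.le_add_right _ _)
  refine ⟨G.image φ, G, K, φ, ⟨?_, ?_, ?_, ?_⟩, ?_, hFG, by omega, hG1, hG3, hinj, ?_, hφF, ?_⟩
  · exact Finset.mem_image.2 ⟨0, hFG hF.zero_mem, hφF 0 hF.zero_mem⟩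
  · intro b hb c hc hne
    obtain ⟨b', hb', rfl⟩ := Finset.mem_image.1 hb
    obtain ⟨c', hc', rfl⟩ := Finset.mem_image.1 hc
    exact (hφo b' hb' c' hc' (fun h => hne (by rw [h]))).z0
  · intro z hz
    obtain ⟨b, hb, rfl⟩ := Finset.mem_image.1 hz
    by_cases hbF : b ∈ F
    · rw [hφF b hbF]
      exact hF.lac.1 b hbF
    · rw [hφN b hbF]
      have h1 := hG2 b hb
      have h2 := neg_abs_le b
      have h3 := hbig b
      nlinarith
  · intro z hz w hw hzw
    obtain ⟨b, hb, rfl⟩ := Finset.mem_image.1 hz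
    obtain ⟨c, hc, rfl⟩ := Finset.mem_image.1 hw
    have hb1 := hG2 b hb
    have hc1 := hG2 c hc
    have hb2 := le_abs_self b
    have hb3 := neg_abs_le b
    have hc2 := le_abs_self c
    have hc3 := neg_abs_le c
    by_cases hbF : b ∈ F
    · by_cases hcF : c ∈ F
      · rw [hφF b hbF, hφF c hcF] at *
        exact hF.lac.2 b hbF c hcF hzw
      · rw [hφF b hbF, hφN c hcF] at *
        have h3 := hbig c
        have h4 := hK₀ b hbF
        nlinarith
    · by_cases hcF : c ∈ F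
      · exfalso
        rw [hφF c hcF, hφN b hbF] at hzw
        have h3 := hbig b
        have h4 := hK₀ c hcF
        nlinarith
      · rw [hφN b hbF, hφN c hcF] at *
        have h3 := hbig b
        have h4 := hbig c
        rcases lt_trichotomy (Encodable.encode b) (Encodable.encode c) with h5 | h5 | h5
        · have h6 : (p : ℤ) * p ^ (K + Encodable.encode b) ≤ p ^ (K + Encodable.encode c) := by
            rw [← pow_succ']
            exact pow_le_pow_right₀ (by linarith) (by omega)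
          set x := (p : ℤ) ^ (K + Encodable.encode b)
          set y := (p : ℤ) ^ (K + Encodable.encode c)
          have h7 : 4 * x ≤ y := by nlinarith
          have h8 : (q : ℤ) * (4 * x) ≤ q * y := mul_le_mul_of_nonneg_left h7 (by linarith)
          have h9 : (q : ℤ) * (2 * (q * R)) ≤ q * x :=
            mul_le_mul_of_nonneg_left (hqR2.trans h3) (by linarith)
          nlinarith
        · exfalso
          have := Encodable.encode_injective h5
          rw [this] at hzw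
          exact lt_irrefl _ hzw
        · exfalso
          have h6 : (p : ℤ) * p ^ (K + Encodable.encode c) ≤ p ^ (K + Encodable.encode b) := by
            rw [← pow_succ']
            exact pow_le_pow_right₀ (by linarith) (by omega)
          set x := (p : ℤ) ^ (K + Encodable.encode b)
          set y := (p : ℤ) ^ (K + Encodable.encode c)
          have h7 : 4 * y ≤ x := by nlinarith
          have h8 : (q : ℤ) * (4 * y) ≤ q * x := mul_le_mul_of_nonneg_left h7 (by linarith)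
          have h9 : (q : ℤ) * (2 * (q * R)) ≤ q * y :=
            mul_le_mul_of_nonneg_left (hqR2.trans h4) (by linarith)
          nlinarith
  · intro b hb
    exact Finset.mem_image.2 ⟨b, hFG hb, hφF b hb⟩
  · intro t ht
    exact Finset.mem_image.2 ⟨t, ht, rfl⟩
  · intro y t ht hy
    have hδ1 : δ ≤ 1 := (hδ 0 (by norm_num)).trans (pf_le_one μ 0)
    have h1 := hG2 t ht
    have h2 : 4 * |t| ≤ (p : ℤ) ^ K := by linarith
    have h3 : 4 * |(t : ℝ)| ≤ (p : ℝ) ^ K := by exact_mod_cast h2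
    have h4 := abs_add_le y (t : ℝ)
    have h6 : (0 : ℝ) ≤ (p : ℝ) ^ K := pow_nonneg ha.ppos.le K
    have h5 : |y + (t : ℝ)| ≤ 5 / 8 * (p : ℝ) ^ K := by linarith
    by_cases htF : t ∈ F
    · rw [hφF t htF]
      refine le_trans ?_ (pf_near ha h hδ h5)
      apply mul_le_mul_of_nonneg_right _ (Wp_nonneg _ _ _ _)
      nlinarith
    · rw [hφN t htF]
      have := pf_moved ha h hδ0 hδ (Nat.le_add_right K (Encodable.encode t)) h5
      push_cast
      rw [← add_assoc]
      exact this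

/-- a spectrum which grows geometrically -/
theorem exists_lac {p q : ℕ} (ha : Adm p q) {μ : Measure ℝ} [IsProbabilityMeasure μ]
    (h : SelfSim p q μ) : ∃ Z : Set ℤ, Full μ Z ∧ Lac Z ∧
      ∀ b ∈ Z, ∀ c ∈ Z, b ≠ c → Z0 p q (b - c) := by
  classical
  obtain ⟨δ, hδ0, hδ⟩ := exists_delta ha h
  have hstep : ∀ (j : ℕ) (F : {F : Finset ℤ // Stage p q F}),
    ∃ (F' : {F : Finset ℤ // Stage p q F}) (G : Finset ℤ) (K : ℕ) (φ : ℤ → ℤ), F.1 ⊆ F'.1 ∧
      F.1 ⊆ G ∧ j ≤ K ∧
      (∀ b ∈ G, ∀ c ∈ G, b ≠ c → ZK p q K (b - c)) ∧ q ^ K ≤ G.card ∧ Set.InjOn φ G ∧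
      (∀ t ∈ G, φ t ∈ F'.1) ∧ (∀ b ∈ F.1, φ b = b) ∧
      ∀ (y : ℝ), ∀ t ∈ G, 8 * |y| ≤ (p : ℝ) ^ K → δ ^ 2 * Wp p q K (y + t) ≤ pf μ (y + φ t) := by
    rintro j ⟨F, hF⟩
    obtain ⟨F', G, K, φ, h1, h2⟩ := stage_step ha h hδ0 hδ F hF j
    exact ⟨⟨F', h1⟩, G, K, φ, h2⟩
  choose nx GG KK ph c1 c2 c3 c4 c5 c6 c7 c8 c9 using hstep
  have h0 : Stage p q {0} := by
    refine ⟨Finset.mem_singleton_self _, ?_, ?_, ?_⟩
    · intro b hb c hc hne
      rw [Finset.mem_singleton] at hb hc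
      exact absurd (hb.trans hc.symm) hne
    · intro z hz
      rw [Finset.mem_coe, Finset.mem_singleton] at hz
      omega
    · intro z hz w hw hzw
      rw [Finset.mem_coe, Finset.mem_singleton] at hz hw
      omega
  let sq : ℕ → {F : Finset ℤ // Stage p q F} := fun n => Nat.rec ⟨{0}, h0⟩ (fun j F => nx j F) n
  have hsq : ∀ j, sq (j + 1) = nx j (sq j) := fun j => rfl
  have hmono : ∀ i, (sq i).1 ⊆ (sq (i + 1)).1 := by
    intro i
    rw [hsq]
    exact c1 i (sq i)
  have hmono' : ∀ i j, i ≤ j → (sq i).1 ⊆ (sq j).1 := by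
    intro i j hij
    induction hij with
    | refl => exact Finset.Subset.refl _
    | step _ ih => exact ih.trans (hmono _)
  refine ⟨{b | ∃ j, b ∈ (sq j).1}, ?_, ⟨?_, ?_⟩, ?_⟩
  · exact mass_lemma ha h (sq_pos_of_pos hδ0) (fun i => (sq i).1) (fun i => GG i (sq i))
      (fun i => KK i (sq i)) (fun i => ph i (sq i)) hmono (fun i => c2 i (sq i))
      (fun i => c3 i (sq i)) (fun i => c4 i (sq i)) (fun i => c5 i (sq i)) (fun i => c6 i (sq i))
      (fun i t ht => by
        show ph i (sq i) t ∈ (sq (i + 1)).1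
        rw [hsq]
        exact c7 i (sq i) t ht) (fun i => c8 i (sq i))
      (fun i y t ht hy => c9 i (sq i) y t ht hy)
  · rintro z ⟨j, hj⟩
    exact (sq j).2.lac.1 z hj
  · rintro z ⟨i, hi⟩ w ⟨j, hj⟩ hzw
    exact (sq (max i j)).2.lac.2 z (hmono' i _ (le_max_left _ _) hi) w
      (hmono' j _ (le_max_right _ _) hj) hzw
  · rintro b ⟨i, hi⟩ c ⟨j, hj⟩ hne
    exact (sq (max i j)).2.orth b (hmono' i _ (le_max_left _ _) hi) c
      (hmono' j _ (le_max_right _ _) hj) hne

/-! ## Counting -/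

theorem lac_card (S : Finset ℤ) : (∀ z ∈ S, 0 ≤ z) → (∀ z ∈ S, ∀ w ∈ S, z < w → 2 * z ≤ w) →
    ∀ H : ℝ, 1 ≤ H → (∀ z ∈ S, (z : ℝ) ≤ H) → (2 : ℝ) ^ S.card ≤ 4 * H := by
  classical
  induction S using Finset.induction_on_max with
  | empty =>
    intro _ _ H hH _
    simp only [Finset.card_empty, pow_zero]
    linarith
  | insert a S hmax ih =>
    intro h1 h2 H hH h3
    have haS : a ∉ S := fun h => lt_irrefl _ (hmax a h)
    rw [Finset.card_insert_of_notMem haS, pow_succ]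
    have haH := h3 a (Finset.mem_insert_self _ _)
    by_cases ha2 : 2 ≤ a
    · have h4 := ih (fun z hz => h1 z (Finset.mem_insert_of_mem hz))
        (fun z hz w hw => h2 z (Finset.mem_insert_of_mem hz) w (Finset.mem_insert_of_mem hw))
        ((a : ℝ) / 2) (by
          have : (2 : ℝ) ≤ a := by exact_mod_cast ha2
          linarith) (by
          intro z hz
          have := h2 z (Finset.mem_insert_of_mem hz) a (Finset.mem_insert_self _ _) (hmax z hz)
          have : 2 * (z : ℝ) ≤ a := by exact_mod_cast this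
          linarith)
      linarith
    · push Not at ha2
      have hsub : S ⊆ {0} := by
        intro z hz
        rw [Finset.mem_singleton]
        have h4 := hmax z hz
        have h5 := h1 z (Finset.mem_insert_of_mem hz)
        omega
      have h6 : S.card ≤ 1 := by
        have := Finset.card_le_card hsub
        simpa using this
      have h7 : (2 : ℝ) ^ S.card ≤ 2 ^ 1 := pow_le_pow_right₀ (by norm_num) h6
      linarith

theorem lac_cnt {Z : Set ℤ} (hZ : Lac Z) (x h : ℝ) : cnt Z x h ≤ 1 ∨ (2 : ℝ) ^ cnt Z x h ≤ 16 * h := by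
  classical
  by_cases hc : cnt Z x h ≤ 1
  · exact Or.inl hc
  · right
    push Not at hc
    have key : ∀ z ∈ (win x h).filter (fun k => k ∈ Z), (z : ℝ) ≤ 4 * h ∧ 1 ≤ 4 * h := by
      intro z hz
      have : ∃ w ∈ (win x h).filter (fun k => k ∈ Z), w ≠ z := by
        by_contra hcon
        push Not at hcon
        have : (win x h).filter (fun k => k ∈ Z) ⊆ {z} := by
          intro w hw
          rw [Finset.mem_singleton]
          exact hcon w hw
        have := Finset.card_le_card this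
        rw [Finset.card_singleton] at this
        have e : cnt Z x h = ((win x h).filter (fun k => k ∈ Z)).card := rfl
        omega
      obtain ⟨w, hw, hwz⟩ := this
      rw [Finset.mem_filter, mem_win] at hz hw
      rcases lt_or_gt_of_ne hwz with h1 | h1
      · have h2 := hZ.2 w hw.2 z hz.2 h1
        have h3 : 2 * (w : ℝ) ≤ z := by exact_mod_cast h2
        have h4 : (w : ℝ) + 1 ≤ z := by exact_mod_cast h1
        constructor <;> linarith [hz.1.1, hz.1.2, hw.1.1, hw.1.2]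
      · have h2 := hZ.2 z hz.2 w hw.2 h1
        have h3 : 2 * (z : ℝ) ≤ w := by exact_mod_cast h2
        have h4 : (z : ℝ) + 1 ≤ w := by exact_mod_cast h1
        have h5 : (0 : ℝ) ≤ z := by exact_mod_cast hZ.1 z hz.2
        constructor <;> linarith [hz.1.1, hz.1.2, hw.1.1, hw.1.2]
    obtain ⟨z₀, hz₀⟩ : ((win x h).filter (fun k => k ∈ Z)).Nonempty := by
      rw [← Finset.card_pos]
      have e : cnt Z x h = ((win x h).filter (fun k => k ∈ Z)).card := rfl
      omega
    have h1 := lac_card ((win x h).filter (fun k => k ∈ Z))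
      (fun z hz => hZ.1 z (Finset.mem_filter.1 hz).2)
      (fun z hz w hw => hZ.2 z (Finset.mem_filter.1 hz).2 w (Finset.mem_filter.1 hw).2)
      (4 * h) (key z₀ hz₀).2 (fun z hz => (key z hz).1)
    have e : cnt Z x h = ((win x h).filter (fun k => k ∈ Z)).card := rfl
    rw [e]
    linarith

theorem UB_lac {p q : ℕ} (ha : Adm p q) {Z : Set ℤ} (hZ : Lac Z) {ε : ℝ} (hε : 0 < ε) :
    UB (ss p q) Z ε := by
  have hs := ss_pos ha
  set r : ℝ := 2 ^ ss p q with hr
  have hr1 : 1 < r := Real.one_lt_rpow (by norm_num) hs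
  have h16 : (0 : ℝ) < 16 ^ ss p q := by positivity
  have hlim := tendsto_pow_const_div_const_pow_of_one_lt 1 hr1
  have hev : ∀ᶠ n : ℕ in atTop, (n : ℝ) ^ 1 / r ^ n < ε / 16 ^ ss p q :=
    hlim.eventually_lt_const (by positivity)
  obtain ⟨N, hN⟩ := eventually_atTop.1 hev
  refine ⟨N + 1, fun x h hh => ?_⟩
  have hnn : 0 ≤ ε * h ^ ss p q := by positivity
  rcases lac_cnt hZ x h with h1 | h1
  · have : (cnt Z x h : ℝ) ≤ 1 := by exact_mod_cast h1
    have hN0 : (0 : ℝ) ≤ N := Nat.cast_nonneg _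
    linarith
  · by_cases hn : cnt Z x h < N
    · have : (cnt Z x h : ℝ) ≤ N := by exact_mod_cast hn.le
      linarith
    · push Not at hn
      have h2 := hN _ hn
      rw [pow_one, div_lt_div_iff₀ (by positivity) h16] at h2
      have h3 := Real.rpow_le_rpow (by positivity) h1 hs.le
      rw [Real.mul_rpow (by norm_num) hh.le] at h3
      have h4 : ((2 : ℝ) ^ cnt Z x h) ^ ss p q = r ^ cnt Z x h := by
        rw [hr, ← Real.rpow_natCast_mul (by norm_num), mul_comm, Real.rpow_mul (by norm_num),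
          Real.rpow_natCast]
      rw [h4] at h3
      have h5 : (cnt Z x h : ℝ) * 16 ^ ss p q < ε * h ^ ss p q * 16 ^ ss p q := by
        calc (cnt Z x h : ℝ) * 16 ^ ss p q < ε * r ^ cnt Z x h := h2
          _ ≤ ε * (16 ^ ss p q * h ^ ss p q) := mul_le_mul_of_nonneg_left h3 hε.le
          _ = _ := by ring
      have h6 := lt_of_mul_lt_mul_right h5 h16.le
      have hN0 : (0 : ℝ) ≤ N := Nat.cast_nonneg _
      linarith

end Pool.Agent.V1187.BD
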