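import Pool.Agent.V1187.Beur4

/-!
# Combs of spectra and their densities
-/

set_option autoImplicit false

open MeasureTheory Filter Topology

namespace Pool.Agent.V1187.BD

open Pool.Agent.V1187.SP Pool.Agent.V1187.CS

/-- the union of the sets `a + p X_a` -/
def br (p q : ℕ) (X : ℕ → Set ℤ) : Set ℤ := {x | ∃ a : ℕ, a < q ∧ ∃ y ∈ X a, x = a + p * y}

/-- `0` together with the sets `p^n (a + p X_{n,a})`, `0 < a < q` -/
def comb (p q : ℕ) (X : ℕ → ℕ → Set ℤ) : Set ℤ :=
  {x | x = 0 ∨ ∃ (n a : ℕ) (y : ℤ), 0 < a ∧ a < q ∧ y ∈ X n a ∧ x = p ^ n * (a + p * y)}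

/-- shift -/
def sh (X : ℕ → ℕ → Set ℤ) : ℕ → ℕ → Set ℤ := fun n => X (n + 1)

theorem comb_sub {p q : ℕ} (ha : Adm p q) (X : ℕ → ℕ → Set ℤ) :
    comb p q X ⊆ br p q (fun a => if a = 0 then comb p q (sh X) else X 0 a) := by
  rintro x (rfl | ⟨n, a, y, ha0, haq, hy, rfl⟩)
  · exact ⟨0, ha.qpos', 0, by simp [comb], by simp⟩
  · cases n with
    | zero =>
      refine ⟨a, haq, y, ?_, by simp⟩
      show y ∈ (if a = 0 then comb p q (sh X) else X 0 a)
      rw [if_neg (by omega)]
      exact hy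
    | succ n =>
      refine ⟨0, ha.qpos', p ^ n * (a + p * y), ?_, ?_⟩
      · exact Or.inr ⟨n, a, y, ha0, haq, hy, rfl⟩
      · rw [pow_succ]; push_cast; ring

theorem sub_comb {p q : ℕ} (X : ℕ → ℕ → Set ℤ) :
    br p q (fun a => if a = 0 then comb p q (sh X) else X 0 a) ⊆ comb p q X := by
  rintro x ⟨a, haq, y, hy, rfl⟩
  by_cases ha0 : a = 0
  · subst ha0
    simp only [if_true] at hy
    rcases hy with rfl | ⟨n, a, z, h1, h2, h3, rfl⟩
    · left; simp
    · right
      refine ⟨n + 1, a, z, h1, h2, h3, ?_⟩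
      rw [pow_succ]; push_cast; ring
  · simp only [if_neg ha0] at hy
    right
    exact ⟨0, a, y, Nat.pos_of_ne_zero ha0, haq, hy, by simp⟩

/-- orthogonal families -/
def Orth (p q : ℕ) (X : Set ℤ) : Prop := ∀ b ∈ X, ∀ c ∈ X, b ≠ c → Z0 p q (b - c)

theorem comb_orth {p q : ℕ} (ha : Adm p q) (X : ℕ → ℕ → Set ℤ)
    (hX : ∀ n a, 0 < a → a < q → Orth p q (X n a)) : Orth p q (comb p q X) := by
  have key : ∀ (N : ℕ) (X : ℕ → ℕ → Set ℤ), (∀ n a, 0 < a → a < q → Orth p q (X n a)) →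
      ∀ b ∈ comb p q X, ∀ c ∈ comb p q X, b ≠ c → Z0 p q (b - c) ∨ (p : ℤ) ^ N ∣ b - c := by
    intro N
    induction N with
    | zero => intro X _ b _ c _ _; right; simp
    | succ N ih =>
      intro X hX b hb c hc hne
      obtain ⟨a, haq, y, hy, rfl⟩ := comb_sub ha X hb
      obtain ⟨a', haq', y', hy', rfl⟩ := comb_sub ha X hc
      by_cases haa : a = a'
      · subst haa
        have hyy : y ≠ y' := by
          rintro rfl
          exact hne rfl
        have e : (a : ℤ) + p * y - (a + p * y') = p * (y - y') := by ring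
        rw [e]
        by_cases ha0 : a = 0
        · simp only [ha0, if_true] at hy hy'
          rcases ih (sh X) (fun n a => hX (n + 1) a) y hy y' hy' hyy with h1 | h1
          · exact Or.inl (h1.pmul ha)
          · right
            rw [pow_succ']
            exact mul_dvd_mul_left _ h1
        · simp only [ha0, if_false] at hy hy'
          exact Or.inl ((hX 0 a (Nat.pos_of_ne_zero ha0) haq y hy y' hy' hyy).pmul ha)
      · left
        exact z0_of_digits ha haq haq' haa y y'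
  intro b hb c hc hne
  have hp : 1 < p := by have := ha.four_le; omega
  have h1 : (b - c).natAbs < p ^ (b - c).natAbs := Nat.lt_pow_self hp
  rcases key (b - c).natAbs X hX b hb c hc hne with h2 | h2
  · exact h2
  · exfalso
    have h3 := Int.le_of_dvd (abs_pos.2 (sub_ne_zero.2 hne)) ((dvd_abs _ _).2 h2)
    rw [Int.abs_eq_natAbs] at h3
    have h4 : p ^ (b - c).natAbs ≤ (b - c).natAbs := by exact_mod_cast h3
    omega

/-! ## The mass -/

theorem sum_m_one {p q : ℕ} (ha : Adm p q) (y : ℝ) :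
    ∑ a ∈ Finset.range q, m q ((y + a) / q) = 1 := by
  have hinj : Function.Injective (fun a : ℕ => (a : ℤ)) := fun a b hab => Int.ofNat_inj.1 hab
  have h1 := sum_Wp_eq_one ha (K := 1) (G := (Finset.range q).image (fun a : ℕ => (a : ℤ))) (by
    intro b hb c hc hne
    obtain ⟨i, hi, rfl⟩ := Finset.mem_image.1 hb
    obtain ⟨k, hk, rfl⟩ := Finset.mem_image.1 hc
    have h2 := z0_of_digits ha (Finset.mem_range.1 hi) (Finset.mem_range.1 hk)
      (fun h => hne (by rw [h])) 0 0
    simp only [mul_zero, add_zero] at h2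
    apply h2.zk ha
    have h3 := Finset.mem_range.1 hi
    have h4 := Finset.mem_range.1 hk
    have h5 := ha.lt
    rw [pow_one, abs_lt]
    constructor <;> omega) (by
    rw [Finset.card_image_of_injective _ hinj, Finset.card_range, pow_one]) y
  rw [Finset.sum_image (fun a _ b _ hab => hinj hab)] at h1
  rw [← h1]
  refine Finset.sum_congr rfl fun a _ => ?_
  rw [Wp, Finset.prod_range_one, pow_zero, mul_one]
  push_cast
  rfl

theorem mass_br {p q : ℕ} (ha : Adm p q) {μ : Measure ℝ} [IsProbabilityMeasure μ]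
    (h : SelfSim p q μ) (Fa : ℕ → Finset ℤ) (y : ℝ) :
    ∑ x ∈ (Finset.range q).biUnion (fun a => (Fa a).image (fun x : ℤ => (a : ℤ) + p * x)),
      pf μ (y + x) = ∑ a ∈ Finset.range q, m q ((y + a) / q) *
        ∑ x ∈ Fa a, pf μ ((y + a) / p + x) := by
  classical
  have hp := ha.ppos.ne'
  have hq := ha.qpos.ne'
  have hpz : (p : ℤ) ≠ 0 := by have := ha.ppos'; exact_mod_cast this.ne'
  obtain ⟨b, hb⟩ := ha.dvd
  rw [Finset.sum_biUnion]
  · refine Finset.sum_congr rfl fun a _ => ?_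
    rw [Finset.sum_image (by
      intro x _ z _ hxz
      have : (p : ℤ) * x = p * z := by linarith
      exact mul_left_cancel₀ hpz this), Finset.mul_sum]
    refine Finset.sum_congr rfl fun x _ => ?_
    rw [pf_self ha h]
    have e1 : (y + (((a : ℤ) + p * x : ℤ) : ℝ)) / q = (y + a) / q + ((b * x : ℤ) : ℝ) := by
      have : (p : ℝ) = q * b := by exact_mod_cast hb
      push_cast
      rw [this]
      field_simp
      ring
    have e2 : (y + (((a : ℤ) + p * x : ℤ) : ℝ)) / p = (y + a) / p + x := by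
      push_cast
      field_simp
      ring
    rw [e1, m_add_int, e2]
  · intro a haq a' haq' hne
    rw [Function.onFun, Finset.disjoint_left]
    intro x hx hx'
    obtain ⟨z, _, rfl⟩ := Finset.mem_image.1 hx
    obtain ⟨z', _, h2⟩ := Finset.mem_image.1 hx'
    have h3 := z0_of_digits ha (Finset.mem_range.1 haq') (Finset.mem_range.1 haq) (Ne.symm hne) z' z
    rw [h2, sub_self] at h3
    exact h3.ne_zero rfl

theorem comb_mass {p q : ℕ} (ha : Adm p q) {μ : Measure ℝ} [IsProbabilityMeasure μ]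
    (h : SelfSim p q μ) (N : ℕ) : ∀ (X : ℕ → ℕ → Set ℤ),
      (∀ n a, 0 < a → a < q → Full μ (X n a)) → ∀ (y ε : ℝ), 0 < ε →
      ∃ F : Finset ℤ, ↑F ⊆ comb p q X ∧
        (1 - ε) * (1 - Wp p q N y) + pf μ y ≤ ∑ b ∈ F, pf μ (y + b) := by
  classical
  induction N with
  | zero =>
    intro X _ y ε _
    refine ⟨{0}, ?_, ?_⟩
    · intro x hx
      rw [Finset.mem_coe, Finset.mem_singleton] at hx
      left
      exact hx
    · rw [Wp_zero, Finset.sum_singleton]
      simp
  | succ N ih =>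
    intro X hX y ε hε
    have hch : ∀ a : ℕ, ∃ Fa : Finset ℤ,
        ↑Fa ⊆ (if a = 0 then comb p q (sh X) else X 0 a) ∧
        (a < q → (if a = 0 then (1 - ε) * (1 - Wp p q N (y / p)) + pf μ (y / p) else 1 - ε) ≤
          ∑ x ∈ Fa, pf μ ((y + a) / p + x)) := by
      intro a
      by_cases ha0 : a = 0
      · obtain ⟨F, hF, hs⟩ := ih (sh X) (fun n a => hX (n + 1) a) (y / p) ε hε
        refine ⟨F, ?_, fun _ => ?_⟩
        · rw [if_pos ha0]; exact hF
        · rw [if_pos ha0, ha0]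
          simpa using hs
      · by_cases haq : a < q
        · obtain ⟨F, hF, hs⟩ := hX 0 a (Nat.pos_of_ne_zero ha0) haq ((y + a) / p) ε hε
          refine ⟨F, ?_, fun _ => ?_⟩
          · rw [if_neg ha0]; exact hF
          · rw [if_neg ha0]; exact hs.le
        · exact ⟨∅, by simp, fun h => absurd h haq⟩
    choose Fa hFa1 hFa2 using hch
    refine ⟨(Finset.range q).biUnion (fun a => (Fa a).image (fun x : ℤ => (a : ℤ) + p * x)), ?_, ?_⟩
    · intro x hx
      rw [Finset.mem_coe, Finset.mem_biUnion] at hx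
      obtain ⟨a, haq, hx⟩ := hx
      obtain ⟨z, hz, rfl⟩ := Finset.mem_image.1 hx
      exact sub_comb X ⟨a, Finset.mem_range.1 haq, z, hFa1 a hz, rfl⟩
    · rw [mass_br ha h]
      have h0 : (0 : ℕ) ∈ Finset.range q := Finset.mem_range.2 ha.qpos'
      have hs1 := sum_m_one ha y
      rw [← Finset.add_sum_erase _ _ h0] at hs1 ⊢
      have h1 := hFa2 0 ha.qpos'
      simp only [if_true, Nat.cast_zero, add_zero] at h1 hs1 ⊢
      have h2 : (1 - ε) * ∑ a ∈ (Finset.range q).erase 0, m q ((y + a) / q) ≤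
          ∑ a ∈ (Finset.range q).erase 0, m q ((y + a) / q) * ∑ x ∈ Fa a, pf μ ((y + a) / p + x) := by
        rw [Finset.mul_sum]
        refine Finset.sum_le_sum fun a haa => ?_
        rw [Finset.mem_erase, Finset.mem_range] at haa
        have h3 := hFa2 a haa.2
        rw [if_neg haa.1] at h3
        rw [mul_comm]
        exact mul_le_mul_of_nonneg_left h3 (m_nonneg _ _)
      have h4 := mul_le_mul_of_nonneg_left h1 (m_nonneg q (y / q))
      rw [Wp_succ' ha, pf_self ha h y]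
      have h5 : ∑ a ∈ (Finset.range q).erase 0, m q ((y + a) / q) = 1 - m q (y / q) := by linarith
      rw [h5] at h2
      nlinarith

theorem comb_full {p q : ℕ} (ha : Adm p q) {μ : Measure ℝ} [IsProbabilityMeasure μ]
    (h : SelfSim p q μ) (X : ℕ → ℕ → Set ℤ) (hX : ∀ n a, 0 < a → a < q → Full μ (X n a)) :
    Full μ (comb p q X) := by
  intro y ε hε
  have h1 := tendsto_Wp ha h y
  obtain ⟨N, hN⟩ := (h1.eventually_lt_const (show pf μ y < pf μ y + ε / 2 by linarith)).exists
  obtain ⟨F, hF, hs⟩ := comb_mass ha h N X hX y (ε / 2) (by linarith)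
  refine ⟨F, hF, lt_of_lt_of_le ?_ hs⟩
  have h2 := Wp_nonneg p q N y
  nlinarith

/-! ## Counting -/

theorem cnt_br {p q : ℕ} (ha : Adm p q) (X : ℕ → Set ℤ) (x h : ℝ) :
    cnt (br p q X) x h ≤ ∑ a ∈ Finset.range q, cnt (X a) ((x - a) / p) (h / p) := by
  classical
  have hp := ha.ppos
  have hsub : (win x h).filter (fun k => k ∈ br p q X) ⊆ (Finset.range q).biUnion (fun a =>
      ((win ((x - a) / p) (h / p)).filter (fun k => k ∈ X a)).image (fun z : ℤ => (a : ℤ) + p * z)) := by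
    intro k hk
    rw [Finset.mem_filter] at hk
    obtain ⟨hk1, a, haq, y, hy, rfl⟩ := hk
    rw [Finset.mem_biUnion]
    refine ⟨a, Finset.mem_range.2 haq, Finset.mem_image.2 ⟨y, ?_, rfl⟩⟩
    rw [Finset.mem_filter, mem_win]
    rw [mem_win] at hk1
    push_cast at hk1
    refine ⟨⟨?_, ?_⟩, hy⟩
    · rw [← sub_div, div_lt_iff₀ hp]
      linarith [hk1.1]
    · rw [← add_div, lt_div_iff₀ hp]
      linarith [hk1.2]
  refine (Finset.card_le_card hsub).trans (Finset.card_biUnion_le.trans ?_)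
  refine Finset.sum_le_sum fun a _ => ?_
  exact Finset.card_image_le

theorem UB_br {p q : ℕ} (ha : Adm p q) (X : ℕ → Set ℤ) (A : ℕ → ℝ)
    (hX : ∀ a, a < q → UB (ss p q) (X a) (A a)) :
    UB (ss p q) (br p q X) ((∑ a ∈ Finset.range q, A a) / q) := by
  have hp := ha.ppos
  have hq := ha.qpos
  choose! C hC using hX
  refine ⟨∑ a ∈ Finset.range q, C a, fun x h hh => ?_⟩
  have h1 : (cnt (br p q X) x h : ℝ) ≤ ∑ a ∈ Finset.range q, (cnt (X a) ((x - a) / p) (h / p) : ℝ) := by
    exact_mod_cast cnt_br ha X x h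
  refine h1.trans ?_
  have h2 : ∑ a ∈ Finset.range q, (cnt (X a) ((x - a) / p) (h / p) : ℝ) ≤
      ∑ a ∈ Finset.range q, (A a * (h / p) ^ ss p q + C a) :=
    Finset.sum_le_sum fun a haq => hC a (Finset.mem_range.1 haq) _ _ (div_pos hh hp)
  refine h2.trans (le_of_eq ?_)
  rw [Finset.sum_add_distrib, ← Finset.sum_mul, Real.div_rpow hh.le hp.le, p_rpow_ss ha]
  ring

theorem sum_digits (Q d : ℕ) (hd : d ≤ Q) (A B : ℝ) :
    ∑ a ∈ Finset.range Q, (if a + 1 ≤ d then A else B) = d * A + (Q - d) * B := by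
  induction Q generalizing d with
  | zero =>
    have : d = 0 := by omega
    subst this
    simp
  | succ Q ih =>
    rw [Finset.sum_range_succ]
    by_cases h : d ≤ Q
    · rw [ih d h, if_neg (by omega)]
      push_cast
      ring
    · have hdQ : d = Q + 1 := by omega
      subst hdQ
      rw [if_pos le_rfl]
      have : ∑ a ∈ Finset.range Q, (if a + 1 ≤ Q + 1 then A else B) = Q * A := by
        rw [Finset.sum_congr rfl fun a ha => if_pos (by
          have := Finset.mem_range.1 ha; omega)]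
        simp
      rw [this]
      push_cast
      ring

/-- the recursion for the densities -/
theorem UB_rec {p q : ℕ} (ha : Adm p q) (R : ℕ → Set ℤ) (Y : ℕ → ℕ → Set ℤ) {A B : ℝ}
    (hA : 0 ≤ A) (hB : 0 ≤ B) (hR : ∀ n, Orth p q (R n)) (dg : ℕ → ℕ) (th : ℕ → ℝ)
    (hsub : ∀ n, R n ⊆ br p q (fun a => if a = 0 then R (n + 1) else Y n a))
    (hY : ∀ n a, 0 < a → a < q → UB (ss p q) (Y n a) (if a ≤ dg n then A else B))
    (hdg : ∀ n, dg n + 1 ≤ q) (hth : ∀ n, th (n + 1) = q * th n - dg n)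
    (hth0 : ∀ n, 0 ≤ th n) (hth1 : ∀ n, th n ≤ 1) (N : ℕ) :
    ∀ n, UB (ss p q) (R n) ((A - B) * th n + B + q * 2 ^ ss p q / q ^ N) := by
  have hq := ha.qpos
  induction N with
  | zero =>
    intro n
    apply (UB_orth ha (hR n)).mono
    have h1 := hth0 n
    have h2 := hth1 n
    rw [pow_zero, div_one]
    have h3 : 0 ≤ A * th n := mul_nonneg hA h1
    have h4 : 0 ≤ B * (1 - th n) := mul_nonneg hB (by linarith)
    linarith
  | succ N ih =>
    intro n
    have h1 := UB_br ha (fun a => if a = 0 then R (n + 1) else Y n a)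
      (fun a => if a = 0 then (A - B) * th (n + 1) + B + q * 2 ^ ss p q / q ^ N
        else if a ≤ dg n then A else B) (by
      intro a haq
      by_cases ha0 : a = 0
      · simp only [ha0, if_true]
        exact ih (n + 1)
      · simp only [if_neg ha0]
        exact hY n a (Nat.pos_of_ne_zero ha0) haq)
    refine (h1.subset (hsub n)).mono (le_of_eq ?_)
    obtain ⟨Q, hQ⟩ : ∃ Q, q = Q + 1 := ⟨q - 1, by have := ha.two_le; omega⟩
    have hd := hdg n
    have hsum : ∑ a ∈ Finset.range q, (if a = 0 then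
        (A - B) * th (n + 1) + B + q * 2 ^ ss p q / q ^ N
        else if a ≤ dg n then A else B) = (A - B) * th (n + 1) + B + q * 2 ^ ss p q / q ^ N +
          (dg n * A + (q - 1 - dg n) * B) := by
      have hsp : ∀ f : ℕ → ℝ, ∑ a ∈ Finset.range q, f a = ∑ a ∈ Finset.range Q, f (a + 1) + f 0 := by
        intro f
        rw [hQ, Finset.sum_range_succ']
      rw [hsp, if_pos rfl, add_comm]
      congr 1
      have := sum_digits Q (dg n) (by omega) A B
      have hQr : (q : ℝ) - 1 = Q := by rw [hQ]; push_cast; ring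
      rw [hQr, ← this]
      refine Finset.sum_congr rfl fun a _ => ?_
      rw [if_neg (by omega)]
    rw [hsum, hth, pow_succ]
    field_simp
    ring

/-! ## Digits of a real number -/

theorem dig_spec {q : ℕ} (hq : 2 ≤ q) {x : ℝ} (h0 : 0 ≤ x) (h1 : x ≤ 1) :
    ⌈(q : ℝ) * x⌉₊ - 1 + 1 ≤ q ∧ 0 ≤ q * x - ((⌈(q : ℝ) * x⌉₊ - 1 : ℕ) : ℝ) ∧
      q * x - ((⌈(q : ℝ) * x⌉₊ - 1 : ℕ) : ℝ) ≤ 1 := by
  have hq0 : (0 : ℝ) ≤ q := Nat.cast_nonneg q
  have h2 : (q : ℝ) * x ≤ q := by nlinarith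
  have h3 : ⌈(q : ℝ) * x⌉₊ ≤ q := Nat.ceil_le.2 h2
  have h4 := Nat.le_ceil ((q : ℝ) * x)
  rcases Nat.eq_zero_or_pos ⌈(q : ℝ) * x⌉₊ with h5 | h5
  · rw [h5] at h4 ⊢
    have h6 : 0 ≤ (q : ℝ) * x := mul_nonneg hq0 h0
    refine ⟨by omega, ?_, ?_⟩
    · simpa using h6
    · push_cast at h4 ⊢
      simp only [zero_tsub, Nat.cast_zero, sub_zero] at *
      linarith
  · have h6 : ((⌈(q : ℝ) * x⌉₊ - 1 : ℕ) : ℝ) = (⌈(q : ℝ) * x⌉₊ : ℝ) - 1 := by
      rw [Nat.cast_sub h5]; simp
    have h7 := Nat.ceil_lt_add_one (mul_nonneg hq0 h0)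
    refine ⟨by omega, ?_, ?_⟩
    · rw [h6]; linarith
    · rw [h6]; linarith

/-- the remainders -/
noncomputable def th (q : ℕ) (x : ℝ) : ℕ → ℝ
  | 0 => x
  | n + 1 => q * th q x n - ((⌈(q : ℝ) * th q x n⌉₊ - 1 : ℕ) : ℝ)

/-- the digits -/
noncomputable def dg (q : ℕ) (x : ℝ) (n : ℕ) : ℕ := ⌈(q : ℝ) * th q x n⌉₊ - 1

theorem th_mem {q : ℕ} (hq : 2 ≤ q) {x : ℝ} (h0 : 0 ≤ x) (h1 : x ≤ 1) (n : ℕ) :
    0 ≤ th q x n ∧ th q x n ≤ 1 := by
  induction n with
  | zero => exact ⟨h0, h1⟩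
  | succ n ih =>
    have := dig_spec hq ih.1 ih.2
    exact this.2

/-! ## The spectra of prescribed density -/

theorem EE_sub {p q : ℕ} (ha : Adm p q) {x : ℤ} (hx : x ∈ EE p q) :
    ∃ a : ℕ, a < q ∧ ∃ y ∈ EE p q, x = a + p * y := by
  obtain ⟨k, rfl⟩ := hx
  have h1 := el_rec ha (k / q) (Nat.mod_lt k ha.qpos')
  rw [← split_q q k] at h1
  refine ⟨k % q, Nat.mod_lt k ha.qpos', el p q (k / q), ⟨k / q, rfl⟩, ?_⟩
  rw [h1]
  push_cast
  ring

theorem UB_empty (s : ℝ) : UB s ∅ 0 := by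
  classical
  refine ⟨0, fun x h hh => ?_⟩
  have : cnt ∅ x h = 0 := by
    unfold cnt
    rw [Finset.card_eq_zero]
    ext z
    simp
  rw [this]
  simp

theorem Mpq_nonneg {p q : ℕ} (ha : Adm p q) : 0 ≤ Mpq p q := by
  have hq2 : (2 : ℝ) ≤ q := by exact_mod_cast ha.two_le
  have hp4 : (4 : ℝ) ≤ p := by exact_mod_cast ha.four_le
  have hq1 : (0 : ℝ) < q - 1 := by linarith
  have hp1 : (0 : ℝ) < p - 1 := by linarith
  exact Real.rpow_nonneg (by positivity) _

theorem Mpq_pos {p q : ℕ} (ha : Adm p q) : 0 < Mpq p q := by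
  have hq2 : (2 : ℝ) ≤ q := by exact_mod_cast ha.two_le
  have hp4 : (4 : ℝ) ≤ p := by exact_mod_cast ha.four_le
  have hq1 : (0 : ℝ) < q - 1 := by linarith
  have hp1 : (0 : ℝ) < p - 1 := by linarith
  exact Real.rpow_pos_of_pos (by positivity) _

/-- small error terms -/
theorem exists_small {p q : ℕ} (ha : Adm p q) {ε : ℝ} (hε : 0 < ε) :
    ∃ N : ℕ, (q : ℝ) * 2 ^ ss p q / q ^ N ≤ ε := by
  have h1 : (1 : ℝ) < q := by
    have := ha.two_le
    exact_mod_cast (by omega : 1 < q)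
  obtain ⟨N, hN⟩ := pow_unbounded_of_one_lt ((q : ℝ) * 2 ^ ss p q / ε) h1
  refine ⟨N, ?_⟩
  rw [div_lt_iff₀ hε] at hN
  rw [div_le_iff₀ (pow_pos ha.qpos N)]
  linarith

/-- integer version of the construction -/
theorem exists_set {p q : ℕ} (ha : Adm p q) {μ : Measure ℝ} [IsProbabilityMeasure μ]
    (h : SelfSim p q μ) {d : ℝ} (hd0 : 0 ≤ d) (hd1 : d ≤ Mpq p q) :
    ∃ L : Set ℤ, Orth p q L ∧ Full μ L ∧ (∀ ε : ℝ, 0 < ε → UB (ss p q) L (d + ε)) ∧
      ∀ ε : ℝ, 0 < ε → UB (ss p q) (EE p q \ L) (Mpq p q - d + ε) := by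
  obtain ⟨Z, hZ1, hZ2, hZ3⟩ := exists_lac ha h
  have hM := Mpq_pos ha
  set t : ℝ := d / Mpq p q with ht
  have ht0 : 0 ≤ t := div_nonneg hd0 hM.le
  have ht1 : t ≤ 1 := by rw [ht, div_le_one hM]; exact hd1
  have hMt : Mpq p q * t = d := by rw [ht]; field_simp
  set X : ℕ → ℕ → Set ℤ := fun n a => if a ≤ dg q t n then EE p q else Z with hX
  set Ls : ℕ → Set ℤ := fun n => comb p q (fun k => X (n + k)) with hLs
  have hXo : ∀ n a, Orth p q (X n a) := by
    intro n a
    rw [hX]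
    simp only
    split_ifs
    · exact EE_z0 ha
    · exact hZ3
  have hXf : ∀ n a, Full μ (X n a) := by
    intro n a
    rw [hX]
    simp only
    split_ifs
    · exact EE_full ha h
    · exact hZ1
  have hsh : ∀ n, sh (fun k => X (n + k)) = fun k => X (n + 1 + k) := by
    intro n
    funext k
    show X (n + (k + 1)) = X (n + 1 + k)
    congr 1
    omega
  have hLo : ∀ n, Orth p q (Ls n) := fun n => comb_orth ha _ fun k a _ _ => hXo _ _
  have hdg : ∀ n, dg q t n + 1 ≤ q := fun n =>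
    (dig_spec ha.two_le (th_mem ha.two_le ht0 ht1 n).1 (th_mem ha.two_le ht0 ht1 n).2).1
  refine ⟨Ls 0, hLo 0, comb_full ha h _ fun n a _ _ => hXf _ _, ?_, ?_⟩
  · intro ε hε
    obtain ⟨N, hN⟩ := exists_small ha (show 0 < ε / 2 by linarith)
    have h1 := UB_rec ha Ls X (A := Mpq p q) (B := ε / 2) hM.le (by linarith) hLo (dg q t) (th q t)
      (by
        intro n
        have := comb_sub ha (fun k => X (n + k))
        rw [hsh n] at this
        exact this) (by
        intro n a _ _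
        rw [hX]
        simp only
        split_ifs
        · exact UB_EE ha
        · exact UB_lac ha hZ2 (by linarith)) hdg (fun n => rfl)
      (fun n => (th_mem ha.two_le ht0 ht1 n).1) (fun n => (th_mem ha.two_le ht0 ht1 n).2) N 0
    refine h1.mono ?_
    have h2 : th q t 0 = t := rfl
    rw [h2]
    nlinarith
  · intro ε hε
    obtain ⟨N, hN⟩ := exists_small ha hε
    have h1 := UB_rec ha (fun n => EE p q \ Ls n)
      (fun n a => if a ≤ dg q t n then ∅ else EE p q) (A := 0) (B := Mpq p q) le_rfl hM.le (by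
        intro n b hb c hc hne
        exact EE_z0 ha b hb.1 c hc.1 hne) (dg q t) (th q t)
      (by
        rintro n x ⟨hx1, hx2⟩
        obtain ⟨a, haq, y, hy, rfl⟩ := EE_sub ha hx1
        refine ⟨a, haq, y, ?_, rfl⟩
        show y ∈ (if a = 0 then EE p q \ Ls (n + 1) else if a ≤ dg q t n then ∅ else EE p q)
        by_cases ha0 : a = 0
        · rw [if_pos ha0]
          refine ⟨hy, fun hy2 => hx2 ?_⟩
          apply sub_comb
          refine ⟨a, haq, y, ?_, rfl⟩
          simp only [if_pos ha0]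
          rw [hsh n]
          exact hy2
        · rw [if_neg ha0]
          by_cases had : a ≤ dg q t n
          · exfalso
            apply hx2
            apply sub_comb
            refine ⟨a, haq, y, ?_, rfl⟩
            simp only [if_neg ha0]
            show y ∈ X (n + 0) a
            rw [hX]
            simp only [add_zero]
            rw [if_pos had]
            exact hy
          · rw [if_neg had]
            exact hy) (by
        intro n a _ _
        split_ifs
        · exact UB_empty _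
        · exact UB_EE ha) hdg (fun n => rfl)
      (fun n => (th_mem ha.two_le ht0 ht1 n).1) (fun n => (th_mem ha.two_le ht0 ht1 n).2) N 0
    refine h1.mono ?_
    have h2 : th q t 0 = t := rfl
    rw [h2]
    linarith

/-- the window which contains the elements of level `N` of the standard spectrum -/
theorem cnt_EE_ge {p q : ℕ} (ha : Adm p q) (N : ℕ) :
    (q : ℝ) ^ N ≤ cnt (EE p q) (((q : ℝ) - 1) * p ^ N / (2 * (p - 1)) - (q - 1) / (2 * (p - 1)))
      (((q : ℝ) - 1) * p ^ N / (2 * (p - 1))) := by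
  classical
  have hq2 : (2 : ℝ) ≤ q := by exact_mod_cast ha.two_le
  have hp4 : (4 : ℝ) ≤ p := by exact_mod_cast ha.four_le
  have hq1 : (0 : ℝ) < q - 1 := by linarith
  have hp1 : (0 : ℝ) < p - 1 := by linarith
  have hinj : Function.Injective (fun k : ℕ => ((el p q k : ℕ) : ℤ)) := fun a b hab =>
    (el_strictMono ha).injective (Int.ofNat_inj.1 hab)
  have h1 : ((Finset.range (q ^ N)).image (fun k : ℕ => ((el p q k : ℕ) : ℤ))).card = q ^ N := by
    rw [Finset.card_image_of_injective _ hinj, Finset.card_range]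
  have h2 : q ^ N ≤ cnt (EE p q) (((q : ℝ) - 1) * p ^ N / (2 * (p - 1)) - (q - 1) / (2 * (p - 1)))
      (((q : ℝ) - 1) * p ^ N / (2 * (p - 1))) := by
    rw [← h1]
    apply Finset.card_le_card
    intro z hz
    obtain ⟨k, hk, rfl⟩ := Finset.mem_image.1 hz
    rw [Finset.mem_filter, mem_win]
    refine ⟨⟨?_, ?_⟩, k, rfl⟩
    · have h3 : 0 < ((q : ℝ) - 1) / (2 * (p - 1)) := by positivity
      have h4 : (0 : ℝ) ≤ el p q k := Nat.cast_nonneg _
      push_cast
      linarith
    · have h3 := el_bound ha N k (Finset.mem_range.1 hk)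
      have h5 : (el p q k : ℝ) ≤ (q - 1) * ((p : ℝ) ^ N - 1) / (p - 1) := by
        rw [le_div_iff₀ hp1]
        exact h3
      have h6 : ((q : ℝ) - 1) * ((p : ℝ) ^ N - 1) / (p - 1) =
          2 * (((q : ℝ) - 1) * p ^ N / (2 * (p - 1))) - 2 * ((q - 1) / (2 * (p - 1))) := by
        field_simp
      have h7 : 0 < ((q : ℝ) - 1) / (2 * (p - 1)) := by positivity
      push_cast
      linarith
  exact_mod_cast h2

end Pool.Agent.V1187.BD
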