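import Pool.Agent.V1187.Beur5

/-!
# Spectra of `μ_{p,q}` with prescribed upper Beurling density
-/

set_option autoImplicit false

open MeasureTheory Filter Topology

namespace Pool.Agent.V1187.BD

open Pool.Agent.V1187.SP Pool.Agent.V1187.CS

/-- `L` is a spectrum of `μ`: it is countable and the exponentials `e_l (x) = exp (2 π i l x)`, `l ∈ L`,
form an orthonormal basis of `L²(μ)`, that is, they are orthonormal and each `f` in `L²(μ)` which is
orthogonal to all of them is zero. -/
structure IsSpectrum (μ : Measure ℝ) (L : Set ℝ) : Prop where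
  countable : L.Countable
  orthonormal : ∀ l ∈ L, ∀ m ∈ L,
    ∫ x, Complex.exp (2 * Real.pi * Complex.I * l * x) *
      starRingEnd ℂ (Complex.exp (2 * Real.pi * Complex.I * m * x)) ∂μ = if l = m then 1 else 0
  total : ∀ f : ℝ → ℂ, MemLp f 2 μ →
    (∀ l ∈ L, ∫ x, f x * starRingEnd ℂ (Complex.exp (2 * Real.pi * Complex.I * l * x)) ∂μ = 0) →
      f =ᵐ[μ] 0

/-- The upper `r`-Beurling density: the upper limit, as `h → ∞`, of
`sup_x #(L ∩ (x - h, x + h)) / h ^ r`. -/
noncomputable def upperDensity (r : ℝ) (L : Set ℝ) : ENNReal :=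
  limsup (fun h : ℝ => ⨆ x : ℝ,
    ((L ∩ Set.Ioo (x - h) (x + h)).encard : ENNReal) / ENNReal.ofReal (h ^ r)) atTop

theorem exp_eq_ex (l x : ℝ) : Complex.exp (2 * Real.pi * Complex.I * l * x) = ex (-l) x := by
  unfold ex
  congr 1
  push_cast
  ring

theorem isSpectrum_of {p q : ℕ} (ha : Adm p q) {μ : Measure ℝ} [IsProbabilityMeasure μ]
    (h : SelfSim p q μ) {L : Set ℤ} (hL : Orth p q L) (hF : Full μ L) :
    IsSpectrum μ ((fun z : ℤ => (z : ℝ)) '' L) := by
  have hzero : ∀ b ∈ L, ∀ c ∈ L, b ≠ c → charFun μ (2 * Real.pi * ((b : ℝ) - c)) = 0 := by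
    intro b hb c hc hne
    apply charFun_of_pf
    have := pf_of_Z0 ha h (hL b hb c hc hne)
    push_cast at this
    exact this
  refine ⟨(Set.to_countable L).image _, ?_, ?_⟩
  · rintro _ ⟨b, hb, rfl⟩ _ ⟨c, hc, rfl⟩
    simp only [exp_eq_ex]
    rw [integral_ex_mul]
    split_ifs with hbc
    · rw [hbc, sub_self, mul_zero, charFun_zero]; simp
    · have := hzero b hb c hc (fun h => hbc (by rw [h]))
      rw [← this]
      congr 1
      ring
  · intro f hf h0
    have h1 : ∀ l ∈ (fun z : ℤ => -(z : ℝ)) '' L, ∫ x, f x * starRingEnd ℂ (ex l x) ∂μ = 0 := by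
      rintro _ ⟨b, hb, rfl⟩
      have := h0 (b : ℝ) ⟨b, hb, rfl⟩
      simp only [exp_eq_ex] at this
      exact this
    refine total_of_mass (L := (fun z : ℤ => -(z : ℝ)) '' L) ?_ ?_ f hf h1
    · rintro _ ⟨b, hb, rfl⟩ _ ⟨c, hc, rfl⟩ hne
      have := hzero b hb c hc (fun h => hne (by rw [h]))
      rw [← this]
      congr 1
      ring
    · intro y ε hε
      obtain ⟨F, hF1, hF2⟩ := hF y ε hε
      classical
      refine ⟨F.image (fun z : ℤ => -(z : ℝ)), ?_, ?_⟩
      · intro x hx
        simp only [Finset.coe_image, Set.mem_image, Finset.mem_coe] at hx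
        obtain ⟨w, hw, rfl⟩ := hx
        exact ⟨w, hF1 hw, rfl⟩
      · rw [Finset.sum_image]
        · refine hF2.trans_le (le_of_eq ?_)
          refine Finset.sum_congr rfl fun w _ => ?_
          rw [pf]
          have e : 2 * Real.pi * (-(w : ℝ) - y) = -(2 * Real.pi * (y + w)) := by ring
          rw [e, charFun_neg, RCLike.norm_conj]
        · intro a _ b _ hab
          have : -(a : ℝ) = -(b : ℝ) := hab
          have h2 : (a : ℝ) = b := by linarith
          exact_mod_cast h2

theorem encard_eq_cnt (L : Set ℤ) (x h : ℝ) :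
    (((fun z : ℤ => (z : ℝ)) '' L) ∩ Set.Ioo (x - h) (x + h)).encard = (cnt L x h : ℕ∞) := by
  classical
  have h1 : ((fun z : ℤ => (z : ℝ)) '' L) ∩ Set.Ioo (x - h) (x + h) =
      (fun z : ℤ => (z : ℝ)) '' ↑((win x h).filter (fun k => k ∈ L)) := by
    ext y
    constructor
    · rintro ⟨⟨z, hz, rfl⟩, hy⟩
      refine ⟨z, ?_, rfl⟩
      rw [Finset.mem_coe, Finset.mem_filter, mem_win]
      exact ⟨hy, hz⟩
    · rintro ⟨z, hz, rfl⟩
      rw [Finset.mem_coe, Finset.mem_filter, mem_win] at hz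
      exact ⟨⟨z, hz.2, rfl⟩, hz.1⟩
  rw [h1, Function.Injective.encard_image Int.cast_injective, Set.encard_coe_eq_coe_finsetCard]
  rw [cnt]

theorem upper_le {p q : ℕ} (ha : Adm p q) {L : Set ℤ} {d : ℝ} (hd : 0 ≤ d)
    (hL : ∀ ε : ℝ, 0 < ε → UB (ss p q) L (d + ε)) :
    upperDensity (ss p q) ((fun z : ℤ => (z : ℝ)) '' L) ≤ ENNReal.ofReal d := by
  apply ENNReal.le_of_forall_pos_le_add
  intro ε hε _
  have hε' : (0 : ℝ) < ε := by exact_mod_cast hε
  obtain ⟨C, hC⟩ := hL (ε / 2) (by positivity)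
  have hs := ss_pos ha
  have hlim : Tendsto (fun h : ℝ => h ^ ss p q) atTop atTop := tendsto_rpow_atTop hs
  have hev : ∀ᶠ h : ℝ in atTop, 0 < h ∧ C ≤ ε / 2 * h ^ ss p q := by
    refine (eventually_gt_atTop 0).and ?_
    filter_upwards [hlim.eventually_ge_atTop (C / (ε / 2))] with h hh
    rwa [div_le_iff₀ (by positivity), mul_comm] at hh
  have e1 : ENNReal.ofReal d + (ε : ENNReal) = ENNReal.ofReal (d + ε) := by
    rw [ENNReal.ofReal_add hd hε'.le, ENNReal.ofReal_coe_nnreal]
  rw [e1]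
  unfold upperDensity
  apply Filter.limsup_le_of_le
  · isBoundedDefault
  · filter_upwards [hev] with h hh
    apply iSup_le
    intro x
    rw [encard_eq_cnt]
    have hpos : 0 < h ^ ss p q := Real.rpow_pos_of_pos hh.1 _
    apply ENNReal.div_le_of_le_mul
    rw [← ENNReal.ofReal_mul (by linarith)]
    have h1 : ((cnt L x h : ℕ∞) : ENNReal) = ENNReal.ofReal (cnt L x h) := by
      rw [ENNReal.ofReal_natCast]
      rfl
    rw [h1]
    apply ENNReal.ofReal_le_ofReal
    have := hC x h hh.1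
    have := hh.2
    nlinarith

theorem le_upper {p q : ℕ} (ha : Adm p q) {L : Set ℤ} {d : ℝ}
    (hL : ∀ ε : ℝ, 0 < ε → UB (ss p q) (EE p q \ L) (Mpq p q - d + ε)) :
    ENNReal.ofReal d ≤ upperDensity (ss p q) ((fun z : ℤ => (z : ℝ)) '' L) := by
  classical
  apply ENNReal.le_of_forall_pos_le_add
  intro ε hε _
  have hε' : (0 : ℝ) < ε := by exact_mod_cast hε
  obtain ⟨C, hC⟩ := hL (ε / 2) (by positivity)
  have hs := ss_pos ha
  have hq2 : (2 : ℝ) ≤ q := by exact_mod_cast ha.two_le
  have hp4 : (4 : ℝ) ≤ p := by exact_mod_cast ha.four_le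
  have hq1 : (0 : ℝ) < q - 1 := by linarith
  have hp1 : (0 : ℝ) < p - 1 := by linarith
  have key : ENNReal.ofReal (d - ε) ≤ upperDensity (ss p q) ((fun z : ℤ => (z : ℝ)) '' L) := by
    unfold upperDensity
    apply Filter.le_limsup_of_frequently_le
    · rw [Filter.frequently_atTop]
      intro a
      -- choose the level
      have hlim : Tendsto (fun N : ℕ => ((q : ℝ) - 1) * p ^ N / (2 * (p - 1))) atTop atTop := by
        have h1 : Tendsto (fun N : ℕ => (p : ℝ) ^ N) atTop atTop :=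
          tendsto_pow_atTop_atTop_of_one_lt (by linarith)
        have h2 := h1.const_mul_atTop (show 0 < ((q : ℝ) - 1) / (2 * (p - 1)) by positivity)
        refine h2.congr fun N => ?_
        ring
      have hlim2 : Tendsto (fun N : ℕ => (((q : ℝ) - 1) * p ^ N / (2 * (p - 1))) ^ ss p q)
          atTop atTop := (tendsto_rpow_atTop hs).comp hlim
      obtain ⟨N, hN1, hN2⟩ := ((hlim.eventually_ge_atTop a).and
        (hlim2.eventually_ge_atTop (C / (ε / 2)))).exists
      set H : ℝ := ((q : ℝ) - 1) * p ^ N / (2 * (p - 1)) with hH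
      have hHpos : 0 < H := by
        have := pow_pos ha.ppos N
        positivity
      rw [div_le_iff₀ (by positivity)] at hN2
      refine ⟨H, hN1, ?_⟩
      refine le_trans ?_ (le_iSup _ (H - (q - 1) / (2 * (p - 1))))
      rw [encard_eq_cnt]
      set x : ℝ := H - (q - 1) / (2 * (p - 1)) with hx
      have hpos : 0 < H ^ ss p q := Real.rpow_pos_of_pos hHpos _
      have h1 : ((cnt L x H : ℕ∞) : ENNReal) = ENNReal.ofReal (cnt L x H) := by
        rw [ENNReal.ofReal_natCast]
        rfl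
      rw [h1, ← ENNReal.ofReal_div_of_pos hpos]
      apply ENNReal.ofReal_le_ofReal
      rw [le_div_iff₀ hpos]
      have h2 := cnt_EE_ge ha N
      rw [← hH, ← hx] at h2
      have h3 : (q : ℝ) ^ N = Mpq p q * H ^ ss p q := by
        rw [Mpq, ← Real.mul_rpow (by positivity) hHpos.le, ← ppow_rpow_ss ha, hH]
        congr 1
        field_simp
      have h4 : cnt (EE p q) x H ≤ cnt L x H + cnt (EE p q \ L) x H := by
        unfold cnt
        refine (Finset.card_le_card ?_).trans (Finset.card_union_le _ _)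
        intro z hz
        rw [Finset.mem_filter] at hz
        simp only [Finset.mem_union, Finset.mem_filter]
        by_cases hzL : z ∈ L
        · exact Or.inl ⟨hz.1, hzL⟩
        · exact Or.inr ⟨hz.1, hz.2, hzL⟩
      have h5 : (cnt (EE p q) x H : ℝ) ≤ cnt L x H + cnt (EE p q \ L) x H := by exact_mod_cast h4
      have h6 := hC x H hHpos
      nlinarith
    · isBoundedDefault
  calc ENNReal.ofReal d = ENNReal.ofReal ((d - ε) + ε) := by rw [sub_add_cancel]
    _ ≤ ENNReal.ofReal (d - ε) + ENNReal.ofReal ε := ENNReal.ofReal_add_le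
    _ ≤ _ := by
        rw [ENNReal.ofReal_coe_nnreal]
        exact add_le_add_left key _

/-- every value between `0` and `M_{p,q}` is the upper density of a spectrum -/
theorem intermediate {p q : ℕ} (hq : 2 ≤ q) (hqp : q ∣ p) (hlt : q < p) {μ : Measure ℝ}
    [IsProbabilityMeasure μ] (h : SelfSim p q μ) {d : ℝ} (hd0 : 0 ≤ d) (hd1 : d ≤ Mpq p q) :
    ∃ L : Set ℝ, IsSpectrum μ L ∧ upperDensity (ss p q) L = ENNReal.ofReal d := by
  have ha : Adm p q := ⟨hq, hqp, hlt⟩
  obtain ⟨L, h1, h2, h3, h4⟩ := exists_set ha h hd0 hd1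
  exact ⟨_, isSpectrum_of ha h h1 h2, le_antisymm (upper_le ha hd0 h3) (le_upper ha h4)⟩

end Pool.Agent.V1187.BD
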