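import Mathlib

/-!
# The Cantor measure of scale four
-/

set_option autoImplicit false

open Set MeasureTheory Filter Topology

namespace Pool.Agent.V1187.CN

/-- the first binary digit of the fractional part -/
noncomputable def g (x : ℝ) : ℝ := if 1 / 2 ≤ Int.fract x then 1 else 0

/-- the map which sends `∑ ε_k 2⁻ᵏ` to `∑ 2 ε_k 4⁻ᵏ` -/
noncomputable def G (x : ℝ) : ℝ := ∑' k : ℕ, g (2 ^ k * x) / (2 * 4 ^ k)

/-- The Cantor measure of scale four. -/
noncomputable def mu4 : Measure ℝ := (volume.restrict (Ioc (0 : ℝ) 1)).map G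

theorem g_nonneg (x : ℝ) : 0 ≤ g x := by unfold g; split_ifs <;> norm_num

theorem g_le (x : ℝ) : g x ≤ 1 := by unfold g; split_ifs <;> norm_num

theorem g_add_nat (x : ℝ) (n : ℕ) : g (x + n) = g x := by
  unfold g; rw [Int.fract_add_natCast]

theorem measurable_g : Measurable g := by
  unfold g
  refine Measurable.ite ?_ measurable_const measurable_const
  exact measurableSet_le measurable_const measurable_fract

theorem geo_summable : Summable (fun k : ℕ => (1 : ℝ) / (2 * 4 ^ k)) := by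
  have := (summable_geometric_of_lt_one (by norm_num : (0 : ℝ) ≤ 1 / 4) (by norm_num)).mul_left (1 / 2)
  refine this.congr fun k => ?_
  rw [div_pow, one_pow]
  field_simp

theorem term_le (x : ℝ) (k : ℕ) : g (2 ^ k * x) / (2 * 4 ^ k) ≤ 1 / (2 * 4 ^ k) := by
  gcongr
  exact g_le _

theorem term_nonneg (x : ℝ) (k : ℕ) : 0 ≤ g (2 ^ k * x) / (2 * 4 ^ k) :=
  div_nonneg (g_nonneg _) (by positivity)

theorem G_summable (x : ℝ) : Summable (fun k : ℕ => g (2 ^ k * x) / (2 * 4 ^ k)) :=
  Summable.of_nonneg_of_le (term_nonneg x) (term_le x) geo_summable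

theorem G_eq (x : ℝ) : G x = g x / 2 + G (2 * x) / 4 := by
  unfold G
  rw [(G_summable x).tsum_eq_zero_add]
  congr 1
  · simp
  · rw [← tsum_div_const]
    refine tsum_congr fun k => ?_
    rw [pow_succ, pow_succ]
    have : (2 : ℝ) ^ k * 2 * x = 2 ^ k * (2 * x) := by ring
    rw [this]
    field_simp

theorem G_periodic : Function.Periodic G 1 := by
  intro x
  unfold G
  refine tsum_congr fun k => ?_
  have : (2 : ℝ) ^ k * (x + 1) = 2 ^ k * x + ((2 ^ k : ℕ) : ℝ) := by push_cast; ring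
  rw [this, g_add_nat]

theorem G_nonneg (x : ℝ) : 0 ≤ G x := tsum_nonneg (term_nonneg x)

theorem geo_tsum : ∑' k : ℕ, (1 : ℝ) / (2 * 4 ^ k) = 2 / 3 := by
  have : ∀ k : ℕ, (1 : ℝ) / (2 * 4 ^ k) = (1 / 2) * (1 / 4) ^ k := by
    intro k
    rw [div_pow, one_pow]
    field_simp
  simp only [this]
  rw [tsum_mul_left, tsum_geometric_of_lt_one (by norm_num) (by norm_num)]
  norm_num

theorem G_le (x : ℝ) : G x ≤ 2 / 3 := by
  rw [← geo_tsum]
  exact (G_summable x).tsum_le_tsum (term_le x) geo_summable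

theorem measurable_G : Measurable G := by
  refine measurable_of_tendsto_metrizable (f := fun n x => ∑ k ∈ Finset.range n,
    g (2 ^ k * x) / (2 * 4 ^ k)) ?_ ?_
  · intro n
    refine Finset.measurable_sum _ fun k _ => ?_
    exact (measurable_g.comp (measurable_const.mul measurable_id)).div_const _
  · rw [tendsto_pi_nhds]
    intro x
    exact (G_summable x).hasSum.tendsto_sum_nat

instance : IsProbabilityMeasure (volume.restrict (Ioc (0 : ℝ) 1)) := ⟨by simp⟩

instance : IsProbabilityMeasure mu4 := Measure.isProbabilityMeasure_map measurable_G.aemeasurable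

theorem g_zero {x : ℝ} (h : x ∈ Ico (0 : ℝ) (1 / 2)) : g x = 0 := by
  unfold g
  rw [Int.fract_eq_self.2 ⟨h.1, by linarith [h.2]⟩, if_neg (by linarith [h.2])]

theorem g_one {x : ℝ} (h : x ∈ Ico (1 / 2 : ℝ) 1) : g x = 1 := by
  unfold g
  rw [Int.fract_eq_self.2 ⟨by linarith [h.1], h.2⟩, if_pos h.1]

/-- The self-similarity of the measure. -/
theorem self_similar {E : Type*} [NormedAddCommGroup E] [NormedSpace ℝ E] (φ : ℝ → E)
    (hφ : ∀ a b : ℝ, IntervalIntegrable (fun x => φ (G x)) volume a b) :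
    ∫ x in (0:ℝ)..1, φ (G x) = (1 / 2 : ℝ) • (∫ x in (0:ℝ)..1, φ (G x / 4)) +
      (1 / 2 : ℝ) • ∫ x in (0:ℝ)..1, φ (1 / 2 + G x / 4) := by
  rw [← intervalIntegral.integral_add_adjacent_intervals (hφ 0 (1 / 2)) (hφ (1 / 2) 1)]
  congr 1
  · have h1 : ∫ x in (0:ℝ)..(1/2), φ (G x) = ∫ x in (0:ℝ)..(1/2), φ (G (2 * x) / 4) := by
      apply intervalIntegral.integral_congr_ae
      have : ∀ᵐ x : ℝ, x ≠ 1 / 2 := by
        rw [ae_iff]; simp
      filter_upwards [this] with x hx1 hx2
      rw [uIoc_of_le (by norm_num)] at hx2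
      rw [G_eq x, g_zero ⟨hx2.1.le, lt_of_le_of_ne hx2.2 hx1⟩]
      simp
    rw [h1]
    have := intervalIntegral.integral_comp_mul_left (a := 0) (b := 1 / 2)
      (fun y => φ (G y / 4)) (c := 2) (by norm_num)
    rw [this]
    norm_num
  · have h1 : ∫ x in (1/2:ℝ)..1, φ (G x) = ∫ x in (1/2:ℝ)..1, φ (1 / 2 + G (2 * x) / 4) := by
      apply intervalIntegral.integral_congr_ae
      have : ∀ᵐ x : ℝ, x ≠ 1 := by
        rw [ae_iff]; simp
      filter_upwards [this] with x hx1 hx2
      rw [uIoc_of_le (by norm_num)] at hx2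
      rw [G_eq x, g_one ⟨hx2.1.le, lt_of_le_of_ne hx2.2 hx1⟩]
    rw [h1]
    have := intervalIntegral.integral_comp_mul_left (a := 1 / 2) (b := 1)
      (fun y => φ (1 / 2 + G y / 4)) (c := 2) (by norm_num)
    rw [this]
    have hp : Function.Periodic (fun y => φ (1 / 2 + G y / 4)) 1 := by
      intro y
      show φ (1 / 2 + G (y + 1) / 4) = _
      rw [G_periodic y]
    have h2 := hp.intervalIntegral_add_eq 1 0
    norm_num at h2 ⊢
    rw [h2]

end Pool.Agent.V1187.CN
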