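import Mathlib

/-!
# A tree of residues modulo powers of four
-/

set_option autoImplicit false

open Nat

namespace Pool.Agent.V1187.CN

/-- The digit `d` at the node `r` (modulo `4 ^ k`) is forced: for some odd `t ≥ 3` the residue
`r + 4 ^ k * d` modulo `4 ^ (k + 1)` is that of the 2-adic number `-4 ^ (t.factorial) / t`. -/
def Fo (k r d : ℕ) : Prop := ∃ t : ℕ, Odd t ∧ 3 ≤ t ∧ 4 ^ (k + 1) ∣ t * (r + 4 ^ k * d) + 4 ^ t.factorial

open Classical in
/-- The even digit after the node `r`. -/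
noncomputable def de (k r : ℕ) : ℕ := if Fo k r 2 then 2 else 0

open Classical in
/-- The odd digit after the node `r`. -/
noncomputable def dt (k r : ℕ) : ℕ := if Fo k r 3 then 3 else 1

/-- The nodes of level `k`. -/
noncomputable def T : ℕ → Finset ℕ
  | 0 => {0}
  | k + 1 => (T k).image (fun w => w + 4 ^ k * de k w) ∪ (T k).image (fun w => w + 4 ^ k * dt k w)

/-- The natural numbers all of whose residues are nodes. -/
def Lam : Set ℕ := {l | ∀ k, l % 4 ^ k ∈ T k}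

theorem de_cases (k r : ℕ) : de k r = 0 ∨ de k r = 2 := by
  unfold de; split_ifs <;> simp

theorem dt_cases (k r : ℕ) : dt k r = 1 ∨ dt k r = 3 := by
  unfold dt; split_ifs <;> simp

theorem T_lt {k w : ℕ} (h : w ∈ T k) : w < 4 ^ k := by
  induction k generalizing w with
  | zero => simp [T] at h; simp [h]
  | succ k ih =>
    simp only [T, Finset.mem_union, Finset.mem_image] at h
    have h4 : 4 ^ (k + 1) = 4 ^ k * 4 := pow_succ 4 k
    rcases h with ⟨v, hv, rfl⟩ | ⟨v, hv, rfl⟩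
    · have := ih hv
      rcases de_cases k v with h | h <;> rw [h] <;> omega
    · have := ih hv
      rcases dt_cases k v with h | h <;> rw [h] <;> omega

theorem T_succ {k w : ℕ} (h : w ∈ T (k + 1)) : ∃ v ∈ T k, ∃ d, (d = de k v ∨ d = dt k v) ∧
    w = v + 4 ^ k * d := by
  simp only [T, Finset.mem_union, Finset.mem_image] at h
  rcases h with ⟨v, hv, rfl⟩ | ⟨v, hv, rfl⟩
  · exact ⟨v, hv, _, Or.inl rfl, rfl⟩
  · exact ⟨v, hv, _, Or.inr rfl, rfl⟩

theorem T_mod {k w : ℕ} (h : w ∈ T (k + 1)) : w % 4 ^ k ∈ T k ∧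
    (w / 4 ^ k = de k (w % 4 ^ k) ∨ w / 4 ^ k = dt k (w % 4 ^ k)) := by
  obtain ⟨v, hv, d, hd, rfl⟩ := T_succ h
  have hlt := T_lt hv
  have h1 : (v + 4 ^ k * d) % 4 ^ k = v := by
    rw [Nat.add_mul_mod_self_left, Nat.mod_eq_of_lt hlt]
  have h2 : (v + 4 ^ k * d) / 4 ^ k = d := by
    rw [Nat.add_mul_div_left _ _ (by positivity), Nat.div_eq_of_lt hlt, zero_add]
  rw [h1, h2]
  exact ⟨hv, hd⟩

theorem T_mod_le {i k w : ℕ} (hik : i ≤ k) (h : w ∈ T k) : w % 4 ^ i ∈ T i := by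
  induction k, hik using Nat.le_induction generalizing w with
  | base => rw [Nat.mod_eq_of_lt (T_lt h)]; exact h
  | succ k hk ih =>
    have := ih (T_mod h).1
    rwa [Nat.mod_mod_of_dvd _ (pow_dvd_pow 4 hk)] at this

theorem four_not_dvd {a i m : ℕ} (h : a ≤ i) (hm : Odd m) : ¬ 4 ^ (i + 1) ∣ 4 ^ a * m := by
  intro hd
  have h1 : 4 ^ (a + 1) ∣ 4 ^ a * m := (pow_dvd_pow 4 (by omega)).trans hd
  rw [pow_succ] at h1
  have h2 : 4 ∣ m := Nat.dvd_of_mul_dvd_mul_left (by positivity) h1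
  rcases hm with ⟨c, rfl⟩
  omega

theorem two_mul_not_dvd {i m : ℕ} (hm : Odd m) : ¬ 4 ^ (i + 1) ∣ 4 ^ i * (2 * m) := by
  intro hd
  rw [pow_succ] at hd
  have h2 : 4 ∣ 2 * m := Nat.dvd_of_mul_dvd_mul_left (by positivity) hd
  rcases hm with ⟨c, rfl⟩
  omega

/-- common lemma -/
theorem key_not_dvd {a i t : ℕ} (ht : Odd t) : ¬ 4 ^ (i + 1) ∣ t * (4 ^ i * 2) + 4 ^ a := by
  intro h
  rcases le_or_gt a i with ha | ha
  · obtain ⟨b, rfl⟩ := Nat.exists_eq_add_of_le ha
    have e : t * (4 ^ (a + b) * 2) + 4 ^ a = 4 ^ a * (2 * (t * 4 ^ b) + 1) := by rw [pow_add]; ring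
    rw [e] at h
    exact four_not_dvd ha ⟨t * 4 ^ b, rfl⟩ h
  · have h1 : 4 ^ (i + 1) ∣ 4 ^ a := pow_dvd_pow 4 ha
    have h2 : 4 ^ (i + 1) ∣ t * (4 ^ i * 2) := (Nat.dvd_add_left h1).1 h
    have e : t * (4 ^ i * 2) = 4 ^ i * (2 * t) := by ring
    rw [e] at h2
    exact two_mul_not_dvd ht h2

/-- the order of four modulo `t` -/
theorem four_pow_mod {t j : ℕ} (ht : Odd t) (ht1 : 1 < t) (hj : t ≤ j) : 4 ^ j.factorial ≡ 1 [MOD t] := by
  have hco : Nat.Coprime 4 t := by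
    have : Nat.Coprime 2 t := (Nat.coprime_two_left).2 ht
    exact Nat.Coprime.pow_left 2 this
  have h1 : 4 ^ φ t ≡ 1 [MOD t] := Nat.ModEq.pow_totient hco
  have h2 : φ t ∣ j.factorial := Nat.dvd_factorial (Nat.totient_pos.2 (by omega))
    ((Nat.totient_le t).trans hj)
  obtain ⟨c, hc⟩ := h2
  rw [hc, pow_mul]
  have := h1.pow c
  rwa [one_pow] at this

/-- the residue of `-4 ^ (t.factorial) / t` modulo `4 ^ (j.factorial)` -/
theorem special_value {t j w : ℕ} (ht : Odd t) (ht3 : 3 ≤ t) (hw : w < 4 ^ j.factorial) (htj : t.factorial < j.factorial)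
    (h : 4 ^ j.factorial ∣ t * w + 4 ^ t.factorial) : t * w + 4 ^ t.factorial = 4 ^ j.factorial := by
  have htj' : t ≤ j := by
    by_contra hc
    push Not at hc
    exact absurd (Nat.factorial_le hc.le) (by omega)
  obtain ⟨q, hq⟩ := h
  have hle : 4 ^ t.factorial < 4 ^ j.factorial := Nat.pow_lt_pow_right (by norm_num) htj
  have hq0 : 0 < q := by
    rcases Nat.eq_zero_or_pos q with h0 | h0
    · rw [h0, mul_zero] at hq
      have : 0 < 4 ^ t.factorial := by positivity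
      omega
    · exact h0
  have hqt : q ≤ t := by
    by_contra hc
    push Not at hc
    have h1 : 4 ^ j.factorial * (t + 1) ≤ 4 ^ j.factorial * q := Nat.mul_le_mul_left _ hc
    have h2 : t * w ≤ t * 4 ^ j.factorial := Nat.mul_le_mul_left _ hw.le
    rw [← hq] at h1
    have h3 : 4 ^ j.factorial * (t + 1) = t * 4 ^ j.factorial + 4 ^ j.factorial := by ring
    omega
  have hmod : q ≡ 1 [MOD t] := by
    have h1 : 4 ^ j.factorial * q ≡ q [MOD t] := by
      have := (four_pow_mod ht (by omega) htj').mul_right q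
      rwa [one_mul] at this
    have h2 : t * w + 4 ^ t.factorial ≡ 1 [MOD t] := by
      have h3 : t * w + 4 ^ t.factorial ≡ 0 + 1 [MOD t] :=
        Nat.ModEq.add ((Nat.modEq_zero_iff_dvd).2 (Dvd.intro _ rfl))
          (four_pow_mod ht (by omega) le_rfl)
      simpa using h3
    exact (h1.symm.trans (hq ▸ Nat.ModEq.refl _)).trans h2
  have hq1 : q = 1 := by
    have h1 : q % t = 1 % t := hmod
    rw [Nat.mod_eq_of_lt (by omega : 1 < t)] at h1
    rcases hqt.lt_or_eq with h2 | h2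
    · rwa [Nat.mod_eq_of_lt h2] at h1
    · rw [h2, Nat.mod_self] at h1
      omega
  rw [hq, hq1, mul_one]

theorem not_Fo_two {i j w : ℕ} (hw : w < 4 ^ j.factorial) (hij : j.factorial ≤ i) : ¬ Fo i w 2 := by
  rintro ⟨t, ht, ht3, h⟩
  have hd : 4 ^ j.factorial ∣ t * w + 4 ^ t.factorial := by
    have h1 : 4 ^ j.factorial ∣ t * (w + 4 ^ i * 2) + 4 ^ t.factorial := (pow_dvd_pow 4 (by omega)).trans h
    have h2 : t * (w + 4 ^ i * 2) + 4 ^ t.factorial = (t * w + 4 ^ t.factorial) + 4 ^ i * (t * 2) := by ring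
    rw [h2] at h1
    exact (Nat.dvd_add_left ((pow_dvd_pow 4 hij).trans (Dvd.intro _ rfl))).1 h1
  rcases le_or_gt (j.factorial) (t.factorial) with hc | hc
  · have h1 : 4 ^ j.factorial ∣ t * w := (Nat.dvd_add_left (pow_dvd_pow 4 hc)).1 hd
    have hco : Nat.Coprime (4 ^ j.factorial) t := by
      have : Nat.Coprime 2 t := (Nat.coprime_two_left).2 ht
      exact Nat.Coprime.pow_left _ (Nat.Coprime.pow_left 2 this)
    have h2 : 4 ^ j.factorial ∣ w := hco.dvd_of_dvd_mul_left h1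
    have h3 : w = 0 := Nat.eq_zero_of_dvd_of_lt h2 hw
    rw [h3, zero_add] at h
    exact key_not_dvd ht h
  · have h1 := special_value ht ht3 hw hc hd
    have h2 : t * (w + 4 ^ i * 2) + 4 ^ t.factorial = t * (4 ^ i * 2) + 4 ^ j.factorial := by
      rw [← h1]; ring
    rw [h2] at h
    exact key_not_dvd ht h

theorem T_special_mem {j w : ℕ} (h : w ∈ T (j.factorial)) : w ∈ Lam := by
  have h1 : ∀ i, j.factorial ≤ i → w ∈ T i := by
    intro i hi
    induction i, hi using Nat.le_induction with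
    | base => exact h
    | succ i hi ih =>
      have h2 : de i w = 0 := by
        unfold de
        rw [if_neg (not_Fo_two (T_lt h) hi)]
      simp only [T, Finset.mem_union, Finset.mem_image]
      exact Or.inl ⟨w, ih, by rw [h2]; simp⟩
  intro k
  have h2 := h1 (max k (j.factorial)) (le_max_right _ _)
  exact T_mod_le (le_max_left _ _) h2

theorem T_special_lt {j w : ℕ} (h : w ∈ T (j.factorial)) : 2 * w < 4 ^ (j.factorial) := by
  obtain ⟨k, hk⟩ : ∃ k, j.factorial = k + 1 := ⟨j.factorial - 1, by have := Nat.factorial_pos j; omega⟩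
  have hlt := T_lt h
  rw [hk] at h
  obtain ⟨v, hv, d, hd, hw⟩ := T_succ h
  have hvl := T_lt hv
  have h4 : 4 ^ (k + 1) = 4 ^ k * 4 := pow_succ 4 k
  have hcase : d ≤ 1 ∨ (2 ≤ d ∧ Fo k v d) := by
    rcases hd with hd | hd
    · unfold de at hd
      split_ifs at hd with hF
      · right; rw [hd]; exact ⟨le_rfl, hF⟩
      · left; omega
    · unfold dt at hd
      split_ifs at hd with hF
      · right; rw [hd]; exact ⟨by norm_num, hF⟩
      · left; omega
  rcases hcase with h1 | ⟨h2, t, ht, ht3, h3⟩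
  · have : 4 ^ k * d ≤ 4 ^ k * 1 := Nat.mul_le_mul_left _ h1
    rw [hk]
    omega
  · exfalso
    rw [← hw, ← hk] at h3
    have hw2 : 4 ^ k * 2 ≤ w := by
      have : 4 ^ k * 2 ≤ 4 ^ k * d := Nat.mul_le_mul_left _ h2
      omega
    have h4k : 0 < 4 ^ k := by positivity
    rcases le_or_gt (j.factorial) (t.factorial) with hc | hc
    · have h5 : 4 ^ j.factorial ∣ t * w := (Nat.dvd_add_left (pow_dvd_pow 4 hc)).1 h3
      have hco : Nat.Coprime (4 ^ j.factorial) t := by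
        have : Nat.Coprime 2 t := (Nat.coprime_two_left).2 ht
        exact Nat.Coprime.pow_left _ (Nat.Coprime.pow_left 2 this)
      have h6 : 4 ^ j.factorial ∣ w := hco.dvd_of_dvd_mul_left h5
      have h7 : w = 0 := Nat.eq_zero_of_dvd_of_lt h6 hlt
      omega
    · have h5 := special_value ht ht3 hlt hc h3
      rw [hk, h4] at h5
      have h6 : 3 * w ≤ t * w := Nat.mul_le_mul_right _ ht3
      have h7 : 0 < 4 ^ t.factorial := by positivity
      generalize t * w = X at h5 h6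
      omega

/-- two different elements differ by an odd multiple of a power of four -/
theorem Lam_diff {l m : ℕ} (hl : l ∈ Lam) (hm : m ∈ Lam) (hne : l ≠ m) :
    ∃ (j : ℕ) (c : ℤ), Odd c ∧ (l : ℤ) - m = 4 ^ j * c := by
  classical
  have hex : ∃ k, l % 4 ^ k ≠ m % 4 ^ k := by
    obtain ⟨k, hk⟩ : ∃ k, max l m < 4 ^ k := ⟨max l m, Nat.lt_pow_self (by norm_num)⟩
    refine ⟨k, ?_⟩
    rw [Nat.mod_eq_of_lt (lt_of_le_of_lt (le_max_left _ _) hk),
      Nat.mod_eq_of_lt (lt_of_le_of_lt (le_max_right _ _) hk)]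
    exact hne
  have hk0 : Nat.find hex ≠ 0 := by
    intro h0
    have := Nat.find_spec hex
    rw [h0] at this
    simp [Nat.mod_one] at this
  obtain ⟨j, hj⟩ := Nat.exists_eq_succ_of_ne_zero hk0
  have h1 : l % 4 ^ (j + 1) ≠ m % 4 ^ (j + 1) := by
    have := Nat.find_spec hex
    rwa [hj] at this
  have h2 : l % 4 ^ j = m % 4 ^ j := by
    have := Nat.find_min hex (m := j) (by omega)
    simpa using this
  have hml := T_mod (hl (j + 1))
  have hmm := T_mod (hm (j + 1))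
  rw [Nat.mod_mod_of_dvd _ (pow_dvd_pow 4 (Nat.le_succ j))] at hml hmm
  set d := l % 4 ^ (j + 1) / 4 ^ j with hd
  set d' := m % 4 ^ (j + 1) / 4 ^ j with hd'
  have el : l = 4 ^ (j + 1) * (l / 4 ^ (j + 1)) + (4 ^ j * d + l % 4 ^ j) := by
    have e1 := Nat.div_add_mod l (4 ^ (j + 1))
    have e2 := Nat.div_add_mod (l % 4 ^ (j + 1)) (4 ^ j)
    rw [Nat.mod_mod_of_dvd _ (pow_dvd_pow 4 (Nat.le_succ j))] at e2
    rw [← hd] at e2
    omega
  have em : m = 4 ^ (j + 1) * (m / 4 ^ (j + 1)) + (4 ^ j * d' + m % 4 ^ j) := by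
    have e1 := Nat.div_add_mod m (4 ^ (j + 1))
    have e2 := Nat.div_add_mod (m % 4 ^ (j + 1)) (4 ^ j)
    rw [Nat.mod_mod_of_dvd _ (pow_dvd_pow 4 (Nat.le_succ j))] at e2
    rw [← hd'] at e2
    omega
  have hdd : d ≠ d' := by
    intro h
    apply h1
    have e1 := Nat.div_add_mod (l % 4 ^ (j + 1)) (4 ^ j)
    have e2 := Nat.div_add_mod (m % 4 ^ (j + 1)) (4 ^ j)
    rw [Nat.mod_mod_of_dvd _ (pow_dvd_pow 4 (Nat.le_succ j))] at e1 e2
    rw [← e1, ← e2, ← hd, ← hd', h, h2]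
  have hpar : Odd ((d : ℤ) - d') := by
    rw [← h2] at hmm
    rcases hml.2 with a | a <;> rcases hmm.2 with b | b
    · exact absurd (a.trans b.symm) hdd
    · rcases de_cases j (l % 4 ^ j) with x | x <;> rcases dt_cases j (l % 4 ^ j) with y | y <;>
        rw [a, b, x, y] <;> decide
    · rcases dt_cases j (l % 4 ^ j) with x | x <;> rcases de_cases j (l % 4 ^ j) with y | y <;>
        rw [a, b, x, y] <;> decide
    · exact absurd (a.trans b.symm) hdd
  refine ⟨j, 4 * ((l / 4 ^ (j + 1) : ℕ) - (m / 4 ^ (j + 1) : ℕ)) + (d - d'), ?_, ?_⟩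
  · refine Even.add_odd ?_ hpar
    exact (by decide : Even (4 : ℤ)).mul_right _
  · have el' : (l : ℤ) = 4 ^ (j + 1) * (l / 4 ^ (j + 1) : ℕ) + (4 ^ j * d + (l % 4 ^ j : ℕ)) := by
      exact_mod_cast el
    have em' : (m : ℤ) = 4 ^ (j + 1) * (m / 4 ^ (j + 1) : ℕ) + (4 ^ j * d' + (m % 4 ^ j : ℕ)) := by
      exact_mod_cast em
    rw [h2] at el'
    have : (l : ℤ) - m = (4 ^ (j + 1) * (l / 4 ^ (j + 1) : ℕ) + (4 ^ j * d + (m % 4 ^ j : ℕ))) -
      (4 ^ (j + 1) * (m / 4 ^ (j + 1) : ℕ) + (4 ^ j * d' + (m % 4 ^ j : ℕ))) := by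
      rw [← el', ← em']
    rw [this, pow_succ]
    ring

theorem zero_mem_Lam : 0 ∈ Lam := by
  intro k
  rw [Nat.zero_mod]
  induction k with
  | zero => simp [T]
  | succ k ih =>
    have h2 : de k 0 = 0 := by
      unfold de
      rw [if_neg]
      rintro ⟨t, ht, ht3, h⟩
      rw [zero_add] at h
      exact key_not_dvd ht h
    simp only [T, Finset.mem_union, Finset.mem_image]
    exact Or.inl ⟨0, ih, by rw [h2]; simp⟩

theorem four_dvd_pow_fact {t : ℕ} (ht3 : 3 ≤ t) : 4 ∣ 4 ^ t.factorial :=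
  dvd_pow_self 4 (Nat.factorial_pos t).ne'

theorem one_mem_Lam : 1 ∈ Lam := by
  have h1 : ∀ k, 1 ∈ T (k + 1) := by
    intro k
    induction k with
    | zero =>
      have h2 : dt 0 0 = 1 := by
        unfold dt
        rw [if_neg]
        rintro ⟨t, ht, ht3, h⟩
        have h4 := four_dvd_pow_fact ht3
        have h5 : 4 ∣ t * (0 + 4 ^ 0 * 3) := (Nat.dvd_add_left h4).1 (by simpa using h)
        obtain ⟨c, rfl⟩ := ht
        omega
      simp only [T, Finset.mem_union, Finset.mem_image]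
      exact Or.inr ⟨0, by simp, by rw [h2]; simp⟩
    | succ k ih =>
      have h2 : de (k + 1) 1 = 0 := by
        unfold de
        rw [if_neg]
        rintro ⟨t, ht, ht3, h⟩
        have h4 := four_dvd_pow_fact ht3
        have h5 : 4 ∣ t * (1 + 4 ^ (k + 1) * 2) :=
          (Nat.dvd_add_left h4).1 ((dvd_pow_self 4 (by omega)).trans h)
        have h6 : t * (1 + 4 ^ (k + 1) * 2) = t + 4 * (t * (4 ^ k * 2)) := by rw [pow_succ]; ring
        rw [h6] at h5
        have h7 : 4 ∣ t := (Nat.dvd_add_left (Dvd.intro _ rfl)).1 h5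
        obtain ⟨c, rfl⟩ := ht
        omega
      rw [T]
      simp only [Finset.mem_union, Finset.mem_image]
      exact Or.inl ⟨1, ih, by rw [h2]; simp⟩
  intro k
  cases k with
  | zero => simp [T]
  | succ k =>
    rw [Nat.mod_eq_of_lt (Nat.one_lt_pow (by omega) (by norm_num))]
    exact h1 k

theorem four_not_dvd_int {a i : ℕ} {m : ℤ} (h : a ≤ i) (hm : Odd m) :
    ¬ (4 : ℤ) ^ (i + 1) ∣ 4 ^ a * m := by
  intro hd
  have h1 : (4 : ℤ) ^ (a + 1) ∣ 4 ^ a * m := (pow_dvd_pow 4 (by omega)).trans hd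
  rw [pow_succ] at h1
  have h2 : (4 : ℤ) ∣ m := Int.dvd_of_mul_dvd_mul_left (by positivity) h1
  rcases hm with ⟨c, rfl⟩
  omega

theorem E_false {k a b : ℕ} {t s : ℤ} (ht : Odd t) (hs : Odd s) (hab : a < b)
    (h : (4 : ℤ) ^ (k + 1) ∣ 2 * t * s * 4 ^ k + t * 4 ^ a - s * 4 ^ b) : False := by
  rcases le_or_gt a k with ha | ha
  · obtain ⟨c, rfl⟩ := Nat.exists_eq_add_of_le ha
    obtain ⟨e, rfl⟩ := Nat.exists_eq_add_of_lt hab
    have e1 : 2 * t * s * 4 ^ (a + c) + t * 4 ^ a - s * 4 ^ (a + e + 1) =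
        4 ^ a * (t + 2 * (t * s * 4 ^ c - 2 * s * 4 ^ e)) := by
      rw [pow_add, pow_succ, pow_add]; ring
    rw [e1] at h
    exact four_not_dvd_int ha (ht.add_even (even_two_mul _)) h
  · have h1 : (4 : ℤ) ^ (k + 1) ∣ t * 4 ^ a := (pow_dvd_pow 4 ha).mul_left _
    have h2 : (4 : ℤ) ^ (k + 1) ∣ s * 4 ^ b := (pow_dvd_pow 4 (by omega)).mul_left _
    have h3 : (4 : ℤ) ^ (k + 1) ∣ 2 * t * s * 4 ^ k := by
      have := (h.add h2).sub h1
      have e : 2 * t * s * 4 ^ k + t * 4 ^ a - s * 4 ^ b + s * 4 ^ b - t * 4 ^ a =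
        2 * t * s * 4 ^ k := by ring
      rwa [e] at this
    have e : 2 * t * s * 4 ^ k = 4 ^ k * (2 * (t * s)) := by ring
    rw [e, pow_succ] at h3
    have h4 : (4 : ℤ) ∣ 2 * (t * s) := Int.dvd_of_mul_dvd_mul_left (by positivity) h3
    obtain ⟨c, hc⟩ := ht.mul hs
    omega

/-- For odd `t ≥ 3` the numbers `t * l + 4 ^ (t !)` with `l` in `Lam` are odd multiples of powers of
four. -/
theorem Lam_special {t l : ℕ} (ht : Odd t) (ht3 : 3 ≤ t) (hl : l ∈ Lam) :
    ∃ (j c : ℕ), Odd c ∧ t * l + 4 ^ t.factorial = 4 ^ j * c := by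
  have hpos : t * l + 4 ^ t.factorial ≠ 0 := by positivity
  obtain ⟨k, M, hM, hN⟩ := Nat.exists_eq_pow_mul_and_not_dvd hpos 4 (by norm_num)
  refine ⟨k, M, ?_, hN⟩
  by_contra hodd
  rw [Nat.not_odd_iff_even] at hodd
  have hM2 : M % 4 = 2 := by
    obtain ⟨c, hc⟩ := hodd
    omega
  -- the digit of `l`
  have hmem := T_mod (hl (k + 1))
  rw [Nat.mod_mod_of_dvd _ (pow_dvd_pow 4 (Nat.le_succ k))] at hmem
  set r := l % 4 ^ k with hr
  set d := l % 4 ^ (k + 1) / 4 ^ k with hd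
  set q := l / 4 ^ (k + 1) with hq
  have el : l = 4 ^ (k + 1) * q + (4 ^ k * d + r) := by
    have e1 := Nat.div_add_mod l (4 ^ (k + 1))
    have e2 := Nat.div_add_mod (l % 4 ^ (k + 1)) (4 ^ k)
    rw [Nat.mod_mod_of_dvd _ (pow_dvd_pow 4 (Nat.le_succ k)), ← hr, ← hd] at e2
    rw [← hq] at e1
    omega
  have h4 : 4 ^ (k + 1) = 4 ^ k * 4 := pow_succ 4 k
  -- the main congruence
  have hmain : ∀ d' : ℕ, (d' % 4 = (d + 2) % 4) → 4 ^ (k + 1) ∣ t * (r + 4 ^ k * d') +
      4 ^ t.factorial := by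
    intro d' hd'
    have h5 : (t * (r + 4 ^ k * d') + 4 ^ t.factorial) + 4 ^ (k + 1) * (t * q) + 4 ^ k * (t * d) =
        4 ^ k * (M + t * d') := by
      have : t * l + 4 ^ t.factorial = t * (4 ^ (k + 1) * q + (4 ^ k * d + r)) +
        4 ^ t.factorial := by rw [← el]
      rw [hN] at this
      have e6 : 4 ^ k * (M + t * d') = 4 ^ k * M + 4 ^ k * (t * d') := by ring
      rw [e6, this]
      ring
    -- divide by `4 ^ k`
    have h6 : 4 ^ k ∣ t * (r + 4 ^ k * d') + 4 ^ t.factorial := by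
      have e1 : 4 ^ k ∣ 4 ^ k * (M + t * d') := Dvd.intro _ rfl
      rw [← h5] at e1
      have e2 := (Nat.dvd_add_left (Dvd.intro _ rfl : 4 ^ k ∣ 4 ^ k * (t * d))).1 e1
      exact (Nat.dvd_add_left ((pow_dvd_pow 4 (Nat.le_succ k)).trans
        (Dvd.intro _ rfl : 4 ^ (k + 1) ∣ 4 ^ (k + 1) * (t * q)))).1 e2
    obtain ⟨x, hx⟩ := h6
    rw [hx] at h5 ⊢
    have h7 : x + 4 * (t * q) + t * d = M + t * d' := by
      apply Nat.eq_of_mul_eq_mul_left (by positivity : 0 < 4 ^ k)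
      rw [← h5, h4]
      ring
    have h8 : (x + t * d) % 4 = (2 + t * (d + 2)) % 4 := by
      have e1 : (x + t * d) % 4 = (M + t * d') % 4 := by omega
      have e2 : M + t * d' ≡ 2 + t * (d + 2) [MOD 4] :=
        Nat.ModEq.add hM2 (Nat.ModEq.mul_left t hd')
      exact e1.trans e2
    have h9 : x % 4 = 0 := by
      obtain ⟨c, hc⟩ := ht
      have e1 : t * (d + 2) = t * d + 2 * t := by ring
      rw [e1] at h8
      generalize t * d = y at h8
      omega
    rw [h4]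
    exact Nat.mul_dvd_mul_left _ (Nat.dvd_of_mod_eq_zero h9)
  have hFo : ∀ s : ℕ, Odd s → 3 ≤ s → ∀ a b : ℕ, b = a + 2 →
      4 ^ (k + 1) ∣ s * (r + 4 ^ k * b) + 4 ^ s.factorial →
      4 ^ (k + 1) ∣ t * (r + 4 ^ k * a) + 4 ^ t.factorial → False := by
    intro s hs hs3 a b hb h1 h2
    subst hb
    have h1' : (4 : ℤ) ^ (k + 1) ∣ s * (r + 4 ^ k * (a + 2)) + 4 ^ s.factorial := by
      exact_mod_cast Int.natCast_dvd_natCast.2 h1
    have h2' : (4 : ℤ) ^ (k + 1) ∣ t * (r + 4 ^ k * a) + 4 ^ t.factorial := by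
      exact_mod_cast Int.natCast_dvd_natCast.2 h2
    have hE : (4 : ℤ) ^ (k + 1) ∣ 2 * t * s * 4 ^ k + t * 4 ^ s.factorial - s * 4 ^ t.factorial := by
      have := (h1'.mul_left (t : ℤ)).sub (h2'.mul_left (s : ℤ))
      have e : (t : ℤ) * (s * (r + 4 ^ k * (a + 2)) + 4 ^ s.factorial) -
        s * (t * (r + 4 ^ k * a) + 4 ^ t.factorial) =
        2 * t * s * 4 ^ k + t * 4 ^ s.factorial - s * 4 ^ t.factorial := by ring
      rwa [e] at this
    have hto : Odd (t : ℤ) := by exact_mod_cast ht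
    have hso : Odd (s : ℤ) := by exact_mod_cast hs
    rcases lt_trichotomy s t with hlt | heq | hgt
    · have hf : s.factorial < t.factorial := (Nat.factorial_lt (by omega)).2 hlt
      exact E_false hto hso hf (by
        have := hE
        exact this) 
    · subst heq
      have e : (2 * s * s * 4 ^ k + s * 4 ^ s.factorial - s * 4 ^ s.factorial : ℤ) =
        ((4 ^ k * (2 * (s * s)) : ℕ) : ℤ) := by push_cast; ring
      rw [e] at hE
      have h5 : 4 ^ (k + 1) ∣ 4 ^ k * (2 * (s * s)) := by exact_mod_cast hE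
      exact two_mul_not_dvd (hs.mul hs) h5
    · have hf : t.factorial < s.factorial := (Nat.factorial_lt (by omega)).2 hgt
      refine E_false (k := k) hso.neg hto.neg hf ?_
      have e : 2 * (-(s : ℤ)) * (-(t : ℤ)) * 4 ^ k + (-(s : ℤ)) * 4 ^ t.factorial -
        (-(t : ℤ)) * 4 ^ s.factorial =
        2 * t * s * 4 ^ k + t * 4 ^ s.factorial - s * 4 ^ t.factorial := by ring
      rw [e]
      exact hE
  rcases hmem.2 with hde | hdt
  · rcases de_cases k r with h0 | h0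
    · have hF : Fo k r 2 := ⟨t, ht, ht3, hmain 2 (by rw [hde, h0])⟩
      unfold de at h0
      rw [if_pos hF] at h0
      omega
    · have hF : Fo k r 2 := by
        unfold de at h0
        by_contra hc
        rw [if_neg hc] at h0
        omega
      obtain ⟨s, hs, hs3, hs4⟩ := hF
      exact hFo s hs hs3 0 2 rfl hs4 (hmain 0 (by rw [hde, h0]))
  · rcases dt_cases k r with h0 | h0
    · have hF : Fo k r 3 := ⟨t, ht, ht3, hmain 3 (by rw [hdt, h0])⟩
      unfold dt at h0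
      rw [if_pos hF] at h0
      omega
    · have hF : Fo k r 3 := by
        unfold dt at h0
        by_contra hc
        rw [if_neg hc] at h0
        omega
      obtain ⟨s, hs, hs3, hs4⟩ := hF
      exact hFo s hs hs3 1 3 rfl hs4 (hmain 1 (by rw [hdt, h0]))

end Pool.Agent.V1187.CN
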