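import Pool.Agent.V1187.Cantor4
import Pool.Agent.V1187.Tree4

/-!
# The characteristic function of the Cantor measure of scale four
-/

set_option autoImplicit false

open Set MeasureTheory Filter Topology

namespace Pool.Agent.V1187.CN

theorem mu4_integral {E : Type*} [NormedAddCommGroup E] [NormedSpace ℝ E] {φ : ℝ → E}
    (hφ : Continuous φ) : ∫ x, φ x ∂mu4 = ∫ x in (0:ℝ)..1, φ (G x) := by
  unfold mu4
  rw [integral_map measurable_G.aemeasurable hφ.aestronglyMeasurable,
    intervalIntegral.integral_of_le zero_le_one]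

theorem charFun_mu4 (t : ℝ) : charFun mu4 t =
    ((1 + Complex.exp ((t / 2 : ℝ) * Complex.I)) / 2) * charFun mu4 (t / 4) := by
  have hc : ∀ t : ℝ, Continuous (fun x : ℝ => Complex.exp (t * x * Complex.I)) := by
    intro t; fun_prop
  rw [charFun_apply_real, charFun_apply_real, mu4_integral (hc t),
    mu4_integral (φ := fun x => Complex.exp (((t / 4 : ℝ) : ℂ) * x * Complex.I)) (hc _)]
  have hint : ∀ a b : ℝ, IntervalIntegrable (fun x => Complex.exp (t * (G x : ℂ) * Complex.I))
      volume a b := by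
    intro a b
    apply MeasureTheory.IntegrableOn.intervalIntegrable
    apply Measure.integrableOn_of_bounded (M := 1)
    · simp
    · have : Measurable fun x => Complex.exp (t * (G x : ℂ) * Complex.I) := by
        have := measurable_G
        fun_prop
      exact this.aestronglyMeasurable
    · refine Eventually.of_forall fun x => ?_
      have : (t * (G x : ℂ) * Complex.I) = ((t * G x : ℝ) : ℂ) * Complex.I := by push_cast; ring
      rw [this, Complex.norm_exp_ofReal_mul_I]
  have := self_similar (fun x : ℝ => Complex.exp (t * x * Complex.I)) hint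
  rw [this]
  have e1 : ∀ x, Complex.exp (t * ((1 / 2 + G x / 4 : ℝ) : ℂ) * Complex.I) =
      Complex.exp ((t / 2 : ℝ) * Complex.I) * Complex.exp (((t / 4 : ℝ) : ℂ) * (G x : ℂ) * Complex.I) := by
    intro x
    rw [← Complex.exp_add]
    congr 1
    push_cast
    ring
  have e2 : ∀ x, Complex.exp (t * ((G x / 4 : ℝ) : ℂ) * Complex.I) =
      Complex.exp (((t / 4 : ℝ) : ℂ) * (G x : ℂ) * Complex.I) := by
    intro x
    congr 1
    push_cast
    ring
  simp only [e1, e2]
  rw [intervalIntegral.integral_const_mul]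
  simp only [Complex.real_smul]
  push_cast
  ring

/-- the squared modulus of the Fourier transform -/
noncomputable def p (y : ℝ) : ℝ := ‖charFun mu4 (2 * Real.pi * y)‖ ^ 2

theorem p_nonneg (y : ℝ) : 0 ≤ p y := sq_nonneg _

theorem p_le_one (y : ℝ) : p y ≤ 1 := by
  unfold p
  exact pow_le_one₀ (norm_nonneg _) (norm_charFun_le_one _)

theorem p_zero : p 0 = 1 := by
  unfold p
  rw [mul_zero, charFun_zero]
  simp

theorem p_neg (y : ℝ) : p (-y) = p y := by
  unfold p
  rw [mul_neg, charFun_neg, RCLike.norm_conj]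

theorem p_continuous : Continuous p := by
  unfold p
  have := continuous_charFun (μ := mu4)
  fun_prop

theorem norm_sq_one_add_exp (θ : ℝ) :
    ‖(1 + Complex.exp (θ * Complex.I)) / 2‖ ^ 2 = Real.cos (θ / 2) ^ 2 := by
  have h1 : 1 + Complex.exp (θ * Complex.I) =
      2 * (Real.cos (θ / 2) : ℂ) * Complex.exp ((θ / 2 : ℝ) * Complex.I) := by
    rw [Complex.ofReal_cos, Complex.cos]
    have e : Complex.exp (θ * Complex.I) = Complex.exp ((θ / 2 : ℝ) * Complex.I) *
        Complex.exp ((θ / 2 : ℝ) * Complex.I) := by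
      rw [← Complex.exp_add]; congr 1; push_cast; ring
    have e2 : Complex.exp (-((θ / 2 : ℝ) : ℂ) * Complex.I) * Complex.exp ((θ / 2 : ℝ) * Complex.I) = 1 := by
      rw [← Complex.exp_add]; simp
    rw [e]
    linear_combination (-1 : ℂ) * e2
  rw [h1]
  have h2 : (2 * (Real.cos (θ / 2) : ℂ) * Complex.exp ((θ / 2 : ℝ) * Complex.I)) / 2 =
      (Real.cos (θ / 2) : ℂ) * Complex.exp ((θ / 2 : ℝ) * Complex.I) := by ring
  rw [h2, norm_mul, Complex.norm_exp_ofReal_mul_I, mul_one, Complex.norm_real, Real.norm_eq_abs,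
    sq_abs]

theorem p_eq (y : ℝ) : p y = Real.cos (Real.pi * y / 2) ^ 2 * p (y / 4) := by
  unfold p
  rw [charFun_mu4, norm_mul, mul_pow, norm_sq_one_add_exp]
  have e1 : 2 * Real.pi * y / 2 / 2 = Real.pi * y / 2 := by ring
  have e2 : 2 * Real.pi * y / 4 = 2 * Real.pi * (y / 4) := by ring
  rw [e1, e2]

/-- the finite products -/
noncomputable def W (k : ℕ) (y : ℝ) : ℝ :=
  ∏ i ∈ Finset.range k, Real.cos (Real.pi * (y / 4 ^ i) / 2) ^ 2

theorem p_iter (k : ℕ) (y : ℝ) : p y = W k y * p (y / 4 ^ k) := by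
  induction k with
  | zero => simp [W]
  | succ k ih =>
    rw [ih, W, W, Finset.prod_range_succ, p_eq (y / 4 ^ k)]
    rw [pow_succ, div_div]
    ring

theorem W_nonneg (k : ℕ) (y : ℝ) : 0 ≤ W k y := Finset.prod_nonneg fun _ _ => sq_nonneg _

theorem p_odd (j : ℕ) {c : ℤ} (hc : Odd c) : p (4 ^ j * c) = 0 := by
  induction j with
  | zero =>
    rw [p_eq]
    obtain ⟨m, rfl⟩ := hc
    have : Real.cos (Real.pi * (4 ^ 0 * ((2 * m + 1 : ℤ) : ℝ)) / 2) = 0 := by
      rw [Real.cos_eq_zero_iff]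
      exact ⟨m, by push_cast; ring⟩
    rw [this]
    simp
  | succ j ih =>
    rw [p_eq]
    have : (4 : ℝ) ^ (j + 1) * c / 4 = 4 ^ j * c := by rw [pow_succ]; ring
    rw [this, ih, mul_zero]

theorem tendsto_div_pow (y : ℝ) : Tendsto (fun k : ℕ => y / 4 ^ k) atTop (𝓝 0) := by
  have := (tendsto_pow_atTop_nhds_zero_of_lt_one (r := (1 / 4 : ℝ)) (by norm_num)
    (by norm_num)).const_mul y
  rw [mul_zero] at this
  refine this.congr fun k => ?_
  rw [div_pow, one_pow]
  ring

theorem tendsto_p (y : ℝ) : Tendsto (fun k : ℕ => p (y / 4 ^ k)) atTop (𝓝 1) := by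
  have := (p_continuous.tendsto 0).comp (tendsto_div_pow y)
  rwa [p_zero] at this

theorem of_p_eq_zero {y : ℝ} (h : p y = 0) : ∃ (j : ℕ) (c : ℤ), Odd c ∧ y = 4 ^ j * c := by
  obtain ⟨k, hk⟩ := ((tendsto_p y).eventually (lt_mem_nhds (by norm_num : (0:ℝ) < 1))).exists
  rw [p_iter k y] at h
  have hW : W k y = 0 := (mul_eq_zero.1 h).resolve_right hk.ne'
  unfold W at hW
  rw [Finset.prod_eq_zero_iff] at hW
  obtain ⟨i, -, hi⟩ := hW
  have hi' : Real.cos (Real.pi * (y / 4 ^ i) / 2) = 0 := pow_eq_zero_iff two_ne_zero |>.1 hi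
  rw [Real.cos_eq_zero_iff] at hi'
  obtain ⟨m, hm⟩ := hi'
  refine ⟨i, 2 * m + 1, ⟨m, rfl⟩, ?_⟩
  have hpi := Real.pi_ne_zero
  have h4 : (4 : ℝ) ^ i ≠ 0 := by positivity
  field_simp at hm
  push_cast
  linarith

theorem p_lower : ∃ c : ℝ, 0 < c ∧ ∀ y : ℝ, |y| ≤ 5 / 8 → c ≤ p y := by
  have hcomp : IsCompact (Icc (-(5 / 8 : ℝ)) (5 / 8)) := isCompact_Icc
  obtain ⟨y0, hy0, hmin⟩ := hcomp.exists_isMinOn ⟨0, by norm_num, by norm_num⟩
    p_continuous.continuousOn
  refine ⟨p y0, ?_, fun y hy => hmin (abs_le.1 hy)⟩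
  rcases (p_nonneg y0).eq_or_lt with h | h
  · exfalso
    obtain ⟨j, c, hc, hy⟩ := of_p_eq_zero h.symm
    have h1 : |y0| ≤ 5 / 8 := abs_le.2 hy0
    rw [hy, abs_mul, abs_of_pos (by positivity : (0:ℝ) < 4 ^ j)] at h1
    have h2 : (1 : ℝ) ≤ 4 ^ j := one_le_pow₀ (by norm_num)
    have h3 : (1 : ℝ) ≤ |(c : ℝ)| := by
      have : 1 ≤ |c| := Int.one_le_abs (by rintro rfl; exact absurd hc (by decide))
      exact_mod_cast this
    nlinarith
  · exact h

/-! ### Sums over the nodes -/

theorem cos_sq_add (θ : ℝ) (n : ℤ) :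
    Real.cos (θ + Real.pi * n) ^ 2 = Real.cos θ ^ 2 := by
  have := Real.cos_add_int_mul_pi θ n
  rw [mul_comm] at this
  rw [this, mul_pow]
  have : ((-1 : ℝ) ^ n) ^ 2 = 1 := by
    rw [← zpow_natCast, ← zpow_mul, mul_comm, zpow_mul]
    simp
  rw [this, one_mul]

theorem W_periodic (k : ℕ) (y : ℝ) (d : ℕ) : W k (y + 4 ^ k * d) = W k y := by
  unfold W
  refine Finset.prod_congr rfl fun i hi => ?_
  have hik := Finset.mem_range.1 hi
  obtain ⟨m, rfl⟩ := Nat.exists_eq_add_of_lt hik
  have : Real.pi * ((y + 4 ^ (i + m + 1) * d) / 4 ^ i) / 2 =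
      Real.pi * (y / 4 ^ i) / 2 + Real.pi * ((2 * 4 ^ m * d : ℕ) : ℤ) := by
    have h4 : (4 : ℝ) ^ i ≠ 0 := by positivity
    push_cast
    rw [pow_succ, pow_add]
    field_simp
    ring
  rw [this, cos_sq_add]

theorem cos_even_odd (θ : ℝ) {a b : ℕ} (ha : a = 0 ∨ a = 2) (hb : b = 1 ∨ b = 3) :
    Real.cos (θ + Real.pi * a / 2) ^ 2 + Real.cos (θ + Real.pi * b / 2) ^ 2 = 1 := by
  have h0 := Real.sin_sq_add_cos_sq θ
  have ea : Real.cos (θ + Real.pi * a / 2) ^ 2 = Real.cos θ ^ 2 := by
    rcases ha with rfl | rfl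
    · simp
    · have : θ + Real.pi * ((2 : ℕ) : ℝ) / 2 = θ + Real.pi * ((1 : ℤ) : ℝ) := by push_cast; ring
      rw [this, cos_sq_add]
  have eb : Real.cos (θ + Real.pi * b / 2) ^ 2 = Real.sin θ ^ 2 := by
    rcases hb with rfl | rfl
    · have : θ + Real.pi * ((1 : ℕ) : ℝ) / 2 = θ + Real.pi / 2 := by push_cast; ring
      rw [this, Real.cos_add_pi_div_two, neg_sq]
    · have : θ + Real.pi * ((3 : ℕ) : ℝ) / 2 = (θ + Real.pi / 2) + Real.pi * ((1 : ℤ) : ℝ) := by
        push_cast; ring
      rw [this, cos_sq_add, Real.cos_add_pi_div_two, neg_sq]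
  rw [ea, eb]
  linarith

theorem sum_W (k : ℕ) (y : ℝ) : ∑ w ∈ T k, W k (y + w) = 1 := by
  induction k with
  | zero => simp [T, W]
  | succ k ih =>
    have hinj : ∀ (f : ℕ → ℕ), Set.InjOn (fun w => w + 4 ^ k * f w) (T k : Set ℕ) := by
      intro f a ha b hb hab
      have h1 := T_lt ha
      have h2 := T_lt hb
      have := congrArg (· % 4 ^ k) hab
      simpa [Nat.add_mul_mod_self_left, Nat.mod_eq_of_lt h1, Nat.mod_eq_of_lt h2] using this
    have hdisj : Disjoint ((T k).image (fun w => w + 4 ^ k * de k w))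
        ((T k).image (fun w => w + 4 ^ k * dt k w)) := by
      rw [Finset.disjoint_left]
      intro x h1 h2
      obtain ⟨a, ha, rfl⟩ := Finset.mem_image.1 h1
      obtain ⟨b, hb, hab⟩ := Finset.mem_image.1 h2
      have h1 := T_lt ha
      have h2 := T_lt hb
      have e1 := congrArg (· % 4 ^ k) hab
      simp only [Nat.add_mul_mod_self_left, Nat.mod_eq_of_lt h1, Nat.mod_eq_of_lt h2] at e1
      subst e1
      have h3 : 4 ^ k * dt k b = 4 ^ k * de k b := by omega
      have h4 : dt k b = de k b := Nat.eq_of_mul_eq_mul_left (by positivity) h3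
      rcases de_cases k b with x | x <;> rcases dt_cases k b with z | z <;> omega
    rw [T, Finset.sum_union hdisj, Finset.sum_image (hinj _), Finset.sum_image (hinj _),
      ← Finset.sum_add_distrib, ← ih]
    refine Finset.sum_congr rfl fun w _ => ?_
    have key : ∀ d : ℕ, W (k + 1) (y + ((w + 4 ^ k * d : ℕ) : ℝ)) =
        W k (y + w) * Real.cos (Real.pi * ((y + w) / 4 ^ k) / 2 + Real.pi * d / 2) ^ 2 := by
      intro d
      have e0 : y + ((w + 4 ^ k * d : ℕ) : ℝ) = (y + w) + 4 ^ k * d := by push_cast; ring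
      rw [e0]
      have e1 : W (k + 1) ((y + w) + 4 ^ k * d) = W k ((y + w) + 4 ^ k * d) *
          Real.cos (Real.pi * (((y + w) + 4 ^ k * d) / 4 ^ k) / 2) ^ 2 := by
        unfold W
        rw [Finset.prod_range_succ]
      rw [e1, W_periodic]
      congr 3
      have h4 : (4 : ℝ) ^ k ≠ 0 := by positivity
      field_simp
    rw [key, key, ← mul_add, cos_even_odd _ (de_cases k w) (dt_cases k w), mul_one]

theorem fact_atTop : Tendsto Nat.factorial atTop atTop :=
  tendsto_atTop_mono Nat.self_le_factorial tendsto_id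

theorem tendsto_W (z : ℝ) : Tendsto (fun i : ℕ => W (i.factorial) z) atTop (𝓝 (p z)) := by
  have h2 : Tendsto (fun k : ℕ => p z / p (z / 4 ^ k)) atTop (𝓝 (p z / 1)) :=
    tendsto_const_nhds.div (tendsto_p z) one_ne_zero
  rw [div_one] at h2
  have h3 : Tendsto (fun k : ℕ => W k z) atTop (𝓝 (p z)) := by
    refine h2.congr' ?_
    filter_upwards [(tendsto_p z).eventually (lt_mem_nhds (by norm_num : (0:ℝ) < 1))] with k hk
    rw [p_iter k z]
    field_simp
  exact h3.comp fact_atTop

/-- The nodes of level `j !` catch the whole mass in the limit. -/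
theorem tendsto_mass (y : ℝ) :
    ∀ ε : ℝ, 0 < ε → ∃ j : ℕ, 1 - ε < ∑ w ∈ T (j.factorial), p (y + w) := by
  obtain ⟨c, hc, hcp⟩ := p_lower
  set S : ℕ → ℝ := fun j => ∑ w ∈ T (j.factorial), p (y + w) with hS
  have hle : ∀ j, S j ≤ 1 := by
    intro j
    rw [← sum_W (j.factorial) y]
    refine Finset.sum_le_sum fun w _ => ?_
    rw [p_iter (j.factorial) (y + w)]
    exact mul_le_of_le_one_right (W_nonneg _ _) (p_le_one _)
  have hsub : ∀ i j : ℕ, i ≤ j → T (i.factorial) ⊆ T (j.factorial) := by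
    intro i j hij w hw
    have h1 := T_special_mem hw (j.factorial)
    have h2 : w < 4 ^ j.factorial :=
      (T_lt hw).trans_le (Nat.pow_le_pow_right (by norm_num) (Nat.factorial_le hij))
    rwa [Nat.mod_eq_of_lt h2] at h1
  -- the supremum
  have hbdd : BddAbove (Set.range S) := ⟨1, by rintro _ ⟨j, rfl⟩; exact hle j⟩
  set s := ⨆ j, S j with hs
  have hSs : ∀ j, S j ≤ s := fun j => le_ciSup hbdd j
  have hmain : ∀ j, S j + c * (1 - S j) ≤ s := by
    intro j
    -- for large `i`
    have hev : ∀ᶠ i : ℕ in atTop, j ≤ i ∧ |y| ≤ 4 ^ i.factorial / 8 := by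
      have h1 : Tendsto (fun i : ℕ => (4 : ℝ) ^ i.factorial / 8) atTop atTop := by
        apply Tendsto.atTop_div_const (by norm_num)
        exact (tendsto_pow_atTop_atTop_of_one_lt (by norm_num)).comp fact_atTop
      exact (eventually_ge_atTop j).and (h1.eventually (eventually_ge_atTop _))
    have hstep : ∀ᶠ i : ℕ in atTop, S j + c * (1 - ∑ w ∈ T (j.factorial),
        W (i.factorial) (y + w)) ≤ s := by
      filter_upwards [hev] with i hi
      obtain ⟨hji, hy⟩ := hi
      have hT := hsub j i hji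
      have h1 : ∑ w ∈ T (i.factorial) \ T (j.factorial), p (y + w) + S j = S i :=
        Finset.sum_sdiff hT
      have h2 : ∑ w ∈ T (i.factorial) \ T (j.factorial), W (i.factorial) (y + w) +
          ∑ w ∈ T (j.factorial), W (i.factorial) (y + w) = 1 := by
        rw [Finset.sum_sdiff hT]
        exact sum_W _ _
      have h3 : c * ∑ w ∈ T (i.factorial) \ T (j.factorial), W (i.factorial) (y + w) ≤
          ∑ w ∈ T (i.factorial) \ T (j.factorial), p (y + w) := by
        rw [Finset.mul_sum]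
        refine Finset.sum_le_sum fun w hw => ?_
        have hwT := (Finset.mem_sdiff.1 hw).1
        rw [p_iter (i.factorial) (y + w), mul_comm]
        apply mul_le_mul_of_nonneg_left _ (W_nonneg _ _)
        apply hcp
        have h4 : (0 : ℝ) < 4 ^ i.factorial := by positivity
        rw [abs_div, abs_of_pos h4, div_le_iff₀ h4]
        have h5 : (2 : ℝ) * w < 4 ^ i.factorial := by exact_mod_cast T_special_lt hwT
        have h6 : |y + w| ≤ |y| + w := by
          refine (abs_add_le _ _).trans ?_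
          rw [abs_of_nonneg (Nat.cast_nonneg w : (0 : ℝ) ≤ w)]
        linarith
      have h4 := hSs i
      nlinarith
    have hlim : Tendsto (fun i : ℕ => S j + c * (1 - ∑ w ∈ T (j.factorial),
        W (i.factorial) (y + w))) atTop (𝓝 (S j + c * (1 - S j))) := by
      have h1 : Tendsto (fun i : ℕ => ∑ w ∈ T (j.factorial), W (i.factorial) (y + w)) atTop
          (𝓝 (∑ w ∈ T (j.factorial), p (y + w))) :=
        tendsto_finsetSum _ fun w _ => tendsto_W (y + w)
      exact ((h1.const_sub 1).const_mul c).const_add (S j)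
    exact le_of_tendsto hlim hstep
  have hs1 : 1 ≤ s := by
    by_contra hcon
    push Not at hcon
    -- choose `j` with `S j` close to `s`
    have hc1 : 0 < c * (1 - s) := mul_pos hc (by linarith)
    obtain ⟨j, hj⟩ := exists_lt_of_lt_ciSup (show s - c * (1 - s) < s by linarith)
    have h1 := hmain j
    have h2 := hSs j
    have h3 : c * (1 - s) ≤ c * (1 - S j) := mul_le_mul_of_nonneg_left (by linarith) hc.le
    have h4 : s - c * (1 - s) < S j := hj
    linarith
  intro ε hε
  obtain ⟨j, hj⟩ := exists_lt_of_lt_ciSup (show 1 - ε < s by linarith)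
  exact ⟨j, hj⟩

end Pool.Agent.V1187.CN
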