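import Pool.Agent.V1187.SpecPair

/-!
# Infinite convolutions of uniform measures: characteristic functions
-/

set_option autoImplicit false

open MeasureTheory Filter Topology

namespace Pool.Agent.V1187.CS

open Pool.Agent.V1187.SP

/-- The product `N₁ ⋯ N_k`; here `N i` stands for `N_{i+1}` of the text. -/
def P (N : ℕ → ℕ) (k : ℕ) : ℕ := ∏ i ∈ Finset.range k, N i

/-- The measure `ν_{k+1}` of the text: the uniform probability on the points
`j / (N₁ ⋯ N_{k+1})`, `0 ≤ j < N_{k+1}`. -/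
noncomputable def nu (N : ℕ → ℕ) (k : ℕ) : Measure ℝ :=
  (N k : ENNReal)⁻¹ • ∑ j ∈ Finset.range (N k), Measure.dirac ((j : ℝ) / P N (k + 1))

/-- The convolution of the first `n` measures of a sequence. -/
noncomputable def convN (s : ℕ → Measure ℝ) : ℕ → Measure ℝ
  | 0 => Measure.dirac 0
  | n + 1 => Measure.conv (convN s n) (s n)

/-- `μ` is the infinite convolution of the sequence `s`: the probability measures
`s 0 * ⋯ * s (n-1)` converge weakly to the probability measure `μ`. -/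
def IsInfConv (s : ℕ → Measure ℝ) (μ : Measure ℝ) : Prop :=
  ∃ (ρ : ℕ → ProbabilityMeasure ℝ) (ρ₀ : ProbabilityMeasure ℝ),
    (∀ n, (ρ n : Measure ℝ) = convN s n) ∧ (ρ₀ : Measure ℝ) = μ ∧ Tendsto ρ atTop (𝓝 ρ₀)

theorem P_zero (N : ℕ → ℕ) : P N 0 = 1 := by simp [P]

theorem P_succ (N : ℕ → ℕ) (k : ℕ) : P N (k + 1) = P N k * N k := by
  simp [P, Finset.prod_range_succ]

theorem P_pos {N : ℕ → ℕ} (hN : ∀ k, 2 ≤ N k) (k : ℕ) : 0 < P N k :=
  Finset.prod_pos fun i _ => by have := hN i; omega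

theorem P_dvd (N : ℕ → ℕ) {i k : ℕ} (h : i ≤ k) : P N i ∣ P N k := by
  unfold P
  exact Finset.prod_dvd_prod_of_subset _ _ _ (Finset.range_mono h)

theorem P_succ_ge {N : ℕ → ℕ} (hN : ∀ k, 2 ≤ N k) (k : ℕ) : 2 * P N k ≤ P N (k + 1) := by
  rw [P_succ, mul_comm]
  exact Nat.mul_le_mul_left _ (hN k)

theorem two_pow_le_P {N : ℕ → ℕ} (hN : ∀ k, 2 ≤ N k) (k : ℕ) : 2 ^ k ≤ P N k := by
  induction k with
  | zero => simp [P_zero]
  | succ k ih =>
    have := P_succ_ge hN k
    rw [pow_succ]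
    omega

theorem isProb_nu {N : ℕ → ℕ} (hN : ∀ k, 2 ≤ N k) (k : ℕ) : IsProbabilityMeasure (nu N k) := by
  constructor
  have h0 : (N k : ENNReal) ≠ 0 := by
    have := hN k
    exact_mod_cast (by omega : N k ≠ 0)
  simp only [nu, Measure.smul_apply, Measure.finset_sum_apply, measure_univ, Finset.sum_const,
    Finset.card_range, smul_eq_mul, nsmul_eq_mul, mul_one]
  exact ENNReal.inv_mul_cancel h0 (ENNReal.natCast_ne_top _)

/-- the average of `exp (2 π i j u)`, `0 ≤ j < n` -/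
noncomputable def M (n : ℕ) (u : ℝ) : ℂ :=
  (n : ℂ)⁻¹ * ∑ j ∈ Finset.range n, Complex.exp ((2 * Real.pi * j * u : ℝ) * Complex.I)

theorem charFun_nu (N : ℕ → ℕ) (k : ℕ) (ξ : ℝ) :
    charFun (nu N k) (2 * Real.pi * ξ) = M (N k) (ξ / P N (k + 1)) := by
  rw [charFun_apply_real, nu, integral_smul_measure, integral_finsetSum_measure]
  · simp only [integral_dirac, M]
    rw [ENNReal.toReal_inv, ENNReal.toReal_natCast, Complex.real_smul]
    push_cast
    congr 1
    refine Finset.sum_congr rfl fun j _ => ?_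
    congr 1
    ring
  · intro j _
    exact integrable_dirac (by simp [enorm_lt_top])

theorem isProb_convN {s : ℕ → Measure ℝ} (hs : ∀ n, IsProbabilityMeasure (s n)) (n : ℕ) :
    IsProbabilityMeasure (convN s n) := by
  induction n with
  | zero => exact inferInstanceAs (IsProbabilityMeasure (Measure.dirac (0 : ℝ)))
  | succ n ih =>
    have := hs n
    exact inferInstanceAs (IsProbabilityMeasure (Measure.conv (convN s n) (s n)))

theorem charFun_convN {s : ℕ → Measure ℝ} (hs : ∀ n, IsProbabilityMeasure (s n)) (n : ℕ) (t : ℝ) :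
    charFun (convN s n) t = ∏ i ∈ Finset.range n, charFun (s i) t := by
  induction n with
  | zero => simp [convN]
  | succ n ih =>
    have := hs n
    have := isProb_convN hs n
    rw [Finset.prod_range_succ, ← ih]
    show charFun (Measure.conv (convN s n) (s n)) t = _
    rw [charFun_conv]

theorem tendsto_charFun {s : ℕ → Measure ℝ} {μ : Measure ℝ} (h : IsInfConv s μ) (t : ℝ) :
    Tendsto (fun n => charFun (convN s n) t) atTop (𝓝 (charFun μ t)) := by
  obtain ⟨ρ, ρ₀, h1, rfl, hl⟩ := h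
  have := (ProbabilityMeasure.tendsto_iff_tendsto_charFun.1 hl) t
  refine this.congr fun n => ?_
  rw [h1]

theorem isProb_infConv {s : ℕ → Measure ℝ} {μ : Measure ℝ} (h : IsInfConv s μ) :
    IsProbabilityMeasure μ := by
  obtain ⟨ρ, ρ₀, h1, rfl, hl⟩ := h
  infer_instance

/-! ## The factors -/

/-- squared modulus of the average -/
noncomputable def m (n : ℕ) (u : ℝ) : ℝ := ‖M n u‖ ^ 2

theorem m_nonneg (n : ℕ) (u : ℝ) : 0 ≤ m n u := sq_nonneg _

theorem norm_M_le (n : ℕ) (u : ℝ) : ‖M n u‖ ≤ 1 := by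
  rcases Nat.eq_zero_or_pos n with h | h
  · simp [M, h]
  · have hn : (0 : ℝ) < n := by exact_mod_cast h
    rw [M, norm_mul, norm_inv, Complex.norm_natCast]
    have h1 : ‖∑ j ∈ Finset.range n, Complex.exp ((2 * Real.pi * j * u : ℝ) * Complex.I)‖ ≤ n := by
      refine (norm_sum_le _ _).trans ?_
      simp only [Complex.norm_exp_ofReal_mul_I, Finset.sum_const, Finset.card_range, nsmul_eq_mul,
        mul_one, le_refl]
    rw [inv_mul_le_iff₀ hn, mul_one]
    exact h1

theorem m_le_one (n : ℕ) (u : ℝ) : m n u ≤ 1 := by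
  rw [m, sq_le_one_iff₀ (norm_nonneg _)]
  exact norm_M_le n u

theorem M_zero_right {n : ℕ} (h : n ≠ 0) : M n 0 = 1 := by
  have : (n : ℂ) ≠ 0 := by exact_mod_cast h
  simp [M, this]

/-- The average vanishes exactly when `n u` is an integer and `u` is not. -/
theorem M_eq_zero_iff {n : ℕ} (hn : n ≠ 0) (u : ℝ) :
    M n u = 0 ↔ (∃ l : ℤ, n * u = l) ∧ ¬ ∃ l : ℤ, u = l := by
  have hn' : (n : ℂ) ≠ 0 := by exact_mod_cast hn
  set z : ℂ := Complex.exp ((2 * Real.pi * u : ℝ) * Complex.I) with hz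
  have hsum : M n u = (n : ℂ)⁻¹ * ∑ j ∈ Finset.range n, z ^ j := by
    rw [M]
    congr 1
    refine Finset.sum_congr rfl fun j _ => ?_
    rw [hz, ← Complex.exp_nat_mul]
    congr 1
    push_cast
    ring
  have hz1 : ∀ v : ℝ, Complex.exp ((2 * Real.pi * v : ℝ) * Complex.I) = 1 ↔ ∃ l : ℤ, v = l := by
    intro v
    rw [Complex.exp_eq_one_iff]
    constructor
    · rintro ⟨l, hl⟩
      refine ⟨l, ?_⟩
      have h2 : ((2 * Real.pi * v : ℝ) : ℂ) = ((l * (2 * Real.pi) : ℝ) : ℂ) := by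
        apply mul_right_cancel₀ Complex.I_ne_zero
        rw [hl]
        push_cast
        ring
      have h3 : 2 * Real.pi * v = l * (2 * Real.pi) := by exact_mod_cast h2
      have hpi := Real.pi_pos
      have h4 : (2 * Real.pi) * (v - l) = 0 := by linarith
      rcases mul_eq_zero.1 h4 with h | h
      · exact absurd h (by positivity)
      · linarith
    · rintro ⟨l, hl⟩
      refine ⟨l, ?_⟩
      rw [hl]
      push_cast
      ring
  have hzn : z ^ n = 1 ↔ ∃ l : ℤ, n * u = l := by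
    rw [← hz1, hz, ← Complex.exp_nat_mul]
    have : (n : ℂ) * ((2 * Real.pi * u : ℝ) * Complex.I)
        = ((2 * Real.pi * (n * u) : ℝ) : ℂ) * Complex.I := by push_cast; ring
    rw [this]
  constructor
  · intro h
    rw [hsum, mul_eq_zero] at h
    rcases h with h | h
    · exact absurd h (inv_ne_zero hn')
    · have hne : z ≠ 1 := by
        intro h1
        rw [h1] at h
        simp only [one_pow, Finset.sum_const, Finset.card_range, nsmul_eq_mul, mul_one] at h
        exact hn' h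
      refine ⟨?_, ?_⟩
      · rw [← hzn]
        have hg := geom_sum_mul z n
        rw [h, zero_mul] at hg
        exact (sub_eq_zero.1 hg.symm)
      · rw [← hz1]
        exact hne
  · rintro ⟨h1, h2⟩
    rw [← hz1] at h2
    rw [← hzn] at h1
    have hg := geom_sum_mul z n
    rw [h1, sub_self] at hg
    rcases mul_eq_zero.1 hg with h | h
    · rw [hsum, h, mul_zero]
    · exact absurd (sub_eq_zero.1 h) h2

/-- lower bound near the origin -/
theorem m_ge (n : ℕ) (hn : n ≠ 0) (u : ℝ) : 1 - Real.pi ^ 2 * (n * u) ^ 2 ≤ m n u := by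
  have hn' : (0 : ℝ) < n := by exact_mod_cast Nat.pos_of_ne_zero hn
  have key : 1 - Real.pi ^ 2 * (n * u) ^ 2 / 2 ≤ ‖M n u‖ := by
    -- rotate by the middle phase
    set θ : ℝ := -(Real.pi * (n - 1) * u) with hθ
    have h1 : ‖M n u‖ = ‖Complex.exp ((θ : ℝ) * Complex.I) * M n u‖ := by
      rw [norm_mul, Complex.norm_exp_ofReal_mul_I, one_mul]
    have h2 : Complex.exp ((θ : ℝ) * Complex.I) * M n u = (n : ℂ)⁻¹ *
        ∑ j ∈ Finset.range n, Complex.exp (((2 * Real.pi * j * u + θ : ℝ) : ℂ) * Complex.I) := by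
      rw [M, ← mul_assoc, mul_comm (Complex.exp _) ((n : ℂ)⁻¹), mul_assoc, Finset.mul_sum]
      congr 1
      refine Finset.sum_congr rfl fun j _ => ?_
      rw [← Complex.exp_add]
      congr 1
      push_cast
      ring
    have h3 : (Complex.exp ((θ : ℝ) * Complex.I) * M n u).re =
        (n : ℝ)⁻¹ * ∑ j ∈ Finset.range n, Real.cos (2 * Real.pi * j * u + θ) := by
      rw [h2]
      have : ((n : ℂ)⁻¹) = (((n : ℝ)⁻¹ : ℝ) : ℂ) := by push_cast; rfl
      rw [this, Complex.re_ofReal_mul, Complex.re_sum]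
      congr 1
      refine Finset.sum_congr rfl fun j _ => ?_
      rw [Complex.exp_ofReal_mul_I_re]
    have h4 : 1 - Real.pi ^ 2 * (n * u) ^ 2 / 2 ≤
        (n : ℝ)⁻¹ * ∑ j ∈ Finset.range n, Real.cos (2 * Real.pi * j * u + θ) := by
      rw [le_inv_mul_iff₀ hn']
      have : (n : ℝ) * (1 - Real.pi ^ 2 * (n * u) ^ 2 / 2) =
          ∑ j ∈ Finset.range n, (1 - Real.pi ^ 2 * (n * u) ^ 2 / 2) := by
        rw [Finset.sum_const, Finset.card_range, nsmul_eq_mul]
      rw [this]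
      refine Finset.sum_le_sum fun j hj => ?_
      have hj' : (j : ℝ) ≤ n - 1 := by
        have : j + 1 ≤ n := Finset.mem_range.1 hj
        have : ((j + 1 : ℕ) : ℝ) ≤ n := by exact_mod_cast this
        push_cast at this
        linarith
      have hj0 : (0 : ℝ) ≤ j := Nat.cast_nonneg j
      have hx : (2 * Real.pi * j * u + θ) ^ 2 ≤ Real.pi ^ 2 * (n * u) ^ 2 := by
        have e : (2 * Real.pi * j * u + θ) = Real.pi * u * (2 * j - (n - 1)) := by
          rw [hθ]; ring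
        rw [e]
        have h5 : (2 * (j : ℝ) - (n - 1)) ^ 2 ≤ (n : ℝ) ^ 2 := by
          apply sq_le_sq'
          · linarith
          · linarith
        have h6 : 0 ≤ (Real.pi * u) ^ 2 := sq_nonneg _
        nlinarith
      have := Real.one_sub_sq_div_two_le_cos (x := 2 * Real.pi * j * u + θ)
      linarith
    calc 1 - Real.pi ^ 2 * (n * u) ^ 2 / 2 ≤ _ := h4
      _ = (Complex.exp ((θ : ℝ) * Complex.I) * M n u).re := h3.symm
      _ ≤ ‖Complex.exp ((θ : ℝ) * Complex.I) * M n u‖ := Complex.re_le_norm _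
      _ = ‖M n u‖ := h1.symm
  rw [m]
  have h0 := norm_nonneg (M n u)
  by_cases hc : 0 ≤ 1 - Real.pi ^ 2 * (n * u) ^ 2 / 2
  · have := sq_le_sq' (by linarith) key
    nlinarith [sq_nonneg (Real.pi ^ 2 * (n * u) ^ 2 / 2)]
  · push Not at hc
    have := sq_nonneg ‖M n u‖
    have h2 := sq_nonneg (Real.pi * (n * u))
    nlinarith

/-! ## Finite products -/

/-- squared modulus of the transform of the first `K` factors -/
noncomputable def W (N e : ℕ → ℕ) (K : ℕ) (ξ : ℝ) : ℝ :=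
  ∏ i ∈ Finset.range K, m (N (e i)) (ξ / P N (e i + 1))

theorem W_nonneg (N e : ℕ → ℕ) (K : ℕ) (ξ : ℝ) : 0 ≤ W N e K ξ :=
  Finset.prod_nonneg fun _ _ => m_nonneg _ _

theorem W_le_one (N e : ℕ → ℕ) (K : ℕ) (ξ : ℝ) : W N e K ξ ≤ 1 :=
  Finset.prod_le_one (fun _ _ => m_nonneg _ _) fun _ _ => m_le_one _ _

/-- the squared modulus of the transform of `μ` -/
noncomputable def pf (μ : Measure ℝ) (ξ : ℝ) : ℝ := ‖charFun μ (2 * Real.pi * ξ)‖ ^ 2

theorem tendsto_W {N e : ℕ → ℕ} (hN : ∀ k, 2 ≤ N k) {μ : Measure ℝ}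
    (h : IsInfConv (fun i => nu N (e i)) μ) (ξ : ℝ) :
    Tendsto (fun K => W N e K ξ) atTop (𝓝 (pf μ ξ)) := by
  have h1 := ((tendsto_charFun h (2 * Real.pi * ξ)).norm).pow 2
  refine h1.congr ?_
  intro K
  rw [charFun_convN (fun n => isProb_nu hN _), W, norm_prod, ← Finset.prod_pow]
  refine Finset.prod_congr rfl fun i _ => ?_
  rw [charFun_nu, m]

theorem prod_ge {K n : ℕ} (a : ℕ → ℝ) (x : ℕ → ℝ) (hx : ∀ i, 0 ≤ x i) (ha0 : ∀ i, 0 ≤ a i)
    (ha : ∀ i, 1 - x i ≤ a i) (ha1 : ∀ i, a i ≤ 1) :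
    1 - ∑ i ∈ Finset.range n, x (K + i) ≤ ∏ i ∈ Finset.range n, a (K + i) := by
  induction n with
  | zero => simp
  | succ n ih =>
    rw [Finset.sum_range_succ, Finset.prod_range_succ]
    set p := ∏ i ∈ Finset.range n, a (K + i)
    have hp0 : 0 ≤ p := Finset.prod_nonneg fun _ _ => ha0 _
    have hp1 : p ≤ 1 := Finset.prod_le_one (fun _ _ => ha0 _) fun _ _ => ha1 _
    have h1 := ha (K + n)
    have h2 := hx (K + n)
    nlinarith

/-- the tail of the product is bounded below -/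
theorem pf_ge {N e : ℕ → ℕ} (hN : ∀ k, 2 ≤ N k) (he : ∀ i, e (i + 1) = e i + 2) {μ : Measure ℝ}
    (h : IsInfConv (fun i => nu N (e i)) μ) {K : ℕ} {ξ : ℝ} (hξ : |ξ| ≤ 7 / 25 * P N (e K)) :
    1 / 10 * W N e K ξ ≤ pf μ ξ := by
  have hstep : ∀ i, (4 : ℝ) * P N (e i) ≤ P N (e (i + 1)) := by
    intro i
    rw [he]
    have h1 := P_succ_ge hN (e i)
    have h2 := P_succ_ge hN (e i + 1)
    have h3 : 4 * P N (e i) ≤ P N (e i + 2) := by
      have : e i + 1 + 1 = e i + 2 := rfl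
      rw [this] at h2
      omega
    exact_mod_cast h3
  have hgrow : ∀ n, (4 : ℝ) ^ n * P N (e K) ≤ P N (e (K + n)) := by
    intro n
    induction n with
    | zero => simp
    | succ n ih =>
      have := hstep (K + n)
      rw [pow_succ]
      have e1 : K + (n + 1) = K + n + 1 := rfl
      rw [e1]
      linarith
  have hPpos : ∀ k, (0 : ℝ) < P N k := fun k => by exact_mod_cast P_pos hN k
  have hpi2 : Real.pi ^ 2 < 987 / 100 := by
    have := Real.pi_lt_d4
    have h0 := Real.pi_pos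
    nlinarith
  have hfac : ∀ n, 1 - (774 / 1000) * (1 / 16) ^ n ≤
      m (N (e (K + n))) (ξ / P N (e (K + n) + 1)) := by
    intro n
    refine le_trans ?_ (m_ge (N (e (K + n))) (by have := hN (e (K + n)); omega) _)
    have hNe : (N (e (K + n)) : ℝ) ≠ 0 := by
      have := hN (e (K + n))
      exact_mod_cast (by omega : N (e (K + n)) ≠ 0)
    have h1 : (N (e (K + n)) : ℝ) * (ξ / P N (e (K + n) + 1)) = ξ / P N (e (K + n)) := by
      rw [P_succ]
      push_cast
      have := (hPpos (e (K + n))).ne'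
      field_simp
    rw [h1]
    have h2 : (ξ / P N (e (K + n))) ^ 2 ≤ (7 / 25 * (1 / 4) ^ n) ^ 2 := by
      rw [← sq_abs (ξ / P N (e (K + n)))]
      refine pow_le_pow_left₀ (abs_nonneg _) ?_ 2
      rw [abs_div, abs_of_pos (hPpos (e (K + n))), div_le_iff₀ (hPpos _)]
      have h3 := hgrow n
      calc |ξ| ≤ 7 / 25 * P N (e K) := hξ
        _ = 7 / 25 * (1 / 4) ^ n * ((4 : ℝ) ^ n * P N (e K)) := by
            have : ((1 : ℝ) / 4) ^ n * 4 ^ n = 1 := by
              rw [← mul_pow]; norm_num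
            calc (7 : ℝ) / 25 * P N (e K) = 7 / 25 * (((1 : ℝ) / 4) ^ n * 4 ^ n) * P N (e K) := by
                  rw [this, mul_one]
              _ = _ := by ring
        _ ≤ 7 / 25 * (1 / 4) ^ n * P N (e (K + n)) := by
            apply mul_le_mul_of_nonneg_left h3 (by positivity)
    have h4 : ((7 : ℝ) / 25 * (1 / 4) ^ n) ^ 2 = 49 / 625 * (1 / 16) ^ n := by
      rw [mul_pow, ← pow_mul, mul_comm n 2, pow_mul]
      norm_num
    rw [h4] at h2
    have h5 : (0 : ℝ) < (1 / 16) ^ n := by positivity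
    have h6 : Real.pi ^ 2 * (ξ / P N (e (K + n))) ^ 2 ≤ 987 / 100 * (49 / 625 * (1 / 16) ^ n) := by
      apply mul_le_mul hpi2.le h2 (sq_nonneg _) (by norm_num)
    nlinarith
  have hWsplit : ∀ n, W N e (K + n) ξ = W N e K ξ *
      ∏ i ∈ Finset.range n, m (N (e (K + i))) (ξ / P N (e (K + i) + 1)) := by
    intro n
    rw [W, W, Finset.prod_range_add]
  have hsum : ∀ n, ∑ i ∈ Finset.range n, (774 / 1000 : ℝ) * (1 / 16) ^ i ≤ 9 / 10 := by
    intro n
    rw [← Finset.mul_sum, geom_sum_eq (by norm_num)]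
    have : (0 : ℝ) < (1 / 16) ^ n := by positivity
    rw [show (774 / 1000 : ℝ) * (((1 / 16) ^ n - 1) / (1 / 16 - 1))
      = 774 / 1000 * (16 / 15) * (1 - (1 / 16) ^ n) by ring]
    nlinarith
  have hlow : ∀ n, 1 / 10 * W N e K ξ ≤ W N e (K + n) ξ := by
    intro n
    rw [hWsplit]
    have h1 := prod_ge (K := 0) (n := n) (fun i => m (N (e (K + i))) (ξ / P N (e (K + i) + 1)))
      (fun i => (774 / 1000 : ℝ) * (1 / 16) ^ i) (fun i => by positivity)
      (fun i => m_nonneg _ _) hfac (fun i => m_le_one _ _)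
    simp only [zero_add] at h1
    have h2 := hsum n
    have h3 := W_nonneg N e K ξ
    nlinarith
  have hlim : Tendsto (fun n => W N e (K + n) ξ) atTop (𝓝 (pf μ ξ)) := by
    have := (tendsto_W hN h ξ).comp (tendsto_add_atTop_nat K)
    refine this.congr ?_
    intro n
    simp only [Function.comp, add_comm]
  exact ge_of_tendsto' hlim hlow

theorem pf_le_W {N e : ℕ → ℕ} (hN : ∀ k, 2 ≤ N k) {μ : Measure ℝ}
    (h : IsInfConv (fun i => nu N (e i)) μ) (K : ℕ) (ξ : ℝ) : pf μ ξ ≤ W N e K ξ := by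
  have hlim : Tendsto (fun n => W N e (K + n) ξ) atTop (𝓝 (pf μ ξ)) := by
    have := (tendsto_W hN h ξ).comp (tendsto_add_atTop_nat K)
    refine this.congr ?_
    intro n
    simp only [Function.comp, add_comm]
  refine le_of_tendsto' hlim fun n => ?_
  rw [W, W, Finset.prod_range_add]
  exact mul_le_of_le_one_right (Finset.prod_nonneg fun _ _ => m_nonneg _ _)
    (Finset.prod_le_one (fun _ _ => m_nonneg _ _) fun _ _ => m_le_one _ _)

/-! ## Zeros -/

/-- `z` first fails to be divisible at one of the chosen positions -/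
def Df (N e : ℕ → ℕ) (z : ℤ) : Prop := ∃ i, (P N (e i) : ℤ) ∣ z ∧ ¬ (P N (e i + 1) : ℤ) ∣ z

theorem m_eq_zero_iff {N : ℕ → ℕ} (hN : ∀ k, 2 ≤ N k) (k : ℕ) (ξ : ℝ) :
    m (N k) (ξ / P N (k + 1)) = 0 ↔ ∃ z : ℤ, ξ = z ∧ (P N k : ℤ) ∣ z ∧ ¬ (P N (k + 1) : ℤ) ∣ z := by
  have hNk : N k ≠ 0 := by have := hN k; omega
  have hPpos : ∀ k, (P N k : ℝ) ≠ 0 := fun k => by
    exact_mod_cast (P_pos hN k).ne'
  have hNr : (N k : ℝ) ≠ 0 := by exact_mod_cast hNk
  rw [m, sq_eq_zero_iff, norm_eq_zero, M_eq_zero_iff hNk]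
  have h1 : (N k : ℝ) * (ξ / P N (k + 1)) = ξ / P N k := by
    rw [P_succ]
    push_cast
    have := hPpos k
    field_simp
  rw [h1]
  constructor
  · rintro ⟨⟨l, hl⟩, h2⟩
    refine ⟨P N k * l, ?_, ⟨l, rfl⟩, ?_⟩
    · push_cast
      rw [div_eq_iff (hPpos k)] at hl
      rw [hl]
      ring
    · rintro ⟨c, hc⟩
      apply h2
      refine ⟨c, ?_⟩
      rw [div_eq_iff (hPpos (k + 1))]
      rw [div_eq_iff (hPpos k)] at hl
      rw [hl]
      have : ((P N k : ℤ) : ℝ) * l = ((P N (k + 1) : ℤ) : ℝ) * c := by exact_mod_cast hc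
      push_cast at this
      linarith
  · rintro ⟨z, hz, ⟨l, hl⟩, h2⟩
    refine ⟨⟨l, ?_⟩, ?_⟩
    · rw [div_eq_iff (hPpos k), hz, hl]
      push_cast
      ring
    · rintro ⟨c, hc⟩
      apply h2
      refine ⟨c, ?_⟩
      rw [div_eq_iff (hPpos (k + 1)), hz] at hc
      have : (z : ℝ) = ((P N (k + 1) : ℤ) : ℝ) * c := by push_cast; rw [hc]; ring
      exact_mod_cast this

/-- the zeros of the transform of `μ` -/
theorem pf_eq_zero_iff {N e : ℕ → ℕ} (hN : ∀ k, 2 ≤ N k) (he : ∀ i, e (i + 1) = e i + 2)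
    {μ : Measure ℝ} (h : IsInfConv (fun i => nu N (e i)) μ) (ξ : ℝ) :
    pf μ ξ = 0 ↔ ∃ z : ℤ, ξ = z ∧ Df N e z := by
  constructor
  · intro h0
    -- choose a level beyond `ξ`
    have hei : ∀ i, i ≤ e i := by
      intro i
      induction i with
      | zero => exact Nat.zero_le _
      | succ i ih => rw [he]; omega
    obtain ⟨K, hK⟩ : ∃ K : ℕ, |ξ| ≤ 7 / 25 * P N (e K) := by
      obtain ⟨K, hK⟩ := pow_unbounded_of_one_lt (25 / 7 * |ξ|) (by norm_num : (1 : ℝ) < 2)
      refine ⟨K, ?_⟩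
      have h1 : (2 : ℝ) ^ K ≤ P N (e K) := by
        have : 2 ^ K ≤ P N (e K) :=
          (Nat.pow_le_pow_right (by norm_num) (hei K)).trans (two_pow_le_P hN _)
        exact_mod_cast this
      linarith
    have h1 := pf_ge hN he h hK
    rw [h0] at h1
    have h2 : W N e K ξ = 0 := le_antisymm (by linarith) (W_nonneg _ _ _ _)
    rw [W, Finset.prod_eq_zero_iff] at h2
    obtain ⟨i, -, hi⟩ := h2
    rw [m_eq_zero_iff hN] at hi
    obtain ⟨z, hz, h3, h4⟩ := hi
    exact ⟨z, hz, i, h3, h4⟩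
  · rintro ⟨z, hz, i, h3, h4⟩
    have h1 := pf_le_W hN h (i + 1) ξ
    have h2 : W N e (i + 1) ξ = 0 := by
      rw [W, Finset.prod_eq_zero_iff]
      refine ⟨i, Finset.mem_range.2 (Nat.lt_succ_self i), ?_⟩
      rw [m_eq_zero_iff hN]
      exact ⟨z, hz, h3, h4⟩
    rw [h2] at h1
    exact le_antisymm h1 (sq_nonneg _)

end Pool.Agent.V1187.CS
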