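import Pool.Agent.V1187.Comp1

/-!
# Finite orthogonal families of exponentials
-/

set_option autoImplicit false

open MeasureTheory Filter Topology

namespace Pool.Agent.V1187.CS

open Pool.Agent.V1187.SP

/-- digit strings -/
abbrev Dig (N e : ℕ → ℕ) (K : ℕ) : Type := (i : Fin K) → Fin (N (e i))

/-- the number of digit strings -/
def DD (N e : ℕ → ℕ) (K : ℕ) : ℕ := ∏ i ∈ Finset.range K, N (e i)

theorem card_Dig (N e : ℕ → ℕ) (K : ℕ) : Fintype.card (Dig N e K) = DD N e K := by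
  rw [Fintype.card_pi, DD, Finset.prod_range]
  simp

/-- the point of a digit string -/
noncomputable def xx (N e : ℕ → ℕ) (K : ℕ) (J : Dig N e K) : ℝ :=
  ∑ i : Fin K, ((J i : ℕ) : ℝ) / P N (e i + 1)

/-- normalised exponential vectors -/
noncomputable def vec (N e : ℕ → ℕ) (K : ℕ) (ξ : ℝ) : EuclideanSpace ℂ (Dig N e K) :=
  WithLp.toLp 2 (fun J => ((Real.sqrt (DD N e K))⁻¹ : ℝ) *
    Complex.exp ((2 * Real.pi * ξ * xx N e K J : ℝ) * Complex.I))

theorem inner_vec {N e : ℕ → ℕ} (hN : ∀ k, 2 ≤ N k) (K : ℕ) (ξ η : ℝ) :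
    inner ℂ (vec N e K ξ) (vec N e K η) =
      ∏ i ∈ Finset.range K, M (N (e i)) ((η - ξ) / P N (e i + 1)) := by
  have hD : (0 : ℝ) < DD N e K := by
    have : 0 < DD N e K := Finset.prod_pos fun i _ => by have := hN (e i); omega
    exact_mod_cast this
  have hsq : ((Real.sqrt (DD N e K))⁻¹ : ℝ) * ((Real.sqrt (DD N e K))⁻¹ : ℝ)
      = ((DD N e K : ℝ))⁻¹ := by
    rw [← mul_inv, Real.mul_self_sqrt hD.le]
  have hterm : ∀ J : Dig N e K, inner ℂ (vec N e K ξ J) (vec N e K η J) =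
      ((DD N e K : ℂ))⁻¹ * ∏ i : Fin K,
        Complex.exp ((2 * Real.pi * ((J i : ℕ) : ℝ) * ((η - ξ) / P N (e i + 1)) : ℝ) * Complex.I) := by
    intro J
    rw [← Complex.exp_sum]
    simp only [vec, RCLike.inner_apply, map_mul, Complex.conj_ofReal]
    have h1 : (starRingEnd ℂ) (Complex.exp ((2 * Real.pi * ξ * xx N e K J : ℝ) * Complex.I))
        = Complex.exp (-((2 * Real.pi * ξ * xx N e K J : ℝ) * Complex.I)) := by
      rw [← Complex.exp_conj]
      congr 1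
      rw [map_mul, Complex.conj_ofReal, Complex.conj_I, mul_neg]
    rw [h1]
    have h2 : ((DD N e K : ℂ))⁻¹ = (((Real.sqrt (DD N e K))⁻¹ : ℝ) : ℂ) *
        (((Real.sqrt (DD N e K))⁻¹ : ℝ) : ℂ) := by
      rw [← Complex.ofReal_mul, hsq]
      push_cast
      rfl
    rw [h2]
    have h3 : ∑ i : Fin K, ((2 * Real.pi * ((J i : ℕ) : ℝ) * ((η - ξ) / P N (e i + 1)) : ℝ) : ℂ)
        * Complex.I = (2 * Real.pi * η * xx N e K J : ℝ) * Complex.I +
          -((2 * Real.pi * ξ * xx N e K J : ℝ) * Complex.I) := by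
      rw [← Finset.sum_mul, ← Complex.ofReal_sum, ← neg_mul, ← add_mul]
      congr 1
      rw [← Complex.ofReal_neg, ← Complex.ofReal_add]
      congr 1
      rw [xx, Finset.mul_sum, Finset.mul_sum, ← Finset.sum_neg_distrib, ← Finset.sum_add_distrib]
      refine Finset.sum_congr rfl fun i _ => ?_
      ring
    rw [h3, Complex.exp_add]
    ring
  rw [PiLp.inner_apply]
  simp only [hterm]
  rw [← Finset.mul_sum, Finset.prod_range]
  have h4 : ∑ J : Dig N e K, ∏ i : Fin K,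
      Complex.exp ((2 * Real.pi * ((J i : ℕ) : ℝ) * ((η - ξ) / P N (e i + 1)) : ℝ) * Complex.I)
      = ∏ i : Fin K, ∑ j : Fin (N (e i)),
        Complex.exp ((2 * Real.pi * ((j : ℕ) : ℝ) * ((η - ξ) / P N (e i + 1)) : ℝ) * Complex.I) := by
    rw [Finset.prod_univ_sum, Fintype.piFinset_univ]
  rw [h4]
  have h5 : ((DD N e K : ℂ))⁻¹ = ∏ i : Fin K, ((N (e i) : ℂ))⁻¹ := by
    rw [Finset.prod_inv_distrib, DD, Finset.prod_range]
    push_cast
    rfl
  rw [h5, ← Finset.prod_mul_distrib]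
  refine Finset.prod_congr rfl fun i _ => ?_
  rw [M, Finset.sum_range]

theorem norm_inner_vec {N e : ℕ → ℕ} (hN : ∀ k, 2 ≤ N k) (K : ℕ) (ξ η : ℝ) :
    ‖inner ℂ (vec N e K ξ) (vec N e K η)‖ ^ 2 = W N e K (η - ξ) := by
  rw [inner_vec hN, norm_prod, ← Finset.prod_pow]
  rfl

theorem inner_vec_self {N e : ℕ → ℕ} (hN : ∀ k, 2 ≤ N k) (K : ℕ) (ξ : ℝ) :
    inner ℂ (vec N e K ξ) (vec N e K ξ) = 1 := by
  rw [inner_vec hN]
  refine Finset.prod_eq_one fun i _ => ?_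
  rw [sub_self, zero_div, M_zero_right]
  have := hN (e i)
  omega

theorem norm_vec {N e : ℕ → ℕ} (hN : ∀ k, 2 ≤ N k) (K : ℕ) (ξ : ℝ) : ‖vec N e K ξ‖ = 1 := by
  have h2 : ‖vec N e K ξ‖ ^ 2 = 1 := by
    rw [norm_sq_eq_re_inner (𝕜 := ℂ) (vec N e K ξ), inner_vec_self hN, RCLike.re_eq_complex_re,
      Complex.one_re]
  exact (pow_eq_one_iff_of_nonneg (norm_nonneg _) two_ne_zero).1 h2

/-- finite orthogonal families -/
theorem orthonormal_vec {N e : ℕ → ℕ} (hN : ∀ k, 2 ≤ N k) (K : ℕ) (F : Finset ℤ)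
    (hF : ∀ b ∈ F, ∀ c ∈ F, b ≠ c → W N e K ((b : ℝ) - c) = 0) :
    Orthonormal ℂ (fun b : F => vec N e K (-((b : ℤ) : ℝ))) := by
  constructor
  · intro b
    exact norm_vec hN K _
  · intro b c hbc
    have h1 := norm_inner_vec hN (e := e) K (-((b : ℤ) : ℝ)) (-((c : ℤ) : ℝ))
    have h2 : -((c : ℤ) : ℝ) - -((b : ℤ) : ℝ) = ((b : ℤ) : ℝ) - ((c : ℤ) : ℝ) := by ring
    rw [h2, hF b b.2 c c.2 (fun h => hbc (Subtype.ext h))] at h1
    exact norm_eq_zero.1 ((pow_eq_zero_iff two_ne_zero).1 h1)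

theorem card_le_DD {N e : ℕ → ℕ} (hN : ∀ k, 2 ≤ N k) (K : ℕ) (F : Finset ℤ)
    (hF : ∀ b ∈ F, ∀ c ∈ F, b ≠ c → W N e K ((b : ℝ) - c) = 0) : F.card ≤ DD N e K := by
  have h1 := (orthonormal_vec hN K F hF).linearIndependent.fintype_card_le_finrank
  rw [finrank_euclideanSpace, card_Dig, Fintype.card_coe] at h1
  exact h1

/-- Parseval for a full orthogonal family -/
theorem sum_W_eq_one {N e : ℕ → ℕ} (hN : ∀ k, 2 ≤ N k) (K : ℕ) (F : Finset ℤ)
    (hF : ∀ b ∈ F, ∀ c ∈ F, b ≠ c → W N e K ((b : ℝ) - c) = 0) (hcard : DD N e K ≤ F.card)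
    (ξ : ℝ) : ∑ b ∈ F, W N e K (ξ + b) = 1 := by
  have hon := orthonormal_vec hN K F hF
  have hc : Fintype.card F = Module.finrank ℂ (EuclideanSpace ℂ (Dig N e K)) := by
    rw [finrank_euclideanSpace, card_Dig, Fintype.card_coe]
    exact le_antisymm (card_le_DD hN K F hF) hcard
  have hspan := hon.linearIndependent.span_eq_top_of_card_eq_finrank' hc
  have hB := (OrthonormalBasis.mk hon hspan.ge).sum_sq_norm_inner_right (vec N e K ξ)
  rw [norm_vec hN, one_pow] at hB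
  rw [← hB, ← Finset.sum_coe_sort F]
  refine Finset.sum_congr rfl fun b _ => ?_
  rw [OrthonormalBasis.coe_mk, norm_inner_vec hN]
  congr 1
  ring

end Pool.Agent.V1187.CS
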