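import Pool.Agent.V1187.Comp2

/-!
# Trees of digits: extending and covering
-/

set_option autoImplicit false

namespace Pool.Agent.V1187.CS

/-- first difference at an odd position of the list `0, 1, 2, …` (an even position `2, 4, …` of the
text) -/
def Od (N : ℕ → ℕ) (z : ℤ) : Prop := Df N (fun i => 2 * i + 1) z

/-- first difference at an even position of the list `0, 1, 2, …` -/
def Ev (N : ℕ → ℕ) (z : ℤ) : Prop := Df N (fun i => 2 * i) z

/-- first difference at an odd position below level `K` -/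
def OdK (N : ℕ → ℕ) (K : ℕ) (z : ℤ) : Prop :=
  ∃ i, i < K ∧ (P N (2 * i + 1) : ℤ) ∣ z ∧ ¬ (P N (2 * i + 2) : ℤ) ∣ z

theorem P_dvd_int (N : ℕ → ℕ) {i k : ℕ} (h : i ≤ k) : (P N i : ℤ) ∣ P N k := by
  exact_mod_cast P_dvd N h

theorem Df_neg {N e : ℕ → ℕ} {z : ℤ} (h : Df N e z) : Df N e (-z) := by
  obtain ⟨i, h1, h2⟩ := h
  exact ⟨i, (dvd_neg).2 h1, fun h => h2 ((dvd_neg).1 h)⟩

theorem Od_sub_comm {N : ℕ → ℕ} {a b : ℤ} (h : Od N (a - b)) : Od N (b - a) := by
  have := Df_neg h
  rwa [neg_sub] at this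

theorem OdK_sub_comm {N : ℕ → ℕ} {K : ℕ} {a b : ℤ} (h : OdK N K (a - b)) : OdK N K (b - a) := by
  obtain ⟨i, hi, h1, h2⟩ := h
  rw [← neg_sub] at h1 h2
  exact ⟨i, hi, (dvd_neg).1 h1, fun h => h2 ((dvd_neg).2 h)⟩

theorem OdK_Od {N : ℕ → ℕ} {K : ℕ} {z : ℤ} (h : OdK N K z) : Od N z := by
  obtain ⟨i, _, h1, h2⟩ := h
  exact ⟨i, h1, h2⟩

theorem Od_OdK {N : ℕ → ℕ} {K : ℕ} {z : ℤ} (h : Od N z) (hK : ¬ (P N (2 * K) : ℤ) ∣ z) :
    OdK N K z := by
  obtain ⟨i, h1, h2⟩ := h
  refine ⟨i, ?_, h1, h2⟩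
  by_contra hc
  push Not at hc
  exact hK ((P_dvd_int N (by show 2 * K ≤ 2 * i + 1; omega)).trans h1)

theorem OdK_not_dvd {N : ℕ → ℕ} {K : ℕ} {z : ℤ} (h : OdK N K z) : ¬ (P N (2 * K) : ℤ) ∣ z := by
  obtain ⟨i, hi, _, h2⟩ := h
  intro hd
  exact h2 ((P_dvd_int N (by omega)).trans hd)

theorem not_Od_zero (N : ℕ → ℕ) : ¬ Od N 0 := by
  rintro ⟨i, _, h2⟩
  exact h2 (dvd_zero _)

theorem not_Ev_Od {N : ℕ → ℕ} {z : ℤ} (h1 : Ev N z) (h2 : Od N z) : False := by
  obtain ⟨i, a1, a2⟩ := h1
  obtain ⟨j, b1, b2⟩ := h2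
  simp only at a1 a2 b1 b2
  rcases le_or_gt (2 * i + 1) (2 * j + 1) with h | h
  · exact a2 ((P_dvd_int N h).trans b1)
  · exact b2 ((P_dvd_int N (by omega)).trans a1)

theorem not_dvd_of_lt {N : ℕ → ℕ} {K : ℕ} {z : ℤ} (hz : z ≠ 0) (h : |z| < P N (2 * K)) :
    ¬ (P N (2 * K) : ℤ) ∣ z := by
  intro hd
  have := Int.le_of_dvd (abs_pos.2 hz) ((dvd_abs _ _).2 hd)
  omega

/-- adding a multiple of `P (2K)` does not change the first difference below level `K` -/
theorem OdK_congr {N : ℕ → ℕ} {K : ℕ} {z w : ℤ} (h : OdK N K z) (hd : (P N (2 * K) : ℤ) ∣ z - w) :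
    OdK N K w := by
  obtain ⟨i, hi, h1, h2⟩ := h
  have e1 : (P N (2 * i + 1) : ℤ) ∣ z - w := (P_dvd_int N (by omega)).trans hd
  have e2 : (P N (2 * i + 2) : ℤ) ∣ z - w := (P_dvd_int N (by omega)).trans hd
  refine ⟨i, hi, ?_, ?_⟩
  · have := dvd_sub h1 e1
    simpa using this
  · intro h
    apply h2
    have := dvd_add e2 h
    simpa using this

/-- a residue avoided by few members of a family -/
theorem path {N : ℕ → ℕ} (hN : ∀ k, 2 ≤ N k) (F : Finset ℤ)
    (hF : ∀ b ∈ F, ∀ c ∈ F, b ≠ c → Od N (b - c)) (K : ℕ) :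
    ∃ r : ℤ, (F.filter (fun b => (P N (2 * K) : ℤ) ∣ b - r)).card *
        DD N (fun i => 2 * i + 1) K ≤ F.card ∧
      ∀ b ∈ F, ¬ (P N (2 * K) : ℤ) ∣ b - r → OdK N K (b - r) := by
  induction K with
  | zero =>
    refine ⟨0, ?_, ?_⟩
    · simp only [DD, Finset.range_zero, Finset.prod_empty, mul_one]
      exact Finset.card_filter_le _ _
    · intro b _ h
      exfalso
      apply h
      simp [P_zero]
  | succ K ih =>
    obtain ⟨r, hr1, hr2⟩ := ih
    set F' := F.filter (fun b => (P N (2 * K) : ℤ) ∣ b - r) with hF'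
    have hDD : DD N (fun i => 2 * i + 1) (K + 1) = DD N (fun i => 2 * i + 1) K * N (2 * K + 1) := by
      rw [DD, Finset.prod_range_succ]; rfl
    rcases F'.eq_empty_or_nonempty with hemp | ⟨b₀, hb₀⟩
    · refine ⟨r, ?_, ?_⟩
      · have : F.filter (fun b => (P N (2 * (K + 1)) : ℤ) ∣ b - r) = ∅ := by
          rw [Finset.eq_empty_iff_forall_notMem]
          intro b hb
          rw [Finset.mem_filter] at hb
          have : b ∈ F' := by
            rw [hF', Finset.mem_filter]
            exact ⟨hb.1, (P_dvd_int N (by omega)).trans hb.2⟩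
          rw [hemp] at this
          exact absurd this (Finset.notMem_empty b)
        rw [this]
        simp
      · intro b hb _
        have h1 : ¬ (P N (2 * K) : ℤ) ∣ b - r := by
          intro h
          have : b ∈ F' := by
            rw [hF', Finset.mem_filter]
            exact ⟨hb, h⟩
          rw [hemp] at this
          exact absurd this (Finset.notMem_empty b)
        obtain ⟨i, hi, h2⟩ := hr2 b hb h1
        exact ⟨i, by omega, h2⟩
    · have hb₀F : b₀ ∈ F ∧ (P N (2 * K) : ℤ) ∣ b₀ - r := by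
        rw [hF', Finset.mem_filter] at hb₀
        exact hb₀
      -- members of `F'` agree with `b₀` one digit further
      have hagree : ∀ b ∈ F', (P N (2 * K + 1) : ℤ) ∣ b - b₀ := by
        intro b hb
        rw [hF', Finset.mem_filter] at hb
        by_cases hne : b = b₀
        · rw [hne]; simp
        · obtain ⟨i, h1, h2⟩ := hF b hb.1 b₀ hb₀F.1 hne
          simp only at h1 h2
          have hdiv : (P N (2 * K) : ℤ) ∣ b - b₀ := by
            have := dvd_sub hb.2 hb₀F.2
            simpa using this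
          have hi : K ≤ i := by
            by_contra hc
            push Not at hc
            exact h2 ((P_dvd_int N (by omega)).trans hdiv)
          exact (P_dvd_int N (by omega)).trans h1
      set n := N (2 * K + 1) with hn
      have hn2 : 2 ≤ n := hN _
      set C : ℕ → Finset ℤ := fun d =>
        F'.filter (fun b => (P N (2 * K + 2) : ℤ) ∣ b - (b₀ + d * P N (2 * K + 1))) with hC
      have hPs : (P N (2 * K + 2) : ℤ) = P N (2 * K + 1) * n := by
        rw [show 2 * K + 2 = (2 * K + 1) + 1 from rfl, P_succ]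
        push_cast
        rfl
      have hPp : (P N (2 * K + 1) : ℤ) ≠ 0 := by
        have := P_pos hN (2 * K + 1)
        exact_mod_cast this.ne'
      have hdisj : ∀ d ∈ Finset.range n, ∀ d' ∈ Finset.range n, d ≠ d' → Disjoint (C d) (C d') := by
        intro d hd d' hd' hne
        rw [Finset.disjoint_left]
        intro b hb hb'
        rw [hC, Finset.mem_filter] at hb hb'
        have h1 := dvd_sub hb'.2 hb.2
        have h2 : b - (b₀ + d' * P N (2 * K + 1)) - (b - (b₀ + d * P N (2 * K + 1)))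
            = (P N (2 * K + 1) : ℤ) * ((d : ℤ) - d') := by ring
        rw [h2, hPs] at h1
        have h3 : (n : ℤ) ∣ (d : ℤ) - d' := Int.dvd_of_mul_dvd_mul_left hPp h1
        have h4 : (d : ℤ) - d' = 0 := by
          apply Int.eq_zero_of_abs_lt_dvd h3
          rw [abs_lt]
          have := Finset.mem_range.1 hd
          have := Finset.mem_range.1 hd'
          constructor <;> omega
        apply hne
        omega
      have hsum : ∑ d ∈ Finset.range n, (C d).card ≤ F'.card := by
        rw [← Finset.card_biUnion hdisj]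
        apply Finset.card_le_card
        intro b hb
        rw [Finset.mem_biUnion] at hb
        obtain ⟨d, _, hbd⟩ := hb
        exact (Finset.mem_filter.1 hbd).1
      obtain ⟨d, hd, hdc⟩ : ∃ d ∈ Finset.range n, (C d).card * n ≤ F'.card := by
        by_contra hc
        push Not at hc
        have h1 : ∑ d ∈ Finset.range n, F'.card < ∑ d ∈ Finset.range n, (C d).card * n := by
          apply Finset.sum_lt_sum_of_nonempty
          · exact ⟨0, Finset.mem_range.2 (by omega)⟩
          · intro d hd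
            exact hc d hd
        rw [← Finset.sum_mul, Finset.sum_const, Finset.card_range, smul_eq_mul] at h1
        have h2 := Nat.mul_le_mul_right n hsum
        rw [mul_comm n] at h1
        omega
      refine ⟨b₀ + d * P N (2 * K + 1), ?_, ?_⟩
      · have hfil : F.filter (fun b => (P N (2 * (K + 1)) : ℤ) ∣ b - (b₀ + d * P N (2 * K + 1)))
            ⊆ C d := by
          intro b hb
          rw [Finset.mem_filter] at hb
          rw [hC, Finset.mem_filter, hF', Finset.mem_filter]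
          refine ⟨⟨hb.1, ?_⟩, hb.2⟩
          have h1 : (P N (2 * K) : ℤ) ∣ b - (b₀ + d * P N (2 * K + 1)) :=
            (P_dvd_int N (by omega)).trans hb.2
          have h2 : (P N (2 * K) : ℤ) ∣ (d : ℤ) * P N (2 * K + 1) :=
            Dvd.dvd.mul_left (P_dvd_int N (by omega)) _
          have h3 := dvd_add (dvd_add h1 h2) hb₀F.2
          have h4 : b - (b₀ + d * P N (2 * K + 1)) + d * P N (2 * K + 1) + (b₀ - r) = b - r := by
            ring
          rwa [h4] at h3
        calc _ ≤ (C d).card * DD N (fun i => 2 * i + 1) (K + 1) :=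
              Nat.mul_le_mul_right _ (Finset.card_le_card hfil)
          _ = ((C d).card * n) * DD N (fun i => 2 * i + 1) K := by rw [hDD]; ring
          _ ≤ F'.card * DD N (fun i => 2 * i + 1) K := Nat.mul_le_mul_right _ hdc
          _ ≤ F.card := hr1
      · intro b hb hnd
        by_cases hbF : b ∈ F'
        · refine ⟨K, by omega, ?_, hnd⟩
          have h1 := hagree b hbF
          have h2 : (P N (2 * K + 1) : ℤ) ∣ (d : ℤ) * P N (2 * K + 1) := Dvd.intro_left _ rfl
          have h3 := dvd_sub h1 h2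
          have h4 : b - b₀ - (d : ℤ) * P N (2 * K + 1) = b - (b₀ + d * P N (2 * K + 1)) := by ring
          rwa [h4] at h3
        · have h1 : ¬ (P N (2 * K) : ℤ) ∣ b - r := by
            intro h
            apply hbF
            rw [hF', Finset.mem_filter]
            exact ⟨hb, h⟩
          have h2 := hr2 b hb h1
          have h3 : (P N (2 * K) : ℤ) ∣ (b - r) - (b - (b₀ + d * P N (2 * K + 1))) := by
            have h4 : (b - r) - (b - (b₀ + d * P N (2 * K + 1))) =
                (b₀ - r) + d * P N (2 * K + 1) := by ring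
            rw [h4]
            exact dvd_add hb₀F.2 (Dvd.dvd.mul_left (P_dvd_int N (by omega)) _)
          obtain ⟨i, hi, h5⟩ := OdK_congr h2 h3
          exact ⟨i, by omega, h5⟩

/-- extension of a finite family to a full one of level `K` -/
theorem extend {N : ℕ → ℕ} (hN : ∀ k, 2 ≤ N k) (F : Finset ℤ) (K : ℕ)
    (hF : ∀ b ∈ F, ∀ c ∈ F, b ≠ c → OdK N K (b - c)) (hb : ∀ b ∈ F, 2 * |b| ≤ P N (2 * K)) :
    ∃ G : Finset ℤ, F ⊆ G ∧ (∀ b ∈ G, ∀ c ∈ G, b ≠ c → OdK N K (b - c)) ∧
      (∀ b ∈ G, 2 * |b| ≤ P N (2 * K)) ∧ DD N (fun i => 2 * i + 1) K ≤ G.card := by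
  classical
  set U : Finset ℤ := Finset.Icc (-(P N (2 * K) : ℤ)) (P N (2 * K)) with hU
  set S : Finset (Finset ℤ) := U.powerset.filter (fun G => F ⊆ G ∧
    (∀ b ∈ G, ∀ c ∈ G, b ≠ c → OdK N K (b - c)) ∧ (∀ b ∈ G, 2 * |b| ≤ P N (2 * K))) with hS
  have hmemU : ∀ b : ℤ, 2 * |b| ≤ P N (2 * K) → b ∈ U := by
    intro b hb
    rw [hU, Finset.mem_Icc]
    have h1 := abs_nonneg b
    have h2 := le_abs_self b
    have h3 := neg_abs_le b
    constructor <;> omega
  have hFS : F ∈ S := by
    rw [hS, Finset.mem_filter, Finset.mem_powerset]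
    exact ⟨fun b hbF => hmemU b (hb b hbF), Finset.Subset.refl _, hF, hb⟩
  obtain ⟨G, hGS, hmax⟩ := Finset.exists_max_image S Finset.card ⟨F, hFS⟩
  rw [hS, Finset.mem_filter, Finset.mem_powerset] at hGS
  obtain ⟨-, h1, h2, h3⟩ := hGS
  refine ⟨G, h1, h2, h3, ?_⟩
  by_contra hlt
  push Not at hlt
  obtain ⟨r, hr1, hr2⟩ := path hN G (fun b hb c hc hne => OdK_Od (h2 b hb c hc hne)) K
  have hcard0 : (G.filter (fun b => (P N (2 * K) : ℤ) ∣ b - r)).card = 0 := by
    by_contra hpos
    have : 1 ≤ (G.filter (fun b => (P N (2 * K) : ℤ) ∣ b - r)).card := Nat.one_le_iff_ne_zero.2 hpos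
    have := Nat.mul_le_mul_right (DD N (fun i => 2 * i + 1) K) this
    omega
  have hall : ∀ b ∈ G, OdK N K (b - r) := by
    intro b hbG
    apply hr2 b hbG
    intro hd
    have : b ∈ G.filter (fun b => (P N (2 * K) : ℤ) ∣ b - r) := Finset.mem_filter.2 ⟨hbG, hd⟩
    rw [Finset.card_eq_zero.1 hcard0] at this
    exact absurd this (Finset.notMem_empty b)
  -- the symmetric representative
  have hPp : (0 : ℤ) < P N (2 * K) := by exact_mod_cast P_pos hN (2 * K)
  set Q : ℤ := ((P N (2 * K) : ℕ) : ℤ) with hQ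
  set r' : ℤ := (r + Q / 2) % Q - Q / 2 with hr'
  have hr'b : 2 * |r'| ≤ Q := by
    have a1 := Int.emod_nonneg (r + Q / 2) hPp.ne'
    have a2 := Int.emod_lt_of_pos (r + Q / 2) hPp
    rcases abs_cases r' with h | h <;> omega
  have hr'd : Q ∣ r - r' := by
    have h4 : r - r' = (r + Q / 2) - (r + Q / 2) % Q := by rw [hr']; ring
    rw [h4]
    exact Int.dvd_self_sub_emod
  have hall' : ∀ b ∈ G, OdK N K (b - r') := by
    intro b hbG
    apply OdK_congr (hall b hbG)
    have : (b - r) - (b - r') = -(r - r') := by ring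
    rw [this]
    exact (dvd_neg).2 hr'd
  have hnot : r' ∉ G := by
    intro h
    have := OdK_Od (hall' r' h)
    rw [sub_self] at this
    exact not_Od_zero N this
  have hins : insert r' G ∈ S := by
    rw [hS, Finset.mem_filter, Finset.mem_powerset]
    refine ⟨?_, ?_, ?_, ?_⟩
    · intro b hb'
      rcases Finset.mem_insert.1 hb' with h | h
      · rw [h]; exact hmemU r' hr'b
      · exact hmemU b (h3 b h)
    · exact h1.trans (Finset.subset_insert _ _)
    · intro b hb' c hc' hne
      rcases Finset.mem_insert.1 hb' with h | h <;> rcases Finset.mem_insert.1 hc' with h' | h'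
      · exact absurd (h.trans h'.symm) hne
      · rw [h]; exact OdK_sub_comm (hall' c h')
      · rw [h']; exact hall' b h
      · exact h2 b h c h' hne
    · intro b hb'
      rcases Finset.mem_insert.1 hb' with h | h
      · rw [h]; exact hr'b
      · exact h3 b h
  have := hmax _ hins
  rw [Finset.card_insert_of_notMem hnot] at this
  omega

/-! ## The given spectrum -/

/-- the combinatorial properties of a spectrum of `μ` -/
structure IsA (N : ℕ → ℕ) (A : Set ℤ) : Prop where
  nonempty : A.Nonempty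
  diff : ∀ a ∈ A, ∀ b ∈ A, a ≠ b → Ev N (a - b)
  maximal : ∀ x, (∀ a ∈ A, Ev N (x - a)) → False

theorem IsA.full {N : ℕ → ℕ} {A : Set ℤ} (h : IsA N A) {K : ℕ} {a y : ℤ} (ha : a ∈ A)
    (hy : (P N (2 * K) : ℤ) ∣ y - a) : ∃ a' ∈ A, (P N (2 * K + 1) : ℤ) ∣ y - a' := by
  by_contra hc
  push Not at hc
  apply h.maximal y
  intro a' ha'
  by_cases hd : (P N (2 * K) : ℤ) ∣ y - a'
  · exact ⟨K, hd, hc a' ha'⟩
  · have hne : a ≠ a' := by
      rintro rfl
      exact hd hy
    obtain ⟨i, h1, h2⟩ := h.diff a ha a' ha' hne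
    simp only at h1 h2
    have hi : i < K := by
      by_contra hcc
      push Not at hcc
      apply hd
      have h3 : (P N (2 * K) : ℤ) ∣ a - a' := (P_dvd_int N (by omega)).trans h1
      have := dvd_add hy h3
      simpa using this
    have e1 : (P N (2 * i) : ℤ) ∣ y - a := (P_dvd_int N (by omega)).trans hy
    have e2 : (P N (2 * i + 1) : ℤ) ∣ y - a := (P_dvd_int N (by omega)).trans hy
    refine ⟨i, ?_, ?_⟩
    · have := dvd_add e1 h1
      simpa using this
    · intro h3
      apply h2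
      have := dvd_sub h3 e2
      simpa using this

theorem IsA.avoid_level {N : ℕ → ℕ} {A : Set ℤ} (h : IsA N A) (X : Finset ℤ)
    (hX : ∀ x ∈ X, ∀ y ∈ X, x ≠ y → Od N (x - y)) (K : ℕ) :
    ∃ a ∈ A, ∀ x ∈ X, (P N (2 * K) : ℤ) ∣ x - a ∨ Od N (x - a) := by
  induction K with
  | zero =>
    obtain ⟨a, ha⟩ := h.nonempty
    refine ⟨a, ha, fun x _ => Or.inl ?_⟩
    simp [P_zero]
  | succ K ih =>
    obtain ⟨a, ha, hax⟩ := ih
    by_cases hne : ∃ x₀ ∈ X, (P N (2 * K) : ℤ) ∣ x₀ - a
    · obtain ⟨x₀, hx₀, hd₀⟩ := hne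
      obtain ⟨a', ha', hd'⟩ := h.full ha hd₀
      refine ⟨a', ha', ?_⟩
      have haa : (P N (2 * K) : ℤ) ∣ a - a' := by
        have h1 : (P N (2 * K) : ℤ) ∣ x₀ - a' := (P_dvd_int N (by omega)).trans hd'
        have := dvd_sub h1 hd₀
        simpa using this
      intro x hx
      by_cases hxa : (P N (2 * K) : ℤ) ∣ x - a
      · -- `x` agrees with `x₀` one digit further
        have hxx : (P N (2 * K + 1) : ℤ) ∣ x - x₀ := by
          by_cases he : x = x₀
          · rw [he]; simp
          · obtain ⟨i, h1, h2⟩ := hX x hx x₀ hx₀ he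
            simp only at h1 h2
            have hdiv : (P N (2 * K) : ℤ) ∣ x - x₀ := by
              have := dvd_sub hxa hd₀
              simpa using this
            have hi : K ≤ i := by
              by_contra hc
              push Not at hc
              exact h2 ((P_dvd_int N (by omega)).trans hdiv)
            exact (P_dvd_int N (by omega)).trans h1
        have hxa' : (P N (2 * K + 1) : ℤ) ∣ x - a' := by
          have := dvd_add hxx hd'
          simpa using this
        by_cases hfin : (P N (2 * (K + 1)) : ℤ) ∣ x - a'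
        · exact Or.inl hfin
        · exact Or.inr ⟨K, hxa', hfin⟩
      · right
        have h1 : Od N (x - a) := by
          rcases hax x hx with h1 | h1
          · exact absurd h1 hxa
          · exact h1
        refine OdK_Od (OdK_congr (Od_OdK h1 hxa) ?_)
        have : (x - a) - (x - a') = -(a - a') := by ring
        rw [this]
        exact (dvd_neg).2 haa
    · push Not at hne
      refine ⟨a, ha, fun x hx => Or.inr ?_⟩
      rcases hax x hx with h1 | h1
      · exact absurd h1 (hne x hx)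
      · exact h1

theorem exists_level {N : ℕ → ℕ} (hN : ∀ k, 2 ≤ N k) (z : ℤ) : ∃ K₀ : ℕ, ∀ K, K₀ ≤ K →
    |z| < P N (2 * K) := by
  refine ⟨z.natAbs, fun K hK => ?_⟩
  have h1 : K < 2 ^ K := Nat.lt_two_pow_self
  have h2 : 2 ^ K ≤ 2 ^ (2 * K) := Nat.pow_le_pow_right (by norm_num) (by omega)
  have h3 := two_pow_le_P hN (2 * K)
  rw [Int.abs_eq_natAbs]
  have : z.natAbs < P N (2 * K) := by omega
  exact_mod_cast this

/-- an element of `A` whose differences with finitely many given integers are all of odd type -/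
theorem IsA.avoid {N : ℕ → ℕ} (hN : ∀ k, 2 ≤ N k) {A : Set ℤ} (h : IsA N A) (X : Finset ℤ)
    (hX : ∀ x ∈ X, ∀ y ∈ X, x ≠ y → Od N (x - y)) (hXA : ∀ x ∈ X, x ∉ A) :
    ∃ a ∈ A, ∀ x ∈ X, Od N (x - a) := by
  by_contra hc
  push Not at hc
  have hclaim : ∃ x ∈ X, ∀ K, ∃ a ∈ A, (P N (2 * K) : ℤ) ∣ x - a := by
    by_contra hcc
    push Not at hcc
    choose! k hk using hcc
    obtain ⟨a, ha, hax⟩ := h.avoid_level X hX (X.sup k)
    obtain ⟨x, hx, hxo⟩ := hc a ha
    rcases hax x hx with h1 | h1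
    · have h2 : k x ≤ X.sup k := Finset.le_sup hx
      exact hk x hx a ha ((P_dvd_int N (by omega)).trans h1)
    · exact hxo h1
  obtain ⟨x, hx, hxK⟩ := hclaim
  apply h.maximal x
  intro a' ha'
  have hne : x - a' ≠ 0 := by
    intro h0
    apply hXA x hx
    have : x = a' := by omega
    rw [this]
    exact ha'
  obtain ⟨K, hK⟩ := exists_level hN (x - a')
  have hnd := not_dvd_of_lt hne (hK K le_rfl)
  obtain ⟨a, ha, hda⟩ := hxK K
  have haa' : a ≠ a' := by
    rintro rfl
    exact hnd hda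
  obtain ⟨i, h1, h2⟩ := h.diff a ha a' ha' haa'
  simp only at h1 h2
  have hi : i < K := by
    by_contra hcc
    push Not at hcc
    apply hnd
    have h3 : (P N (2 * K) : ℤ) ∣ a - a' := (P_dvd_int N (by omega)).trans h1
    have := dvd_add hda h3
    simpa using this
  have e1 : (P N (2 * i) : ℤ) ∣ x - a := (P_dvd_int N (by omega)).trans hda
  have e2 : (P N (2 * i + 1) : ℤ) ∣ x - a := (P_dvd_int N (by omega)).trans hda
  refine ⟨i, ?_, ?_⟩
  · have := dvd_add e1 h1
    simpa using this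
  · intro h3
    apply h2
    have := dvd_sub h3 e2
    simpa using this

/-- one step of the construction: cover `n` and fill a level -/
theorem IsA.stage {N : ℕ → ℕ} (hN : ∀ k, 2 ≤ N k) {A : Set ℤ} (h : IsA N A) (F : Finset ℤ)
    (hF : ∀ b ∈ F, ∀ c ∈ F, b ≠ c → Od N (b - c)) (n : ℤ) (K₀ : ℕ) :
    ∃ G : Finset ℤ, F ⊆ G ∧ (∃ a ∈ A, ∃ b ∈ G, a + b = n) ∧
      ∃ K, K₀ ≤ K ∧ (∀ b ∈ G, ∀ c ∈ G, b ≠ c → OdK N K (b - c)) ∧
        (∀ b ∈ G, 2 * |b| ≤ P N (2 * K)) ∧ DD N (fun i => 2 * i + 1) K ≤ G.card := by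
  classical
  -- cover
  obtain ⟨F₁, hF₁, hsub, a, ha, b, hb, hab⟩ : ∃ F₁ : Finset ℤ,
      (∀ b ∈ F₁, ∀ c ∈ F₁, b ≠ c → Od N (b - c)) ∧ F ⊆ F₁ ∧ ∃ a ∈ A, ∃ b ∈ F₁, a + b = n := by
    by_cases hex : ∃ b ∈ F, n - b ∈ A
    · obtain ⟨b, hb, hbA⟩ := hex
      exact ⟨F, hF, Finset.Subset.refl _, n - b, hbA, b, hb, by ring⟩
    · push Not at hex
      obtain ⟨a, ha, hax⟩ := h.avoid hN (F.image (fun b => n - b)) (by
        intro x hx y hy hne
        obtain ⟨b, hb, rfl⟩ := Finset.mem_image.1 hx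
        obtain ⟨c, hc, rfl⟩ := Finset.mem_image.1 hy
        have h1 : n - b - (n - c) = c - b := by ring
        rw [h1]
        exact hF c hc b hb (fun h => hne (by rw [h]))) (by
        intro x hx
        obtain ⟨b, hb, rfl⟩ := Finset.mem_image.1 hx
        exact hex b hb)
      have hod : ∀ c ∈ F, Od N ((n - a) - c) := by
        intro c hc
        have := hax (n - c) (Finset.mem_image.2 ⟨c, hc, rfl⟩)
        have h1 : n - c - a = (n - a) - c := by ring
        rwa [h1] at this
      refine ⟨insert (n - a) F, ?_, Finset.subset_insert _ _, a, ha, n - a,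
        Finset.mem_insert_self _ _, by ring⟩
      intro b hb c hc hne
      rcases Finset.mem_insert.1 hb with h1 | h1 <;> rcases Finset.mem_insert.1 hc with h2 | h2
      · exact absurd (h1.trans h2.symm) hne
      · rw [h1]; exact hod c h2
      · rw [h2]; exact Od_sub_comm (hod b h1)
      · exact hF b h1 c h2 hne
  -- a level
  have hlev : ∃ K, K₀ ≤ K ∧ ∀ b ∈ F₁, 4 * |b| < P N (2 * K) := by
    have : ∀ b : ℤ, ∃ K₁ : ℕ, ∀ K, K₁ ≤ K → |4 * b| < P N (2 * K) := fun b => exists_level hN _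
    choose k hk using this
    refine ⟨max K₀ (F₁.sup k), le_max_left _ _, fun b hb => ?_⟩
    have h1 := hk b (max K₀ (F₁.sup k)) ((Finset.le_sup hb).trans (le_max_right _ _))
    rw [abs_mul] at h1
    simpa using h1
  obtain ⟨K, hK, hKb⟩ := hlev
  obtain ⟨G, hG1, hG2, hG3, hG4⟩ := extend hN F₁ K (by
    intro b hb c hc hne
    apply Od_OdK (hF₁ b hb c hc hne)
    apply not_dvd_of_lt (sub_ne_zero.2 hne)
    have h1 := hKb b hb
    have h2 := hKb c hc
    have h3 := abs_sub b c
    have h4 := abs_nonneg b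
    have h5 := abs_nonneg c
    omega) (by
    intro b hb
    have h1 := hKb b hb
    have h4 := abs_nonneg b
    omega)
  exact ⟨G, hsub.trans hG1, ⟨a, ha, b, hG1 hb, hab⟩, K, hK, hG2, hG3, hG4⟩

end Pool.Agent.V1187.CS
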