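import Pool.Agent.V1187.Comp3

/-!
# The complementary spectrum
-/

set_option autoImplicit false

open MeasureTheory Filter Topology Set

namespace Pool.Agent.V1187.CS

open Pool.Agent.V1187.SP

/-- `A ⊕ B = ℤ`: every sum is an integer, and every integer has exactly one representation. -/
def OplusZ (A B : Set ℝ) : Prop :=
  (∀ a ∈ A, ∀ b ∈ B, ∃ n : ℤ, a + b = n) ∧
    ∀ n : ℤ, ∃! ab : ℝ × ℝ, ab.1 ∈ A ∧ ab.2 ∈ B ∧ ab.1 + ab.2 = n

theorem charFun_of_pf {μ : Measure ℝ} {ξ : ℝ} (h : pf μ ξ = 0) :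
    charFun μ (2 * Real.pi * ξ) = 0 := by
  unfold pf at h
  exact norm_eq_zero.1 ((pow_eq_zero_iff two_ne_zero).1 h)

theorem pf_of_charFun {μ : Measure ℝ} {ξ : ℝ} (h : charFun μ (2 * Real.pi * ξ) = 0) :
    pf μ ξ = 0 := by
  unfold pf
  rw [h]
  simp

theorem even_step : ∀ i, (fun i : ℕ => 2 * i) (i + 1) = (fun i : ℕ => 2 * i) i + 2 := by
  intro i; simp only; omega

theorem odd_step : ∀ i, (fun i : ℕ => 2 * i + 1) (i + 1) = (fun i : ℕ => 2 * i + 1) i + 2 := by
  intro i; simp only; omega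

/-- the combinatorial structure of a spectrum of `μ` -/
theorem spectrum_isA {N : ℕ → ℕ} (hN : ∀ k, 2 ≤ N k) {μ : Measure ℝ}
    (hμ : IsInfConv (fun i => nu N (2 * i)) μ) {L : Set ℝ} (hL : IsSpectralPair μ L) :
    ∃ (t : ℝ) (A : Set ℤ), IsA N A ∧ L = (fun m : ℤ => t + (m : ℝ)) '' A := by
  have hprob := hL.prob
  -- the spectrum is not empty
  have hne : L.Nonempty := by
    by_contra hemp
    rw [Set.not_nonempty_iff_eq_empty] at hemp
    have h1 := hL.total (ex 0) (memLp_ex μ 0) (by rw [hemp]; simp)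
    have h2 : ∀ᵐ x ∂μ, False := by
      filter_upwards [h1] with x hx
      have := norm_ex 0 x
      rw [hx] at this
      simp at this
    rw [ae_iff] at h2
    simp at h2
  obtain ⟨t, ht⟩ := hne
  have hz : ∀ l ∈ L, ∀ k ∈ L, l ≠ k → ∃ z : ℤ, k - l = z ∧ Ev N z := by
    intro l hl k hk hlk
    have h1 := hL.orthonormal l hl k hk
    rw [if_neg hlk, integral_ex_mul] at h1
    exact (pf_eq_zero_iff (e := fun i => 2 * i) hN even_step hμ (k - l)).1 (pf_of_charFun h1)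
  refine ⟨t, {m : ℤ | t + (m : ℝ) ∈ L}, ⟨⟨0, by simpa using ht⟩, ?_, ?_⟩, ?_⟩
  · intro a ha b hb hab
    obtain ⟨z, hz1, hz2⟩ := hz (t + b) hb (t + a) ha (by
      intro h
      apply hab
      have : (b : ℝ) = a := by linarith
      exact_mod_cast this.symm)
    have : z = a - b := by
      have h : ((z : ℤ) : ℝ) = ((a - b : ℤ) : ℝ) := by
        rw [← hz1]; push_cast; ring
      exact_mod_cast h
    rw [← this]
    exact hz2
  · intro x hx
    have h1 := hL.total (ex (t + x)) (memLp_ex μ _) (by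
      intro l hl
      obtain ⟨a, ha, rfl⟩ : ∃ a : ℤ, t + (a : ℝ) ∈ L ∧ l = t + a := by
        by_cases hlt : l = t
        · exact ⟨0, by simpa using ht, by simp [hlt]⟩
        · obtain ⟨z, hz1, -⟩ := hz t ht l hl (Ne.symm hlt)
          have : l = t + z := by linarith
          exact ⟨z, by rw [← this]; exact hl, this⟩
      rw [integral_ex_mul]
      apply charFun_of_pf
      have h2 : t + (a : ℝ) - (t + x) = ((-(x - a) : ℤ) : ℝ) := by push_cast; ring
      rw [h2]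
      exact (pf_eq_zero_iff (e := fun i => 2 * i) hN even_step hμ _).2
        ⟨_, rfl, Df_neg (hx a ha)⟩)
    have h2 : ∀ᵐ y ∂μ, False := by
      filter_upwards [h1] with y hy
      have := norm_ex (t + x) y
      rw [hy] at this
      simp at this
    rw [ae_iff] at h2
    simp at h2
  · ext l
    constructor
    · intro hl
      by_cases hlt : l = t
      · exact ⟨0, by simpa using ht, by simp [hlt]⟩
      · obtain ⟨z, hz1, -⟩ := hz t ht l hl (Ne.symm hlt)
        have : l = t + z := by linarith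
        exact ⟨z, by show t + (z : ℝ) ∈ L; rw [← this]; exact hl, this.symm⟩
    · rintro ⟨m, hm, rfl⟩
      exact hm

/-! ## Compact support -/

theorem nu_support {N : ℕ → ℕ} (hN : ∀ k, 2 ≤ N k) (k : ℕ) :
    nu N k (Icc (0 : ℝ) ((1 / 2) ^ k))ᶜ = 0 := by
  rw [nu, Measure.smul_apply, Measure.finset_sum_apply]
  have : ∑ j ∈ Finset.range (N k), (Measure.dirac ((j : ℝ) / P N (k + 1)))
      (Icc (0 : ℝ) ((1 / 2) ^ k))ᶜ = 0 := by
    refine Finset.sum_eq_zero fun j hj => ?_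
    rw [Measure.dirac_apply' _ measurableSet_Icc.compl, Set.indicator_of_notMem]
    rw [Set.notMem_compl_iff]
    have hP : (0 : ℝ) < P N (k + 1) := by exact_mod_cast P_pos hN (k + 1)
    refine ⟨by positivity, ?_⟩
    rw [div_le_iff₀ hP]
    have h1 : j ≤ N k := (Finset.mem_range.1 hj).le
    have h2 : (2 : ℝ) ^ k ≤ P N k := by exact_mod_cast two_pow_le_P hN k
    have h3 : (P N (k + 1) : ℝ) = P N k * N k := by rw [P_succ]; push_cast; ring
    have h4 : ((1 : ℝ) / 2) ^ k * 2 ^ k = 1 := by rw [← mul_pow]; norm_num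
    have h5 : (j : ℝ) ≤ N k := by exact_mod_cast h1
    rw [h3]
    have h6 : (0 : ℝ) ≤ N k := Nat.cast_nonneg _
    have h7 : (0 : ℝ) < (1 / 2) ^ k := by positivity
    calc (j : ℝ) ≤ N k := h5
      _ = ((1 / 2) ^ k * 2 ^ k) * N k := by rw [h4, one_mul]
      _ = (1 / 2) ^ k * (2 ^ k * N k) := by ring
      _ ≤ (1 / 2) ^ k * (P N k * N k) := by
          apply mul_le_mul_of_nonneg_left _ h7.le
          exact mul_le_mul_of_nonneg_right h2 h6
  rw [this]
  simp

theorem conv_support {μ ν : Measure ℝ} [SFinite μ] [SFinite ν] {a b : ℝ}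
    (hμ : μ (Icc (0 : ℝ) a)ᶜ = 0) (hν : ν (Icc (0 : ℝ) b)ᶜ = 0) :
    (Measure.conv μ ν) (Icc (0 : ℝ) (a + b))ᶜ = 0 := by
  rw [Measure.conv, Measure.map_apply measurable_add measurableSet_Icc.compl,
    Measure.measure_prod_null (measurable_add measurableSet_Icc.compl)]
  have h1 : ∀ᵐ x ∂μ, x ∈ Icc (0 : ℝ) a := by
    rw [ae_iff]
    exact hμ
  filter_upwards [h1] with x hx
  refine measure_mono_null ?_ hν
  intro y hy hyb
  apply hy
  exact ⟨add_nonneg hx.1 hyb.1, add_le_add hx.2 hyb.2⟩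

theorem convN_support {N e : ℕ → ℕ} (hN : ∀ k, 2 ≤ N k) (he : ∀ i, i ≤ e i) (n : ℕ) :
    convN (fun i => nu N (e i)) n (Icc (0 : ℝ) 2)ᶜ = 0 := by
  have key : ∀ n, convN (fun i => nu N (e i)) n
      (Icc (0 : ℝ) (∑ i ∈ Finset.range n, (1 / 2) ^ i))ᶜ = 0 := by
    intro n
    induction n with
    | zero =>
      show (Measure.dirac (0 : ℝ)) _ = 0
      rw [Measure.dirac_apply' _ measurableSet_Icc.compl, Set.indicator_of_notMem]
      simp
    | succ n ih =>
      have hs : ∀ n, IsProbabilityMeasure ((fun i => nu N (e i)) n) := fun n => isProb_nu hN _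
      have h1 := isProb_convN hs n
      have h2 := isProb_nu hN (e n)
      rw [Finset.sum_range_succ]
      refine conv_support ih ?_
      refine measure_mono_null ?_ (nu_support hN (e n))
      apply compl_subset_compl.2
      apply Icc_subset_Icc_right
      exact pow_le_pow_of_le_one (by norm_num) (by norm_num) (he n)
  refine measure_mono_null ?_ (key n)
  apply compl_subset_compl.2
  apply Icc_subset_Icc_right
  rw [geom_sum_eq (by norm_num)]
  have : (0 : ℝ) < (1 / 2) ^ n := by positivity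
  rw [show ((1 / 2 : ℝ) ^ n - 1) / (1 / 2 - 1) = 2 * (1 - (1 / 2) ^ n) by ring]
  linarith

theorem infConv_support {N e : ℕ → ℕ} (hN : ∀ k, 2 ≤ N k) (he : ∀ i, i ≤ e i) {μ : Measure ℝ}
    (h : IsInfConv (fun i => nu N (e i)) μ) : μ (Icc (0 : ℝ) 2)ᶜ = 0 := by
  obtain ⟨ρ, ρ₀, h1, rfl, hl⟩ := h
  have h2 := ProbabilityMeasure.le_liminf_measure_open_of_tendsto hl
    (isClosed_Icc (a := (0 : ℝ)) (b := 2)).isOpen_compl
  have h3 : ∀ n, (ρ n : Measure ℝ) (Icc (0 : ℝ) 2)ᶜ = 0 := by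
    intro n
    rw [h1]
    exact convN_support hN he n
  simp only [h3] at h2
  simpa using h2

/-! ## The mass -/

theorem W_zero_of_OdK {N : ℕ → ℕ} (hN : ∀ k, 2 ≤ N k) {K : ℕ} {z : ℤ} (h : OdK N K z) :
    W N (fun i => 2 * i + 1) K (z : ℝ) = 0 := by
  obtain ⟨i, hi, h1, h2⟩ := h
  rw [W, Finset.prod_eq_zero_iff]
  refine ⟨i, Finset.mem_range.2 hi, ?_⟩
  exact (m_eq_zero_iff hN (2 * i + 1) (z : ℝ)).2 ⟨z, rfl, h1, h2⟩

theorem tendsto_mass {N : ℕ → ℕ} (hN : ∀ k, 2 ≤ N k) {ν : Measure ℝ}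
    (hν : IsInfConv (fun i => nu N (2 * i + 1)) ν) (F : ℕ → Finset ℤ) (K : ℕ → ℕ)
    (hmono : ∀ i j, i ≤ j → F i ⊆ F j) (hK : ∀ i, i ≤ K i)
    (hF : ∀ i, ∀ b ∈ F i, ∀ c ∈ F i, b ≠ c → OdK N (K i) (b - c))
    (hb : ∀ i, ∀ b ∈ F i, 2 * |b| ≤ P N (2 * K i))
    (hcard : ∀ i, DD N (fun i => 2 * i + 1) (K i) ≤ (F i).card) (y : ℝ) :
    ∀ ε : ℝ, 0 < ε → ∃ j : ℕ, 1 - ε < ∑ b ∈ F j, pf ν (y + b) := by
  set e : ℕ → ℕ := fun i => 2 * i + 1 with he
  set S : ℕ → ℝ := fun j => ∑ b ∈ F j, pf ν (y + b) with hS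
  have hsum : ∀ j, ∑ b ∈ F j, W N e (K j) (y + b) = 1 := by
    intro j
    refine sum_W_eq_one hN (K j) (F j) ?_ (hcard j) y
    intro b hb' c hc' hne
    have := W_zero_of_OdK hN (hF j b hb' c hc' hne)
    push_cast at this
    exact this
  have hle : ∀ j, S j ≤ 1 := by
    intro j
    rw [← hsum j]
    refine Finset.sum_le_sum fun b _ => pf_le_W hN hν _ _
  have hbdd : BddAbove (Set.range S) := ⟨1, by rintro _ ⟨j, rfl⟩; exact hle j⟩
  set s := ⨆ j, S j with hs
  have hSs : ∀ j, S j ≤ s := fun j => le_ciSup hbdd j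
  have hmain : ∀ j, S j + 1 / 10 * (1 - S j) ≤ s := by
    intro j
    have hev : ∀ᶠ i : ℕ in atTop, j ≤ i ∧ 34 * |y| ≤ (P N (2 * K i + 1) : ℝ) := by
      have h1 : ∀ᶠ i : ℕ in atTop, 34 * |y| ≤ (2 : ℝ) ^ i := by
        have : Tendsto (fun i : ℕ => (2 : ℝ) ^ i) atTop atTop :=
          tendsto_pow_atTop_atTop_of_one_lt (by norm_num)
        exact this.eventually (eventually_ge_atTop _)
      refine (eventually_ge_atTop j).and (h1.mono fun i hi => hi.trans ?_)
      have h2 : 2 ^ i ≤ P N (2 * K i + 1) := by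
        have := hK i
        exact (Nat.pow_le_pow_right (by norm_num) (by omega)).trans (two_pow_le_P hN _)
      exact_mod_cast h2
    have hstep : ∀ᶠ i : ℕ in atTop, S j + 1 / 10 * (1 - ∑ b ∈ F j, W N e (K i) (y + b)) ≤ s := by
      filter_upwards [hev] with i hi
      obtain ⟨hji, hy⟩ := hi
      have hT := hmono j i hji
      have h1 : ∑ w ∈ F i \ F j, pf ν (y + w) + S j = S i := Finset.sum_sdiff hT
      have h2 : ∑ w ∈ F i \ F j, W N e (K i) (y + w) + ∑ w ∈ F j, W N e (K i) (y + w) = 1 := by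
        rw [Finset.sum_sdiff hT]
        exact hsum i
      have h3 : 1 / 10 * ∑ w ∈ F i \ F j, W N e (K i) (y + w) ≤ ∑ w ∈ F i \ F j, pf ν (y + w) := by
        rw [Finset.mul_sum]
        refine Finset.sum_le_sum fun w hw => ?_
        have hwT := (Finset.mem_sdiff.1 hw).1
        refine pf_ge hN odd_step hν ?_
        have h5 : 2 * |w| ≤ P N (2 * K i) := hb i w hwT
        have h6 : (2 : ℝ) * |(w : ℝ)| ≤ P N (2 * K i) := by exact_mod_cast h5
        have h7 : 2 * (P N (2 * K i) : ℝ) ≤ P N (2 * K i + 1) := by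
          exact_mod_cast P_succ_ge hN (2 * K i)
        have h8 : |y + w| ≤ |y| + |(w : ℝ)| := abs_add_le _ _
        show |y + (w : ℝ)| ≤ 7 / 25 * (P N (2 * K i + 1) : ℝ)
        linarith
      have h4 := hSs i
      nlinarith
    have hlim : Tendsto (fun i : ℕ => S j + 1 / 10 * (1 - ∑ b ∈ F j, W N e (K i) (y + b))) atTop
        (𝓝 (S j + 1 / 10 * (1 - S j))) := by
      have hKt : Tendsto K atTop atTop := tendsto_atTop_mono hK tendsto_id
      have h1 : Tendsto (fun i : ℕ => ∑ w ∈ F j, W N e (K i) (y + w)) atTop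
          (𝓝 (∑ w ∈ F j, pf ν (y + w))) :=
        tendsto_finsetSum _ fun w _ => (tendsto_W hN hν (y + w)).comp hKt
      exact ((h1.const_sub 1).const_mul (1 / 10)).const_add (S j)
    exact le_of_tendsto hlim hstep
  have hs1 : 1 ≤ s := by
    by_contra hcon
    push Not at hcon
    obtain ⟨j, hj⟩ := exists_lt_of_lt_ciSup (show s - 1 / 10 * (1 - s) < s by linarith)
    have h1 := hmain j
    have h2 := hSs j
    have h4 : s - 1 / 10 * (1 - s) < S j := hj
    linarith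
  intro ε hε
  obtain ⟨j, hj⟩ := exists_lt_of_lt_ciSup (show 1 - ε < s by linarith)
  exact ⟨j, hj⟩

/-- Every spectrum of the first factor has a complementary spectrum of the second. -/
theorem complementary {N : ℕ → ℕ} (hN : ∀ k, 2 ≤ N k) {μ ν : Measure ℝ}
    (hμ : IsInfConv (fun i => nu N (2 * i)) μ) (hν : IsInfConv (fun i => nu N (2 * i + 1)) ν)
    {L : Set ℝ} (hL : IsSpectralPair μ L) :
    ∃ L' : Set ℝ, IsSpectralPair ν L' ∧ OplusZ L L' := by
  classical
  obtain ⟨t, A, hA, rfl⟩ := spectrum_isA hN hμ hL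
  obtain ⟨f, hf⟩ := exists_surjective_nat ℤ
  -- the stages
  have hstep : ∀ (j : ℕ) (F : {F : Finset ℤ // ∀ b ∈ F, ∀ c ∈ F, b ≠ c → Od N (b - c)}),
      ∃ G : {F : Finset ℤ // ∀ b ∈ F, ∀ c ∈ F, b ≠ c → Od N (b - c)}, F.1 ⊆ G.1 ∧
        (∃ a ∈ A, ∃ b ∈ G.1, a + b = f j) ∧
        ∃ K, j ≤ K ∧ (∀ b ∈ G.1, ∀ c ∈ G.1, b ≠ c → OdK N K (b - c)) ∧
          (∀ b ∈ G.1, 2 * |b| ≤ P N (2 * K)) ∧ DD N (fun i => 2 * i + 1) K ≤ G.1.card := by
    rintro j ⟨F, hF⟩
    obtain ⟨G, h1, h2, K, h3, h4, h5, h6⟩ := hA.stage hN F hF (f j) j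
    exact ⟨⟨G, fun b hb c hc hne => OdK_Od (h4 b hb c hc hne)⟩, h1, h2, K, h3, h4, h5, h6⟩
  choose nx hnx1 hnx2 hnx3 using hstep
  choose KK hK1 hK2 hK3 hK4 using hnx3
  let sq : ℕ → {F : Finset ℤ // ∀ b ∈ F, ∀ c ∈ F, b ≠ c → Od N (b - c)} :=
    fun n => Nat.rec ⟨∅, by simp⟩ (fun j F => nx j F) n
  have hsq : ∀ j, sq (j + 1) = nx j (sq j) := fun j => rfl
  set F : ℕ → Finset ℤ := fun j => (sq (j + 1)).1 with hFdef
  set K : ℕ → ℕ := fun j => KK j (sq j) with hKdef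
  have hFm : ∀ j, F j ⊆ F (j + 1) := by
    intro j
    show (sq (j + 1)).1 ⊆ (sq (j + 2)).1
    rw [hsq (j + 1)]
    exact hnx1 (j + 1) (sq (j + 1))
  have hmono : ∀ i j, i ≤ j → F i ⊆ F j := by
    intro i j hij
    induction hij with
    | refl => exact Finset.Subset.refl _
    | step _ ih => exact ih.trans (hFm _)
  set B : Set ℤ := {b | ∃ j, b ∈ F j} with hB
  have hBod : ∀ b ∈ B, ∀ c ∈ B, b ≠ c → Od N (b - c) := by
    rintro b ⟨i, hi⟩ c ⟨j, hj⟩ hne
    exact (sq (max i j + 1)).2 b (hmono i _ (le_max_left _ _) hi) c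
      (hmono j _ (le_max_right _ _) hj) hne
  have hcover : ∀ n : ℤ, ∃ a ∈ A, ∃ b ∈ B, a + b = n := by
    intro n
    obtain ⟨j, hj⟩ := hf n
    obtain ⟨a, ha, b, hb, hab⟩ := hnx2 j (sq j)
    exact ⟨a, ha, b, ⟨j, hb⟩, by rw [hab, hj]⟩
  have hprob := isProb_infConv hν
  have hzero : ∀ l ∈ (fun m : ℤ => -t + (m : ℝ)) '' B, ∀ k ∈ (fun m : ℤ => -t + (m : ℝ)) '' B,
      l ≠ k → charFun ν (2 * Real.pi * (k - l)) = 0 := by
    rintro _ ⟨b, hb, rfl⟩ _ ⟨c, hc, rfl⟩ hne
    apply charFun_of_pf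
    have h2 : -t + (c : ℝ) - (-t + b) = ((c - b : ℤ) : ℝ) := by push_cast; ring
    show pf ν (-t + (c : ℝ) - (-t + b)) = 0
    rw [h2]
    refine (pf_eq_zero_iff (e := fun i => 2 * i + 1) hN odd_step hν _).2
      ⟨_, rfl, hBod c hc b hb ?_⟩
    rintro rfl
    exact hne rfl
  refine ⟨(fun m : ℤ => -t + (m : ℝ)) '' B, ⟨hprob, ?_, ?_, ?_, ?_⟩, ?_, ?_⟩
  · exact ⟨Icc 0 2, isCompact_Icc, infConv_support hN (fun i => by omega) hν⟩
  · exact (Set.to_countable B).image _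
  · intro l hl k hk
    rw [integral_ex_mul]
    split_ifs with h
    · rw [h, sub_self, mul_zero, charFun_zero]; simp
    · exact hzero l hl k hk h
  · intro g hg h0
    apply total_of_mass hzero _ g hg h0
    intro y ε hε
    obtain ⟨j, hj⟩ := tendsto_mass hN hν F K hmono (fun i => hK1 i (sq i))
      (fun i => hK2 i (sq i)) (fun i => hK3 i (sq i)) (fun i => hK4 i (sq i)) (-t - y) ε hε
    refine ⟨(F j).image (fun m : ℤ => -t + (m : ℝ)), ?_, ?_⟩
    · intro x hx
      simp only [Finset.coe_image, Set.mem_image, Finset.mem_coe] at hx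
      obtain ⟨w, hw, rfl⟩ := hx
      exact ⟨w, ⟨j, hw⟩, rfl⟩
    · rw [Finset.sum_image]
      · refine hj.trans_le (le_of_eq ?_)
        refine Finset.sum_congr rfl fun w _ => ?_
        show pf ν (-t - y + w) = pf ν (-t + w - y)
        congr 1
        ring
      · intro a _ b _ hab
        have : (a : ℝ) = b := by
          have : -t + (a : ℝ) = -t + b := hab
          linarith
        exact_mod_cast this
  · rintro _ ⟨a, _, rfl⟩ _ ⟨b, _, rfl⟩
    exact ⟨a + b, by push_cast; ring⟩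
  · intro n
    obtain ⟨a, ha, b, hb, hab⟩ := hcover n
    refine ⟨(t + a, -t + b), ⟨⟨a, ha, rfl⟩, ⟨b, hb, rfl⟩, ?_⟩, ?_⟩
    · rw [← hab]; push_cast; ring
    · rintro ⟨x, y⟩ ⟨⟨a', ha', hx⟩, ⟨b', hb', hy⟩, hxy⟩
      simp only at hx hy hxy
      have h1 : a' + b' = n := by
        have : ((a' + b' : ℤ) : ℝ) = n := by
          rw [← hxy, ← hx, ← hy]; push_cast; ring
        exact_mod_cast this
      have h2 : a = a' := by
        by_contra hne
        have h3 := hA.diff a ha a' ha' hne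
        have h4 : b ≠ b' := by
          rintro rfl
          apply hne
          omega
        have h5 := Od_sub_comm (hBod b hb b' hb' h4)
        have h6 : a - a' = b' - b := by omega
        rw [h6] at h3
        exact not_Ev_Od h3 h5
      have h3 : b = b' := by omega
      rw [← hx, ← hy, h2, h3]

end Pool.Agent.V1187.CS
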