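import Mathlib

/-!
# Spectral pairs on the line
-/

set_option autoImplicit false

open Set MeasureTheory Filter Topology ENNReal

namespace Pool.Agent.V1187.SP

/-- The exponential `e_l (x) = exp (-2 π i l x)`. -/
noncomputable def ex (l x : ℝ) : ℂ := Complex.exp (-(2 * Real.pi * l * x : ℝ) * Complex.I)

/-- `(μ, L)` is a spectral pair: `μ` is a Borel probability measure on the line with compact support,
`L` is countable, and the exponentials `e_l`, `l ∈ L`, form an orthonormal basis of `L²(μ)`, that is,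
they are orthonormal and each `f` in `L²(μ)` which is orthogonal to all of them is zero. -/
structure IsSpectralPair (μ : Measure ℝ) (L : Set ℝ) : Prop where
  prob : IsProbabilityMeasure μ
  compact_support : ∃ K : Set ℝ, IsCompact K ∧ μ Kᶜ = 0
  countable : L.Countable
  orthonormal : ∀ l ∈ L, ∀ m ∈ L, ∫ x, ex l x * starRingEnd ℂ (ex m x) ∂μ = if l = m then 1 else 0
  total : ∀ f : ℝ → ℂ, MemLp f 2 μ → (∀ l ∈ L, ∫ x, f x * starRingEnd ℂ (ex l x) ∂μ = 0) →
    f =ᵐ[μ] 0

theorem continuous_ex (l : ℝ) : Continuous (ex l) := by unfold ex; fun_prop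

theorem norm_ex (l x : ℝ) : ‖ex l x‖ = 1 := by
  unfold ex
  have : -((2 * Real.pi * l * x : ℝ) : ℂ) = ((-(2 * Real.pi * l * x) : ℝ) : ℂ) := by push_cast; ring
  rw [this, Complex.norm_exp_ofReal_mul_I]

theorem conj_ex (l x : ℝ) : starRingEnd ℂ (ex l x) = ex (-l) x := by
  unfold ex
  rw [← Complex.exp_conj]
  congr 1
  rw [map_mul, Complex.conj_I, map_neg, Complex.conj_ofReal]
  push_cast
  ring

theorem ex_mul (l m x : ℝ) : ex l x * ex m x = ex (l + m) x := by
  unfold ex
  rw [← Complex.exp_add]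
  congr 1
  push_cast
  ring

theorem integral_ex (μ : Measure ℝ) (l : ℝ) : ∫ x, ex l x ∂μ = charFun μ (-(2 * Real.pi * l)) := by
  rw [charFun_apply_real]
  congr 1
  funext x
  unfold ex
  congr 1
  push_cast
  ring

theorem integral_ex_mul (μ : Measure ℝ) (l m : ℝ) : ∫ x, ex l x * starRingEnd ℂ (ex m x) ∂μ =
    charFun μ (2 * Real.pi * (m - l)) := by
  simp only [conj_ex, ex_mul]
  rw [integral_ex]
  congr 1
  ring

theorem memLp_ex (μ : Measure ℝ) [IsFiniteMeasure μ] (l : ℝ) : MemLp (ex l) 2 μ :=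
  MemLp.of_bound (continuous_ex l).aestronglyMeasurable 1
    (Eventually.of_forall fun x => (norm_ex l x).le)

/-- A real integrable function whose Fourier coefficients all vanish is zero. -/
theorem real_zero {μ : Measure ℝ} [IsFiniteMeasure μ] {h : ℝ → ℝ} (hi : Integrable h μ)
    (h0 : ∀ t : ℝ, ∫ x, (h x : ℂ) * Complex.exp (t * x * Complex.I) ∂μ = 0) : h =ᵐ[μ] 0 := by
  have hm : AEMeasurable h μ := hi.aemeasurable
  have m1 : AEMeasurable (fun x => ENNReal.ofReal (h x)) μ := hm.ennreal_ofReal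
  have m2 : AEMeasurable (fun x => ENNReal.ofReal (-h x)) μ := hm.neg.ennreal_ofReal
  have f1 : IsFiniteMeasure (μ.withDensity fun x => ENNReal.ofReal (h x)) :=
    isFiniteMeasure_withDensity_ofReal hi.2
  have f2 : IsFiniteMeasure (μ.withDensity fun x => ENNReal.ofReal (-h x)) :=
    isFiniteMeasure_withDensity_ofReal hi.neg.2
  have heq : (μ.withDensity fun x => ENNReal.ofReal (h x)) =
      μ.withDensity fun x => ENNReal.ofReal (-h x) := by
    apply Measure.ext_of_charFun
    funext t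
    rw [charFun_apply_real, charFun_apply_real, integral_withDensity_eq_integral_toReal_smul₀ m1
      (Eventually.of_forall fun x => ENNReal.ofReal_lt_top),
      integral_withDensity_eq_integral_toReal_smul₀ m2
      (Eventually.of_forall fun x => ENNReal.ofReal_lt_top), ← sub_eq_zero]
    have hb : ∀ g : ℝ → ℝ, Integrable g μ →
        Integrable (fun x => g x • Complex.exp (t * x * Complex.I)) μ := by
      intro g hg
      simp only [Complex.real_smul]
      refine hg.ofReal.mul_bdd (c := 1) ?_ ?_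
      · exact (by fun_prop : Continuous fun x : ℝ => Complex.exp (t * x * Complex.I)
          ).aestronglyMeasurable
      · refine Eventually.of_forall fun x => ?_
        have : (t * (x : ℂ) * Complex.I) = ((t * x : ℝ) : ℂ) * Complex.I := by push_cast; ring
        rw [this, Complex.norm_exp_ofReal_mul_I]
    rw [← integral_sub]
    · rw [← h0 t]
      congr 1
      funext x
      rw [ENNReal.toReal_ofReal', ENNReal.toReal_ofReal', ← sub_smul]
      have : max (h x) 0 - max (-h x) 0 = h x := by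
        rcases le_total (h x) 0 with h1 | h1
        · rw [max_eq_right h1, max_eq_left (by linarith)]; ring
        · rw [max_eq_left h1, max_eq_right (by linarith)]; ring
      rw [this, Complex.real_smul]
    · exact hb _ (by simpa [ENNReal.toReal_ofReal'] using hi.pos_part)
    · exact hb _ (by simpa [ENNReal.toReal_ofReal'] using hi.neg_part)
  have hne : ∫⁻ x, ENNReal.ofReal (h x) ∂μ ≠ ∞ := by
    have := measure_ne_top (μ.withDensity fun x => ENNReal.ofReal (h x)) Set.univ
    rwa [withDensity_apply _ MeasurableSet.univ, setLIntegral_univ] at this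
  have := (withDensity_eq_iff m1 m2 hne).1 heq
  filter_upwards [this] with x hx
  show h x = 0
  rcases le_total (h x) 0 with h1 | h1
  · rw [ENNReal.ofReal_of_nonpos h1, eq_comm, ENNReal.ofReal_eq_zero] at hx
    linarith
  · rw [ENNReal.ofReal_of_nonpos (show -h x ≤ 0 by linarith), ENNReal.ofReal_eq_zero] at hx
    linarith

/-- A complex integrable function whose Fourier coefficients all vanish is zero. -/
theorem complex_zero {μ : Measure ℝ} [IsFiniteMeasure μ] {f : ℝ → ℂ} (hi : Integrable f μ)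
    (h0 : ∀ t : ℝ, ∫ x, f x * Complex.exp (t * x * Complex.I) ∂μ = 0) : f =ᵐ[μ] 0 := by
  have hb : ∀ (g : ℝ → ℂ) (t : ℝ), Integrable g μ →
      Integrable (fun x => g x * Complex.exp (t * x * Complex.I)) μ := by
    intro g t hg
    refine hg.mul_bdd (c := 1) ?_ ?_
    · exact (by fun_prop : Continuous fun x : ℝ => Complex.exp (t * x * Complex.I)
        ).aestronglyMeasurable
    · refine Eventually.of_forall fun x => ?_
      have : (t * (x : ℂ) * Complex.I) = ((t * x : ℝ) : ℂ) * Complex.I := by push_cast; ring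
      rw [this, Complex.norm_exp_ofReal_mul_I]
  have hconj : ∀ t : ℝ, ∫ x, starRingEnd ℂ (f x) * Complex.exp (t * x * Complex.I) ∂μ = 0 := by
    intro t
    have h1 := congrArg (starRingEnd ℂ) (h0 (-t))
    rw [map_zero, ← integral_conj] at h1
    rw [← h1]
    congr 1
    funext x
    rw [map_mul, ← Complex.exp_conj]
    congr 2
    simp
  have hci : Integrable (fun x => starRingEnd ℂ (f x)) μ := by
    have := (Complex.conjCLE.toContinuousLinearMap).integrable_comp hi
    exact this
  have hre : (fun x => (f x).re) =ᵐ[μ] 0 := by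
    apply real_zero hi.re
    intro t
    have h1 : ∀ x, (((f x).re : ℝ) : ℂ) * Complex.exp (t * x * Complex.I) =
        (1 / 2 : ℂ) * (f x * Complex.exp (t * x * Complex.I)) +
        (1 / 2 : ℂ) * (starRingEnd ℂ (f x) * Complex.exp (t * x * Complex.I)) := by
      intro x
      rw [Complex.re_eq_add_conj]
      ring
    have h2 : ∀ x, ((RCLike.re (f x) : ℝ) : ℂ) = ((f x).re : ℂ) := fun x => rfl
    simp only [h1, h2]
    rw [integral_add ((hb f t hi).const_mul _) ((hb _ t hci).const_mul _),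
      integral_const_mul, integral_const_mul, h0, hconj]
    simp
  have him : (fun x => (f x).im) =ᵐ[μ] 0 := by
    apply real_zero hi.im
    intro t
    have h1 : ∀ x, (((f x).im : ℝ) : ℂ) * Complex.exp (t * x * Complex.I) =
        (1 / (2 * Complex.I) : ℂ) * (f x * Complex.exp (t * x * Complex.I)) -
        (1 / (2 * Complex.I) : ℂ) * (starRingEnd ℂ (f x) * Complex.exp (t * x * Complex.I)) := by
      intro x
      rw [Complex.im_eq_sub_conj]
      ring
    have h2 : ∀ x, ((RCLike.im (f x) : ℝ) : ℂ) = ((f x).im : ℂ) := fun x => rfl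
    simp only [h1, h2]
    rw [integral_sub ((hb f t hi).const_mul _) ((hb _ t hci).const_mul _),
      integral_const_mul, integral_const_mul, h0, hconj]
    simp
  filter_upwards [hre, him] with x h1 h2
  exact Complex.ext h1 h2

/-- Bessel's inequality, with an additional orthogonal vector. -/
theorem bessel_gap {H ι : Type*} [DecidableEq ι] [NormedAddCommGroup H] [InnerProductSpace ℂ H]
    (s : Finset ι) (v : ι → H)
    (hv : ∀ i ∈ s, ∀ j ∈ s, inner ℂ (v i) (v j) = if i = j then (1 : ℂ) else 0)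
    (x F : H) (hx : ‖x‖ = 1) (hF : ∀ i ∈ s, inner ℂ (v i) F = 0) :
    ‖inner ℂ x F‖ ^ 2 ≤ ‖F‖ ^ 2 * (1 - ∑ i ∈ s, ‖inner ℂ (v i) x‖ ^ 2) := by
  set y : H := ∑ i ∈ s, (inner ℂ (v i) x) • v i with hy
  have h1 : inner ℂ (x - y) F = inner ℂ x F := by
    rw [inner_sub_left, hy, sum_inner]
    have : ∑ i ∈ s, inner ℂ ((inner ℂ (v i) x) • v i) F = 0 := by
      refine Finset.sum_eq_zero fun i hi => ?_
      rw [inner_smul_left, hF i hi, mul_zero]
    rw [this, sub_zero]
  have hyx : inner ℂ x y = ((∑ i ∈ s, ‖inner ℂ (v i) x‖ ^ 2 : ℝ) : ℂ) := by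
    rw [hy, inner_sum]
    push_cast
    refine Finset.sum_congr rfl fun i _ => ?_
    rw [inner_smul_right, ← inner_conj_symm x (v i), Complex.mul_conj, Complex.normSq_eq_norm_sq]
    push_cast
    rfl
  have hyy : inner ℂ y y = ((∑ i ∈ s, ‖inner ℂ (v i) x‖ ^ 2 : ℝ) : ℂ) := by
    rw [hy, sum_inner]
    push_cast
    refine Finset.sum_congr rfl fun i hi => ?_
    rw [inner_sum, Finset.sum_eq_single i]
    · rw [inner_smul_left, inner_smul_right, hv i hi i hi, if_pos rfl, mul_one,
        mul_comm, Complex.mul_conj, Complex.normSq_eq_norm_sq]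
      push_cast
      rfl
    · intro j hj hji
      rw [inner_smul_left, inner_smul_right, hv i hi j hj, if_neg (Ne.symm hji)]
      simp
    · intro h; exact absurd hi h
  have hny : ‖y‖ ^ 2 = ∑ i ∈ s, ‖inner ℂ (v i) x‖ ^ 2 := by
    rw [norm_sq_eq_re_inner (𝕜 := ℂ) y, hyy, RCLike.re_eq_complex_re, Complex.ofReal_re]
  have h2 : ‖x - y‖ ^ 2 = 1 - ∑ i ∈ s, ‖inner ℂ (v i) x‖ ^ 2 := by
    rw [norm_sub_sq (𝕜 := ℂ), hx, hny, hyx, RCLike.re_eq_complex_re, Complex.ofReal_re]
    ring
  have h3 := norm_inner_le_norm (𝕜 := ℂ) (x - y) F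
  rw [h1] at h3
  calc ‖inner ℂ x F‖ ^ 2 ≤ (‖x - y‖ * ‖F‖) ^ 2 := by gcongr
    _ = _ := by rw [mul_pow, h2]; ring

/-- A criterion for spectral pairs. -/
theorem total_of_mass {μ : Measure ℝ} [IsProbabilityMeasure μ] {L : Set ℝ}
    (ho : ∀ l ∈ L, ∀ m ∈ L, l ≠ m → charFun μ (2 * Real.pi * (m - l)) = 0)
    (hmass : ∀ (y ε : ℝ), 0 < ε → ∃ F : Finset ℝ, ↑F ⊆ L ∧
      1 - ε < ∑ l ∈ F, ‖charFun μ (2 * Real.pi * (l - y))‖ ^ 2)
    (f : ℝ → ℂ) (hf : MemLp f 2 μ) (h0 : ∀ l ∈ L, ∫ x, f x * starRingEnd ℂ (ex l x) ∂μ = 0) :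
    f =ᵐ[μ] 0 := by
  set v : ℝ → Lp ℂ 2 μ := fun l => (memLp_ex μ l).toLp (ex l) with hv
  set F : Lp ℂ 2 μ := hf.toLp f with hF
  have hinner : ∀ a b : ℝ, inner ℂ (v a) (v b) = charFun μ (2 * Real.pi * (a - b)) := by
    intro a b
    rw [L2.inner_def, ← integral_ex_mul μ b a]
    refine integral_congr_ae ?_
    filter_upwards [(memLp_ex μ a).coeFn_toLp, (memLp_ex μ b).coeFn_toLp] with x h1 h2
    rw [hv]
    simp only
    rw [h1, h2]
    simp [RCLike.inner_apply]
  have hinnerF : ∀ a : ℝ, inner ℂ (v a) F = ∫ x, f x * starRingEnd ℂ (ex a x) ∂μ := by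
    intro a
    rw [L2.inner_def]
    refine integral_congr_ae ?_
    filter_upwards [(memLp_ex μ a).coeFn_toLp, hf.coeFn_toLp] with x h1 h2
    rw [hv, hF]
    simp only
    rw [h1, h2]
    simp [RCLike.inner_apply]
  have hone : ∀ a : ℝ, inner ℂ (v a) (v a) = (1 : ℂ) := by
    intro a
    rw [hinner, sub_self, mul_zero, charFun_zero]
    simp
  have hall : ∀ y : ℝ, inner ℂ (v y) F = (0 : ℂ) := by
    intro y
    have hn : ‖v y‖ = 1 := by
      have h2 : ‖v y‖ ^ 2 = 1 := by
        rw [norm_sq_eq_re_inner (𝕜 := ℂ) (v y), hone, RCLike.re_eq_complex_re, Complex.one_re]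
      exact (pow_eq_one_iff_of_nonneg (norm_nonneg _) two_ne_zero).1 h2
    have hle : ∀ ε : ℝ, 0 < ε → ‖inner ℂ (v y) F‖ ^ 2 ≤ ‖F‖ ^ 2 * ε := by
      intro ε hε
      obtain ⟨s, hs, hsum⟩ := hmass y ε hε
      have hb := bessel_gap s v (fun i hi j hj => by
        rw [hinner]
        split_ifs with hij
        · rw [hij, sub_self, mul_zero, charFun_zero]; simp
        · exact ho j (hs hj) i (hs hi) (Ne.symm hij)) (v y) F hn
        (fun i hi => by rw [hinnerF]; exact h0 i (hs hi))
      simp only [hinner] at hb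
      refine hb.trans ?_
      have := sq_nonneg ‖F‖
      nlinarith
    have hz : ‖inner ℂ (v y) F‖ ^ 2 ≤ 0 := by
      apply _root_.le_of_forall_pos_le_add
      intro δ hδ
      have h1 := hle (δ / (‖F‖ ^ 2 + 1)) (by positivity)
      have h2 : ‖F‖ ^ 2 * (δ / (‖F‖ ^ 2 + 1)) ≤ δ := by
        rw [mul_div_assoc', div_le_iff₀ (by positivity)]
        nlinarith [sq_nonneg ‖F‖]
      linarith
    have h3 : ‖inner ℂ (v y) F‖ = 0 := by
      have := sq_nonneg ‖inner ℂ (v y) F‖
      exact (pow_eq_zero_iff two_ne_zero).1 (le_antisymm hz this)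
    exact norm_eq_zero.1 h3
  apply complex_zero (hf.integrable (by norm_num))
  intro t
  have h1 := hall (t / (2 * Real.pi))
  rw [hinnerF] at h1
  rw [← h1]
  congr 1
  funext x
  rw [conj_ex]
  unfold ex
  congr 2
  have hpi : (Real.pi : ℂ) ≠ 0 := by exact_mod_cast Real.pi_ne_zero
  push_cast
  field_simp

end Pool.Agent.V1187.SP
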