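import Pool.Agent.V1187.CharP
import Pool.Agent.V1187.SpecPair

/-!
# A spectral pair with two complete numbers
-/

set_option autoImplicit false

open Set MeasureTheory Filter Topology

namespace Pool.Agent.V1187.CN

open Pool.Agent.V1187.SP

/-- The spectrum, as a set of real numbers. -/
def LamR : Set ℝ := (fun n : ℕ => (n : ℝ)) '' Lam

theorem charFun_eq_zero {a : ℝ} (h : p a = 0) : charFun mu4 (2 * Real.pi * a) = 0 := by
  unfold p at h
  exact norm_eq_zero.1 ((pow_eq_zero_iff two_ne_zero).1 h)

theorem p_of_charFun {a : ℝ} (h : charFun mu4 (2 * Real.pi * a) = 0) : p a = 0 := by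
  unfold p
  rw [h]
  simp

theorem mu4_compact : ∃ K : Set ℝ, IsCompact K ∧ mu4 Kᶜ = 0 := by
  refine ⟨Icc 0 1, isCompact_Icc, ?_⟩
  unfold mu4
  rw [Measure.map_apply measurable_G measurableSet_Icc.compl]
  have : G ⁻¹' (Icc (0:ℝ) 1)ᶜ = ∅ := by
    ext x
    simp only [mem_preimage, mem_compl_iff, mem_Icc, mem_empty_iff_false, iff_false, not_not]
    exact ⟨G_nonneg x, (G_le x).trans (by norm_num)⟩
  rw [this, measure_empty]

theorem p_sub_Lam {l m : ℕ} (hl : l ∈ Lam) (hm : m ∈ Lam) (hne : l ≠ m) : p ((l : ℝ) - m) = 0 := by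
  obtain ⟨j, c, hc, h⟩ := Lam_diff hl hm hne
  have : (l : ℝ) - m = 4 ^ j * c := by exact_mod_cast h
  rw [this]
  exact p_odd j hc

/-- The spectral pair and its reflection. -/
theorem isSpectralPair_sign (s : ℝ) (hs : s = 1 ∨ s = -1) :
    IsSpectralPair mu4 ((fun l => s * l) '' LamR) := by
  have hs0 : s ≠ 0 := by rcases hs with rfl | rfl <;> norm_num
  have hps : ∀ a, p (s * a) = p a := by
    intro a
    rcases hs with rfl | rfl
    · rw [one_mul]
    · rw [neg_one_mul, p_neg]
  have hzero : ∀ l ∈ (fun l => s * l) '' LamR, ∀ m ∈ (fun l => s * l) '' LamR, l ≠ m →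
      charFun mu4 (2 * Real.pi * (m - l)) = 0 := by
    rintro _ ⟨_, ⟨l, hl, rfl⟩, rfl⟩ _ ⟨_, ⟨m, hm, rfl⟩, rfl⟩ hne
    apply charFun_eq_zero
    have h1 : (fun l => s * l) ((fun n : ℕ => (n : ℝ)) m) - (fun l => s * l)
        ((fun n : ℕ => (n : ℝ)) l) = s * ((m : ℝ) - l) := by ring
    rw [h1, hps]
    apply p_sub_Lam hm hl
    rintro rfl
    exact hne rfl
  refine ⟨inferInstance, mu4_compact, ?_, ?_, ?_⟩
  · exact ((Set.to_countable Lam).image _).image _
  · intro l hl m hm
    rw [integral_ex_mul]
    split_ifs with h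
    · rw [h, sub_self, mul_zero, charFun_zero]; simp
    · exact hzero l hl m hm h
  · intro f hf h0
    apply total_of_mass hzero _ f hf h0
    intro y ε hε
    obtain ⟨j, hj⟩ := tendsto_mass (-(s * y)) ε hε
    classical
    refine ⟨(T (j.factorial)).image (fun w : ℕ => s * (w : ℝ)), ?_, ?_⟩
    · intro x hx
      simp only [Finset.coe_image, Set.mem_image, Finset.mem_coe] at hx
      obtain ⟨w, hw, rfl⟩ := hx
      exact ⟨w, ⟨w, T_special_mem hw, rfl⟩, rfl⟩
    · rw [Finset.sum_image]
      · refine hj.trans_le (le_of_eq ?_)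
        refine Finset.sum_congr rfl fun w _ => ?_
        change p (-(s * y) + w) = p (s * w - y)
        have hss : s * s = 1 := by rcases hs with rfl | rfl <;> norm_num
        have : s * (w : ℝ) - y = s * (-(s * y) + w) := by
          linear_combination y * hss
        rw [this, hps]
      · intro a _ b _ hab
        have := mul_left_cancel₀ hs0 hab
        exact_mod_cast this

/-- If `exp (-2 π i m x)` is orthogonal to all the exponentials, there is no spectral pair. -/
theorem not_spectral {L : Set ℝ} (m : ℝ) (h : ∀ l ∈ L, p (m - l) = 0) : ¬ IsSpectralPair mu4 L := by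
  intro hL
  have h1 := hL.total (ex m) (memLp_ex mu4 m) (by
    intro l hl
    rw [integral_ex_mul]
    apply charFun_eq_zero
    have : l - m = -(m - l) := by ring
    rw [this, p_neg]
    exact h l hl)
  have h2 : ∀ᵐ x ∂mu4, False := by
    filter_upwards [h1] with x hx
    have := norm_ex m x
    rw [hx] at this
    simp at this
  rw [ae_iff] at h2
  simp at h2

theorem p_special {t l : ℕ} (ht : Odd t) (ht3 : 3 ≤ t) (hl : l ∈ Lam) :
    p ((t : ℝ) * l + 4 ^ t.factorial) = 0 := by
  obtain ⟨j, c, hc, h⟩ := Lam_special ht ht3 hl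
  have : (t : ℝ) * l + 4 ^ t.factorial = 4 ^ j * ((c : ℤ) : ℝ) := by
    push_cast
    exact_mod_cast h
  rw [this]
  exact p_odd j (by exact_mod_cast hc)

/-- The set of complete numbers. -/
theorem complete_numbers : {t : ℝ | IsSpectralPair mu4 ((fun l => t * l) '' LamR)} = {1, -1} := by
  ext t
  simp only [Set.mem_ofPred_eq, mem_insert_iff, mem_singleton_iff]
  refine ⟨fun h => ?_, fun h => isSpectralPair_sign t h⟩
  by_contra hne
  push Not at hne
  obtain ⟨h1, h2⟩ := hne
  have m0 : t * 0 ∈ (fun l => t * l) '' LamR := ⟨0, ⟨0, zero_mem_Lam, by simp⟩, rfl⟩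
  have m1 : t * 1 ∈ (fun l => t * l) '' LamR := ⟨1, ⟨1, one_mem_Lam, by simp⟩, rfl⟩
  by_cases ht0 : t = 0
  · refine not_spectral 1 ?_ h
    rintro _ ⟨l, -, rfl⟩
    simp only [ht0, zero_mul, sub_zero]
    have := p_odd 0 (c := 1) (by decide)
    simpa using this
  · have hpt : p t = 0 := by
      have := h.orthonormal _ m1 _ m0
      rw [integral_ex_mul, if_neg (by simpa using ht0)] at this
      have h3 := p_of_charFun this
      rw [mul_zero, mul_one, zero_sub, p_neg] at h3
      exact h3
    obtain ⟨j, c, hc, ht⟩ := of_p_eq_zero hpt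
    rcases Nat.eq_zero_or_pos j with hj | hj
    · subst hj
      rw [pow_zero, one_mul] at ht
      -- `t = c` is an odd integer
      have hc3 : 3 ≤ c.natAbs := by
        obtain ⟨e, he⟩ := hc
        have hc1 : c ≠ 1 := by rintro rfl; exact h1 (by rw [ht]; simp)
        have hc2 : c ≠ -1 := by rintro rfl; exact h2 (by rw [ht]; simp)
        omega
      have hodd : Odd c.natAbs := Int.natAbs_odd.2 hc
      rcases le_total 0 c with hpos | hneg
      · have hcast : ((c.natAbs : ℕ) : ℝ) = c := by
          rw [← Int.cast_natCast, Int.natAbs_of_nonneg hpos]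
        refine not_spectral (-(4 ^ c.natAbs.factorial)) ?_ h
        rintro _ ⟨_, ⟨l, hl, rfl⟩, rfl⟩
        have := p_special hodd hc3 hl
        rw [hcast] at this
        rw [← p_neg, ht]
        have e : -(-(4 : ℝ) ^ c.natAbs.factorial - (fun l => (c : ℝ) * l)
          ((fun n : ℕ => (n : ℝ)) l)) = (c : ℝ) * l + 4 ^ c.natAbs.factorial := by ring
        rw [e]
        exact this
      · have hcast : ((c.natAbs : ℕ) : ℝ) = -c := by
          rw [← Int.cast_natCast, Int.ofNat_natAbs_of_nonpos hneg, Int.cast_neg]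
        refine not_spectral (4 ^ c.natAbs.factorial) ?_ h
        rintro _ ⟨_, ⟨l, hl, rfl⟩, rfl⟩
        have := p_special hodd hc3 hl
        rw [hcast] at this
        rw [ht]
        have e : (4 : ℝ) ^ c.natAbs.factorial - (fun l => (c : ℝ) * l)
          ((fun n : ℕ => (n : ℝ)) l) = -(c : ℝ) * l + 4 ^ c.natAbs.factorial := by ring
        rw [e]
        exact this
    · refine not_spectral 1 ?_ h
      rintro _ ⟨_, ⟨l, -, rfl⟩, rfl⟩
      obtain ⟨i, rfl⟩ := Nat.exists_eq_succ_of_ne_zero hj.ne'
      have e : (1 : ℝ) - (fun l => t * l) ((fun n : ℕ => (n : ℝ)) l) =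
          4 ^ 0 * ((1 - 2 * (2 * (4 ^ i * c * l)) : ℤ) : ℝ) := by
        simp only
        rw [ht]
        push_cast
        rw [pow_succ]
        ring
      rw [e]
      apply p_odd
      exact ⟨-(2 * (4 ^ i * c * l)), by ring⟩

/-! ### The measure is singular and has no point masses -/

theorem volume_range : volume (range G) = 0 := by
  have hsub : range G ⊆ ((fun x => x / 4) '' range G) ∪ ((fun x => 1 / 2 + x / 4) '' range G) := by
    rintro _ ⟨x, rfl⟩
    rw [G_eq x]
    unfold g
    split_ifs
    · exact Or.inr ⟨G (2 * x), ⟨_, rfl⟩, by norm_num⟩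
    · exact Or.inl ⟨G (2 * x), ⟨_, rfl⟩, by norm_num⟩
  have hle : volume (range G) ≤ 1 := by
    calc volume (range G) ≤ volume (Icc (0:ℝ) 1) := by
          apply measure_mono
          rintro _ ⟨x, rfl⟩
          exact ⟨G_nonneg x, (G_le x).trans (by norm_num)⟩
      _ = 1 := by simp
  have h1 : volume ((fun x => x / 4) '' range G) = ENNReal.ofReal (1 / 4) * volume (range G) := by
    have : (fun x : ℝ => x / 4) = (fun x : ℝ => (1 / 4 : ℝ) • x) := by
      funext x; simp; ring
    rw [this, Set.image_smul, Measure.addHaar_smul]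
    simp [abs_of_pos]
  have h2 : volume ((fun x => 1 / 2 + x / 4) '' range G) =
      ENNReal.ofReal (1 / 4) * volume (range G) := by
    have : (fun x : ℝ => 1 / 2 + x / 4) '' range G =
        (fun x => 1 / 2 + x) '' ((fun x => x / 4) '' range G) := by
      rw [image_image]
    rw [this, Set.image_add_left, measure_preimage_add, h1]
  have h3 : volume (range G) ≤ ENNReal.ofReal (1 / 2) * volume (range G) := by
    calc volume (range G) ≤ _ := (measure_mono hsub).trans (measure_union_le _ _)
      _ = ENNReal.ofReal (1 / 2) * volume (range G) := by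
          rw [h1, h2, ← add_mul, ← ENNReal.ofReal_add (by norm_num) (by norm_num)]
          norm_num
  have hfin : volume (range G) ≠ ⊤ := ne_top_of_le_ne_top ENNReal.one_ne_top hle
  have h4 : (volume (range G)).toReal ≤ 1 / 2 * (volume (range G)).toReal := by
    have := ENNReal.toReal_mono (ENNReal.mul_ne_top ENNReal.ofReal_ne_top hfin) h3
    rwa [ENNReal.toReal_mul, ENNReal.toReal_ofReal (by norm_num)] at this
  have h5 : (volume (range G)).toReal = 0 := by
    have := ENNReal.toReal_nonneg (a := volume (range G))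
    linarith
  rcases (ENNReal.toReal_eq_zero_iff _).1 h5 with h | h
  · exact h
  · exact absurd h hfin

theorem mu4_singular : mu4 ⟂ₘ volume := by
  refine ⟨(toMeasurable volume (range G))ᶜ, (measurableSet_toMeasurable _ _).compl, ?_, ?_⟩
  · unfold mu4
    rw [Measure.map_apply measurable_G (measurableSet_toMeasurable _ _).compl]
    have : G ⁻¹' (toMeasurable volume (range G))ᶜ = ∅ := by
      ext x
      simp only [mem_preimage, mem_compl_iff, mem_empty_iff_false, iff_false, not_not]
      exact subset_toMeasurable _ _ ⟨x, rfl⟩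
    rw [this, measure_empty]
  · rw [compl_compl, measure_toMeasurable]
    exact volume_range

/-- the mass of a point -/
theorem atom_le (n : ℕ) : ∀ a : ℝ, ∫ x in (0:ℝ)..1, Set.indicator {a} (fun _ => (1 : ℝ)) (G x) ≤
    (1 / 2) ^ n := by
  have hm : ∀ a : ℝ, Measurable fun x => Set.indicator {a} (fun _ => (1 : ℝ)) (G x) := fun a =>
    (measurable_const.indicator (measurableSet_singleton a)).comp measurable_G
  have hb : ∀ a x : ℝ, ‖Set.indicator {a} (fun _ => (1 : ℝ)) x‖ ≤ 1 := by
    intro a x
    rw [Set.indicator_apply]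
    split_ifs <;> simp
  have hint : ∀ a c d : ℝ, IntervalIntegrable
      (fun x => Set.indicator {a} (fun _ => (1 : ℝ)) (G x)) volume c d := by
    intro a c d
    apply MeasureTheory.IntegrableOn.intervalIntegrable
    apply Measure.integrableOn_of_bounded (M := 1)
    · simp
    · exact (hm a).aestronglyMeasurable
    · exact Eventually.of_forall fun x => hb a _
  have hind : ∀ (a b : ℝ) (f : ℝ → ℝ), (∀ x, f x = a ↔ x = b) → ∀ x,
      Set.indicator {a} (fun _ => (1 : ℝ)) (f x) = Set.indicator {b} (fun _ => (1 : ℝ)) x := by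
    intro a b f hf x
    rw [Set.indicator_apply, Set.indicator_apply]
    simp only [Set.mem_singleton_iff, hf x]
  induction n with
  | zero =>
    intro a
    have h1 : ∫ x in (0:ℝ)..1, Set.indicator {a} (fun _ => (1 : ℝ)) (G x) ≤
        ∫ x in (0:ℝ)..1, (1 : ℝ) := by
      apply intervalIntegral.integral_mono_on zero_le_one (hint a 0 1) intervalIntegrable_const
      intro x _
      exact (le_abs_self _).trans (hb a _)
    simpa using h1
  | succ n ih =>
    intro a
    have h1 := self_similar (fun x => Set.indicator {a} (fun _ => (1 : ℝ)) x) (hint a)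
    have e1 : ∀ x, Set.indicator {a} (fun _ => (1 : ℝ)) (G x / 4) =
        Set.indicator {4 * a} (fun _ => (1 : ℝ)) (G x) := fun x =>
      hind a (4 * a) (fun x => x / 4) (fun x => by constructor <;> intro h <;> linarith) (G x)
    have e2 : ∀ x, Set.indicator {a} (fun _ => (1 : ℝ)) (1 / 2 + G x / 4) =
        Set.indicator {4 * a - 2} (fun _ => (1 : ℝ)) (G x) := fun x =>
      hind a (4 * a - 2) (fun x => 1 / 2 + x / 4) (fun x => by constructor <;> intro h <;> linarith)
        (G x)
    simp only [e1, e2, smul_eq_mul] at h1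
    rw [h1]
    have hz : ∀ b : ℝ, (b < 0 ∨ 2 / 3 < b) →
        ∫ x in (0:ℝ)..1, Set.indicator {b} (fun _ => (1 : ℝ)) (G x) = 0 := by
      intro b hb
      have : ∀ x, Set.indicator {b} (fun _ => (1 : ℝ)) (G x) = 0 := by
        intro x
        rw [Set.indicator_apply, if_neg]
        intro h
        have h2 : G x = b := h
        have h3 := G_nonneg x
        have h4 := G_le x
        rcases hb with h5 | h5 <;> linarith
      simp [this]
    have i1 := ih (4 * a)
    have i2 := ih (4 * a - 2)
    have hp : (0 : ℝ) < (1 / 2) ^ n := by positivity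
    have hps : ((1 : ℝ) / 2) ^ (n + 1) = (1 / 2) ^ n * (1 / 2) := pow_succ _ _
    rcases le_or_gt (4 * a - 2) (-1) with h | h
    · rw [hz (4 * a - 2) (Or.inl (by linarith))]
      linarith
    · rw [hz (4 * a) (Or.inr (by linarith))]
      linarith

theorem mu4_noAtoms (a : ℝ) : mu4 {a} = 0 := by
  have h0 : ∫ x in (0:ℝ)..1, Set.indicator {a} (fun _ => (1 : ℝ)) (G x) ≤ 0 := by
    refine ge_of_tendsto (tendsto_pow_atTop_nhds_zero_of_lt_one (r := (1 / 2 : ℝ)) (by norm_num)
      (by norm_num)) (Eventually.of_forall fun n => atom_le n a)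
  have h1 : ∫ x in (0:ℝ)..1, Set.indicator {a} (fun _ => (1 : ℝ)) (G x) = (mu4 {a}).toReal := by
    rw [intervalIntegral.integral_of_le zero_le_one]
    unfold mu4
    rw [Measure.map_apply measurable_G (measurableSet_singleton a)]
    have h2 : ∀ x, Set.indicator {a} (fun _ => (1 : ℝ)) (G x) =
        Set.indicator (G ⁻¹' {a}) (fun _ => (1 : ℝ)) x := fun x => rfl
    simp only [h2]
    rw [integral_indicator (measurable_G (measurableSet_singleton a))]
    simp [Measure.real]
  rw [h1] at h0
  have h3 : (mu4 {a}).toReal = 0 := le_antisymm h0 ENNReal.toReal_nonneg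
  rcases (ENNReal.toReal_eq_zero_iff _).1 h3 with h | h
  · exact h
  · exact absurd h (measure_ne_top _ _)

end Pool.Agent.V1187.CN
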