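import Mathlib

set_option autoImplicit false

/-!
The Coxeter complex of a Coxeter system, in terms of standard cosets.
-/

namespace Pool.Agent.V1187.Cx

variable {B : Type*} {M : CoxeterMatrix B} {W : Type*} [Group W] (cs : CoxeterSystem M W)

/-- The standard coset `w W_J`, where `W_J` is the subgroup generated by the simple
reflections in `J`, as a set of elements of `W` (chambers). -/
def coset (w : W) (J : Set B) : Set W :=
  {u | w⁻¹ * u ∈ Subgroup.closure (cs.simple '' J)}

/-- The nonempty simplices of the Coxeter complex: the standard cosets `w W_J` with `J ≠ S`.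
A coset `y` is a face of a coset `x` when `x ⊆ y`; the elements of a coset are the chambers
having it as a face; the chambers are the cosets `w W_∅ = {w}`; the empty simplex is `W_S = W`
and is not listed here. -/
def IsSimplex (x : Set W) : Prop :=
  ∃ (w : W) (J : Set B), J ≠ Set.univ ∧ x = coset cs w J

/-- The closed half of the complex, cut out by the wall of the reflection `t`, that contains
the fundamental chamber: all faces of the chambers `w` with `ℓ(w) < ℓ(t w)`. -/
def posRoot (t : W) : Set (Set W) :=
  {x | IsSimplex cs x ∧ ∃ w ∈ x, cs.length w < cs.length (t * w)}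

/-- The opposite closed half: all faces of the chambers `w` with `ℓ(t w) < ℓ(w)`. -/
def negRoot (t : W) : Set (Set W) :=
  {x | IsSimplex cs x ∧ ∃ w ∈ x, cs.length (t * w) < cs.length w}

/-- The roots (half-apartments) of the Coxeter complex. -/
def IsRoot (r : Set (Set W)) : Prop :=
  ∃ t : W, cs.IsReflection t ∧ (r = posRoot cs t ∨ r = negRoot cs t)

/-- A convex subcomplex: an intersection of roots (the empty intersection being the whole
complex). -/
def IsConvex (C : Set (Set W)) : Prop :=
  ∃ F : Set (Set (Set W)), (∀ r ∈ F, IsRoot cs r) ∧ C = {x | IsSimplex cs x ∧ ∀ r ∈ F, x ∈ r}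

/-- The poset of non-empty convex subcomplexes, ordered by inclusion. -/
abbrev Y : Type _ := {C : Set (Set W) // C.Nonempty ∧ IsConvex cs C}

end Pool.Agent.V1187.Cx
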