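import Pool.Agent.TH107.Root
import Pool.Agent.V1187.Cx1

set_option autoImplicit false
set_option linter.unusedSectionVars false

namespace Pool.Agent.V1187.Cx

open Pool.Agent.Helper741 Pool.Agent.TH107 CoxeterSystem

variable {B : Type*} {M : CoxeterMatrix B} [Fintype B] [DecidableEq B]
variable {W : Type*} [Group W] {cs : CoxeterSystem M W}

/-- positive side -/
def Pos (cs : CoxeterSystem M W) (t w : W) : Prop := 0 ≤ geo cs w⁻¹ (rt cs t)
/-- negative side -/
def Neg (cs : CoxeterSystem M W) (t w : W) : Prop := geo cs w⁻¹ (rt cs t) ≤ 0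

lemma side_pos {t : W} (ht : cs.IsReflection t) (w : W) :
    cs.length w < cs.length (t * w) ↔ Pos cs t w := by
  have h := length_lt_iff ht (w := w⁻¹)
  have e : cs.length (w⁻¹ * t) = cs.length (t * w) := by
    rw [← cs.length_inv (t * w), mul_inv_rev, ht.inv]
  rw [e, cs.length_inv] at h
  exact h

lemma side_neg {t : W} (ht : cs.IsReflection t) (w : W) :
    cs.length (t * w) < cs.length w ↔ Neg cs t w := by
  have h := length_gt_iff ht (w := w⁻¹)
  have e : cs.length (w⁻¹ * t) = cs.length (t * w) := by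
    rw [← cs.length_inv (t * w), mul_inv_rev, ht.inv]
  rw [e, cs.length_inv] at h
  exact h

lemma side_cases {t : W} (ht : cs.IsReflection t) (w : W) : Pos cs t w ∨ Neg cs t w :=
  ((rt_isRt ht).geo w⁻¹).cases

lemma side_not_both {t : W} (ht : cs.IsReflection t) {w : W} (h1 : Pos cs t w)
    (h2 : Neg cs t w) : False :=
  ((rt_isRt ht).geo w⁻¹).not_both h1 h2

/-- crossing -/
lemma crossing {t : W} (ht : cs.IsReflection t) {w : W} {i : B} (h1 : Pos cs t w)
    (h2 : Neg cs t (w * cs.simple i)) : t * w = w * cs.simple i := by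
  have hv : PR cs (geo cs w⁻¹ (rt cs t)) := ⟨(rt_isRt ht).geo w⁻¹, h1⟩
  have h3 : geo cs (cs.simple i) (geo cs w⁻¹ (rt cs t)) ≤ 0 := by
    rw [geo_geo]
    have e : cs.simple i * w⁻¹ = (w * cs.simple i)⁻¹ := by
      rw [mul_inv_rev, cs.inv_simple]
    rw [e]; exact h2
  have h4 := hv.eq_ee h3
  have h5 := rt_conj_pos ht w⁻¹ h1
  rw [h4, ← rt_simple (cs := cs) i] at h5
  have h6 := rt_inj (ht.conj w⁻¹) (cs.isReflection_simple i) h5
  rw [← h6]; group

/-- words -/
lemma exists_word {J : Set B} {g : W} (hg : g ∈ Subgroup.closure (cs.simple '' J)) :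
    ∃ ω : List B, (∀ i ∈ ω, i ∈ J) ∧ cs.wordProd ω = g := by
  induction hg using Subgroup.closure_induction with
  | mem x hx =>
    obtain ⟨i, hi, rfl⟩ := hx
    exact ⟨[i], by simpa using hi, by simp⟩
  | one => exact ⟨[], by simp, by simp⟩
  | mul x y _ _ hx hy =>
    obtain ⟨a, ha, rfl⟩ := hx
    obtain ⟨b, hb, rfl⟩ := hy
    refine ⟨a ++ b, ?_, by rw [cs.wordProd_append]⟩
    intro i hi
    rcases List.mem_append.1 hi with h | h
    · exact ha i h
    · exact hb i h
  | inv x _ hx =>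
    obtain ⟨a, ha, rfl⟩ := hx
    refine ⟨a.reverse, ?_, by rw [cs.wordProd_reverse]⟩
    intro i hi
    exact ha i (List.mem_reverse.1 hi)

lemma cross_word {t : W} (ht : cs.IsReflection t) {J : Set B} (ω : List B) :
    (∀ i ∈ ω, i ∈ J) → ∀ u : W, Pos cs t u → Neg cs t (u * cs.wordProd ω) →
    ∃ g ∈ Subgroup.closure (cs.simple '' J), ∃ j ∈ J, t * (u * g) = u * g * cs.simple j := by
  induction ω with
  | nil =>
    intro _ u h1 h2
    rw [cs.wordProd_nil, mul_one] at h2
    exact (side_not_both ht h1 h2).elim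
  | cons i ω ih =>
    intro hJ u h1 h2
    rcases side_cases ht (u * cs.simple i) with h3 | h3
    · rw [cs.wordProd_cons, ← mul_assoc] at h2
      obtain ⟨g, hg, j, hj, h4⟩ := ih (fun k hk => hJ k (List.mem_cons_of_mem _ hk)) _ h3 h2
      refine ⟨cs.simple i * g, ?_, j, hj, by rw [← mul_assoc u]; exact h4⟩
      exact Subgroup.mul_mem _ (Subgroup.subset_closure ⟨i, hJ i (by simp), rfl⟩) hg
    · refine ⟨1, Subgroup.one_mem _, i, hJ i (by simp), ?_⟩
      rw [mul_one]
      exact crossing ht h1 h3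

lemma mem_coset {w u : W} {J : Set B} :
    u ∈ coset cs w J ↔ w⁻¹ * u ∈ Subgroup.closure (cs.simple '' J) := Iff.rfl

lemma self_mem_coset (w : W) (J : Set B) : w ∈ coset cs w J := by
  rw [mem_coset, inv_mul_cancel]; exact Subgroup.one_mem _

/-- a reflection whose wall separates two chambers of a coset stabilises it -/
lemma coset_stable {t : W} (ht : cs.IsReflection t) {w : W} {J : Set B} {u u' : W}
    (hu : u ∈ coset cs w J) (hu' : u' ∈ coset cs w J) (h1 : Pos cs t u) (h2 : Neg cs t u')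
    {v : W} (hv : v ∈ coset cs w J) : t * v ∈ coset cs w J := by
  have hg : u⁻¹ * u' ∈ Subgroup.closure (cs.simple '' J) := by
    have := Subgroup.mul_mem _ (Subgroup.inv_mem _ (mem_coset.1 hu)) (mem_coset.1 hu')
    convert this using 1; group
  obtain ⟨ω, hω, hω2⟩ := exists_word hg
  obtain ⟨g, hg', j, hj, h3⟩ := cross_word ht (J := J) ω hω u h1 (by
    rw [hω2, mul_inv_cancel_left]; exact h2)
  have ht' : t = (u * g) * cs.simple j * (u * g)⁻¹ := by
    rw [← h3]; group
  rw [mem_coset, ht']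
  have e : w⁻¹ * ((u * g) * cs.simple j * (u * g)⁻¹ * v) =
      (w⁻¹ * u) * g * cs.simple j * g⁻¹ * (w⁻¹ * u)⁻¹ * (w⁻¹ * v) := by group
  rw [e]
  have hs : cs.simple j ∈ Subgroup.closure (cs.simple '' J) := Subgroup.subset_closure ⟨j, hj, rfl⟩
  exact Subgroup.mul_mem _ (Subgroup.mul_mem _ (Subgroup.mul_mem _ (Subgroup.mul_mem _
    (Subgroup.mul_mem _ (mem_coset.1 hu) hg') hs) (Subgroup.inv_mem _ hg'))
    (Subgroup.inv_mem _ (mem_coset.1 hu))) (mem_coset.1 hv)

/-- coordinates outside J are preserved -/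
lemma geo_coord {J : Set B} {g : W} (hg : g ∈ Subgroup.closure (cs.simple '' J)) {i : B}
    (hi : i ∉ J) : ∀ v : B → ℝ, geo cs g v i = v i := by
  induction hg using Subgroup.closure_induction with
  | mem x hx =>
    obtain ⟨j, hj, rfl⟩ := hx
    intro v
    rw [geo_simple, sg_apply]
    have : i ≠ j := fun h => hi (h ▸ hj)
    simp [ee, Pi.single_apply, this]
  | one => intro v; simp
  | mul x y _ _ hx hy =>
    intro v
    rw [← geo_geo, hx, hy]
  | inv x _ hx =>
    intro v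
    rw [← hx (geo cs x⁻¹ v), geo_apply_inv]

lemma simple_notMem {J : Set B} {i : B} (hi : i ∉ J) :
    cs.simple i ∉ Subgroup.closure (cs.simple '' J) := by
  intro h
  have h1 := geo_coord h hi (ee i)
  rw [geo_simple, sg_ee_self] at h1
  simp [ee] at h1
  norm_num at h1

variable [Fintype W]

/-- the sum of coordinates -/
noncomputable def ss : (B → ℝ) →ₗ[ℝ] ℝ := ∑ i, LinearMap.proj i

lemma ss_apply (v : B → ℝ) : (ss : (B → ℝ) →ₗ[ℝ] ℝ) v = ∑ i, v i := by
  simp [ss]

open Classical in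
/-- barycentre functional of a simplex -/
noncomputable def qq (cs : CoxeterSystem M W) (x : Set W) : (B → ℝ) →ₗ[ℝ] ℝ :=
  ∑ w ∈ Finset.univ.filter (· ∈ x), ss ∘ₗ (geo cs w⁻¹)

open Classical in
lemma qq_apply (x : Set W) (v : B → ℝ) :
    qq cs x v = ∑ w ∈ Finset.univ.filter (· ∈ x), ∑ i, geo cs w⁻¹ v i := by
  simp [qq, ss_apply]

lemma sum_pos_of {v : B → ℝ} (h0 : v ≠ 0) (h : 0 ≤ v) : 0 < ∑ i, v i := by
  obtain ⟨i, hi⟩ := Function.ne_iff.1 h0
  exact Finset.sum_pos' (fun j _ => h j) ⟨i, Finset.mem_univ _, lt_of_le_of_ne (h i) (Ne.symm hi)⟩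

lemma term_pos {t : W} (ht : cs.IsReflection t) {w : W} (h : Pos cs t w) :
    0 < ∑ i, geo cs w⁻¹ (rt cs t) i := sum_pos_of ((rt_isRt ht).geo w⁻¹).ne_zero h

lemma term_neg {t : W} (ht : cs.IsReflection t) {w : W} (h : Neg cs t w) :
    ∑ i, geo cs w⁻¹ (rt cs t) i < 0 := by
  have h1 := sum_pos_of (v := - geo cs w⁻¹ (rt cs t))
    (neg_ne_zero.2 ((rt_isRt ht).geo w⁻¹).ne_zero) (neg_nonneg.2 h)
  simp only [Pi.neg_apply, Finset.sum_neg_distrib] at h1
  linarith

lemma simplex_nonempty {x : Set W} (hx : IsSimplex cs x) : x.Nonempty := by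
  obtain ⟨w, J, _, rfl⟩ := hx
  exact ⟨w, self_mem_coset w J⟩

lemma mem_posRoot {t : W} (ht : cs.IsReflection t) {x : Set W} (hx : IsSimplex cs x) :
    x ∈ posRoot cs t ↔ ∃ w ∈ x, Pos cs t w := by
  simp only [posRoot, Set.mem_setOf_eq, hx, true_and, side_pos ht]

lemma mem_negRoot {t : W} (ht : cs.IsReflection t) {x : Set W} (hx : IsSimplex cs x) :
    x ∈ negRoot cs t ↔ ∃ w ∈ x, Neg cs t w := by
  simp only [negRoot, Set.mem_setOf_eq, hx, true_and, side_neg ht]

lemma qq_neg_of {t : W} (ht : cs.IsReflection t) {x : Set W} (hx : IsSimplex cs x)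
    (h : x ∉ posRoot cs t) : qq cs x (rt cs t) < 0 := by
  classical
  rw [mem_posRoot ht hx] at h
  push_neg at h
  rw [qq_apply]
  obtain ⟨w, hw⟩ := simplex_nonempty hx
  apply Finset.sum_neg
  · intro u hu
    rw [Finset.mem_filter] at hu
    exact term_neg ht ((side_cases ht u).resolve_left (h u hu.2))
  · exact ⟨w, by simpa using hw⟩

lemma qq_pos_of {t : W} (ht : cs.IsReflection t) {x : Set W} (hx : IsSimplex cs x)
    (h : x ∉ negRoot cs t) : 0 < qq cs x (rt cs t) := by
  classical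
  rw [mem_negRoot ht hx] at h
  push_neg at h
  rw [qq_apply]
  obtain ⟨w, hw⟩ := simplex_nonempty hx
  apply Finset.sum_pos
  · intro u hu
    rw [Finset.mem_filter] at hu
    exact term_pos ht ((side_cases ht u).resolve_right (h u hu.2))
  · exact ⟨w, by simpa using hw⟩

lemma qq_zero_of {t : W} (ht : cs.IsReflection t) {x : Set W} (hx : IsSimplex cs x)
    (h1 : x ∈ posRoot cs t) (h2 : x ∈ negRoot cs t) : qq cs x (rt cs t) = 0 := by
  classical
  rw [mem_posRoot ht hx] at h1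
  rw [mem_negRoot ht hx] at h2
  obtain ⟨u, hu, h1⟩ := h1
  obtain ⟨u', hu', h2⟩ := h2
  obtain ⟨w, J, hJ, rfl⟩ := hx
  have hst : ∀ v ∈ coset cs w J, t * v ∈ coset cs w J := fun v hv =>
    coset_stable ht hu hu' h1 h2 hv
  have key : qq cs (coset cs w J) (rt cs t) = - qq cs (coset cs w J) (rt cs t) := by
    conv_lhs => rw [qq_apply]
    rw [qq_apply, ← Finset.sum_neg_distrib]
    refine Finset.sum_nbij' (fun v => t * v) (fun v => t * v) ?_ ?_ ?_ ?_ ?_
    · intro v hv; simp only [Finset.mem_filter, Finset.mem_univ, true_and] at hv ⊢; exact hst v hv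
    · intro v hv; simp only [Finset.mem_filter, Finset.mem_univ, true_and] at hv ⊢; exact hst v hv
    · intro v _; rw [← mul_assoc, ht.mul_self, one_mul]
    · intro v _; rw [← mul_assoc, ht.mul_self, one_mul]
    · intro v _
      rw [mul_inv_rev, ht.inv, ← geo_geo, geo_rt_self ht, map_neg]
      simp
  linarith

lemma qq_nonneg_of {t : W} (ht : cs.IsReflection t) {x : Set W} (hx : IsSimplex cs x)
    (h : x ∈ posRoot cs t) : 0 ≤ qq cs x (rt cs t) := by
  by_cases h2 : x ∈ negRoot cs t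
  · exact (qq_zero_of ht hx h h2).ge
  · exact (qq_pos_of ht hx h2).le

lemma qq_nonpos_of {t : W} (ht : cs.IsReflection t) {x : Set W} (hx : IsSimplex cs x)
    (h : x ∈ negRoot cs t) : qq cs x (rt cs t) ≤ 0 := by
  by_cases h2 : x ∈ posRoot cs t
  · exact (qq_zero_of ht hx h2 h).le
  · exact (qq_neg_of ht hx h2).le

lemma qq_ne_zero {x : Set W} (hx : IsSimplex cs x) : qq cs x ≠ 0 := by
  intro h0
  obtain ⟨w, J, hJ, rfl⟩ := hx
  obtain ⟨i, hi⟩ : ∃ i, i ∉ J := by
    by_contra hcon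
    push_neg at hcon
    exact hJ (Set.eq_univ_of_forall hcon)
  have hx : IsSimplex cs (coset cs w J) := ⟨w, J, hJ, rfl⟩
  have ht : cs.IsReflection (w * cs.simple i * w⁻¹) := ⟨w, i, rfl⟩
  have hz : qq cs (coset cs w J) (rt cs (w * cs.simple i * w⁻¹)) = 0 := by rw [h0]; rfl
  have h1 : coset cs w J ∈ posRoot cs (w * cs.simple i * w⁻¹) := by
    by_contra hcon
    exact (qq_neg_of ht hx hcon).ne hz
  have h2 : coset cs w J ∈ negRoot cs (w * cs.simple i * w⁻¹) := by
    by_contra hcon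
    exact (qq_pos_of ht hx hcon).ne' hz
  rw [mem_posRoot ht hx] at h1
  rw [mem_negRoot ht hx] at h2
  obtain ⟨u, hu, h1⟩ := h1
  obtain ⟨u', hu', h2⟩ := h2
  have h3 := coset_stable ht hu hu' h1 h2 (self_mem_coset w J)
  rw [mem_coset] at h3
  have e : w⁻¹ * (w * cs.simple i * w⁻¹ * w) = cs.simple i := by group
  rw [e] at h3
  exact simple_notMem hi h3

end Pool.Agent.V1187.Cx
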