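import Pool.Agent.V1187.Cx2

set_option autoImplicit false
set_option linter.unusedSectionVars false

namespace Pool.Agent.V1187.Cx

open Pool.Agent.Helper741 Pool.Agent.TH107 CoxeterSystem

variable {B : Type*} {M : CoxeterMatrix B} [Fintype B] [DecidableEq B]
variable {W : Type*} [Group W] {cs : CoxeterSystem M W} [Fintype W]

/-- reflections cutting `C` -/
def cut (cs : CoxeterSystem M W) (C : Set (Set W)) : Set W :=
  {t | cs.IsReflection t ∧ (∃ x ∈ C, 0 < qq cs x (rt cs t)) ∧ (∃ x ∈ C, qq cs x (rt cs t) < 0)}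

/-- span -/
def sp (cs : CoxeterSystem M W) (C : Set (Set W)) : Submodule ℝ ((B → ℝ) →ₗ[ℝ] ℝ) :=
  Submodule.span ℝ (qq cs '' C)

/-- rank function -/
noncomputable def rk (cs : CoxeterSystem M W) (C : Set (Set W)) : ℕ :=
  Module.finrank ℝ (sp cs C) + (cut cs C).ncard

lemma cut_mono {C' C : Set (Set W)} (h : C' ⊆ C) : cut cs C' ⊆ cut cs C := by
  rintro t ⟨ht, ⟨x, hx, h1⟩, ⟨y, hy, h2⟩⟩
  exact ⟨ht, ⟨x, h hx, h1⟩, ⟨y, h hy, h2⟩⟩

lemma sp_mono {C' C : Set (Set W)} (h : C' ⊆ C) : sp cs C' ≤ sp cs C :=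
  Submodule.span_mono (Set.image_mono h)

lemma rk_lt_of_cut {C' C : Set (Set W)} (h : C' ⊆ C) {t : W} (h1 : t ∈ cut cs C)
    (h2 : t ∉ cut cs C') : rk cs C' < rk cs C := by
  have e1 : Module.finrank ℝ (sp cs C') ≤ Module.finrank ℝ (sp cs C) :=
    Submodule.finrank_mono (sp_mono h)
  have e2 : (cut cs C').ncard < (cut cs C).ncard := by
    apply Set.ncard_lt_ncard _ (Set.toFinite _)
    refine ⟨cut_mono h, fun hc => h2 (hc h1)⟩
  unfold rk; omega

lemma rk_lt_of_sp {C' C : Set (Set W)} (h : C' ⊆ C) {x : Set W} (hx : x ∈ C) {v : B → ℝ}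
    (h1 : ∀ y ∈ C', qq cs y v = 0) (h2 : qq cs x v ≠ 0) : rk cs C' < rk cs C := by
  have e2 : (cut cs C').ncard ≤ (cut cs C).ncard :=
    Set.ncard_le_ncard (cut_mono h) (Set.toFinite _)
  have e3 : sp cs C' < sp cs C := by
    refine lt_of_le_of_ne (sp_mono h) ?_
    intro heq
    have hk : sp cs C' ≤ LinearMap.ker (LinearMap.applyₗ (R := ℝ) (M₂ := ℝ) v) := by
      unfold sp
      rw [Submodule.span_le]
      rintro _ ⟨y, hy, rfl⟩
      exact h1 y hy
    have hx' : qq cs x ∈ sp cs C := Submodule.subset_span ⟨x, hx, rfl⟩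
    rw [← heq] at hx'
    exact h2 (hk hx')
  have e1 : Module.finrank ℝ (sp cs C') < Module.finrank ℝ (sp cs C) :=
    Submodule.finrank_lt_finrank_of_lt e3
  unfold rk; omega

lemma rk_strict {C' C : Set (Set W)} (hC : ∀ x ∈ C, IsSimplex cs x) (hC' : IsConvex cs C')
    (h : C' ⊂ C) : rk cs C' < rk cs C := by
  obtain ⟨x, hxC, hxC'⟩ := Set.exists_of_ssubset h
  obtain ⟨F, hF, rfl⟩ := hC'
  have hxs := hC x hxC
  have : ∃ r ∈ F, x ∉ r := by
    by_contra hcon
    push Not at hcon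
    exact hxC' ⟨hxs, hcon⟩
  obtain ⟨r, hrF, hxr⟩ := this
  obtain ⟨t, ht, hr⟩ := hF r hrF
  rcases hr with rfl | rfl
  · have hxn := qq_neg_of ht hxs hxr
    by_cases hc : ∃ y ∈ {x | IsSimplex cs x ∧ ∀ r ∈ F, x ∈ r}, 0 < qq cs y (rt cs t)
    · obtain ⟨y, hy, hy2⟩ := hc
      apply rk_lt_of_cut h.1 (t := t)
      · exact ⟨ht, ⟨y, h.1 hy, hy2⟩, ⟨x, hxC, hxn⟩⟩
      · rintro ⟨_, _, ⟨z, hz, hz2⟩⟩
        exact absurd (qq_nonneg_of ht hz.1 (hz.2 _ hrF)) (not_le.2 hz2)
    · push Not at hc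
      apply rk_lt_of_sp h.1 hxC (v := rt cs t) _ hxn.ne
      intro y hy
      exact le_antisymm (hc y hy) (qq_nonneg_of ht hy.1 (hy.2 _ hrF))
  · have hxn := qq_pos_of ht hxs hxr
    by_cases hc : ∃ y ∈ {x | IsSimplex cs x ∧ ∀ r ∈ F, x ∈ r}, qq cs y (rt cs t) < 0
    · obtain ⟨y, hy, hy2⟩ := hc
      apply rk_lt_of_cut h.1 (t := t)
      · exact ⟨ht, ⟨x, hxC, hxn⟩, ⟨y, h.1 hy, hy2⟩⟩
      · rintro ⟨_, ⟨z, hz, hz2⟩, _⟩
        exact absurd (qq_nonpos_of ht hz.1 (hz.2 _ hrF)) (not_le.2 hz2)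
    · push Not at hc
      apply rk_lt_of_sp h.1 hxC (v := rt cs t) _ hxn.ne'
      intro y hy
      exact le_antisymm (qq_nonpos_of ht hy.1 (hy.2 _ hrF)) (hc y hy)

lemma rk_pos {C : Set (Set W)} (hC : ∀ x ∈ C, IsSimplex cs x) (h : C.Nonempty) :
    1 ≤ rk cs C := by
  obtain ⟨x, hx⟩ := h
  have h1 : sp cs C ≠ ⊥ := by
    intro h0
    have : qq cs x ∈ sp cs C := Submodule.subset_span ⟨x, hx, rfl⟩
    rw [h0, Submodule.mem_bot] at this
    exact qq_ne_zero (hC x hx) this
  have h2 := Submodule.one_le_finrank_iff.2 h1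
  unfold rk; omega

lemma rk_le (C : Set (Set W)) :
    rk cs C ≤ Fintype.card B + Nat.card {t : W // cs.IsReflection t} := by
  have h1 : Module.finrank ℝ (sp cs C) ≤ Fintype.card B := by
    refine (Submodule.finrank_le _).trans ?_
    rw [show Module.finrank ℝ ((B → ℝ) →ₗ[ℝ] ℝ) = Module.finrank ℝ (Module.Dual ℝ (B → ℝ)) from rfl,
      Subspace.dual_finrank_eq, Module.finrank_fintype_fun_eq_card]
  have h2 : (cut cs C).ncard ≤ Nat.card {t : W // cs.IsReflection t} := by
    have : Nat.card {t : W // cs.IsReflection t} = {t : W | cs.IsReflection t}.ncard := rfl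
    rw [this]
    exact Set.ncard_le_ncard (fun t ht => ht.1) (Set.toFinite _)
  unfold rk; omega

lemma Y_simplex (C : Y cs) : ∀ x ∈ C.1, IsSimplex cs x := by
  obtain ⟨C, hne, F, hF, rfl⟩ := C
  intro x hx
  exact hx.1

lemma rk_strictMono : StrictMono (fun C : Y cs => rk cs C.1) := by
  intro C' C h
  exact rk_strict (Y_simplex C) C'.2.2 h

theorem upper : Order.krullDim (Y cs) ≤
    ((Fintype.card B - 1 + Nat.card {t : W // cs.IsReflection t} : ℕ) : WithBot ℕ∞) := by
  apply iSup_le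
  intro p
  have h1 := LTSeries.head_add_length_le_nat (p.map (fun C : Y cs => rk cs C.1) rk_strictMono)
  have h2 : 1 ≤ (p.map (fun C : Y cs => rk cs C.1) rk_strictMono).head :=
    rk_pos (Y_simplex p.head) p.head.2.1
  have h3 : (p.map (fun C : Y cs => rk cs C.1) rk_strictMono).last ≤
      Fintype.card B + Nat.card {t : W // cs.IsReflection t} := rk_le _
  have h4 : (p.map (fun C : Y cs => rk cs C.1) rk_strictMono).length = p.length := rfl
  have h5 : p.length ≤ Fintype.card B - 1 + Nat.card {t : W // cs.IsReflection t} := by omega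
  exact_mod_cast h5

/-! ### the long chain -/

/-- intersections of positive roots and negative simple roots -/
def EE (cs : CoxeterSystem M W) (P : Set W) (J : Set B) : Set (Set W) :=
  {x | IsSimplex cs x ∧ (∀ t ∈ P, x ∈ posRoot cs t) ∧ ∀ j ∈ J, x ∈ negRoot cs (cs.simple j)}

lemma EE_convex {P : Set W} (hP : ∀ t ∈ P, cs.IsReflection t) (J : Set B) :
    IsConvex cs (EE cs P J) := by
  refine ⟨posRoot cs '' P ∪ (fun j => negRoot cs (cs.simple j)) '' J, ?_, ?_⟩
  · rintro r (⟨t, ht, rfl⟩ | ⟨j, hj, rfl⟩)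
    · exact ⟨t, hP t ht, Or.inl rfl⟩
    · exact ⟨cs.simple j, cs.isReflection_simple j, Or.inr rfl⟩
  · ext x
    constructor
    · rintro ⟨h0, h1, h2⟩
      refine ⟨h0, ?_⟩
      rintro r (⟨t, ht, rfl⟩ | ⟨j, hj, rfl⟩)
      · exact h1 t ht
      · exact h2 j hj
    · rintro ⟨h0, h1⟩
      exact ⟨h0, fun t ht => h1 _ (Or.inl ⟨t, ht, rfl⟩), fun j hj => h1 _ (Or.inr ⟨j, hj, rfl⟩)⟩

lemma pos_one {t : W} (ht : cs.IsReflection t) : Pos cs t 1 := by
  unfold Pos; rw [inv_one, map_one, Module.End.one_apply]; exact rt_pos ht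

lemma neg_simple (j : B) : Neg cs (cs.simple j) (cs.simple j) := by
  rw [← side_neg (cs.isReflection_simple j)]
  rw [cs.simple_mul_simple_self, cs.length_one, cs.length_simple]
  norm_num

lemma coset_mem_EE {P : Set W} (hP : ∀ t ∈ P, cs.IsReflection t) {J : Set B}
    (hJ : J ≠ Set.univ) : coset cs 1 J ∈ EE cs P J := by
  have hs : IsSimplex cs (coset cs 1 J) := ⟨1, J, hJ, rfl⟩
  refine ⟨hs, ?_, ?_⟩
  · intro t ht
    rw [mem_posRoot (hP t ht) hs]
    exact ⟨1, self_mem_coset 1 J, pos_one (hP t ht)⟩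
  · intro j hj
    rw [mem_negRoot (cs.isReflection_simple j) hs]
    refine ⟨cs.simple j, ?_, neg_simple j⟩
    rw [mem_coset, inv_one, one_mul]
    exact Subgroup.subset_closure ⟨j, hj, rfl⟩

/-- the element of the poset -/
def Ey (P : Set W) (hP : ∀ t ∈ P, cs.IsReflection t) (J : Set B) (hJ : J ≠ Set.univ) : Y cs :=
  ⟨EE cs P J, ⟨_, coset_mem_EE hP hJ⟩, EE_convex hP J⟩

lemma chain_cons {C' C : Y cs} (h : C' < C) {n : ℕ}
    (hp : ∃ p : LTSeries (Y cs), p.head = C ∧ p.length = n) :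
    ∃ p : LTSeries (Y cs), p.head = C' ∧ p.length = n + 1 := by
  obtain ⟨p, hp1, hp2⟩ := hp
  refine ⟨p.cons C' (by rw [hp1]; exact h), rfl, ?_⟩
  rw [RelSeries.cons_length, hp2]

lemma EE_anti {P P' : Set W} {J J' : Set B} (hP : P' ⊆ P) (hJ : J' ⊆ J) :
    EE cs P J ⊆ EE cs P' J' := by
  rintro x ⟨h0, h1, h2⟩
  exact ⟨h0, fun t ht => h1 t (hP ht), fun j hj => h2 j (hJ hj)⟩

lemma coset_empty (w : W) : coset cs w (∅ : Set B) = {w} := by
  ext u
  rw [mem_coset, Set.image_empty, Subgroup.closure_empty, Subgroup.mem_bot, inv_mul_eq_one,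
    Set.mem_singleton_iff]
  exact eq_comm

/-- in every nonempty set of reflections one can be separated from the others -/
lemma exists_sep {P : Finset W} (hP : ∀ t ∈ P, cs.IsReflection t) (hne : P.Nonempty) :
    ∃ t ∈ P, ∃ w : W, Neg cs t w ∧ ∀ t' ∈ P, t' ≠ t → Pos cs t' w := by
  classical
  have hex : ∃ n : ℕ, ∃ w : W, cs.length w = n ∧ ∃ t ∈ P, Neg cs t w := by
    obtain ⟨t, ht⟩ := hne
    refine ⟨_, t, rfl, t, ht, ?_⟩
    unfold Neg
    rw [(hP t ht).inv, geo_rt_self (hP t ht)]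
    exact neg_nonpos.2 (rt_pos (hP t ht))
  obtain ⟨w, hw, t, htP, htw⟩ := Nat.find_spec hex
  have hmin : ∀ u : W, cs.length u < cs.length w → ∀ t' ∈ P, Pos cs t' u := by
    intro u hu t' ht'
    rcases side_cases (hP t' ht') u with h | h
    · exact h
    · exact absurd ⟨u, rfl, t', ht', h⟩ (Nat.find_min hex (by rw [← hw]; exact hu))
  have hw1 : w ≠ 1 := by
    rintro rfl
    exact side_not_both (hP t htP) (pos_one (hP t htP)) htw
  obtain ⟨i, hi⟩ := cs.exists_rightDescent_of_ne_one hw1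
  have hi' : cs.length (w * cs.simple i) < cs.length w := hi
  have key : ∀ t' ∈ P, Neg cs t' w → t' * (w * cs.simple i) = w := by
    intro t' ht' h
    have h1 := crossing (hP t' ht') (i := i) (hmin _ hi' t' ht')
      (by rw [mul_assoc, cs.simple_mul_simple_self, mul_one]; exact h)
    rw [h1, mul_assoc, cs.simple_mul_simple_self, mul_one]
  refine ⟨t, htP, w, htw, ?_⟩
  intro t' ht' hne'
  rcases side_cases (hP t' ht') w with h | h
  · exact h
  · exfalso
    apply hne'
    have e1 := key t' ht' h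
    have e2 := key t htP htw
    exact mul_right_cancel (e1.trans e2.symm)

variable [Nonempty B]

lemma empty_ne : (∅ : Set B) ≠ Set.univ := Set.empty_ne_univ

lemma chainA (n : ℕ) : ∀ (P : Finset W) (hP : ∀ t ∈ (P : Set W), cs.IsReflection t), P.card = n →
    ∃ p : LTSeries (Y cs), p.head = Ey (P : Set W) hP ∅ empty_ne ∧ p.length = n := by
  classical
  induction n with
  | zero =>
    intro P hP _
    exact ⟨RelSeries.singleton _ (Ey (P : Set W) hP ∅ empty_ne), rfl, rfl⟩
  | succ n ih =>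
    intro P hP hcard
    have hne : P.Nonempty := by rw [← Finset.card_pos]; omega
    obtain ⟨t, ht, w, hw, hsep⟩ := exists_sep (fun t ht => hP t (Finset.mem_coe.2 ht)) hne
    have hP' : ∀ s ∈ ((P.erase t : Finset W) : Set W), cs.IsReflection s := fun s hs =>
      hP s (Finset.mem_coe.2 (Finset.mem_of_mem_erase (Finset.mem_coe.1 hs)))
    have ih' := ih (P.erase t) hP' (by rw [Finset.card_erase_of_mem ht]; omega)
    refine chain_cons ?_ ih'
    have hs : IsSimplex cs ({w} : Set W) := ⟨w, ∅, empty_ne, (coset_empty w).symm⟩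
    refine ⟨?_, ?_⟩
    · refine EE_anti ?_ (le_refl _)
      exact Finset.coe_subset.2 (Finset.erase_subset _ _)
    · intro hsub
      have hmem : ({w} : Set W) ∈ EE cs ((P.erase t : Finset W) : Set W) (∅ : Set B) := by
        refine ⟨hs, ?_, fun j hj => absurd hj (Set.notMem_empty j)⟩
        intro s hs'
        rw [mem_posRoot (hP' s hs') hs]
        exact ⟨w, rfl, hsep s (Finset.mem_of_mem_erase (Finset.mem_coe.1 hs'))
          (Finset.ne_of_mem_erase (Finset.mem_coe.1 hs'))⟩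
      have h2 := (hsub hmem).2.1 t (Finset.mem_coe.2 ht)
      have htr := hP t (Finset.mem_coe.2 ht)
      rw [mem_posRoot htr hs] at h2
      obtain ⟨u, hu, hup⟩ := h2
      rw [Set.mem_singleton_iff] at hu
      subst hu
      exact side_not_both htr hup hw

lemma chainB (k : ℕ) {P : Set W} (hP : ∀ t ∈ P, cs.IsReflection t)
    (h0 : ∃ p : LTSeries (Y cs), p.head = Ey P hP ∅ empty_ne ∧ p.length = k) (n : ℕ) :
    ∀ (J : Finset B) (hJ : (J : Set B) ≠ Set.univ), J.card = n →
    ∃ p : LTSeries (Y cs), p.head = Ey P hP (J : Set B) hJ ∧ p.length = k + n := by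
  classical
  induction n with
  | zero =>
    intro J hJ hcard
    rw [Finset.card_eq_zero] at hcard
    subst hcard
    obtain ⟨p, h1, h2⟩ := h0
    refine ⟨p, ?_, h2⟩
    rw [h1]
    apply Subtype.ext
    show EE cs P ∅ = EE cs P _
    rw [Finset.coe_empty]
  | succ n ih =>
    intro J hJ hcard
    have hne : J.Nonempty := by rw [← Finset.card_pos]; omega
    obtain ⟨j, hj⟩ := hne
    have hJ' : ((J.erase j : Finset B) : Set B) ≠ Set.univ := by
      intro h
      have : j ∈ ((J.erase j : Finset B) : Set B) := by rw [h]; trivial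
      exact Finset.notMem_erase j J (Finset.mem_coe.1 this)
    have ih' := ih (J.erase j) hJ' (by rw [Finset.card_erase_of_mem hj]; omega)
    have e : k + (n + 1) = (k + n) + 1 := by ring
    rw [e]
    refine chain_cons ?_ ih'
    have hs : IsSimplex cs (coset cs 1 ((J.erase j : Finset B) : Set B)) := ⟨1, _, hJ', rfl⟩
    refine ⟨?_, ?_⟩
    · refine EE_anti (le_refl _) ?_
      exact Finset.coe_subset.2 (Finset.erase_subset _ _)
    · intro hsub
      have h2 := (hsub (coset_mem_EE hP hJ')).2.2 j (Finset.mem_coe.2 hj)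
      rw [mem_negRoot (cs.isReflection_simple j) hs] at h2
      obtain ⟨u, hu, hun⟩ := h2
      rw [mem_coset, inv_one, one_mul] at hu
      have h3 := geo_coord (Subgroup.inv_mem _ hu) (i := j)
        (fun h => Finset.notMem_erase j J (Finset.mem_coe.1 h)) (ee j)
      have h4 := hun j
      rw [rt_simple] at h4
      rw [h3] at h4
      simp [ee] at h4
      norm_num at h4

theorem lower : ((Fintype.card B - 1 + Nat.card {t : W // cs.IsReflection t} : ℕ) : WithBot ℕ∞) ≤
    Order.krullDim (Y cs) := by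
  classical
  let R : Finset W := Finset.univ.filter (fun t => cs.IsReflection t)
  have hR : ∀ t ∈ (R : Set W), cs.IsReflection t := by
    intro t ht
    exact (Finset.mem_filter.1 (Finset.mem_coe.1 ht)).2
  have hA := chainA R.card R hR rfl
  obtain ⟨j0⟩ := ‹Nonempty B›
  have hJ : ((Finset.univ.erase j0 : Finset B) : Set B) ≠ Set.univ := by
    intro h
    have : j0 ∈ ((Finset.univ.erase j0 : Finset B) : Set B) := by rw [h]; trivial
    exact Finset.notMem_erase j0 _ (Finset.mem_coe.1 this)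
  obtain ⟨p, _, hp⟩ := chainB R.card hR hA (Fintype.card B - 1) (Finset.univ.erase j0) hJ
    (by rw [Finset.card_erase_of_mem (Finset.mem_univ _), Finset.card_univ])
  have h2 : Nat.card {t : W // cs.IsReflection t} = R.card := by
    rw [Nat.card_eq_fintype_card, Fintype.card_subtype]
  rw [h2, add_comm]
  exact Order.le_krullDim_iff.2 ⟨p, hp⟩

end Pool.Agent.V1187.Cx
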