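import Pool.Agent.V1187.WheelMain

/-!
# The wheel with a positive delta condition at the hub
-/

set_option autoImplicit false

open Set

namespace Pool.Agent.V1187.QG

/-- `cos (π / 6)`. -/
theorem c6_gt : (2 / 3 : ℝ) < Real.cos (Real.pi / 6) := by
  rw [Real.cos_pi_div_six]
  have : (1.7 : ℝ) < Real.sqrt 3 := by
    rw [Real.lt_sqrt (by norm_num)]
    norm_num
  linarith

/-- The rim value of the lowest eigenfunction (the hub value is one). -/
noncomputable def rimVal : ℝ := 1 / (3 * Real.cos (Real.pi / 6) - 2)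

/-- The strength at the hub for which the lowest eigenvalue is `(π/6)^2`. -/
noncomputable def aStr : ℝ :=
  4 * (Real.pi / 6) * (rimVal - Real.cos (Real.pi / 6)) / Real.sin (Real.pi / 6)

theorem rimVal_mul : rimVal * (3 * Real.cos (Real.pi / 6) - 2) = 1 := by
  unfold rimVal
  have := c6_gt
  rw [one_div, inv_mul_cancel₀]
  linarith

theorem aStr_pos : 0 < aStr := by
  have h1 := c6_gt
  have h2 : Real.cos (Real.pi / 6) ≤ 1 := Real.cos_le_one _
  have h3 : 1 ≤ rimVal := by
    unfold rimVal
    rw [le_div_iff₀ (by linarith)]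
    linarith
  have h4 : Real.cos (Real.pi / 6) < 1 := by
    rw [← Real.cos_zero]
    exact Real.cos_lt_cos_of_nonneg_of_le_pi le_rfl (by linarith [Real.pi_pos]) (by positivity)
  have h5 : 0 < Real.sin (Real.pi / 6) := by rw [Real.sin_pi_div_six]; norm_num
  have h6 : 0 < rimVal - Real.cos (Real.pi / 6) := by linarith
  have h7 := Real.pi_pos
  unfold aStr
  positivity

/-- Vertex values of the lowest eigenfunction. -/
noncomputable def lowV : Fin 5 → ℝ := ![rimVal, rimVal, rimVal, rimVal, 1]

/-- The coefficient of the cosine of the lowest eigenfunction on an edge. -/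
noncomputable def lowA (e : Fin 8) : ℝ := lowV (wsrc e)

/-- The coefficient of the sine of the lowest eigenfunction on an edge. -/
noncomputable def lowB (e : Fin 8) : ℝ :=
  (lowV (wtgt e) - lowV (wsrc e) * Real.cos (Real.pi / 6)) / Real.sin (Real.pi / 6)

/-- The lowest eigenfunction on an edge. -/
noncomputable def lowE (e : Fin 8) (t : ℝ) : ℝ :=
  lowA e * Real.cos (Real.pi / 6 * t) + lowB e * Real.sin (Real.pi / 6 * t)

/-- The lowest eigenfunction. -/
noncomputable def low : wheel.Point → ℝ := Sum.elim lowV (fun x => lowE x.1 x.2.1)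

theorem low_isSolution : wheel.IsSolution (hubStrength aStr) ((Real.pi / 6) ^ 2) low := by
  have hs : Real.sin (Real.pi / 6) ≠ 0 := by rw [Real.sin_pi_div_six]; norm_num
  refine ⟨lowE, fun e t => Real.pi / 6 * (lowB e * Real.cos (Real.pi / 6 * t) -
    lowA e * Real.sin (Real.pi / 6 * t)), ?_, ?_, ?_⟩
  · intro e
    refine ⟨?_, ?_, ?_⟩
    · show lowE e 0 = lowV (wsrc e)
      simp [lowE, lowA]
    · show lowE e 1 = lowV (wtgt e)
      unfold lowE lowA lowB
      rw [mul_one]
      field_simp
      ring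
    · intro t ht
      rfl
  · intro e t _
    exact ⟨(hasDerivAt_comb _ _ _ t).hasDerivWithinAt, (hasDerivAt_comb' _ _ _ t).hasDerivWithinAt⟩
  · intro v
    rw [Finset.sum_filter, Finset.sum_filter]
    have key : ∀ v : Fin 5, (∑ e : Fin 8, if wsrc e = v then
        Real.pi / 6 * (lowB e * Real.cos (Real.pi / 6 * 0) -
        lowA e * Real.sin (Real.pi / 6 * 0)) else 0) -
      (∑ e : Fin 8, if wtgt e = v then Real.pi / 6 * (lowB e * Real.cos (Real.pi / 6 * 1) -
        lowA e * Real.sin (Real.pi / 6 * 1)) else 0) = hubStrength aStr v * lowV v := by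
      intro v
      have h1 := rimVal_mul
      have h2 := Real.sin_sq_add_cos_sq (Real.pi / 6)
      simp only [mul_zero, Real.cos_zero, Real.sin_zero, mul_one, sub_zero]
      have hB : ∀ e : Fin 8, lowB e = (lowV (wtgt e) - lowV (wsrc e) * Real.cos (Real.pi / 6)) /
        Real.sin (Real.pi / 6) := fun _ => rfl
      have hA : ∀ e : Fin 8, lowA e = lowV (wsrc e) := fun _ => rfl
      rcases fin5_cases v with rfl | rfl | rfl | rfl | rfl
      · simp only [hB, hA]
        simp [Fin.sum_univ_eight, wsrc, wtgt, hubStrength, lowV, -Real.cos_pi_div_six, -Real.sin_pi_div_six]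
        field_simp
        linear_combination (-Real.pi) * h1 + Real.pi * (rimVal + 1) * h2
      · simp only [hB, hA]
        simp [Fin.sum_univ_eight, wsrc, wtgt, hubStrength, lowV, -Real.cos_pi_div_six, -Real.sin_pi_div_six]
        field_simp
        linear_combination (-Real.pi) * h1 + Real.pi * (rimVal + 1) * h2
      · simp only [hB, hA]
        simp [Fin.sum_univ_eight, wsrc, wtgt, hubStrength, lowV, -Real.cos_pi_div_six, -Real.sin_pi_div_six]
        field_simp
        linear_combination (-Real.pi) * h1 + Real.pi * (rimVal + 1) * h2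
      · simp only [hB, hA]
        simp [Fin.sum_univ_eight, wsrc, wtgt, hubStrength, lowV, -Real.cos_pi_div_six, -Real.sin_pi_div_six]
        field_simp
        linear_combination (-Real.pi) * h1 + Real.pi * (rimVal + 1) * h2
      · simp only [hB, hA]
        simp [Fin.sum_univ_eight, wsrc, wtgt, hubStrength, lowV, aStr, -Real.cos_pi_div_six, -Real.sin_pi_div_six]
        field_simp
        ring
    exact key v

/-- For `0 < k < π / 2`, the number `k ^ 2` is an eigenvalue only if `k = π / 6`. -/
theorem delta_unique {k : ℝ} (hk : 0 < k) (hk2 : k < Real.pi / 2) {u : wheel.Point → ℝ}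
    (hu : u ≠ 0) (h : wheel.IsSolution (hubStrength aStr) (k ^ 2) u) : k = Real.pi / 6 := by
  obtain ⟨e0, e1, e2, e3, e4⟩ := wheel_eqs hk h
  have hc : 0 < Real.cos k := Real.cos_pos_of_mem_Ioo ⟨by linarith, hk2⟩
  have hc1 : Real.cos k < 1 := by
    rw [← Real.cos_zero]
    exact Real.cos_lt_cos_of_nonneg_of_le_pi le_rfl (by linarith [Real.pi_pos]) hk
  have h4 : u (wv 4) ≠ 0 := fun h4 => hu (wheel_hub hk hk2 h h4)
  have hs : 0 < Real.sin k := Real.sin_pos_of_pos_of_lt_pi hk (by linarith [Real.pi_pos])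
  have ha := aStr_pos
  set S := u (wv 0) + u (wv 1) + u (wv 2) + u (wv 3) with hS
  have hsum : (3 * Real.cos k - 2) * S = 4 * u (wv 4) := by
    rw [hS]; linear_combination (-1 : ℝ) * (e0 + e1 + e2 + e3)
  have hmul : k * (4 * (1 - Real.cos k) * (1 + 3 * Real.cos k)) =
      aStr * Real.sin k * (3 * Real.cos k - 2) := by
    apply mul_right_cancel₀ h4
    linear_combination (3 * Real.cos k - 2) * e4 - k * hsum
  have hc23 : 2 / 3 < Real.cos k := by
    by_contra hcon
    push Not at hcon
    have h5 : 0 < k * (4 * (1 - Real.cos k) * (1 + 3 * Real.cos k)) := by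
      have : 0 < 1 - Real.cos k := by linarith
      positivity
    have h6 : aStr * Real.sin k * (3 * Real.cos k - 2) ≤ 0 := by
      apply mul_nonpos_of_nonneg_of_nonpos (by positivity) (by linarith)
    linarith
  -- the same for `π / 6`
  have hk0 : 0 < Real.pi / 6 := by positivity
  have hk02 : Real.pi / 6 < Real.pi / 2 := by linarith [Real.pi_pos]
  have hs0 : 0 < Real.sin (Real.pi / 6) := by rw [Real.sin_pi_div_six]; norm_num
  have hc0 := c6_gt
  have hc01 : Real.cos (Real.pi / 6) < 1 := by
    rw [← Real.cos_zero]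
    exact Real.cos_lt_cos_of_nonneg_of_le_pi le_rfl (by linarith [Real.pi_pos]) hk0
  have hmul0 : Real.pi / 6 * (4 * (1 - Real.cos (Real.pi / 6)) * (1 + 3 * Real.cos (Real.pi / 6))) =
      aStr * Real.sin (Real.pi / 6) * (3 * Real.cos (Real.pi / 6) - 2) := by
    have : aStr * Real.sin (Real.pi / 6) =
        4 * (Real.pi / 6) * (rimVal - Real.cos (Real.pi / 6)) := by
      unfold aStr
      field_simp
    rw [this]
    linear_combination (-4 * (Real.pi / 6)) * rimVal_mul
  -- monotonicity
  have key : ∀ x y : ℝ, 0 < x → x < y → y < Real.pi / 2 → 2 / 3 < Real.cos y → 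
      x * (4 * (1 - Real.cos x) * (1 + 3 * Real.cos x)) = aStr * Real.sin x * (3 * Real.cos x - 2) →
      y * (4 * (1 - Real.cos y) * (1 + 3 * Real.cos y)) = aStr * Real.sin y * (3 * Real.cos y - 2) →
      False := by
    intro x y hx hxy hy hcy h1 h2
    have hcxy : Real.cos y < Real.cos x :=
      Real.cos_lt_cos_of_nonneg_of_le_pi hx.le (by linarith [Real.pi_pos]) hxy
    have hsx : 0 < Real.sin x := Real.sin_pos_of_pos_of_lt_pi hx (by linarith [Real.pi_pos])
    have hsy : 0 < Real.sin y := Real.sin_pos_of_pos_of_lt_pi (by linarith) (by linarith [Real.pi_pos])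
    have hx1 : Real.cos x < 1 := by
      rw [← Real.cos_zero]
      exact Real.cos_lt_cos_of_nonneg_of_le_pi le_rfl (by linarith [Real.pi_pos]) hx
    have hsinc : x * Real.sin y < y * Real.sin x := by
      have hcc : StrictConcaveOn ℝ (Icc 0 Real.pi) Real.sin := strictConcaveOn_sin_Icc
      have h0 : (0 : ℝ) ∈ Icc 0 Real.pi := ⟨le_rfl, Real.pi_pos.le⟩
      have hyI : y ∈ Icc 0 Real.pi := ⟨by linarith, by linarith [Real.pi_pos]⟩
      have hy0 : (0 : ℝ) < y := by linarith
      have ha1 : 0 < 1 - x / y := by rw [sub_pos, div_lt_one hy0]; exact hxy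
      have hb1 : 0 < x / y := by positivity
      have := hcc.2 h0 hyI hy0.ne ha1 hb1 (by ring)
      simp only [smul_eq_mul, mul_zero, zero_add, Real.sin_zero] at this
      rw [div_mul_cancel₀ _ hy0.ne'] at this
      rw [div_mul_eq_mul_div, div_lt_iff₀ hy0] at this
      linarith
    -- (1-cx)(1+3cx)(3cy-2) < (1-cy)(1+3cy)(3cx-2)
    set cx := Real.cos x
    set cy := Real.cos y
    have hcx23 : 2 / 3 < cx := by linarith
    have hH : (1 - cx) * (1 + 3 * cx) * (3 * cy - 2) < (1 - cy) * (1 + 3 * cy) * (3 * cx - 2) := by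
      have : (1 - cy) * (1 + 3 * cy) * (3 * cx - 2) - (1 - cx) * (1 + 3 * cx) * (3 * cy - 2) =
          (cx - cy) * (9 * cx * cy - 6 * (cx + cy) + 7) := by ring
      have h9 : 0 < 9 * cx * cy - 6 * (cx + cy) + 7 := by nlinarith
      have h10 : 0 < cx - cy := by linarith
      nlinarith [mul_pos h10 h9]
    have e1' : x * Real.sin y * ((1 - cx) * (1 + 3 * cx) * (3 * cy - 2)) <
        y * Real.sin x * ((1 - cy) * (1 + 3 * cy) * (3 * cx - 2)) := by
      have hp1 : 0 < (1 - cx) * (1 + 3 * cx) * (3 * cy - 2) := by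
        have : 0 < 1 - cx := by linarith
        have : 0 < 3 * cy - 2 := by linarith
        positivity
      have hp2 : 0 < y * Real.sin x := by
        have : 0 < y := by linarith
        positivity
      exact mul_lt_mul hsinc hH.le hp1 hp2.le
    have e2' : x * Real.sin y * ((1 - cx) * (1 + 3 * cx) * (3 * cy - 2)) =
        y * Real.sin x * ((1 - cy) * (1 + 3 * cy) * (3 * cx - 2)) := by
      linear_combination (Real.sin y * (3 * cy - 2) / 4) * h1 - (Real.sin x * (3 * cx - 2) / 4) * h2
    linarith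
  rcases lt_trichotomy k (Real.pi / 6) with hlt | heq | hgt
  · exact (key k _ hk hlt hk02 hc0 hmul hmul0).elim
  · exact heq
  · exact (key _ k hk0 hgt hk2 hc23 hmul0 hmul).elim

theorem delta_second : wheel.IsSecond (hubStrength aStr) ((Real.pi / 2) ^ 2) := by
  have hpos := fun ν hν => (wheel_spec_nonneg (ν := ν) aStr_pos.le hν).2 aStr_pos
  have hcase : ∀ ν ∈ wheel.Spec (hubStrength aStr), ν = (Real.pi / 6) ^ 2 ∨ (Real.pi / 2) ^ 2 ≤ ν := by
    intro ν hν
    have h0 := hpos ν hν
    obtain ⟨u, hu, hsol⟩ := hν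
    by_cases hc : (Real.pi / 2) ^ 2 ≤ ν
    · exact Or.inr hc
    · left
      push Not at hc
      have hk : 0 < Real.sqrt ν := Real.sqrt_pos.2 h0
      have hk2 : Real.sqrt ν < Real.pi / 2 := by
        rw [Real.sqrt_lt' Real.pi_div_two_pos]
        exact hc
      have hsq : Real.sqrt ν ^ 2 = ν := Real.sq_sqrt h0.le
      rw [← hsq] at hsol
      have := delta_unique hk hk2 hu hsol
      rw [← hsq, this]
  have hlt : (Real.pi / 6) ^ 2 < (Real.pi / 2) ^ 2 := by
    have := Real.pi_pos
    apply pow_lt_pow_left₀ _ (by positivity) two_ne_zero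
    linarith
  refine ⟨(Real.pi / 6) ^ 2, ⟨⟨low, ?_, low_isSolution⟩, ?_⟩, ⟨half_mem_spec _, hlt⟩, ?_⟩
  · intro h
    have := congrFun h (wv 4)
    exact one_ne_zero this
  · intro ν hν
    rcases hcase ν hν with h | h
    · exact h.ge
    · exact hlt.le.trans h
  · rintro ν ⟨hν, hν2⟩
    rcases hcase ν hν with h | h
    · exact absurd h hν2.ne'
    · exact h

end Pool.Agent.V1187.QG
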