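import Pool.Agent.V1187.NBox4

/-!
# The exponential horn: integrals and the Poincaré inequality
-/

set_option autoImplicit false

open Set MeasureTheory Filter Topology

namespace Pool.Agent.V1187.HN

open Pool.Agent.V1187.NB

/-- coordinates -/
noncomputable def p2 (a b : ℝ) : EuclideanSpace ℝ (Fin 2) := !₂[a, b]

theorem p2_zero (a b : ℝ) : p2 a b 0 = a := rfl
theorem p2_one (a b : ℝ) : p2 a b 1 = b := rfl

noncomputable def eq2 : ℝ × ℝ ≃ᵐ EuclideanSpace ℝ (Fin 2) :=
  (MeasurableEquiv.finTwoArrow (α := ℝ)).symm.trans (MeasurableEquiv.toLp 2 (Fin 2 → ℝ))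

theorem eq2_apply (a b : ℝ) : eq2 (a, b) = p2 a b := by
  ext i
  fin_cases i <;> rfl

theorem eq2_mp : MeasurePreserving eq2 volume volume :=
  (PiLp.volume_preserving_toLp (Fin 2)).comp (volume_preserving_finTwoArrow ℝ).symm

theorem p2_cont : Continuous fun p : ℝ × ℝ => p2 p.1 p.2 := by
  unfold p2
  apply (PiLp.continuous_toLp 2 _).comp
  apply continuous_pi
  intro i
  fin_cases i
  · exact continuous_fst
  · exact continuous_snd

/-- The exponential horn of length `D`. -/
def horn (D : ℝ) : Set (EuclideanSpace ℝ (Fin 2)) :=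
  {x | x 0 ∈ Ioo 0 D ∧ x 1 ∈ Ioo 0 (Real.exp (-x 0))}

/-- rectangles -/
def rect (I₀ I₁ : Set ℝ) : Set (EuclideanSpace ℝ (Fin 2)) := {x | x 0 ∈ I₀ ∧ x 1 ∈ I₁}

theorem rect_integral {I₀ I₁ : Set ℝ} (b₀ : Bornology.IsBounded I₀) (b₁ : Bornology.IsBounded I₁)
    {f : EuclideanSpace ℝ (Fin 2) → ℝ} (hf : Continuous f) :
    ∫ x in rect I₀ I₁, f x = ∫ a in I₀, ∫ b in I₁, f (p2 a b) := by
  have h1 := eq2_mp.setIntegral_preimage_emb eq2.measurableEmbedding f (rect I₀ I₁)
  have hp : eq2 ⁻¹' rect I₀ I₁ = I₀ ×ˢ I₁ := by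
    ext ⟨a, b⟩
    simp only [mem_preimage, eq2_apply, rect, mem_setOf_eq, mem_prod, p2_zero, p2_one]
  rw [← h1, hp]
  have hc : Continuous fun p : ℝ × ℝ => f (p2 p.1 p.2) := hf.comp p2_cont
  have e : ∀ p : ℝ × ℝ, f (eq2 p) = f (p2 p.1 p.2) := by
    rintro ⟨a, b⟩
    rw [eq2_apply]
  simp only [e]
  have i1 : IntegrableOn (fun p : ℝ × ℝ => f (p2 p.1 p.2)) (I₀ ×ˢ I₁)
      ((volume : Measure ℝ).prod volume) :=
    (hc.continuousOn.integrableOn_compact (b₀.prod b₁).isCompact_closure).mono_set subset_closure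
  rw [Measure.volume_eq_prod]
  exact setIntegral_prod _ i1

theorem open_horn (D : ℝ) : IsOpen (horn D) := by
  have hc : ∀ i : Fin 2, Continuous fun x : EuclideanSpace ℝ (Fin 2) => x i := fun i =>
    PiLp.continuous_apply 2 (fun _ : Fin 2 => ℝ) i
  have h0 := hc 0
  have h1 := hc 1
  have : horn D = ({x | 0 < x 0} ∩ {x | x 0 < D}) ∩ ({x | 0 < x 1} ∩ {x | x 1 < Real.exp (-x 0)}) := by
    ext x
    rfl
  rw [this]
  exact ((isOpen_lt continuous_const h0).inter (isOpen_lt h0 continuous_const)).inter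
    ((isOpen_lt continuous_const h1).inter (isOpen_lt h1 (Real.continuous_exp.comp h0.neg)))

theorem bounded_horn (D : ℝ) : Bornology.IsBounded (horn D) := by
  rw [isBounded_iff_forall_norm_le]
  refine ⟨Real.sqrt (D ^ 2 + 1 ^ 2), fun x hx => ?_⟩
  apply Real.le_sqrt_of_sq_le
  rw [EuclideanSpace.norm_sq_eq, Fin.sum_univ_two]
  simp only [Real.norm_eq_abs, sq_abs]
  have h0 := hx.1
  have h1 := hx.2
  have h2 : Real.exp (-x 0) ≤ 1 := by
    rw [Real.exp_le_one_iff]
    linarith [h0.1]
  have h3 : x 1 ≤ 1 := h1.2.le.trans h2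
  have h4 := h0.1
  have h5 := h0.2
  have h6 := h1.1
  have h7 : x 0 ^ 2 ≤ D ^ 2 := by gcongr
  have h8 : x 1 ^ 2 ≤ 1 ^ 2 := by gcongr
  linarith

/-- Iterated integral over `[0, D] × [0, 1]`. -/
noncomputable def K (D : ℝ) (F : ℝ → ℝ → ℝ) : ℝ := ∫ x in Icc 0 D, ∫ s in Icc (0 : ℝ) 1, F x s

theorem horn_integral (D : ℝ) {f : EuclideanSpace ℝ (Fin 2) → ℝ} (hf : Continuous f) :
    ∫ x in horn D, f x =
      K D fun x s => Real.exp (-x) * f (p2 x (Real.exp (-x) * s)) := by
  have h1 := eq2_mp.setIntegral_preimage_emb eq2.measurableEmbedding f (horn D)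
  set S : Set (ℝ × ℝ) := eq2 ⁻¹' horn D with hS
  have hSm : MeasurableSet S := eq2.measurable (open_horn D).measurableSet
  have hmem : ∀ a b, (a, b) ∈ S ↔ a ∈ Ioo 0 D ∧ b ∈ Ioo 0 (Real.exp (-a)) := by
    intro a b
    rw [hS, mem_preimage, eq2_apply]
    rfl
  rw [← h1]
  have hc : Continuous fun p : ℝ × ℝ => f (p2 p.1 p.2) := hf.comp p2_cont
  have e : ∀ p : ℝ × ℝ, f (eq2 p) = f (p2 p.1 p.2) := by
    rintro ⟨a, b⟩
    rw [eq2_apply]
  simp only [e]
  have hSb : S ⊆ Icc (0, 0) (D, 1) := by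
    rintro ⟨a, b⟩ hab
    rw [hmem] at hab
    have h2 : Real.exp (-a) ≤ 1 := by
      rw [Real.exp_le_one_iff]
      linarith [hab.1.1]
    exact ⟨⟨hab.1.1.le, hab.2.1.le⟩, ⟨hab.1.2.le, hab.2.2.le.trans h2⟩⟩
  have i1 : IntegrableOn (fun p : ℝ × ℝ => f (p2 p.1 p.2)) S
      ((volume : Measure ℝ).prod volume) :=
    (hc.continuousOn.integrableOn_compact isCompact_Icc).mono_set hSb
  rw [Measure.volume_eq_prod, ← integral_indicator hSm, integral_prod _
    ((integrable_indicator_iff hSm).2 i1)]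
  have e2 : ∀ a, ∫ b, S.indicator (fun p : ℝ × ℝ => f (p2 p.1 p.2)) (a, b) =
      (Ioo 0 D).indicator (fun a => ∫ s in Icc (0 : ℝ) 1,
        Real.exp (-a) * f (p2 a (Real.exp (-a) * s))) a := by
    intro a
    by_cases ha : a ∈ Ioo 0 D
    · rw [Set.indicator_of_mem ha]
      have e3 : ∀ b, S.indicator (fun p : ℝ × ℝ => f (p2 p.1 p.2)) (a, b) =
          (Ioo 0 (Real.exp (-a))).indicator (fun b => f (p2 a b)) b := by
        intro b
        by_cases hb : b ∈ Ioo 0 (Real.exp (-a))
        · rw [Set.indicator_of_mem hb, Set.indicator_of_mem ((hmem a b).2 ⟨ha, hb⟩)]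
        · rw [Set.indicator_of_notMem hb, Set.indicator_of_notMem fun h => hb ((hmem a b).1 h).2]
      simp only [e3]
      have hpos := Real.exp_pos (-a)
      rw [integral_indicator measurableSet_Ioo, ← integral_Ioc_eq_integral_Ioo,
        ← intervalIntegral.integral_of_le hpos.le, integral_Icc_eq_integral_Ioc,
        ← intervalIntegral.integral_of_le zero_le_one, intervalIntegral.integral_const_mul,
        intervalIntegral.integral_comp_mul_left (fun y => f (p2 a y)) hpos.ne', mul_zero, mul_one,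
        smul_eq_mul, mul_inv_cancel_left₀ hpos.ne']
    · rw [Set.indicator_of_notMem ha]
      have e3 : ∀ b, S.indicator (fun p : ℝ × ℝ => f (p2 p.1 p.2)) (a, b) = 0 := by
        intro b
        rw [Set.indicator_of_notMem fun h => ha ((hmem a b).1 h).1]
      simp only [e3, integral_zero]
  simp only [e2]
  rw [integral_indicator measurableSet_Ioo, ← integral_Icc_eq_integral_Ioo]
  rfl

/-- The one-dimensional weighted inequality. -/
theorem hardy {D : ℝ} (hD : 1 ≤ D) {f f' : ℝ → ℝ} (hf : ∀ x, HasDerivAt f (f' x) x)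
    (hf' : Continuous f') :
    ∫ x in Icc 0 D, Real.exp (-x) * f x ^ 2 ≤
      8 * (∫ x in Icc 0 D, Real.exp (-x) * f' x ^ 2) + 3 * ∫ x in Icc (0 : ℝ) 1, f x ^ 2 := by
  have hfc : Continuous f := continuous_iff_continuousAt.2 fun x => (hf x).continuousAt
  have cv : ∀ (F : ℝ → ℝ) (c : ℝ), 0 ≤ c → ∫ x in Icc 0 c, F x = ∫ x in (0 : ℝ)..c, F x :=
    fun F c hc => by rw [integral_Icc_eq_integral_Ioc, intervalIntegral.integral_of_le hc]
  rw [cv _ _ (by linarith), cv _ _ (by linarith), cv _ _ zero_le_one]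
  have ii : ∀ F : ℝ → ℝ, Continuous F → ∀ b c, IntervalIntegrable F volume b c := fun F hF b c =>
    hF.intervalIntegrable b c
  have hec : Continuous fun x : ℝ => Real.exp (-x) := by fun_prop
  set E := ∫ x in (0 : ℝ)..D, Real.exp (-x) * f' x ^ 2 with hE
  -- from a point `t`
  have key : ∀ t ∈ Icc (0 : ℝ) 1,
      ∫ x in (1 : ℝ)..D, Real.exp (-x) * f x ^ 2 ≤ 8 * E + 2 * f t ^ 2 := by
    intro t ht
    have htD : t ≤ D := ht.2.trans hD
    set g : ℝ → ℝ := fun x => f x - f t with hg
    have hgd : ∀ x, HasDerivAt g (f' x) x := fun x => (hf x).sub_const (f t)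
    have hgc : Continuous g := hfc.sub continuous_const
    set A := ∫ x in t..D, Real.exp (-x) * g x ^ 2 with hA
    have hd : ∀ x, HasDerivAt (fun x => -(Real.exp (-x) * g x ^ 2))
        (Real.exp (-x) * g x ^ 2 - 2 * (Real.exp (-x) * (g x * f' x))) x := by
      intro x
      have h1 : HasDerivAt (fun x : ℝ => Real.exp (-x)) (-Real.exp (-x)) x := by
        have := (hasDerivAt_neg x).exp
        simpa using this
      have h2 := (h1.mul ((hgd x).pow 2)).neg
      refine h2.congr_deriv ?_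
      simp only [Pi.pow_apply]
      ring
    have hftc := intervalIntegral.integral_eq_sub_of_hasDerivAt (a := t) (b := D)
      (fun x _ => hd x) (ii _ (by fun_prop) _ _)
    have hgt : g t = 0 := by simp [hg]
    rw [intervalIntegral.integral_sub (ii _ (by fun_prop) _ _) (ii _ (by fun_prop) _ _),
      intervalIntegral.integral_const_mul, hgt, ← hA] at hftc
    have hb : A ≤ 2 * ∫ x in t..D, Real.exp (-x) * (g x * f' x) := by
      have : 0 ≤ Real.exp (-D) * g D ^ 2 := by positivity
      have h0 : Real.exp (-t) * (0 : ℝ) ^ 2 = 0 := by ring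
      rw [h0] at hftc
      linarith
    have hE1 : ∫ x in t..D, Real.exp (-x) * f' x ^ 2 ≤ E := by
      have h3 := intervalIntegral.integral_add_adjacent_intervals
        (ii (fun x => Real.exp (-x) * f' x ^ 2) (by fun_prop) 0 t)
        (ii (fun x => Real.exp (-x) * f' x ^ 2) (by fun_prop) t D)
      have h4 : 0 ≤ ∫ x in (0 : ℝ)..t, Real.exp (-x) * f' x ^ 2 :=
        intervalIntegral.integral_nonneg ht.1 fun x _ => by positivity
      rw [hE]
      linarith
    have hmix : 2 * ∫ x in t..D, Real.exp (-x) * (g x * f' x) ≤ 1 / 2 * A + 2 * E := by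
      have h5 : 2 * ∫ x in t..D, Real.exp (-x) * (g x * f' x) ≤
          1 / 2 * A + 2 * ∫ x in t..D, Real.exp (-x) * f' x ^ 2 := by
        rw [hA, ← intervalIntegral.integral_const_mul, ← intervalIntegral.integral_const_mul,
          ← intervalIntegral.integral_const_mul,
          ← intervalIntegral.integral_add (ii _ (by fun_prop) _ _) (ii _ (by fun_prop) _ _)]
        apply intervalIntegral.integral_mono_on htD (ii _ (by fun_prop) _ _)
          (ii _ (by fun_prop) _ _)
        intro x _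
        have h6 : 0 ≤ Real.exp (-x) * (g x - 2 * f' x) ^ 2 := by positivity
        nlinarith
      linarith
    have hA4 : A ≤ 4 * E := by linarith
    have h7 : ∫ x in t..D, Real.exp (-x) * f x ^ 2 ≤ 2 * A + 2 * f t ^ 2 := by
      have h8 : ∫ x in t..D, Real.exp (-x) * f x ^ 2 ≤
          ∫ x in t..D, (2 * (Real.exp (-x) * g x ^ 2) + 2 * f t ^ 2 * Real.exp (-x)) := by
        apply intervalIntegral.integral_mono_on htD (ii _ (by fun_prop) _ _)
          (ii _ (by fun_prop) _ _)
        intro x _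
        have h6 : 0 ≤ Real.exp (-x) * (g x - f t) ^ 2 := by positivity
        simp only [hg] at h6 ⊢
        nlinarith
      have h9 : ∫ x in t..D, Real.exp (-x) ≤ 1 := by
        have h10 : ∀ x, HasDerivAt (fun x : ℝ => -Real.exp (-x)) (Real.exp (-x)) x := by
          intro x
          exact (((hasDerivAt_neg x).exp).neg).congr_deriv (by ring)
        rw [intervalIntegral.integral_eq_sub_of_hasDerivAt (fun x _ => h10 x)
          (ii _ (by fun_prop) _ _)]
        have h11 : Real.exp (-t) ≤ 1 := by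
          rw [Real.exp_le_one_iff]
          linarith [ht.1]
        have h12 := Real.exp_pos (-D)
        linarith
      rw [intervalIntegral.integral_add (ii _ (by fun_prop) _ _) (ii _ (by fun_prop) _ _),
        intervalIntegral.integral_const_mul, intervalIntegral.integral_const_mul, ← hA] at h8
      nlinarith [sq_nonneg (f t)]
    have h13 : ∫ x in (1 : ℝ)..D, Real.exp (-x) * f x ^ 2 ≤
        ∫ x in t..D, Real.exp (-x) * f x ^ 2 := by
      have h3 := intervalIntegral.integral_add_adjacent_intervals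
        (ii (fun x => Real.exp (-x) * f x ^ 2) (by fun_prop) t 1)
        (ii (fun x => Real.exp (-x) * f x ^ 2) (by fun_prop) 1 D)
      have h4 : 0 ≤ ∫ x in t..1, Real.exp (-x) * f x ^ 2 :=
        intervalIntegral.integral_nonneg ht.2 fun x _ => by positivity
      linarith
    linarith
  -- average over `t`
  have havg : ∫ x in (1 : ℝ)..D, Real.exp (-x) * f x ^ 2 ≤
      8 * E + 2 * ∫ x in (0 : ℝ)..1, f x ^ 2 := by
    have h1 : ∫ _t in (0 : ℝ)..1, (∫ x in (1 : ℝ)..D, Real.exp (-x) * f x ^ 2) ≤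
        ∫ t in (0 : ℝ)..1, (8 * E + 2 * f t ^ 2) :=
      intervalIntegral.integral_mono_on zero_le_one (ii _ continuous_const _ _)
        (ii _ (by fun_prop) _ _) key
    rw [intervalIntegral.integral_const, intervalIntegral.integral_add
      (ii _ (by fun_prop) _ _) (ii _ (by fun_prop) _ _), intervalIntegral.integral_const,
      intervalIntegral.integral_const_mul] at h1
    simpa using h1
  have h01 : ∫ x in (0 : ℝ)..1, Real.exp (-x) * f x ^ 2 ≤ ∫ x in (0 : ℝ)..1, f x ^ 2 := by
    apply intervalIntegral.integral_mono_on zero_le_one (ii _ (by fun_prop) _ _)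
      (ii _ (by fun_prop) _ _)
    intro x hx
    have : Real.exp (-x) ≤ 1 := by
      rw [Real.exp_le_one_iff]
      linarith [hx.1]
    nlinarith [sq_nonneg (f x)]
  have hsplit := intervalIntegral.integral_add_adjacent_intervals
    (ii (fun x => Real.exp (-x) * f x ^ 2) (by fun_prop) 0 1)
    (ii (fun x => Real.exp (-x) * f x ^ 2) (by fun_prop) 1 D)
  linarith

/-- The two-dimensional weighted inequality. -/
theorem hardy2 {D : ℝ} (hD : 1 ≤ D) {f f1 f2 : ℝ → ℝ → ℝ}
    (hf : Continuous (Function.uncurry f))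
    (h1 : ∀ x y, HasDerivAt (fun x => f x y) (f1 x y) x)
    (h2 : ∀ x y, HasDerivAt (fun y => f x y) (f2 x y) y)
    (c1 : Continuous (Function.uncurry f1)) (c2 : Continuous (Function.uncurry f2))
    (h0 : K 1 f = 0) :
    K D (fun x s => Real.exp (-x) * f x s ^ 2) ≤
      10 * K D (fun x s => Real.exp (-x) * (f1 x s ^ 2 + f2 x s ^ 2)) := by
  have hec : Continuous (Function.uncurry fun (x _s : ℝ) => Real.exp (-x)) := by
    have : Continuous fun p : ℝ × ℝ => Real.exp (-p.1) := by fun_prop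
    exact this
  have hsec : ∀ F : ℝ → ℝ → ℝ, Continuous (Function.uncurry F) → ∀ s, Continuous fun x => F x s :=
    fun F hF s => hF.comp (Continuous.prodMk_left s)
  have hpar : ∀ (F : ℝ → ℝ → ℝ) (c : ℝ), Continuous (Function.uncurry F) →
      Continuous fun s => ∫ x in Icc 0 c, F x s := fun F c hF =>
    continuous_parametric_integral_of_continuous (f := fun s x => F x s)
      (hF.comp continuous_swap) isCompact_Icc
  have hpar1 : ∀ (F : ℝ → ℝ → ℝ), Continuous (Function.uncurry F) →
      Continuous fun x => ∫ s in Icc (0 : ℝ) 1, F x s := fun F hF =>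
    continuous_parametric_integral_of_continuous hF isCompact_Icc
  have hsw : ∀ (F : ℝ → ℝ → ℝ) (c : ℝ), Continuous (Function.uncurry F) →
      K c F = ∫ s in Icc (0 : ℝ) 1, ∫ x in Icc 0 c, F x s := by
    intro F c hF
    unfold K
    apply integral_integral_swap
    rw [Measure.prod_restrict]
    exact int_of_cont (isCompact_Icc.prod isCompact_Icc) hF
  have cf : Continuous (Function.uncurry fun x s => Real.exp (-x) * f x s ^ 2) :=
    hec.mul (hf.pow 2)
  have cf2 : Continuous (Function.uncurry fun x s => f x s ^ 2) := hf.pow 2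
  have cf1 : Continuous (Function.uncurry fun x s => Real.exp (-x) * f1 x s ^ 2) :=
    hec.mul (c1.pow 2)
  have ce : Continuous (Function.uncurry fun x s => Real.exp (-x) * (f1 x s ^ 2 + f2 x s ^ 2)) :=
    hec.mul ((c1.pow 2).add (c2.pow 2))
  have ce0 : Continuous (Function.uncurry fun x s => f1 x s ^ 2 + f2 x s ^ 2) :=
    (c1.pow 2).add (c2.pow 2)
  -- integrate the one-dimensional inequality
  have hA : K D (fun x s => Real.exp (-x) * f x s ^ 2) ≤
      8 * K D (fun x s => Real.exp (-x) * f1 x s ^ 2) + 3 * K 1 (fun x s => f x s ^ 2) := by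
    have j1 : Continuous fun s => 8 * ∫ x in Icc 0 D, Real.exp (-x) * f1 x s ^ 2 :=
      continuous_const.mul (hpar _ _ cf1)
    have j2 : Continuous fun s => 3 * ∫ x in Icc (0 : ℝ) 1, f x s ^ 2 :=
      continuous_const.mul (hpar _ _ cf2)
    rw [hsw _ _ cf, hsw _ _ cf1, hsw _ _ cf2, ← integral_const_mul, ← integral_const_mul,
      ← integral_add (int_of_cont isCompact_Icc j1) (int_of_cont isCompact_Icc j2)]
    apply integral_mono (int_of_cont isCompact_Icc (hpar _ _ cf))
      (int_of_cont isCompact_Icc (j1.add j2))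
    intro s
    exact hardy hD (fun x => h1 x s) (hsec f1 c1 s)
  -- the square
  have hB : K 1 (fun x s => f x s ^ 2) ≤ 1 / 6 * K 1 (fun x s => f1 x s ^ 2 + f2 x s ^ 2) := by
    have h := poinc2 0 0 hf h1 h2 c1 c2
    simp only [zero_add] at h
    have h00 : (∫ x in Icc (0 : ℝ) 1, ∫ y in Icc (0 : ℝ) 1, f x y) = 0 := h0
    rw [h00] at h
    unfold K
    linarith
  have hC : K 1 (fun x s => f1 x s ^ 2 + f2 x s ^ 2) ≤
      3 * K 1 (fun x s => Real.exp (-x) * (f1 x s ^ 2 + f2 x s ^ 2)) := by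
    unfold K
    have j3 : Continuous fun x => 3 * ∫ s in Icc (0 : ℝ) 1, Real.exp (-x) * (f1 x s ^ 2 + f2 x s ^ 2) :=
      continuous_const.mul (hpar1 _ ce)
    rw [← integral_const_mul]
    apply setIntegral_mono_on ((hpar1 _ ce0).integrableOn_Icc) (j3.integrableOn_Icc) measurableSet_Icc
    intro x hx
    rw [integral_const_mul, ← mul_assoc]
    have h3 : 1 ≤ 3 * Real.exp (-x) := by
      have h4 : Real.exp (-1) ≤ Real.exp (-x) := Real.exp_le_exp.2 (by linarith [hx.2])
      have h5 : Real.exp 1 < 3 := by linarith [Real.exp_one_lt_d9]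
      have h6 : Real.exp (-1) * Real.exp 1 = 1 := by rw [← Real.exp_add]; simp
      have h7 := Real.exp_pos (-1)
      nlinarith
    have h8 : 0 ≤ ∫ s in Icc (0 : ℝ) 1, (f1 x s ^ 2 + f2 x s ^ 2) :=
      integral_nonneg fun s => by positivity
    nlinarith
  have hmono : ∀ F : ℝ → ℝ → ℝ, Continuous (Function.uncurry F) → (∀ x s, 0 ≤ F x s) →
      K 1 F ≤ K D F := by
    intro F hF h
    unfold K
    apply setIntegral_mono_set ((hpar1 _ hF).integrableOn_Icc)
    · exact Eventually.of_forall fun x => integral_nonneg fun s => h x s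
    · exact (Icc_subset_Icc_right hD).eventuallyLE
  have hD1 := hmono _ ce fun x s => by positivity
  have hE1 : K D (fun x s => Real.exp (-x) * f1 x s ^ 2) ≤
      K D (fun x s => Real.exp (-x) * (f1 x s ^ 2 + f2 x s ^ 2)) := by
    unfold K
    apply setIntegral_mono_on ((hpar1 _ cf1).integrableOn_Icc) ((hpar1 _ ce).integrableOn_Icc)
      measurableSet_Icc
    intro x _
    apply setIntegral_mono_on
    · exact (cf1.comp (Continuous.prodMk_right x)).integrableOn_Icc
    · exact (ce.comp (Continuous.prodMk_right x)).integrableOn_Icc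
    · exact measurableSet_Icc
    · intro s _
      have := Real.exp_pos (-x)
      have h3 : 0 ≤ f2 x s ^ 2 := sq_nonneg _
      gcongr
      linarith
  have hpos : 0 ≤ K D (fun x s => Real.exp (-x) * (f1 x s ^ 2 + f2 x s ^ 2)) :=
    integral_nonneg fun x => integral_nonneg fun s => by positivity
  linarith

end Pool.Agent.V1187.HN
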