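import Pool.Agent.V1187.Horn1

/-!
# The exponential horn: Neumann eigenvalues
-/

set_option autoImplicit false

open Set MeasureTheory Filter Topology

namespace Pool.Agent.V1187.HN

open Pool.Agent.V1187.NB

/-- Bounded Lipschitz domains: bounded connected nonempty open sets with the uniform cone property. -/
def IsLipschitzDomain {d : ℕ} (Ω : Set (EuclideanSpace ℝ (Fin d))) : Prop :=
  IsConnected Ω ∧ IsOpen Ω ∧ Bornology.IsBounded Ω ∧
    ∀ p ∈ frontier Ω, ∃ e : EuclideanSpace ℝ (Fin d), ‖e‖ = 1 ∧ ∃ h : ℝ, 0 < h ∧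
      ∀ x ∈ closure Ω, dist x p < h → ∀ v : EuclideanSpace ℝ (Fin d), 0 < ‖v‖ → ‖v‖ < h →
        ‖v - ‖v‖ • e‖ < h * ‖v‖ → x + v ∈ Ω

/-- The infimum of `μ_k(Ω₁) / μ_k(Ω₂)` over all bounded Lipschitz domains `Ω₁ ⊆ Ω₂` in `ℝ^d`, with
`Ω₁` convex. -/
noncomputable def cTilde (k d : ℕ) : ENNReal :=
  ⨅ (Ω₁ : Set (EuclideanSpace ℝ (Fin d))) (Ω₂ : Set (EuclideanSpace ℝ (Fin d)))
    (_ : IsConvexDomain Ω₁ ∧ IsLipschitzDomain Ω₂ ∧ Ω₁ ⊆ Ω₂), mu k Ω₁ / mu k Ω₂

/-- Lower bounds from one linear functional. -/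
theorem le_mu_one {d k : ℕ} (hk : 1 ≤ k) {Ω : Set (EuclideanSpace ℝ (Fin d))} (ho : IsOpen Ω)
    (hb : Bornology.IsBounded Ω) (ℓ : (EuclideanSpace ℝ (Fin d) → ℝ) → ℝ)
    (hadd : ∀ u v, ContDiff ℝ 1 u → ContDiff ℝ 1 v → ℓ (u + v) = ℓ u + ℓ v)
    (hsmul : ∀ (a : ℝ) u, ContDiff ℝ 1 u → ℓ (a • u) = a * ℓ u) {c : ℝ}
    (hc : ∀ u, ContDiff ℝ 1 u → ℓ u = 0 → c * ∫ x in Ω, u x ^ 2 ≤ ∫ x in Ω, ‖gradient u x‖ ^ 2) :
    ENNReal.ofReal c ≤ mu k Ω := by
  refine le_iInf₂ fun V hV => ?_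
  let L : V →ₗ[ℝ] ℝ :=
    { toFun := fun u => ℓ (u : EuclideanSpace ℝ (Fin d) → ℝ)
      map_add' := fun u v => hadd _ _ (hV.smooth u u.2) (hV.smooth v v.2)
      map_smul' := fun a u => hsmul a _ (hV.smooth u u.2) }
  haveI : FiniteDimensional ℝ V := Module.finite_of_finrank_pos (by rw [hV.finrank]; omega)
  have hker : LinearMap.ker L ≠ ⊥ := by
    apply LinearMap.ker_ne_bot_of_finrank_lt
    rw [hV.finrank, Module.finrank_self]
    omega
  obtain ⟨u, hu, hu0⟩ := Submodule.exists_mem_ne_zero_of_ne_bot hker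
  have hu1 : (u : EuclideanSpace ℝ (Fin d) → ℝ) ≠ 0 := fun h => hu0 (Subtype.ext h)
  have hC := hV.smooth u u.2
  have hzero : ℓ (u : EuclideanSpace ℝ (Fin d) → ℝ) = 0 := LinearMap.mem_ker.1 hu
  refine le_trans ?_ (le_iSup₂ (f := fun (u : EuclideanSpace ℝ (Fin d) → ℝ)
    (_ : u ∈ V ∧ u ≠ 0) => ENNReal.ofReal (rayleigh Ω u)) (u : EuclideanSpace ℝ (Fin d) → ℝ)
    ⟨u.2, hu1⟩)
  apply ENNReal.ofReal_le_ofReal
  have hpos : 0 < ∫ x in Ω, (u : EuclideanSpace ℝ (Fin d) → ℝ) x ^ 2 := by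
    obtain ⟨x₀, hx₀, hne⟩ := hV.nonzero u u.2 hu1
    rw [setIntegral_pos_iff_support_of_nonneg_ae (Eventually.of_forall fun x => sq_nonneg _)
      (intOn hb (hC.continuous.pow 2))]
    have hopen : IsOpen ((Function.support fun x => (u : EuclideanSpace ℝ (Fin d) → ℝ) x ^ 2) ∩ Ω) :=
      (hC.continuous.pow 2).isOpen_support.inter ho
    exact hopen.measure_pos _ ⟨x₀, by simpa using hne, hx₀⟩
  unfold rayleigh
  rw [le_div_iff₀ hpos]
  exact hc _ hC hzero

/-- the curve coordinates of the horn -/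
noncomputable def ph (x s : ℝ) : EuclideanSpace ℝ (Fin 2) := p2 x (Real.exp (-x) * s)

theorem ph_cont : Continuous fun p : ℝ × ℝ => ph p.1 p.2 := by
  have : Continuous fun p : ℝ × ℝ => (p.1, Real.exp (-p.1) * p.2) := by fun_prop
  exact p2_cont.comp this

theorem p2_decomp (a b : ℝ) : p2 a b = a • p2 1 0 + b • p2 0 1 := by
  ext i
  fin_cases i <;> simp [p2]

theorem inner_p2 (g : EuclideanSpace ℝ (Fin 2)) (a b : ℝ) :
    inner ℝ g (p2 a b) = g 0 * a + g 1 * b := by
  rw [PiLp.inner_apply, Fin.sum_univ_two]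
  simp only [p2_zero, p2_one]
  simp
  ring

theorem ph_hasDerivAt_x (x s : ℝ) :
    HasDerivAt (fun t => ph t s) (p2 1 (-(Real.exp (-x) * s))) x := by
  have h1 : HasDerivAt (fun t : ℝ => Real.exp (-t) * s) (-(Real.exp (-x) * s)) x := by
    exact (((hasDerivAt_neg x).exp).mul_const s).congr_deriv (by ring)
  have h2 := ((hasDerivAt_id x).smul_const (p2 1 0)).add (h1.smul_const (p2 0 1))
  have e : (fun t => ph t s) = fun t => t • p2 1 0 + (Real.exp (-t) * s) • p2 0 1 := by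
    funext t
    exact p2_decomp _ _
  rw [e, p2_decomp 1 (-(Real.exp (-x) * s))]
  exact h2

theorem ph_hasDerivAt_s (x s : ℝ) :
    HasDerivAt (fun t => ph x t) (p2 0 (Real.exp (-x))) s := by
  have h1 : HasDerivAt (fun t : ℝ => Real.exp (-x) * t) (Real.exp (-x)) s := by
    simpa using (hasDerivAt_id s).const_mul (Real.exp (-x))
  have h2 := (h1.smul_const (p2 0 1)).const_add (x • p2 1 0)
  have e : (fun t => ph x t) = fun t => x • p2 1 0 + (Real.exp (-x) * t) • p2 0 1 := by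
    funext t
    exact p2_decomp _ _
  rw [e, p2_decomp 0 (Real.exp (-x)), zero_smul, zero_add]
  exact h2

/-- The Poincaré inequality on the horn, with a constant which does not depend on its length. -/
theorem horn_poincare {D : ℝ} (hD : 1 ≤ D) {u : EuclideanSpace ℝ (Fin 2) → ℝ}
    (hu : ContDiff ℝ 1 u) (h0 : K 1 (fun x s => u (ph x s)) = 0) :
    1 / 30 * ∫ x in horn D, u x ^ 2 ≤ ∫ x in horn D, ‖gradient u x‖ ^ 2 := by
  have hgc := cont_gradient hu
  have hgi : ∀ i, Continuous fun p : ℝ × ℝ => gradient u (ph p.1 p.2) i := by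
    intro i
    have h1 : Continuous fun x : EuclideanSpace ℝ (Fin 2) => gradient u x i :=
      (PiLp.continuous_apply 2 (fun _ : Fin 2 => ℝ) i).comp hgc
    exact h1.comp ph_cont
  have hd : ∀ p, HasFDerivAt u (fderiv ℝ u p) p := fun p =>
    ((hu.differentiable (by simp)) p).hasFDerivAt
  have d1 : ∀ x s, HasDerivAt (fun x => u (ph x s))
      (gradient u (ph x s) 0 * 1 + gradient u (ph x s) 1 * (-(Real.exp (-x) * s))) x := by
    intro x s
    have h := (hd (ph x s)).comp_hasDerivAt x (ph_hasDerivAt_x x s)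
    refine h.congr_deriv ?_
    rw [← inner_gradient_left, inner_p2]
  have d2 : ∀ x s, HasDerivAt (fun s => u (ph x s))
      (gradient u (ph x s) 0 * 0 + gradient u (ph x s) 1 * Real.exp (-x)) s := by
    intro x s
    have h := (hd (ph x s)).comp_hasDerivAt s (ph_hasDerivAt_s x s)
    refine h.congr_deriv ?_
    rw [← inner_gradient_left, inner_p2]
  have g0 := hgi 0
  have g1 := hgi 1
  have hf : Continuous (Function.uncurry fun x s => u (ph x s)) := hu.continuous.comp ph_cont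
  have ce : Continuous fun p : ℝ × ℝ => Real.exp (-p.1) :=
    Real.continuous_exp.comp continuous_fst.neg
  have c1 : Continuous fun p : ℝ × ℝ =>
      gradient u (ph p.1 p.2) 0 * 1 + gradient u (ph p.1 p.2) 1 * (-(Real.exp (-p.1) * p.2)) :=
    (g0.mul continuous_const).add (g1.mul (ce.mul continuous_snd).neg)
  have c2 : Continuous fun p : ℝ × ℝ =>
      gradient u (ph p.1 p.2) 0 * 0 + gradient u (ph p.1 p.2) 1 * Real.exp (-p.1) :=
    (g0.mul continuous_const).add (g1.mul ce)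
  have h := hardy2 hD hf d1 d2 c1 c2 h0
  have i1 := horn_integral D (f := fun x => u x ^ 2) (hu.continuous.pow 2)
  have i2 := horn_integral D (f := fun x => ‖gradient u x‖ ^ 2) (hgc.norm.pow 2)
  rw [i1, i2]
  have h3 : K D (fun x s => Real.exp (-x) * ((gradient u (ph x s) 0 * 1 +
      gradient u (ph x s) 1 * (-(Real.exp (-x) * s))) ^ 2 +
      (gradient u (ph x s) 0 * 0 + gradient u (ph x s) 1 * Real.exp (-x)) ^ 2)) ≤
      3 * K D (fun x s => Real.exp (-x) * ‖gradient u (ph x s)‖ ^ 2) := by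
    have ca : Continuous (Function.uncurry fun x s => Real.exp (-x) * ((gradient u (ph x s) 0 * 1 +
      gradient u (ph x s) 1 * (-(Real.exp (-x) * s))) ^ 2 +
      (gradient u (ph x s) 0 * 0 + gradient u (ph x s) 1 * Real.exp (-x)) ^ 2)) := by
      exact ce.mul ((c1.pow 2).add (c2.pow 2))
    have cb : Continuous (Function.uncurry fun x s => 3 * (Real.exp (-x) * ‖gradient u (ph x s)‖ ^ 2)) := by
      have hn : Continuous fun p : ℝ × ℝ => ‖gradient u (ph p.1 p.2)‖ ^ 2 :=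
        (hgc.comp ph_cont).norm.pow 2
      exact continuous_const.mul (ce.mul hn)
    have e : 3 * K D (fun x s => Real.exp (-x) * ‖gradient u (ph x s)‖ ^ 2) =
        K D (fun x s => 3 * (Real.exp (-x) * ‖gradient u (ph x s)‖ ^ 2)) := by
      unfold K
      rw [← integral_const_mul]
      congr 1
      funext x
      exact (integral_const_mul _ _).symm
    rw [e]
    unfold K
    apply setIntegral_mono_on
    · exact (continuous_parametric_integral_of_continuous ca isCompact_Icc).integrableOn_Icc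
    · exact (continuous_parametric_integral_of_continuous cb isCompact_Icc).integrableOn_Icc
    · exact measurableSet_Icc
    · intro x hx
      apply setIntegral_mono_on
      · exact (ca.comp (Continuous.prodMk_right x)).integrableOn_Icc
      · exact (cb.comp (Continuous.prodMk_right x)).integrableOn_Icc
      · exact measurableSet_Icc
      · intro s hs
        show Real.exp (-x) * ((gradient u (ph x s) 0 * 1 +
          gradient u (ph x s) 1 * (-(Real.exp (-x) * s))) ^ 2 +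
          (gradient u (ph x s) 0 * 0 + gradient u (ph x s) 1 * Real.exp (-x)) ^ 2) ≤
          3 * (Real.exp (-x) * ‖gradient u (ph x s)‖ ^ 2)
        have e1 : ‖gradient u (ph x s)‖ ^ 2 = gradient u (ph x s) 0 ^ 2 + gradient u (ph x s) 1 ^ 2 := by
          rw [EuclideanSpace.norm_sq_eq, Fin.sum_univ_two]
          simp only [Real.norm_eq_abs, sq_abs]
        rw [e1]
        generalize gradient u (ph x s) 0 = a
        generalize gradient u (ph x s) 1 = b
        have hex : Real.exp (-x) ≤ 1 := by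
          rw [Real.exp_le_one_iff]
          linarith [hx.1]
        have hex0 := Real.exp_pos (-x)
        have hc0 : 0 ≤ Real.exp (-x) * s := mul_nonneg hex0.le hs.1
        have hc1 : Real.exp (-x) * s ≤ 1 := by nlinarith [hs.1, hs.2]
        have hc2 : (Real.exp (-x) * s) ^ 2 ≤ 1 := by nlinarith
        have he2 : Real.exp (-x) ^ 2 ≤ 1 := by nlinarith
        have h4 : (a * 1 + b * (-(Real.exp (-x) * s))) ^ 2 ≤ 2 * a ^ 2 + 2 * b ^ 2 := by
          have h5 : 0 ≤ (a * 1 - b * (-(Real.exp (-x) * s))) ^ 2 := sq_nonneg _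
          have h6 : (b * (-(Real.exp (-x) * s))) ^ 2 ≤ b ^ 2 := by
            have : (b * (-(Real.exp (-x) * s))) ^ 2 = b ^ 2 * (Real.exp (-x) * s) ^ 2 := by ring
            rw [this]
            exact mul_le_of_le_one_right (sq_nonneg _) hc2
          nlinarith
        have h7 : (a * 0 + b * Real.exp (-x)) ^ 2 ≤ b ^ 2 := by
          have : (a * 0 + b * Real.exp (-x)) ^ 2 = b ^ 2 * Real.exp (-x) ^ 2 := by ring
          rw [this]
          exact mul_le_of_le_one_right (sq_nonneg _) he2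
        have h8 : (a * 1 + b * (-(Real.exp (-x) * s))) ^ 2 + (a * 0 + b * Real.exp (-x)) ^ 2 ≤
            3 * (a ^ 2 + b ^ 2) := by nlinarith [sq_nonneg a]
        calc Real.exp (-x) * ((a * 1 + b * (-(Real.exp (-x) * s))) ^ 2 +
              (a * 0 + b * Real.exp (-x)) ^ 2)
            ≤ Real.exp (-x) * (3 * (a ^ 2 + b ^ 2)) := by gcongr
          _ = _ := by ring
  have e1 : K D (fun x s => Real.exp (-x) * u (p2 x (Real.exp (-x) * s)) ^ 2) =
      K D (fun x s => Real.exp (-x) * u (ph x s) ^ 2) := rfl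
  have e2 : K D (fun x s => Real.exp (-x) * ‖gradient u (p2 x (Real.exp (-x) * s))‖ ^ 2) =
      K D (fun x s => Real.exp (-x) * ‖gradient u (ph x s)‖ ^ 2) := rfl
  rw [e1, e2]
  linarith

theorem lower_horn {D : ℝ} (hD : 1 ≤ D) {k : ℕ} (hk : 1 ≤ k) :
    ENNReal.ofReal (1 / 30) ≤ mu k (horn D) := by
  have ic : ∀ u : EuclideanSpace ℝ (Fin 2) → ℝ, ContDiff ℝ 1 u →
      Continuous (Function.uncurry fun x s => u (ph x s)) := fun u hu => hu.continuous.comp ph_cont
  apply le_mu_one hk (open_horn D) (bounded_horn D) (fun u => K 1 fun x s => u (ph x s))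
  · intro u v hu hv
    unfold K
    rw [← integral_add
      (continuous_parametric_integral_of_continuous (ic u hu) isCompact_Icc).integrableOn_Icc
      (continuous_parametric_integral_of_continuous (ic v hv) isCompact_Icc).integrableOn_Icc]
    congr 1
    funext x
    exact integral_add ((ic u hu).comp (Continuous.prodMk_right x)).integrableOn_Icc
      ((ic v hv).comp (Continuous.prodMk_right x)).integrableOn_Icc
  · intro a u hu
    unfold K
    rw [← integral_const_mul]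
    congr 1
    funext x
    rw [← integral_const_mul]
    rfl
  · intro u hu h0
    exact horn_poincare hD hu h0

/-! ### The thin rectangle -/

noncomputable def tr (D : ℝ) (a : ℕ) (x : EuclideanSpace ℝ (Fin 2)) : ℝ := co D a (x 0)

theorem tr_contDiff (D : ℝ) (a : ℕ) : ContDiff ℝ 1 (tr D a) :=
  (co_contDiff D a).comp (EuclideanSpace.proj 0 : EuclideanSpace ℝ (Fin 2) →L[ℝ] ℝ).contDiff

theorem tr_gradient (D : ℝ) (a : ℕ) (x : EuclideanSpace ℝ (Fin 2)) :
    gradient (tr D a) x = p2 (dc D a (x 0)) 0 := by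
  have h0 : HasFDerivAt (fun x : EuclideanSpace ℝ (Fin 2) => x 0)
      (EuclideanSpace.proj 0 : EuclideanSpace ℝ (Fin 2) →L[ℝ] ℝ) x :=
    (EuclideanSpace.proj 0 : EuclideanSpace ℝ (Fin 2) →L[ℝ] ℝ).hasFDerivAt
  have h2 := (co_hasDerivAt D a (x 0)).comp_hasFDerivAt x h0
  have h3 : HasGradientAt (tr D a) (p2 (dc D a (x 0)) 0) x := by
    rw [hasGradientAt_iff_hasFDerivAt]
    refine h2.congr_fderiv ?_
    ext v
    rw [InnerProductSpace.toDual_apply_apply, real_inner_comm, inner_p2]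
    simp
    ring
  exact h3.gradient

theorem tr_gram {D δ : ℝ} (hδ : 0 < δ) (a b : ℕ) :
    ∫ x in rect (Ioo 0 D) (Ioo 0 δ), tr D a x * tr D b x = gr D a b * δ := by
  rw [rect_integral (f := fun x => tr D a x * tr D b x) (Metric.isBounded_Ioo _ _)
    (Metric.isBounded_Ioo _ _) ((tr_contDiff D a).continuous.mul (tr_contDiff D b).continuous)]
  have e : ∀ x y, tr D a (p2 x y) * tr D b (p2 x y) = co D a x * co D b x := fun x y => rfl
  simp only [e, setIntegral_const, smul_eq_mul, Measure.real, Real.volume_Ioo, sub_zero,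
    ENNReal.toReal_ofReal hδ.le]
  rw [integral_const_mul, mul_comm]
  rfl

theorem tr_energy {D δ : ℝ} (hD : 0 < D) (hδ : 0 < δ) (a b : ℕ) :
    ∫ x in rect (Ioo 0 D) (Ioo 0 δ), (inner ℝ (gradient (tr D a) x) (gradient (tr D b) x) : ℝ) =
      (Real.pi * a / D) ^ 2 * (gr D a b * δ) := by
  rw [rect_integral (Metric.isBounded_Ioo _ _) (Metric.isBounded_Ioo _ _)
    ((cont_gradient (tr_contDiff D a)).inner (cont_gradient (tr_contDiff D b)))]
  have e : ∀ x y, (inner ℝ (gradient (tr D a) (p2 x y)) (gradient (tr D b) (p2 x y)) : ℝ) =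
      dc D a x * dc D b x := by
    intro x y
    rw [tr_gradient, tr_gradient, inner_p2]
    simp only [p2_zero, p2_one]
    ring
  simp only [e, setIntegral_const, smul_eq_mul, Measure.real, Real.volume_Ioo, sub_zero,
    ENNReal.toReal_ofReal hδ.le]
  rw [integral_const_mul, dc_gram hD]
  ring

theorem bounded_rect {I₀ I₁ : Set ℝ} (b₀ : Bornology.IsBounded I₀) (b₁ : Bornology.IsBounded I₁) :
    Bornology.IsBounded (rect I₀ I₁) := by
  obtain ⟨C₀, h₀⟩ := b₀.exists_norm_le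
  obtain ⟨C₁, h₁⟩ := b₁.exists_norm_le
  rw [isBounded_iff_forall_norm_le]
  refine ⟨Real.sqrt (C₀ ^ 2 + C₁ ^ 2), fun x hx => ?_⟩
  apply Real.le_sqrt_of_sq_le
  rw [EuclideanSpace.norm_sq_eq, Fin.sum_univ_two]
  have a₀ := h₀ _ hx.1
  have a₁ := h₁ _ hx.2
  gcongr

theorem domain_rect {a b : ℝ} (ha : 0 < a) (hb : 0 < b) :
    IsConvexDomain (rect (Ioo 0 a) (Ioo 0 b)) := by
  have hc : ∀ i : Fin 2, Continuous fun x : EuclideanSpace ℝ (Fin 2) => x i := fun i =>
    PiLp.continuous_apply 2 (fun _ : Fin 2 => ℝ) i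
  refine ⟨⟨p2 (a / 2) (b / 2), ?_⟩,
    (isOpen_Ioo.preimage (hc 0)).inter (isOpen_Ioo.preimage (hc 1)), ?_,
    bounded_rect (Metric.isBounded_Ioo _ _) (Metric.isBounded_Ioo _ _)⟩
  · refine ⟨?_, ?_⟩
    · show a / 2 ∈ Ioo 0 a
      constructor <;> linarith
    · show b / 2 ∈ Ioo 0 b
      constructor <;> linarith
  · intro x hx y hy s t hs ht hst
    exact ⟨(convex_Ioo 0 a) hx.1 hy.1 hs ht hst, (convex_Ioo 0 b) hx.2 hy.2 hs ht hst⟩

theorem upper_rect {D δ : ℝ} (hD : 0 < D) (hδ : 0 < δ) (k : ℕ) :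
    mu k (rect (Ioo 0 D) (Ioo 0 δ)) ≤ ENNReal.ofReal ((Real.pi * k / D) ^ 2) := by
  have hbd : Bornology.IsBounded (rect (Ioo 0 D) (Ioo 0 δ)) :=
    bounded_rect (Metric.isBounded_Ioo _ _) (Metric.isBounded_Ioo _ _)
  have hne : ∀ i j : Fin (k + 1), i ≠ j → (i : ℕ) ≠ (j : ℕ) := fun i j h h' => h (Fin.ext h')
  apply mu_le hbd (ι := Fin (k + 1)) (φ := fun i => tr D i)
  · simp
  · intro i
    exact tr_contDiff _ _
  · intro i j hij
    rw [tr_gram hδ, gr_zero hD (hne i j hij), zero_mul]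
  · intro i j hij
    rw [tr_energy hD hδ, gr_zero hD (hne i j hij), zero_mul, mul_zero]
  · intro i
    have := tr_gram (D := D) hδ i i
    simp only [← sq] at this
    rw [this]
    exact mul_pos (gr_pos hD _) hδ
  · intro i
    have h1 := tr_gram (D := D) hδ i i
    have h2 := tr_energy hD hδ i i
    simp only [← sq, real_inner_self_eq_norm_sq] at h1 h2
    rw [h1, h2]
    apply mul_le_mul_of_nonneg_right _ (mul_pos (gr_pos hD _) hδ).le
    have hi : ((i : ℕ) : ℝ) ≤ k := by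
      have := i.2
      exact_mod_cast (by omega : (i : ℕ) ≤ k)
    have hpi := Real.pi_pos
    gcongr

/-! ### The horn is a Lipschitz domain -/

theorem horn_connected {D : ℝ} (hD : 0 < D) : IsConnected (horn D) := by
  have h1 : IsConnected (Ioo (0 : ℝ) D ×ˢ Ioo (0 : ℝ) 1) :=
    (isConnected_Ioo hD).prod (isConnected_Ioo one_pos)
  have h2 : horn D = (fun p : ℝ × ℝ => ph p.1 p.2) '' (Ioo (0 : ℝ) D ×ˢ Ioo (0 : ℝ) 1) := by
    ext x
    constructor
    · rintro ⟨h0, h1⟩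
      have hpos := Real.exp_pos (-x 0)
      refine ⟨(x 0, x 1 / Real.exp (-x 0)), And.intro h0 (And.intro (div_pos h1.1 hpos) ?_), ?_⟩
      · show x 1 / Real.exp (-x 0) < 1
        rw [div_lt_one hpos]
        exact h1.2
      · ext i
        fin_cases i
        · rfl
        · show Real.exp (-x 0) * (x 1 / Real.exp (-x 0)) = x 1
          field_simp
    · rintro ⟨⟨a, s⟩, ⟨ha, hs⟩, rfl⟩
      have hpos := Real.exp_pos (-a)
      refine And.intro ha (And.intro (mul_pos hpos hs.1) ?_)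
      show Real.exp (-a) * s < Real.exp (-a)
      exact mul_lt_of_lt_one_right hpos hs.2
  rw [h2]
  exact h1.image _ ph_cont.continuousOn

theorem closure_horn {D : ℝ} {x : EuclideanSpace ℝ (Fin 2)} (hx : x ∈ closure (horn D)) :
    (0 ≤ x 0 ∧ x 0 ≤ D) ∧ (0 ≤ x 1 ∧ x 1 ≤ Real.exp (-x 0)) := by
  have hc : ∀ i : Fin 2, Continuous fun x : EuclideanSpace ℝ (Fin 2) => x i := fun i =>
    PiLp.continuous_apply 2 (fun _ : Fin 2 => ℝ) i
  have h0 := hc 0
  have h1 := hc 1
  have hcl : IsClosed {x : EuclideanSpace ℝ (Fin 2) |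
      (0 ≤ x 0 ∧ x 0 ≤ D) ∧ (0 ≤ x 1 ∧ x 1 ≤ Real.exp (-x 0))} :=
    ((isClosed_le continuous_const h0).inter (isClosed_le h0 continuous_const)).inter
      ((isClosed_le continuous_const h1).inter (isClosed_le h1 (Real.continuous_exp.comp h0.neg)))
  have hsub : horn D ⊆ {x : EuclideanSpace ℝ (Fin 2) |
      (0 ≤ x 0 ∧ x 0 ≤ D) ∧ (0 ≤ x 1 ∧ x 1 ≤ Real.exp (-x 0))} := by
    rintro y ⟨⟨a, b⟩, ⟨c, e⟩⟩
    exact And.intro (And.intro a.le b.le) (And.intro c.le e.le)
  exact closure_minimal hsub hcl hx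

theorem coord_le (i : Fin 2) (v : EuclideanSpace ℝ (Fin 2)) : |v i| ≤ ‖v‖ := by
  have := PiLp.norm_apply_le v i
  rwa [Real.norm_eq_abs] at this

/-- `1/√5` -/
noncomputable def q5 : ℝ := Real.sqrt (1 / 5)

theorem q5_sq : q5 ^ 2 = 1 / 5 := Real.sq_sqrt (by norm_num)
theorem q5_gt : 44 / 100 < q5 := by
  unfold q5
  rw [Real.lt_sqrt (by norm_num)]
  norm_num
theorem q5_lt : q5 < 45 / 100 := by
  unfold q5
  rw [Real.sqrt_lt' (by norm_num)]
  norm_num

theorem horn_lipschitz {D : ℝ} (hD : 1 ≤ D) : IsLipschitzDomain (horn D) := by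
  refine ⟨horn_connected (by linarith), open_horn D, bounded_horn D, fun p hp => ?_⟩
  obtain ⟨⟨p0, p0'⟩, ⟨p1, p1'⟩⟩ := closure_horn (frontier_subset_closure hp)
  obtain ⟨sx, hsx⟩ : ∃ s : ℝ, (s = 1 ∧ p 0 ≤ D / 2) ∨ (s = -1 ∧ D / 2 < p 0) := by
    rcases le_or_gt (p 0) (D / 2) with h | h
    · exact ⟨1, Or.inl ⟨rfl, h⟩⟩
    · exact ⟨-1, Or.inr ⟨rfl, h⟩⟩
  obtain ⟨sy, hsy⟩ : ∃ s : ℝ, (s = 1 ∧ p 1 < Real.exp (-p 0) / 2) ∨
      (s = -1 ∧ Real.exp (-p 0) / 2 ≤ p 1) := by
    rcases lt_or_ge (p 1) (Real.exp (-p 0) / 2) with h | h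
    · exact ⟨1, Or.inl ⟨rfl, h⟩⟩
    · exact ⟨-1, Or.inr ⟨rfl, h⟩⟩
  have sx2 : sx ^ 2 = 1 := by rcases hsx with h | h <;> rw [h.1] <;> norm_num
  have sy2 : sy ^ 2 = 1 := by rcases hsy with h | h <;> rw [h.1] <;> norm_num
  have hEpos := Real.exp_pos (-D)
  have hE1 : Real.exp (-D) ≤ 1 := by
    rw [Real.exp_le_one_iff]
    linarith
  obtain ⟨h, hh⟩ : ∃ h : ℝ, h = Real.exp (-D) / 20 := ⟨_, rfl⟩
  have hh0 : 0 < h := by rw [hh]; positivity
  have hh1 : h ≤ 1 / 20 := by rw [hh]; linarith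
  have q1 := q5_gt
  have q2 := q5_lt
  refine ⟨p2 (sx * q5) (sy * (2 * q5)), ?_, h, hh0, fun x hx hxp v hv0 hvh hve => ?_⟩
  · rw [EuclideanSpace.norm_eq, Fin.sum_univ_two]
    simp only [Real.norm_eq_abs, sq_abs, p2_zero, p2_one]
    have : (sx * q5) ^ 2 + (sy * (2 * q5)) ^ 2 = 1 := by
      have := q5_sq
      calc (sx * q5) ^ 2 + (sy * (2 * q5)) ^ 2 = sx ^ 2 * q5 ^ 2 + sy ^ 2 * (4 * q5 ^ 2) := by ring
        _ = 1 := by rw [sx2, sy2, this]; norm_num
    rw [this, Real.sqrt_one]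
  · obtain ⟨⟨x0, x0'⟩, ⟨x1, x1'⟩⟩ := closure_horn hx
    have c0 := (coord_le 0 _).trans_lt hve
    have c1 := (coord_le 1 _).trans_lt hve
    have e0 : (v - ‖v‖ • p2 (sx * q5) (sy * (2 * q5))) 0 = v 0 - ‖v‖ * (sx * q5) := rfl
    have e1 : (v - ‖v‖ • p2 (sx * q5) (sy * (2 * q5))) 1 = v 1 - ‖v‖ * (sy * (2 * q5)) := rfl
    rw [e0, abs_lt] at c0
    rw [e1, abs_lt] at c1
    have hhv : h * ‖v‖ ≤ 1 / 20 * ‖v‖ := by gcongr
    have b1 : 44 / 100 * ‖v‖ < ‖v‖ * q5 := by nlinarith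
    have b2 : ‖v‖ * q5 < 45 / 100 * ‖v‖ := by nlinarith
    have v0l := (coord_le 0 v)
    have v1l := (coord_le 1 v)
    rw [abs_le] at v0l v1l
    have d0 : |x 0 - p 0| < h := by
      have := coord_le 0 (x - p)
      rw [dist_eq_norm] at hxp
      exact this.trans_lt hxp
    have d1 : |x 1 - p 1| < h := by
      have := coord_le 1 (x - p)
      rw [dist_eq_norm] at hxp
      exact this.trans_lt hxp
    rw [abs_lt] at d0 d1
    have hED : Real.exp (-D) ≤ Real.exp (-p 0) := by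
      rw [Real.exp_le_exp]
      linarith
    have hp1 : Real.exp (-p 0) ≤ 1 := by
      rw [Real.exp_le_one_iff]
      linarith
    have hx1 : Real.exp (-x 0) ≤ 1 := by
      rw [Real.exp_le_one_iff]
      linarith
    show (0 < x 0 + v 0 ∧ x 0 + v 0 < D) ∧ (0 < x 1 + v 1 ∧ x 1 + v 1 < Real.exp (-(x 0 + v 0)))
    have ex1 : Real.exp (-x 0) * (1 - v 0) ≤ Real.exp (-(x 0 + v 0)) := by
      have : Real.exp (-(x 0 + v 0)) = Real.exp (-x 0) * Real.exp (-v 0) := by
        rw [← Real.exp_add]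
        congr 1
        ring
      rw [this]
      have h2 := Real.add_one_le_exp (-v 0)
      have h3 := Real.exp_pos (-x 0)
      nlinarith
    have ex2 : Real.exp (-p 0) * (1 - 2 * h) ≤ Real.exp (-(x 0 + v 0)) := by
      have e : Real.exp (-(x 0 + v 0)) = Real.exp (-p 0) * Real.exp (-(x 0 + v 0 - p 0)) := by
        rw [← Real.exp_add]
        congr 1
        ring
      rw [e]
      have h2 := Real.add_one_le_exp (-(x 0 + v 0 - p 0))
      have h3 := Real.exp_pos (-p 0)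
      have h4 : 1 - 2 * h ≤ Real.exp (-(x 0 + v 0 - p 0)) := by linarith
      exact mul_le_mul_of_nonneg_left h4 h3.le
    have habs : |v 0| < 1 / 2 * ‖v‖ := by
      rw [abs_lt]
      rcases hsx with hs | hs <;> rw [hs.1] at c0 <;> constructor <;> linarith
    refine ⟨?_, ?_⟩
    · rcases hsx with hs | hs <;> rw [hs.1] at c0 <;> constructor <;> linarith
    · rcases hsy with hs | hs <;> rw [hs.1] at c1
      · refine ⟨by linarith, ?_⟩
        refine lt_of_lt_of_le ?_ ex2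
        have hmul : Real.exp (-p 0) * h ≤ 1 / 20 * Real.exp (-p 0) := by
          rw [mul_comm]
          gcongr
        have hpp := Real.exp_pos (-p 0)
        nlinarith
      · refine ⟨by linarith, ?_⟩
        refine lt_of_lt_of_le ?_ ex1
        have h5 : v 1 < -|v 0| := by linarith
        have h6 : Real.exp (-x 0) * v 0 ≤ |v 0| := by
          calc Real.exp (-x 0) * v 0 ≤ Real.exp (-x 0) * |v 0| := by
                apply mul_le_mul_of_nonneg_left (le_abs_self _) (Real.exp_pos _).le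
            _ ≤ 1 * |v 0| := by gcongr
            _ = |v 0| := one_mul _
        nlinarith

theorem rect_sub_horn {D : ℝ} : rect (Ioo 0 D) (Ioo 0 (Real.exp (-D))) ⊆ horn D := by
  intro x hx
  refine ⟨hx.1, ⟨hx.2.1, lt_of_lt_of_le hx.2.2 ?_⟩⟩
  rw [Real.exp_le_exp]
  have := hx.1.2
  linarith

/-- The constants of the inclusion `convex ⊆ Lipschitz` vanish in the plane. -/
theorem cTilde_zero {k : ℕ} (hk : 1 ≤ k) : cTilde k 2 = 0 := by
  have h : ∀ n : ℕ, 1 ≤ n → cTilde k 2 ≤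
      ENNReal.ofReal ((Real.pi * k / n) ^ 2) / ENNReal.ofReal (1 / 30) := by
    intro n hn
    have hn1 : (1 : ℝ) ≤ n := by exact_mod_cast hn
    have hpos := Real.exp_pos (-(n : ℝ))
    have hpair : IsConvexDomain (rect (Ioo 0 (n : ℝ)) (Ioo 0 (Real.exp (-(n : ℝ))))) ∧
        IsLipschitzDomain (horn n) ∧
        rect (Ioo 0 (n : ℝ)) (Ioo 0 (Real.exp (-(n : ℝ)))) ⊆ horn n :=
      ⟨domain_rect (by linarith) hpos, horn_lipschitz hn1, rect_sub_horn⟩
    have hle : cTilde k 2 ≤ mu k (rect (Ioo 0 (n : ℝ)) (Ioo 0 (Real.exp (-(n : ℝ))))) /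
        mu k (horn n) :=
      (iInf_le _ (rect (Ioo 0 (n : ℝ)) (Ioo 0 (Real.exp (-(n : ℝ)))))).trans
        ((iInf_le _ (horn (n : ℝ))).trans (iInf_le _ hpair))
    refine hle.trans ?_
    exact ENNReal.div_le_div (upper_rect (by linarith) hpos k) (lower_horn hn1 hk)
  have hlim : Tendsto (fun n : ℕ => ENNReal.ofReal ((Real.pi * k / n) ^ 2) /
      ENNReal.ofReal (1 / 30)) atTop (𝓝 0) := by
    have h1 : Tendsto (fun n : ℕ => (Real.pi * k / (n : ℝ)) ^ 2) atTop (𝓝 0) := by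
      have := (tendsto_const_div_atTop_nhds_zero_nat (Real.pi * k)).pow 2
      simpa using this
    have h2 := ENNReal.tendsto_ofReal h1
    rw [ENNReal.ofReal_zero] at h2
    have h3 := ENNReal.Tendsto.div_const h2 (b := ENNReal.ofReal (1 / 30)) (Or.inr (by norm_num))
    simpa using h3
  apply le_antisymm _ bot_le
  refine ge_of_tendsto hlim ?_
  filter_upwards [eventually_ge_atTop 1] with n hn
  exact h n hn

end Pool.Agent.V1187.HN
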