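import Mathlib

set_option autoImplicit false
open Polynomial

namespace Pool.Agent.V1187.Krall

theorem subdeg {a b : ℝ[X]} {n : ℕ} (ha : a.natDegree ≤ n) (hb : b.natDegree ≤ n) :
    (a - b).natDegree ≤ n := by
  have := natDegree_sub_le_of_le ha hb
  simpa using this

/-- Algebra of moment functionals: a symmetric operator representing the second order Sobolev form is
a fourth order differential operator, with the coefficients determined by the functionals. -/
theorem operator_form (Φ Ψ H : ℝ[X] →ₗ[ℝ] ℝ) (q : ℕ → ℝ[X])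
    (hreg : ∀ f : ℝ[X], (∀ g : ℝ[X], Φ (f * g) = 0) → f = 0)
    (h1 : ∀ g : ℝ[X], Φ (q 1 * g) = Ψ (derivative g))
    (h2 : ∀ g : ℝ[X], Φ (q 2 * g) = Ψ (X * derivative g) + H (derivative (derivative g)))
    (h3 : ∀ g : ℝ[X], Φ (q 3 * g) = Ψ (C (1 / 2) * X ^ 2 * derivative g)
      + H (X * derivative (derivative g)))
    (h4 : ∀ g : ℝ[X], Φ (q 4 * g) = Ψ (C (1 / 6) * X ^ 3 * derivative g)
      + H (C (1 / 2) * X ^ 2 * derivative (derivative g)))
    (d1 : (q 1).natDegree ≤ 1) (d2 : (q 2).natDegree ≤ 2) (d3 : (q 3).natDegree ≤ 3)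
    (d4 : (q 4).natDegree ≤ 4) :
    ∃ a₁ a₂ a₃ a₄ : ℝ[X], a₁.natDegree ≤ 1 ∧ a₂.natDegree ≤ 2 ∧ a₃.natDegree ≤ 3 ∧
      a₄.natDegree ≤ 4 ∧
      (∀ g, Φ (a₁ * g) = Ψ (derivative g)) ∧
      (∀ g, Φ (a₂ * g) = H (derivative (derivative g)) - Ψ g) ∧
      (∀ g, Φ (a₃ * g) = - 2 * H (derivative g)) ∧
      (∀ g, Φ (a₄ * g) = H g) ∧
      ∀ f r : ℝ[X], (∀ g, Φ (r * g) = Ψ (derivative f * derivative g)
        + H (derivative (derivative f) * derivative (derivative g))) →
        a₄ * derivative (derivative (derivative (derivative f)))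
          + a₃ * derivative (derivative (derivative f))
          + a₂ * derivative (derivative f) + a₁ * derivative f = r := by
  set a₁ := q 1 with ha1
  have A1 : ∀ g, Φ (a₁ * g) = Ψ (derivative g) := h1
  set a₂ := q 2 - X * a₁ with ha2
  have A2 : ∀ g, Φ (a₂ * g) = H (derivative (derivative g)) - Ψ g := by
    intro g
    have e : a₂ * g = q 2 * g - a₁ * (X * g) := by rw [ha2]; ring
    rw [e, map_sub, h2, A1]
    have e2 : derivative (X * g) = g + X * derivative g := by
      simp [derivative_mul]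
    rw [e2, map_add]; ring
  set a₃ := q 3 - X * a₂ - C (1 / 2) * X ^ 2 * a₁ with ha3
  have dX2 : derivative (C (1 / 2 : ℝ) * X ^ 2) = X := by
    rw [derivative_C_mul_X_pow]; norm_num
  have dX3 : derivative (C (1 / 6 : ℝ) * X ^ 3) = C (1 / 2) * X ^ 2 := by
    rw [derivative_C_mul_X_pow]; norm_num
  have A3 : ∀ g, Φ (a₃ * g) = - 2 * H (derivative g) := by
    intro g
    have e : a₃ * g = q 3 * g - a₂ * (X * g) - a₁ * (C (1 / 2) * X ^ 2 * g) := by rw [ha3]; ring
    rw [e, map_sub, map_sub, h3, A2, A1]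
    have e2 : derivative (derivative (X * g)) = 2 • derivative g + X * derivative (derivative g) := by
      simp only [derivative_mul, derivative_X, one_mul, map_add]; rw [two_smul]; ring
    have e3 : derivative (C (1 / 2) * X ^ 2 * g) = X * g + C (1 / 2) * X ^ 2 * derivative g := by
      rw [derivative_mul, dX2]
    rw [e2, e3, map_add, map_add, map_nsmul, nsmul_eq_mul]; push_cast; ring
  set a₄ := q 4 - X * a₃ - C (1 / 2) * X ^ 2 * a₂ - C (1 / 6) * X ^ 3 * a₁ with ha4
  have A4 : ∀ g, Φ (a₄ * g) = H g := by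
    intro g
    have e : a₄ * g = q 4 * g - a₃ * (X * g) - a₂ * (C (1 / 2) * X ^ 2 * g)
        - a₁ * (C (1 / 6) * X ^ 3 * g) := by rw [ha4]; ring
    rw [e, map_sub, map_sub, map_sub, h4, A3, A2, A1]
    have e1 : derivative (X * g) = g + X * derivative g := by simp [derivative_mul]
    have e2 : derivative (derivative (C (1 / 2) * X ^ 2 * g)) = g + 2 • (X * derivative g)
        + C (1 / 2) * X ^ 2 * derivative (derivative g) := by
      rw [derivative_mul, dX2, map_add, derivative_mul, derivative_mul, dX2, derivative_X, one_mul,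
        two_smul]; ring
    have e3 : derivative (C (1 / 6) * X ^ 3 * g) = C (1 / 2) * X ^ 2 * g
        + C (1 / 6) * X ^ 3 * derivative g := by
      rw [derivative_mul, dX3]
    rw [e1, e2, e3, map_add, map_add, map_add, map_nsmul, nsmul_eq_mul, map_add]; push_cast; ring
  have D1 : a₁.natDegree ≤ 1 := d1
  have D2 : a₂.natDegree ≤ 2 := by
    rw [ha2]
    refine subdeg d2 ?_
    calc (X * a₁).natDegree ≤ X.natDegree + a₁.natDegree := natDegree_mul_le
      _ ≤ 1 + 1 := by gcongr; exact natDegree_X_le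
  have dC2 : (C (1 / 2 : ℝ) * X ^ 2).natDegree ≤ 2 := natDegree_C_mul_X_pow_le _ _
  have dC3 : (C (1 / 6 : ℝ) * X ^ 3).natDegree ≤ 3 := natDegree_C_mul_X_pow_le _ _
  have D3 : a₃.natDegree ≤ 3 := by
    rw [ha3]
    refine subdeg (subdeg d3 ?_) ?_
    · calc (X * a₂).natDegree ≤ X.natDegree + a₂.natDegree := natDegree_mul_le
        _ ≤ 1 + 2 := by gcongr; exact natDegree_X_le
    · calc _ ≤ (C (1 / 2 : ℝ) * X ^ 2).natDegree + a₁.natDegree := natDegree_mul_le
        _ ≤ 2 + 1 := by gcongr
  have D4 : a₄.natDegree ≤ 4 := by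
    rw [ha4]
    refine subdeg (subdeg (subdeg d4 ?_) ?_) ?_
    · calc (X * a₃).natDegree ≤ X.natDegree + a₃.natDegree := natDegree_mul_le
        _ ≤ 1 + 3 := by gcongr; exact natDegree_X_le
    · calc _ ≤ (C (1 / 2 : ℝ) * X ^ 2).natDegree + a₂.natDegree := natDegree_mul_le
        _ ≤ 2 + 2 := by gcongr
    · calc _ ≤ (C (1 / 6 : ℝ) * X ^ 3).natDegree + a₁.natDegree := natDegree_mul_le
        _ ≤ 3 + 1 := by gcongr
  refine ⟨a₁, a₂, a₃, a₄, D1, D2, D3, D4, A1, A2, A3, A4, ?_⟩
  intro f r hr
  rw [← sub_eq_zero]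
  apply hreg
  intro g
  rw [sub_mul, map_sub, hr, add_mul, add_mul, add_mul, map_add, map_add, map_add, mul_assoc, A4,
    mul_assoc, A3, mul_assoc, A2, mul_assoc, A1]
  have e3 : derivative (derivative (derivative (derivative f)) * g)
      = derivative (derivative (derivative (derivative f))) * g
        + derivative (derivative (derivative f)) * derivative g := derivative_mul
  have e2 : derivative (derivative (derivative (derivative f) * g))
      = derivative (derivative (derivative (derivative f))) * g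
        + 2 • (derivative (derivative (derivative f)) * derivative g)
        + derivative (derivative f) * derivative (derivative g) := by
    rw [derivative_mul, map_add, derivative_mul, derivative_mul, two_smul]; ring
  have e1 : derivative (derivative f * g)
      = derivative (derivative f) * g + derivative f * derivative g := derivative_mul
  rw [e3, e2, e1, map_add, map_add, map_add, map_add, map_nsmul, nsmul_eq_mul]; push_cast; ring

/-- Every polynomial of degree less than `N` is a combination of the first `N` members. -/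
theorem mem_span_of_degree_lt (p : ℕ → ℝ[X]) (hp : ∀ n, (p n).degree = ((n : ℕ) : WithBot ℕ)) :
    ∀ (N : ℕ) (f : ℝ[X]), f.degree < ((N : ℕ) : WithBot ℕ) →
      f ∈ Submodule.span ℝ (p '' {m | m < N}) := by
  intro N
  induction N with
  | zero =>
    intro f hf
    have : f = 0 := by
      rw [← degree_eq_bot]
      rcases h : f.degree with _ | m
      · rfl
      · rw [h] at hf
        exact absurd hf (by simp)
    rw [this]; exact Submodule.zero_mem _
  | succ N ih =>
    intro f hf
    have hlc : (p N).coeff N ≠ 0 := by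
      have := hp N
      exact coeff_ne_zero_of_eq_degree this
    set c := f.coeff N / (p N).coeff N with hc
    have hsub : (f - c • p N).degree < ((N : ℕ) : WithBot ℕ) := by
      rw [degree_lt_iff_coeff_zero]
      intro m hm
      rcases hm.eq_or_lt with rfl | hm
      · rw [coeff_sub, coeff_smul, smul_eq_mul, hc]; field_simp; simp
      · rw [coeff_sub, coeff_smul, smul_eq_mul]
        rw [degree_lt_iff_coeff_zero] at hf
        rw [hf m hm, coeff_eq_zero_of_degree_lt (by rw [hp]; exact_mod_cast hm)]; ring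
    have h1 := ih _ hsub
    have h2 : f = (f - c • p N) + c • p N := by ring
    rw [h2]
    refine Submodule.add_mem _ ?_ ?_
    · exact Submodule.span_mono (Set.image_mono (fun m hm => Nat.lt_succ_of_lt hm)) h1
    · exact Submodule.smul_mem _ _ (Submodule.subset_span ⟨N, Nat.lt_succ_self N, rfl⟩)

/-- The operator of the Sobolev form, on one polynomial. -/
theorem exists_repr (Φ : ℝ[X] →ₗ[ℝ] ℝ) (B : ℝ[X] → ℝ[X] → ℝ)
    (hBl : ∀ f₁ f₂ g, B (f₁ + f₂) g = B f₁ g + B f₂ g)
    (hBls : ∀ (c : ℝ) f g, B (c • f) g = c * B f g)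
    (hBr : ∀ f g₁ g₂, B f (g₁ + g₂) = B f g₁ + B f g₂)
    (hBrs : ∀ (c : ℝ) f g, B f (c • g) = c * B f g)
    (p : ℕ → ℝ[X]) (hp : ∀ n, (p n).degree = ((n : ℕ) : WithBot ℕ))
    (ho : ∀ n m, n ≠ m → Φ (p n * p m) = 0) (hn : ∀ n, Φ (p n * p n) ≠ 0)
    (hB : ∀ n m, n ≠ m → B (p n) (p m) = 0) :
    (∀ n g, Φ (C (B (p n) (p n) / Φ (p n * p n)) * p n * g) = B (p n) g) ∧
    (∀ f : ℝ[X], (∀ g, Φ (f * g) = 0) → f = 0) ∧
    (∀ (N : ℕ) (f : ℝ[X]), f.degree < ((N : ℕ) : WithBot ℕ) →
      ∃ r : ℝ[X], r.degree < ((N : ℕ) : WithBot ℕ) ∧ ∀ g, Φ (r * g) = B f g) := by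
  have hB0r : ∀ f, B f 0 = 0 := by
    intro f; have := hBrs 0 f 0; simpa using this
  have hB0l : ∀ g, B 0 g = 0 := by
    intro g; have := hBls 0 0 g; simpa using this
  have hall : ∀ g : ℝ[X], g ∈ Submodule.span ℝ (Set.range p) := by
    intro g
    by_cases h0 : g = 0
    · rw [h0]; exact Submodule.zero_mem _
    have h1 : g.degree < ((g.natDegree + 1 : ℕ) : WithBot ℕ) := by
      rw [degree_eq_natDegree h0]; exact_mod_cast Nat.lt_succ_self _
    exact Submodule.span_mono (Set.image_subset_range _ _)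
      (mem_span_of_degree_lt p hp _ g h1)
  have key : ∀ n g, Φ (C (B (p n) (p n) / Φ (p n * p n)) * p n * g) = B (p n) g := by
    intro n g
    refine Submodule.span_induction (p := fun g _ =>
      Φ (C (B (p n) (p n) / Φ (p n * p n)) * p n * g) = B (p n) g) ?_ ?_ ?_ ?_ (hall g)
    · rintro _ ⟨m, rfl⟩
      rw [mul_assoc, ← smul_eq_C_mul, map_smul, smul_eq_mul]
      by_cases h : n = m
      · subst h; field_simp [hn n]
      · rw [ho n m h, hB n m h, mul_zero]
    · rw [mul_zero, map_zero, hB0r]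
    · intro x y _ _ hx hy
      rw [mul_add, map_add, hx, hy, hBr]
    · intro c x _ hx
      rw [mul_smul_comm, map_smul, hx, hBrs, smul_eq_mul]
  refine ⟨key, ?_, ?_⟩
  · intro f hf
    by_contra h0
    -- expand with respect to the highest member
    have hd : f.degree = ((f.natDegree : ℕ) : WithBot ℕ) := degree_eq_natDegree h0
    set N := f.natDegree with hN
    have hlc : (p N).coeff N ≠ 0 := coeff_ne_zero_of_eq_degree (hp N)
    set c := f.coeff N / (p N).coeff N with hc
    have hcne : c ≠ 0 := by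
      rw [hc]; exact div_ne_zero (coeff_ne_zero_of_eq_degree hd) hlc
    have hsub : (f - c • p N).degree < ((N : ℕ) : WithBot ℕ) := by
      rw [degree_lt_iff_coeff_zero]
      intro m hm
      rcases hm.eq_or_lt with rfl | hm
      · rw [coeff_sub, coeff_smul, smul_eq_mul, hc]; field_simp; simp
      · rw [coeff_sub, coeff_smul, smul_eq_mul]
        rw [coeff_eq_zero_of_degree_lt (by rw [hd]; exact_mod_cast hm),
          coeff_eq_zero_of_degree_lt (by rw [hp]; exact_mod_cast hm)]; ring
    have hspan := mem_span_of_degree_lt p hp N _ hsub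
    have hz : Φ ((f - c • p N) * p N) = 0 := by
      refine Submodule.span_induction (p := fun g _ => Φ (g * p N) = 0) ?_ ?_ ?_ ?_ hspan
      · rintro _ ⟨m, hm, rfl⟩
        exact ho m N (ne_of_lt hm)
      · simp
      · intro x y _ _ hx hy; rw [add_mul, map_add, hx, hy, add_zero]
      · intro a x _ hx; rw [smul_mul_assoc, map_smul, hx, smul_zero]
    have hfN := hf (p N)
    rw [sub_mul, map_sub, hfN, smul_mul_assoc, map_smul, smul_eq_mul] at hz
    have : c * Φ (p N * p N) = 0 := by linarith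
    exact (mul_ne_zero hcne (hn N)) this
  · intro N f hf
    have hspan := mem_span_of_degree_lt p hp N f hf
    refine Submodule.span_induction (p := fun f _ => ∃ r : ℝ[X], r.degree < ((N : ℕ) : WithBot ℕ) ∧
      ∀ g, Φ (r * g) = B f g) ?_ ?_ ?_ ?_ hspan
    · rintro _ ⟨m, hm, rfl⟩
      refine ⟨C (B (p m) (p m) / Φ (p m * p m)) * p m, ?_, key m⟩
      rw [← smul_eq_C_mul]
      refine lt_of_le_of_lt (degree_smul_le _ _) ?_
      rw [hp]; exact_mod_cast hm
    · refine ⟨0, ?_, fun g => by rw [zero_mul, map_zero, hB0l]⟩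
      rw [degree_zero]; exact WithBot.bot_lt_coe N
    · rintro x y _ _ ⟨r, hr, hr'⟩ ⟨s, hs, hs'⟩
      refine ⟨r + s, lt_of_le_of_lt (degree_add_le _ _) (max_lt hr hs), fun g => ?_⟩
      rw [add_mul, map_add, hr', hs', hBl]
    · rintro c x _ ⟨r, hr, hr'⟩
      refine ⟨c • r, lt_of_le_of_lt (degree_smul_le _ _) hr, fun g => ?_⟩
      rw [smul_mul_assoc, map_smul, hr', hBls, smul_eq_mul]

end Pool.Agent.V1187.Krall
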