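import Pool.Agent.V1187.Krall1

set_option autoImplicit false
open Polynomial MeasureTheory

namespace Pool.Agent.V1187.Krall

theorem int_poly {μ : Measure ℝ} (h : ∀ k : ℕ, Integrable (fun x : ℝ => x ^ k) μ) (f : ℝ[X]) :
    Integrable (fun x : ℝ => f.eval x) μ := by
  have : (fun x : ℝ => f.eval x) = fun x => ∑ i ∈ Finset.range (f.natDegree + 1), f.coeff i * x ^ i := by
    funext x; exact eval_eq_sum_range x
  rw [this]
  exact integrable_finsetSum _ (fun i _ => (h i).const_mul _)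

/-- The moment functional of a measure with finite moments. -/
noncomputable def mom (μ : Measure ℝ) (h : ∀ k : ℕ, Integrable (fun x : ℝ => x ^ k) μ) :
    ℝ[X] →ₗ[ℝ] ℝ where
  toFun f := ∫ x, f.eval x ∂μ
  map_add' f g := by
    simp only [eval_add]
    exact integral_add (int_poly h f) (int_poly h g)
  map_smul' c f := by
    simp only [eval_smul, smul_eq_mul, RingHom.id_apply]
    exact integral_const_mul _ _

theorem mom_apply (μ : Measure ℝ) (h : ∀ k : ℕ, Integrable (fun x : ℝ => x ^ k) μ) (f : ℝ[X]) :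
    mom μ h f = ∫ x, f.eval x ∂μ := rfl

theorem main (φ ψ η : Measure ℝ) (p : ℕ → ℝ[X])
    (hφ : ∀ k : ℕ, Integrable (fun x : ℝ => x ^ k) φ)
    (hψ : ∀ k : ℕ, Integrable (fun x : ℝ => x ^ k) ψ)
    (hη : ∀ k : ℕ, Integrable (fun x : ℝ => x ^ k) η)
    (hη0 : η ≠ 0)
    (hdeg : ∀ n : ℕ, (p n).degree = ((n : ℕ) : WithBot ℕ))
    (horth : ∀ n m : ℕ, n ≠ m → ∫ x, (p n).eval x * (p m).eval x ∂φ = 0)
    (hnorm : ∀ n : ℕ, ∫ x, (p n).eval x * (p n).eval x ∂φ ≠ 0)
    (hS : ∀ n m : ℕ, n ≠ m →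
      (∫ x, (p n).eval x * (p m).eval x ∂φ)
        + (∫ x, (derivative (p n)).eval x * (derivative (p m)).eval x ∂ψ)
        + (∫ x, (derivative (derivative (p n))).eval x
              * (derivative (derivative (p m))).eval x ∂η) = 0) :
    ∃ (a₁ a₂ a₃ a₄ : ℝ[X]) (lam : ℕ → ℝ),
      a₁.natDegree ≤ 1 ∧ a₂.natDegree ≤ 2 ∧ a₃.natDegree ≤ 3 ∧ a₄.natDegree ≤ 4 ∧ a₄ ≠ 0 ∧
      (∀ n, 0 ≤ lam n) ∧
      (∀ n, a₄ * derivative (derivative (derivative (derivative (p n))))
          + a₃ * derivative (derivative (derivative (p n)))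
          + a₂ * derivative (derivative (p n)) + a₁ * derivative (p n) = C (lam n) * p n) ∧
      (∀ f : ℝ[X], ∫ x, f.eval x ∂η = ∫ x, a₄.eval x * f.eval x ∂φ) ∧
      (∀ f : ℝ[X], - 2 * ∫ x, (derivative f).eval x ∂η = ∫ x, a₃.eval x * f.eval x ∂φ) ∧
      (∀ f : ℝ[X], (∫ x, (derivative (derivative f)).eval x ∂η) - ∫ x, f.eval x ∂ψ
        = ∫ x, a₂.eval x * f.eval x ∂φ) ∧
      (∀ f : ℝ[X], ∫ x, (derivative f).eval x ∂ψ = ∫ x, a₁.eval x * f.eval x ∂φ) := by
  set Φ := mom φ hφ with hΦ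
  set Ψ := mom ψ hψ with hΨ
  set H := mom η hη with hH
  set B : ℝ[X] → ℝ[X] → ℝ := fun f g => Ψ (derivative f * derivative g)
    + H (derivative (derivative f) * derivative (derivative g)) with hBdef
  have heΦ : ∀ f g : ℝ[X], Φ (f * g) = ∫ x, f.eval x * g.eval x ∂φ := by
    intro f g; rw [hΦ, mom_apply]; simp only [eval_mul]
  have heΨ : ∀ f g : ℝ[X], Ψ (f * g) = ∫ x, f.eval x * g.eval x ∂ψ := by
    intro f g; rw [hΨ, mom_apply]; simp only [eval_mul]
  have heH : ∀ f g : ℝ[X], H (f * g) = ∫ x, f.eval x * g.eval x ∂η := by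
    intro f g; rw [hH, mom_apply]; simp only [eval_mul]
  have hBoff : ∀ n m, n ≠ m → B (p n) (p m) = 0 := by
    intro n m h
    have h1 := hS n m h
    rw [horth n m h, zero_add] at h1
    simp only [hBdef, heΨ, heH]
    exact h1
  have hrepr := exists_repr Φ B
    (by intro f₁ f₂ g; simp only [hBdef, map_add, add_mul]; ring)
    (by intro c f g; simp only [hBdef, derivative_smul, smul_mul_assoc, map_smul, smul_eq_mul]; ring)
    (by intro f g₁ g₂; simp only [hBdef, map_add, mul_add]; ring)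
    (by intro c f g; simp only [hBdef, derivative_smul, mul_smul_comm, map_smul, smul_eq_mul]; ring)
    p hdeg (fun n m h => by rw [heΦ]; exact horth n m h) (fun n => by rw [heΦ]; exact hnorm n) hBoff
  obtain ⟨hkey, hreg, hex⟩ := hrepr
  have hXk : ∀ k : ℕ, ∃ r : ℝ[X], r.natDegree ≤ k ∧
      ∀ g, Φ (r * g) = B (C (1 / (k.factorial : ℝ)) * X ^ k) g := by
    intro k
    obtain ⟨r, hr, hr'⟩ := hex (k + 1) (C (1 / (k.factorial : ℝ)) * X ^ k)
      (lt_of_le_of_lt (degree_C_mul_X_pow_le k _) (by exact_mod_cast Nat.lt_succ_self k))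
    refine ⟨r, ?_, hr'⟩
    by_cases h0 : r = 0
    · rw [h0]; simp
    rw [degree_eq_natDegree h0] at hr
    exact Nat.lt_succ_iff.mp (by exact_mod_cast hr)
  choose q hqd hq using hXk
  have dX1 : derivative (C (1 / ((Nat.factorial 1 : ℕ) : ℝ)) * X ^ 1) = (1 : ℝ[X]) := by
    rw [derivative_C_mul_X_pow]; norm_num
  have dX2 : derivative (C (1 / ((Nat.factorial 2 : ℕ) : ℝ)) * X ^ 2) = (X : ℝ[X]) := by
    rw [derivative_C_mul_X_pow]; norm_num [Nat.factorial]
  have dX3 : derivative (C (1 / ((Nat.factorial 3 : ℕ) : ℝ)) * X ^ 3) = C (1 / 2 : ℝ) * X ^ 2 := by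
    rw [derivative_C_mul_X_pow]; norm_num [Nat.factorial]
  have dX4 : derivative (C (1 / ((Nat.factorial 4 : ℕ) : ℝ)) * X ^ 4) = C (1 / 6 : ℝ) * X ^ 3 := by
    rw [derivative_C_mul_X_pow]; norm_num [Nat.factorial]
  have dh : derivative (C (1 / 2 : ℝ) * X ^ 2) = X := by
    rw [derivative_C_mul_X_pow]; norm_num
  have ds : derivative (C (1 / 6 : ℝ) * X ^ 3) = C (1 / 2) * X ^ 2 := by
    rw [derivative_C_mul_X_pow]; norm_num
  obtain ⟨a₁, a₂, a₃, a₄, D1, D2, D3, D4, A1, A2, A3, A4, hop⟩ := operator_form Φ Ψ H q hreg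
    (by intro g; rw [hq 1]; simp only [hBdef, dX1]; simp)
    (by intro g; rw [hq 2]; simp only [hBdef, dX2, derivative_X, one_mul])
    (by intro g; rw [hq 3]; simp only [hBdef, dX3, dh])
    (by intro g; rw [hq 4]; simp only [hBdef, dX4, ds])
    (hqd 1) (hqd 2) (hqd 3) (hqd 4)
  refine ⟨a₁, a₂, a₃, a₄, fun n => B (p n) (p n) / Φ (p n * p n), D1, D2, D3, D4, ?_, ?_, ?_, ?_,
    ?_, ?_, ?_⟩
  · rintro rfl
    have h1 := A4 1
    rw [zero_mul, map_zero, hH, mom_apply] at h1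
    simp only [eval_one, integral_const, smul_eq_mul, mul_one] at h1
    haveI : IsFiniteMeasure η := by
      have := hη 0
      simp only [pow_zero] at this
      exact (integrable_const_iff_isFiniteMeasure one_ne_zero).mp this
    have h2 : η.real Set.univ = 0 := h1.symm
    rw [measureReal_eq_zero_iff] at h2
    exact hη0 (Measure.measure_univ_eq_zero.mp h2)
  · intro n
    refine div_nonneg ?_ ?_
    · simp only [hBdef, heΨ, heH]
      exact add_nonneg (integral_nonneg (fun x => mul_self_nonneg _))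
        (integral_nonneg (fun x => mul_self_nonneg _))
    · rw [heΦ]; exact integral_nonneg (fun x => mul_self_nonneg _)
  · intro n
    exact hop (p n) _ (fun g => hkey n g)
  · intro f; rw [← heΦ, A4]; rfl
  · intro f; rw [← heΦ, A3]; rfl
  · intro f; rw [← heΦ, A2]; rfl
  · intro f; rw [← heΦ, A1]; rfl

end Pool.Agent.V1187.Krall
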