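import Mathlib

/-!
# A model quasilinear wave equation in one space dimension: definitions and first facts

Definitions for the equation `-Φ_tt - Ψ Φ_tx + 2 (2 + Ψ) Φ_xx = 0`, `Ψ = Φ_t - 2 Φ_x`, its acoustical
metric, inextendible causal curves, globally hyperbolic developments and their maximality.
-/

namespace Pool.Agent.V1187.Mghd

open Set Filter Topology

noncomputable section

/-- derivative in the `t` direction of a function of `(t, x)` -/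
def pt (F : ℝ × ℝ → ℝ) (p : ℝ × ℝ) : ℝ := fderiv ℝ F p (1, 0)

/-- derivative in the `x` direction of a function of `(t, x)` -/
def px (F : ℝ × ℝ → ℝ) (p : ℝ × ℝ) : ℝ := fderiv ℝ F p (0, 1)

/-- `Ψ = Φ_t - 2 Φ_x` -/
def Psi (Φ : ℝ × ℝ → ℝ) (p : ℝ × ℝ) : ℝ := pt Φ p - 2 * px Φ p

/-- the inverse metric `g⁻¹` as a matrix in the coordinates `(t, x)`, with `ψ` the value of `Ψ` -/
def gInv (ψ : ℝ) : Matrix (Fin 2) (Fin 2) ℝ := !![-1, -ψ / 2; -ψ / 2, 2 * (2 + ψ)]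

/-- the metric `g`, the inverse matrix of `g⁻¹` -/
def gMet (ψ : ℝ) : Matrix (Fin 2) (Fin 2) ℝ := (gInv ψ)⁻¹

/-- `g(v, v)` for a vector `v = (v_t, v_x)` -/
def gQ (ψ : ℝ) (v : ℝ × ℝ) : ℝ := ![v.1, v.2] ⬝ᵥ (gMet ψ).mulVec ![v.1, v.2]

/-- `Φ` solves the equation at every point of `Ω` -/
def Solves (Ω : Set (ℝ × ℝ)) (Φ : ℝ × ℝ → ℝ) : Prop :=
  ∀ p ∈ Ω, -pt (pt Φ) p - Psi Φ p * pt (px Φ) p + 2 * (2 + Psi Φ p) * px (px Φ) p = 0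

/-- an inextendible causal curve of `(Ω, g(Ψ))`: a `C¹` curve `γ` on a nonempty open interval `I`,
running in `Ω`, with nowhere vanishing causal velocity, and with no limit in `Ω` at either end -/
structure InextCausal (Ω : Set (ℝ × ℝ)) (Φ : ℝ × ℝ → ℝ) (I : Set ℝ) (γ : ℝ → ℝ × ℝ) : Prop where
  isOpen : IsOpen I
  ordConnected : I.OrdConnected
  nonempty : I.Nonempty
  contDiffOn : ContDiffOn ℝ 1 γ I
  mem : ∀ s ∈ I, γ s ∈ Ω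
  ne_zero : ∀ s ∈ I, deriv γ s ≠ 0
  causal : ∀ s ∈ I, gQ (Psi Φ (γ s)) (deriv γ s) ≤ 0
  no_upper : ¬ ∃ q ∈ Ω, Tendsto (fun s : I => γ s) atTop (𝓝 q)
  no_lower : ¬ ∃ q ∈ Ω, Tendsto (fun s : I => γ s) atBot (𝓝 q)

/-- `(Ω, Φ)` is a globally hyperbolic development of the data `(φ₀, φ₁)`: `Ω` is an open
neighbourhood of `{t = 0}`, `Φ` is smooth on `Ω`, solves the equation, attains the data, `Ψ ≠ -4`
on `Ω`, and `{t = 0}` is a Cauchy hypersurface: every inextendible causal curve of `(Ω, g(Ψ))`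
meets it exactly once -/
structure IsGHD (φ₀ φ₁ : ℝ → ℝ) (Ω : Set (ℝ × ℝ)) (Φ : ℝ × ℝ → ℝ) : Prop where
  isOpen : IsOpen Ω
  zero_mem : ∀ x : ℝ, ((0 : ℝ), x) ∈ Ω
  smooth : ContDiffOn ℝ (⊤ : ℕ∞) Φ Ω
  solves : Solves Ω Φ
  data₀ : ∀ x : ℝ, Φ (0, x) = φ₀ x
  data₁ : ∀ x : ℝ, pt Φ (0, x) = φ₁ x
  ne_neg_four : ∀ p ∈ Ω, Psi Φ p ≠ -4
  cauchy : ∀ (I : Set ℝ) (γ : ℝ → ℝ × ℝ), InextCausal Ω Φ I γ → ∃! s, s ∈ I ∧ (γ s).1 = 0

/-- `(Ω, Φ)` is a maximal globally hyperbolic development: a globally hyperbolic development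
without a proper extension to a globally hyperbolic development -/
def IsMGHD (φ₀ φ₁ : ℝ → ℝ) (Ω : Set (ℝ × ℝ)) (Φ : ℝ × ℝ → ℝ) : Prop :=
  IsGHD φ₀ φ₁ Ω Φ ∧
    ∀ (Ω' : Set (ℝ × ℝ)) (Φ' : ℝ × ℝ → ℝ), IsGHD φ₀ φ₁ Ω' Φ' → Ω ⊆ Ω' → EqOn Φ Φ' Ω → Ω' = Ω

/-! ## The metric -/

lemma gQ_eq {ψ : ℝ} (hψ : ψ ≠ -4) (v : ℝ × ℝ) :
    gQ ψ v = 4 / (ψ + 4) ^ 2 * ((v.2 - (2 + ψ) * v.1) * (v.2 + 2 * v.1)) := by
  have h4 : ψ + 4 ≠ 0 := fun h => hψ (by linarith)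
  have hdet : (gInv ψ).det = -(ψ + 4) ^ 2 / 4 := by
    rw [gInv, Matrix.det_fin_two_of]; ring
  have hinv : (gInv ψ)⁻¹ = (-(4 / (ψ + 4) ^ 2)) • !![2 * (2 + ψ), ψ / 2; ψ / 2, -1] := by
    rw [Matrix.inv_def, hdet, gInv, Matrix.adjugate_fin_two_of]
    have : Ring.inverse (-(ψ + 4) ^ 2 / 4) = -(4 / (ψ + 4) ^ 2) := by
      rw [Ring.inverse_eq_inv']
      field_simp
    rw [this]
    congr 1
    ext i j
    fin_cases i <;> fin_cases j <;> simp <;> ring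
  rw [gQ, gMet, hinv]
  simp [Matrix.mulVec, dotProduct, Fin.sum_univ_two, Matrix.smul_apply]
  ring

lemma gQ_nonpos_iff {ψ : ℝ} (hψ : ψ ≠ -4) (v : ℝ × ℝ) :
    gQ ψ v ≤ 0 ↔ (v.2 - (2 + ψ) * v.1) * (v.2 + 2 * v.1) ≤ 0 := by
  have h4 : ψ + 4 ≠ 0 := fun h => hψ (by linarith)
  have hpos : 0 < 4 / (ψ + 4) ^ 2 := by positivity
  rw [gQ_eq hψ]
  constructor
  · intro h
    by_contra hc
    push Not at hc
    exact absurd h (not_le.mpr (mul_pos hpos hc))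
  · intro h
    exact mul_nonpos_of_nonneg_of_nonpos hpos.le h

/-! ## Smoothness and the first order form -/

lemma contDiffOn_pt {Ω : Set (ℝ × ℝ)} (hΩ : IsOpen Ω) {F : ℝ × ℝ → ℝ}
    (hF : ContDiffOn ℝ (⊤ : ℕ∞) F Ω) : ContDiffOn ℝ (⊤ : ℕ∞) (pt F) Ω := by
  have h := hF.fderiv_of_isOpen (m := (⊤ : ℕ∞)) hΩ (by simp)
  exact h.clm_apply contDiffOn_const

lemma contDiffOn_px {Ω : Set (ℝ × ℝ)} (hΩ : IsOpen Ω) {F : ℝ × ℝ → ℝ}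
    (hF : ContDiffOn ℝ (⊤ : ℕ∞) F Ω) : ContDiffOn ℝ (⊤ : ℕ∞) (px F) Ω := by
  have h := hF.fderiv_of_isOpen (m := (⊤ : ℕ∞)) hΩ (by simp)
  exact h.clm_apply contDiffOn_const

lemma contDiffOn_Psi {Ω : Set (ℝ × ℝ)} (hΩ : IsOpen Ω) {F : ℝ × ℝ → ℝ}
    (hF : ContDiffOn ℝ (⊤ : ℕ∞) F Ω) : ContDiffOn ℝ (⊤ : ℕ∞) (Psi F) Ω := by
  have h1 := contDiffOn_pt hΩ hF
  have h2 := contDiffOn_px hΩ hF
  exact h1.sub (contDiffOn_const.mul h2)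

lemma differentiableAt_of {Ω : Set (ℝ × ℝ)} (hΩ : IsOpen Ω) {F : ℝ × ℝ → ℝ}
    (hF : ContDiffOn ℝ (⊤ : ℕ∞) F Ω) {p : ℝ × ℝ} (hp : p ∈ Ω) : DifferentiableAt ℝ F p :=
  (hF.contDiffAt (hΩ.mem_nhds hp)).differentiableAt (by simp)

lemma sub_formula {Ω : Set (ℝ × ℝ)} (hΩ : IsOpen Ω) {Φ : ℝ × ℝ → ℝ}
    (hΦ : ContDiffOn ℝ (⊤ : ℕ∞) Φ Ω) {p : ℝ × ℝ} (hp : p ∈ Ω) :
    -pt (pt Φ) p - Psi Φ p * pt (px Φ) p + 2 * (2 + Psi Φ p) * px (px Φ) p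
      = -(pt (Psi Φ) p + (2 + Psi Φ p) * px (Psi Φ) p) := by
  have dpt : DifferentiableAt ℝ (pt Φ) p := differentiableAt_of hΩ (contDiffOn_pt hΩ hΦ) hp
  have dpx : DifferentiableAt ℝ (px Φ) p := differentiableAt_of hΩ (contDiffOn_px hΩ hΦ) hp
  have hfd : DifferentiableAt ℝ (fderiv ℝ Φ) p := by
    have h := hΦ.fderiv_of_isOpen (m := (⊤ : ℕ∞)) hΩ (by simp)
    exact (h.contDiffAt (hΩ.mem_nhds hp)).differentiableAt (by simp)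
  have hPsi : fderiv ℝ (Psi Φ) p = fderiv ℝ (pt Φ) p - (2 : ℝ) • fderiv ℝ (px Φ) p := by
    have h1 := dpt.hasFDerivAt.sub (dpx.hasFDerivAt.const_mul 2)
    exact h1.fderiv
  have hsymm : IsSymmSndFDerivAt ℝ Φ p := by
    have := (hΦ.contDiffAt (hΩ.mem_nhds hp))
    refine this.isSymmSndFDerivAt ?_
    rw [minSmoothness_of_isRCLikeNormedField]
    exact WithTop.coe_le_coe.mpr (le_top : (2 : ℕ∞) ≤ ⊤)
  have key : ∀ v w : ℝ × ℝ, fderiv ℝ (fun q => fderiv ℝ Φ q v) p w = fderiv ℝ (fderiv ℝ Φ) p w v := by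
    intro v w
    have h := hfd.hasFDerivAt.clm_apply (hasFDerivAt_const v p)
    have h2 := h.fderiv
    rw [h2]
    simp
  have hxt : px (pt Φ) p = pt (px Φ) p := by
    show fderiv ℝ (fun q => fderiv ℝ Φ q (1, 0)) p (0, 1)
      = fderiv ℝ (fun q => fderiv ℝ Φ q (0, 1)) p (1, 0)
    rw [key, key]
    exact hsymm _ _
  have e1 : pt (Psi Φ) p = pt (pt Φ) p - 2 * pt (px Φ) p := by
    show fderiv ℝ (Psi Φ) p (1, 0) = _
    rw [hPsi]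
    simp [pt]
  have e2 : px (Psi Φ) p = px (pt Φ) p - 2 * px (px Φ) p := by
    show fderiv ℝ (Psi Φ) p (0, 1) = _
    rw [hPsi]
    simp [px]
  rw [e1, e2, hxt]
  ring

/-- chain rule along a curve -/
lemma hasDerivAt_comp {F : ℝ × ℝ → ℝ} {a b : ℝ → ℝ} {a' b' s : ℝ}
    (hF : DifferentiableAt ℝ F (a s, b s)) (ha : HasDerivAt a a' s) (hb : HasDerivAt b b' s) :
    HasDerivAt (fun r => F (a r, b r)) (pt F (a s, b s) * a' + px F (a s, b s) * b') s := by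
  have h1 : HasDerivAt (fun r => (a r, b r)) (a', b') s := ha.prodMk hb
  have h2 := hF.hasFDerivAt.comp_hasDerivAt s h1
  have h3 : fderiv ℝ F (a s, b s) (a', b') = pt F (a s, b s) * a' + px F (a s, b s) * b' := by
    have : ((a', b') : ℝ × ℝ) = a' • (1, 0) + b' • (0, 1) := by simp
    rw [this, map_add, map_smul, map_smul]
    simp [pt, px]
    ring
  rw [h3] at h2
  exact h2

end

end Pool.Agent.V1187.Mghd
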