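import Pool.Agent.V1187.Mghd1

/-!
# Null lines in a globally hyperbolic development
-/

namespace Pool.Agent.V1187.Mghd

open Set Filter Topology

noncomputable section

/-- the part of a causal line inside `Ω` through a point of `Ω` is an inextendible causal curve -/
lemma line_inext {Ω : Set (ℝ × ℝ)} (hΩ : IsOpen Ω) {Φ : ℝ × ℝ → ℝ} {t₀ x₀ m : ℝ}
    (hp : (t₀, x₀) ∈ Ω)
    (hc : ∀ s ∈ connectedComponentIn {s : ℝ | (s, x₀ + m * (s - t₀)) ∈ Ω} t₀,
      gQ (Psi Φ (s, x₀ + m * (s - t₀))) (1, m) ≤ 0) :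
    InextCausal Ω Φ (connectedComponentIn {s : ℝ | (s, x₀ + m * (s - t₀)) ∈ Ω} t₀)
      (fun s => (s, x₀ + m * (s - t₀))) := by
  set L : ℝ → ℝ × ℝ := fun s => (s, x₀ + m * (s - t₀)) with hL
  set S : Set ℝ := {s : ℝ | L s ∈ Ω} with hS
  have hLcont : Continuous L := by
    rw [hL]; exact continuous_id.prodMk (continuous_const.add (continuous_const.mul
      (continuous_id.sub continuous_const)))
  have hSo : IsOpen S := hΩ.preimage hLcont
  have ht₀S : t₀ ∈ S := by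
    show L t₀ ∈ Ω
    simpa [hL] using hp
  set I : Set ℝ := connectedComponentIn S t₀ with hI
  have hIo : IsOpen I := hSo.connectedComponentIn
  have hord : I.OrdConnected := isPreconnected_connectedComponentIn.ordConnected
  have ht₀ : t₀ ∈ I := mem_connectedComponentIn ht₀S
  have hIS : I ⊆ S := connectedComponentIn_subset S t₀
  haveI : Nonempty I := ⟨⟨t₀, ht₀⟩⟩
  have hder : ∀ s, HasDerivAt L (1, m) s := by
    intro s
    have h1 : HasDerivAt (fun s : ℝ => s) 1 s := hasDerivAt_id s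
    have h2 : HasDerivAt (fun s : ℝ => x₀ + m * (s - t₀)) m s := by
      simpa using (((hasDerivAt_id s).sub_const t₀).const_mul m).const_add x₀
    exact h1.prodMk h2
  refine ⟨hIo, hord, ⟨t₀, ht₀⟩, ?_, ?_, ?_, ?_, ?_, ?_⟩
  · have : ContDiff ℝ 1 L := by
      rw [hL]; exact contDiff_id.prodMk (contDiff_const.add (contDiff_const.mul
        (contDiff_id.sub contDiff_const)))
    exact this.contDiffOn
  · intro s hs
    exact hIS hs
  · intro s _
    rw [(hder s).deriv]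
    simp
  · intro s hs
    rw [(hder s).deriv]
    exact hc s hs
  · rintro ⟨q, hq, hlim⟩
    have h1 : Tendsto (fun s : I => (s : ℝ)) atTop (𝓝 q.1) := (continuous_fst.tendsto q).comp hlim
    have hmono : ∀ s ∈ I, s ≤ q.1 := fun s hs =>
      Monotone.ge_of_tendsto (Subtype.mono_coe _) h1 ⟨s, hs⟩
    have hLq : L q.1 = q :=
      tendsto_nhds_unique ((hLcont.tendsto q.1).comp h1) hlim
    have hqS : q.1 ∈ S := by
      show L q.1 ∈ Ω
      rw [hLq]; exact hq
    have hsub : Icc t₀ q.1 ⊆ S := by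
      intro s hs
      rcases eq_or_lt_of_le hs.2 with h | h
      · rw [h]; exact hqS
      · obtain ⟨u, hu⟩ := (h1.eventually (lt_mem_nhds h)).exists
        exact hIS (hord.out ht₀ u.2 ⟨hs.1, hu.le⟩)
    have hqI : q.1 ∈ I :=
      isPreconnected_Icc.subset_connectedComponentIn (left_mem_Icc.mpr (hmono t₀ ht₀)) hsub
        (right_mem_Icc.mpr (hmono t₀ ht₀))
    obtain ⟨ε, hε, hball⟩ := Metric.isOpen_iff.mp hIo q.1 hqI
    have : q.1 + ε / 2 ∈ I := hball (by
      rw [Metric.mem_ball, Real.dist_eq]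
      rw [show q.1 + ε / 2 - q.1 = ε / 2 by ring, abs_of_pos (by positivity)]
      linarith)
    have := hmono _ this
    linarith
  · rintro ⟨q, hq, hlim⟩
    have h1 : Tendsto (fun s : I => (s : ℝ)) atBot (𝓝 q.1) := (continuous_fst.tendsto q).comp hlim
    have hmono : ∀ s ∈ I, q.1 ≤ s := fun s hs =>
      Monotone.le_of_tendsto (Subtype.mono_coe _) h1 ⟨s, hs⟩
    have hLq : L q.1 = q :=
      tendsto_nhds_unique ((hLcont.tendsto q.1).comp h1) hlim
    have hqS : q.1 ∈ S := by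
      show L q.1 ∈ Ω
      rw [hLq]; exact hq
    have hsub : Icc q.1 t₀ ⊆ S := by
      intro s hs
      rcases eq_or_lt_of_le hs.1 with h | h
      · rw [← h]; exact hqS
      · obtain ⟨u, hu⟩ := (h1.eventually (gt_mem_nhds h)).exists
        exact hIS (hord.out u.2 ht₀ ⟨hu.le, hs.2⟩)
    have hqI : q.1 ∈ I :=
      isPreconnected_Icc.subset_connectedComponentIn (right_mem_Icc.mpr (hmono t₀ ht₀)) hsub
        (left_mem_Icc.mpr (hmono t₀ ht₀))
    obtain ⟨ε, hε, hball⟩ := Metric.isOpen_iff.mp hIo q.1 hqI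
    have : q.1 - ε / 2 ∈ I := hball (by
      rw [Metric.mem_ball, Real.dist_eq]
      rw [show q.1 - ε / 2 - q.1 = -(ε / 2) by ring, abs_neg, abs_of_pos (by positivity)]
      linarith)
    have := hmono _ this
    linarith

/-- in a globally hyperbolic development, a causal line through a point reaches `{t = 0}` -/
lemma line_zero {φ₀ φ₁ : ℝ → ℝ} {Ω : Set (ℝ × ℝ)} {Φ : ℝ × ℝ → ℝ} (h : IsGHD φ₀ φ₁ Ω Φ)
    {t₀ x₀ m : ℝ} (hp : (t₀, x₀) ∈ Ω)
    (hc : ∀ s ∈ connectedComponentIn {s : ℝ | (s, x₀ + m * (s - t₀)) ∈ Ω} t₀,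
      gQ (Psi Φ (s, x₀ + m * (s - t₀))) (1, m) ≤ 0) :
    uIcc 0 t₀ ⊆ connectedComponentIn {s : ℝ | (s, x₀ + m * (s - t₀)) ∈ Ω} t₀ := by
  have hin := line_inext h.isOpen hp hc
  obtain ⟨s, ⟨hs, hs0⟩, -⟩ := h.cauchy _ _ hin
  simp only at hs0
  subst hs0
  have ht₀ : t₀ ∈ connectedComponentIn {s : ℝ | (s, x₀ + m * (s - t₀)) ∈ Ω} t₀ := by
    apply mem_connectedComponentIn
    simpa using hp
  exact hin.ordConnected.uIcc_subset hs ht₀

/-- the left going null lines reach `{t = 0}` -/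
lemma vert_mem {φ₀ φ₁ : ℝ → ℝ} {Ω : Set (ℝ × ℝ)} {Φ : ℝ × ℝ → ℝ} (h : IsGHD φ₀ φ₁ Ω Φ)
    {p : ℝ × ℝ} (hp : p ∈ Ω) {s : ℝ} (hs : s ∈ uIcc 0 p.1) :
    (s, p.2 + 2 * p.1 - 2 * s) ∈ Ω := by
  obtain ⟨t₀, x₀⟩ := p
  have hsub := line_zero h (m := -2) hp (by
    intro s hs
    have hsΩ := connectedComponentIn_subset _ _ hs
    rw [gQ_nonpos_iff (h.ne_neg_four _ hsΩ)]
    simp)
  have := connectedComponentIn_subset _ _ (hsub hs)
  have e : (s, x₀ + 2 * t₀ - 2 * s) = (s, x₀ + -2 * (s - t₀)) := by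
    ext <;> simp <;> ring
  show (s, x₀ + 2 * t₀ - 2 * s) ∈ Ω
  rw [e]
  exact this

/-- the first order equation -/
lemma transport {φ₀ φ₁ : ℝ → ℝ} {Ω : Set (ℝ × ℝ)} {Φ : ℝ × ℝ → ℝ} (h : IsGHD φ₀ φ₁ Ω Φ)
    {p : ℝ × ℝ} (hp : p ∈ Ω) : pt (Psi Φ) p + (2 + Psi Φ p) * px (Psi Φ) p = 0 := by
  have h1 := h.solves p hp
  rw [sub_formula h.isOpen h.smooth hp] at h1
  linarith

/-- `Ψ` is constant along the characteristic line -/
lemma char_const {φ₀ φ₁ : ℝ → ℝ} {Ω : Set (ℝ × ℝ)} {Φ : ℝ × ℝ → ℝ} (h : IsGHD φ₀ φ₁ Ω Φ)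
    {t₀ x₀ : ℝ} (hp : (t₀, x₀) ∈ Ω) :
    ∀ s ∈ connectedComponentIn {s : ℝ | (s, x₀ + (2 + Psi Φ (t₀, x₀)) * (s - t₀)) ∈ Ω} t₀,
      Psi Φ (s, x₀ + (2 + Psi Φ (t₀, x₀)) * (s - t₀)) = Psi Φ (t₀, x₀) := by
  set w := Psi Φ (t₀, x₀) with hw
  set m := 2 + w with hm
  set S : Set ℝ := {s : ℝ | (s, x₀ + m * (s - t₀)) ∈ Ω} with hS
  set I : Set ℝ := connectedComponentIn S t₀ with hI
  have ht₀S : t₀ ∈ S := by
    show (t₀, x₀ + m * (t₀ - t₀)) ∈ Ω
    simpa using hp
  have ht₀ : t₀ ∈ I := mem_connectedComponentIn ht₀S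
  have hord : I.OrdConnected := isPreconnected_connectedComponentIn.ordConnected
  have hIS : I ⊆ S := connectedComponentIn_subset S t₀
  have hPs := contDiffOn_Psi h.isOpen h.smooth
  have hder : ∀ s ∈ I, HasDerivAt (fun r => Psi Φ (r, x₀ + m * (r - t₀)) - w)
      (-(Psi Φ (s, x₀ + m * (s - t₀)) - w) * px (Psi Φ) (s, x₀ + m * (s - t₀))) s := by
    intro s hs
    have hsΩ : (s, x₀ + m * (s - t₀)) ∈ Ω := hIS hs
    have h1 : HasDerivAt (fun s : ℝ => s) 1 s := hasDerivAt_id s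
    have h2 : HasDerivAt (fun s : ℝ => x₀ + m * (s - t₀)) m s := by
      simpa using (((hasDerivAt_id s).sub_const t₀).const_mul m).const_add x₀
    have h3 := (hasDerivAt_comp (differentiableAt_of h.isOpen hPs hsΩ) h1 h2).sub_const w
    refine h3.congr_deriv ?_
    have ht := transport h hsΩ
    have : pt (Psi Φ) (s, x₀ + m * (s - t₀))
      = -(2 + Psi Φ (s, x₀ + m * (s - t₀))) * px (Psi Φ) (s, x₀ + m * (s - t₀)) := by linarith
    rw [this, hm]
    ring
  have hpxc : ContinuousOn (fun s : ℝ => px (Psi Φ) (s, x₀ + m * (s - t₀))) I := by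
    have h1 : ContinuousOn (px (Psi Φ)) Ω := (contDiffOn_px h.isOpen hPs).continuousOn
    refine h1.comp (Continuous.continuousOn ?_) (fun s hs => hIS hs)
    exact continuous_id.prodMk (continuous_const.add (continuous_const.mul
      (continuous_id.sub continuous_const)))
  intro s hs
  have hsub : uIcc t₀ s ⊆ I := hord.uIcc_subset ht₀ hs
  obtain ⟨K, hK⟩ := (isCompact_uIcc (a := t₀) (b := s)).exists_bound_of_continuousOn
    (hpxc.mono hsub)
  have hgoal : Psi Φ (s, x₀ + m * (s - t₀)) - w = 0 := by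
    rcases le_total t₀ s with hle | hle
    · have hIcc : Icc t₀ s ⊆ I := by rw [← uIcc_of_le hle]; exact hsub
      refine eq_zero_of_abs_deriv_le_mul_abs_self_of_eq_zero_right (K := K) (a := t₀) (b := s)
        (f := fun r => Psi Φ (r, x₀ + m * (r - t₀)) - w)
        (f' := fun r => -(Psi Φ (r, x₀ + m * (r - t₀)) - w) * px (Psi Φ) (r, x₀ + m * (r - t₀)))
        ?_ ?_ ?_ ?_ s (right_mem_Icc.mpr hle)
      · intro r hr
        exact (hder r (hIcc hr)).continuousAt.continuousWithinAt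
      · intro r hr
        exact (hder r (hIcc (Ico_subset_Icc_self hr))).hasDerivWithinAt
      · simp [hw]
      · intro r hr
        rw [norm_mul, norm_neg, mul_comm]
        exact mul_le_mul_of_nonneg_right (hK r (by
          rw [uIcc_of_le hle]; exact Ico_subset_Icc_self hr)) (norm_nonneg _)
    · have hIcc : Icc s t₀ ⊆ I := by rw [← uIcc_of_ge hle]; exact hsub
      have hmap : ∀ r ∈ Icc (-t₀) (-s), -r ∈ Icc s t₀ := fun r hr =>
        ⟨by linarith [hr.2], by linarith [hr.1]⟩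
      have hz := eq_zero_of_abs_deriv_le_mul_abs_self_of_eq_zero_right (K := K)
        (a := -t₀) (b := -s)
        (f := fun r => Psi Φ (-r, x₀ + m * (-r - t₀)) - w)
        (f' := fun r => (-(Psi Φ (-r, x₀ + m * (-r - t₀)) - w)
          * px (Psi Φ) (-r, x₀ + m * (-r - t₀))) * (-1))
        ?_ ?_ ?_ ?_ (-s) (right_mem_Icc.mpr (by linarith))
      · simpa using hz
      · intro r hr
        have := (hder (-r) (hIcc (hmap r hr))).comp r (hasDerivAt_neg r)
        exact this.continuousAt.continuousWithinAt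
      · intro r hr
        exact ((hder (-r) (hIcc (hmap r (Ico_subset_Icc_self hr)))).comp r
          (hasDerivAt_neg r)).hasDerivWithinAt
      · simp [hw]
      · intro r hr
        rw [norm_mul, norm_mul, norm_neg, norm_neg, norm_one, mul_one, mul_comm]
        exact mul_le_mul_of_nonneg_right (hK (-r) (by
          rw [uIcc_of_ge hle]; exact hmap r (Ico_subset_Icc_self hr))) (norm_nonneg _)
  linarith

/-- the foot point on `{t = 0}` of the characteristic line through a point -/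
def foot (Φ : ℝ × ℝ → ℝ) (p : ℝ × ℝ) : ℝ := p.2 - (2 + Psi Φ p) * p.1

lemma foot_spec {φ₀ φ₁ : ℝ → ℝ} {Ω : Set (ℝ × ℝ)} {Φ : ℝ × ℝ → ℝ} (h : IsGHD φ₀ φ₁ Ω Φ)
    {p : ℝ × ℝ} (hp : p ∈ Ω) : Psi Φ (0, foot Φ p) = Psi Φ p := by
  obtain ⟨t₀, x₀⟩ := p
  have hconst := char_const h hp
  have hsub := line_zero h (m := 2 + Psi Φ (t₀, x₀)) hp (by
    intro s hs
    have hsΩ := connectedComponentIn_subset _ _ hs
    rw [gQ_nonpos_iff (h.ne_neg_four _ hsΩ), hconst s hs]
    simp)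
  have h0 := hconst 0 (hsub left_mem_uIcc)
  have e : ((0 : ℝ), foot Φ (t₀, x₀)) = (0, x₀ + (2 + Psi Φ (t₀, x₀)) * (0 - t₀)) := by
    ext
    · rfl
    · simp [foot]; ring
  rw [e]
  exact h0

lemma data_Psi {φ₀ φ₁ : ℝ → ℝ} {Ω : Set (ℝ × ℝ)} {Φ : ℝ × ℝ → ℝ} (h : IsGHD φ₀ φ₁ Ω Φ)
    (x : ℝ) : Psi Φ (0, x) = φ₁ x - 2 * deriv φ₀ x := by
  have h1 := hasDerivAt_comp (a := fun _ : ℝ => (0 : ℝ)) (b := fun r : ℝ => r) (s := x)
    (differentiableAt_of h.isOpen h.smooth (h.zero_mem x)) (hasDerivAt_const x 0)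
    (hasDerivAt_id x)
  have h2 : (fun r : ℝ => Φ (0, r)) = φ₀ := funext h.data₀
  have h3 : deriv φ₀ x = px Φ (0, x) := by
    rw [← h2]
    have := h1.deriv
    simpa using this
  rw [Psi, h.data₁, h3]

end

end Pool.Agent.V1187.Mghd
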