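import Pool.Agent.V1187.Mghd2

/-!
# The domain of the maximal development, and its maximality
-/

namespace Pool.Agent.V1187.Mghd

open Set Filter Topology

noncomputable section

/-- the initial values of `Ψ + 4` -/
def V0 (φ₀ φ₁ : ℝ → ℝ) (x : ℝ) : ℝ := φ₁ x - 2 * deriv φ₀ x + 4

/-- the non-degeneracy function -/
def EE (V : ℝ → ℝ) (c y : ℝ) : ℝ := 1 + (c - y) * (deriv V y / V y)

/-- the domain in the null coordinates `(c, y)` -/
def GG (V : ℝ → ℝ) : Set (ℝ × ℝ) := {z | ∀ y ∈ uIcc z.2 z.1, 0 < EE V z.1 y}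

/-- the map from the null coordinates to `(t, x)` -/
def Th (V : ℝ → ℝ) (z : ℝ × ℝ) : ℝ × ℝ :=
  ((z.1 - z.2) / V z.2, z.1 - 2 * ((z.1 - z.2) / V z.2))

lemma V0_ne {φ₀ φ₁ : ℝ → ℝ} {Ω : Set (ℝ × ℝ)} {Φ : ℝ × ℝ → ℝ} (h : IsGHD φ₀ φ₁ Ω Φ)
    (x : ℝ) : V0 φ₀ φ₁ x ≠ 0 := by
  have h1 := h.ne_neg_four _ (h.zero_mem x)
  rw [data_Psi h] at h1
  intro h2
  apply h1
  rw [V0] at h2
  linarith

lemma V0_foot {φ₀ φ₁ : ℝ → ℝ} {Ω : Set (ℝ × ℝ)} {Φ : ℝ × ℝ → ℝ} (h : IsGHD φ₀ φ₁ Ω Φ)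
    {p : ℝ × ℝ} (hp : p ∈ Ω) : V0 φ₀ φ₁ (foot Φ p) = Psi Φ p + 4 := by
  rw [← foot_spec h hp, data_Psi h, V0]

lemma foot_identity {φ₀ φ₁ : ℝ → ℝ} {Ω : Set (ℝ × ℝ)} {Φ : ℝ × ℝ → ℝ} (h : IsGHD φ₀ φ₁ Ω Φ)
    {p : ℝ × ℝ} (hp : p ∈ Ω) :
    foot Φ p + V0 φ₀ φ₁ (foot Φ p) * p.1 = p.2 + 2 * p.1 := by
  rw [V0_foot h hp, foot]
  ring

lemma contDiff_V0 {φ₀ φ₁ : ℝ → ℝ} (h₀ : ContDiff ℝ (⊤ : ℕ∞) φ₀) (h₁ : ContDiff ℝ (⊤ : ℕ∞) φ₁) :
    ContDiff ℝ (⊤ : ℕ∞) (V0 φ₀ φ₁) := by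
  have hd : ContDiff ℝ (⊤ : ℕ∞) (deriv φ₀) := (contDiff_infty_iff_deriv.mp h₀).2
  exact (h₁.sub (contDiff_const.mul hd)).add contDiff_const

lemma contDiffOn_foot {Ω : Set (ℝ × ℝ)} (hΩ : IsOpen Ω) {F : ℝ × ℝ → ℝ}
    (hF : ContDiffOn ℝ (⊤ : ℕ∞) F Ω) : ContDiffOn ℝ (⊤ : ℕ∞) (foot F) Ω := by
  have h1 := contDiffOn_Psi hΩ hF
  exact contDiff_snd.contDiffOn.sub ((contDiffOn_const.add h1).mul contDiff_fst.contDiffOn)

/-- the null coordinates of a point of a globally hyperbolic development lie in the domain -/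
lemma foot_mem {φ₀ φ₁ : ℝ → ℝ} (h₀ : ContDiff ℝ (⊤ : ℕ∞) φ₀) (h₁ : ContDiff ℝ (⊤ : ℕ∞) φ₁)
    {Ω : Set (ℝ × ℝ)} {Φ : ℝ × ℝ → ℝ} (h : IsGHD φ₀ φ₁ Ω Φ) {p : ℝ × ℝ} (hp : p ∈ Ω) :
    (p.2 + 2 * p.1, foot Φ p) ∈ GG (V0 φ₀ φ₁) := by
  set V := V0 φ₀ φ₁ with hVdef
  have hV : ContDiff ℝ (⊤ : ℕ∞) V := contDiff_V0 h₀ h₁
  have hVd : ∀ y, HasDerivAt V (deriv V y) y := fun y =>
    (hV.differentiable (by simp)).differentiableAt.hasDerivAt
  have hVc : Continuous (deriv V) := (contDiff_infty_iff_deriv.mp hV).2.continuous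
  obtain ⟨t₀, x₀⟩ := p
  set c := x₀ + 2 * t₀ with hc
  set η : ℝ → ℝ := fun s => foot Φ (s, c - 2 * s) with hη
  have hmem : ∀ s ∈ uIcc 0 t₀, (s, c - 2 * s) ∈ Ω := fun s hs => vert_mem h hp hs
  have hcurve : Continuous (fun s : ℝ => (s, c - 2 * s)) :=
    continuous_id.prodMk (continuous_const.sub (continuous_const.mul continuous_id))
  have hηd : ∀ s ∈ uIcc 0 t₀, DifferentiableAt ℝ η s := by
    intro s hs
    have h1 : HasDerivAt (fun s : ℝ => s) 1 s := hasDerivAt_id s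
    have h2 : HasDerivAt (fun s : ℝ => c - 2 * s) (-2) s := by
      simpa using ((hasDerivAt_id s).const_mul (2 : ℝ)).const_sub c
    exact (hasDerivAt_comp (differentiableAt_of h.isOpen (contDiffOn_foot h.isOpen h.smooth)
      (hmem s hs)) h1 h2).differentiableAt
  have hηc : ContinuousOn η (uIcc 0 t₀) := fun s hs => (hηd s hs).continuousAt.continuousWithinAt
  have hident : ∀ s, (s, c - 2 * s) ∈ Ω → η s + V (η s) * s = c := by
    intro s hs
    have := foot_identity h hs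
    simp only [hη]
    rw [this]
    ring
  have hkey : ∀ s ∈ uIcc 0 t₀, deriv η s * (1 + s * deriv V (η s)) = -V (η s) := by
    intro s hs
    have hev : (fun r => η r + V (η r) * r) =ᶠ[𝓝 s] fun _ => c := by
      filter_upwards [hcurve.continuousAt.preimage_mem_nhds (h.isOpen.mem_nhds (hmem s hs))]
        with r hr
      exact hident r hr
    have hd1 : HasDerivAt (fun r => η r + V (η r) * r)
        (deriv η s + (deriv V (η s) * deriv η s * s + V (η s) * 1)) s := by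
      have e1 := (hηd s hs).hasDerivAt
      have e2 := (hVd (η s)).comp s e1
      exact e1.add (e2.mul (hasDerivAt_id s))
    have hd2 : HasDerivAt (fun r => η r + V (η r) * r) 0 s :=
      (hasDerivAt_const s c).congr_of_eventuallyEq hev
    have := hd1.unique hd2
    linarith
  have hne : ∀ s ∈ uIcc 0 t₀, 1 + s * deriv V (η s) ≠ 0 := by
    intro s hs h0
    have := hkey s hs
    rw [h0, mul_zero] at this
    have hv : V (η s) ≠ 0 := V0_ne h _
    apply hv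
    linarith
  have hcont : ContinuousOn (fun s => 1 + s * deriv V (η s)) (uIcc 0 t₀) :=
    continuousOn_const.add (continuousOn_id.mul (hVc.comp_continuousOn hηc))
  have hpos : ∀ s ∈ uIcc 0 t₀, 0 < 1 + s * deriv V (η s) := by
    intro s hs
    by_contra hneg
    push Not at hneg
    have hsub : uIcc 0 s ⊆ uIcc 0 t₀ := uIcc_subset_uIcc left_mem_uIcc hs
    have hivt := intermediate_value_uIcc (hcont.mono hsub)
    have h0mem : (0 : ℝ) ∈ uIcc (1 + 0 * deriv V (η 0)) (1 + s * deriv V (η s)) := by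
      rw [zero_mul, add_zero]
      rw [mem_uIcc]
      right
      exact ⟨hneg, zero_le_one⟩
    obtain ⟨r, hr, hr0⟩ := hivt h0mem
    exact hne r (hsub hr) hr0
  have hη0 : η 0 = c := by
    have := hident 0 (hmem 0 left_mem_uIcc)
    simpa using this
  have hηt : η t₀ = foot Φ (t₀, x₀) := by
    simp only [hη, hc]
    congr 2
    ring
  intro y hy
  have hy' : y ∈ uIcc (η 0) (η t₀) := by
    rw [hη0, hηt, uIcc_comm]
    exact hy
  obtain ⟨s, hs, hsy⟩ := intermediate_value_uIcc hηc hy'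
  show 0 < EE V c y
  have hVy : V y ≠ 0 := V0_ne h _
  have hcy : c - y = V y * s := by
    have := hident s (hmem s hs)
    rw [hsy] at this
    linarith
  rw [EE, hcy]
  have : V y * s * (deriv V y / V y) = s * deriv V y := by
    field_simp
  rw [this, ← hsy]
  exact hpos s hs

lemma Th_foot {φ₀ φ₁ : ℝ → ℝ} {Ω : Set (ℝ × ℝ)} {Φ : ℝ × ℝ → ℝ} (h : IsGHD φ₀ φ₁ Ω Φ)
    {p : ℝ × ℝ} (hp : p ∈ Ω) : Th (V0 φ₀ φ₁) (p.2 + 2 * p.1, foot Φ p) = p := by
  have h1 := foot_identity h hp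
  have hV : V0 φ₀ φ₁ (foot Φ p) ≠ 0 := V0_ne h _
  have h2 : (p.2 + 2 * p.1 - foot Φ p) / V0 φ₀ φ₁ (foot Φ p) = p.1 := by
    rw [div_eq_iff hV, ← h1]
    ring
  ext
  · simp only [Th]
    exact h2
  · simp only [Th]
    rw [h2]
    ring

/-! ## The inverse of the coordinate map -/

section
variable {V : ℝ → ℝ} (hV : ContDiff ℝ (⊤ : ℕ∞) V) (hV0 : ∀ x, V x ≠ 0)
include hV hV0

lemma contDiff_f : ContDiff ℝ (⊤ : ℕ∞) (fun z : ℝ × ℝ => (z.1 - z.2) / V z.2) :=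
  (contDiff_fst.sub contDiff_snd).div (hV.comp contDiff_snd) (fun z => hV0 _)

lemma contDiff_Th : ContDiff ℝ (⊤ : ℕ∞) (Th V) := by
  have := contDiff_f hV hV0
  exact this.prodMk (contDiff_fst.sub (contDiff_const.mul this))

lemma hasDerivAt_f (c y : ℝ) :
    HasDerivAt (fun r => (c - r) / V r) (-(EE V c y / V y)) y := by
  have hVd : HasDerivAt V (deriv V y) y :=
    (hV.differentiable (by simp)).differentiableAt.hasDerivAt
  have h1 := ((hasDerivAt_id y).const_sub c).div hVd (hV0 y)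
  refine h1.congr_deriv ?_
  have := hV0 y
  simp only [id, EE]
  field_simp
  ring

lemma continuous_EE : Continuous (fun z : ℝ × ℝ => EE V z.1 z.2) := by
  have hVc : Continuous (deriv V) := (contDiff_infty_iff_deriv.mp hV).2.continuous
  exact continuous_const.add ((continuous_fst.sub continuous_snd).mul
    ((hVc.comp continuous_snd).div (hV.continuous.comp continuous_snd) (fun z => hV0 _)))

lemma isOpen_GG : IsOpen (GG V) := by
  rw [isOpen_iff_mem_nhds]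
  intro z hz
  have hE := continuous_EE hV hV0
  have hK : IsCompact (Icc (0 : ℝ) 1) := isCompact_Icc
  have hev : ∀ᶠ w in 𝓝 z, ∀ θ ∈ Icc (0 : ℝ) 1, 0 < EE V w.1 (w.2 + θ * (w.1 - w.2)) := by
    refine hK.eventually_forall_of_forall_eventually
      (P := fun (w : ℝ × ℝ) (θ : ℝ) => 0 < EE V w.1 (w.2 + θ * (w.1 - w.2))) ?_
    intro θ hθ
    have hcont : Continuous (fun u : (ℝ × ℝ) × ℝ => EE V u.1.1 (u.1.2 + u.2 * (u.1.1 - u.1.2))) :=
      hE.comp ((continuous_fst.comp continuous_fst).prodMk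
        ((continuous_snd.comp continuous_fst).add (continuous_snd.mul
          ((continuous_fst.comp continuous_fst).sub (continuous_snd.comp continuous_fst)))))
    refine hcont.continuousAt.eventually (lt_mem_nhds ?_)
    apply hz
    rw [mem_uIcc]
    rcases le_total z.1 z.2 with hle | hle
    · right
      constructor <;> nlinarith [hθ.1, hθ.2]
    · left
      constructor <;> nlinarith [hθ.1, hθ.2]
  filter_upwards [hev] with w hw
  intro y hy
  by_cases hne : w.1 = w.2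
  · have : y = w.2 := by
      rw [hne, uIcc_self] at hy
      exact hy
    have h1 := hw 0 ⟨le_rfl, zero_le_one⟩
    rw [this]
    simpa using h1
  · have hne' : w.1 - w.2 ≠ 0 := sub_ne_zero.mpr hne
    have h1 := hw ((y - w.2) / (w.1 - w.2)) (by
      rcases lt_or_gt_of_ne hne with hlt | hlt
      · rw [uIcc_of_ge hlt.le] at hy
        constructor
        · exact div_nonneg_of_nonpos (by linarith [hy.2]) (by linarith)
        · rw [div_le_one_of_neg (by linarith)]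
          linarith [hy.1]
      · rw [uIcc_of_le hlt.le] at hy
        constructor
        · exact div_nonneg (by linarith [hy.1]) (by linarith)
        · rw [div_le_one (by linarith)]
          linarith [hy.2])
    have h2 : w.2 + (y - w.2) / (w.1 - w.2) * (w.1 - w.2) = y := by
      field_simp
      ring
    rw [h2] at h1
    exact h1

lemma injOn_Th : InjOn (Th V) (GG V) := by
  rintro ⟨c₁, y₁⟩ h₁ ⟨c₂, y₂⟩ h₂ heq
  have e1 : (c₁ - y₁) / V y₁ = (c₂ - y₂) / V y₂ := congrArg Prod.fst heq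
  have e2 : c₁ - 2 * ((c₁ - y₁) / V y₁) = c₂ - 2 * ((c₂ - y₂) / V y₂) := congrArg Prod.snd heq
  have hc : c₁ = c₂ := by rw [e1] at e2; linarith
  subst hc
  have key : ∀ a b : ℝ, a < b → (c₁, a) ∈ GG V → (c₁, b) ∈ GG V →
      (c₁ - a) / V a = (c₁ - b) / V b → False := by
    intro a b hlt ha hb e
    have hcontf : ContinuousOn (fun r => (c₁ - r) / V r) (Icc a b) := fun r _ =>
      (hasDerivAt_f hV hV0 c₁ r).continuousAt.continuousWithinAt
    obtain ⟨r, hr, hr0⟩ := exists_hasDerivAt_eq_zero (f' := fun r => -(EE V c₁ r / V r)) hlt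
      hcontf e (fun r _ => hasDerivAt_f hV hV0 c₁ r)
    have hE : 0 < EE V c₁ r := by
      rcases le_total r c₁ with hle | hle
      · exact ha r (by show r ∈ uIcc a c₁; rw [mem_uIcc]; exact Or.inl ⟨hr.1.le, hle⟩)
      · exact hb r (by show r ∈ uIcc b c₁; rw [mem_uIcc]; exact Or.inr ⟨hle, hr.2.le⟩)
    have : EE V c₁ r / V r = 0 := by simpa using hr0
    rw [div_eq_zero_iff] at this
    rcases this with h | h
    · exact hE.ne' h
    · exact hV0 r h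
  by_contra hne
  have hne' : y₁ ≠ y₂ := fun h => hne (by rw [h])
  rcases lt_or_gt_of_ne hne' with h | h
  · exact key y₁ y₂ h h₁ h₂ e1
  · exact key y₂ y₁ h h₂ h₁ e1.symm

end

/-- the derivative of the coordinate map as an equivalence -/
lemma exists_equiv {V : ℝ → ℝ} (hV : ContDiff ℝ (⊤ : ℕ∞) V) (hV0 : ∀ x, V x ≠ 0)
    {z : ℝ × ℝ} (hz : EE V z.1 z.2 ≠ 0) :
    ∃ A : (ℝ × ℝ) ≃L[ℝ] (ℝ × ℝ), HasFDerivAt (Th V) (A : (ℝ × ℝ) →L[ℝ] (ℝ × ℝ)) z := by
  have hf := contDiff_f hV hV0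
  set f : ℝ × ℝ → ℝ := fun z : ℝ × ℝ => (z.1 - z.2) / V z.2 with hfdef
  have hfd : HasFDerivAt f (fderiv ℝ f z) z :=
    (hf.differentiable (by simp)).differentiableAt.hasFDerivAt
  have hTh : HasFDerivAt (Th V)
      ((fderiv ℝ f z).prod (ContinuousLinearMap.fst ℝ ℝ ℝ - (2 : ℝ) • fderiv ℝ f z)) z := by
    exact hfd.prodMk (hasFDerivAt_fst.sub (hfd.const_mul 2))
  have hb : fderiv ℝ f z (0, 1) ≠ 0 := by
    have h1 : HasDerivAt (fun r : ℝ => (z.1, r)) ((0 : ℝ), (1 : ℝ)) z.2 :=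
      (hasDerivAt_const z.2 z.1).prodMk (hasDerivAt_id z.2)
    have h2 : HasDerivAt (fun r : ℝ => f (z.1, r)) (fderiv ℝ f z (0, 1)) z.2 := by
      have hfd' : HasFDerivAt f (fderiv ℝ f z) (z.1, z.2) := hfd
      exact hfd'.comp_hasDerivAt z.2 h1
    have h3 := hasDerivAt_f hV hV0 z.1 z.2
    have h4 := h2.unique h3
    rw [h4]
    exact neg_ne_zero.mpr (div_ne_zero hz (hV0 _))
  set A₀ : (ℝ × ℝ) →L[ℝ] (ℝ × ℝ) :=
    (fderiv ℝ f z).prod (ContinuousLinearMap.fst ℝ ℝ ℝ - (2 : ℝ) • fderiv ℝ f z) with hA₀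
  have hinj : Function.Injective (A₀ : (ℝ × ℝ) →ₗ[ℝ] (ℝ × ℝ)) := by
    rw [injective_iff_map_eq_zero]
    rintro ⟨u, v⟩ huv
    have h1 : fderiv ℝ f z (u, v) = 0 := congrArg Prod.fst huv
    have h2 : u - 2 * fderiv ℝ f z (u, v) = 0 := congrArg Prod.snd huv
    have hu : u = 0 := by rw [h1] at h2; linarith
    subst hu
    have h3 : fderiv ℝ f z (0, v) = v * fderiv ℝ f z (0, 1) := by
      have : ((0 : ℝ), v) = v • ((0 : ℝ), (1 : ℝ)) := by simp
      rw [this, map_smul, smul_eq_mul]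
    rw [h3] at h1
    rcases mul_eq_zero.mp h1 with h | h
    · rw [h]; rfl
    · exact absurd h hb
  refine ⟨(LinearEquiv.ofInjectiveEndo (A₀ : (ℝ × ℝ) →ₗ[ℝ] (ℝ × ℝ)) hinj).toContinuousLinearEquiv,
    ?_⟩
  have : (((LinearEquiv.ofInjectiveEndo (A₀ : (ℝ × ℝ) →ₗ[ℝ] (ℝ × ℝ)) hinj).toContinuousLinearEquiv :
      (ℝ × ℝ) ≃L[ℝ] (ℝ × ℝ)) : (ℝ × ℝ) →L[ℝ] (ℝ × ℝ)) = A₀ := by
    ext <;> rfl
  rw [this]
  exact hTh

/-- the inverse of the coordinate map -/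
def inv (V : ℝ → ℝ) : ℝ × ℝ → ℝ × ℝ := Function.invFunOn (Th V) (GG V)

/-- the domain of the maximal development -/
def OM (V : ℝ → ℝ) : Set (ℝ × ℝ) := Th V '' GG V

/-- the foot point function on the maximal domain -/
def YY (V : ℝ → ℝ) (q : ℝ × ℝ) : ℝ := (inv V q).2

section
variable {V : ℝ → ℝ} (hV : ContDiff ℝ (⊤ : ℕ∞) V) (hV0 : ∀ x, V x ≠ 0)
include hV hV0

lemma inv_Th {z : ℝ × ℝ} (hz : z ∈ GG V) : inv V (Th V z) = z :=
  (injOn_Th hV hV0).leftInvOn_invFunOn hz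

/-- local inverses -/
lemma local_inverse {z : ℝ × ℝ} (hz : z ∈ GG V) :
    ∃ g : ℝ × ℝ → ℝ × ℝ, ContDiffAt ℝ (⊤ : ℕ∞) g (Th V z) ∧
      ∀ᶠ q in 𝓝 (Th V z), g q ∈ GG V ∧ Th V (g q) = q := by
  have hE : EE V z.1 z.2 ≠ 0 := (hz z.2 left_mem_uIcc).ne'
  obtain ⟨A, hA⟩ := exists_equiv hV hV0 hE
  have hcd : ContDiffAt ℝ (⊤ : ℕ∞) (Th V) z := (contDiff_Th hV hV0).contDiffAt
  have hstrict : HasStrictFDerivAt (Th V) (A : (ℝ × ℝ) →L[ℝ] (ℝ × ℝ)) z :=
    hcd.hasStrictFDerivAt' hA (by simp)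
  refine ⟨hcd.localInverse hA (by simp), hcd.to_localInverse hA (by simp), ?_⟩
  have hcont : ContinuousAt (hcd.localInverse hA (by simp)) (Th V z) :=
    (hcd.to_localInverse hA (by simp)).continuousAt
  have happ : hcd.localInverse hA (by simp) (Th V z) = z := hcd.localInverse_apply_image hA (by simp)
  have hev1 : ∀ᶠ q in 𝓝 (Th V z), hcd.localInverse hA (by simp) q ∈ GG V := by
    apply hcont.preimage_mem_nhds
    rw [happ]
    exact (isOpen_GG hV hV0).mem_nhds hz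
  have hev2 : ∀ᶠ q in 𝓝 (Th V z), Th V (hcd.localInverse hA (by simp) q) = q :=
    hstrict.eventually_right_inverse
  filter_upwards [hev1, hev2] with q h1 h2 using ⟨h1, h2⟩

lemma isOpen_OM : IsOpen (OM V) := by
  rw [isOpen_iff_mem_nhds]
  rintro q ⟨z, hz, rfl⟩
  obtain ⟨g, -, hg⟩ := local_inverse hV hV0 hz
  filter_upwards [hg] with q hq
  exact ⟨g q, hq.1, hq.2⟩

lemma contDiffOn_inv : ContDiffOn ℝ (⊤ : ℕ∞) (inv V) (OM V) := by
  rintro q ⟨z, hz, rfl⟩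
  obtain ⟨g, hgc, hg⟩ := local_inverse hV hV0 hz
  have heq : inv V =ᶠ[𝓝 (Th V z)] g := by
    filter_upwards [hg] with q hq
    have := inv_Th hV hV0 hq.1
    rw [hq.2] at this
    exact this
  exact (hgc.congr_of_eventuallyEq heq).contDiffWithinAt

lemma contDiffOn_YY : ContDiffOn ℝ (⊤ : ℕ∞) (YY V) (OM V) :=
  contDiff_snd.comp_contDiffOn (contDiffOn_inv hV hV0)

lemma YY_Th {z : ℝ × ℝ} (hz : z ∈ GG V) : YY V (Th V z) = z.2 := by
  rw [YY, inv_Th hV hV0 hz]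

lemma YY_spec {q : ℝ × ℝ} (hq : q ∈ OM V) :
    (q.2 + 2 * q.1, YY V q) ∈ GG V ∧ YY V q + V (YY V q) * q.1 = q.2 + 2 * q.1 ∧
      Th V (q.2 + 2 * q.1, YY V q) = q := by
  obtain ⟨z, hz, rfl⟩ := hq
  rw [YY_Th hV hV0 hz]
  have e : (Th V z).2 + 2 * (Th V z).1 = z.1 := by simp only [Th]; ring
  rw [e]
  refine ⟨hz, ?_, rfl⟩
  simp only [Th]
  have := hV0 z.2
  field_simp
  ring

lemma zero_mem_OM (x : ℝ) : ((0 : ℝ), x) ∈ OM V ∧ YY V (0, x) = x := by
  have hG : (x, x) ∈ GG V := by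
    intro y hy
    have : y = x := by
      rw [uIcc_self] at hy
      exact hy
    rw [this]
    simp [EE]
  have hT : Th V (x, x) = (0, x) := by
    simp [Th]
  constructor
  · exact ⟨(x, x), hG, hT⟩
  · rw [← hT, YY_Th hV hV0 hG]

/-- positivity of the Jacobian -/
lemma jac_pos {q : ℝ × ℝ} (hq : q ∈ OM V) : 0 < 1 + q.1 * deriv V (YY V q) := by
  obtain ⟨h1, h2, -⟩ := YY_spec hV hV0 hq
  have h3 := h1 (YY V q) left_mem_uIcc
  simp only [EE] at h3
  have h4 : q.2 + 2 * q.1 - YY V q = V (YY V q) * q.1 := by linarith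
  rw [h4] at h3
  have h5 : V (YY V q) * q.1 * (deriv V (YY V q) / V (YY V q)) = q.1 * deriv V (YY V q) := by
    have := hV0 (YY V q)
    field_simp
  rw [h5] at h3
  exact h3

end

end

end Pool.Agent.V1187.Mghd
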