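import Pool.Agent.V1187.Mghd3

/-!
# The maximal development: construction of the solution and global hyperbolicity
-/

namespace Pool.Agent.V1187.Mghd

open Set Filter Topology

noncomputable section

section
variable {V : ℝ → ℝ} (hV : ContDiff ℝ (⊤ : ℕ∞) V) (hV0 : ∀ x, V x ≠ 0)
include hV hV0

/-- the foot point function along a curve -/
lemma YY_curve {a b : ℝ → ℝ} {a' b' s : ℝ} (hmem : ∀ᶠ r in 𝓝 s, (a r, b r) ∈ OM V)
    (ha : HasDerivAt a a' s) (hb : HasDerivAt b b' s) :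
    HasDerivAt (fun r => YY V (a r, b r))
      (pt (YY V) (a s, b s) * a' + px (YY V) (a s, b s) * b') s ∧
    (pt (YY V) (a s, b s) * a' + px (YY V) (a s, b s) * b')
      * (1 + a s * deriv V (YY V (a s, b s))) + V (YY V (a s, b s)) * a' = b' + 2 * a' := by
  have hVd : ∀ y, HasDerivAt V (deriv V y) y := fun y =>
    (hV.differentiable (by simp)).differentiableAt.hasDerivAt
  have hs : (a s, b s) ∈ OM V := hmem.self_of_nhds
  have h1 := hasDerivAt_comp (differentiableAt_of (isOpen_OM hV hV0) (contDiffOn_YY hV hV0) hs)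
    ha hb
  refine ⟨h1, ?_⟩
  set y' := pt (YY V) (a s, b s) * a' + px (YY V) (a s, b s) * b' with hy'
  have h2 : HasDerivAt (fun r => YY V (a r, b r) + V (YY V (a r, b r)) * a r)
      (y' + (deriv V (YY V (a s, b s)) * y' * a s + V (YY V (a s, b s)) * a')) s := by
    have e2 := (hVd (YY V (a s, b s))).comp s h1
    exact h1.add (e2.mul ha)
  have h3 : HasDerivAt (fun r => b r + 2 * a r) (b' + 2 * a') s := hb.add (ha.const_mul 2)
  have h4 : (fun r => YY V (a r, b r) + V (YY V (a r, b r)) * a r) =ᶠ[𝓝 s]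
      fun r => b r + 2 * a r := by
    filter_upwards [hmem] with r hr
    exact (YY_spec hV hV0 hr).2.1
  have h5 := h2.unique (h3.congr_of_eventuallyEq h4)
  linarith

lemma pt_YY {q : ℝ × ℝ} (hq : q ∈ OM V) :
    pt (YY V) q * (1 + q.1 * deriv V (YY V q)) = 2 - V (YY V q) := by
  obtain ⟨t, x⟩ := q
  have hc : Continuous (fun r : ℝ => (r, x)) := continuous_id.prodMk continuous_const
  have h := (YY_curve hV hV0 (a := fun r => r) (b := fun _ => x) (a' := 1) (b' := 0) (s := t)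
    (hc.continuousAt.preimage_mem_nhds ((isOpen_OM hV hV0).mem_nhds hq))
    (hasDerivAt_id t) (hasDerivAt_const t x)).2
  simp only [mul_one, mul_zero, add_zero] at h
  show pt (YY V) (t, x) * (1 + t * deriv V (YY V (t, x))) = 2 - V (YY V (t, x))
  linarith

lemma px_YY {q : ℝ × ℝ} (hq : q ∈ OM V) :
    px (YY V) q * (1 + q.1 * deriv V (YY V q)) = 1 := by
  obtain ⟨t, x⟩ := q
  have hc : Continuous (fun r : ℝ => (t, r)) := continuous_const.prodMk continuous_id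
  have h := (YY_curve hV hV0 (a := fun _ => t) (b := fun r => r) (a' := 0) (b' := 1) (s := x)
    (hc.continuousAt.preimage_mem_nhds ((isOpen_OM hV hV0).mem_nhds hq))
    (hasDerivAt_const x t) (hasDerivAt_id x)).2
  simp only [mul_one, mul_zero, add_zero, zero_add] at h
  show px (YY V) (t, x) * (1 + t * deriv V (YY V (t, x))) = 1
  linarith

end

/-- first integrand -/
def kA (V : ℝ → ℝ) (r : ℝ) : ℝ := (1 - 4 / V r) * (1 - r * (deriv V r / V r))

/-- second integrand -/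
def kB (V : ℝ → ℝ) (r : ℝ) : ℝ := (1 - 4 / V r) * (deriv V r / V r)

/-- the solution in null coordinates -/
def PP (φ₀ V : ℝ → ℝ) (c y : ℝ) : ℝ :=
  φ₀ c + ((∫ r in (0 : ℝ)..c, kA V r) + c * ∫ r in (0 : ℝ)..c, kB V r)
    - ((∫ r in (0 : ℝ)..y, kA V r) + c * ∫ r in (0 : ℝ)..y, kB V r)

/-- the solution on the maximal domain -/
def PhiM (φ₀ V : ℝ → ℝ) (q : ℝ × ℝ) : ℝ := PP φ₀ V (q.2 + 2 * q.1) (YY V q)

lemma contDiff_primitive {k : ℝ → ℝ} (hk : ContDiff ℝ (⊤ : ℕ∞) k) :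
    ContDiff ℝ (⊤ : ℕ∞) (fun y => ∫ r in (0 : ℝ)..y, k r) := by
  have hd : ∀ y, HasDerivAt (fun y => ∫ r in (0 : ℝ)..y, k r) (k y) y := fun y =>
    intervalIntegral.integral_hasDerivAt_right (hk.continuous.intervalIntegrable _ _)
      hk.continuous.aestronglyMeasurable.stronglyMeasurableAtFilter hk.continuous.continuousAt
  rw [contDiff_infty_iff_deriv]
  refine ⟨fun y => (hd y).differentiableAt, ?_⟩
  have : deriv (fun y => ∫ r in (0 : ℝ)..y, k r) = k := funext fun y => (hd y).deriv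
  rw [this]
  exact hk

lemma hasDerivAt_primitive {k : ℝ → ℝ} (hk : ContDiff ℝ (⊤ : ℕ∞) k) (y : ℝ) :
    HasDerivAt (fun y => ∫ r in (0 : ℝ)..y, k r) (k y) y :=
  intervalIntegral.integral_hasDerivAt_right (hk.continuous.intervalIntegrable _ _)
    hk.continuous.aestronglyMeasurable.stronglyMeasurableAtFilter hk.continuous.continuousAt

section
variable {V : ℝ → ℝ} (hV : ContDiff ℝ (⊤ : ℕ∞) V) (hV0 : ∀ x, V x ≠ 0)
include hV hV0

lemma contDiff_kA : ContDiff ℝ (⊤ : ℕ∞) (kA V) := by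
  have hd : ContDiff ℝ (⊤ : ℕ∞) (deriv V) := (contDiff_infty_iff_deriv.mp hV).2
  exact (contDiff_const.sub (contDiff_const.div hV hV0)).mul
    (contDiff_const.sub (contDiff_id.mul (hd.div hV hV0)))

lemma contDiff_kB : ContDiff ℝ (⊤ : ℕ∞) (kB V) := by
  have hd : ContDiff ℝ (⊤ : ℕ∞) (deriv V) := (contDiff_infty_iff_deriv.mp hV).2
  exact (contDiff_const.sub (contDiff_const.div hV hV0)).mul (hd.div hV hV0)

lemma contDiffOn_PhiM {φ₀ : ℝ → ℝ} (h₀ : ContDiff ℝ (⊤ : ℕ∞) φ₀) :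
    ContDiffOn ℝ (⊤ : ℕ∞) (PhiM φ₀ V) (OM V) := by
  have hA := contDiff_primitive (contDiff_kA hV hV0)
  have hB := contDiff_primitive (contDiff_kB hV hV0)
  have hc : ContDiff ℝ (⊤ : ℕ∞) (fun q : ℝ × ℝ => q.2 + 2 * q.1) :=
    contDiff_snd.add (contDiff_const.mul contDiff_fst)
  have hY := contDiffOn_YY hV hV0
  have h1 : ContDiff ℝ (⊤ : ℕ∞) (fun q : ℝ × ℝ => φ₀ (q.2 + 2 * q.1) +
      ((∫ r in (0 : ℝ)..(q.2 + 2 * q.1), kA V r) +
        (q.2 + 2 * q.1) * ∫ r in (0 : ℝ)..(q.2 + 2 * q.1), kB V r)) :=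
    (h₀.comp hc).add ((hA.comp hc).add (hc.mul (hB.comp hc)))
  have h2 : ContDiffOn ℝ (⊤ : ℕ∞) (fun q : ℝ × ℝ =>
      ((∫ r in (0 : ℝ)..(YY V q), kA V r) +
        (q.2 + 2 * q.1) * ∫ r in (0 : ℝ)..(YY V q), kB V r)) (OM V) :=
    (hA.comp_contDiffOn hY).add (hc.contDiffOn.mul (hB.comp_contDiffOn hY))
  exact h1.contDiffOn.sub h2

/-- `Ψ = V(Y) - 4` on the maximal domain -/
lemma Psi_PhiM {φ₀ : ℝ → ℝ} (h₀ : ContDiff ℝ (⊤ : ℕ∞) φ₀) {q : ℝ × ℝ} (hq : q ∈ OM V) :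
    Psi (PhiM φ₀ V) q = V (YY V q) - 4 := by
  obtain ⟨t, x⟩ := q
  set c := x + 2 * t with hc
  have hΩ := isOpen_OM hV hV0
  have hcurve : Continuous (fun s : ℝ => (s, c - 2 * s)) :=
    continuous_id.prodMk (continuous_const.sub (continuous_const.mul continuous_id))
  have hpt : (t, c - 2 * t) = (t, x) := by rw [hc]; ext <;> simp
  have hmem : ∀ᶠ r in 𝓝 t, ((fun r : ℝ => r) r, (fun r : ℝ => c - 2 * r) r) ∈ OM V :=
    hcurve.continuousAt.preimage_mem_nhds (hΩ.mem_nhds (by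
      show (t, c - 2 * t) ∈ OM V
      rw [hpt]; exact hq))
  have h1 : HasDerivAt (fun s : ℝ => s) 1 t := hasDerivAt_id t
  have h2 : HasDerivAt (fun s : ℝ => c - 2 * s) (-2) t := by
    simpa using ((hasDerivAt_id t).const_mul (2 : ℝ)).const_sub c
  obtain ⟨hy, hyeq⟩ := YY_curve hV hV0 hmem h1 h2
  beta_reduce at hy hyeq
  rw [hpt] at hyeq
  set y' := pt (YY V) (t, x) * 1 + px (YY V) (t, x) * (-2) with hy'
  rw [hpt, ← hy'] at hy
  have hJ : 0 < 1 + t * deriv V (YY V (t, x)) := jac_pos hV hV0 hq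
  have hspec : YY V (t, x) + V (YY V (t, x)) * t = x + 2 * t := (YY_spec hV hV0 hq).2.1
  set Y := YY V (t, x) with hYdef
  have hVY := hV0 Y
  -- derivative of the solution along the vertical line, computed from the formula
  have hYt : YY V (t, c - 2 * t) = Y := by rw [hpt]
  have hA : HasDerivAt (fun r => ∫ u in (0 : ℝ)..(YY V (r, c - 2 * r)), kA V u)
      (kA V Y * y') t := by
    have := hasDerivAt_primitive (contDiff_kA hV hV0) (YY V (t, c - 2 * t))
    have h3 := HasDerivAt.comp t this hy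
    rw [hYt] at h3
    exact h3
  have hB : HasDerivAt (fun r => ∫ u in (0 : ℝ)..(YY V (r, c - 2 * r)), kB V u)
      (kB V Y * y') t := by
    have := hasDerivAt_primitive (contDiff_kB hV hV0) (YY V (t, c - 2 * t))
    have h3 := HasDerivAt.comp t this hy
    rw [hYt] at h3
    exact h3
  have hP : HasDerivAt (fun r => PP φ₀ V c (YY V (r, c - 2 * r)))
      (-(kA V Y * y' + c * (kB V Y * y'))) t := by
    have := (hA.add (hB.const_mul c)).const_sub
      (φ₀ c + ((∫ r in (0 : ℝ)..c, kA V r) + c * ∫ r in (0 : ℝ)..c, kB V r))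
    exact this
  have hfun : (fun r => PhiM φ₀ V (r, c - 2 * r)) = fun r => PP φ₀ V c (YY V (r, c - 2 * r)) := by
    funext r
    simp only [PhiM]
    congr 1
    ring
  have hq' : (t, c - 2 * t) ∈ OM V := by rw [hpt]; exact hq
  have hD := hasDerivAt_comp (a := fun s : ℝ => s) (b := fun s : ℝ => c - 2 * s) (s := t)
    (differentiableAt_of hΩ (contDiffOn_PhiM hV hV0 h₀) hq') h1 h2
  rw [hpt] at hD
  have huniq := hD.unique (by rw [hfun]; exact hP)
  have hPsi : Psi (PhiM φ₀ V) (t, x) = -(kA V Y * y' + c * (kB V Y * y')) := by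
    rw [Psi, ← huniq]
    ring
  rw [hPsi]
  have hJ' : (1 + t * deriv V Y) ≠ 0 := hJ.ne'
  have hy2 : y' = -V Y / (1 + t * deriv V Y) := by
    rw [eq_div_iff hJ']
    linarith
  have hcY : c = Y + V Y * t := by rw [hc]; linarith
  have hk : kA V Y + c * kB V Y = (1 - 4 / V Y) * (1 + t * deriv V Y) := by
    rw [kA, kB, hcY]
    field_simp
    ring
  have : -(kA V Y * y' + c * (kB V Y * y')) = -((kA V Y + c * kB V Y) * y') := by ring
  rw [this, hk, hy2]
  field_simp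

lemma solves_PhiM {φ₀ : ℝ → ℝ} (h₀ : ContDiff ℝ (⊤ : ℕ∞) φ₀) : Solves (OM V) (PhiM φ₀ V) := by
  intro q hq
  have hΩ := isOpen_OM hV hV0
  rw [sub_formula hΩ (contDiffOn_PhiM hV hV0 h₀) hq]
  have hev : Psi (PhiM φ₀ V) =ᶠ[𝓝 q] fun q => V (YY V q) - 4 := by
    filter_upwards [hΩ.mem_nhds hq] with r hr
    exact Psi_PhiM hV hV0 h₀ hr
  have hVd : HasDerivAt V (deriv V (YY V q)) (YY V q) :=
    (hV.differentiable (by simp)).differentiableAt.hasDerivAt
  have hY : HasFDerivAt (YY V) (fderiv ℝ (YY V) q) q :=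
    (differentiableAt_of hΩ (contDiffOn_YY hV hV0) hq).hasFDerivAt
  have hF : HasFDerivAt (fun q => V (YY V q) - 4) (deriv V (YY V q) • fderiv ℝ (YY V) q) q :=
    (hVd.comp_hasFDerivAt q hY).sub_const 4
  have hfd : fderiv ℝ (Psi (PhiM φ₀ V)) q = deriv V (YY V q) • fderiv ℝ (YY V) q := by
    rw [hev.fderiv_eq, hF.fderiv]
  have e1 : pt (Psi (PhiM φ₀ V)) q = deriv V (YY V q) * pt (YY V) q := by
    rw [pt, hfd]; rfl
  have e2 : px (Psi (PhiM φ₀ V)) q = deriv V (YY V q) * px (YY V) q := by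
    rw [px, hfd]; rfl
  rw [e1, e2, Psi_PhiM hV hV0 h₀ hq]
  have h1 := pt_YY hV hV0 hq
  have h2 := px_YY hV hV0 hq
  have hJ := jac_pos hV hV0 hq
  have h3 : (pt (YY V) q + (V (YY V q) - 2) * px (YY V) q) * (1 + q.1 * deriv V (YY V q)) = 0 := by
    rw [add_mul, h1, mul_assoc, h2]
    ring
  have h4 : pt (YY V) q + (V (YY V q) - 2) * px (YY V) q = 0 := by
    rcases mul_eq_zero.mp h3 with h | h
    · exact h
    · exact absurd h hJ.ne'
  have : -(deriv V (YY V q) * pt (YY V) q + (2 + (V (YY V q) - 4)) * (deriv V (YY V q) * px (YY V) q))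
    = -(deriv V (YY V q)) * (pt (YY V) q + (V (YY V q) - 2) * px (YY V) q) := by ring
  rw [this, h4, mul_zero]

end

/-! ## Limits -/

lemma GG_lim1 {V : ℝ → ℝ} {c y c' y' : ℝ} (h : (c, y) ∈ GG V) (h1 : y' ≤ c') (h2 : c' ≤ c)
    (h3 : y ≤ y') : (c', y') ∈ GG V := by
  intro r hr
  have hr' : r ∈ Icc y' c' := by
    have : r ∈ uIcc y' c' := hr
    rwa [uIcc_of_le h1] at this
  have hE := h r (by
    show r ∈ uIcc y c
    rw [mem_uIcc]
    exact Or.inl ⟨h3.trans hr'.1, hr'.2.trans h2⟩)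
  simp only [EE] at hE ⊢
  rcases le_total 0 (deriv V r / V r) with h0 | h0
  · have := mul_nonneg (sub_nonneg.mpr hr'.2) h0
    linarith
  · have : (c - c') * (deriv V r / V r) ≤ 0 :=
      mul_nonpos_of_nonneg_of_nonpos (sub_nonneg.mpr h2) h0
    nlinarith

lemma GG_lim2 {V : ℝ → ℝ} {c y c' y' : ℝ} (h : (c, y) ∈ GG V) (h1 : c' ≤ y') (h2 : c ≤ c')
    (h3 : y' ≤ y) : (c', y') ∈ GG V := by
  intro r hr
  have hr' : r ∈ Icc c' y' := by
    have : r ∈ uIcc y' c' := hr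
    rwa [uIcc_of_ge h1] at this
  have hE := h r (by
    show r ∈ uIcc y c
    rw [mem_uIcc]
    exact Or.inr ⟨h2.trans hr'.1, hr'.2.trans h3⟩)
  simp only [EE] at hE ⊢
  rcases le_total 0 (deriv V r / V r) with h0 | h0
  · have : (c - c') * (deriv V r / V r) ≤ 0 :=
      mul_nonpos_of_nonpos_of_nonneg (sub_nonpos.mpr h2) h0
    nlinarith
  · have := mul_nonneg_of_nonpos_of_nonpos (sub_nonpos.mpr hr'.1) h0
    linarith

lemma lim_bot {α : Type*} [LinearOrder α] [Nonempty α] {c y : α → ℝ} (hc : Monotone c)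
    (hy : Antitone y) (hlt : ∀ s, y s < c s) :
    ∃ c' y' : ℝ, Tendsto c atBot (𝓝 c') ∧ Tendsto y atBot (𝓝 y') ∧ (∀ s, c' ≤ c s) ∧
      (∀ s, y s ≤ y') ∧ y' ≤ c' := by
  obtain ⟨s₀⟩ := ‹Nonempty α›
  have : Nonempty α := ⟨s₀⟩
  have hb1 : BddBelow (range c) := by
    refine ⟨y s₀, ?_⟩
    rintro _ ⟨s, rfl⟩
    rcases le_total s s₀ with h | h
    · exact (hy h).trans (hlt s).le
    · exact (hlt s₀).le.trans (hc h)
  have hb2 : BddAbove (range y) := by
    refine ⟨c s₀, ?_⟩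
    rintro _ ⟨s, rfl⟩
    rcases le_total s s₀ with h | h
    · exact (hlt s).le.trans (hc h)
    · exact (hy h).trans (hlt s₀).le
  have h1 := tendsto_atBot_ciInf hc hb1
  have h2 := tendsto_atBot_ciSup hy hb2
  exact ⟨_, _, h1, h2, fun s => ciInf_le hb1 s, fun s => le_ciSup hb2 s,
    le_of_tendsto_of_tendsto' h2 h1 (fun s => (hlt s).le)⟩

lemma lim_top {α : Type*} [LinearOrder α] [Nonempty α] {c y : α → ℝ} (hc : Antitone c)
    (hy : Monotone y) (hlt : ∀ s, y s < c s) :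
    ∃ c' y' : ℝ, Tendsto c atTop (𝓝 c') ∧ Tendsto y atTop (𝓝 y') ∧ (∀ s, c' ≤ c s) ∧
      (∀ s, y s ≤ y') ∧ y' ≤ c' := by
  obtain ⟨s₀⟩ := ‹Nonempty α›
  have : Nonempty α := ⟨s₀⟩
  have hb1 : BddBelow (range c) := by
    refine ⟨y s₀, ?_⟩
    rintro _ ⟨s, rfl⟩
    rcases le_total s s₀ with h | h
    · exact (hlt s₀).le.trans (hc h)
    · exact (hy h).trans (hlt s).le
  have hb2 : BddAbove (range y) := by
    refine ⟨c s₀, ?_⟩
    rintro _ ⟨s, rfl⟩
    rcases le_total s s₀ with h | h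
    · exact (hy h).trans (hlt s₀).le
    · exact (hlt s).le.trans (hc h)
  have h1 := tendsto_atTop_ciInf hc hb1
  have h2 := tendsto_atTop_ciSup hy hb2
  exact ⟨_, _, h1, h2, fun s => ciInf_le hb1 s, fun s => le_ciSup hb2 s,
    le_of_tendsto_of_tendsto' h2 h1 (fun s => (hlt s).le)⟩

end

end Pool.Agent.V1187.Mghd
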