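import Pool.Agent.V1187.Mghd4

/-!
# Global hyperbolicity of the maximal development and uniqueness
-/

namespace Pool.Agent.V1187.Mghd

open Set Filter Topology

noncomputable section

/-- the Cauchy property -/
lemma cauchy_OM {V : ℝ → ℝ} (hV : ContDiff ℝ (⊤ : ℕ∞) V) (hV0 : ∀ x, V x ≠ 0) {φ₀ : ℝ → ℝ}
    (h₀ : ContDiff ℝ (⊤ : ℕ∞) φ₀) (I : Set ℝ) (γ : ℝ → ℝ × ℝ)
    (h : InextCausal (OM V) (PhiM φ₀ V) I γ) : ∃! s, s ∈ I ∧ (γ s).1 = 0 := by
  have hI : Convex ℝ I := h.ordConnected.convex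
  have hγd : ∀ s ∈ I, HasDerivAt γ (deriv γ s) s := by
    intro s hs
    exact ((h.contDiffOn.contDiffAt (h.isOpen.mem_nhds hs)).differentiableAt (by simp)).hasDerivAt
  set a : ℝ → ℝ := fun s => (γ s).1 with ha
  set b : ℝ → ℝ := fun s => (γ s).2 with hb
  have had : ∀ s ∈ I, HasDerivAt a (deriv γ s).1 s := fun s hs => (hγd s hs).fst
  have hbd : ∀ s ∈ I, HasDerivAt b (deriv γ s).2 s := fun s hs => (hγd s hs).snd
  have hmem : ∀ s ∈ I, (a s, b s) ∈ OM V := fun s hs => h.mem s hs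
  have hev : ∀ s ∈ I, ∀ᶠ r in 𝓝 s, (a r, b r) ∈ OM V := by
    intro s hs
    filter_upwards [h.isOpen.mem_nhds hs] with r hr using hmem r hr
  set y : ℝ → ℝ := fun s => YY V (a s, b s) with hy
  set c : ℝ → ℝ := fun s => b s + 2 * a s with hc
  set y' : ℝ → ℝ := fun s => pt (YY V) (a s, b s) * (deriv γ s).1
    + px (YY V) (a s, b s) * (deriv γ s).2 with hy'
  set c' : ℝ → ℝ := fun s => (deriv γ s).2 + 2 * (deriv γ s).1 with hc'
  have hyd : ∀ s ∈ I, HasDerivAt y (y' s) s := fun s hs =>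
    (YY_curve hV hV0 (hev s hs) (had s hs) (hbd s hs)).1
  have hcd : ∀ s ∈ I, HasDerivAt c (c' s) s := fun s hs => (hbd s hs).add ((had s hs).const_mul 2)
  have hrel : ∀ s ∈ I, y' s * (1 + a s * deriv V (y s)) + V (y s) * (deriv γ s).1 = c' s :=
    fun s hs => (YY_curve hV hV0 (hev s hs) (had s hs) (hbd s hs)).2
  have hJ : ∀ s ∈ I, 0 < 1 + a s * deriv V (y s) := fun s hs => jac_pos hV hV0 (hmem s hs)
  have hcausal : ∀ s ∈ I, y' s * c' s ≤ 0 := by
    intro s hs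
    have h1 := h.causal s hs
    have hPsi : Psi (PhiM φ₀ V) (γ s) = V (y s) - 4 := Psi_PhiM hV hV0 h₀ (h.mem s hs)
    have hne : Psi (PhiM φ₀ V) (γ s) ≠ -4 := by
      rw [hPsi]
      intro h4
      exact hV0 (y s) (by linarith)
    rw [gQ_nonpos_iff hne, hPsi] at h1
    have h2 := hrel s hs
    have h3 : (deriv γ s).2 - (2 + (V (y s) - 4)) * (deriv γ s).1
        = y' s * (1 + a s * deriv V (y s)) := by
      have : c' s = (deriv γ s).2 + 2 * (deriv γ s).1 := rfl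
      linarith
    rw [h3] at h1
    have h4 : y' s * (1 + a s * deriv V (y s)) * ((deriv γ s).2 + 2 * (deriv γ s).1)
        = (y' s * c' s) * (1 + a s * deriv V (y s)) := by
      have : c' s = (deriv γ s).2 + 2 * (deriv γ s).1 := rfl
      rw [this]
      ring
    rw [h4] at h1
    by_contra hpos
    push Not at hpos
    exact absurd h1 (not_le.mpr (mul_pos hpos (hJ s hs)))
  have hane : ∀ s ∈ I, (deriv γ s).1 ≠ 0 := by
    intro s hs h0
    have h1 := hrel s hs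
    have h2 := hcausal s hs
    have h3 := hJ s hs
    rw [h0, mul_zero, add_zero] at h1
    have h4 : c' s * c' s ≤ 0 := by
      have : c' s * c' s = (y' s * c' s) * (1 + a s * deriv V (y s)) := by
        rw [← h1]; ring
      rw [this]
      exact mul_nonpos_of_nonpos_of_nonneg h2 h3.le
    have h5 : c' s = 0 := by nlinarith [mul_self_nonneg (c' s), mul_self_eq_zero.mp (le_antisymm h4
      (mul_self_nonneg (c' s)))]
    have h6 : (deriv γ s).2 = 0 := by
      have : c' s = (deriv γ s).2 + 2 * (deriv γ s).1 := rfl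
      rw [this, h0] at h5
      linarith
    exact h.ne_zero s hs (Prod.ext h0 h6)
  -- at most one intersection
  have huniq : ∀ s₁ ∈ I, ∀ s₂ ∈ I, s₁ < s₂ → a s₁ = 0 → a s₂ = 0 → False := by
    intro s₁ h₁ s₂ h₂ hlt e₁ e₂
    have hsub : Icc s₁ s₂ ⊆ I := h.ordConnected.out h₁ h₂
    obtain ⟨r, hr, hr0⟩ := exists_hasDerivAt_eq_zero (f := a) (f' := fun s => (deriv γ s).1) hlt
      (fun r hr => (had r (hsub hr)).continuousAt.continuousWithinAt) (by rw [e₁, e₂])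
      (fun r hr => had r (hsub (Ioo_subset_Icc_self hr)))
    exact hane r (hsub (Ioo_subset_Icc_self hr)) hr0
  suffices hex : ∃ s ∈ I, a s = 0 by
    obtain ⟨s, hs, hs0⟩ := hex
    refine ⟨s, ⟨hs, hs0⟩, ?_⟩
    rintro r ⟨hr, hr0⟩
    by_contra hne
    rcases lt_or_gt_of_ne hne with hlt | hlt
    · exact huniq r hr s hs hlt hr0 hs0
    · exact huniq s hs r hr hlt hs0 hr0
  by_contra hno
  push Not at hno
  -- signs
  have hspec : ∀ s ∈ I, c s - y s = V (y s) * a s := by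
    intro s hs
    have := (YY_spec hV hV0 (hmem s hs)).2.1
    have e : c s = b s + 2 * a s := rfl
    rw [e, ← this]
    simp only [hy]
    ring
  have hcy : ∀ s ∈ I, c s - y s ≠ 0 := by
    intro s hs h0
    rw [hspec s hs] at h0
    rcases mul_eq_zero.mp h0 with h1 | h1
    · exact hV0 _ h1
    · exact hno s hs h1
  have hpre : IsPreconnected I := h.ordConnected.isPreconnected
  have hycont : ContinuousOn y I := fun s hs => (hyd s hs).continuousAt.continuousWithinAt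
  have hccont : ContinuousOn c I := fun s hs => (hcd s hs).continuousAt.continuousWithinAt
  have hsign : (∀ s ∈ I, y s < c s) ∨ (∀ s ∈ I, c s < y s) := by
    by_contra hcon
    push Not at hcon
    obtain ⟨⟨s₁, hs₁, h₁⟩, ⟨s₂, hs₂, h₂⟩⟩ := hcon
    have hcont : ContinuousOn (fun s => c s - y s) I := hccont.sub hycont
    have := hpre.intermediate_value hs₁ hs₂ hcont
    obtain ⟨r, hr, hr0⟩ := this (show (0 : ℝ) ∈ Icc (c s₁ - y s₁) (c s₂ - y s₂) from
      ⟨by linarith, by linarith⟩)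
    exact hcy r hr hr0
  -- the sign of `V a'`
  have hκ : (∀ s ∈ I, 0 < V (y s) * (deriv γ s).1) ∨ (∀ s ∈ I, V (y s) * (deriv γ s).1 < 0) := by
    have hVs : (∀ x, 0 < V x) ∨ (∀ x, V x < 0) := by
      by_contra hcon
      push Not at hcon
      obtain ⟨⟨x₁, h₁⟩, ⟨x₂, h₂⟩⟩ := hcon
      obtain ⟨r, -, hr0⟩ := isPreconnected_univ.intermediate_value (mem_univ x₁) (mem_univ x₂)
        hV.continuous.continuousOn (show (0 : ℝ) ∈ Icc (V x₁) (V x₂) from ⟨h₁, h₂⟩)
      exact hV0 r hr0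
    have hda : (∀ s ∈ I, (deriv γ s).1 < 0) ∨ (∀ s ∈ I, 0 < (deriv γ s).1) :=
      hasDerivWithinAt_forall_lt_or_forall_gt_of_forall_ne hI
        (fun s hs => (had s hs).hasDerivWithinAt) hane
    rcases hVs with hv | hv <;> rcases hda with hd | hd
    · right; intro s hs; exact mul_neg_of_pos_of_neg (hv _) (hd s hs)
    · left; intro s hs; exact mul_pos (hv _) (hd s hs)
    · left; intro s hs; exact mul_pos_of_neg_of_neg (hv _) (hd s hs)
    · right; intro s hs; exact mul_neg_of_neg_of_pos (hv _) (hd s hs)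
  -- monotonicity
  have hint : interior I = I := h.isOpen.interior_eq
  have monoOf : ∀ (f f' : ℝ → ℝ), (∀ s ∈ I, HasDerivAt f (f' s) s) → (∀ s ∈ I, 0 ≤ f' s) →
      Monotone (fun s : I => f s) := by
    intro f f' hf hf'
    have hm : MonotoneOn f I := by
      refine monotoneOn_of_deriv_nonneg hI
        (fun s hs => (hf s hs).continuousAt.continuousWithinAt) ?_ ?_
      · intro s hs
        rw [hint] at hs
        exact (hf s hs).differentiableAt.differentiableWithinAt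
      · intro s hs
        rw [hint] at hs
        rw [(hf s hs).deriv]
        exact hf' s hs
    intro s r hsr
    exact hm s.2 r.2 hsr
  have antiOf : ∀ (f f' : ℝ → ℝ), (∀ s ∈ I, HasDerivAt f (f' s) s) → (∀ s ∈ I, f' s ≤ 0) →
      Antitone (fun s : I => f s) := by
    intro f f' hf hf'
    have hm : AntitoneOn f I := by
      refine antitoneOn_of_deriv_nonpos hI
        (fun s hs => (hf s hs).continuousAt.continuousWithinAt) ?_ ?_
      · intro s hs
        rw [hint] at hs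
        exact (hf s hs).differentiableAt.differentiableWithinAt
      · intro s hs
        rw [hint] at hs
        rw [(hf s hs).deriv]
        exact hf' s hs
    intro s r hsr
    exact hm s.2 r.2 hsr
  have hTc : Continuous (Th V) := (contDiff_Th hV hV0).continuous
  have hγT : ∀ s ∈ I, Th V (c s, y s) = γ s := fun s hs => (YY_spec hV hV0 (hmem s hs)).2.2
  have hG : ∀ s ∈ I, (c s, y s) ∈ GG V := fun s hs => (YY_spec hV hV0 (hmem s hs)).1
  haveI hne : Nonempty I := h.nonempty.to_subtype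
  obtain ⟨s₀⟩ := hne
  have hne : Nonempty I := ⟨s₀⟩
  have hlimT : ∀ (l : Filter I) (cs ys : ℝ), Tendsto (fun s : I => c s) l (𝓝 cs) →
      Tendsto (fun s : I => y s) l (𝓝 ys) → Tendsto (fun s : I => γ s) l (𝓝 (Th V (cs, ys))) := by
    intro l cs ys h1 h2
    have h3 : Tendsto (fun s : I => (c s, y s)) l (𝓝 (cs, ys)) := h1.prodMk_nhds h2
    have h4 := (hTc.tendsto (cs, ys)).comp h3
    refine h4.congr ?_
    intro s
    exact hγT s s.2
  rcases hκ with hκ | hκ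
  · -- `c` increases, `y` decreases
    have hcn : ∀ s ∈ I, 0 ≤ c' s := by
      intro s hs
      by_contra hneg
      push Not at hneg
      have h1 := hcausal s hs
      have h2 : 0 ≤ y' s := by
        by_contra hy0
        push Not at hy0
        exact absurd h1 (not_le.mpr (mul_pos_of_neg_of_neg hy0 hneg))
      have h3 := hrel s hs
      have h4 := hκ s hs
      have h5 := mul_nonneg h2 (hJ s hs).le
      linarith
    have hyn : ∀ s ∈ I, y' s ≤ 0 := by
      intro s hs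
      by_contra hpos
      push Not at hpos
      have h1 := hcausal s hs
      have h2 : c' s ≤ 0 := by
        by_contra hc0
        push Not at hc0
        exact absurd h1 (not_le.mpr (mul_pos hpos hc0))
      have h3 := hrel s hs
      have h4 := hκ s hs
      have h5 := mul_pos hpos (hJ s hs)
      linarith
    have hcm := monoOf c c' hcd hcn
    have hym := antiOf y y' hyd hyn
    rcases hsign with hs | hs
    · obtain ⟨cs, ys, l1, l2, l3, l4, l5⟩ := lim_bot hcm hym (fun s => hs s s.2)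
      refine h.no_lower ⟨Th V (cs, ys), ⟨(cs, ys), ?_, rfl⟩, hlimT _ _ _ l1 l2⟩
      exact GG_lim1 (hG s₀ s₀.2) l5 (l3 s₀) (l4 s₀)
    · obtain ⟨ys, cs, l1, l2, l3, l4, l5⟩ := lim_top hym hcm (fun s => hs s s.2)
      refine h.no_upper ⟨Th V (cs, ys), ⟨(cs, ys), ?_, rfl⟩, hlimT _ _ _ l2 l1⟩
      exact GG_lim2 (hG s₀ s₀.2) l5 (l4 s₀) (l3 s₀)
  · -- `c` decreases, `y` increases
    have hcn : ∀ s ∈ I, c' s ≤ 0 := by
      intro s hs
      by_contra hpos
      push Not at hpos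
      have h1 := hcausal s hs
      have h2 : y' s ≤ 0 := by
        by_contra hy0
        push Not at hy0
        exact absurd h1 (not_le.mpr (mul_pos hy0 hpos))
      have h3 := hrel s hs
      have h4 := hκ s hs
      have h5 := mul_nonneg (neg_nonneg.mpr h2) (hJ s hs).le
      nlinarith
    have hyn : ∀ s ∈ I, 0 ≤ y' s := by
      intro s hs
      by_contra hneg
      push Not at hneg
      have h1 := hcausal s hs
      have h2 : 0 ≤ c' s := by
        by_contra hc0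
        push Not at hc0
        exact absurd h1 (not_le.mpr (mul_pos_of_neg_of_neg hneg hc0))
      have h3 := hrel s hs
      have h4 := hκ s hs
      have h5 := mul_pos (neg_pos.mpr hneg) (hJ s hs)
      nlinarith
    have hcm := antiOf c c' hcd hcn
    have hym := monoOf y y' hyd hyn
    rcases hsign with hs | hs
    · obtain ⟨cs, ys, l1, l2, l3, l4, l5⟩ := lim_top hcm hym (fun s => hs s s.2)
      refine h.no_upper ⟨Th V (cs, ys), ⟨(cs, ys), ?_, rfl⟩, hlimT _ _ _ l1 l2⟩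
      exact GG_lim1 (hG s₀ s₀.2) l5 (l3 s₀) (l4 s₀)
    · obtain ⟨ys, cs, l1, l2, l3, l4, l5⟩ := lim_bot hym hcm (fun s => hs s s.2)
      refine h.no_lower ⟨Th V (cs, ys), ⟨(cs, ys), ?_, rfl⟩, hlimT _ _ _ l2 l1⟩
      exact GG_lim2 (hG s₀ s₀.2) l5 (l4 s₀) (l3 s₀)

section
variable {φ₀ φ₁ : ℝ → ℝ} (h₀ : ContDiff ℝ (⊤ : ℕ∞) φ₀) (h₁ : ContDiff ℝ (⊤ : ℕ∞) φ₁)
include h₀ h₁

/-- the maximal development is a globally hyperbolic development -/
lemma isGHD_OM (hne : ∀ x, φ₁ x - 2 * deriv φ₀ x ≠ -4) :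
    IsGHD φ₀ φ₁ (OM (V0 φ₀ φ₁)) (PhiM φ₀ (V0 φ₀ φ₁)) := by
  set V := V0 φ₀ φ₁ with hVdef
  have hV : ContDiff ℝ (⊤ : ℕ∞) V := contDiff_V0 h₀ h₁
  have hV0 : ∀ x, V x ≠ 0 := by
    intro x hx
    apply hne x
    have : V x = φ₁ x - 2 * deriv φ₀ x + 4 := rfl
    linarith
  have hΩ := isOpen_OM hV hV0
  have hsm := contDiffOn_PhiM hV hV0 h₀
  have hd0 : ∀ x : ℝ, PhiM φ₀ V (0, x) = φ₀ x := by
    intro x
    simp only [PhiM, PP]
    rw [(zero_mem_OM hV hV0 x).2]
    simp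
  refine ⟨hΩ, fun x => (zero_mem_OM hV hV0 x).1, hsm, solves_PhiM hV hV0 h₀, hd0, ?_, ?_,
    cauchy_OM hV hV0 h₀⟩
  · intro x
    have hx := (zero_mem_OM hV hV0 x).1
    have h1 := hasDerivAt_comp (a := fun _ : ℝ => (0 : ℝ)) (b := fun r : ℝ => r) (s := x)
      (differentiableAt_of hΩ hsm hx) (hasDerivAt_const x 0) (hasDerivAt_id x)
    have h2 : (fun r : ℝ => PhiM φ₀ V (0, r)) = φ₀ := funext hd0
    have h3 : deriv φ₀ x = px (PhiM φ₀ V) (0, x) := by
      have := h1.deriv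
      rw [h2] at this
      simpa using this
    have h4 := Psi_PhiM hV hV0 h₀ hx
    rw [(zero_mem_OM hV hV0 x).2, Psi, ← h3] at h4
    have h5 : V x = φ₁ x - 2 * deriv φ₀ x + 4 := rfl
    linarith
  · intro p hp h4
    rw [Psi_PhiM hV hV0 h₀ hp] at h4
    exact hV0 (YY V p) (by linarith)

/-- every globally hyperbolic development is contained in the maximal one -/
lemma ghd_le {Ω : Set (ℝ × ℝ)} {Φ : ℝ × ℝ → ℝ} (h : IsGHD φ₀ φ₁ Ω Φ) :
    Ω ⊆ OM (V0 φ₀ φ₁) ∧ EqOn Φ (PhiM φ₀ (V0 φ₀ φ₁)) Ω := by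
  set V := V0 φ₀ φ₁ with hVdef
  have hV : ContDiff ℝ (⊤ : ℕ∞) V := contDiff_V0 h₀ h₁
  have hV0 : ∀ x, V x ≠ 0 := V0_ne h
  have hsub : Ω ⊆ OM V := fun p hp => ⟨_, foot_mem h₀ h₁ h hp, Th_foot h hp⟩
  have hYf : ∀ p ∈ Ω, YY V p = foot Φ p := by
    intro p hp
    have := YY_Th hV hV0 (foot_mem h₀ h₁ h hp)
    rw [Th_foot h hp] at this
    exact this
  have hne : ∀ x, φ₁ x - 2 * deriv φ₀ x ≠ -4 := by
    intro x hx
    apply hV0 x
    have : V x = φ₁ x - 2 * deriv φ₀ x + 4 := rfl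
    linarith
  have hM := isGHD_OM h₀ h₁ hne
  have hPsi : ∀ p ∈ Ω, Psi Φ p = Psi (PhiM φ₀ V) p := by
    intro p hp
    have hf : V (foot Φ p) = Psi Φ p + 4 := V0_foot h hp
    rw [Psi_PhiM hV hV0 h₀ (hsub hp), hYf p hp, hf]
    ring
  refine ⟨hsub, ?_⟩
  rintro ⟨t₀, x₀⟩ hp
  set c := x₀ + 2 * t₀ with hc
  have hmem : ∀ s ∈ uIcc 0 t₀, (s, c - 2 * s) ∈ Ω := fun s hs => vert_mem h hp hs
  have hder : ∀ s ∈ uIcc 0 t₀, HasDerivWithinAt
      (fun r => Φ (r, c - 2 * r) - PhiM φ₀ V (r, c - 2 * r)) 0 (uIcc 0 t₀) s := by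
    intro s hs
    have e1 : HasDerivAt (fun s : ℝ => s) 1 s := hasDerivAt_id s
    have e2 : HasDerivAt (fun s : ℝ => c - 2 * s) (-2) s := by
      simpa using ((hasDerivAt_id s).const_mul (2 : ℝ)).const_sub c
    have d1 := hasDerivAt_comp (differentiableAt_of h.isOpen h.smooth (hmem s hs)) e1 e2
    have d2 := hasDerivAt_comp (differentiableAt_of hM.isOpen hM.smooth (hsub (hmem s hs))) e1 e2
    refine ((d1.sub d2).congr_deriv ?_).hasDerivWithinAt
    have := hPsi _ (hmem s hs)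
    rw [Psi, Psi] at this
    linarith
  have hbound := (convex_uIcc (0 : ℝ) t₀).norm_image_sub_le_of_norm_hasDerivWithin_le (C := 0)
    hder (fun s _ => by simp) (left_mem_uIcc) (right_mem_uIcc)
  rw [zero_mul, norm_le_zero_iff] at hbound
  have e0 : (t₀, c - 2 * t₀) = (t₀, x₀) := by rw [hc]; ext <;> simp
  rw [e0, h.data₀, hM.data₀] at hbound
  have : Φ (t₀, x₀) - PhiM φ₀ V (t₀, x₀) = 0 := by linarith
  linarith

end

/-- existence and uniqueness of the maximal globally hyperbolic development, which contains every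
globally hyperbolic development -/
theorem main (φ₀ φ₁ : ℝ → ℝ) (h₀ : ContDiff ℝ (⊤ : ℕ∞) φ₀) (h₁ : ContDiff ℝ (⊤ : ℕ∞) φ₁)
    (hne : ∀ x, φ₁ x - 2 * deriv φ₀ x ≠ -4) :
    ∃ (Ω : Set (ℝ × ℝ)) (Φ : ℝ × ℝ → ℝ), IsMGHD φ₀ φ₁ Ω Φ ∧
      (∀ (Ω' : Set (ℝ × ℝ)) (Φ' : ℝ × ℝ → ℝ), IsGHD φ₀ φ₁ Ω' Φ' → Ω' ⊆ Ω ∧ EqOn Φ' Φ Ω') ∧
      (∀ (Ω' : Set (ℝ × ℝ)) (Φ' : ℝ × ℝ → ℝ), IsMGHD φ₀ φ₁ Ω' Φ' → Ω' = Ω ∧ EqOn Φ' Φ Ω) := by
  refine ⟨OM (V0 φ₀ φ₁), PhiM φ₀ (V0 φ₀ φ₁), ⟨isGHD_OM h₀ h₁ hne, ?_⟩, ?_, ?_⟩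
  · intro Ω' Φ' h' hsub _
    exact Subset.antisymm (ghd_le h₀ h₁ h').1 hsub
  · intro Ω' Φ' h'
    exact ghd_le h₀ h₁ h'
  · intro Ω' Φ' h'
    obtain ⟨h1, h2⟩ := ghd_le h₀ h₁ h'.1
    have h3 := h'.2 _ _ (isGHD_OM h₀ h₁ hne) h1 h2
    exact ⟨h3.symm, by rw [h3]; exact h2⟩

end

end Pool.Agent.V1187.Mghd
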