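import Mathlib

/-!
# One-dimensional and product Poincaré inequalities
-/

set_option autoImplicit false

open Set MeasureTheory Filter Topology

namespace Pool.Agent.V1187.NB

section general

variable {X : Type*} [MeasurableSpace X] {μ : Measure X}

/-- Cauchy-Schwarz. -/
theorem cs_meas {u v : X → ℝ} (hu : Integrable (fun x => u x ^ 2) μ)
    (hv : Integrable (fun x => v x ^ 2) μ) (huv : Integrable (fun x => u x * v x) μ) :
    (∫ x, u x * v x ∂μ) ^ 2 ≤ (∫ x, u x ^ 2 ∂μ) * ∫ x, v x ^ 2 ∂μ := by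
  have key : ∀ t : ℝ, 0 ≤ (∫ x, v x ^ 2 ∂μ) * (t * t) + (-(2 * ∫ x, u x * v x ∂μ)) * t +
      ∫ x, u x ^ 2 ∂μ := by
    intro t
    have h1 : 0 ≤ ∫ x, (u x - t * v x) ^ 2 ∂μ := integral_nonneg fun x => sq_nonneg _
    have h2 : ∫ x, (u x - t * v x) ^ 2 ∂μ = (∫ x, u x ^ 2 ∂μ) - 2 * t * (∫ x, u x * v x ∂μ) +
        t * t * ∫ x, v x ^ 2 ∂μ := by
      rw [← integral_const_mul, ← integral_const_mul, ← integral_sub hu (huv.const_mul _),
        ← integral_add (f := fun x => u x ^ 2 - 2 * t * (u x * v x)) (hu.sub (huv.const_mul _))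
          (hv.const_mul _)]
      congr 1
      funext x
      ring
    rw [h2] at h1
    linarith
  have h := discrim_le_zero key
  unfold discrim at h
  nlinarith

theorem sq_integral_le [IsProbabilityMeasure μ] {k : X → ℝ} (hk : Integrable k μ)
    (hk2 : Integrable (fun x => k x ^ 2) μ) : (∫ x, k x ∂μ) ^ 2 ≤ ∫ x, k x ^ 2 ∂μ := by
  have h := cs_meas (μ := μ) (u := k) (v := fun _ => 1) hk2 (by simp) (by simpa using hk)
  simpa using h

end general

theorem int_of_cont {X : Type*} [TopologicalSpace X] [MeasurableSpace X] [OpensMeasurableSpace X]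
    [T2Space X] {μ : Measure X} [IsFiniteMeasureOnCompacts μ] {s : Set X} (hs : IsCompact s)
    {f : X → ℝ} (hf : Continuous f) : Integrable f (μ.restrict s) :=
  hf.continuousOn.integrableOn_compact hs

/-- The variance on a product is at most the sum of the averages of the variances. -/
theorem var2 {Y : Type*} [NormedAddCommGroup Y] [MeasurableSpace Y] [BorelSpace Y]
    [SecondCountableTopology Y] [LocallyCompactSpace Y] {ν : Measure Y} [IsLocallyFiniteMeasure ν]
    [SFinite ν]
    {f : ℝ → Y → ℝ} (hf : Continuous (Function.uncurry f)) {s : Set ℝ} {t : Set Y}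
    (hs : IsCompact s) (ht : IsCompact t) (hs1 : volume s = 1) (ht1 : ν t = 1) :
    (∫ x in s, ∫ y in t, f x y ^ 2 ∂ν) - (∫ x in s, ∫ y in t, f x y ∂ν) ^ 2 ≤
      (∫ x in s, ((∫ y in t, f x y ^ 2 ∂ν) - (∫ y in t, f x y ∂ν) ^ 2)) +
      ∫ y in t, ((∫ x in s, f x y ^ 2) - (∫ x in s, f x y) ^ 2) ∂ν := by
  haveI p1 : IsProbabilityMeasure ((volume : Measure ℝ).restrict s) := ⟨by simp [hs1]⟩
  haveI p2 : IsProbabilityMeasure (ν.restrict t) := ⟨by simp [ht1]⟩
  have hswap : Continuous (Function.uncurry fun y x => f x y) :=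
    hf.comp continuous_swap
  have hf2 : Continuous (Function.uncurry fun x y => f x y ^ 2) := hf.pow 2
  have hf2s : Continuous (Function.uncurry fun y x => f x y ^ 2) := hswap.pow 2
  have hsx : ∀ x, Continuous (f x) := fun x => hf.comp (Continuous.prodMk_right x)
  have hsy : ∀ y, Continuous (fun x => f x y) := fun y => hf.comp (Continuous.prodMk_left y)
  set g : ℝ → ℝ := fun x => ∫ y in t, f x y ∂ν with hg
  set h : Y → ℝ := fun y => ∫ x in s, f x y with hh
  have hgc : Continuous g := continuous_parametric_integral_of_continuous hf ht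
  have hhc : Continuous h := continuous_parametric_integral_of_continuous hswap hs
  have hg2c : Continuous (fun x => ∫ y in t, f x y ^ 2 ∂ν) :=
    continuous_parametric_integral_of_continuous hf2 ht
  have hh2c : Continuous (fun y => ∫ x in s, f x y ^ 2) :=
    continuous_parametric_integral_of_continuous hf2s hs
  have hprod : ∀ F : ℝ → Y → ℝ, Continuous (Function.uncurry F) →
      ∫ x in s, ∫ y in t, F x y ∂ν = ∫ y in t, (∫ x in s, F x y) ∂ν := by
    intro F hF
    apply integral_integral_swap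
    rw [Measure.prod_restrict]
    exact int_of_cont (hs.prod ht) hF
  set M := ∫ x in s, g x with hM
  have hMh : M = ∫ y in t, h y ∂ν := hprod f hf
  have hJ : ∀ x, (g x - M) ^ 2 ≤ ∫ y in t, (f x y - h y) ^ 2 ∂ν := by
    intro x
    have e : g x - M = ∫ y in t, (f x y - h y) ∂ν := by
      rw [integral_sub (int_of_cont ht (hsx x)) (int_of_cont ht hhc), ← hMh]
    rw [e]
    have hc : Continuous fun y => f x y - h y := (hsx x).sub hhc
    exact sq_integral_le (int_of_cont ht hc) (int_of_cont ht (hc.pow 2))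
  have hFc : Continuous (Function.uncurry fun x y => (f x y - h y) ^ 2) := by
    have : Continuous fun p : ℝ × Y => h p.2 := hhc.comp continuous_snd
    exact (hf.sub this).pow 2
  have hJc : Continuous (fun x => ∫ y in t, (f x y - h y) ^ 2 ∂ν) :=
    continuous_parametric_integral_of_continuous hFc ht
  have h1 : ∫ x in s, (g x - M) ^ 2 ≤ ∫ x in s, ∫ y in t, (f x y - h y) ^ 2 ∂ν :=
    integral_mono (int_of_cont hs ((hgc.sub continuous_const).pow 2)) (int_of_cont hs hJc) hJ
  have h2 : ∫ x in s, (g x - M) ^ 2 = (∫ x in s, g x ^ 2) - M ^ 2 := by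
    have e : ∀ x, (g x - M) ^ 2 = g x ^ 2 - 2 * M * g x + M ^ 2 := fun x => by ring
    simp only [e]
    have i1 : Integrable (fun x => g x ^ 2) (volume.restrict s) := int_of_cont hs (hgc.pow 2)
    have i2 : Integrable (fun x => 2 * M * g x) (volume.restrict s) :=
      int_of_cont hs (continuous_const.mul hgc)
    rw [integral_add (f := fun x => g x ^ 2 - 2 * M * g x) (i1.sub i2) (integrable_const _),
      integral_sub i1 i2, integral_const_mul, integral_const, ← hM]
    simp only [probReal_univ, one_smul]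
    ring
  have h3 : ∀ y, ∫ x in s, (f x y - h y) ^ 2 = (∫ x in s, f x y ^ 2) - h y ^ 2 := by
    intro y
    have e : ∀ x, (f x y - h y) ^ 2 = f x y ^ 2 - 2 * h y * f x y + h y ^ 2 := fun x => by ring
    simp only [e]
    have i1 : Integrable (fun x => f x y ^ 2) (volume.restrict s) :=
      int_of_cont hs ((hsy y).pow 2)
    have i2 : Integrable (fun x => 2 * h y * f x y) (volume.restrict s) :=
      int_of_cont hs (continuous_const.mul (hsy y))
    rw [integral_add (f := fun x => f x y ^ 2 - 2 * h y * f x y) (i1.sub i2) (integrable_const _),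
      integral_sub i1 i2, integral_const_mul, integral_const]
    simp only [probReal_univ, one_smul]
    have : ∫ x in s, f x y = h y := rfl
    rw [this]
    ring
  rw [hprod _ hFc] at h1
  simp only [h3] at h1
  rw [h2] at h1
  have h4 : ∫ x in s, ((∫ y in t, f x y ^ 2 ∂ν) - (∫ y in t, f x y ∂ν) ^ 2) =
      (∫ x in s, ∫ y in t, f x y ^ 2 ∂ν) - ∫ x in s, g x ^ 2 :=
    integral_sub (int_of_cont hs hg2c) (int_of_cont hs (hgc.pow 2))
  rw [h4]
  linarith

/-- The one-dimensional Poincaré inequality with constant `6`. -/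
theorem poinc1 (a : ℝ) {f f' : ℝ → ℝ} (hf : ∀ x, HasDerivAt f (f' x) x) (hf' : Continuous f') :
    (∫ x in Icc a (a + 1), f x ^ 2) - (∫ x in Icc a (a + 1), f x) ^ 2 ≤
      (1 / 6) * ∫ x in Icc a (a + 1), f' x ^ 2 := by
  have hfc : Continuous f := continuous_iff_continuousAt.2 fun x => (hf x).continuousAt
  have hcv : ∀ F : ℝ → ℝ, ∫ x in Icc a (a + 1), F x = ∫ x in a..(a + 1), F x := fun F => by
    rw [integral_Icc_eq_integral_Ioc, intervalIntegral.integral_of_le (by linarith)]
  rw [hcv, hcv, hcv]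
  set m := ∫ x in a..(a + 1), f x with hm
  set k : ℝ → ℝ := fun x => f x - m with hk
  have hkc : Continuous k := hfc.sub continuous_const
  have hkd : ∀ x, HasDerivAt k (f' x) x := fun x => (hf x).sub_const m
  set V := ∫ x in a..(a + 1), k x ^ 2 with hV
  have ii : ∀ F : ℝ → ℝ, Continuous F → ∀ b c, IntervalIntegrable F volume b c := fun F hF b c =>
    hF.intervalIntegrable b c
  have hVe : V = (∫ x in a..(a + 1), f x ^ 2) - m ^ 2 := by
    rw [hV]
    have e : ∀ x, k x ^ 2 = f x ^ 2 - 2 * m * f x + m ^ 2 := fun x => by simp only [hk]; ring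
    simp only [e]
    rw [intervalIntegral.integral_add (ii _ (by fun_prop) _ _) (ii _ (by fun_prop) _ _),
      intervalIntegral.integral_sub (ii _ (by fun_prop) _ _) (ii _ (by fun_prop) _ _),
      intervalIntegral.integral_const_mul, ← hm, intervalIntegral.integral_const]
    simp
    ring
  have hk0 : ∫ x in a..(a + 1), k x = 0 := by
    simp only [hk]
    rw [intervalIntegral.integral_sub (ii _ hfc _ _) (ii _ continuous_const _ _),
      intervalIntegral.integral_const, ← hm]
    simp
  set F : ℝ → ℝ := fun x => ∫ y in a..x, k y with hF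
  have hFd : ∀ x, HasDerivAt F (k x) x := fun x =>
    intervalIntegral.integral_hasDerivAt_right (ii _ hkc _ _)
      (hkc.stronglyMeasurableAtFilter _ _) hkc.continuousAt
  have hFc : Continuous F := continuous_iff_continuousAt.2 fun x => (hFd x).continuousAt
  have hFa : F a = 0 := by simp [hF]
  have hFb : F (a + 1) = 0 := hk0
  -- integration by parts
  have hibp : V = -∫ x in a..(a + 1), F x * f' x := by
    have h := intervalIntegral.integral_mul_deriv_eq_deriv_mul (a := a) (b := a + 1)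
      (fun x _ => hFd x) (fun x _ => hkd x) (ii _ hkc _ _) (ii _ hf' _ _)
    rw [hFa, hFb] at h
    rw [hV]
    have e : ∀ x, k x ^ 2 = k x * k x := fun x => by ring
    simp only [e]
    linarith
  -- Cauchy-Schwarz on intervals
  have csi : ∀ (u v : ℝ → ℝ), Continuous u → Continuous v → ∀ b c : ℝ, b ≤ c →
      (∫ x in b..c, u x * v x) ^ 2 ≤ (∫ x in b..c, u x ^ 2) * ∫ x in b..c, v x ^ 2 := by
    intro u v hu hv b c hbc
    rw [intervalIntegral.integral_of_le hbc, intervalIntegral.integral_of_le hbc,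
      intervalIntegral.integral_of_le hbc]
    exact cs_meas ((hu.pow 2).integrableOn_Ioc) ((hv.pow 2).integrableOn_Ioc)
      ((hu.mul hv).integrableOn_Ioc)
  have hV0 : 0 ≤ V := intervalIntegral.integral_nonneg (by linarith) fun x _ => sq_nonneg _
  have hFle : ∀ x ∈ Icc a (a + 1), F x ^ 2 ≤ (x - a) * (a + 1 - x) * V := by
    intro x hx
    have h1 : F x ^ 2 ≤ (x - a) * ∫ y in a..x, k y ^ 2 := by
      have := csi k (fun _ => 1) hkc continuous_const a x hx.1
      simp at this
      rw [mul_comm]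
      exact this
    have h2 : F x ^ 2 ≤ (a + 1 - x) * ∫ y in x..(a + 1), k y ^ 2 := by
      have h3 : F x = -∫ y in x..(a + 1), k y := by
        have := intervalIntegral.integral_add_adjacent_intervals (ii k hkc a x) (ii k hkc x (a + 1))
        rw [hk0] at this
        simp only [hF]
        linarith
      have := csi k (fun _ => 1) hkc continuous_const x (a + 1) hx.2
      simp at this
      rw [h3, neg_sq, mul_comm]
      exact this
    have h4 : V = (∫ y in a..x, k y ^ 2) + ∫ y in x..(a + 1), k y ^ 2 :=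
      (intervalIntegral.integral_add_adjacent_intervals (ii _ (by fun_prop) a x)
        (ii _ (by fun_prop) x (a + 1))).symm
    have h5 : 0 ≤ x - a := by linarith [hx.1]
    have h6 : 0 ≤ a + 1 - x := by linarith [hx.2]
    rw [h4]
    nlinarith [mul_le_mul_of_nonneg_left h1 h6, mul_le_mul_of_nonneg_left h2 h5]
  have hint : ∫ x in a..(a + 1), (x - a) * (a + 1 - x) * V = V / 6 := by
    rw [intervalIntegral.integral_mul_const]
    have : ∫ x in a..(a + 1), (x - a) * (a + 1 - x) = 1 / 6 := by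
      have e : ∀ x : ℝ, (x - a) * (a + 1 - x) = (2 * a + 1) * x - x ^ 2 - (a ^ 2 + a) := fun x => by
        ring
      simp only [e]
      rw [intervalIntegral.integral_sub (ii _ (by fun_prop) _ _) (ii _ (by fun_prop) _ _),
        intervalIntegral.integral_sub (ii _ (by fun_prop) _ _) (ii _ (by fun_prop) _ _),
        intervalIntegral.integral_const_mul, integral_id, integral_pow,
        intervalIntegral.integral_const]
      simp
      ring
    rw [this]
    ring
  have hF2 : ∫ x in a..(a + 1), F x ^ 2 ≤ V / 6 := by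
    rw [← hint]
    apply intervalIntegral.integral_mono_on (by linarith) (ii _ (by fun_prop) _ _)
      (ii _ (by fun_prop) _ _)
    exact hFle
  have hcs := csi F f' hFc hf' a (a + 1) (by linarith)
  have hf2 : 0 ≤ ∫ x in a..(a + 1), f' x ^ 2 :=
    intervalIntegral.integral_nonneg (by linarith) fun x _ => sq_nonneg _
  have hV2 : V ^ 2 ≤ V / 6 * ∫ x in a..(a + 1), f' x ^ 2 := by
    calc V ^ 2 = (∫ x in a..(a + 1), F x * f' x) ^ 2 := by rw [hibp]; ring
      _ ≤ _ := hcs
      _ ≤ _ := by gcongr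
  rw [← hVe]
  rcases hV0.eq_or_lt with h0 | h0
  · rw [← h0]
    positivity
  · have : V * V ≤ V * (1 / 6 * ∫ x in a..(a + 1), f' x ^ 2) := by nlinarith
    exact le_of_mul_le_mul_left this h0

theorem vol_Icc (a : ℝ) : volume (Icc a (a + 1)) = 1 := by simp

/-- Two variables. -/
theorem poinc2 (a b : ℝ) {f f1 f2 : ℝ → ℝ → ℝ} (hf : Continuous (Function.uncurry f))
    (h1 : ∀ x y, HasDerivAt (fun x => f x y) (f1 x y) x)
    (h2 : ∀ x y, HasDerivAt (fun y => f x y) (f2 x y) y)
    (c1 : Continuous (Function.uncurry f1)) (c2 : Continuous (Function.uncurry f2)) :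
    (∫ x in Icc a (a + 1), ∫ y in Icc b (b + 1), f x y ^ 2) -
      (∫ x in Icc a (a + 1), ∫ y in Icc b (b + 1), f x y) ^ 2 ≤
      (1 / 6) * ∫ x in Icc a (a + 1), ∫ y in Icc b (b + 1), (f1 x y ^ 2 + f2 x y ^ 2) := by
  have hv := var2 hf (isCompact_Icc (a := a) (b := a + 1)) (isCompact_Icc (a := b) (b := b + 1))
    (vol_Icc a) (vol_Icc b)
  refine hv.trans ?_
  have c1' : Continuous (Function.uncurry fun x y => f1 x y ^ 2) := c1.pow 2
  have c2' : Continuous (Function.uncurry fun x y => f2 x y ^ 2) := c2.pow 2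
  have c1x : ∀ x, Continuous (f1 x) := fun x => c1.comp (Continuous.prodMk_right x)
  have c2x : ∀ x, Continuous (f2 x) := fun x => c2.comp (Continuous.prodMk_right x)
  have c1y : ∀ y, Continuous (fun x => f1 x y) := fun y => c1.comp (Continuous.prodMk_left y)
  have cp1 : Continuous fun x => ∫ y in Icc b (b + 1), f1 x y ^ 2 :=
    continuous_parametric_integral_of_continuous c1' isCompact_Icc
  have cp2 : Continuous fun x => ∫ y in Icc b (b + 1), f2 x y ^ 2 :=
    continuous_parametric_integral_of_continuous c2' isCompact_Icc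
  have e : ∫ x in Icc a (a + 1), ∫ y in Icc b (b + 1), (f1 x y ^ 2 + f2 x y ^ 2) =
      (∫ x in Icc a (a + 1), ∫ y in Icc b (b + 1), f1 x y ^ 2) +
      ∫ x in Icc a (a + 1), ∫ y in Icc b (b + 1), f2 x y ^ 2 := by
    rw [← integral_add (int_of_cont isCompact_Icc cp1) (int_of_cont isCompact_Icc cp2)]
    congr 1
    funext x
    exact integral_add (int_of_cont isCompact_Icc ((c1x x).pow 2))
      (int_of_cont isCompact_Icc ((c2x x).pow 2))
  have hsw : ∫ x in Icc a (a + 1), ∫ y in Icc b (b + 1), f1 x y ^ 2 =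
      ∫ y in Icc b (b + 1), ∫ x in Icc a (a + 1), f1 x y ^ 2 := by
    apply integral_integral_swap
    rw [Measure.prod_restrict]
    exact int_of_cont (isCompact_Icc.prod isCompact_Icc) c1'
  rw [e, hsw, mul_add, add_comm]
  have hsw' : Continuous (Function.uncurry fun y x => f x y) := hf.comp continuous_swap
  have c1s : Continuous (Function.uncurry fun y x => f1 x y ^ 2) := c1'.comp continuous_swap
  have hsw2 : Continuous (Function.uncurry fun y x => f x y ^ 2) := hsw'.pow 2
  have hf2 : Continuous (Function.uncurry fun x y => f x y ^ 2) := hf.pow 2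
  apply add_le_add
  · rw [← integral_const_mul]
    apply integral_mono
    · apply int_of_cont isCompact_Icc
      apply Continuous.sub
      · exact continuous_parametric_integral_of_continuous (f := fun y x => f x y ^ 2)
          hsw2 isCompact_Icc
      · exact (continuous_parametric_integral_of_continuous hsw' isCompact_Icc).pow 2
    · apply int_of_cont isCompact_Icc
      exact continuous_const.mul
        (continuous_parametric_integral_of_continuous (f := fun y x => f1 x y ^ 2) c1s isCompact_Icc)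
    · intro y
      exact poinc1 a (fun x => h1 x y) (c1y y)
  · rw [← integral_const_mul]
    apply integral_mono
    · apply int_of_cont isCompact_Icc
      apply Continuous.sub
      · exact continuous_parametric_integral_of_continuous (f := fun x y => f x y ^ 2)
          hf2 isCompact_Icc
      · exact (continuous_parametric_integral_of_continuous hf isCompact_Icc).pow 2
    · exact int_of_cont isCompact_Icc (continuous_const.mul cp2)
    · intro x
      exact poinc1 b (fun y => h2 x y) (c2x x)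

/-- Iterated integral over a unit cube. -/
noncomputable def J (a : ℝ) (F : ℝ → ℝ → ℝ → ℝ) : ℝ :=
  ∫ x in Icc a (a + 1), ∫ y in Icc (0 : ℝ) (0 + 1), ∫ z in Icc (0 : ℝ) (0 + 1), F x y z

/-- Three variables. -/
theorem poinc3 (a : ℝ) {f f1 f2 f3 : ℝ → ℝ → ℝ → ℝ}
    (hf : Continuous fun p : ℝ × ℝ × ℝ => f p.1 p.2.1 p.2.2)
    (h1 : ∀ x y z, HasDerivAt (fun x => f x y z) (f1 x y z) x)
    (h2 : ∀ x y z, HasDerivAt (fun y => f x y z) (f2 x y z) y)
    (h3 : ∀ x y z, HasDerivAt (fun z => f x y z) (f3 x y z) z)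
    (c1 : Continuous fun p : ℝ × ℝ × ℝ => f1 p.1 p.2.1 p.2.2)
    (c2 : Continuous fun p : ℝ × ℝ × ℝ => f2 p.1 p.2.1 p.2.2)
    (c3 : Continuous fun p : ℝ × ℝ × ℝ => f3 p.1 p.2.1 p.2.2) :
    J a (fun x y z => f x y z ^ 2) - J a f ^ 2 ≤
      (1 / 6) * J a (fun x y z => f1 x y z ^ 2 + (f2 x y z ^ 2 + f3 x y z ^ 2)) := by
  set t : Set (ℝ × ℝ) := Icc (0 : ℝ) (0 + 1) ×ˢ Icc (0 : ℝ) (0 + 1) with ht
  have htc : IsCompact t := isCompact_Icc.prod isCompact_Icc
  have ht1 : (volume : Measure (ℝ × ℝ)) t = 1 := by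
    rw [ht, Measure.volume_eq_prod, Measure.prod_prod, vol_Icc, one_mul]
  have conv : ∀ F : ℝ → ℝ → ℝ, Continuous (Function.uncurry F) →
      ∫ p in t, F p.1 p.2 = ∫ y in Icc (0 : ℝ) (0 + 1), ∫ z in Icc (0 : ℝ) (0 + 1), F y z := by
    intro F hF
    rw [ht, Measure.volume_eq_prod]
    exact setIntegral_prod (Function.uncurry F) (hF.continuousOn.integrableOn_compact htc)
  have hx : ∀ {F : ℝ → ℝ → ℝ → ℝ}, (Continuous fun p : ℝ × ℝ × ℝ => F p.1 p.2.1 p.2.2) → ∀ x,
      Continuous (Function.uncurry (F x)) := fun hF x => hF.comp (Continuous.prodMk_right x)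
  have hJ : ∀ {F : ℝ → ℝ → ℝ → ℝ}, (Continuous fun p : ℝ × ℝ × ℝ => F p.1 p.2.1 p.2.2) →
      J a F = ∫ x in Icc a (a + 1), ∫ p in t, F x p.1 p.2 := by
    intro F hF
    unfold J
    congr 1
    funext x
    exact (conv _ (hx hF x)).symm
  have hq : ∀ {F : ℝ → ℝ → ℝ → ℝ}, (Continuous fun p : ℝ × ℝ × ℝ => F p.1 p.2.1 p.2.2) →
      Continuous fun p : ℝ × ℝ × ℝ => F p.1 p.2.1 p.2.2 ^ 2 := fun hF => hF.pow 2
  have hpar : ∀ {F : ℝ → ℝ → ℝ → ℝ}, (Continuous fun p : ℝ × ℝ × ℝ => F p.1 p.2.1 p.2.2) →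
      Continuous fun x => ∫ p in t, F x p.1 p.2 := fun {F} hF =>
    continuous_parametric_integral_of_continuous (f := fun (x : ℝ) (p : ℝ × ℝ) => F x p.1 p.2)
      hF htc
  have hpar' : ∀ {F : ℝ → ℝ → ℝ → ℝ}, (Continuous fun p : ℝ × ℝ × ℝ => F p.1 p.2.1 p.2.2) →
      Continuous fun p : ℝ × ℝ => ∫ x in Icc a (a + 1), F x p.1 p.2 := fun {F} hF =>
    continuous_parametric_integral_of_continuous (f := fun (p : ℝ × ℝ) (x : ℝ) => F x p.1 p.2)
      (hF.comp continuous_swap) isCompact_Icc
  have hv := var2 (f := fun (x : ℝ) (p : ℝ × ℝ) => f x p.1 p.2) hf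
    (isCompact_Icc (a := a) (b := a + 1)) htc (vol_Icc a) ht1
  rw [hJ hf, hJ (F := fun x y z => f x y z ^ 2) (hq hf)]
  refine hv.trans ?_
  have hc23 : Continuous fun p : ℝ × ℝ × ℝ => f2 p.1 p.2.1 p.2.2 ^ 2 + f3 p.1 p.2.1 p.2.2 ^ 2 :=
    (hq c2).add (hq c3)
  have hc123 : Continuous fun p : ℝ × ℝ × ℝ => f1 p.1 p.2.1 p.2.2 ^ 2 +
      (f2 p.1 p.2.1 p.2.2 ^ 2 + f3 p.1 p.2.1 p.2.2 ^ 2) := (hq c1).add hc23
  have e : J a (fun x y z => f1 x y z ^ 2 + (f2 x y z ^ 2 + f3 x y z ^ 2)) =
      (∫ x in Icc a (a + 1), ∫ p in t, f1 x p.1 p.2 ^ 2) +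
      ∫ x in Icc a (a + 1), ∫ p in t, (f2 x p.1 p.2 ^ 2 + f3 x p.1 p.2 ^ 2) := by
    rw [hJ hc123]
    rw [← integral_add (int_of_cont isCompact_Icc (hpar (F := fun x y z => f1 x y z ^ 2) (hq c1)))
      (int_of_cont isCompact_Icc (hpar (F := fun x y z => f2 x y z ^ 2 + f3 x y z ^ 2) hc23))]
    congr 1
    funext x
    exact integral_add (int_of_cont htc (hx (F := fun x y z => f1 x y z ^ 2) (hq c1) x))
      (int_of_cont htc (hx (F := fun x y z => f2 x y z ^ 2 + f3 x y z ^ 2) hc23 x))
  have hsw : ∫ x in Icc a (a + 1), ∫ p in t, f1 x p.1 p.2 ^ 2 =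
      ∫ p in t, ∫ x in Icc a (a + 1), f1 x p.1 p.2 ^ 2 := by
    apply integral_integral_swap
    rw [Measure.prod_restrict]
    exact int_of_cont (isCompact_Icc.prod htc) (hq c1)
  rw [e, hsw, mul_add, add_comm]
  apply add_le_add
  · rw [← integral_const_mul]
    apply integral_mono
    · apply int_of_cont htc
      exact (hpar' (F := fun x y z => f x y z ^ 2) (hq hf)).sub ((hpar' hf).pow 2)
    · apply int_of_cont htc
      exact continuous_const.mul (hpar' (F := fun x y z => f1 x y z ^ 2) (hq c1))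
    · intro p
      exact poinc1 a (fun x => h1 x p.1 p.2)
        (c1.comp (Continuous.prodMk_left (p : ℝ × ℝ)))
  · rw [← integral_const_mul]
    apply integral_mono
    · apply int_of_cont isCompact_Icc
      exact (hpar (F := fun x y z => f x y z ^ 2) (hq hf)).sub ((hpar hf).pow 2)
    · apply int_of_cont isCompact_Icc
      exact continuous_const.mul (hpar (F := fun x y z => f2 x y z ^ 2 + f3 x y z ^ 2) hc23)
    · intro x
      have := poinc2 0 0 (hx hf x) (fun y z => h2 x y z) (fun y z => h3 x y z) (hx c2 x) (hx c3 x)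
      simp only
      rw [conv _ (hx hf x), conv (fun y z => f x y z ^ 2) (hx (F := fun x y z => f x y z ^ 2) (hq hf) x),
        conv (fun y z => f2 x y z ^ 2 + f3 x y z ^ 2)
          (hx (F := fun x y z => f2 x y z ^ 2 + f3 x y z ^ 2) hc23 x)]
      exact this

end Pool.Agent.V1187.NB
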