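import Pool.Agent.V1187.NBox1

/-!
# Neumann eigenvalues by the min-max principle
-/

set_option autoImplicit false

open Set MeasureTheory Filter Topology

namespace Pool.Agent.V1187.NB

/-- The Rayleigh quotient of `u` on `Ω`. -/
noncomputable def rayleigh {d : ℕ} (Ω : Set (EuclideanSpace ℝ (Fin d)))
    (u : EuclideanSpace ℝ (Fin d) → ℝ) : ℝ :=
  (∫ x in Ω, ‖gradient u x‖ ^ 2) / ∫ x in Ω, u x ^ 2

/-- `V` is an `n`-dimensional space of `C¹` functions on the whole space, none of which, except `0`,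
vanishes identically on `Ω`. -/
structure IsTrial {d : ℕ} (Ω : Set (EuclideanSpace ℝ (Fin d))) (n : ℕ)
    (V : Submodule ℝ (EuclideanSpace ℝ (Fin d) → ℝ)) : Prop where
  finrank : Module.finrank ℝ V = n
  smooth : ∀ u ∈ V, ContDiff ℝ 1 u
  nonzero : ∀ u ∈ V, u ≠ 0 → ∃ x ∈ Ω, u x ≠ 0

/-- The Neumann eigenvalue `μ_k(Ω)`, `k = 0, 1, 2, …`, of a bounded convex domain. -/
noncomputable def mu {d : ℕ} (k : ℕ) (Ω : Set (EuclideanSpace ℝ (Fin d))) : ENNReal :=
  ⨅ (V : Submodule ℝ (EuclideanSpace ℝ (Fin d) → ℝ)) (_ : IsTrial Ω (k + 1) V),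
    ⨆ (u : EuclideanSpace ℝ (Fin d) → ℝ) (_ : u ∈ V ∧ u ≠ 0), ENNReal.ofReal (rayleigh Ω u)

/-- Bounded convex domains. -/
def IsConvexDomain {d : ℕ} (Ω : Set (EuclideanSpace ℝ (Fin d))) : Prop :=
  Ω.Nonempty ∧ IsOpen Ω ∧ Convex ℝ Ω ∧ Bornology.IsBounded Ω

/-- The infimum of `μ_k(Ω₁) / μ_k(Ω₂)` over all bounded convex domains `Ω₁ ⊆ Ω₂` in `ℝ^d`. -/
noncomputable def alpha (k d : ℕ) : ENNReal :=
  ⨅ (Ω₁ : Set (EuclideanSpace ℝ (Fin d))) (Ω₂ : Set (EuclideanSpace ℝ (Fin d)))
    (_ : IsConvexDomain Ω₁ ∧ IsConvexDomain Ω₂ ∧ Ω₁ ⊆ Ω₂), mu k Ω₁ / mu k Ω₂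

section general

variable {d : ℕ} {Ω : Set (EuclideanSpace ℝ (Fin d))}

theorem intOn {Y : Type*} [NormedAddCommGroup Y] (hb : Bornology.IsBounded Ω)
    {f : EuclideanSpace ℝ (Fin d) → Y} (hf : Continuous f) : Integrable f (volume.restrict Ω) :=
  (hf.continuousOn.integrableOn_compact hb.isCompact_closure).mono_set subset_closure

theorem cont_gradient {u : EuclideanSpace ℝ (Fin d) → ℝ} (h : ContDiff ℝ 1 u) :
    Continuous (gradient u) := by
  have h1 : Continuous (fderiv ℝ u) := h.continuous_fderiv (by simp)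
  exact (InnerProductSpace.toDual ℝ (EuclideanSpace ℝ (Fin d))).symm.continuous.comp h1

theorem gradient_sum {ι : Type*} [Fintype ι] {φ : ι → EuclideanSpace ℝ (Fin d) → ℝ}
    (hφ : ∀ i, ContDiff ℝ 1 (φ i)) (c : ι → ℝ) (x : EuclideanSpace ℝ (Fin d)) :
    gradient (∑ i, c i • φ i) x = ∑ i, c i • gradient (φ i) x := by
  have h : HasGradientAt (∑ i, c i • φ i) (∑ i, c i • gradient (φ i) x) x := by
    rw [hasGradientAt_iff_hasFDerivAt, map_sum]
    have : HasFDerivAt (∑ i, c i • φ i) (∑ i, c i • fderiv ℝ (φ i) x) x := by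
      apply HasFDerivAt.sum
      intro i _
      exact (((hφ i).differentiable (by simp)) x).hasFDerivAt.const_smul (c i)
    refine this.congr_fderiv ?_
    refine Finset.sum_congr rfl fun i _ => ?_
    ext v
    simp [inner_smul_left, inner_gradient_left]
  exact h.gradient

/-- Upper bounds from orthogonal families. -/
theorem mu_le {k : ℕ} (hb : Bornology.IsBounded Ω) {ι : Type*} [Fintype ι] [DecidableEq ι]
    (hι : Fintype.card ι = k + 1) {φ : ι → EuclideanSpace ℝ (Fin d) → ℝ}
    (hφ : ∀ i, ContDiff ℝ 1 (φ i)) (h0 : ∀ i j, i ≠ j → ∫ x in Ω, φ i x * φ j x = 0)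
    (h1 : ∀ i j, i ≠ j → ∫ x in Ω, inner ℝ (gradient (φ i) x) (gradient (φ j) x) = (0 : ℝ))
    (hp : ∀ i, 0 < ∫ x in Ω, φ i x ^ 2) {R : ℝ}
    (hR : ∀ i, ∫ x in Ω, ‖gradient (φ i) x‖ ^ 2 ≤ R * ∫ x in Ω, φ i x ^ 2) :
    mu k Ω ≤ ENNReal.ofReal R := by
  have hc : ∀ i, Continuous (φ i) := fun i => (hφ i).continuous
  have hg : ∀ i, Continuous (gradient (φ i)) := fun i => cont_gradient (hφ i)
  have f0 : ∀ c : ι → ℝ, ∫ x in Ω, (∑ i, c i • φ i) x ^ 2 = ∑ i, c i ^ 2 * ∫ x in Ω, φ i x ^ 2 := by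
    intro c
    have e : ∀ x, (∑ i, c i • φ i) x ^ 2 = ∑ i, ∑ j, c i * c j * (φ i x * φ j x) := by
      intro x
      rw [Finset.sum_apply, sq, Finset.sum_mul_sum]
      refine Finset.sum_congr rfl fun i _ => Finset.sum_congr rfl fun j _ => ?_
      simp only [Pi.smul_apply, smul_eq_mul]
      ring
    simp only [e]
    have hi : ∀ i j, Integrable (fun x => c i * c j * (φ i x * φ j x)) (volume.restrict Ω) :=
      fun i j => intOn hb (continuous_const.mul ((hc i).mul (hc j)))
    rw [integral_finsetSum _ (fun i _ => integrable_finsetSum _ fun j _ => hi i j)]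
    refine Finset.sum_congr rfl fun i _ => ?_
    rw [integral_finsetSum _ (fun j _ => hi i j), Finset.sum_eq_single i]
    · rw [integral_const_mul]
      simp only [← sq]
    · intro j _ hj
      rw [integral_const_mul, h0 i j hj.symm, mul_zero]
    · simp
  have f1 : ∀ c : ι → ℝ, ∫ x in Ω, ‖gradient (∑ i, c i • φ i) x‖ ^ 2 =
      ∑ i, c i ^ 2 * ∫ x in Ω, ‖gradient (φ i) x‖ ^ 2 := by
    intro c
    have e : ∀ x, ‖gradient (∑ i, c i • φ i) x‖ ^ 2 =
        ∑ i, ∑ j, c i * c j * (inner ℝ (gradient (φ i) x) (gradient (φ j) x) : ℝ) := by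
      intro x
      rw [gradient_sum hφ, ← real_inner_self_eq_norm_sq, sum_inner]
      refine Finset.sum_congr rfl fun i _ => ?_
      rw [inner_sum]
      refine Finset.sum_congr rfl fun j _ => ?_
      rw [inner_smul_left, inner_smul_right]
      simp only [conj_trivial]
      ring
    simp only [e]
    have hi : ∀ i j, Integrable (fun x => c i * c j *
        (inner ℝ (gradient (φ i) x) (gradient (φ j) x) : ℝ)) (volume.restrict Ω) :=
      fun i j => intOn hb (continuous_const.mul ((hg i).inner (hg j)))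
    rw [integral_finsetSum _ (fun i _ => integrable_finsetSum _ fun j _ => hi i j)]
    refine Finset.sum_congr rfl fun i _ => ?_
    rw [integral_finsetSum _ (fun j _ => hi i j), Finset.sum_eq_single i]
    · rw [integral_const_mul]
      simp only [real_inner_self_eq_norm_sq]
      ring
    · intro j _ hj
      rw [integral_const_mul, h1 i j hj.symm, mul_zero]
    · simp
  have hpos : ∀ c : ι → ℝ, c ≠ 0 → 0 < ∫ x in Ω, (∑ i, c i • φ i) x ^ 2 := by
    intro c hc0
    rw [f0]
    obtain ⟨i, hi⟩ := Function.ne_iff.1 hc0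
    refine Finset.sum_pos' (fun j _ => mul_nonneg (sq_nonneg _) (hp j).le) ⟨i, Finset.mem_univ _, ?_⟩
    have : 0 < c i ^ 2 := by
      have : c i ≠ 0 := hi
      positivity
    exact mul_pos this (hp i)
  have hli : LinearIndependent ℝ φ := by
    rw [Fintype.linearIndependent_iff]
    intro c hc0 i
    by_contra hi
    have h2 := hpos c fun h => hi (by rw [h]; rfl)
    rw [hc0] at h2
    simp at h2
  have hV : IsTrial Ω (k + 1) (Submodule.span ℝ (Set.range φ)) := by
    refine ⟨?_, ?_, ?_⟩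
    · rw [finrank_span_eq_card hli, hι]
    · intro u hu
      obtain ⟨c, rfl⟩ := (Submodule.mem_span_range_iff_exists_fun ℝ).1 hu
      have : (∑ i, c i • φ i) = fun x => ∑ i, c i * φ i x := by
        funext x
        simp [Finset.sum_apply]
      rw [this]
      exact ContDiff.sum fun i _ => contDiff_const.mul (hφ i)
    · intro u hu hu0
      obtain ⟨c, rfl⟩ := (Submodule.mem_span_range_iff_exists_fun ℝ).1 hu
      have hc0 : c ≠ 0 := by
        rintro rfl
        apply hu0
        simp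
      have h2 := hpos c hc0
      by_contra hcon
      push Not at hcon
      have h3 : ∫ x in Ω, (∑ i, c i • φ i) x ^ 2 = 0 := by
        have : ∀ᵐ x ∂(volume.restrict Ω), (∑ i, c i • φ i) x ^ 2 = 0 := by
          have hcl : ∀ x ∈ closure Ω, (∑ i, c i • φ i) x = 0 := by
            have hcont : Continuous (∑ i, c i • φ i) := by
              have : (∑ i, c i • φ i) = fun x => ∑ i, c i * φ i x := by
                funext x
                simp [Finset.sum_apply]
              rw [this]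
              fun_prop
            intro x hx
            exact (isClosed_eq hcont continuous_const).closure_subset_iff.2
              (fun y hy => hcon y hy) hx
          have h4 := ae_restrict_mem₀ (μ := volume)
            (isClosed_closure (s := Ω)).measurableSet.nullMeasurableSet
          have h5 : ∀ᵐ x ∂(volume.restrict Ω), x ∈ closure Ω :=
            ae_mono (Measure.restrict_mono subset_closure le_rfl) h4
          filter_upwards [h5] with x hx
          rw [hcl x hx]
          norm_num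
        rw [integral_congr_ae this]
        simp
      rw [h3] at h2
      exact lt_irrefl _ h2
  refine (iInf₂_le _ hV).trans ?_
  refine iSup₂_le fun u hu => ?_
  obtain ⟨hu, hu0⟩ := hu
  obtain ⟨c, rfl⟩ := (Submodule.mem_span_range_iff_exists_fun ℝ).1 hu
  have hc0 : c ≠ 0 := by
    rintro rfl
    apply hu0
    simp
  apply ENNReal.ofReal_le_ofReal
  unfold rayleigh
  rw [div_le_iff₀ (hpos c hc0), f1, f0, Finset.mul_sum]
  apply Finset.sum_le_sum
  intro i _
  have := mul_le_mul_of_nonneg_left (hR i) (sq_nonneg (c i))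
  linarith

/-- Lower bounds from a partition. -/
theorem le_mu {k : ℕ} (ho : IsOpen Ω) (hb : Bornology.IsBounded Ω)
    {S : Fin k → Set (EuclideanSpace ℝ (Fin d))} (hSm : ∀ i, MeasurableSet (S i))
    (hdisj : Pairwise (Function.onFun Disjoint S)) (hU : ⋃ i, S i = Ω) {c : ℝ}
    (hc : ∀ i, ∀ u, ContDiff ℝ 1 u → ∫ x in S i, u x = 0 →
      c * ∫ x in S i, u x ^ 2 ≤ ∫ x in S i, ‖gradient u x‖ ^ 2) :
    ENNReal.ofReal c ≤ mu k Ω := by
  have hbS : ∀ i, Bornology.IsBounded (S i) := fun i => hb.subset (by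
    rw [← hU]; exact Set.subset_iUnion S i)
  refine le_iInf₂ fun V hV => ?_
  let L : V →ₗ[ℝ] (Fin k → ℝ) :=
    { toFun := fun u i => ∫ x in S i, (u : EuclideanSpace ℝ (Fin d) → ℝ) x
      map_add' := by
        intro u v
        funext i
        simp only [Submodule.coe_add, Pi.add_apply]
        exact integral_add (intOn (hbS i) (hV.smooth u u.2).continuous)
          (intOn (hbS i) (hV.smooth v v.2).continuous)
      map_smul' := by
        intro a u
        funext i
        simp only [Submodule.coe_smul, Pi.smul_apply, RingHom.id_apply, smul_eq_mul]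
        exact integral_const_mul _ _ }
  haveI : FiniteDimensional ℝ V := Module.finite_of_finrank_pos (by rw [hV.finrank]; omega)
  have hker : LinearMap.ker L ≠ ⊥ := by
    apply LinearMap.ker_ne_bot_of_finrank_lt
    rw [hV.finrank, Module.finrank_fin_fun]
    omega
  obtain ⟨u, hu, hu0⟩ := Submodule.exists_mem_ne_zero_of_ne_bot hker
  have hu1 : (u : EuclideanSpace ℝ (Fin d) → ℝ) ≠ 0 := fun h => hu0 (Subtype.ext h)
  have hC := hV.smooth u u.2
  have hzero : ∀ i, ∫ x in S i, (u : EuclideanSpace ℝ (Fin d) → ℝ) x = 0 := fun i =>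
    congrFun (LinearMap.mem_ker.1 hu) i
  refine le_trans ?_ (le_iSup₂ (f := fun (u : EuclideanSpace ℝ (Fin d) → ℝ)
    (_ : u ∈ V ∧ u ≠ 0) => ENNReal.ofReal (rayleigh Ω u)) (u : EuclideanSpace ℝ (Fin d) → ℝ)
    ⟨u.2, hu1⟩)
  apply ENNReal.ofReal_le_ofReal
  -- positivity
  have hpos : 0 < ∫ x in Ω, (u : EuclideanSpace ℝ (Fin d) → ℝ) x ^ 2 := by
    obtain ⟨x₀, hx₀, hne⟩ := hV.nonzero u u.2 hu1
    rw [setIntegral_pos_iff_support_of_nonneg_ae (Eventually.of_forall fun x => sq_nonneg _)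
      (intOn hb (hC.continuous.pow 2))]
    have hopen : IsOpen ((Function.support fun x => (u : EuclideanSpace ℝ (Fin d) → ℝ) x ^ 2) ∩ Ω) :=
      (hC.continuous.pow 2).isOpen_support.inter ho
    exact hopen.measure_pos _ ⟨x₀, by simpa using hne, hx₀⟩
  unfold rayleigh
  rw [le_div_iff₀ hpos]
  have hsum : ∀ F : EuclideanSpace ℝ (Fin d) → ℝ, Continuous F →
      ∫ x in Ω, F x = ∑ i, ∫ x in S i, F x := by
    intro F hF
    rw [← hU]
    exact integral_iUnion_fintype hSm hdisj fun i => intOn (hbS i) hF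
  rw [hsum (fun x => (u : EuclideanSpace ℝ (Fin d) → ℝ) x ^ 2) (hC.continuous.pow 2),
    hsum (fun x => ‖gradient (u : EuclideanSpace ℝ (Fin d) → ℝ) x‖ ^ 2)
      ((cont_gradient hC).norm.pow 2), Finset.mul_sum]
  exact Finset.sum_le_sum fun i _ => hc i _ hC (hzero i)

end general

end Pool.Agent.V1187.NB
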