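import Pool.Agent.V1187.NBox2

/-!
# Boxes in three dimensions
-/

set_option autoImplicit false

open Set MeasureTheory Filter Topology

namespace Pool.Agent.V1187.NB

/-- coordinates -/
noncomputable def pt (a b c : ℝ) : EuclideanSpace ℝ (Fin 3) := !₂[a, b, c]

theorem pt_zero (a b c : ℝ) : pt a b c 0 = a := rfl
theorem pt_one (a b c : ℝ) : pt a b c 1 = b := rfl
theorem pt_two (a b c : ℝ) : pt a b c 2 = c := rfl

/-- The measurable equivalence between `ℝ × ℝ × ℝ` and the Euclidean space. -/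
noncomputable def eqv : ℝ × ℝ × ℝ ≃ᵐ EuclideanSpace ℝ (Fin 3) :=
  (((MeasurableEquiv.refl ℝ).prodCongr (MeasurableEquiv.finTwoArrow (α := ℝ)).symm).trans
    (MeasurableEquiv.piFinSuccAbove (fun _ : Fin 3 => ℝ) 0).symm).trans
    (MeasurableEquiv.toLp 2 (Fin 3 → ℝ))

theorem eqv_apply (a b c : ℝ) : eqv (a, b, c) = pt a b c := by
  ext i
  fin_cases i <;> rfl

theorem eqv_mp : MeasurePreserving eqv volume volume := by
  have h1 : MeasurePreserving ((MeasurableEquiv.refl ℝ).prodCongr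
      (MeasurableEquiv.finTwoArrow (α := ℝ)).symm) volume volume :=
    (MeasurePreserving.id (volume : Measure ℝ)).prod (volume_preserving_finTwoArrow ℝ).symm
  have h2 : MeasurePreserving (MeasurableEquiv.piFinSuccAbove (fun _ : Fin 3 => ℝ) 0).symm
      volume volume := (volume_preserving_piFinSuccAbove (fun _ : Fin 3 => ℝ) 0).symm
  have h3 : MeasurePreserving (MeasurableEquiv.toLp 2 (Fin 3 → ℝ)) volume volume :=
    PiLp.volume_preserving_toLp (Fin 3)
  exact h3.comp (h2.comp h1)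

/-- a box -/
def box (I₀ I₁ I₂ : Set ℝ) : Set (EuclideanSpace ℝ (Fin 3)) :=
  {x | x 0 ∈ I₀ ∧ x 1 ∈ I₁ ∧ x 2 ∈ I₂}

theorem eqv_preimage (I₀ I₁ I₂ : Set ℝ) : eqv ⁻¹' box I₀ I₁ I₂ = I₀ ×ˢ (I₁ ×ˢ I₂) := by
  ext ⟨a, b, c⟩
  simp only [mem_preimage, eqv_apply, box, mem_setOf_eq, mem_prod, pt_zero, pt_one, pt_two]

theorem measurableSet_box {I₀ I₁ I₂ : Set ℝ} (h₀ : MeasurableSet I₀) (h₁ : MeasurableSet I₁)
    (h₂ : MeasurableSet I₂) : MeasurableSet (box I₀ I₁ I₂) := by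
  rw [← eqv.measurableSet_preimage, eqv_preimage]
  exact h₀.prod (h₁.prod h₂)

theorem pt_cont : Continuous fun p : ℝ × ℝ × ℝ => pt p.1 p.2.1 p.2.2 := by
  unfold pt
  apply (PiLp.continuous_toLp 2 _).comp
  apply continuous_pi
  intro i
  fin_cases i
  · exact continuous_fst
  · exact continuous_fst.comp continuous_snd
  · exact continuous_snd.comp continuous_snd

theorem box_integral {I₀ I₁ I₂ : Set ℝ} (b₀ : Bornology.IsBounded I₀) (b₁ : Bornology.IsBounded I₁)
    (b₂ : Bornology.IsBounded I₂) {f : EuclideanSpace ℝ (Fin 3) → ℝ} (hf : Continuous f) :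
    ∫ x in box I₀ I₁ I₂, f x = ∫ a in I₀, ∫ b in I₁, ∫ c in I₂, f (pt a b c) := by
  have h1 := eqv_mp.setIntegral_preimage_emb eqv.measurableEmbedding f (box I₀ I₁ I₂)
  rw [← h1, eqv_preimage]
  have hc : Continuous fun p : ℝ × ℝ × ℝ => f (pt p.1 p.2.1 p.2.2) := hf.comp pt_cont
  have e : ∀ p : ℝ × ℝ × ℝ, f (eqv p) = f (pt p.1 p.2.1 p.2.2) := by
    rintro ⟨a, b, c⟩
    rw [eqv_apply]
  simp only [e]
  have i1 : IntegrableOn (fun p : ℝ × ℝ × ℝ => f (pt p.1 p.2.1 p.2.2)) (I₀ ×ˢ (I₁ ×ˢ I₂))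
      (volume.prod volume) :=
    (hc.continuousOn.integrableOn_compact
      (b₀.prod (b₁.prod b₂)).isCompact_closure).mono_set subset_closure
  rw [Measure.volume_eq_prod, setIntegral_prod _ i1]
  congr 1
  funext a
  have hc2 : Continuous fun p : ℝ × ℝ => f (pt a p.1 p.2) :=
    hc.comp (Continuous.prodMk_right a)
  have i2 : IntegrableOn (fun p : ℝ × ℝ => f (pt a p.1 p.2)) (I₁ ×ˢ I₂)
      ((volume : Measure ℝ).prod volume) :=
    (hc2.continuousOn.integrableOn_compact (b₁.prod b₂).isCompact_closure).mono_set subset_closure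
  rw [Measure.volume_eq_prod]
  exact setIntegral_prod _ i2

theorem box_congr {I₀ I₁ I₂ J₀ J₁ J₂ : Set ℝ} (h₀ : I₀ =ᵐ[volume] J₀) (h₁ : I₁ =ᵐ[volume] J₁)
    (h₂ : I₂ =ᵐ[volume] J₂) (f : ℝ → ℝ → ℝ → ℝ) :
    ∫ a in I₀, ∫ b in I₁, ∫ c in I₂, f a b c = ∫ a in J₀, ∫ b in J₁, ∫ c in J₂, f a b c := by
  rw [setIntegral_congr_set h₀]
  congr 1
  funext a
  rw [setIntegral_congr_set h₁]
  congr 1
  funext b
  rw [setIntegral_congr_set h₂]

/-- Partial derivatives along the coordinates. -/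
theorem hasDerivAt_pt {u : EuclideanSpace ℝ (Fin 3) → ℝ} (hu : ContDiff ℝ 1 u) (a b c : ℝ) :
    HasDerivAt (fun t => u (pt t b c)) (gradient u (pt a b c) 0) a ∧
    HasDerivAt (fun t => u (pt a t c)) (gradient u (pt a b c) 1) b ∧
    HasDerivAt (fun t => u (pt a b t)) (gradient u (pt a b c) 2) c := by
  have hd : HasFDerivAt u (fderiv ℝ u (pt a b c)) (pt a b c) :=
    ((hu.differentiable (by simp)) _).hasFDerivAt
  have hin : ∀ i, fderiv ℝ u (pt a b c) (EuclideanSpace.single i 1) = gradient u (pt a b c) i := by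
    intro i
    have hb : ∀ y : EuclideanSpace ℝ (Fin 3), inner ℝ y (EuclideanSpace.single i (1 : ℝ)) = y i := by
      intro y
      simp [EuclideanSpace.inner_single_right]
    rw [← inner_gradient_left, hb]
  have line : ∀ (i : Fin 3) (γ : ℝ → EuclideanSpace ℝ (Fin 3)) (t₀ : ℝ),
      (∀ t, γ t = pt a b c + (t - t₀) • EuclideanSpace.single i (1 : ℝ)) →
      HasDerivAt (fun t => u (γ t)) (gradient u (pt a b c) i) t₀ := by
    intro i γ t₀ hγ
    have h1 : HasDerivAt γ (EuclideanSpace.single i (1 : ℝ)) t₀ := by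
      have : γ = fun t => pt a b c + (t - t₀) • EuclideanSpace.single i (1 : ℝ) := funext hγ
      rw [this]
      have h2 := (((hasDerivAt_id t₀).sub_const t₀).smul_const
        (EuclideanSpace.single i (1 : ℝ) : EuclideanSpace ℝ (Fin 3))).const_add (pt a b c)
      simpa using h2
    have h0 : γ t₀ = pt a b c := by rw [hγ]; simp
    have h3 := (h0.symm ▸ hd : HasFDerivAt u (fderiv ℝ u (pt a b c)) (γ t₀)).comp_hasDerivAt t₀ h1
    rw [hin] at h3
    exact h3
  refine ⟨line 0 _ a fun t => ?_, line 1 _ b fun t => ?_, line 2 _ c fun t => ?_⟩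
  all_goals
    ext i
    fin_cases i <;> simp [pt]

/-- The Poincaré inequality on a unit cube. -/
theorem poinc_box (a : ℝ) {I : Set ℝ} (hI : I =ᵐ[volume] Icc a (a + 1))
    (hIb : Bornology.IsBounded I) {u : EuclideanSpace ℝ (Fin 3) → ℝ} (hu : ContDiff ℝ 1 u)
    (h0 : ∫ x in box I (Ioo 0 1) (Ioo 0 1), u x = 0) :
    6 * ∫ x in box I (Ioo 0 1) (Ioo 0 1), u x ^ 2 ≤
      ∫ x in box I (Ioo 0 1) (Ioo 0 1), ‖gradient u x‖ ^ 2 := by
  have hb : Bornology.IsBounded (Ioo (0 : ℝ) 1) := Metric.isBounded_Ioo 0 1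
  have hIo : (Ioo (0 : ℝ) 1) =ᵐ[volume] Icc (0 : ℝ) (0 + 1) := by
    rw [zero_add]; exact Ioo_ae_eq_Icc
  have conv : ∀ f : EuclideanSpace ℝ (Fin 3) → ℝ, Continuous f →
      ∫ x in box I (Ioo 0 1) (Ioo 0 1), f x = J a fun x y z => f (pt x y z) := by
    intro f hf
    rw [box_integral hIb hb hb hf]
    exact box_congr hI hIo hIo _
  have hgc := cont_gradient hu
  rw [conv _ hu.continuous] at h0
  rw [conv (fun x => u x ^ 2) (hu.continuous.pow 2), conv (fun x => ‖gradient u x‖ ^ 2)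
    (hgc.norm.pow 2)]
  have hcg : ∀ i, Continuous fun p : ℝ × ℝ × ℝ => gradient u (pt p.1 p.2.1 p.2.2) i := by
    intro i
    have h1 : Continuous fun x : EuclideanSpace ℝ (Fin 3) => gradient u x i :=
      (PiLp.continuous_apply 2 (fun _ : Fin 3 => ℝ) i).comp hgc
    exact h1.comp pt_cont
  have hp := poinc3 a (f := fun x y z => u (pt x y z))
    (f1 := fun x y z => gradient u (pt x y z) 0) (f2 := fun x y z => gradient u (pt x y z) 1)
    (f3 := fun x y z => gradient u (pt x y z) 2) (hu.continuous.comp pt_cont)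
    (fun x y z => (hasDerivAt_pt hu x y z).1) (fun x y z => (hasDerivAt_pt hu x y z).2.1)
    (fun x y z => (hasDerivAt_pt hu x y z).2.2) (hcg 0) (hcg 1) (hcg 2)
  rw [h0] at hp
  have e : ∀ x y z, ‖gradient u (pt x y z)‖ ^ 2 = gradient u (pt x y z) 0 ^ 2 +
      (gradient u (pt x y z) 1 ^ 2 + gradient u (pt x y z) 2 ^ 2) := by
    intro x y z
    rw [EuclideanSpace.norm_sq_eq, Fin.sum_univ_three]
    simp only [Real.norm_eq_abs, sq_abs]
    ring
  simp only [e]
  linarith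

end Pool.Agent.V1187.NB
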