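import Pool.Agent.V1187.NBox3

/-!
# The two domains
-/

set_option autoImplicit false

open Set MeasureTheory Filter Topology

namespace Pool.Agent.V1187.NB

/-- `√2` -/
noncomputable def r2 : ℝ := Real.sqrt 2

theorem r2_pos : 0 < r2 := Real.sqrt_pos.2 (by norm_num)
theorem r2_sq : r2 ^ 2 = 2 := Real.sq_sqrt (by norm_num)
theorem r2_gt : 141 / 100 < r2 := by
  unfold r2
  rw [Real.lt_sqrt (by norm_num)]
  norm_num

/-- The rotation by `45` degrees of the last two coordinates. -/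
noncomputable def rotL : EuclideanSpace ℝ (Fin 3) →ₗ[ℝ] EuclideanSpace ℝ (Fin 3) where
  toFun x := pt (x 0) ((x 1 + x 2) / r2) ((x 2 - x 1) / r2)
  map_add' x y := by
    ext i
    fin_cases i <;> simp [pt] <;> ring
  map_smul' a x := by
    ext i
    fin_cases i <;> simp [pt] <;> ring

theorem rotL_apply (x : EuclideanSpace ℝ (Fin 3)) :
    rotL x = pt (x 0) ((x 1 + x 2) / r2) ((x 2 - x 1) / r2) := rfl

theorem rotL_norm (x : EuclideanSpace ℝ (Fin 3)) : ‖rotL x‖ = ‖x‖ := by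
  rw [← sq_eq_sq₀ (norm_nonneg _) (norm_nonneg _), EuclideanSpace.norm_sq_eq,
    EuclideanSpace.norm_sq_eq, Fin.sum_univ_three, Fin.sum_univ_three, rotL_apply]
  simp only [Real.norm_eq_abs, sq_abs, pt_zero, pt_one, pt_two, div_pow, r2_sq]
  ring

noncomputable def rot : EuclideanSpace ℝ (Fin 3) ≃ₗᵢ[ℝ] EuclideanSpace ℝ (Fin 3) :=
  (⟨rotL, rotL_norm⟩ : EuclideanSpace ℝ (Fin 3) →ₗᵢ[ℝ] EuclideanSpace ℝ (Fin 3)).toLinearIsometryEquiv
    rfl

theorem rot_apply (x : EuclideanSpace ℝ (Fin 3)) :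
    rot x = pt (x 0) ((x 1 + x 2) / r2) ((x 2 - x 1) / r2) := rfl

/-- The rigid motion. -/
noncomputable def T (w : ℝ) (x : EuclideanSpace ℝ (Fin 3)) : EuclideanSpace ℝ (Fin 3) :=
  rot x + pt 0 (-(w / 2)) (w / 2)

theorem T_mp (w : ℝ) : MeasurePreserving (T w) volume volume :=
  (measurePreserving_add_right volume (pt 0 (-(w / 2)) (w / 2))).comp rot.measurePreserving

theorem T_emb (w : ℝ) : MeasurableEmbedding (T w) :=
  (MeasurableEquiv.addRight (pt 0 (-(w / 2)) (w / 2))).measurableEmbedding.comp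
    rot.toHomeomorph.measurableEmbedding

theorem T_cont (w : ℝ) : Continuous (T w) := rot.continuous.add continuous_const

theorem T_integral (w : ℝ) (f : EuclideanSpace ℝ (Fin 3) → ℝ) (s : Set (EuclideanSpace ℝ (Fin 3))) :
    ∫ x in T w '' s, f x = ∫ x in s, f (T w x) :=
  (T_mp w).setIntegral_image_emb (T_emb w) f s

theorem T_gradient (w : ℝ) {u : EuclideanSpace ℝ (Fin 3) → ℝ} (hu : ContDiff ℝ 1 u)
    (x : EuclideanSpace ℝ (Fin 3)) : ‖gradient (fun y => u (T w y)) x‖ = ‖gradient u (T w x)‖ := by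
  have h1 : HasFDerivAt (T w) (rot : EuclideanSpace ℝ (Fin 3) →L[ℝ] EuclideanSpace ℝ (Fin 3)) x :=
    (rot : EuclideanSpace ℝ (Fin 3) →L[ℝ] EuclideanSpace ℝ (Fin 3)).hasFDerivAt.add_const _
  have h2 := ((hu.differentiable (by simp)) (T w x)).hasFDerivAt.comp x h1
  have h3 : HasGradientAt (fun y => u (T w y)) (rot.symm (gradient u (T w x))) x := by
    rw [hasGradientAt_iff_hasFDerivAt]
    refine h2.congr_fderiv ?_
    ext v
    have e : inner ℝ (rot.symm (gradient u (T w x))) v = (inner ℝ (gradient u (T w x)) (rot v) : ℝ) := by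
      rw [← rot.inner_map_map (rot.symm (gradient u (T w x))) v, rot.apply_symm_apply]
    simp only [InnerProductSpace.toDual_apply_apply, ContinuousLinearMap.comp_apply]
    rw [e, inner_gradient_left]
    rfl
  rw [h3.gradient, LinearIsometryEquiv.norm_map]

/-- The outer domain. -/
noncomputable def Om2 (w : ℝ) (k : ℕ) : Set (EuclideanSpace ℝ (Fin 3)) :=
  T w '' box (Ioo (0 : ℝ) k) (Ioo 0 1) (Ioo 0 1)

theorem bounded_box {I₀ I₁ I₂ : Set ℝ} (b₀ : Bornology.IsBounded I₀) (b₁ : Bornology.IsBounded I₁)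
    (b₂ : Bornology.IsBounded I₂) : Bornology.IsBounded (box I₀ I₁ I₂) := by
  obtain ⟨C₀, h₀⟩ := b₀.exists_norm_le
  obtain ⟨C₁, h₁⟩ := b₁.exists_norm_le
  obtain ⟨C₂, h₂⟩ := b₂.exists_norm_le
  rw [isBounded_iff_forall_norm_le]
  refine ⟨Real.sqrt (C₀ ^ 2 + C₁ ^ 2 + C₂ ^ 2), fun x hx => ?_⟩
  apply Real.le_sqrt_of_sq_le
  rw [EuclideanSpace.norm_sq_eq, Fin.sum_univ_three]
  have a₀ := h₀ _ hx.1
  have a₁ := h₁ _ hx.2.1
  have a₂ := h₂ _ hx.2.2
  gcongr

theorem open_box {I₀ I₁ I₂ : Set ℝ} (h₀ : IsOpen I₀) (h₁ : IsOpen I₁) (h₂ : IsOpen I₂) :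
    IsOpen (box I₀ I₁ I₂) := by
  have hc : ∀ i : Fin 3, Continuous fun x : EuclideanSpace ℝ (Fin 3) => x i := fun i =>
    PiLp.continuous_apply 2 (fun _ : Fin 3 => ℝ) i
  exact (h₀.preimage (hc 0)).inter ((h₁.preimage (hc 1)).inter (h₂.preimage (hc 2)))

theorem convex_box {I₀ I₁ I₂ : Set ℝ} (h₀ : Convex ℝ I₀) (h₁ : Convex ℝ I₁) (h₂ : Convex ℝ I₂) :
    Convex ℝ (box I₀ I₁ I₂) := by
  intro x hx y hy a b ha hb hab
  refine ⟨?_, ?_, ?_⟩
  · exact h₀ hx.1 hy.1 ha hb hab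
  · exact h₁ hx.2.1 hy.2.1 ha hb hab
  · exact h₂ hx.2.2 hy.2.2 ha hb hab

theorem domain_box {a b c : ℝ} (ha : 0 < a) (hb : 0 < b) (hc : 0 < c) :
    IsConvexDomain (box (Ioo 0 a) (Ioo 0 b) (Ioo 0 c)) := by
  refine ⟨⟨pt (a / 2) (b / 2) (c / 2), ?_⟩, open_box isOpen_Ioo isOpen_Ioo isOpen_Ioo,
    convex_box (convex_Ioo _ _) (convex_Ioo _ _) (convex_Ioo _ _),
    bounded_box (Metric.isBounded_Ioo _ _) (Metric.isBounded_Ioo _ _) (Metric.isBounded_Ioo _ _)⟩
  refine ⟨?_, ?_, ?_⟩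
  · show a / 2 ∈ Ioo 0 a
    constructor <;> linarith
  · show b / 2 ∈ Ioo 0 b
    constructor <;> linarith
  · show c / 2 ∈ Ioo 0 c
    constructor <;> linarith

theorem T_isometry (w : ℝ) : Isometry (T w) := by
  apply Isometry.of_dist_eq
  intro x y
  unfold T
  rw [dist_add_right, rot.dist_map]

theorem T_open (w : ℝ) {s : Set (EuclideanSpace ℝ (Fin 3))} (hs : IsOpen s) : IsOpen (T w '' s) := by
  have h1 : T w '' s = (fun x => x + pt 0 (-(w / 2)) (w / 2)) '' (rot '' s) := by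
    rw [image_image]
    rfl
  rw [h1]
  exact (Homeomorph.addRight (pt 0 (-(w / 2)) (w / 2))).isOpenMap _
    (rot.toHomeomorph.isOpenMap _ hs)

theorem domain_Om2 (w : ℝ) {k : ℕ} (hk : 0 < k) : IsConvexDomain (Om2 w k) := by
  have hk' : (0 : ℝ) < k := by exact_mod_cast hk
  obtain ⟨h1, h2, h3, h4⟩ := domain_box hk' one_pos one_pos
  refine ⟨h1.image _, T_open w h2, ?_, ?_⟩
  · unfold Om2
    rintro _ ⟨x, hx, rfl⟩ _ ⟨y, hy, rfl⟩ a b ha hb hab
    refine ⟨a • x + b • y, h3 hx hy ha hb hab, ?_⟩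
    unfold T
    rw [map_add, map_smul, map_smul]
    have : a • (pt 0 (-(w / 2)) (w / 2)) + b • (pt 0 (-(w / 2)) (w / 2)) =
        pt 0 (-(w / 2)) (w / 2) := by
      rw [← add_smul, hab, one_smul]
    calc a • rot x + b • rot y + pt 0 (-(w / 2)) (w / 2)
        = a • rot x + b • rot y + (a • (pt 0 (-(w / 2)) (w / 2)) + b • (pt 0 (-(w / 2)) (w / 2))) := by
          rw [this]
      _ = _ := by
          rw [smul_add, smul_add]
          abel
  · have h5 := (T_isometry w).lipschitz.isBounded_image h4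
    exact h5

/-- slabs -/
noncomputable def slab (k i : ℕ) : Set ℝ := Ioc (i : ℝ) (i + 1) ∩ Ioo (0 : ℝ) k

theorem slab_ae {k i : ℕ} (hi : i < k) : slab k i =ᵐ[volume] Icc (i : ℝ) (i + 1) := by
  have h1 : Ioo (i : ℝ) (i + 1) ⊆ slab k i := by
    intro x hx
    have h0 : (0 : ℝ) ≤ i := Nat.cast_nonneg i
    have h2 : (i : ℝ) + 1 ≤ k := by exact_mod_cast hi
    exact ⟨⟨hx.1, hx.2.le⟩, ⟨by linarith [hx.1], by linarith [hx.2]⟩⟩
  have h2 : slab k i ⊆ Icc (i : ℝ) (i + 1) := fun x hx => ⟨hx.1.1.le, hx.1.2⟩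
  have h3 : Ioo (i : ℝ) (i + 1) =ᵐ[volume] Icc (i : ℝ) (i + 1) := Ioo_ae_eq_Icc
  apply EventuallyLE.antisymm
  · exact h2.eventuallyLE
  · exact h3.symm.le.trans h1.eventuallyLE

theorem lower (w : ℝ) {k : ℕ} (hk : 0 < k) : ENNReal.ofReal 6 ≤ mu k (Om2 w k) := by
  obtain ⟨-, ho, -, hb⟩ := domain_Om2 w hk
  have hbs : ∀ i : Fin k, Bornology.IsBounded (slab k i) := fun i =>
    (Metric.isBounded_Ioo (0 : ℝ) k).subset inter_subset_right
  apply le_mu ho hb (S := fun i : Fin k => T w '' box (slab k i) (Ioo 0 1) (Ioo 0 1))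
  · intro i
    exact (T_emb w).measurableSet_image.2 (measurableSet_box
      (measurableSet_Ioc.inter measurableSet_Ioo) measurableSet_Ioo measurableSet_Ioo)
  · intro i j hij
    show Disjoint (T w '' _) (T w '' _)
    rw [disjoint_image_iff (T_emb w).injective]
    rw [Set.disjoint_left]
    rintro x ⟨⟨hx, -⟩, -⟩ ⟨⟨hx', -⟩, -⟩
    rcases lt_or_gt_of_ne (fun h => hij (Fin.ext h) : (i : ℕ) ≠ j) with h | h
    · have : ((i : ℕ) : ℝ) + 1 ≤ ((j : ℕ) : ℝ) := by exact_mod_cast h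
      linarith [hx.2, hx'.1]
    · have : ((j : ℕ) : ℝ) + 1 ≤ ((i : ℕ) : ℝ) := by exact_mod_cast h
      linarith [hx'.2, hx.1]
  · unfold Om2
    rw [← image_iUnion]
    congr 1
    ext x
    simp only [mem_iUnion, box, mem_setOf_eq]
    constructor
    · rintro ⟨i, hx, hy⟩
      exact ⟨hx.2, hy⟩
    · rintro ⟨hx, hy⟩
      have h0 : 0 < ⌈x 0⌉₊ := Nat.ceil_pos.2 hx.1
      have h1 : ⌈x 0⌉₊ ≤ k := Nat.ceil_le.2 hx.2.le
      refine ⟨⟨⌈x 0⌉₊ - 1, by omega⟩, ⟨⟨?_, ?_⟩, hx⟩, hy⟩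
      · show ((⌈x 0⌉₊ - 1 : ℕ) : ℝ) < x 0
        rw [Nat.cast_sub (by omega), Nat.cast_one]
        have := Nat.ceil_lt_add_one hx.1.le
        linarith
      · show x 0 ≤ ((⌈x 0⌉₊ - 1 : ℕ) : ℝ) + 1
        rw [Nat.cast_sub (by omega), Nat.cast_one]
        have := Nat.le_ceil (x 0)
        linarith
  · intro i u hu h0
    rw [T_integral] at h0 ⊢
    rw [T_integral]
    have hv : ContDiff ℝ 1 (fun y => u (T w y)) := by
      apply hu.comp
      exact rot.contDiff.add contDiff_const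
    have := poinc_box (i : ℝ) (slab_ae i.2) (hbs i) hv h0
    simp only [T_gradient w hu] at this
    exact this

/-- the cosine functions -/
noncomputable def co (L : ℝ) (a : ℕ) (t : ℝ) : ℝ := Real.cos (Real.pi * a / L * t)

/-- and their derivatives -/
noncomputable def dc (L : ℝ) (a : ℕ) (t : ℝ) : ℝ := -(Real.pi * a / L) * Real.sin (Real.pi * a / L * t)

theorem co_hasDerivAt (L : ℝ) (a : ℕ) (t : ℝ) : HasDerivAt (co L a) (dc L a t) t := by
  have h1 : HasDerivAt (fun t : ℝ => Real.pi * a / L * t) (Real.pi * a / L) t := by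
    simpa using (hasDerivAt_id t).const_mul (Real.pi * a / L)
  refine h1.cos.congr_deriv ?_
  unfold dc
  ring

theorem dc_hasDerivAt (L : ℝ) (a : ℕ) (t : ℝ) :
    HasDerivAt (dc L a) (-(Real.pi * a / L) ^ 2 * co L a t) t := by
  have h1 : HasDerivAt (fun t : ℝ => Real.pi * a / L * t) (Real.pi * a / L) t := by
    simpa using (hasDerivAt_id t).const_mul (Real.pi * a / L)
  refine (h1.sin.const_mul (-(Real.pi * a / L))).congr_deriv ?_
  unfold co
  ring

theorem co_cont (L : ℝ) (a : ℕ) : Continuous (co L a) :=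
  continuous_iff_continuousAt.2 fun x => (co_hasDerivAt L a x).continuousAt

theorem dc_cont (L : ℝ) (a : ℕ) : Continuous (dc L a) :=
  continuous_iff_continuousAt.2 fun x => (dc_hasDerivAt L a x).continuousAt

theorem co_contDiff (L : ℝ) (a : ℕ) : ContDiff ℝ 1 (co L a) := by
  unfold co
  fun_prop

/-- the Gram matrix -/
noncomputable def gr (L : ℝ) (a b : ℕ) : ℝ := ∫ t in Ioo 0 L, co L a t * co L b t

theorem dc_gram {L : ℝ} (hL : 0 < L) (a b : ℕ) :
    ∫ t in Ioo 0 L, dc L a t * dc L b t = (Real.pi * a / L) ^ 2 * gr L a b := by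
  unfold gr
  rw [← integral_Ioc_eq_integral_Ioo, ← integral_Ioc_eq_integral_Ioo,
    ← intervalIntegral.integral_of_le hL.le, ← intervalIntegral.integral_of_le hL.le]
  have h := intervalIntegral.integral_mul_deriv_eq_deriv_mul (a := 0) (b := L)
    (fun x _ => dc_hasDerivAt L a x) (fun x _ => co_hasDerivAt L b x)
    ((continuous_const.mul (co_cont L a)).intervalIntegrable _ _)
    ((dc_cont L b).intervalIntegrable _ _)
  have e0 : dc L a 0 = 0 := by simp [dc]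
  have e1 : dc L a L = 0 := by
    unfold dc
    have : Real.pi * a / L * L = a * Real.pi := by field_simp
    rw [this, Real.sin_nat_mul_pi, mul_zero]
  rw [h, e0, e1, ← intervalIntegral.integral_const_mul]
  rw [zero_mul, zero_mul, sub_zero, zero_sub, ← intervalIntegral.integral_neg]
  congr 1
  funext x
  ring

theorem gr_symm (L : ℝ) (a b : ℕ) : gr L a b = gr L b a := by
  unfold gr
  congr 1
  funext x
  ring

theorem gr_zero {L : ℝ} (hL : 0 < L) {a b : ℕ} (hab : a ≠ b) : gr L a b = 0 := by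
  have h1 := dc_gram hL a b
  have h2 := dc_gram hL b a
  have h3 : ∫ t in Ioo 0 L, dc L a t * dc L b t = ∫ t in Ioo 0 L, dc L b t * dc L a t := by
    congr 1
    funext x
    ring
  rw [h1, h2, gr_symm L b a] at h3
  have h4 : ((Real.pi * a / L) ^ 2 - (Real.pi * b / L) ^ 2) * gr L a b = 0 := by linarith
  rcases mul_eq_zero.1 h4 with h5 | h5
  · exfalso
    have h6 : (Real.pi * a / L) ^ 2 = (Real.pi * b / L) ^ 2 := by linarith
    have hpi := Real.pi_pos
    rw [sq_eq_sq₀ (by positivity) (by positivity)] at h6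
    have h7 : (a : ℝ) = b := by
      field_simp at h6
      exact h6
    exact hab (by exact_mod_cast h7)
  · exact h5

theorem gr_pos {L : ℝ} (hL : 0 < L) (a : ℕ) : 0 < gr L a a := by
  unfold gr
  have hc : Continuous fun t => co L a t * co L a t := (co_cont L a).mul (co_cont L a)
  rw [setIntegral_pos_iff_support_of_nonneg_ae
    (Eventually.of_forall fun x => mul_self_nonneg _)
    ((hc.continuousOn.integrableOn_compact isCompact_Icc).mono_set Ioo_subset_Icc_self)]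
  have ho : IsOpen ((Function.support fun t => co L a t * co L a t) ∩ Ioo 0 L) :=
    hc.isOpen_support.inter isOpen_Ioo
  refine ho.measure_pos volume ?_
  -- a point near zero
  have h0 : co L a 0 * co L a 0 ≠ 0 := by simp [co]
  have h1 : ∀ᶠ t in 𝓝 (0 : ℝ), co L a t * co L a t ≠ 0 := hc.continuousAt.eventually_ne h0
  have h2 : ∀ᶠ t in 𝓝[>] (0 : ℝ), co L a t * co L a t ≠ 0 := h1.filter_mono nhdsWithin_le_nhds
  have h3 : ∀ᶠ t in 𝓝[>] (0 : ℝ), t ∈ Ioo 0 L := Ioo_mem_nhdsGT hL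
  obtain ⟨t, ht1, ht2⟩ := (h2.and h3).exists
  exact ⟨t, ht1, ht2⟩

/-- the trial functions -/
noncomputable def tri (L ℓ : ℝ) (a b : ℕ) (x : EuclideanSpace ℝ (Fin 3)) : ℝ :=
  co L a (x 0) * co ℓ b (x 1)

theorem coord_contDiff (i : Fin 3) : ContDiff ℝ 1 fun x : EuclideanSpace ℝ (Fin 3) => x i :=
  (EuclideanSpace.proj i : EuclideanSpace ℝ (Fin 3) →L[ℝ] ℝ).contDiff

theorem tri_contDiff (L ℓ : ℝ) (a b : ℕ) : ContDiff ℝ 1 (tri L ℓ a b) :=
  ((co_contDiff L a).comp (coord_contDiff 0)).mul ((co_contDiff ℓ b).comp (coord_contDiff 1))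

theorem tri_gradient (L ℓ : ℝ) (a b : ℕ) (x : EuclideanSpace ℝ (Fin 3)) :
    gradient (tri L ℓ a b) x =
      pt (dc L a (x 0) * co ℓ b (x 1)) (co L a (x 0) * dc ℓ b (x 1)) 0 := by
  have h0 : HasFDerivAt (fun x : EuclideanSpace ℝ (Fin 3) => x 0)
      (EuclideanSpace.proj 0 : EuclideanSpace ℝ (Fin 3) →L[ℝ] ℝ) x :=
    (EuclideanSpace.proj 0 : EuclideanSpace ℝ (Fin 3) →L[ℝ] ℝ).hasFDerivAt
  have h1 : HasFDerivAt (fun x : EuclideanSpace ℝ (Fin 3) => x 1)
      (EuclideanSpace.proj 1 : EuclideanSpace ℝ (Fin 3) →L[ℝ] ℝ) x :=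
    (EuclideanSpace.proj 1 : EuclideanSpace ℝ (Fin 3) →L[ℝ] ℝ).hasFDerivAt
  have h2 := ((co_hasDerivAt L a (x 0)).comp_hasFDerivAt x h0).mul
    ((co_hasDerivAt ℓ b (x 1)).comp_hasFDerivAt x h1)
  have h3 : HasGradientAt (tri L ℓ a b)
      (pt (dc L a (x 0) * co ℓ b (x 1)) (co L a (x 0) * dc ℓ b (x 1)) 0) x := by
    rw [hasGradientAt_iff_hasFDerivAt]
    refine h2.congr_fderiv ?_
    ext v
    simp only [InnerProductSpace.toDual_apply_apply, PiLp.inner_apply, Fin.sum_univ_three, pt_zero,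
      pt_one, pt_two, ContinuousLinearMap.add_apply, ContinuousLinearMap.smul_apply, smul_eq_mul,
      Function.comp]
    simp
    ring
  exact h3.gradient

theorem tri_gram {L ℓ w : ℝ} (hL : 0 < L) (hℓ : 0 < ℓ) (hw : 0 < w) (a b a' b' : ℕ) :
    ∫ x in box (Ioo 0 L) (Ioo 0 ℓ) (Ioo 0 w), tri L ℓ a b x * tri L ℓ a' b' x =
      gr L a a' * gr ℓ b b' * w := by
  rw [box_integral (f := fun x => tri L ℓ a b x * tri L ℓ a' b' x) (Metric.isBounded_Ioo _ _)
    (Metric.isBounded_Ioo _ _) (Metric.isBounded_Ioo _ _)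
    ((tri_contDiff L ℓ a b).continuous.mul (tri_contDiff L ℓ a' b').continuous)]
  have e : ∀ x y z, tri L ℓ a b (pt x y z) * tri L ℓ a' b' (pt x y z) =
      (co L a x * co L a' x) * (co ℓ b y * co ℓ b' y) := by
    intro x y z
    simp only [tri, pt_zero, pt_one]
    ring
  simp only [e, setIntegral_const, smul_eq_mul, Measure.real, Real.volume_Ioo, sub_zero,
    ENNReal.toReal_ofReal hw.le]
  simp only [← mul_assoc]
  have e2 : ∀ x, ∫ y in Ioo 0 ℓ, w * co L a x * co L a' x * co ℓ b y * co ℓ b' y =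
      w * (co L a x * co L a' x) * gr ℓ b b' := by
    intro x
    unfold gr
    rw [← integral_const_mul]
    congr 1
    funext y
    ring
  simp only [e2]
  unfold gr
  rw [integral_mul_const, integral_const_mul]
  ring

theorem tri_energy {L ℓ w : ℝ} (hL : 0 < L) (hℓ : 0 < ℓ) (hw : 0 < w) (a b a' b' : ℕ) :
    ∫ x in box (Ioo 0 L) (Ioo 0 ℓ) (Ioo 0 w),
      (inner ℝ (gradient (tri L ℓ a b) x) (gradient (tri L ℓ a' b') x) : ℝ) =
      ((Real.pi * a / L) ^ 2 + (Real.pi * b / ℓ) ^ 2) * (gr L a a' * gr ℓ b b' * w) := by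
  rw [box_integral (Metric.isBounded_Ioo _ _) (Metric.isBounded_Ioo _ _) (Metric.isBounded_Ioo _ _)
    ((cont_gradient (tri_contDiff L ℓ a b)).inner (cont_gradient (tri_contDiff L ℓ a' b')))]
  have e : ∀ x y z, (inner ℝ (gradient (tri L ℓ a b) (pt x y z))
      (gradient (tri L ℓ a' b') (pt x y z)) : ℝ) =
      (dc L a x * dc L a' x) * (co ℓ b y * co ℓ b' y) +
      (co L a x * co L a' x) * (dc ℓ b y * dc ℓ b' y) := by
    intro x y z
    rw [tri_gradient, tri_gradient]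
    simp only [PiLp.inner_apply, Fin.sum_univ_three, pt_zero, pt_one, pt_two]
    simp
    ring
  simp only [e, setIntegral_const, smul_eq_mul, Measure.real, Real.volume_Ioo, sub_zero,
    ENNReal.toReal_ofReal hw.le]
  have iy : ∀ F : ℝ → ℝ, Continuous F → Integrable F (volume.restrict (Ioo 0 ℓ)) := fun F hF =>
    (hF.continuousOn.integrableOn_compact isCompact_Icc).mono_set Ioo_subset_Icc_self
  have ix : ∀ F : ℝ → ℝ, Continuous F → Integrable F (volume.restrict (Ioo 0 L)) := fun F hF =>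
    (hF.continuousOn.integrableOn_compact isCompact_Icc).mono_set Ioo_subset_Icc_self
  have c1 := co_cont ℓ b
  have c2 := co_cont ℓ b'
  have c3 := dc_cont ℓ b
  have c4 := dc_cont ℓ b'
  have c5 := co_cont L a
  have c6 := co_cont L a'
  have c7 := dc_cont L a
  have c8 := dc_cont L a'
  have e2 : ∀ x, ∫ y in Ioo 0 ℓ, w * ((dc L a x * dc L a' x) * (co ℓ b y * co ℓ b' y) +
      (co L a x * co L a' x) * (dc ℓ b y * dc ℓ b' y)) =
      w * ((dc L a x * dc L a' x) * gr ℓ b b' +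
        (co L a x * co L a' x) * ((Real.pi * b / ℓ) ^ 2 * gr ℓ b b')) := by
    intro x
    rw [integral_const_mul, integral_add (iy _ (by fun_prop)) (iy _ (by fun_prop)),
      integral_const_mul, integral_const_mul, dc_gram hℓ]
    rfl
  simp only [e2]
  rw [integral_const_mul, integral_add (ix _ (by fun_prop)) (ix _ (by fun_prop)),
    integral_mul_const, integral_mul_const, dc_gram hL]
  unfold gr
  ring

/-- the inner domain -/
theorem upper {m : ℕ} (hm : 0 < m) :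
    mu (4 * m) (box (Ioo (0 : ℝ) ((4 * m : ℕ) : ℝ)) (Ioo 0 (7 / 5)) (Ioo 0 (1 / 100))) ≤
      ENNReal.ofReal (57 / 10) := by
  have hL : (0 : ℝ) < ((4 * m : ℕ) : ℝ) := by exact_mod_cast (by omega : 0 < 4 * m)
  have hℓ : (0 : ℝ) < 7 / 5 := by norm_num
  have hw : (0 : ℝ) < 1 / 100 := by norm_num
  set L : ℝ := ((4 * m : ℕ) : ℝ) with hLdef
  let ab : Fin (3 * m + 1) ⊕ Fin m → ℕ × ℕ := fun i =>
    match i with
    | Sum.inl j => ((j : ℕ), 0)
    | Sum.inr j => ((j : ℕ), 1)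
  have hinj : ∀ i j, i ≠ j → (ab i).1 ≠ (ab j).1 ∨ (ab i).2 ≠ (ab j).2 := by
    intro i j hij
    by_contra hcon
    push Not at hcon
    apply hij
    rcases i with i | i <;> rcases j with j | j
    · exact congrArg Sum.inl (Fin.ext hcon.1)
    · exact absurd hcon.2 (by simp [ab])
    · exact absurd hcon.2 (by simp [ab])
    · exact congrArg Sum.inr (Fin.ext hcon.1)
  have hz : ∀ i j, i ≠ j → gr L (ab i).1 (ab j).1 * gr (7 / 5) (ab i).2 (ab j).2 * (1 / 100) = 0 := by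
    intro i j hij
    rcases hinj i j hij with h | h
    · rw [gr_zero hL h]; ring
    · rw [gr_zero hℓ h]; ring
  have hbd : Bornology.IsBounded (box (Ioo (0 : ℝ) L) (Ioo 0 (7 / 5)) (Ioo 0 (1 / 100))) :=
    bounded_box (Metric.isBounded_Ioo _ _) (Metric.isBounded_Ioo _ _) (Metric.isBounded_Ioo _ _)
  apply mu_le hbd (ι := Fin (3 * m + 1) ⊕ Fin m) (φ := fun i => tri L (7 / 5) (ab i).1 (ab i).2)
  · rw [Fintype.card_sum, Fintype.card_fin, Fintype.card_fin]
    omega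
  · intro i
    exact tri_contDiff _ _ _ _
  · intro i j hij
    rw [tri_gram hL hℓ hw, hz i j hij]
  · intro i j hij
    rw [tri_energy hL hℓ hw, hz i j hij, mul_zero]
  · intro i
    have := tri_gram hL hℓ hw (ab i).1 (ab i).2 (ab i).1 (ab i).2
    simp only [← sq] at this
    rw [this]
    exact mul_pos (mul_pos (gr_pos hL _) (gr_pos hℓ _)) hw
  · intro i
    have h1 := tri_gram hL hℓ hw (ab i).1 (ab i).2 (ab i).1 (ab i).2
    have h2 := tri_energy hL hℓ hw (ab i).1 (ab i).2 (ab i).1 (ab i).2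
    simp only [← sq, real_inner_self_eq_norm_sq] at h1 h2
    rw [h1, h2]
    apply mul_le_mul_of_nonneg_right _
      (mul_pos (mul_pos (gr_pos hL _) (gr_pos hℓ _)) hw).le
    have hpi : Real.pi < 3.15 := Real.pi_lt_d2
    have hpi0 := Real.pi_pos
    have hpi2 : Real.pi ^ 2 ≤ 9.9225 := by nlinarith
    have hm0 : (0 : ℝ) < m := by exact_mod_cast hm
    have hLm : L = 4 * m := by rw [hLdef]; push_cast; ring
    rcases i with j | j
    · have hj : ((j : ℕ) : ℝ) ≤ 3 * m := by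
        have := j.2
        exact_mod_cast (by omega : (j : ℕ) ≤ 3 * m)
      have hj0 : (0 : ℝ) ≤ ((j : ℕ) : ℝ) := Nat.cast_nonneg _
      show (Real.pi * ((j : ℕ) : ℝ) / L) ^ 2 + (Real.pi * ((0 : ℕ) : ℝ) / (7 / 5)) ^ 2 ≤ 57 / 10
      have h3 : ((j : ℕ) : ℝ) / L ≤ 3 / 4 := by
        rw [hLm, div_le_div_iff₀ (by positivity) (by norm_num)]
        linarith
      have h4 : 0 ≤ ((j : ℕ) : ℝ) / L := by positivity
      have h5 : (Real.pi * ((j : ℕ) : ℝ) / L) ^ 2 = Real.pi ^ 2 * (((j : ℕ) : ℝ) / L) ^ 2 := by ring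
      have h6 : (((j : ℕ) : ℝ) / L) ^ 2 ≤ 9 / 16 := by nlinarith
      rw [h5]
      simp only [Nat.cast_zero, mul_zero, zero_div]
      nlinarith [sq_nonneg Real.pi]
    · have hj : ((j : ℕ) : ℝ) ≤ m := by
        have := j.2
        exact_mod_cast (by omega : (j : ℕ) ≤ m)
      have hj0 : (0 : ℝ) ≤ ((j : ℕ) : ℝ) := Nat.cast_nonneg _
      show (Real.pi * ((j : ℕ) : ℝ) / L) ^ 2 + (Real.pi * ((1 : ℕ) : ℝ) / (7 / 5)) ^ 2 ≤ 57 / 10
      have h3 : ((j : ℕ) : ℝ) / L ≤ 1 / 4 := by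
        rw [hLm, div_le_div_iff₀ (by positivity) (by norm_num)]
        linarith
      have h4 : 0 ≤ ((j : ℕ) : ℝ) / L := by positivity
      have h5 : (Real.pi * ((j : ℕ) : ℝ) / L) ^ 2 = Real.pi ^ 2 * (((j : ℕ) : ℝ) / L) ^ 2 := by ring
      have h6 : (((j : ℕ) : ℝ) / L) ^ 2 ≤ 1 / 16 := by nlinarith
      rw [h5]
      simp only [Nat.cast_one, mul_one]
      nlinarith [sq_nonneg Real.pi]

theorem sub_Om2 (k : ℕ) : box (Ioo (0 : ℝ) k) (Ioo 0 (7 / 5)) (Ioo 0 (1 / 100)) ⊆ Om2 (1 / 100) k := by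
  intro x hx
  have hr := r2_gt
  have hr0 := r2_pos
  have hr2 := r2_sq
  obtain ⟨h0, h1, h2⟩ := hx
  refine ⟨pt (x 0) ((x 1 - x 2 + 1 / 100) / r2) ((x 1 + x 2) / r2), ⟨h0, ?_, ?_⟩, ?_⟩
  · show (x 1 - x 2 + 1 / 100) / r2 ∈ Ioo 0 1
    constructor
    · apply div_pos _ hr0
      linarith [h1.1, h2.2]
    · rw [div_lt_one hr0]
      linarith [h1.2, h2.1]
  · show (x 1 + x 2) / r2 ∈ Ioo 0 1
    constructor
    · apply div_pos _ hr0
      linarith [h1.1, h2.1]
    · rw [div_lt_one hr0]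
      linarith [h1.2, h2.2]
  · unfold T
    rw [rot_apply]
    ext i
    fin_cases i
    · simp [pt]
    · simp [pt]
      field_simp
      rw [hr2]
      ring
    · simp [pt]
      field_simp
      rw [hr2]
      ring

theorem alpha_le {m : ℕ} (hm : 0 < m) : alpha (4 * m) 3 ≤ ENNReal.ofReal (19 / 20) := by
  have hk : 0 < 4 * m := by omega
  have hk' : (0 : ℝ) < ((4 * m : ℕ) : ℝ) := by exact_mod_cast hk
  have h1 : alpha (4 * m) 3 ≤
      mu (4 * m) (box (Ioo (0 : ℝ) ((4 * m : ℕ) : ℝ)) (Ioo 0 (7 / 5)) (Ioo 0 (1 / 100))) /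
      mu (4 * m) (Om2 (1 / 100) (4 * m)) := by
    unfold alpha
    exact (iInf₂_le _ _).trans (iInf_le_of_le
      ⟨domain_box hk' (by norm_num) (by norm_num), domain_Om2 _ hk, sub_Om2 _⟩ le_rfl)
  refine h1.trans ((ENNReal.div_le_div (upper hm) (lower (1 / 100) hk)).trans ?_)
  rw [← ENNReal.ofReal_div_of_pos (by norm_num)]
  apply ENNReal.ofReal_le_ofReal
  norm_num

theorem not_tendsto : ¬ Tendsto (fun k => alpha k 3) atTop (𝓝 1) := by
  intro h
  have h1 : ENNReal.ofReal (19 / 20) < 1 := by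
    rw [ENNReal.ofReal_lt_one]
    norm_num
  obtain ⟨N, hN⟩ := eventually_atTop.1 (h.eventually (lt_mem_nhds h1))
  have h2 := hN (4 * (N + 1)) (by omega)
  exact absurd (alpha_le (m := N + 1) (by omega)) (not_le.2 h2)

end Pool.Agent.V1187.NB
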