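import Pool.Agent.V1187.WheelMain

/-!
# The wheel with four spokes and a pendant edge at the hub
-/

set_option autoImplicit false

open Set

namespace Pool.Agent.V1187.QG

/-- First ends of the edges. -/
def psrc : Fin 9 → Fin 6 := ![0, 1, 2, 3, 4, 4, 4, 4, 4]

/-- Second ends of the edges. -/
def ptgt : Fin 9 → Fin 6 := ![1, 2, 3, 0, 0, 1, 2, 3, 5]

/-- Lengths of the edges. -/
noncomputable def plen : Fin 9 → ℝ := ![1, 1, 1, 1, 1, 1, 1, 1, 1 / 2]

/-- The wheel with four spokes, with a pendant edge of length `1/2` attached at the hub: the vertices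
`0, 1, 2, 3` form the rim, `4` is the hub, `5` is the end of the pendant edge; the other edges have
length one. -/
noncomputable def pwheel : MetricGraph where
  nV := 6
  nE := 9
  src := psrc
  tgt := ptgt
  len := plen
  len_pos := by
    intro e
    have : ∀ e : Fin 9, 0 < plen e := by
      intro e
      fin_cases e <;> simp [plen]
    exact this e

/-- Vertex `i`. -/
abbrev pv (i : Fin 6) : pwheel.Point := Sum.inl i

theorem fin6_cases : ∀ v : Fin 6, v = (0 : Fin 6) ∨ v = (1 : Fin 6) ∨ v = (2 : Fin 6) ∨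
    v = (3 : Fin 6) ∨ v = (4 : Fin 6) ∨ v = (5 : Fin 6) := by decide

theorem plen_one : ∀ e : Fin 9, e ≠ 8 → plen e = 1 := by
  intro e he
  fin_cases e <;> first | rfl | exact absurd rfl he

theorem pwheel_eqs {k : ℝ} (hk : 0 < k) {u : pwheel.Point → ℝ}
    (h : pwheel.IsSolution 0 (k ^ 2) u) :
    (u (pv 1) + u (pv 3) + u (pv 4) - 3 * Real.cos k * u (pv 0) = 0) ∧
    (u (pv 2) + u (pv 0) + u (pv 4) - 3 * Real.cos k * u (pv 1) = 0) ∧
    (u (pv 3) + u (pv 1) + u (pv 4) - 3 * Real.cos k * u (pv 2) = 0) ∧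
    (u (pv 0) + u (pv 2) + u (pv 4) - 3 * Real.cos k * u (pv 3) = 0) ∧
    (u (pv 0) + u (pv 1) + u (pv 2) + u (pv 3) = (5 * Real.cos k - 1) * u (pv 4)) ∧
    ((∀ i, i ≠ (5 : Fin 6) → u (pv i) = 0) → k < Real.pi → u = 0) := by
  obtain ⟨f, f', h1, h2, h3⟩ := h
  have hd : ∀ e : Fin 9, plen e = 1 → f' e 0 * Real.sin k =
        k * (u (pv (ptgt e)) - u (pv (psrc e)) * Real.cos k) ∧
      f' e 1 * Real.sin k = k * (u (pv (ptgt e)) * Real.cos k - u (pv (psrc e))) := by
    intro e he
    have := edge_deriv hk (pwheel.len_pos e).le (h2 e)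
    obtain ⟨q1, q2, -⟩ := h1 e
    have q2' : f e (plen e) = u (pv (ptgt e)) := q2
    have q1' : f e 0 = u (pv (psrc e)) := q1
    have this2 : f' e 0 * Real.sin (k * plen e) = k * (f e (plen e) - f e 0 * Real.cos (k * plen e)) ∧
      f' e (plen e) * Real.sin (k * plen e) = k * (f e (plen e) * Real.cos (k * plen e) - f e 0) := this
    rw [q1', q2', he, mul_one] at this2
    exact this2
  have hl8 : plen 8 = 1 / 2 := rfl
  have key : ∀ v : Fin 6, (∑ e : Fin 9, if psrc e = v then f' e 0 else 0) -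
      (∑ e : Fin 9, if ptgt e = v then f' e (plen e) else 0) = 0 := by
    intro v
    have := h3 v
    rw [Finset.sum_filter, Finset.sum_filter] at this
    have h0 : (0 : Fin pwheel.nV → ℝ) v * u (Sum.inl v) = 0 := zero_mul _
    rw [h0] at this
    exact this
  have k0 := key (0 : Fin 6)
  have k1 := key (1 : Fin 6)
  have k2 := key (2 : Fin 6)
  have k3 := key (3 : Fin 6)
  have k4 := key (4 : Fin 6)
  have k5 := key (5 : Fin 6)
  simp [Fin.sum_univ_succ, psrc, ptgt, plen] at k0 k1 k2 k3 k4 k5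
  have e0 := hd (0 : Fin 9) (plen_one _ (by decide))
  have e1 := hd (1 : Fin 9) (plen_one _ (by decide))
  have e2 := hd (2 : Fin 9) (plen_one _ (by decide))
  have e3 := hd (3 : Fin 9) (plen_one _ (by decide))
  have e4 := hd (4 : Fin 9) (plen_one _ (by decide))
  have e5 := hd (5 : Fin 9) (plen_one _ (by decide))
  have e6 := hd (6 : Fin 9) (plen_one _ (by decide))
  have e7 := hd (7 : Fin 9) (plen_one _ (by decide))
  simp [psrc, ptgt] at e0 e1 e2 e3 e4 e5 e6 e7
  -- the pendant edge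
  have hsolP : ∀ t ∈ Icc (0 : ℝ) (1 / 2), f (8 : Fin 9) t = f (8 : Fin 9) 0 * Real.cos (k * t) +
      f' (8 : Fin 9) 0 / k * Real.sin (k * t) ∧
      f' (8 : Fin 9) t = -(k * f (8 : Fin 9) 0 * Real.sin (k * t)) + f' (8 : Fin 9) 0 * Real.cos (k * t) :=
    edge_solution hk (h2 (8 : Fin 9))
  have hP0 : f (8 : Fin 9) 0 = u (pv 4) := (h1 (8 : Fin 9)).1
  have hPend := (hsolP (1 / 2) ⟨by norm_num, le_rfl⟩).2
  have k5' : f' (8 : Fin 9) (1 / 2) = 0 := by rw [one_div]; exact k5
  rw [k5', hP0] at hPend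
  have hs2 : Real.sin k = 2 * Real.sin (k * (1 / 2)) * Real.cos (k * (1 / 2)) := by
    rw [← Real.sin_two_mul]; congr 1; ring
  have hc2 : Real.cos k = 1 - 2 * Real.sin (k * (1 / 2)) ^ 2 := by
    have h5 := Real.sin_sq_add_cos_sq (k * (1 / 2))
    have h6 : Real.cos k = 2 * Real.cos (k * (1 / 2)) ^ 2 - 1 := by
      rw [← Real.cos_two_mul]; congr 1; ring
    rw [h6]
    linarith
  have eP : f' (8 : Fin 9) 0 * Real.sin k = k * u (pv 4) * (1 - Real.cos k) := by
    rw [hs2, hc2]
    linear_combination (-2 * Real.sin (k * (1 / 2))) * hPend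
  refine ⟨?_, ?_, ?_, ?_, ?_, ?_⟩
  · apply mul_left_cancel₀ hk.ne'
    linear_combination (Real.sin k) * k0 - e0.1 + e3.2 + e4.2
  · apply mul_left_cancel₀ hk.ne'
    linear_combination (Real.sin k) * k1 - e1.1 + e0.2 + e5.2
  · apply mul_left_cancel₀ hk.ne'
    linear_combination (Real.sin k) * k2 - e2.1 + e1.2 + e6.2
  · apply mul_left_cancel₀ hk.ne'
    linear_combination (Real.sin k) * k3 - e3.1 + e2.2 + e7.2
  · apply mul_left_cancel₀ hk.ne'
    linear_combination (Real.sin k) * k4 - e4.1 - e5.1 - e6.1 - e7.1 - eP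
  · intro hv hkpi
    have hs : 0 < Real.sin k := Real.sin_pos_of_pos_of_lt_pi hk hkpi
    have hv4 : u (pv 4) = 0 := hv 4 (by decide)
    have hP' : f' (8 : Fin 9) 0 = 0 := by
      rw [hv4] at eP
      have : f' (8 : Fin 9) 0 * Real.sin k = 0 := by rw [eP]; ring
      exact (mul_eq_zero.1 this).resolve_right hs.ne'
    have hz8 : ∀ t ∈ Icc (0 : ℝ) (1 / 2), f (8 : Fin 9) t = 0 := by
      intro t ht
      rw [(hsolP t ht).1, hP0, hv4, hP']
      simp
    have hv5 : u (pv 5) = 0 := by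
      have : f (8 : Fin 9) (1 / 2) = u (pv 5) := (h1 (8 : Fin 9)).2.1
      rw [← this]
      exact hz8 _ ⟨by norm_num, le_rfl⟩
    have hvall : ∀ i : Fin 6, u (pv i) = 0 := by
      intro i
      by_cases hi : i = (5 : Fin 6)
      · rw [hi]; exact hv5
      · exact hv i hi
    funext x
    rcases x with v | ⟨e, t, ht⟩
    · exact hvall v
    · obtain ⟨q1, q2, q3⟩ := h1 e
      rw [← q3 t ht]
      show f e t = 0
      have h8or : ∀ e : Fin 9, e = 8 ∨ e ≠ 8 := fun e => em _
      rcases h8or e with he | he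
      · subst he
        exact hz8 t ⟨ht.1.le, ht.2.le⟩
      · have hL : plen e = 1 := plen_one e he
        have h4 := (hd e hL).1
        have h5 : f' e 0 = 0 := by
          rw [hvall, hvall] at h4
          have : f' e 0 * Real.sin k = 0 := by rw [h4]; ring
          exact (mul_eq_zero.1 this).resolve_right hs.ne'
        have h6 := (edge_solution hk (h2 e) t ⟨ht.1.le, ht.2.le⟩).1
        have q1' : f e 0 = 0 := by
          have : f e 0 = u (pv (psrc e)) := q1
          rw [this, hvall]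
        rw [q1', h5] at h6
        rw [h6]
        simp

/-- No eigenvalues in `(0, (π/2)^2)`. -/
theorem pwheel_small {k : ℝ} (hk : 0 < k) (hk2 : k < Real.pi / 2) {u : pwheel.Point → ℝ}
    (h : pwheel.IsSolution 0 (k ^ 2) u) : u = 0 := by
  obtain ⟨e0, e1, e2, e3, e4, hz⟩ := pwheel_eqs hk h
  have hc : 0 < Real.cos k := Real.cos_pos_of_mem_Ioo ⟨by linarith, hk2⟩
  have hcos1 : Real.cos k < 1 := by
    rw [← Real.cos_zero]
    exact Real.cos_lt_cos_of_nonneg_of_le_pi le_rfl (by linarith [Real.pi_pos]) hk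
  have h4 : u (pv 4) = 0 := by
    have h5 : ((Real.cos k - 1) * (15 * Real.cos k + 2)) * u (pv 4) = 0 := by
      linear_combination (-1 : ℝ) * (e0 + e1 + e2 + e3) - (3 * Real.cos k - 2) * e4
    refine (mul_eq_zero.1 h5).resolve_left ?_
    have h6 : Real.cos k - 1 ≠ 0 := by linarith
    have h7 : 15 * Real.cos k + 2 ≠ 0 := by linarith
    exact mul_ne_zero h6 h7
  rw [h4] at e0 e1 e2 e3 e4
  have h02 : u (pv 0) = u (pv 2) := by
    apply mul_left_cancel₀ hc.ne'
    linear_combination (-(1:ℝ)/3) * e0 + (1/3) * e2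
  have h13 : u (pv 1) = u (pv 3) := by
    apply mul_left_cancel₀ hc.ne'
    linear_combination (-(1:ℝ)/3) * e1 + (1/3) * e3
  have h01 : u (pv 1) = -u (pv 0) := by linarith
  have h00 : u (pv 0) = 0 := by
    have : (2 + 3 * Real.cos k) * u (pv 0) = 0 := by
      rw [← h13, h01] at e0
      linear_combination (-1 : ℝ) * e0
    exact (mul_eq_zero.1 this).resolve_left (by linarith)
  apply hz
  · intro i hi
    rcases fin6_cases i with rfl | rfl | rfl | rfl | rfl | rfl
    · exact h00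
    · show u (pv 1) = 0
      rw [h01, h00, neg_zero]
    · show u (pv 2) = 0
      rw [← h02, h00]
    · show u (pv 3) = 0
      rw [← h13, h01, h00, neg_zero]
    · exact h4
    · exact absurd rfl hi
  · linarith [Real.pi_pos]

/-! ### the two-parameter family of solutions at `k = π / 2` -/

/-- Vertex values of the family. -/
noncomputable def pfamV (p q : ℝ) : Fin 6 → ℝ := ![p, q, -p, -q, 0, 0]

/-- Coefficient of the cosine. -/
noncomputable def pfamA (p q : ℝ) : Fin 9 → ℝ := ![p, q, -p, -q, 0, 0, 0, 0, 0]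

/-- Coefficient of the sine. -/
noncomputable def pfamB (p q : ℝ) : Fin 9 → ℝ := ![q, -p, -q, p, p, q, -p, -q, 0]

/-- The family on an edge. -/
noncomputable def pfamE (p q : ℝ) (e : Fin 9) (t : ℝ) : ℝ :=
  pfamA p q e * Real.cos (Real.pi / 2 * t) + pfamB p q e * Real.sin (Real.pi / 2 * t)

/-- The family. -/
noncomputable def pfam (p q : ℝ) : pwheel.Point → ℝ :=
  Sum.elim (pfamV p q) (fun x => pfamE p q x.1 x.2.1)

theorem pfamE_zero (p q : ℝ) (e : Fin 9) : pfamE p q e 0 = pfamV p q (psrc e) := by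
  have hA : pfamA p q e = pfamV p q (psrc e) := by
    fin_cases e <;> rfl
  unfold pfamE
  rw [hA]
  simp

theorem pfamE_one (p q : ℝ) (e : Fin 9) : pfamE p q e (plen e) = pfamV p q (ptgt e) := by
  by_cases he : e = 8
  · subst he
    simp [pfamE, pfamA, pfamB, pfamV, ptgt]
  · rw [plen_one e he]
    have hB : pfamB p q e = pfamV p q (ptgt e) := by
      fin_cases e <;> rfl
    unfold pfamE
    rw [hB]
    simp

theorem pfam_isSolution (p q : ℝ) :
    pwheel.IsSolution 0 ((Real.pi / 2) ^ 2) (pfam p q) := by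
  refine ⟨pfamE p q, fun e t => Real.pi / 2 * (pfamB p q e * Real.cos (Real.pi / 2 * t) -
    pfamA p q e * Real.sin (Real.pi / 2 * t)), ?_, ?_, ?_⟩
  · intro e
    refine ⟨?_, ?_, ?_⟩
    · exact pfamE_zero p q e
    · exact pfamE_one p q e
    · intro t ht
      rfl
  · intro e t _
    exact ⟨(hasDerivAt_comb _ _ _ t).hasDerivWithinAt, (hasDerivAt_comb' _ _ _ t).hasDerivWithinAt⟩
  · intro v
    rw [Finset.sum_filter, Finset.sum_filter]
    have key : ∀ v : Fin 6, (∑ e : Fin 9, if psrc e = v then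
        Real.pi / 2 * (pfamB p q e * Real.cos (Real.pi / 2 * 0) -
        pfamA p q e * Real.sin (Real.pi / 2 * 0)) else 0) -
      (∑ e : Fin 9, if ptgt e = v then Real.pi / 2 * (pfamB p q e * Real.cos (Real.pi / 2 * plen e) -
        pfamA p q e * Real.sin (Real.pi / 2 * plen e)) else 0) = 0 * pfamV p q v := by
      intro v
      rcases fin6_cases v with rfl | rfl | rfl | rfl | rfl | rfl <;>
        simp [Fin.sum_univ_succ, psrc, ptgt, pfamA, pfamB, pfamV, plen]
    exact key v

theorem pfamE_abs_le (p q : ℝ) (hpq : p ^ 2 + q ^ 2 ≤ 1) (e : Fin 9) (t : ℝ) :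
    pfamE p q e t ≤ 1 := by
  have hc : pfamA p q e ^ 2 + pfamB p q e ^ 2 ≤ 1 := by
    have : ∀ e : Fin 9, pfamA p q e ^ 2 + pfamB p q e ^ 2 ≤ 1 := by
      intro e
      have hp := sq_nonneg p
      have hq := sq_nonneg q
      have hp1 : |p| ≤ 1 := by rw [← sq_le_one_iff_abs_le_one]; linarith
      have hq1 : |q| ≤ 1 := by rw [← sq_le_one_iff_abs_le_one]; linarith
      fin_cases e <;> simp [pfamA, pfamB] <;> first | assumption | nlinarith
    exact this e
  have h3 := Real.sin_sq_add_cos_sq (Real.pi / 2 * t)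
  have h4 : pfamE p q e t ^ 2 ≤ 1 := by
    unfold pfamE
    set A := pfamA p q e
    set B := pfamB p q e
    set c := Real.cos (Real.pi / 2 * t)
    set s := Real.sin (Real.pi / 2 * t)
    have : (A * c + B * s) ^ 2 + (A * s - B * c) ^ 2 = (A ^ 2 + B ^ 2) * (s ^ 2 + c ^ 2) := by ring
    rw [h3, mul_one] at this
    nlinarith [sq_nonneg (A * s - B * c)]
  nlinarith

theorem pfamV_abs_le (p q : ℝ) (hpq : p ^ 2 + q ^ 2 ≤ 1) (i : Fin 6) :
    pfamV p q i ≤ 1 := by
  have hc : pfamV p q i ^ 2 ≤ 1 := by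
    have hp := sq_nonneg p
    have hq := sq_nonneg q
    have hp1 : |p| ≤ 1 := by rw [← sq_le_one_iff_abs_le_one]; linarith
    have hq1 : |q| ≤ 1 := by rw [← sq_le_one_iff_abs_le_one]; linarith
    rcases fin6_cases i with rfl | rfl | rfl | rfl | rfl | rfl <;> simp [pfamV] <;> assumption
  nlinarith

theorem pfam_ne_zero {p q : ℝ} (h : pfam p q (pv 0) ≠ 0 ∨ pfam p q (pv 1) ≠ 0) : pfam p q ≠ 0 := by
  intro h0
  rcases h with h | h <;> exact h (by rw [h0]; rfl)

theorem pwheel_connected : pwheel.Connected := by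
  refine ⟨by show 0 < 6; norm_num, ?_⟩
  have h : ∀ v : Fin 6, Relation.EqvGen (pwheel.Joined ∅) v (4 : Fin 6) := by
    have e : ∀ e : Fin 9, Relation.EqvGen (pwheel.Joined ∅) (psrc e) (ptgt e) := fun e =>
      Relation.EqvGen.rel _ _ ⟨e, Set.notMem_empty _, rfl, rfl⟩
    intro v
    rcases fin6_cases v with rfl | rfl | rfl | rfl | rfl | rfl
    · exact (e 4).symm
    · exact (e 5).symm
    · exact (e 6).symm
    · exact (e 7).symm
    · exact Relation.EqvGen.refl _
    · exact (e 8).symm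
  intro v w
  exact (h v).trans _ _ _ (h w).symm

theorem pwheel_bridge : pwheel.IsBridge (8 : Fin 9) := by
  rintro ⟨-, h⟩
  have key : ∀ v w : Fin 6, Relation.EqvGen (pwheel.Joined {(8 : Fin 9)}) v w →
      ((v = 5) ↔ (w = 5)) := by
    intro v w hvw
    induction hvw with
    | rel x y hxy =>
      obtain ⟨e, he, rfl, rfl⟩ := hxy
      have : ∀ e : Fin 9, e ≠ 8 → ((psrc e = 5) ↔ (ptgt e = 5)) := by decide
      exact this e (fun h => he h)
    | refl x => exact Iff.rfl
    | symm x y _ ih => exact ih.symm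
    | trans x y z _ _ ih1 ih2 => exact ih1.trans ih2
  have := (key (4 : Fin 6) (5 : Fin 6) (h _ _)).2 rfl
  exact absurd this (by decide)

/-- The eigenvalues are nonnegative. -/
theorem pwheel_spec_nonneg {ν : ℝ} (h : ν ∈ pwheel.Spec 0) : 0 ≤ ν := by
  obtain ⟨u, hu, hsol⟩ := h
  by_contra hν
  push Not at hν
  obtain ⟨h1, h2⟩ := energy pwheel (fun _ => le_rfl) hν.le hsol
  have hsrc : ∀ e : Fin 9, u (pv (psrc e)) = 0 := fun e => by
    have h3 : ν * u (pv (psrc e)) ^ 2 = 0 := (h2 e).2.2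
    exact (pow_eq_zero_iff two_ne_zero).1 ((mul_eq_zero.1 h3).resolve_left hν.ne)
  have htgt : ∀ e : Fin 9, u (pv (ptgt e)) = 0 := fun e => by
    have : u (pv (psrc e)) = u (pv (ptgt e)) := (h2 e).1
    rw [← this]; exact hsrc e
  have hall : ∀ i : Fin 6, u (pv i) = 0 := by
    intro i
    rcases fin6_cases i with rfl | rfl | rfl | rfl | rfl | rfl
    · exact hsrc 0
    · exact hsrc 1
    · exact hsrc 2
    · exact hsrc 3
    · exact hsrc 4
    · exact htgt 8
  apply hu
  funext x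
  rcases x with v | ⟨e, t, ht⟩
  · exact hall v
  · have := (h2 e).2.1 t ht
    rw [this]
    exact hall _

theorem pwheel_second : pwheel.IsSecond 0 ((Real.pi / 2) ^ 2) := by
  refine ⟨0, ⟨?_, fun ν hν => pwheel_spec_nonneg hν⟩, ⟨⟨pfam 1 0, ?_, pfam_isSolution 1 0⟩,
    by positivity⟩, ?_⟩
  · refine ⟨fun _ => 1, ?_, fun _ _ => 1, fun _ _ => 0, ?_, ?_, ?_⟩
    · intro h
      have := congrFun h (pv 0)
      exact one_ne_zero this
    · intro e
      exact ⟨rfl, rfl, fun _ _ => rfl⟩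
    · intro e t _
      exact ⟨hasDerivWithinAt_const _ _ _, (hasDerivWithinAt_const _ _ _).congr_deriv (by simp)⟩
    · intro v
      simp
  · exact pfam_ne_zero (Or.inl (by show (1 : ℝ) ≠ 0; exact one_ne_zero))
  · rintro ν ⟨⟨u, hu, hsol⟩, hν⟩
    by_contra hc
    push Not at hc
    have hk : 0 < Real.sqrt ν := Real.sqrt_pos.2 hν
    have hk2 : Real.sqrt ν < Real.pi / 2 := by
      rw [Real.sqrt_lt' Real.pi_div_two_pos]
      exact hc
    have hsq : Real.sqrt ν ^ 2 = ν := Real.sq_sqrt hν.le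
    rw [← hsq] at hsol
    exact hu (pwheel_small hk hk2 hsol)

theorem pwheel_len_zero : pwheel.len (0 : Fin 9) = 1 := rfl

/-- The point of the first rim edge with coordinate `t`. -/
def primPt (t : Ioo (0 : ℝ) 1) : pwheel.Point := Sum.inr ⟨(0 : Fin 9), ⟨t.1, t.2⟩⟩

/-- coordinate of a point on its edge -/
noncomputable def pcoordOf : pwheel.Point → ℝ := Sum.elim (fun _ => 0) (fun x => x.2.1)

theorem pwheel_hot_infinite : (pwheel.HotSpots 0).Infinite := by
  have hinj : Function.Injective primPt := by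
    intro s t hst
    exact Subtype.ext (congrArg pcoordOf hst)
  have hinf : (univ : Set (Ioo (0 : ℝ) 1)).Infinite := by
    rw [Set.infinite_univ_iff]
    exact (Set.Ioo_infinite (zero_lt_one' ℝ)).to_subtype
  have h2 := hinf.image (f := primPt) hinj.injOn
  refine h2.mono ?_
  rintro _ ⟨⟨t, ht⟩, -, rfl⟩
  set p := Real.cos (Real.pi / 2 * t) with hp
  set q := Real.sin (Real.pi / 2 * t) with hq
  have hpq : p ^ 2 + q ^ 2 = 1 := by rw [hp, hq]; exact Real.cos_sq_add_sin_sq _
  have hval : pfam p q (primPt ⟨t, ht⟩) = 1 := by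
    have : pfam p q (primPt ⟨t, ht⟩) =
        p * Real.cos (Real.pi / 2 * t) + q * Real.sin (Real.pi / 2 * t) := by
      rfl
    rw [this, ← hp, ← hq]
    linarith
  refine ⟨_, pwheel_second, pfam p q, ?_, pfam_isSolution p q, Or.inl ?_⟩
  · intro h0
    rw [h0] at hval
    exact zero_ne_one hval
  · intro y
    rw [hval]
    rcases y with v | ⟨e, s⟩
    · exact pfamV_abs_le p q hpq.le v
    · exact pfamE_abs_le p q hpq.le e s.1

end Pool.Agent.V1187.QG
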