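import Pool.Agent.V1187.QGraph

/-!
# Energy argument for metric graphs
-/

set_option autoImplicit false

open Set

namespace Pool.Agent.V1187.QG

theorem edge_energy {ν L : ℝ} (hν : ν ≤ 0) (hL : 0 ≤ L) {f f' : ℝ → ℝ}
    (h : ∀ t ∈ Icc (0 : ℝ) L, HasDerivWithinAt f (f' t) (Icc 0 L) t ∧
      HasDerivWithinAt f' (-(ν * f t)) (Icc 0 L) t) :
    f 0 * f' 0 ≤ f L * f' L ∧
      (f 0 * f' 0 = f L * f' L → ∀ t ∈ Ioo (0 : ℝ) L, f' t = 0 ∧ ν * f t ^ 2 = 0) := by
  have hd : ∀ t ∈ Icc (0 : ℝ) L, HasDerivWithinAt (fun s => f s * f' s) (f' t ^ 2 - ν * f t ^ 2)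
      (Icc 0 L) t := by
    intro t ht
    exact ((h t ht).1.mul (h t ht).2).congr_deriv (by ring)
  have hmono : MonotoneOn (fun s => f s * f' s) (Icc 0 L) := by
    apply monotoneOn_of_deriv_nonneg (convex_Icc 0 L)
    · intro t ht
      exact (hd t ht).continuousWithinAt
    · intro t ht
      rw [interior_Icc] at ht
      exact ((hd t (Ioo_subset_Icc_self ht)).hasDerivAt (Icc_mem_nhds ht.1 ht.2)
        ).differentiableAt.differentiableWithinAt
    · intro t ht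
      rw [interior_Icc] at ht
      rw [((hd t (Ioo_subset_Icc_self ht)).hasDerivAt (Icc_mem_nhds ht.1 ht.2)).deriv]
      nlinarith [sq_nonneg (f' t), sq_nonneg (f t)]
  refine ⟨hmono ⟨le_rfl, hL⟩ ⟨hL, le_rfl⟩ hL, fun heq t ht => ?_⟩
  have hconst : ∀ s ∈ Icc (0 : ℝ) L, f s * f' s = f 0 * f' 0 := by
    intro s hs
    apply le_antisymm
    · rw [heq]; exact hmono hs ⟨hL, le_rfl⟩ hs.2
    · exact hmono ⟨le_rfl, hL⟩ hs hs.1
  have h1 : HasDerivAt (fun s => f s * f' s) (f' t ^ 2 - ν * f t ^ 2) t :=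
    (hd t (Ioo_subset_Icc_self ht)).hasDerivAt (Icc_mem_nhds ht.1 ht.2)
  have h2 : HasDerivAt (fun s => f s * f' s) 0 t := by
    apply (hasDerivAt_const t (f 0 * f' 0)).congr_of_eventuallyEq
    filter_upwards [Icc_mem_nhds ht.1 ht.2] with s hs
    exact hconst s hs
  have h3 := h1.unique h2
  have h4 := sq_nonneg (f' t)
  have h5 : 0 ≤ -(ν * f t ^ 2) := by nlinarith [sq_nonneg (f t)]
  constructor
  · have : f' t ^ 2 = 0 := by linarith
    exact pow_eq_zero_iff (two_ne_zero) |>.1 this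
  · linarith

/-- A solution for `ν ≤ 0` and nonnegative strengths is constant on every edge; moreover
`α v * u v ^ 2 = 0` for every vertex and `ν u ^ 2 = 0` inside the edges. -/
theorem energy (G : MetricGraph) {α : Fin G.nV → ℝ} (hα : ∀ v, 0 ≤ α v) {ν : ℝ} (hν : ν ≤ 0)
    {u : G.Point → ℝ} (h : G.IsSolution α ν u) :
    (∀ v, α v * u (Sum.inl v) ^ 2 = 0) ∧
      ∀ e, u (Sum.inl (G.src e)) = u (Sum.inl (G.tgt e)) ∧
        (∀ t (ht : t ∈ Ioo (0 : ℝ) (G.len e)), u (Sum.inr ⟨e, ⟨t, ht⟩⟩) = u (Sum.inl (G.src e))) ∧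
        ν * u (Sum.inl (G.src e)) ^ 2 = 0 := by
  obtain ⟨f, f', h1, h2, h3⟩ := h
  have hE : ∀ e, f e 0 * f' e 0 ≤ f e (G.len e) * f' e (G.len e) ∧
      (f e 0 * f' e 0 = f e (G.len e) * f' e (G.len e) → ∀ t ∈ Ioo (0 : ℝ) (G.len e),
        f' e t = 0 ∧ ν * f e t ^ 2 = 0) := fun e => edge_energy hν (G.len_pos e).le (h2 e)
  have hsum : ∑ e, (f e (G.len e) * f' e (G.len e) - f e 0 * f' e 0) =
      -∑ v, α v * u (Sum.inl v) ^ 2 := by
    have e1 : ∑ e, f e (G.len e) * f' e (G.len e) =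
        ∑ v, u (Sum.inl v) * ∑ e with G.tgt e = v, f' e (G.len e) := by
      rw [← Finset.sum_fiberwise Finset.univ G.tgt]
      refine Finset.sum_congr rfl fun v _ => ?_
      rw [Finset.mul_sum]
      refine Finset.sum_congr rfl fun e he => ?_
      rw [(h1 e).2.1, (Finset.mem_filter.1 he).2]
    have e2 : ∑ e, f e 0 * f' e 0 =
        ∑ v, u (Sum.inl v) * ∑ e with G.src e = v, f' e 0 := by
      rw [← Finset.sum_fiberwise Finset.univ G.src]
      refine Finset.sum_congr rfl fun v _ => ?_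
      rw [Finset.mul_sum]
      refine Finset.sum_congr rfl fun e he => ?_
      rw [(h1 e).1, (Finset.mem_filter.1 he).2]
    rw [Finset.sum_sub_distrib, e1, e2, ← Finset.sum_sub_distrib, ← Finset.sum_neg_distrib]
    refine Finset.sum_congr rfl fun v _ => ?_
    have := h3 v
    linear_combination (-(u (Sum.inl v))) * this
  have hnn : ∀ e ∈ Finset.univ, 0 ≤ f e (G.len e) * f' e (G.len e) - f e 0 * f' e 0 :=
    fun e _ => sub_nonneg.2 (hE e).1
  have hvn : ∀ v ∈ (Finset.univ : Finset (Fin G.nV)), 0 ≤ α v * u (Sum.inl v) ^ 2 :=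
    fun v _ => mul_nonneg (hα v) (sq_nonneg _)
  have hs1 := Finset.sum_nonneg hnn
  have hs2 := Finset.sum_nonneg hvn
  have hz1 : ∑ e, (f e (G.len e) * f' e (G.len e) - f e 0 * f' e 0) = 0 := by linarith
  have hz2 : ∑ v, α v * u (Sum.inl v) ^ 2 = 0 := by linarith
  have hz1' := (Finset.sum_eq_zero_iff_of_nonneg hnn).1 hz1
  have hz2' := (Finset.sum_eq_zero_iff_of_nonneg hvn).1 hz2
  refine ⟨fun v => hz2' v (Finset.mem_univ v), fun e => ?_⟩
  have hL := G.len_pos e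
  have h5 := (hE e).2 (by have := hz1' e (Finset.mem_univ e); linarith)
  have hconst : ∀ t ∈ Icc (0 : ℝ) (G.len e), f e t = f e 0 := by
    have key : ∀ t ∈ Icc (0 : ℝ) (G.len e), f e t = f e 0 := by
      intro t ht
      have hcont : ContinuousOn (f e) (Icc 0 (G.len e)) := fun s hs => (h2 e s hs).1.continuousWithinAt
      have hdiff : DifferentiableOn ℝ (f e) (Ioo 0 (G.len e)) := fun s hs =>
        (((h2 e s (Ioo_subset_Icc_self hs)).1.hasDerivAt (Icc_mem_nhds hs.1 hs.2)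
          ).differentiableAt.differentiableWithinAt)
      rcases eq_or_lt_of_le ht.1 with h0 | h0
      · rw [← h0]
      · obtain ⟨c, hc, hc2⟩ := exists_hasDerivAt_eq_slope (f e) (f' e) h0
          (hcont.mono (Icc_subset_Icc_right ht.2)) (fun s hs =>
            (h2 e s ⟨hs.1.le, hs.2.le.trans ht.2⟩).1.hasDerivAt
              (Icc_mem_nhds hs.1 (hs.2.trans_le ht.2)))
        rw [(h5 c ⟨hc.1, hc.2.trans_le ht.2⟩).1, eq_comm, div_eq_zero_iff] at hc2
        rcases hc2 with h6 | h6 <;> linarith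
    exact key
  refine ⟨?_, ?_, ?_⟩
  · rw [← (h1 e).1, ← (h1 e).2.1, hconst (G.len e) ⟨hL.le, le_rfl⟩]
  · intro t ht
    rw [← (h1 e).2.2 t ht, ← (h1 e).1]
    exact hconst t ⟨ht.1.le, ht.2.le⟩
  · have hm : G.len e / 2 ∈ Ioo (0 : ℝ) (G.len e) := ⟨by linarith, by linarith⟩
    have := (h5 _ hm).2
    rw [hconst _ ⟨hm.1.le, hm.2.le⟩, (h1 e).1] at this
    exact this

end Pool.Agent.V1187.QG
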