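import Mathlib

/-!
# Compact metric graphs with vertex conditions of delta type

Definitions of a compact metric graph, of the eigenfunctions of the Laplacian on it, of the second
eigenvalue and of the set of hot spots.
-/

set_option autoImplicit false

open Set

namespace Pool.Agent.V1187.QG

/-- A compact metric graph: finitely many vertices (labelled by `Fin nV`), finitely many edges
(labelled by `Fin nE`); the edge `e` is the interval `[0, len e]`, whose end `0` is glued to the vertex
`src e` and whose end `len e` is glued to the vertex `tgt e`. Loops and multiple edges are allowed. -/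
structure MetricGraph where
  nV : ℕ
  nE : ℕ
  src : Fin nE → Fin nV
  tgt : Fin nE → Fin nV
  len : Fin nE → ℝ
  len_pos : ∀ e, 0 < len e

namespace MetricGraph

variable (G : MetricGraph)

/-- The points of the graph: the vertices, and the interior points of the edges. -/
abbrev Point : Type := Fin G.nV ⊕ (Σ e : Fin G.nE, Ioo (0 : ℝ) (G.len e))

/-- Two vertices are adjacent (in the direction of the edge) through an edge different from the
edges in the set `S`. -/
def Joined (S : Set (Fin G.nE)) (v w : Fin G.nV) : Prop := ∃ e, e ∉ S ∧ G.src e = v ∧ G.tgt e = w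

/-- The graph, from which the (open) edges in `S` have been removed, is connected: it has a vertex and
any two vertices are joined by a chain of edges. -/
def ConnectedOff (S : Set (Fin G.nE)) : Prop :=
  0 < G.nV ∧ ∀ v w : Fin G.nV, Relation.EqvGen (G.Joined S) v w

/-- The graph is connected. -/
def Connected : Prop := G.ConnectedOff ∅

/-- The edge `e` is a bridge: its removal disconnects the graph. -/
def IsBridge (e : Fin G.nE) : Prop := ¬ G.ConnectedOff {e}

/-- `u` (a function on the graph) satisfies `-u'' = lam u` on every edge (up to the ends of the edge),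
is continuous on the graph, and at every vertex `v` the sum of its derivatives taken into the edges
at `v` equals `α v * u v` (delta condition of strength `α v`; the standard condition is `α = 0`).
Here `f e` is `u` on the closed edge `e` and `f' e` is its derivative. -/
def IsSolution (α : Fin G.nV → ℝ) (lam : ℝ) (u : G.Point → ℝ) : Prop :=
  ∃ f f' : Fin G.nE → ℝ → ℝ,
    (∀ e, f e 0 = u (Sum.inl (G.src e)) ∧ f e (G.len e) = u (Sum.inl (G.tgt e)) ∧
      ∀ (t : ℝ) (ht : t ∈ Ioo (0 : ℝ) (G.len e)), f e t = u (Sum.inr ⟨e, ⟨t, ht⟩⟩)) ∧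
    (∀ e, ∀ t ∈ Icc (0 : ℝ) (G.len e),
      HasDerivWithinAt (f e) (f' e t) (Icc 0 (G.len e)) t ∧
      HasDerivWithinAt (f' e) (-(lam * f e t)) (Icc 0 (G.len e)) t) ∧
    ∀ v, (∑ e with G.src e = v, f' e 0) - (∑ e with G.tgt e = v, f' e (G.len e)) =
      α v * u (Sum.inl v)

/-- The eigenvalues of the Laplacian on the graph, for the strengths `α`. -/
def Spec (α : Fin G.nV → ℝ) : Set ℝ := {lam | ∃ u : G.Point → ℝ, u ≠ 0 ∧ G.IsSolution α lam u}

/-- `lam` is the second eigenvalue: the least eigenvalue which is greater than the lowest eigenvalue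
(the lowest eigenvalue of a connected graph is simple). -/
def IsSecond (α : Fin G.nV → ℝ) (lam : ℝ) : Prop :=
  ∃ lam₁, IsLeast (G.Spec α) lam₁ ∧ IsLeast {ν | ν ∈ G.Spec α ∧ lam₁ < ν} lam

/-- The set of all points at which some second eigenfunction attains its global maximum or its
global minimum over the graph. -/
def HotSpots (α : Fin G.nV → ℝ) : Set G.Point :=
  {x | ∃ lam, G.IsSecond α lam ∧ ∃ u : G.Point → ℝ, u ≠ 0 ∧ G.IsSolution α lam u ∧
    ((∀ y, u y ≤ u x) ∨ (∀ y, u x ≤ u y))}

end MetricGraph

/-! ### Solutions on an edge -/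

theorem edge_solution {k L : ℝ} (hk : 0 < k) {f f' : ℝ → ℝ}
    (h : ∀ t ∈ Icc (0 : ℝ) L, HasDerivWithinAt f (f' t) (Icc 0 L) t ∧
      HasDerivWithinAt f' (-(k ^ 2 * f t)) (Icc 0 L) t) :
    ∀ t ∈ Icc (0 : ℝ) L, f t = f 0 * Real.cos (k * t) + f' 0 / k * Real.sin (k * t) ∧
      f' t = -(k * f 0 * Real.sin (k * t)) + f' 0 * Real.cos (k * t) := by
  have hcos : ∀ t : ℝ, HasDerivAt (fun s => Real.cos (k * s)) (-(k * Real.sin (k * t))) t := by
    intro t
    exact ((Real.hasDerivAt_cos (k * t)).comp t ((hasDerivAt_id t).const_mul k)).congr_deriv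
      (by simp; ring)
  have hsin : ∀ t : ℝ, HasDerivAt (fun s => Real.sin (k * s)) (k * Real.cos (k * t)) t := by
    intro t
    exact ((Real.hasDerivAt_sin (k * t)).comp t ((hasDerivAt_id t).const_mul k)).congr_deriv
      (by simp; ring)
  have hA : ∀ t ∈ Icc (0 : ℝ) L, f t * Real.cos (k * t) - f' t * Real.sin (k * t) / k = f 0 := by
    have key := constant_of_has_deriv_right_zero (a := 0) (b := L)
      (f := fun t => f t * Real.cos (k * t) - f' t * Real.sin (k * t) / k) ?_ ?_
    · intro t ht
      have := key t ht
      simpa using this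
    · intro t ht
      exact (((h t ht).1.mul (hcos t).hasDerivWithinAt).sub
        (((h t ht).2.mul (hsin t).hasDerivWithinAt).div_const k)).continuousWithinAt
    · intro t ht
      have ht' : t ∈ Icc (0 : ℝ) L := Ico_subset_Icc_self ht
      have := (((h t ht').1.mul (hcos t).hasDerivWithinAt).sub
        (((h t ht').2.mul (hsin t).hasDerivWithinAt).div_const k))
      have h2 := this.mono_of_mem_nhdsWithin (Icc_mem_nhdsGE_of_mem ht)
      exact h2.congr_deriv (by field_simp; ring)
  have hB : ∀ t ∈ Icc (0 : ℝ) L, f t * (k * Real.sin (k * t)) + f' t * Real.cos (k * t) = f' 0 := by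
    have key := constant_of_has_deriv_right_zero (a := 0) (b := L)
      (f := fun t => f t * (k * Real.sin (k * t)) + f' t * Real.cos (k * t)) ?_ ?_
    · intro t ht
      have := key t ht
      simpa using this
    · intro t ht
      exact (((h t ht).1.mul ((hsin t).const_mul k).hasDerivWithinAt).add
        ((h t ht).2.mul (hcos t).hasDerivWithinAt)).continuousWithinAt
    · intro t ht
      have ht' : t ∈ Icc (0 : ℝ) L := Ico_subset_Icc_self ht
      have := (((h t ht').1.mul ((hsin t).const_mul k).hasDerivWithinAt).add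
        ((h t ht').2.mul (hcos t).hasDerivWithinAt))
      have h2 := this.mono_of_mem_nhdsWithin (Icc_mem_nhdsGE_of_mem ht)
      exact h2.congr_deriv (by ring)
  intro t ht
  have h1 := hA t ht
  have h2 := hB t ht
  have h3 := Real.sin_sq_add_cos_sq (k * t)
  constructor
  · rw [← h1, ← h2]
    field_simp
    linear_combination (-(k * f t)) * h3
  · rw [← h1, ← h2]
    field_simp
    linear_combination (-(f' t)) * h3

/-- The values at the ends determine the derivatives at the ends. -/
theorem edge_deriv {k L : ℝ} (hk : 0 < k) (hL : 0 ≤ L) {f f' : ℝ → ℝ}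
    (h : ∀ t ∈ Icc (0 : ℝ) L, HasDerivWithinAt f (f' t) (Icc 0 L) t ∧
      HasDerivWithinAt f' (-(k ^ 2 * f t)) (Icc 0 L) t) :
    f' 0 * Real.sin (k * L) = k * (f L - f 0 * Real.cos (k * L)) ∧
      f' L * Real.sin (k * L) = k * (f L * Real.cos (k * L) - f 0) := by
  obtain ⟨h1, h2⟩ := edge_solution hk h L ⟨hL, le_rfl⟩
  have h3 := Real.sin_sq_add_cos_sq (k * L)
  constructor
  · rw [h1]; field_simp; ring
  · rw [h1, h2]; field_simp; linear_combination (-(k * f 0)) * h3

end Pool.Agent.V1187.QG
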