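import Mathlib

/-!
# Dirichlet eigenfunctions of a Schroedinger operator on an interval
-/

set_option autoImplicit false

open Set MeasureTheory intervalIntegral Filter Topology

namespace Pool.Agent.V1187.Sch

/-- `u` is a (classical) solution of `-u'' + V u = lam u` on `(a, b)` which is continuous on `[a, b]` and
vanishes at `a` and `b`. -/
def IsDirichletSolution (a b : ℝ) (V : ℝ → ℝ) (lam : ℝ) (u : ℝ → ℝ) : Prop :=
  ContinuousOn u (Icc a b) ∧ u a = 0 ∧ u b = 0 ∧
    ∀ x ∈ Ioo a b, DifferentiableAt ℝ u x ∧ DifferentiableAt ℝ (deriv u) x ∧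
      -(deriv (deriv u) x) + V x * u x = lam * u x

/-- An admissible eigenbasis on the interval `(a, b)`: an orthonormal basis `(u j)` of `L²(a, b)` made of
real eigenfunctions, with eigenvalues `lam j` in nondecreasing order. -/
structure AdmissibleEigenbasis (a b : ℝ) (V : ℝ → ℝ) (lam : ℕ → ℝ) (u : ℕ → ℝ → ℝ) : Prop where
  sol : ∀ j, IsDirichletSolution a b V (lam j) (u j)
  mono : Monotone lam
  orthonormal : ∀ i j, ∫ x in Ioo a b, u i x * u j x = if i = j then 1 else 0
  complete : ∀ f : ℝ → ℝ, MemLp f 2 (volume.restrict (Ioo a b)) →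
    (∀ j, ∫ x in Ioo a b, f x * u j x = 0) → f =ᵐ[volume.restrict (Ioo a b)] 0

/-- A Dirichlet solution is `C²` up to the boundary. -/
theorem extend {V : ℝ → ℝ} (hV : Continuous V) {lam : ℝ} {u : ℝ → ℝ}
    (h : IsDirichletSolution 0 1 V lam u) :
    ∃ u' : ℝ → ℝ, (∀ x ∈ Icc (0 : ℝ) 1, HasDerivWithinAt u (u' x) (Icc 0 1) x) ∧
      (∀ x ∈ Icc (0 : ℝ) 1, HasDerivWithinAt u' ((V x - lam) * u x) (Icc 0 1) x) := by
  obtain ⟨hc, -, -, hd⟩ := h
  set q : ℝ → ℝ := fun x => (V x - lam) * u x with hq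
  have hqc : ContinuousOn q (Icc 0 1) := (hV.continuousOn.sub continuousOn_const).mul hc
  -- a continuous extension of q
  have hcl : Continuous (fun x : ℝ => max 0 (min x 1)) := by fun_prop
  set Q : ℝ → ℝ := fun x => q (max 0 (min x 1)) with hQ
  have hQc : Continuous Q := by
    refine hqc.comp_continuous hcl ?_
    intro x
    exact ⟨le_max_left _ _, max_le zero_le_one (min_le_right _ _)⟩
  have hQq : ∀ x ∈ Icc (0 : ℝ) 1, Q x = q x := by
    intro x hx
    simp only [hQ]
    rw [min_eq_left hx.2, max_eq_right hx.1]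
  set W : ℝ → ℝ := fun x => ∫ s in (0:ℝ)..x, Q s with hW
  have hWd : ∀ x, HasDerivAt W (Q x) x := fun x => hQc.integral_hasStrictDerivAt 0 x |>.hasDerivAt
  have hconst : ∀ x ∈ Ioo (0 : ℝ) 1, deriv u x - W x = deriv u (1 / 2) - W (1 / 2) := by
    have hdd : ∀ x ∈ Ioo (0 : ℝ) 1, HasDerivAt (fun y => deriv u y - W y) 0 x := by
      intro x hx
      obtain ⟨-, h2, h3⟩ := hd x hx
      have := h2.hasDerivAt.sub (hWd x)
      refine this.congr_deriv ?_
      rw [hQq x (Ioo_subset_Icc_self hx), hq]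
      linarith
    intro x hx
    have hopen : IsOpen (Ioo (0 : ℝ) 1) := isOpen_Ioo
    have hconn : IsPreconnected (Ioo (0 : ℝ) 1) := isPreconnected_Ioo
    exact hopen.is_const_of_deriv_eq_zero hconn
      (fun y hy => (hdd y hy).differentiableAt.differentiableWithinAt)
      (fun y hy => (hdd y hy).deriv) hx ⟨by norm_num, by norm_num⟩
  set c := deriv u (1 / 2) - W (1 / 2) with hcdef
  set u' : ℝ → ℝ := fun x => c + W x with hu'
  have hu'c : Continuous u' := by
    have : Continuous W := continuous_iff_continuousAt.2 fun x => (hWd x).continuousAt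
    exact continuous_const.add this
  have hui : ∀ x ∈ Ioo (0 : ℝ) 1, HasDerivAt u (u' x) x := by
    intro x hx
    refine (hd x hx).1.hasDerivAt.congr_deriv ?_
    have := hconst x hx
    simp only [hu']
    linarith
  have hint : ∀ x ∈ Icc (0 : ℝ) 1, ∫ s in (0:ℝ)..x, u' s = u x - u 0 := by
    intro x hx
    apply integral_eq_sub_of_hasDerivAt_of_le hx.1 (hc.mono (Icc_subset_Icc_right hx.2))
    · intro y hy
      exact hui y ⟨hy.1, hy.2.trans_le hx.2⟩
    · exact hu'c.intervalIntegrable _ _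
  refine ⟨u', ?_, ?_⟩
  · intro x hx
    have h1 : HasDerivAt (fun y => ∫ s in (0:ℝ)..y, u' s) (u' x) x :=
      (hu'c.integral_hasStrictDerivAt 0 x).hasDerivAt
    have h2 := (h1.const_add (u 0)).hasDerivWithinAt (s := Icc 0 1)
    refine h2.congr ?_ ?_
    · intro y hy
      rw [hint y hy]; ring
    · rw [hint x hx]; ring
  · intro x hx
    have h1 := ((hWd x).const_add c).hasDerivWithinAt (s := Icc (0:ℝ) 1)
    rw [hQq x hx] at h1
    exact h1

/-- Fundamental theorem of calculus with one-sided derivatives at the ends. -/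
theorem ftc {F F' : ℝ → ℝ} (h : ∀ x ∈ Icc (0 : ℝ) 1, HasDerivWithinAt F (F' x) (Icc 0 1) x)
    (hc : ContinuousOn F' (Icc 0 1)) : ∫ x in (0:ℝ)..1, F' x = F 1 - F 0 := by
  apply integral_eq_sub_of_hasDerivAt_of_le zero_le_one
  · intro x hx
    exact (h x hx).continuousWithinAt
  · intro x hx
    exact (h x (Ioo_subset_Icc_self hx)).hasDerivAt (Icc_mem_nhds hx.1 hx.2)
  · apply ContinuousOn.intervalIntegrable
    rwa [uIcc_of_le zero_le_one]

/-- The virial identity with multiplier `p`. -/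
theorem virial {lam : ℝ} {u u' p p1 p2 p3 : ℝ → ℝ} (hu0 : u 0 = 0) (hu1 : u 1 = 0)
    (hu : ∀ x ∈ Icc (0 : ℝ) 1, HasDerivWithinAt u (u' x) (Icc 0 1) x)
    (hu' : ∀ x ∈ Icc (0 : ℝ) 1, HasDerivWithinAt u' ((x - lam) * u x) (Icc 0 1) x)
    (hp : ∀ x, HasDerivAt p (p1 x) x) (hp1 : ∀ x, HasDerivAt p1 (p2 x) x)
    (hp2 : ∀ x, HasDerivAt p2 (p3 x) x) (hp3 : Continuous p3) :
    ∫ x in (0:ℝ)..1, ((1 / 2) * p3 x - 2 * p1 x * (x - lam) - p x) * u x ^ 2 =
      p 1 * u' 1 ^ 2 - p 0 * u' 0 ^ 2 := by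
  have hc : ContinuousOn u (Icc 0 1) := fun x hx => (hu x hx).continuousWithinAt
  have hpc : Continuous p := continuous_iff_continuousAt.2 fun x => (hp x).continuousAt
  have hp1c : Continuous p1 := continuous_iff_continuousAt.2 fun x => (hp1 x).continuousAt
  set F : ℝ → ℝ := fun x => p x * u' x ^ 2 - p1 x * (u x * u' x) + (1 / 2) * p2 x * u x ^ 2 -
    p x * (x - lam) * u x ^ 2 with hF
  have hFd : ∀ x ∈ Icc (0 : ℝ) 1, HasDerivWithinAt F
      (((1 / 2) * p3 x - 2 * p1 x * (x - lam) - p x) * u x ^ 2) (Icc 0 1) x := by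
    intro x hx
    have d1 := (hp x).hasDerivWithinAt (s := Icc 0 1)
    have d2 := (hp1 x).hasDerivWithinAt (s := Icc 0 1)
    have d3 := ((hp2 x).const_mul (1 / 2)).hasDerivWithinAt (s := Icc 0 1)
    have d4 := d1.mul (((hasDerivAt_id x).sub_const lam).hasDerivWithinAt (s := Icc 0 1))
    have D := (((d1.mul ((hu' x hx).pow 2)).sub (d2.mul ((hu x hx).mul (hu' x hx)))).add
      (d3.mul ((hu x hx).pow 2))).sub (d4.mul ((hu x hx).pow 2))
    refine D.congr_deriv ?_
    simp only [id, Pi.mul_apply, Pi.pow_apply]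
    push_cast
    ring
  have := ftc hFd (by fun_prop)
  rw [this, hF]
  simp only [hu0, hu1]
  ring

/-- The moments of a normalised eigenfunction for `V x = x`. -/
theorem moments {lam : ℝ} {u : ℝ → ℝ} (h : IsDirichletSolution 0 1 (fun x => x) lam u)
    (h1 : ∫ x in (0:ℝ)..1, u x ^ 2 = 1) :
    4 * lam * ((∫ x in (0:ℝ)..1, x * u x ^ 2) - 1 / 2) =
        5 * (∫ x in (0:ℝ)..1, x ^ 2 * u x ^ 2) - 3 * (∫ x in (0:ℝ)..1, x * u x ^ 2) ∧
      6 * lam * ((∫ x in (0:ℝ)..1, x ^ 2 * u x ^ 2) - 1 / 3) =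
        7 * (∫ x in (0:ℝ)..1, x ^ 3 * u x ^ 2) - 3 * (∫ x in (0:ℝ)..1, x * u x ^ 2) - 3 := by
  obtain ⟨u', hu, hu'⟩ := extend continuous_id h
  obtain ⟨hc, hu0, hu1, -⟩ := h
  have hI : ∀ k : ℕ, IntervalIntegrable (fun x => x ^ k * u x ^ 2) volume 0 1 := by
    intro k
    apply ContinuousOn.intervalIntegrable
    rw [uIcc_of_le zero_le_one]
    fun_prop
  have v1 := virial (p := fun x => x) (p1 := fun _ => 1) (p2 := fun _ => 0) (p3 := fun _ => 0)
    hu0 hu1 hu hu' (fun x => hasDerivAt_id x) (fun x => hasDerivAt_const _ _)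
    (fun x => hasDerivAt_const _ _) continuous_const
  have v2 := virial (p := fun x => x ^ 2) (p1 := fun x => 2 * x) (p2 := fun _ => 2) (p3 := fun _ => 0)
    hu0 hu1 hu hu' (fun x => by simpa using hasDerivAt_pow 2 x)
    (fun x => by simpa using (hasDerivAt_id x).const_mul 2)
    (fun x => hasDerivAt_const _ _) continuous_const
  have v3 := virial (p := fun x => x ^ 3) (p1 := fun x => 3 * x ^ 2) (p2 := fun x => 6 * x)
    (p3 := fun _ => 6)
    hu0 hu1 hu hu' (fun x => by simpa using hasDerivAt_pow 3 x)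
    (fun x => by
      have := (hasDerivAt_pow 2 x).const_mul (3 : ℝ)
      exact this.congr_deriv (by push_cast; ring))
    (fun x => by simpa using (hasDerivAt_id x).const_mul 6) continuous_const
  set M0 := ∫ x in (0:ℝ)..1, u x ^ 2 with hM0
  set M1 := ∫ x in (0:ℝ)..1, x * u x ^ 2 with hM1
  set M2 := ∫ x in (0:ℝ)..1, x ^ 2 * u x ^ 2 with hM2
  set M3 := ∫ x in (0:ℝ)..1, x ^ 3 * u x ^ 2 with hM3
  have i0 : IntervalIntegrable (fun x => u x ^ 2) volume 0 1 := by simpa using hI 0
  have i1 : IntervalIntegrable (fun x => x * u x ^ 2) volume 0 1 := by simpa using hI 1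
  have i2 := hI 2
  have i3 := hI 3
  have w1 : ∫ x in (0:ℝ)..1, ((1 / 2) * 0 - 2 * 1 * (x - lam) - x) * u x ^ 2 =
      2 * lam * M0 - 3 * M1 := by
    rw [hM1, hM0, ← intervalIntegral.integral_const_mul, ← intervalIntegral.integral_const_mul,
      ← intervalIntegral.integral_sub (i0.const_mul _) (i1.const_mul _)]
    congr 1
    funext x
    ring
  have w2 : ∫ x in (0:ℝ)..1, ((1 / 2) * 0 - 2 * (2 * x) * (x - lam) - x ^ 2) * u x ^ 2 =
      4 * lam * M1 - 5 * M2 := by
    rw [hM1, hM2, ← intervalIntegral.integral_const_mul, ← intervalIntegral.integral_const_mul,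
      ← intervalIntegral.integral_sub (i1.const_mul _) (i2.const_mul _)]
    congr 1
    funext x
    ring
  have w3 : ∫ x in (0:ℝ)..1, ((1 / 2) * 6 - 2 * (3 * x ^ 2) * (x - lam) - x ^ 3) * u x ^ 2 =
      3 * M0 + 6 * lam * M2 - 7 * M3 := by
    rw [hM2, hM3, hM0, ← intervalIntegral.integral_const_mul, ← intervalIntegral.integral_const_mul,
      ← intervalIntegral.integral_const_mul,
      ← intervalIntegral.integral_add (i0.const_mul _) (i2.const_mul _),
      ← intervalIntegral.integral_sub ((i0.const_mul _).add (i2.const_mul _)) (i3.const_mul _)]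
    congr 1
    funext x
    ring
  rw [w1, h1] at v1
  rw [w2] at v2
  rw [w3, h1] at v3
  constructor
  · linarith
  · linarith

/-- The pointwise bound for an orthonormal system of eigenfunctions. -/
theorem sup_bound {N : ℕ} {K : ℝ} {lam : ℕ → ℝ} {u : ℕ → ℝ → ℝ}
    (h : ∀ j, IsDirichletSolution 0 1 (fun x => x) (lam j) (u j))
    (ho : ∀ i j, ∫ x in (0:ℝ)..1, u i x * u j x = if i = j then 1 else 0)
    (hK : ∀ j < N, lam j ≤ K) {x0 : ℝ} (hx0 : x0 ∈ Icc (0 : ℝ) 1) :
    ∑ j ∈ Finset.range N, u j x0 ^ 2 ≤ max K 0 := by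
  have hex := fun j => extend continuous_id (h j)
  choose u' hu hu' using hex
  have hc : ∀ j, ContinuousOn (u j) (Icc 0 1) := fun j x hx => (hu j x hx).continuousWithinAt
  have hc' : ∀ j, ContinuousOn (u' j) (Icc 0 1) := fun j x hx => (hu' j x hx).continuousWithinAt
  have hu0 : ∀ j, u j 0 = 0 := fun j => (h j).2.1
  have hu1 : ∀ j, u j 1 = 0 := fun j => (h j).2.2.1
  set c : ℕ → ℝ := fun j => u j x0 with hcdef
  set S := ∑ j ∈ Finset.range N, u j x0 ^ 2 with hS
  set f : ℝ → ℝ := fun x => ∑ j ∈ Finset.range N, c j * u j x with hf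
  set f' : ℝ → ℝ := fun x => ∑ j ∈ Finset.range N, c j * u' j x with hf'
  set g : ℝ → ℝ := fun x => ∑ j ∈ Finset.range N, c j * lam j * u j x with hg
  have hfc : ContinuousOn f (Icc 0 1) := by
    apply continuousOn_finsetSum
    intro j _
    exact continuousOn_const.mul (hc j)
  have hf'c : ContinuousOn f' (Icc 0 1) := by
    apply continuousOn_finsetSum
    intro j _
    exact continuousOn_const.mul (hc' j)
  have hgc : ContinuousOn g (Icc 0 1) := by
    apply continuousOn_finsetSum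
    intro j _
    exact continuousOn_const.mul (hc j)
  have hfd : ∀ x ∈ Icc (0 : ℝ) 1, HasDerivWithinAt f (f' x) (Icc 0 1) x := by
    intro x hx
    exact HasDerivWithinAt.fun_sum fun j _ => (hu j x hx).const_mul (c j)
  have hf'd : ∀ x ∈ Icc (0 : ℝ) 1, HasDerivWithinAt f' (x * f x - g x) (Icc 0 1) x := by
    intro x hx
    have := HasDerivWithinAt.fun_sum (u := Finset.range N) fun j _ => (hu' j x hx).const_mul (c j)
    refine this.congr_deriv ?_
    simp only [hf, hg, Finset.mul_sum, ← Finset.sum_sub_distrib]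
    refine Finset.sum_congr rfl fun j _ => ?_
    simp only [id]
    ring
  have hf0 : f 0 = 0 := by simp [hf, hu0]
  have hf1 : f 1 = 0 := by simp [hf, hu1]
  have hfx0 : f x0 = S := by
    simp only [hf, hS, hcdef]
    refine Finset.sum_congr rfl fun j _ => ?_
    ring
  -- energy identity
  have e1 : ∫ x in (0:ℝ)..1, (f' x ^ 2 + (x * f x ^ 2 - f x * g x)) = 0 := by
    have hF : ∀ x ∈ Icc (0 : ℝ) 1, HasDerivWithinAt (fun x => f x * f' x)
        (f' x ^ 2 + (x * f x ^ 2 - f x * g x)) (Icc 0 1) x := by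
      intro x hx
      refine ((hfd x hx).mul (hf'd x hx)).congr_deriv ?_
      ring
    have := ftc hF (by fun_prop)
    rw [this, hf0, hf1]
    ring
  have iA : IntervalIntegrable (fun x => f' x ^ 2) volume 0 1 := by
    apply ContinuousOn.intervalIntegrable
    rw [uIcc_of_le zero_le_one]
    fun_prop
  have iB : IntervalIntegrable (fun x => x * f x ^ 2) volume 0 1 := by
    apply ContinuousOn.intervalIntegrable
    rw [uIcc_of_le zero_le_one]
    fun_prop
  have iC : IntervalIntegrable (fun x => f x * g x) volume 0 1 := by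
    apply ContinuousOn.intervalIntegrable
    rw [uIcc_of_le zero_le_one]
    fun_prop
  rw [intervalIntegral.integral_add iA (iB.sub iC), intervalIntegral.integral_sub iB iC] at e1
  have e2 : 0 ≤ ∫ x in (0:ℝ)..1, x * f x ^ 2 := by
    apply intervalIntegral.integral_nonneg zero_le_one
    intro x hx
    exact mul_nonneg hx.1 (sq_nonneg _)
  have e3 : ∫ x in (0:ℝ)..1, f x * g x = ∑ j ∈ Finset.range N, c j ^ 2 * lam j := by
    have : ∀ x, f x * g x = ∑ i ∈ Finset.range N, ∑ j ∈ Finset.range N,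
        (c i * (c j * lam j)) * (u i x * u j x) := by
      intro x
      simp only [hf, hg, Finset.sum_mul_sum]
      refine Finset.sum_congr rfl fun i _ => Finset.sum_congr rfl fun j _ => ?_
      ring
    simp only [this]
    have hii : ∀ i j, IntervalIntegrable (fun x => u i x * u j x) volume 0 1 := by
      intro i j
      apply ContinuousOn.intervalIntegrable
      rw [uIcc_of_le zero_le_one]
      exact (hc i).mul (hc j)
    rw [intervalIntegral.integral_finsetSum]
    · refine Finset.sum_congr rfl fun i hi => ?_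
      rw [intervalIntegral.integral_finsetSum]
      · rw [Finset.sum_eq_single i]
        · rw [intervalIntegral.integral_const_mul, ho, if_pos rfl]
          ring
        · intro j _ hji
          rw [intervalIntegral.integral_const_mul, ho, if_neg (Ne.symm hji), mul_zero]
        · intro hni
          exact absurd hi hni
      · intro j _
        exact (hii i j).const_mul _
    · intro i _
      apply ContinuousOn.intervalIntegrable
      rw [uIcc_of_le zero_le_one]
      exact continuousOn_finsetSum _ fun j _ => continuousOn_const.mul ((hc i).mul (hc j))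
  have e4 : ∑ j ∈ Finset.range N, c j ^ 2 * lam j ≤ K * S := by
    rw [hS, Finset.mul_sum]
    apply Finset.sum_le_sum
    intro j hj
    have := hK j (Finset.mem_range.1 hj)
    have h2 := sq_nonneg (c j)
    simp only [hcdef] at *
    nlinarith
  -- the lower bound
  have iD : IntervalIntegrable (fun x => f' x ^ 2) volume 0 x0 := by
    apply ContinuousOn.intervalIntegrable
    rw [uIcc_of_le hx0.1]
    exact (hf'c.mono (Icc_subset_Icc_right hx0.2)).pow 2
  have iE : IntervalIntegrable f' volume 0 x0 := by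
    apply ContinuousOn.intervalIntegrable
    rw [uIcc_of_le hx0.1]
    exact hf'c.mono (Icc_subset_Icc_right hx0.2)
  have e5 : ∫ x in (0:ℝ)..x0, f' x = S := by
    have : ∫ x in (0:ℝ)..x0, f' x = f x0 - f 0 := by
      apply integral_eq_sub_of_hasDerivAt_of_le hx0.1
      · exact hfc.mono (Icc_subset_Icc_right hx0.2)
      · intro x hx
        exact (hfd x ⟨hx.1.le, hx.2.le.trans hx0.2⟩).hasDerivAt
          (Icc_mem_nhds hx.1 (hx.2.trans_le hx0.2))
      · exact iE
    rw [this, hfx0, hf0, sub_zero]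
  have e6 : 0 ≤ ∫ x in (0:ℝ)..x0, (f' x - S) ^ 2 :=
    intervalIntegral.integral_nonneg hx0.1 fun x _ => sq_nonneg _
  have e7 : ∫ x in (0:ℝ)..x0, (f' x - S) ^ 2 =
      (∫ x in (0:ℝ)..x0, f' x ^ 2) - 2 * S * S + S ^ 2 * x0 := by
    have h1 : ∀ x, (f' x - S) ^ 2 = f' x ^ 2 - (2 * S) * f' x + S ^ 2 := by intro x; ring
    simp only [h1]
    rw [intervalIntegral.integral_add (iD.sub (iE.const_mul _)) intervalIntegrable_const,
      intervalIntegral.integral_sub iD (iE.const_mul _), intervalIntegral.integral_const_mul, e5]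
    simp
    ring
  have e8 : ∫ x in (0:ℝ)..x0, f' x ^ 2 ≤ ∫ x in (0:ℝ)..1, f' x ^ 2 := by
    apply intervalIntegral.integral_mono_interval le_rfl hx0.1 hx0.2 _ iA
    exact Eventually.of_forall fun x => sq_nonneg _
  have hS0 : 0 ≤ S := Finset.sum_nonneg fun j _ => sq_nonneg _
  have e9 : S ^ 2 ≤ K * S := by
    have : S ^ 2 * x0 ≤ S ^ 2 := mul_le_of_le_one_right (sq_nonneg _) hx0.2
    nlinarith
  rcases hS0.eq_or_lt with h0 | h0
  · rw [← h0]; exact le_max_right _ _
  · have : S ≤ K := by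
      have : S * S ≤ K * S := by nlinarith
      exact le_of_mul_le_mul_right this h0
    exact this.trans (le_max_left _ _)

/-- The number of eigenvalues up to `K` is at most `K`. -/
theorem count_bound {N : ℕ} (hN : 0 < N) {K : ℝ} {lam : ℕ → ℝ} {u : ℕ → ℝ → ℝ}
    (h : ∀ j, IsDirichletSolution 0 1 (fun x => x) (lam j) (u j))
    (ho : ∀ i j, ∫ x in (0:ℝ)..1, u i x * u j x = if i = j then 1 else 0)
    (hK : ∀ j < N, lam j ≤ K) : (N : ℝ) ≤ K := by
  have hc : ∀ j, ContinuousOn (u j) (Icc 0 1) := fun j => (h j).1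
  have h1 : ∫ x in (0:ℝ)..1, ∑ j ∈ Finset.range N, u j x ^ 2 = N := by
    rw [intervalIntegral.integral_finsetSum]
    · have : ∀ j ∈ Finset.range N, ∫ x in (0:ℝ)..1, u j x ^ 2 = 1 := by
        intro j _
        have := ho j j
        rw [if_pos rfl] at this
        rw [← this]
        congr 1
        funext x
        ring
      rw [Finset.sum_congr rfl this]
      simp
    · intro j _
      apply ContinuousOn.intervalIntegrable
      rw [uIcc_of_le zero_le_one]
      exact (hc j).pow 2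
  have h2 : ∫ x in (0:ℝ)..1, ∑ j ∈ Finset.range N, u j x ^ 2 ≤ ∫ x in (0:ℝ)..1, max K 0 := by
    apply intervalIntegral.integral_mono_on zero_le_one
    · apply ContinuousOn.intervalIntegrable
      rw [uIcc_of_le zero_le_one]
      exact continuousOn_finsetSum _ fun j _ => (hc j).pow 2
    · exact intervalIntegrable_const
    · intro x hx
      exact sup_bound h ho hK hx
  rw [h1] at h2
  simp only [intervalIntegral.integral_const, sub_zero, one_smul] at h2
  have h3 : (1 : ℝ) ≤ N := by exact_mod_cast hN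
  rcases le_max_iff.1 h2 with h4 | h4
  · exact h4
  · linarith

/-- The eigenvalues tend to infinity: `j + 1 ≤ lam j`. -/
theorem lam_ge {lam : ℕ → ℝ} {u : ℕ → ℝ → ℝ}
    (h : ∀ j, IsDirichletSolution 0 1 (fun x => x) (lam j) (u j)) (hm : Monotone lam)
    (ho : ∀ i j, ∫ x in (0:ℝ)..1, u i x * u j x = if i = j then 1 else 0) (j : ℕ) :
    (j : ℝ) + 1 ≤ lam j := by
  have := count_bound (N := j + 1) (Nat.succ_pos j) (K := lam j) h ho
    (fun i hi => hm (Nat.lt_succ_iff.1 hi))
  exact_mod_cast this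

/-- The means of the potential `x` are not in nondecreasing order. -/
theorem descent {lam : ℕ → ℝ} {u : ℕ → ℝ → ℝ}
    (h : ∀ j, IsDirichletSolution 0 1 (fun x => x) (lam j) (u j)) (hm : Monotone lam)
    (ho : ∀ i j, ∫ x in (0:ℝ)..1, u i x * u j x = if i = j then 1 else 0) :
    ∃ j, ∫ x in (0:ℝ)..1, x * u (j + 1) x ^ 2 < ∫ x in (0:ℝ)..1, x * u j x ^ 2 := by
  by_contra hcon
  push Not at hcon
  have hmono : Monotone fun j => ∫ x in (0:ℝ)..1, x * u j x ^ 2 := monotone_nat_of_le_succ hcon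
  have hc : ∀ j, ContinuousOn (u j) (Icc 0 1) := fun j => (h j).1
  have hn : ∀ j, ∫ x in (0:ℝ)..1, u j x ^ 2 = 1 := by
    intro j
    have := ho j j
    rw [if_pos rfl] at this
    rw [← this]
    congr 1
    funext x
    ring
  have hb : ∀ j k : ℕ, 0 ≤ ∫ x in (0:ℝ)..1, x ^ k * u j x ^ 2 ∧
      ∫ x in (0:ℝ)..1, x ^ k * u j x ^ 2 ≤ 1 := by
    intro j k
    constructor
    · apply intervalIntegral.integral_nonneg zero_le_one
      intro x hx
      exact mul_nonneg (pow_nonneg hx.1 _) (sq_nonneg _)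
    · refine le_trans ?_ (hn j).le
      apply intervalIntegral.integral_mono_on zero_le_one
      · apply ContinuousOn.intervalIntegrable
        rw [uIcc_of_le zero_le_one]
        exact (continuousOn_id.pow k).mul ((hc j).pow 2)
      · apply ContinuousOn.intervalIntegrable
        rw [uIcc_of_le zero_le_one]
        exact (hc j).pow 2
      · intro x hx
        exact mul_le_of_le_one_left (sq_nonneg _) (pow_le_one₀ hx.1 hx.2)
  have hb1 : ∀ j, 0 ≤ ∫ x in (0:ℝ)..1, x * u j x ^ 2 ∧ ∫ x in (0:ℝ)..1, x * u j x ^ 2 ≤ 1 := by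
    intro j
    have := hb j 1
    simpa using this
  have hmom := fun j => moments (h j) (hn j)
  have hlam := fun j => lam_ge h hm ho j
  -- convergence
  have c2 : ∀ j : ℕ, |(∫ x in (0:ℝ)..1, x ^ 2 * u j x ^ 2) - 1 / 3| ≤ 3 / ((j : ℝ) + 1) := by
    intro j
    have hj : (0 : ℝ) < (j : ℝ) + 1 := by positivity
    have hl := hlam j
    have hl0 : 0 < lam j := by linarith
    have h2 := (hmom j).2
    have h3 := hb j 3
    have h1 := hb1 j
    rw [le_div_iff₀ hj]
    have h4 : |(∫ x in (0:ℝ)..1, x ^ 2 * u j x ^ 2) - 1 / 3| * (6 * lam j) ≤ 13 := by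
      have : |(∫ x in (0:ℝ)..1, x ^ 2 * u j x ^ 2) - 1 / 3| * (6 * lam j) =
          |6 * lam j * ((∫ x in (0:ℝ)..1, x ^ 2 * u j x ^ 2) - 1 / 3)| := by
        rw [abs_mul, abs_of_pos (by positivity : 0 < 6 * lam j)]; ring
      rw [this, h2, abs_le]
      constructor <;> linarith
    have h5 : |(∫ x in (0:ℝ)..1, x ^ 2 * u j x ^ 2) - 1 / 3| * (6 * ((j : ℝ) + 1)) ≤
        |(∫ x in (0:ℝ)..1, x ^ 2 * u j x ^ 2) - 1 / 3| * (6 * lam j) := by
      apply mul_le_mul_of_nonneg_left _ (abs_nonneg _)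
      linarith
    linarith
  have c1 : ∀ j : ℕ, |(∫ x in (0:ℝ)..1, x * u j x ^ 2) - 1 / 2| ≤ 3 / ((j : ℝ) + 1) := by
    intro j
    have hj : (0 : ℝ) < (j : ℝ) + 1 := by positivity
    have hl := hlam j
    have hl0 : 0 < lam j := by linarith
    have h2 := (hmom j).1
    have h3 := hb j 2
    have h1 := hb1 j
    rw [le_div_iff₀ hj]
    have h4 : |(∫ x in (0:ℝ)..1, x * u j x ^ 2) - 1 / 2| * (4 * lam j) ≤ 8 := by
      have : |(∫ x in (0:ℝ)..1, x * u j x ^ 2) - 1 / 2| * (4 * lam j) =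
          |4 * lam j * ((∫ x in (0:ℝ)..1, x * u j x ^ 2) - 1 / 2)| := by
        rw [abs_mul, abs_of_pos (by positivity : 0 < 4 * lam j)]; ring
      rw [this, h2, abs_le]
      constructor <;> linarith
    have h5 : |(∫ x in (0:ℝ)..1, x * u j x ^ 2) - 1 / 2| * (4 * ((j : ℝ) + 1)) ≤
        |(∫ x in (0:ℝ)..1, x * u j x ^ 2) - 1 / 2| * (4 * lam j) := by
      apply mul_le_mul_of_nonneg_left _ (abs_nonneg _)
      linarith
    linarith
  -- for large `j` the mean is greater than `1 / 2`
  have hgt : 1 / 2 < ∫ x in (0:ℝ)..1, x * u 299 x ^ 2 := by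
    have h2 := (hmom 299).1
    have a1 := abs_le.1 (c1 299)
    have a2 := abs_le.1 (c2 299)
    have hl := hlam 299
    norm_num at a1 a2 hl
    have h5 : 0 < 4 * lam 299 * ((∫ x in (0:ℝ)..1, x * u 299 x ^ 2) - 1 / 2) := by
      rw [h2]
      linarith
    have h6 : 0 < 4 * lam 299 := by linarith
    have := (mul_pos_iff_of_pos_left h6).1 h5
    linarith
  have hle : ∫ x in (0:ℝ)..1, x * u 299 x ^ 2 ≤ 1 / 2 := by
    apply le_of_forall_pos_le_add
    intro ε hε
    obtain ⟨n, hn⟩ := exists_nat_gt (3 / ε)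
    have h1 : 3 / ((max n 299 : ℕ) + 1 : ℝ) ≤ ε := by
      rw [div_le_iff₀ (by positivity)]
      rw [div_lt_iff₀ hε] at hn
      have : (n : ℝ) ≤ (max n 299 : ℕ) := by exact_mod_cast le_max_left _ _
      nlinarith
    have h2 := hmono (le_max_right n 299)
    have h3 := abs_le.1 (c1 (max n 299))
    simp only at h2
    linarith [h3.2]
  linarith

end Pool.Agent.V1187.Sch
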