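import Pool.Agent.V1187.QGraph

/-!
# The wheel with four spokes
-/

set_option autoImplicit false

open Set

namespace Pool.Agent.V1187.QG

/-- First ends of the edges of the wheel. -/
def wsrc : Fin 8 → Fin 5 := ![0, 1, 2, 3, 4, 4, 4, 4]

/-- Second ends of the edges of the wheel. -/
def wtgt : Fin 8 → Fin 5 := ![1, 2, 3, 0, 0, 1, 2, 3]

/-- The equilateral wheel with four spokes: the vertices `0, 1, 2, 3` form the rim (joined in this
cyclic order), `4` is the hub (joined to each of `0, 1, 2, 3`), all edges have length one. -/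
def wheel : MetricGraph where
  nV := 5
  nE := 8
  src := wsrc
  tgt := wtgt
  len := fun _ => 1
  len_pos := fun _ => one_pos

/-- Strength `a` at the hub of the wheel, `0` at the other vertices. -/
def hubStrength (a : ℝ) : Fin 5 → ℝ := ![0, 0, 0, 0, a]

/-- Vertex `i` of the wheel. -/
abbrev wv (i : Fin 5) : wheel.Point := Sum.inl i

theorem wheel_eqs {a k : ℝ} (hk : 0 < k) {u : wheel.Point → ℝ}
    (h : wheel.IsSolution (hubStrength a) (k ^ 2) u) :
    (u (wv 1) + u (wv 3) + u (wv 4) - 3 * Real.cos k * u (wv 0) = 0) ∧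
    (u (wv 2) + u (wv 0) + u (wv 4) - 3 * Real.cos k * u (wv 1) = 0) ∧
    (u (wv 3) + u (wv 1) + u (wv 4) - 3 * Real.cos k * u (wv 2) = 0) ∧
    (u (wv 0) + u (wv 2) + u (wv 4) - 3 * Real.cos k * u (wv 3) = 0) ∧
    (k * (u (wv 0) + u (wv 1) + u (wv 2) + u (wv 3) - 4 * Real.cos k * u (wv 4)) =
      a * Real.sin k * u (wv 4)) := by
  obtain ⟨f, f', h1, h2, h3⟩ := h
  have hd : ∀ e, f' e 0 * Real.sin k = k * (u (wv (wtgt e)) - u (wv (wsrc e)) * Real.cos k) ∧
      f' e 1 * Real.sin k = k * (u (wv (wtgt e)) * Real.cos k - u (wv (wsrc e))) := by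
    intro e
    have := edge_deriv (L := 1) hk zero_le_one (h2 e)
    obtain ⟨q1, q2, -⟩ := h1 e
    have q2' : f e 1 = u (wv (wtgt e)) := q2
    have q1' : f e 0 = u (wv (wsrc e)) := q1
    rw [q1', q2', mul_one] at this
    exact this
  have key : ∀ v : Fin 5, (∑ e : Fin 8, if wsrc e = v then f' e 0 else 0) -
      (∑ e : Fin 8, if wtgt e = v then f' e 1 else 0) = hubStrength a v * u (wv v) := by
    intro v
    have := h3 v
    rw [Finset.sum_filter, Finset.sum_filter] at this
    exact this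
  have k0 := key (0 : Fin 5)
  have k1 := key (1 : Fin 5)
  have k2 := key (2 : Fin 5)
  have k3 := key (3 : Fin 5)
  have k4 := key (4 : Fin 5)
  simp [Fin.sum_univ_eight, wsrc, wtgt, hubStrength] at k0 k1 k2 k3 k4
  have e0 := hd (0 : Fin 8)
  have e1 := hd (1 : Fin 8)
  have e2 := hd (2 : Fin 8)
  have e3 := hd (3 : Fin 8)
  have e4 := hd (4 : Fin 8)
  have e5 := hd (5 : Fin 8)
  have e6 := hd (6 : Fin 8)
  have e7 := hd (7 : Fin 8)
  simp [wsrc, wtgt] at e0 e1 e2 e3 e4 e5 e6 e7
  refine ⟨?_, ?_, ?_, ?_, ?_⟩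
  · apply mul_left_cancel₀ hk.ne'
    linear_combination (Real.sin k) * k0 - e0.1 + e3.2 + e4.2
  · apply mul_left_cancel₀ hk.ne'
    linear_combination (Real.sin k) * k1 - e1.1 + e0.2 + e5.2
  · apply mul_left_cancel₀ hk.ne'
    linear_combination (Real.sin k) * k2 - e2.1 + e1.2 + e6.2
  · apply mul_left_cancel₀ hk.ne'
    linear_combination (Real.sin k) * k3 - e3.1 + e2.2 + e7.2
  · linear_combination (Real.sin k) * k4 - e4.1 - e5.1 - e6.1 - e7.1

/-- A solution which vanishes at all vertices is zero (for `0 < k < π`). -/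
theorem wheel_zero {a k : ℝ} (hk : 0 < k) (hkpi : k < Real.pi) {u : wheel.Point → ℝ}
    (h : wheel.IsSolution (hubStrength a) (k ^ 2) u) (hv : ∀ i : Fin 5, u (wv i) = 0) : u = 0 := by
  have hs : 0 < Real.sin k := Real.sin_pos_of_pos_of_lt_pi hk hkpi
  obtain ⟨f, f', h1, h2, h3⟩ := h
  funext x
  rcases x with v | ⟨e, t, ht⟩
  · exact hv v
  · obtain ⟨q1, q2, q3⟩ := h1 e
    have q2' : f e 1 = 0 := by
      have : f e 1 = u (wv (wtgt e)) := q2
      rw [this, hv]
    have q1' : f e 0 = 0 := by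
      have : f e 0 = u (wv (wsrc e)) := q1
      rw [this, hv]
    have h4 := (edge_deriv (L := 1) hk zero_le_one (h2 e)).1
    rw [q1', q2', mul_one] at h4
    have h5 : f' e 0 = 0 := by
      have : f' e 0 * Real.sin k = 0 := by rw [h4]; ring
      exact (mul_eq_zero.1 this).resolve_right hs.ne'
    have h6 := (edge_solution (L := 1) hk (h2 e) t ⟨ht.1.le, ht.2.le⟩).1
    rw [q1', h5] at h6
    rw [← q3 t ht, h6]
    simp

/-- Vertex values of a solution for `0 < k < π / 2`, when the hub value vanishes. -/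
theorem wheel_hub {a k : ℝ} (hk : 0 < k) (hk2 : k < Real.pi / 2) {u : wheel.Point → ℝ}
    (h : wheel.IsSolution (hubStrength a) (k ^ 2) u) (h4 : u (wv 4) = 0) : u = 0 := by
  obtain ⟨e0, e1, e2, e3, e4⟩ := wheel_eqs hk h
  have hc : 0 < Real.cos k := Real.cos_pos_of_mem_Ioo ⟨by linarith, hk2⟩
  rw [h4] at e0 e1 e2 e3 e4
  have hS : u (wv 0) + u (wv 1) + u (wv 2) + u (wv 3) = 0 := by
    apply mul_left_cancel₀ hk.ne'
    linear_combination e4
  have h02 : u (wv 0) = u (wv 2) := by
    apply mul_left_cancel₀ hc.ne'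
    linear_combination (-(1:ℝ)/3) * e0 + (1/3) * e2
  have h13 : u (wv 1) = u (wv 3) := by
    apply mul_left_cancel₀ hc.ne'
    linear_combination (-(1:ℝ)/3) * e1 + (1/3) * e3
  have h01 : u (wv 1) = -u (wv 0) := by linarith
  have h00 : u (wv 0) = 0 := by
    have : (2 + 3 * Real.cos k) * u (wv 0) = 0 := by
      rw [← h13, h01] at e0
      linear_combination (-1 : ℝ) * e0
    exact (mul_eq_zero.1 this).resolve_left (by linarith)
  apply wheel_zero hk (by linarith [Real.pi_pos]) h
  intro i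
  fin_cases i
  · exact h00
  · show u (wv 1) = 0
    rw [h01, h00, neg_zero]
  · show u (wv 2) = 0
    rw [← h02, h00]
  · show u (wv 3) = 0
    rw [← h13, h01, h00, neg_zero]
  · exact h4

/-- At `k = π / 2` the hub value vanishes and opposite rim values are opposite. -/
theorem wheel_half {a : ℝ} (ha : 0 ≤ a) {u : wheel.Point → ℝ}
    (h : wheel.IsSolution (hubStrength a) ((Real.pi / 2) ^ 2) u) :
    u (wv 4) = 0 ∧ u (wv 2) = -u (wv 0) ∧ u (wv 3) = -u (wv 1) := by
  obtain ⟨e0, e1, e2, e3, e4⟩ := wheel_eqs Real.pi_div_two_pos h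
  rw [Real.cos_pi_div_two] at e0 e1 e2 e3 e4
  rw [Real.sin_pi_div_two] at e4
  have hpi := Real.pi_div_two_pos
  have h4 : (Real.pi / 2 * 2 + a) * u (wv 4) = 0 := by
    linear_combination (Real.pi / 2) * (e0 + e1) - e4
  have h4' : u (wv 4) = 0 := (mul_eq_zero.1 h4).resolve_left (by linarith)
  refine ⟨h4', ?_, ?_⟩
  · linarith
  · linarith

/-! ### the two-parameter family of solutions at `k = π / 2` -/

/-- Vertex values of the family. -/
noncomputable def famV (p q : ℝ) : Fin 5 → ℝ := ![p, q, -p, -q, 0]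

/-- The family on the edges, in the form `A cos (π t / 2) + B sin (π t / 2)`; coefficient `A`. -/
noncomputable def famA (p q : ℝ) : Fin 8 → ℝ := ![p, q, -p, -q, 0, 0, 0, 0]

/-- Coefficient `B`. -/
noncomputable def famB (p q : ℝ) : Fin 8 → ℝ := ![q, -p, -q, p, p, q, -p, -q]

/-- The family on an edge. -/
noncomputable def famE (p q : ℝ) (e : Fin 8) (t : ℝ) : ℝ :=
  famA p q e * Real.cos (Real.pi / 2 * t) + famB p q e * Real.sin (Real.pi / 2 * t)

/-- The family. -/
noncomputable def fam (p q : ℝ) : wheel.Point → ℝ :=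
  Sum.elim (famV p q) (fun x => famE p q x.1 x.2.1)

theorem hasDerivAt_comb (k A B t : ℝ) :
    HasDerivAt (fun s => A * Real.cos (k * s) + B * Real.sin (k * s))
      (k * (B * Real.cos (k * t) - A * Real.sin (k * t))) t := by
  have hcos : HasDerivAt (fun s => Real.cos (k * s)) (-(k * Real.sin (k * t))) t :=
    ((Real.hasDerivAt_cos (k * t)).comp t ((hasDerivAt_id t).const_mul k)).congr_deriv
      (by simp; ring)
  have hsin : HasDerivAt (fun s => Real.sin (k * s)) (k * Real.cos (k * t)) t :=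
    ((Real.hasDerivAt_sin (k * t)).comp t ((hasDerivAt_id t).const_mul k)).congr_deriv
      (by simp; ring)
  exact ((hcos.const_mul A).add (hsin.const_mul B)).congr_deriv (by ring)

theorem hasDerivAt_comb' (k A B t : ℝ) :
    HasDerivAt (fun s => k * (B * Real.cos (k * s) - A * Real.sin (k * s)))
      (-(k ^ 2 * (A * Real.cos (k * t) + B * Real.sin (k * t)))) t := by
  have := (hasDerivAt_comb k B (-A) t).const_mul k
  have h2 : (fun s => k * (B * Real.cos (k * s) + -A * Real.sin (k * s))) =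
      (fun s => k * (B * Real.cos (k * s) - A * Real.sin (k * s))) := by
    funext s; ring
  rw [h2] at this
  exact this.congr_deriv (by ring)

theorem famA_eq (p q : ℝ) : ∀ e : Fin 8, famA p q e = famV p q (wsrc e) := by
  intro e
  fin_cases e <;> rfl

theorem famB_eq (p q : ℝ) : ∀ e : Fin 8, famB p q e = famV p q (wtgt e) := by
  intro e
  fin_cases e <;> rfl

theorem fin5_cases : ∀ v : Fin 5, v = (0 : Fin 5) ∨ v = (1 : Fin 5) ∨ v = (2 : Fin 5) ∨
    v = (3 : Fin 5) ∨ v = (4 : Fin 5) := by decide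

theorem famE_zero (p q : ℝ) (e : Fin 8) : famE p q e 0 = famV p q (wsrc e) := by
  unfold famE
  rw [famA_eq]
  simp

theorem famE_one (p q : ℝ) (e : Fin 8) : famE p q e 1 = famV p q (wtgt e) := by
  unfold famE
  rw [famB_eq]
  simp

theorem fam_isSolution (a p q : ℝ) :
    wheel.IsSolution (hubStrength a) ((Real.pi / 2) ^ 2) (fam p q) := by
  refine ⟨famE p q, fun e t => Real.pi / 2 * (famB p q e * Real.cos (Real.pi / 2 * t) -
    famA p q e * Real.sin (Real.pi / 2 * t)), ?_, ?_, ?_⟩
  · intro e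
    refine ⟨?_, ?_, ?_⟩
    · exact famE_zero p q e
    · exact famE_one p q e
    · intro t ht
      rfl
  · intro e t _
    exact ⟨(hasDerivAt_comb _ _ _ t).hasDerivWithinAt, (hasDerivAt_comb' _ _ _ t).hasDerivWithinAt⟩
  · intro v
    rw [Finset.sum_filter, Finset.sum_filter]
    have key : ∀ v : Fin 5, (∑ e : Fin 8, if wsrc e = v then
        Real.pi / 2 * (famB p q e * Real.cos (Real.pi / 2 * 0) -
        famA p q e * Real.sin (Real.pi / 2 * 0)) else 0) -
      (∑ e : Fin 8, if wtgt e = v then Real.pi / 2 * (famB p q e * Real.cos (Real.pi / 2 * 1) -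
        famA p q e * Real.sin (Real.pi / 2 * 1)) else 0) = hubStrength a v * famV p q v := by
      intro v
      rcases fin5_cases v with rfl | rfl | rfl | rfl | rfl <;>
        simp [Fin.sum_univ_eight, wsrc, wtgt, hubStrength, famA, famB, famV] <;> ring
    exact key v

/-! ### bounds for the family -/

theorem famE_abs_le (p q : ℝ) (hpq : p ^ 2 + q ^ 2 ≤ 1) (e : Fin 8) (t : ℝ) :
    famE p q e t ≤ 1 ∧ -1 ≤ famE p q e t := by
  have hc : famA p q e ^ 2 + famB p q e ^ 2 ≤ 1 := by
    have : ∀ e : Fin 8, famA p q e ^ 2 + famB p q e ^ 2 ≤ 1 := by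
      intro e
      have hp := sq_nonneg p
      have hq := sq_nonneg q
      have hp1 : |p| ≤ 1 := by rw [← sq_le_one_iff_abs_le_one]; linarith
      have hq1 : |q| ≤ 1 := by rw [← sq_le_one_iff_abs_le_one]; linarith
      fin_cases e <;> simp [famA, famB] <;> first | assumption | nlinarith
    exact this e
  have h3 := Real.sin_sq_add_cos_sq (Real.pi / 2 * t)
  have h4 : famE p q e t ^ 2 ≤ 1 := by
    unfold famE
    set A := famA p q e
    set B := famB p q e
    set c := Real.cos (Real.pi / 2 * t)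
    set s := Real.sin (Real.pi / 2 * t)
    have : (A * c + B * s) ^ 2 + (A * s - B * c) ^ 2 = (A ^ 2 + B ^ 2) * (s ^ 2 + c ^ 2) := by ring
    rw [h3, mul_one] at this
    nlinarith [sq_nonneg (A * s - B * c)]
  constructor <;> nlinarith

theorem famV_abs_le (p q : ℝ) (hpq : p ^ 2 + q ^ 2 ≤ 1) (i : Fin 5) :
    famV p q i ≤ 1 ∧ -1 ≤ famV p q i := by
  have hc : famV p q i ^ 2 ≤ 1 := by
    have : ∀ i : Fin 5, famV p q i ^ 2 ≤ 1 := by
      intro i
      have hp := sq_nonneg p
      have hq := sq_nonneg q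
      have hp1 : |p| ≤ 1 := by rw [← sq_le_one_iff_abs_le_one]; linarith
      have hq1 : |q| ≤ 1 := by rw [← sq_le_one_iff_abs_le_one]; linarith
      rcases fin5_cases i with rfl | rfl | rfl | rfl | rfl <;> simp [famV] <;> assumption
    exact this i
  constructor <;> nlinarith

end Pool.Agent.V1187.QG
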