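import Pool.Agent.V1187.Wheel
import Pool.Agent.V1187.QEnergy

/-!
# Hot spots of the wheel
-/

set_option autoImplicit false

open Set

namespace Pool.Agent.V1187.QG

theorem IsSecond_unique {G : MetricGraph} {α : Fin G.nV → ℝ} {a b : ℝ} (ha : G.IsSecond α a)
    (hb : G.IsSecond α b) : a = b := by
  obtain ⟨l, h1, h2⟩ := ha
  obtain ⟨m, h3, h4⟩ := hb
  have : l = m := h1.unique h3
  subst this
  exact h2.unique h4

theorem wheel_connected : wheel.Connected := by
  refine ⟨by show 0 < 5; norm_num, ?_⟩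
  have h : ∀ v : Fin 5, Relation.EqvGen (wheel.Joined ∅) v (4 : Fin 5) := by
    have e : ∀ e : Fin 8, Relation.EqvGen (wheel.Joined ∅) (wsrc e) (wtgt e) := fun e =>
      Relation.EqvGen.rel _ _ ⟨e, Set.notMem_empty _, rfl, rfl⟩
    intro v
    rcases fin5_cases v with rfl | rfl | rfl | rfl | rfl
    · exact (e 4).symm
    · exact (e 5).symm
    · exact (e 6).symm
    · exact (e 7).symm
    · exact Relation.EqvGen.refl _
  intro v w
  exact (h v).trans _ _ _ (h w).symm

/-- The point of the first rim edge with coordinate `t`. -/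
def rimPt (t : Ioo (0 : ℝ) 1) : wheel.Point := Sum.inr ⟨(0 : Fin 8), t⟩

/-- coordinate of a point on its edge -/
def coordOf : wheel.Point → ℝ := Sum.elim (fun _ => 0) (fun x => x.2.1)

theorem wheel_hot_infinite {a : ℝ} (hsec : wheel.IsSecond (hubStrength a) ((Real.pi / 2) ^ 2)) :
    (wheel.HotSpots (hubStrength a)).Infinite := by
  have hinj : Function.Injective rimPt := by
    intro s t hst
    exact Subtype.ext (congrArg coordOf hst)
  have hinf : (univ : Set (Ioo (0 : ℝ) 1)).Infinite := by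
    rw [Set.infinite_univ_iff]
    exact (Set.Ioo_infinite (zero_lt_one' ℝ)).to_subtype
  have h2 := hinf.image (f := rimPt) hinj.injOn
  refine h2.mono ?_
  rintro _ ⟨⟨t, ht⟩, -, rfl⟩
  set p := Real.cos (Real.pi / 2 * t) with hp
  set q := Real.sin (Real.pi / 2 * t) with hq
  have hpq : p ^ 2 + q ^ 2 = 1 := by rw [hp, hq]; exact Real.cos_sq_add_sin_sq _
  have hval : fam p q (rimPt ⟨t, ht⟩) = 1 := by
    have : fam p q (rimPt ⟨t, ht⟩) =
        p * Real.cos (Real.pi / 2 * t) + q * Real.sin (Real.pi / 2 * t) := by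
      rfl
    rw [this, ← hp, ← hq]
    linarith
  refine ⟨_, hsec, fam p q, ?_, fam_isSolution a p q, Or.inl ?_⟩
  · intro h0
    rw [h0] at hval
    exact zero_ne_one hval
  · intro y
    rw [hval]
    rcases y with v | ⟨e, s⟩
    · exact (famV_abs_le p q hpq.le v).1
    · exact (famE_abs_le p q hpq.le e s.1).1

theorem wheel_hub_not_hot {a : ℝ} (ha : 0 ≤ a)
    (hsec : wheel.IsSecond (hubStrength a) ((Real.pi / 2) ^ 2)) :
    wv 4 ∉ wheel.HotSpots (hubStrength a) := by
  rintro ⟨lam, h1, u, hu, h2, h3⟩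
  have : lam = (Real.pi / 2) ^ 2 := IsSecond_unique h1 hsec
  subst this
  obtain ⟨h4, h5, h6⟩ := wheel_half ha h2
  apply hu
  apply wheel_zero Real.pi_div_two_pos (by linarith [Real.pi_pos]) h2
  rw [h4] at h3
  intro i
  have h0 : u (wv 0) = 0 := by
    rcases h3 with h | h
    · have a1 := h (wv 0); have a2 := h (wv 2); linarith
    · have a1 := h (wv 0); have a2 := h (wv 2); linarith
  have h1 : u (wv 1) = 0 := by
    rcases h3 with h | h
    · have a1 := h (wv 1); have a2 := h (wv 3); linarith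
    · have a1 := h (wv 1); have a2 := h (wv 3); linarith
  rcases fin5_cases i with rfl | rfl | rfl | rfl | rfl
  · exact h0
  · exact h1
  · rw [h5, h0, neg_zero]
  · rw [h6, h1, neg_zero]
  · exact h4

theorem hubStrength_zero : hubStrength 0 = 0 := by
  funext v
  rcases fin5_cases v with rfl | rfl | rfl | rfl | rfl <;> rfl

theorem hubStrength_nonneg {a : ℝ} (ha : 0 ≤ a) (v : Fin 5) : 0 ≤ hubStrength a v := by
  rcases fin5_cases v with rfl | rfl | rfl | rfl | rfl
  · exact le_rfl
  · exact le_rfl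
  · exact le_rfl
  · exact le_rfl
  · exact ha

/-- The eigenvalues are nonnegative (positive if `a > 0`). -/
theorem wheel_spec_nonneg {a : ℝ} (ha : 0 ≤ a) {ν : ℝ} (h : ν ∈ wheel.Spec (hubStrength a)) :
    0 ≤ ν ∧ (0 < a → 0 < ν) := by
  obtain ⟨u, hu, hsol⟩ := h
  have key : ν ≤ 0 → (ν < 0 ∨ 0 < a) → False := by
    intro hν hor
    obtain ⟨h1, h2⟩ := energy wheel (hubStrength_nonneg ha) hν hsol
    have hv : ∀ e : Fin 8, u (wv (wsrc e)) = u (wv (wtgt e)) := fun e => (h2 e).1
    have h4 : u (wv 4) = 0 := by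
      rcases hor with h | h
      · have := (h2 (4 : Fin 8)).2.2
        have h3 : ν * u (wv 4) ^ 2 = 0 := this
        exact (pow_eq_zero_iff two_ne_zero).1 ((mul_eq_zero.1 h3).resolve_left h.ne)
      · have h3 : a * u (wv 4) ^ 2 = 0 := h1 (4 : Fin 5)
        exact (pow_eq_zero_iff two_ne_zero).1 ((mul_eq_zero.1 h3).resolve_left h.ne')
    have hall : ∀ i : Fin 5, u (wv i) = 0 := by
      intro i
      rcases fin5_cases i with rfl | rfl | rfl | rfl | rfl
      · have := hv 4; exact this.symm.trans h4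
      · have := hv 5; exact this.symm.trans h4
      · have := hv 6; exact this.symm.trans h4
      · have := hv 7; exact this.symm.trans h4
      · exact h4
    apply hu
    funext x
    rcases x with v | ⟨e, t, ht⟩
    · exact hall v
    · have := (h2 e).2.1 t ht
      rw [this]
      exact hall _
  constructor
  · by_contra hc
    push Not at hc
    exact key hc.le (Or.inl hc)
  · intro ha'
    by_contra hc
    push Not at hc
    exact key hc (Or.inr ha')

theorem fam_ne_zero : fam 1 0 ≠ 0 := by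
  intro h
  have : fam 1 0 (wv 0) = 0 := by rw [h]; rfl
  have h2 : fam 1 0 (wv 0) = 1 := rfl
  rw [h2] at this
  exact one_ne_zero this

theorem half_mem_spec (a : ℝ) : (Real.pi / 2) ^ 2 ∈ wheel.Spec (hubStrength a) :=
  ⟨fam 1 0, fam_ne_zero, fam_isSolution a 1 0⟩

theorem wheel_second_zero : wheel.IsSecond (hubStrength 0) ((Real.pi / 2) ^ 2) := by
  refine ⟨0, ⟨?_, fun ν hν => (wheel_spec_nonneg le_rfl hν).1⟩, ⟨half_mem_spec 0, by positivity⟩, ?_⟩
  · refine ⟨fun _ => 1, ?_, fun _ _ => 1, fun _ _ => 0, ?_, ?_, ?_⟩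
    · intro h
      have := congrFun h (wv 0)
      exact one_ne_zero this
    · intro e
      exact ⟨rfl, rfl, fun _ _ => rfl⟩
    · intro e t _
      exact ⟨hasDerivWithinAt_const _ _ _, (hasDerivWithinAt_const _ _ _).congr_deriv (by simp)⟩
    · intro v
      rw [hubStrength_zero]
      show _ = (0 : ℝ) * _
      simp
  · rintro ν ⟨⟨u, hu, hsol⟩, hν⟩
    by_contra hc
    push Not at hc
    have hk : 0 < Real.sqrt ν := Real.sqrt_pos.2 hν
    have hk2 : Real.sqrt ν < Real.pi / 2 := by
      rw [Real.sqrt_lt' Real.pi_div_two_pos]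
      exact hc
    have hsq : Real.sqrt ν ^ 2 = ν := Real.sq_sqrt hν.le
    rw [← hsq] at hsol
    obtain ⟨e0, e1, e2, e3, e4⟩ := wheel_eqs hk hsol
    have hcos : 0 < Real.cos (Real.sqrt ν) := Real.cos_pos_of_mem_Ioo ⟨by linarith, hk2⟩
    have hcos1 : Real.cos (Real.sqrt ν) < 1 := by
      rw [← Real.cos_zero]
      exact Real.cos_lt_cos_of_nonneg_of_le_pi le_rfl (by linarith [Real.pi_pos]) hk
    apply hu
    apply wheel_hub hk hk2 hsol
    set c := Real.cos (Real.sqrt ν) with hcdef
    have hS : u (wv 0) + u (wv 1) + u (wv 2) + u (wv 3) = 4 * c * u (wv 4) := by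
      apply mul_left_cancel₀ hk.ne'
      linear_combination e4
    have h5 : (4 * (c - 1) * (3 * c + 1)) * u (wv 4) = 0 := by
      linear_combination (-1 : ℝ) * (e0 + e1 + e2 + e3) - (3 * c - 2) * hS
    refine (mul_eq_zero.1 h5).resolve_left ?_
    have : c - 1 ≠ 0 := by linarith
    have h6 : 3 * c + 1 ≠ 0 := by linarith
    positivity

end Pool.Agent.V1187.QG
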